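import Mathlib
import Pool.Agent.Work.MP_4bb68c_cl.Defs

/-!
# All stationary laws of ballistic deposition on `ℤ`: definitions (FIXED, do not edit)

Local systems (one update map for each site), words of updates, averages over lazy random words,
the balance equation of stationarity, ancestors, colours, couplings.
-/

set_option autoImplicit false

open MeasureTheory ProbabilityTheory Filter Topology
open scoped NNReal ENNReal

namespace Pool.MP4bb68cEx

open Pool.MP4bb68c Pool.MP4bb68cOne Pool.MP4bb68cCl

/-! ## Local systems -/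

/-- A local system on configurations `ℤ → A`: the update `T s` of the site `s` changes only the
coordinates `s - 1` and `s` and reads only the coordinates `s - 1, s, s + 1`. -/
structure Sys (A : Type) where
  T : ℤ → (ℤ → A) → ℤ → A
  out : ∀ (s : ℤ) (x : ℤ → A) (y : ℤ), y ≠ s - 1 → y ≠ s → T s x y = x y
  dep : ∀ (s : ℤ) (x x' : ℤ → A), (∀ y, s - 1 ≤ y → y ≤ s + 1 → x y = x' y) →
    ∀ y, s - 1 ≤ y → y ≤ s → T s x y = T s x' y
  shift : ∀ (s : ℤ) (x : ℤ → A) (y : ℤ), T s (fun z => x (z + 1)) y = T (s + 1) x (y + 1)

/-- The successive updates of the letters of a word (the head of the list is the first one). -/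
def Sys.wd {A : Type} (L : Sys A) : List ℤ → (ℤ → A) → ℤ → A
  | [], x => x
  | s :: σ, x => L.wd σ (L.T s x)

/-- `f` depends only on the coordinates `-n, ..., n`. -/
def Loc {A : Type} (n : ℕ) (f : (ℤ → A) → ℝ) : Prop :=
  ∀ x x' : ℤ → A, (∀ y : ℤ, -(n : ℤ) ≤ y → y ≤ n → x y = x' y) → f x = f x'

/-- `B` depends only on the coordinates `-n, ..., n`. -/
def LocS {A : Type} (n : ℕ) (B : Set (ℤ → A)) : Prop :=
  ∀ x x' : ℤ → A, (∀ y : ℤ, -(n : ℤ) ≤ y → y ≤ n → x y = x' y) → (x ∈ B ↔ x' ∈ B)

/-- The shift of a configuration by `a`. -/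
def tra {A : Type} (a : ℤ) (x : ℤ → A) : ℤ → A := fun y => x (y + a)

/-- The balance equation: `μ` is stationary for the dynamics in which each site is updated at
rate one. -/
def Stn {A : Type} [MeasurableSpace A] (L : Sys A) (μ : Measure (ℤ → A)) : Prop :=
  ∀ (n : ℕ) (f : (ℤ → A) → ℝ), Loc n f → (∀ x, |f x| ≤ 1) →
    ∑ s ∈ Finset.Icc (-(n : ℤ)) (n + 1), (∫ x, f (L.T s x) ∂μ - ∫ x, f x ∂μ) = 0

/-! ## Averages over lazy random words -/

/-- The average of `F` over lazy random words with `k` steps: each step is, with probability `1/2`,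
nothing, otherwise a uniformly distributed letter of `W`. -/
noncomputable def EW (W : Finset ℤ) : ℕ → (List ℤ → ℝ) → ℝ
  | 0, F => F []
  | k + 1, F => (1 / 2) * EW W k F + (1 / (2 * (W.card : ℝ))) * ∑ y ∈ W,
      EW W k (fun σ => F (y :: σ))

/-- The radius of the `i`-th window. -/
def Rr (i : ℕ) : ℕ := 20 * (i + 1)

/-- The `i`-th window of letters. -/
noncomputable def Ww (i : ℕ) : Finset ℤ := Finset.Icc (-(Rr i : ℤ)) (Rr i)

/-- The probability of one letter in one step (the length of a step in time). -/
noncomputable def dw (i : ℕ) : ℝ := 1 / (2 * (2 * (Rr i : ℝ) + 1))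

/-- The number of steps up to the time `i + 1`: `Kk i * dw i = i + 1`. -/
def Kk (i : ℕ) : ℕ := (i + 1) * (2 * (2 * Rr i + 1))

/-- The error of the invariance for functions on the window `n`. -/
noncomputable def er (n i : ℕ) : ℝ :=
  6 * ((i : ℝ) + 1) * 2 ^ n * Real.exp (4 * ((i : ℝ) + 1)) / 2 ^ (20 * (i + 1))

/-- The average over the times `0 ≤ t < i + 1`. -/
noncomputable def av (i : ℕ) (F : List ℤ → ℝ) : ℝ :=
  (1 / (Kk i : ℝ)) * ∑ k ∈ Finset.range (Kk i), EW (Ww i) k F

/-! ## Heights: sources, ancestors, greedy lines -/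

/-- The source of the new height at `s`: the rightmost neighbour (or `s` itself) which gives the
maximum in `max {h (s + 1), h s + 1, h (s - 1)}`. -/
def cs (h : ℤ → ℤ) (s : ℤ) : ℤ :=
  if max (h s + 1) (h (s - 1)) ≤ h (s + 1) then s + 1
  else if h (s - 1) ≤ h s + 1 then s else s - 1

/-- The ancestor of `x` (at the beginning of the word). -/
def anc : List ℤ → (ℤ → ℤ) → ℤ → ℤ
  | [], _, x => x
  | s :: σ, h, x => if anc σ (up1 s h) x = s then cs h s else anc σ (up1 s h) x

/-- The greedy line from `x`: backwards in time it moves by `e` at each update of its position. -/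
def gl (e : ℤ) : List ℤ → ℤ → ℤ
  | [], x => x
  | s :: σ, x => if gl e σ x = s then s + e else gl e σ x

/-- The right front: if two configurations agree on the coordinates `< B`, then after the word `σ`
they agree on the coordinates `< fr σ B`. -/
def fr : List ℤ → ℤ → ℤ
  | [], B => B
  | y :: σ, B => fr σ (if y = B - 1 then B - 2 else if y = B then B - 1 else B)

/-- The left front: if two configurations agree on the coordinates `> B`, then after the word `σ`
they agree on the coordinates `> lf σ B`. -/
def lf : List ℤ → ℤ → ℤ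
  | [], B => B
  | y :: σ, B => lf σ (if y = B + 1 then B + 1 else B)

/-! ## The systems -/

/-- The growth at `s` if `s` is updated, in terms of the increments. -/
def cc (η : ℤ → ℤ) (s : ℤ) : ℤ := max 1 (max (η s) (-η (s - 1)))

/-- The source, in terms of the increments. -/
def csI (η : ℤ → ℤ) (s : ℤ) : ℤ :=
  if 1 ≤ η s ∧ 0 ≤ η s + η (s - 1) then s + 1 else if -1 ≤ η (s - 1) then s else s - 1

/-- The increments. -/
def SI : Sys ℤ where
  T := fun s η x => if x = s - 1 then η x + cc η s else if x = s then η x - cc η s else η x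
  out := by
    intro s x y h1 h2
    simp only [h1, h2, if_false]
  dep := by
    intro s x x' h y h1 h2
    have e1 : x y = x' y := h y h1 (by omega)
    have e2 : cc x s = cc x' s := by
      unfold cc
      rw [h s (by omega) (by omega), h (s - 1) (by omega) (by omega)]
    simp only [e1, e2]
  shift := by
    intro s x y
    have e2 : cc (fun z => x (z + 1)) s = cc x (s + 1) := by
      unfold cc
      simp only [sub_add_cancel, add_sub_cancel_right]
    have e3 : (y = s - 1) ↔ (y + 1 = s + 1 - 1) := by omega
    have e4 : (y = s) ↔ (y + 1 = s + 1) := by omega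
    simp only [e2, e3, e4]

/-- Two families of increments with the same updates. -/
def SP : Sys (ℤ × ℤ) where
  T := fun s x y => (SI.T s (fun z => (x z).1) y, SI.T s (fun z => (x z).2) y)
  out := by
    intro s x y h1 h2
    show (SI.T s (fun z => (x z).1) y, SI.T s (fun z => (x z).2) y) = x y
    rw [SI.out s _ y h1 h2, SI.out s _ y h1 h2]
  dep := by
    intro s x x' h y h1 h2
    show (SI.T s (fun z => (x z).1) y, SI.T s (fun z => (x z).2) y) =
      (SI.T s (fun z => (x' z).1) y, SI.T s (fun z => (x' z).2) y)
    rw [SI.dep s (fun z => (x z).1) (fun z => (x' z).1) (fun z a b => by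
        show (x z).1 = (x' z).1
        rw [h z a b]) y h1 h2,
      SI.dep s (fun z => (x z).2) (fun z => (x' z).2) (fun z a b => by
        show (x z).2 = (x' z).2
        rw [h z a b]) y h1 h2]
  shift := by
    intro s x y
    show (SI.T s (fun z => (x (z + 1)).1) y, SI.T s (fun z => (x (z + 1)).2) y) =
      (SI.T (s + 1) (fun z => (x z).1) (y + 1), SI.T (s + 1) (fun z => (x z).2) (y + 1))
    rw [← SI.shift s (fun z => (x z).1) y, ← SI.shift s (fun z => (x z).2) y]

/-- Increments and colours: the updated site takes the colour of its source. -/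
def SC : Sys (ℤ × Bool) where
  T := fun s x y => (SI.T s (fun z => (x z).1) y,
    if y = s then (x (csI (fun z => (x z).1) s)).2 else (x y).2)
  out := by
    intro s x y h1 h2
    show (SI.T s (fun z => (x z).1) y,
      if y = s then (x (csI (fun z => (x z).1) s)).2 else (x y).2) = x y
    rw [SI.out s _ y h1 h2, if_neg h2]
  dep := by
    intro s x x' h y h1 h2
    show (SI.T s (fun z => (x z).1) y,
      if y = s then (x (csI (fun z => (x z).1) s)).2 else (x y).2) =
      (SI.T s (fun z => (x' z).1) y,
      if y = s then (x' (csI (fun z => (x' z).1) s)).2 else (x' y).2)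
    have e1 : csI (fun z => (x z).1) s = csI (fun z => (x' z).1) s := by
      unfold csI
      simp only [h s (by omega) (by omega), h (s - 1) (by omega) (by omega)]
    have e2 : x (csI (fun z => (x' z).1) s) = x' (csI (fun z => (x' z).1) s) := by
      apply h
      · unfold csI
        split_ifs <;> omega
      · unfold csI
        split_ifs <;> omega
    rw [SI.dep s (fun z => (x z).1) (fun z => (x' z).1) (fun z a b => by
        show (x z).1 = (x' z).1
        rw [h z a b]) y h1 h2, e1, e2, h y h1 (by omega)]
  shift := by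
    intro s x y
    show (SI.T s (fun z => (x (z + 1)).1) y,
      if y = s then (x (csI (fun z => (x (z + 1)).1) s + 1)).2 else (x (y + 1)).2) =
      (SI.T (s + 1) (fun z => (x z).1) (y + 1),
      if y + 1 = s + 1 then (x (csI (fun z => (x z).1) (s + 1))).2 else (x (y + 1)).2)
    have e1 : csI (fun z => (x (z + 1)).1) s + 1 = csI (fun z => (x z).1) (s + 1) := by
      unfold csI
      simp only [sub_add_cancel, add_sub_cancel_right]
      split_ifs <;> omega
    have e4 : (y + 1 = s + 1) ↔ (y = s) := by omega
    rw [← SI.shift s (fun z => (x z).1) y, e1]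
    simp only [e4]

/-- The two families of a pair. -/
def fsI (x : ℤ → ℤ × ℤ) : ℤ → ℤ := fun y => (x y).1

/-- The two families of a pair. -/
def snI (x : ℤ → ℤ × ℤ) : ℤ → ℤ := fun y => (x y).2

/-- The increments of a coloured configuration. -/
def hI (x : ℤ → ℤ × Bool) : ℤ → ℤ := fun y => (x y).1

/-- The colours of a coloured configuration. -/
def zI (x : ℤ → ℤ × Bool) : ℤ → Bool := fun y => (x y).2

/-- The configurations for which the update of `s` removes two changes of colour. -/
def Bl (s : ℤ) : Set (ℤ → ℤ × Bool) :=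
  {x | csI (hI x) s ≠ s ∧ zI x (s - 1) = zI x (s + 1) ∧ zI x s ≠ zI x (s + 1)}

/-- `ζ` has a change of colour at the bond from `x` to `x + 1`. -/
def Ch (x : ℤ) : Set (ℤ → ℤ × Bool) := {ξ | zI ξ x ≠ zI ξ (x + 1)}

/-- The colours are `false` up to `X` and `true` to the right of `X`. -/
def Up (X : ℤ) (ξ : ℤ → ℤ × Bool) : Prop := ∀ y, zI ξ y = true ↔ X < y

/-- A bounded strictly increasing function. -/
noncomputable def psi (m : ℤ) : ℝ := (m : ℝ) / (1 + |(m : ℝ)|)

/-- The height of `-K` minus the height of `K`. -/
noncomputable def mh (K : ℕ) (ξ : ℤ → ℤ × Bool) : ℤ := -∑ x ∈ Finset.Ico (-(K : ℤ)) K, hI ξ x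

/-- `K` is `true` and `-K` is `false`. -/
def Mid (K : ℕ) (ξ : ℤ → ℤ × Bool) : Prop := zI ξ K = true ∧ zI ξ (-(K : ℤ)) = false

/-- The test function of the dissipation argument. -/
noncomputable def Fd (K : ℕ) (ξ : ℤ → ℤ × Bool) : ℝ :=
  if zI ξ K = false then 1 else if zI ξ (-(K : ℤ)) = true then -1 else psi (mh K ξ)

/-- The guaranteed change of the test function. -/
noncomputable def chi (m : ℤ) : ℝ := min (psi m - psi (m - 1)) (min (psi m + 1) (1 - psi m))

/-- `ν` is a law of increments which is stationary and extremal. -/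
def ExtI (ν : Measure (ℤ → ℤ)) : Prop :=
  IsProbabilityMeasure ν ∧ Stn SI ν ∧
    ∀ α : Measure (ℤ → ℤ), IsProbabilityMeasure α → Stn SI α →
      ∀ C : ℝ≥0∞, C ≠ ∞ → α ≤ C • ν → α = ν

/-- The height function on the one-dimensional lattice with the increments `η` and height zero at
the origin. -/
def ht (η : ℤ → ℤ) : Height 1 := fun x => pr η (x 0)

end Pool.MP4bb68cEx
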