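import Mathlib
import Pool.Agent.Work.MP_4bb68c_ex.Defs

/-!
# All stationary laws of ballistic deposition on `ℤ`: more definitions (FIXED, do not edit)
-/

set_option autoImplicit false

open MeasureTheory ProbabilityTheory Filter Topology
open scoped NNReal ENNReal

namespace Pool.MP4bb68cEx

open Pool.MP4bb68c Pool.MP4bb68cOne Pool.MP4bb68cCl

/-- Exchange of the two families of a pair. -/
def sw (x : ℤ → ℤ × ℤ) : ℤ → ℤ × ℤ := fun y => ((x y).2, (x y).1)

/-- Exchange of the two colours. -/
def ngc (x : ℤ → ℤ × Bool) : ℤ → ℤ × Bool := fun y => ((x y).1, !(x y).2)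

/-- The second family dominates the first one. -/
def Pos : Set (ℤ → ℤ × ℤ) := {x | ∀ y, (x y).1 ≤ (x y).2}

/-- The first family dominates the second one. -/
def Neg : Set (ℤ → ℤ × ℤ) := {x | ∀ y, (x y).2 ≤ (x y).1}

/-- The difference of the two families. -/
def dl2 (x : ℤ → ℤ × ℤ) (y : ℤ) : ℤ := (x y).2 - (x y).1

open Classical in
/-- Some difference in `[-N, y - 1]` is not zero. -/
noncomputable def zN (N : ℕ) (x : ℤ → ℤ × ℤ) (y : ℤ) : Bool :=
  decide (∃ z, -(N : ℤ) ≤ z ∧ z < y ∧ dl2 x z ≠ 0)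

/-- The maximum of `h'` and of `h + 1` (the heights are equal at `-N`), and the colour: which of the
two is the larger one (`true` if `h + 1 ≤ h'`). -/
noncomputable def psiN (N : ℕ) (x : ℤ → ℤ × ℤ) : ℤ → ℤ × Bool := fun y =>
  ((x y).2 - (if zN N x y = false ∧ zN N x (y + 1) = true then 1 else 0), zN N x y)

open Classical in
/-- Some difference to the left of `y` is not zero. -/
noncomputable def zInf (x : ℤ → ℤ × ℤ) (y : ℤ) : Bool :=
  decide (∃ z, z < y ∧ dl2 x z ≠ 0)

/-- The same as `psiN`, with `N = ∞`. -/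
noncomputable def psiI (x : ℤ → ℤ × ℤ) : ℤ → ℤ × Bool := fun y =>
  ((x y).2 - (if zInf x y = false ∧ zInf x (y + 1) = true then 1 else 0), zInf x y)

/-- The average of the test function over lazy random words. -/
noncomputable def gk (K : ℕ) (W : Finset ℤ) (k : ℕ) (ξ : ℤ → ℤ × Bool) : ℝ :=
  EW W k (fun σ => Fd K (SC.wd σ ξ))

open Classical in
/-- The words for which the state at the end is in the middle case with a height difference at
most `M`, and the ancestor of `K` is at most `Z`. -/
noncomputable def gd (K M : ℕ) (Z : ℤ) (ξ : ℤ → ℤ × Bool) (σ : List ℤ) : ℝ :=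
  if Mid K (SC.wd σ ξ) ∧ |mh K (SC.wd σ ξ)| ≤ M ∧ anc σ (pr (hI ξ)) K ≤ Z then 1 else 0

/-- Heights from a law of increments. -/
noncomputable def htL (ν : Measure (ℤ → ℤ)) : Measure (Height 1) := ν.map ht

end Pool.MP4bb68cEx
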