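import Mathlib
import Pool.Agent.Work.MP_4bb68c_ex.Defs2

/-!
# All stationary laws of ballistic deposition on `ℤ`: extremality and order (FIXED, do not edit)
-/

set_option autoImplicit false

open MeasureTheory ProbabilityTheory Filter Topology
open scoped NNReal ENNReal

namespace Pool.MP4bb68cEx

open Pool.MP4bb68c Pool.MP4bb68cOne Pool.MP4bb68cCl

/-- Extremal stationary laws of the heights seen from the origin. -/
def ExtH (ν : Measure (Height 1)) : Prop :=
  IsProbabilityMeasure ν ∧ IsStationary ν ∧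
    ∀ ν₁ ν₂ : Measure (Height 1), IsProbabilityMeasure ν₁ → IsProbabilityMeasure ν₂ →
      IsStationary ν₁ → IsStationary ν₂ → ∀ a : ℝ, 0 < a → a < 1 →
        ν = ENNReal.ofReal a • ν₁ + ENNReal.ofReal (1 - a) • ν₂ → ν₁ = ν

/-- The stochastic order of two laws of increments (on local events). -/
def LeI (π π' : Measure (ℤ → ℤ)) : Prop :=
  ∀ (M : ℕ) (A : Set Inc), MeasurableSet A → DepOn M A →
    (∀ η η' : Inc, (∀ x, η x ≤ η' x) → η ∈ A → η' ∈ A) → π.real A ≤ π'.real A

end Pool.MP4bb68cEx
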