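import Mathlib
import Pool.Agent.Work.MP_4bb68c_ex.Defs

/-!
# Sources and ancestors: basic facts (module Anc, size S-M)

`up1 s h` (from the older library: `up (fun x => decide (x = s)) h`) is the update of the site `s`:
it replaces `h s` by `max (h s + 1) (max (h (s + 1)) (h (s - 1)))`. `cs h s` is the rightmost
candidate among `s - 1, s, s + 1` which attains this maximum, where the candidate `c` has the value
`h c + (if c = s then 1 else 0)`.

PROOFS. `cs_cases`, `up1_self`, `cand_le`, `cs_right`: unfold `cs`, `up1`, `up`; split the cases and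
use `omega` (after turning `max` into inequalities: `max_le_iff`, `le_max_iff`, `max_def`).
`cs_add`, `up1_add`: unfold. `wd_add`, `anc_add`: induction on `σ` generalizing `h`, with `cs_add` and
`up1_add`.
`wd_snoc`: induction on `σ` (or `wd_append` of the older library, file MP_4bb68c_cl).
`anc_snoc`: induction on `σ` generalizing `h`. For `σ = []`: both sides are
`if x = s then cs h s else x`. For `t :: σ`: `anc (t :: (σ ++ [s])) h x` is, with
`y = anc (σ ++ [s]) (up1 t h) x`, equal to `if y = t then cs h t else y`, and by the induction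
hypothesis `y = if x = s then anc σ (up1 t h) (cs (wd σ (up1 t h)) s) else anc σ (up1 t h) x`; unfold
the right side in the same way (`wd (t :: σ) h = wd σ (up1 t h)`).
-/

set_option autoImplicit false

open MeasureTheory ProbabilityTheory Filter Topology
open scoped NNReal ENNReal

namespace Pool.MP4bb68cEx

open Pool.MP4bb68c Pool.MP4bb68cOne Pool.MP4bb68cCl

theorem cs_cases (h : ℤ → ℤ) (s : ℤ) : cs h s = s - 1 ∨ cs h s = s ∨ cs h s = s + 1 := by
  unfold cs
  split_ifs <;> omega

theorem up1_of_ne {s x : ℤ} (hx : x ≠ s) (h : ℤ → ℤ) : up1 s h x = h x := by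
  unfold up1 up
  rw [if_neg]
  simpa using hx

theorem up1_self (h : ℤ → ℤ) (s : ℤ) :
    up1 s h s = h (cs h s) + if cs h s = s then 1 else 0 := by
  have e : up1 s h s = max (h s + 1) (max (h (s + 1)) (h (s - 1))) := by
    unfold up1 up
    rw [if_pos]
    simp
  rw [e]
  unfold cs
  by_cases h1 : max (h s + 1) (h (s - 1)) ≤ h (s + 1)
  · rw [if_pos h1, if_neg (by omega)]
    omega
  · rw [if_neg h1]
    by_cases h2 : h (s - 1) ≤ h s + 1
    · rw [if_pos h2, if_pos rfl]
      omega
    · rw [if_neg h2, if_neg (by omega)]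
      omega

theorem lt_up1_self (h : ℤ → ℤ) (s : ℤ) : h s < up1 s h s := by
  have e : up1 s h s = max (h s + 1) (max (h (s + 1)) (h (s - 1))) := by
    unfold up1 up
    rw [if_pos]
    simp
  rw [e]
  omega

theorem le_up1 (h : ℤ → ℤ) (s x : ℤ) : h x ≤ up1 s h x := by
  by_cases hx : x = s
  · rw [hx]
    exact (lt_up1_self h s).le
  · rw [up1_of_ne hx]

theorem cand_le (h : ℤ → ℤ) (s c : ℤ) (hc : c = s - 1 ∨ c = s ∨ c = s + 1) :
    (h c + if c = s then 1 else 0) ≤ up1 s h s := by
  have e : up1 s h s = max (h s + 1) (max (h (s + 1)) (h (s - 1))) := by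
    unfold up1 up
    rw [if_pos]
    simp
  rw [e]
  rcases hc with rfl | rfl | rfl
  · rw [if_neg (by omega)]
    omega
  · rw [if_pos rfl]
    omega
  · rw [if_neg (by omega)]
    omega

theorem cs_right (h : ℤ → ℤ) (s c : ℤ) (hc : c = s - 1 ∨ c = s ∨ c = s + 1)
    (he : (h c + if c = s then 1 else 0) = up1 s h s) : c ≤ cs h s := by
  have e : up1 s h s = max (h s + 1) (max (h (s + 1)) (h (s - 1))) := by
    unfold up1 up
    rw [if_pos]
    simp
  rw [e] at he
  unfold cs
  by_cases h1 : max (h s + 1) (h (s - 1)) ≤ h (s + 1)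
  · rw [if_pos h1]
    omega
  · rw [if_neg h1]
    by_cases h2 : h (s - 1) ≤ h s + 1
    · rw [if_pos h2]
      rcases hc with rfl | rfl | rfl
      · omega
      · omega
      · rw [if_neg (by omega)] at he
        omega
    · rw [if_neg h2]
      rcases hc with rfl | rfl | rfl
      · omega
      · rw [if_pos rfl] at he
        omega
      · rw [if_neg (by omega)] at he
        omega

theorem wd_snoc (σ : List ℤ) (s : ℤ) (h : ℤ → ℤ) : wd (σ ++ [s]) h = up1 s (wd σ h) := by
  induction σ generalizing h with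
  | nil => rfl
  | cons t σ ih => exact ih (up1 t h)

theorem anc_snoc (σ : List ℤ) (s : ℤ) (h : ℤ → ℤ) (x : ℤ) :
    anc (σ ++ [s]) h x = if x = s then anc σ h (cs (wd σ h) s) else anc σ h x := by
  induction σ generalizing h with
  | nil => rfl
  | cons t σ ih =>
    have e1 : anc (t :: σ ++ [s]) h x =
        if anc (σ ++ [s]) (up1 t h) x = t then cs h t else anc (σ ++ [s]) (up1 t h) x := rfl
    have e2 : ∀ y, anc (t :: σ) h y = if anc σ (up1 t h) y = t then cs h t else anc σ (up1 t h) y :=
      fun _ => rfl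
    have e3 : wd (t :: σ) h = wd σ (up1 t h) := rfl
    rw [e1, ih, e2, e2, e3]
    by_cases hx : x = s
    · rw [if_pos hx, if_pos hx]
    · rw [if_neg hx, if_neg hx]

theorem cs_add (h : ℤ → ℤ) (a s : ℤ) : cs (fun x => h x + a) s = cs h s := by
  unfold cs
  have e1 : (max (h s + a + 1) (h (s - 1) + a) ≤ h (s + 1) + a) ↔
      (max (h s + 1) (h (s - 1)) ≤ h (s + 1)) := by omega
  have e2 : (h (s - 1) + a ≤ h s + a + 1) ↔ (h (s - 1) ≤ h s + 1) := by omega
  simp only [e1, e2]

theorem up1_add (h : ℤ → ℤ) (a s : ℤ) : up1 s (fun x => h x + a) = fun x => up1 s h x + a := by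
  funext x
  by_cases hx : x = s
  · have e : ∀ g : ℤ → ℤ, up1 s g s = max (g s + 1) (max (g (s + 1)) (g (s - 1))) := by
      intro g
      unfold up1 up
      rw [if_pos]
      simp
    rw [hx, e, e]
    omega
  · rw [up1_of_ne hx, up1_of_ne hx]

theorem wd_add (σ : List ℤ) (h : ℤ → ℤ) (a : ℤ) :
    wd σ (fun x => h x + a) = fun x => wd σ h x + a := by
  induction σ generalizing h with
  | nil => rfl
  | cons t σ ih =>
    have e : ∀ g : ℤ → ℤ, wd (t :: σ) g = wd σ (up1 t g) := fun _ => rfl
    rw [e, e, up1_add, ih]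

theorem anc_add (σ : List ℤ) (h : ℤ → ℤ) (a : ℤ) : anc σ (fun x => h x + a) = anc σ h := by
  induction σ generalizing h with
  | nil => rfl
  | cons t σ ih =>
    funext x
    have e : ∀ g : ℤ → ℤ, anc (t :: σ) g x =
      if anc σ (up1 t g) x = t then cs g t else anc σ (up1 t g) x := fun _ => rfl
    rw [e, e, up1_add, ih, cs_add]

end Pool.MP4bb68cEx
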