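import Mathlib
import Pool.Agent.Work.MP_4bb68c_ex.Defs
import Pool.Agent.Work.MP_4bb68c_ex.Anc
import Pool.Agent.Work.MP_4bb68c_cl.DetA

/-!
# The systems in terms of heights and ancestors (module Link, size M)

`gr h x = h (x + 1) - h x`; `pr η` is the function with `pr η 0 = 0` and increments `η` (older
library MP_4bb68c_cl: `pr_zero`, `pr_succ` or similar; `gr (pr η) = η`; if it is missing prove
`pr η (x + 1) = pr η x + η x` by cases `0 ≤ x`, `x < 0`).

`gr_up1`: at `y = s - 1`: `up1 s h s - h (s - 1) = gr h (s - 1) + (up1 s h s - h s)` and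
`up1 s h s - h s = max 1 (max (h (s+1) - h s) (h (s-1) - h s)) = cc (gr h) s`; at `y = s`:
`h (s + 1) - up1 s h s = gr h s - cc (gr h) s`; other `y`: unchanged.
`gr_wd`: induction on the word. `csI_gr`: unfold, `gr h s = h (s+1) - h s`,
`gr h s + gr h (s-1) = h (s+1) - h (s-1)`.
`anc_gr`: `pr (gr h) = fun x => h x - h 0`, so `anc_add`.
`hI_wd`, `fsI_wd`, `snI_wd`: induction on the word (`hI (SC.T s x) = SI.T s (hI x)` by `rfl`, etc.).
`zI_wd`: induction on the word `σ` generalizing `x`. For `s :: σ`: let `x' = SC.T s x`. By the induction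
hypothesis `zI (SC.wd σ x') y = zI x' (anc σ (pr (hI x')) y)`. Here `hI x' = SI.T s (hI x) =
gr (up1 s (pr (hI x)))` (`gr_up1`, `gr (pr η) = η`), so `anc σ (pr (hI x')) = anc σ (up1 s (pr (hI x)))`
(`anc_gr`); and `zI x' z = if z = s then zI x (csI (hI x) s) else zI x z` with
`csI (hI x) s = cs (pr (hI x)) s` (`csI_gr` for `h = pr (hI x)`). This is the definition of
`anc (s :: σ) (pr (hI x)) y`.
`SI_wd_eq`: `gr_wd` for `h = pr η`.
-/

set_option autoImplicit false

open MeasureTheory ProbabilityTheory Filter Topology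
open scoped NNReal ENNReal

namespace Pool.MP4bb68cEx

open Pool.MP4bb68c Pool.MP4bb68cOne Pool.MP4bb68cCl

theorem gr_pr' (η : ℤ → ℤ) : gr (pr η) = η := gr_pr η

theorem pr_gr' (h : ℤ → ℤ) : pr (gr h) = fun x => h x - h 0 := by
  funext x
  induction x using Int.induction_on with
  | zero => rw [pr_zero, sub_self]
  | succ n ih =>
    rw [pr_succ, ih]
    unfold gr
    ring
  | pred n ih =>
    have h1 := pr_succ (gr h) (-(n : ℤ) - 1)
    rw [sub_add_cancel, ih] at h1
    unfold gr at h1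
    rw [sub_add_cancel] at h1
    show pr (gr h) (-(n : ℤ) - 1) = h (-(n : ℤ) - 1) - h 0
    unfold gr
    linarith

theorem gr_up1 (s : ℤ) (h : ℤ → ℤ) : gr (up1 s h) = SI.T s (gr h) := by
  unfold up1
  rw [gr_up]
  generalize gr h = η
  funext x
  show ng (fun x => decide (x = s)) η x =
    if x = s - 1 then η x + cc η s else if x = s then η x - cc η s else η x
  unfold ng cc
  simp only [decide_eq_true_eq]
  by_cases h1 : x = s - 1
  · subst h1
    rw [if_pos (by ring), if_neg (by omega), if_pos rfl, sub_add_cancel]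
    omega
  · by_cases h2 : x = s
    · subst h2
      rw [if_neg (by omega), if_pos rfl, if_neg (by omega), if_pos rfl]
    · rw [if_neg (by omega), if_neg h2, if_neg h1, if_neg h2, sub_zero]

theorem gr_wd (σ : List ℤ) (h : ℤ → ℤ) : gr (wd σ h) = SI.wd σ (gr h) := by
  induction σ generalizing h with
  | nil => rfl
  | cons s σ ih =>
    show gr (wd σ (up1 s h)) = SI.wd σ (SI.T s (gr h))
    rw [ih, gr_up1]

theorem csI_gr (h : ℤ → ℤ) (s : ℤ) : csI (gr h) s = cs h s := by
  unfold csI cs gr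
  rw [sub_add_cancel]
  split_ifs <;> omega

theorem anc_gr (σ : List ℤ) (h : ℤ → ℤ) : anc σ (pr (gr h)) = anc σ h := by
  rw [pr_gr']
  exact anc_add σ h (-h 0)

theorem SI_wd_eq (σ : List ℤ) (η : ℤ → ℤ) (x : ℤ) :
    SI.wd σ η x = wd σ (pr η) (x + 1) - wd σ (pr η) x := by
  have h := congrFun (gr_wd σ (pr η)) x
  rw [gr_pr'] at h
  rw [← h]
  rfl

theorem hI_wd (σ : List ℤ) (x : ℤ → ℤ × Bool) : hI (SC.wd σ x) = SI.wd σ (hI x) := by
  induction σ generalizing x with
  | nil => rfl
  | cons s σ ih => exact ih (SC.T s x)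

theorem fsI_wd (σ : List ℤ) (x : ℤ → ℤ × ℤ) : fsI (SP.wd σ x) = SI.wd σ (fsI x) := by
  induction σ generalizing x with
  | nil => rfl
  | cons s σ ih => exact ih (SP.T s x)

theorem snI_wd (σ : List ℤ) (x : ℤ → ℤ × ℤ) : snI (SP.wd σ x) = SI.wd σ (snI x) := by
  induction σ generalizing x with
  | nil => rfl
  | cons s σ ih => exact ih (SP.T s x)

theorem zI_wd (σ : List ℤ) (x : ℤ → ℤ × Bool) (y : ℤ) :
    zI (SC.wd σ x) y = zI x (anc σ (pr (hI x)) y) := by
  induction σ generalizing x with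
  | nil => rfl
  | cons s σ ih =>
    have h1 : hI (SC.T s x) = gr (up1 s (pr (hI x))) := by
      rw [gr_up1, gr_pr']
      rfl
    have h2 : csI (hI x) s = cs (pr (hI x)) s := by
      have := csI_gr (pr (hI x)) s
      rwa [gr_pr'] at this
    have h3 : ∀ z : ℤ, zI (SC.T s x) z = if z = s then zI x (csI (hI x) s) else zI x z :=
      fun z => rfl
    show zI (SC.wd σ (SC.T s x)) y =
      zI x (if anc σ (up1 s (pr (hI x))) y = s then cs (pr (hI x)) s
        else anc σ (up1 s (pr (hI x))) y)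
    rw [ih, h1, anc_gr, h3, h2]
    split_ifs with h4
    · rfl
    · rfl

end Pool.MP4bb68cEx
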