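import Mathlib
import Pool.Agent.Work.MP_4bb68c_ex.Defs

/-!
# Averages over lazy random words: basic facts (module EWb, size M)

`EW W k F` is a finite average (weights `1/2` and `1/(2 |W|)` for the letters): all statements by
induction on `k` generalizing `F`; for `W` nonempty the weights `1/2 + |W| * 1/(2|W|)` add up to one.

`EW_mono`: the words which occur have length `≤ k` and letters in `W`: step: apply the induction
hypothesis to `F`, `G` and to `fun σ => F (y :: σ)`, `fun σ => G (y :: σ)` for `y ∈ W`.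
`EW_abs_le`: `EW_mono` for `F ≤ G` and `-G ≤ F` (`EW_mul` with `c = -1`).
`EW_snoc`: induction on `k` generalizing `F`. `k = 0`: both sides are
`1/2 * F [] + w * ∑ y, F [y]`. Step: unfold `EW W (k + 2) F` once, apply the induction hypothesis to
`EW W (k + 1) F` and to each `EW W (k + 1) (fun σ => F (y :: σ))`; note `(y :: σ) ++ [z] =
y :: (σ ++ [z])`; exchange the two sums (`Finset.sum_comm`) and regroup.
`EW_integrable`, `EW_integral`, `EW_measurable`: induction on `k` generalizing `F`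
(`integral_add`, `integral_const_mul`, `integral_finset_sum`).
`av i F` is the average of `EW (Ww i) k F` over `k < Kk i` (`Kk i > 0`): consequences.
`Ww_card`: `Int.card_Icc`. `one_div_card`, `Kk_mul_dw`: arithmetic.
-/

set_option autoImplicit false

open MeasureTheory ProbabilityTheory Filter Topology
open scoped NNReal ENNReal

namespace Pool.MP4bb68cEx

open Pool.MP4bb68c Pool.MP4bb68cOne Pool.MP4bb68cCl

theorem EW_const {W : Finset ℤ} (hW : W.Nonempty) (k : ℕ) (c : ℝ) : EW W k (fun _ => c) = c := by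
  have hc : (0 : ℝ) < W.card := by exact_mod_cast hW.card_pos
  induction k with
  | zero => rfl
  | succ k ih =>
    show (1 / 2) * EW W k (fun _ => c) + (1 / (2 * (W.card : ℝ))) * ∑ y ∈ W,
      EW W k (fun _ => c) = c
    rw [ih, Finset.sum_const, nsmul_eq_mul]
    field_simp
    ring

theorem EW_add (W : Finset ℤ) (k : ℕ) (F G : List ℤ → ℝ) :
    EW W k (fun σ => F σ + G σ) = EW W k F + EW W k G := by
  induction k generalizing F G with
  | zero => rfl
  | succ k ih =>
    show (1 / 2) * EW W k (fun σ => F σ + G σ) + (1 / (2 * (W.card : ℝ))) * ∑ y ∈ W,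
      EW W k (fun σ => F (y :: σ) + G (y :: σ)) =
      ((1 / 2) * EW W k F + (1 / (2 * (W.card : ℝ))) * ∑ y ∈ W, EW W k (fun σ => F (y :: σ))) +
      ((1 / 2) * EW W k G + (1 / (2 * (W.card : ℝ))) * ∑ y ∈ W, EW W k (fun σ => G (y :: σ)))
    rw [ih F G, Finset.sum_congr rfl fun y _ => ih (fun σ => F (y :: σ)) (fun σ => G (y :: σ)),
      Finset.sum_add_distrib]
    ring

theorem EW_sub (W : Finset ℤ) (k : ℕ) (F G : List ℤ → ℝ) :
    EW W k (fun σ => F σ - G σ) = EW W k F - EW W k G := by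
  have h := EW_add W k (fun σ => F σ - G σ) G
  simp only [sub_add_cancel] at h
  linarith

theorem EW_mul (W : Finset ℤ) (k : ℕ) (c : ℝ) (F : List ℤ → ℝ) :
    EW W k (fun σ => c * F σ) = c * EW W k F := by
  induction k generalizing F with
  | zero => rfl
  | succ k ih =>
    show (1 / 2) * EW W k (fun σ => c * F σ) + (1 / (2 * (W.card : ℝ))) * ∑ y ∈ W,
      EW W k (fun σ => c * F (y :: σ)) =
      c * ((1 / 2) * EW W k F + (1 / (2 * (W.card : ℝ))) * ∑ y ∈ W, EW W k (fun σ => F (y :: σ)))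
    rw [ih F, Finset.sum_congr rfl fun y _ => ih (fun σ => F (y :: σ)), ← Finset.mul_sum]
    ring

theorem EW_finsum {ι : Type*} (S : Finset ι) (W : Finset ℤ) (k : ℕ) (F : ι → List ℤ → ℝ) :
    EW W k (fun σ => ∑ j ∈ S, F j σ) = ∑ j ∈ S, EW W k (F j) := by
  induction k generalizing F with
  | zero => rfl
  | succ k ih =>
    show (1 / 2) * EW W k (fun σ => ∑ j ∈ S, F j σ) + (1 / (2 * (W.card : ℝ))) * ∑ y ∈ W,
      EW W k (fun σ => ∑ j ∈ S, F j (y :: σ)) =
      ∑ j ∈ S, ((1 / 2) * EW W k (F j) + (1 / (2 * (W.card : ℝ))) * ∑ y ∈ W,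
        EW W k (fun σ => F j (y :: σ)))
    rw [ih F, Finset.sum_congr rfl fun y _ => ih (fun j σ => F j (y :: σ)),
      Finset.sum_add_distrib, ← Finset.mul_sum, ← Finset.mul_sum, Finset.sum_comm]

theorem EW_mono {W : Finset ℤ} {k : ℕ} {F G : List ℤ → ℝ}
    (h : ∀ σ : List ℤ, σ.length ≤ k → (∀ y ∈ σ, y ∈ W) → F σ ≤ G σ) : EW W k F ≤ EW W k G := by
  induction k generalizing F G with
  | zero => exact h [] (by simp) (by simp)
  | succ k ih =>
    have h1 : EW W k F ≤ EW W k G := ih fun σ hs hm => h σ (by omega) hm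
    have h2 : ∑ y ∈ W, EW W k (fun σ => F (y :: σ)) ≤ ∑ y ∈ W, EW W k (fun σ => G (y :: σ)) :=
      Finset.sum_le_sum fun y hy => ih fun σ hs hm => h (y :: σ)
        (by rw [List.length_cons]; omega) (by
          intro z hz
          rcases List.mem_cons.1 hz with rfl | hz
          · exact hy
          · exact hm z hz)
    have h3 : (0 : ℝ) ≤ 1 / (2 * (W.card : ℝ)) := by positivity
    show (1 / 2) * EW W k F + (1 / (2 * (W.card : ℝ))) * ∑ y ∈ W, EW W k (fun σ => F (y :: σ)) ≤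
      (1 / 2) * EW W k G + (1 / (2 * (W.card : ℝ))) * ∑ y ∈ W, EW W k (fun σ => G (y :: σ))
    have h4 := mul_le_mul_of_nonneg_left h2 h3
    linarith

theorem EW_congr {W : Finset ℤ} {k : ℕ} {F G : List ℤ → ℝ}
    (h : ∀ σ : List ℤ, σ.length ≤ k → (∀ y ∈ σ, y ∈ W) → F σ = G σ) : EW W k F = EW W k G :=
  le_antisymm (EW_mono fun σ h1 h2 => (h σ h1 h2).le) (EW_mono fun σ h1 h2 => (h σ h1 h2).ge)

private theorem EW_zero (W : Finset ℤ) (k : ℕ) : EW W k (fun _ => 0) = 0 := by
  have h := EW_mul W k 0 (fun _ => 0)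
  simpa using h

theorem EW_nonneg {W : Finset ℤ} {k : ℕ} {F : List ℤ → ℝ} (h : ∀ σ, 0 ≤ F σ) : 0 ≤ EW W k F := by
  rw [← EW_zero W k]
  exact EW_mono fun σ _ _ => h σ

theorem EW_abs_le {W : Finset ℤ} {k : ℕ} {F G : List ℤ → ℝ} (h : ∀ σ, |F σ| ≤ G σ) :
    |EW W k F| ≤ EW W k G := by
  rw [abs_le]
  refine ⟨?_, EW_mono fun σ _ _ => (abs_le.1 (h σ)).2⟩
  have h1 : EW W k (fun σ => (-1) * G σ) ≤ EW W k F :=
    EW_mono fun σ _ _ => by
      have := (abs_le.1 (h σ)).1
      linarith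
  rw [EW_mul] at h1
  linarith

theorem EW_abs_le_one {W : Finset ℤ} (hW : W.Nonempty) {k : ℕ} {F : List ℤ → ℝ}
    (h : ∀ σ, |F σ| ≤ 1) : |EW W k F| ≤ 1 := by
  have h1 := EW_abs_le (W := W) (k := k) (F := F) (G := fun _ => 1) h
  rwa [EW_const hW] at h1

theorem EW_snoc (W : Finset ℤ) (k : ℕ) (F : List ℤ → ℝ) :
    EW W (k + 1) F = (1 / 2) * EW W k F + (1 / (2 * (W.card : ℝ))) * ∑ y ∈ W,
      EW W k (fun σ => F (σ ++ [y])) := by
  induction k generalizing F with
  | zero => rfl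
  | succ k ih =>
    have e1 : EW W (k + 1 + 1) F = (1 / 2) * EW W (k + 1) F + (1 / (2 * (W.card : ℝ))) *
        ∑ y ∈ W, EW W (k + 1) (fun σ => F (y :: σ)) := rfl
    have e2 : EW W (k + 1) F = (1 / 2) * EW W k F + (1 / (2 * (W.card : ℝ))) *
        ∑ y ∈ W, EW W k (fun σ => F (y :: σ)) := rfl
    have e3 : ∀ z : ℤ, EW W (k + 1) (fun σ => F (σ ++ [z])) =
        (1 / 2) * EW W k (fun σ => F (σ ++ [z])) + (1 / (2 * (W.card : ℝ))) *
          ∑ y ∈ W, EW W k (fun σ => F (y :: (σ ++ [z]))) := fun z => rfl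
    have e4 : ∀ y : ℤ, EW W (k + 1) (fun σ => F (y :: σ)) =
        (1 / 2) * EW W k (fun σ => F (y :: σ)) + (1 / (2 * (W.card : ℝ))) *
          ∑ z ∈ W, EW W k (fun σ => F (y :: (σ ++ [z]))) := fun y => ih (fun σ => F (y :: σ))
    rw [e1, Finset.sum_congr rfl fun y _ => e4 y, Finset.sum_congr rfl fun z _ => e3 z,
      Finset.sum_add_distrib, Finset.sum_add_distrib, ← Finset.mul_sum, ← Finset.mul_sum,
      ← Finset.mul_sum, ← Finset.mul_sum,
      Finset.sum_comm (f := fun y z => EW W k (fun σ => F (y :: (σ ++ [z]))))]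
    have e5 := ih F
    rw [e2] at e5
    rw [e2]
    linear_combination (1 / 2) * e5

theorem EW_integrable {α : Type*} [MeasurableSpace α] {μ : Measure α} {F : List ℤ → α → ℝ}
    (hF : ∀ σ, Integrable (F σ) μ) (W : Finset ℤ) (k : ℕ) :
    Integrable (fun x => EW W k (fun σ => F σ x)) μ := by
  induction k generalizing F with
  | zero => exact hF []
  | succ k ih =>
    show Integrable (fun x => (1 / 2) * EW W k (fun σ => F σ x) + (1 / (2 * (W.card : ℝ))) *
      ∑ y ∈ W, EW W k (fun σ => F (y :: σ) x)) μ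
    exact ((ih hF).const_mul _).add ((integrable_finset_sum _ fun y _ =>
      ih (F := fun σ => F (y :: σ)) fun σ => hF _).const_mul _)

theorem EW_integral {α : Type*} [MeasurableSpace α] {μ : Measure α} {F : List ℤ → α → ℝ}
    (hF : ∀ σ, Integrable (F σ) μ) (W : Finset ℤ) (k : ℕ) :
    ∫ x, EW W k (fun σ => F σ x) ∂μ = EW W k (fun σ => ∫ x, F σ x ∂μ) := by
  induction k generalizing F with
  | zero => rfl
  | succ k ih =>
    show ∫ x, ((1 / 2) * EW W k (fun σ => F σ x) + (1 / (2 * (W.card : ℝ))) *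
      ∑ y ∈ W, EW W k (fun σ => F (y :: σ) x)) ∂μ = (1 / 2) * EW W k (fun σ => ∫ x, F σ x ∂μ) +
      (1 / (2 * (W.card : ℝ))) * ∑ y ∈ W, EW W k (fun σ => ∫ x, F (y :: σ) x ∂μ)
    rw [integral_add ((EW_integrable hF W k).const_mul _)
      ((integrable_finset_sum _ fun y _ =>
        EW_integrable (F := fun σ => F (y :: σ)) (fun σ => hF _) W k).const_mul _),
      integral_const_mul, integral_const_mul, integral_finset_sum _ fun y _ =>
        EW_integrable (F := fun σ => F (y :: σ)) (fun σ => hF _) W k, ih hF,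
      Finset.sum_congr rfl fun y _ => ih (F := fun σ => F (y :: σ)) fun σ => hF _]

theorem EW_measurable {α : Type*} [MeasurableSpace α] {F : List ℤ → α → ℝ}
    (hF : ∀ σ, Measurable (F σ)) (W : Finset ℤ) (k : ℕ) :
    Measurable (fun x => EW W k (fun σ => F σ x)) := by
  induction k generalizing F with
  | zero => exact hF []
  | succ k ih =>
    show Measurable (fun x => (1 / 2) * EW W k (fun σ => F σ x) + (1 / (2 * (W.card : ℝ))) *
      ∑ y ∈ W, EW W k (fun σ => F (y :: σ) x))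
    exact ((ih hF).const_mul _).add ((Finset.measurable_fun_sum _ fun y _ =>
      ih (F := fun σ => F (y :: σ)) fun σ => hF _).const_mul _)

theorem Ww_nonempty (i : ℕ) : (Ww i).Nonempty := by
  unfold Ww
  rw [Finset.nonempty_Icc]
  omega

theorem Ww_card (i : ℕ) : (Ww i).card = 2 * Rr i + 1 := by
  unfold Ww
  rw [Int.card_Icc]
  omega

theorem one_div_card (i : ℕ) : 1 / (2 * ((Ww i).card : ℝ)) = dw i := by
  rw [Ww_card]
  unfold dw
  push_cast
  rfl

theorem dw_pos (i : ℕ) : 0 < dw i := by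
  unfold dw
  positivity

theorem Kk_pos (i : ℕ) : 0 < Kk i := by
  unfold Kk
  positivity

theorem Kk_mul_dw (i : ℕ) : (Kk i : ℝ) * dw i = i + 1 := by
  unfold Kk dw
  push_cast
  field_simp

theorem av_const (i : ℕ) (c : ℝ) : av i (fun _ => c) = c := by
  have h : (0 : ℝ) < Kk i := by exact_mod_cast Kk_pos i
  unfold av
  rw [Finset.sum_congr rfl fun k _ => EW_const (Ww_nonempty i) k c, Finset.sum_const,
    Finset.card_range, nsmul_eq_mul]
  field_simp

theorem av_add (i : ℕ) (F G : List ℤ → ℝ) : av i (fun σ => F σ + G σ) = av i F + av i G := by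
  unfold av
  rw [Finset.sum_congr rfl fun k _ => EW_add (Ww i) k F G, Finset.sum_add_distrib, mul_add]

theorem av_mul (i : ℕ) (c : ℝ) (F : List ℤ → ℝ) : av i (fun σ => c * F σ) = c * av i F := by
  unfold av
  rw [Finset.sum_congr rfl fun k _ => EW_mul (Ww i) k c F, ← Finset.mul_sum]
  ring

theorem av_mono {i : ℕ} {F G : List ℤ → ℝ} (h : ∀ σ, F σ ≤ G σ) : av i F ≤ av i G := by
  unfold av
  exact mul_le_mul_of_nonneg_left (Finset.sum_le_sum fun k _ => EW_mono fun σ _ _ => h σ)
    (by positivity)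

theorem av_abs_le_one {i : ℕ} {F : List ℤ → ℝ} (h : ∀ σ, |F σ| ≤ 1) : |av i F| ≤ 1 := by
  rw [abs_le]
  constructor
  · rw [← av_const i (-1)]
    exact av_mono fun σ => (abs_le.1 (h σ)).1
  · rw [← av_const i 1]
    exact av_mono fun σ => (abs_le.1 (h σ)).2

theorem av_integrable {α : Type*} [MeasurableSpace α] {μ : Measure α} {F : List ℤ → α → ℝ}
    (hF : ∀ σ, Integrable (F σ) μ) (i : ℕ) : Integrable (fun x => av i (fun σ => F σ x)) μ := by
  unfold av
  exact (integrable_finset_sum _ fun k _ => EW_integrable hF _ k).const_mul _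

theorem av_integral {α : Type*} [MeasurableSpace α] {μ : Measure α} {F : List ℤ → α → ℝ}
    (hF : ∀ σ, Integrable (F σ) μ) (i : ℕ) :
    ∫ x, av i (fun σ => F σ x) ∂μ = av i (fun σ => ∫ x, F σ x ∂μ) := by
  unfold av
  rw [integral_const_mul, integral_finset_sum _ fun k _ => EW_integrable hF _ k,
    Finset.sum_congr rfl fun k _ => EW_integral hF _ k]

end Pool.MP4bb68cEx
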