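import Mathlib
import Pool.Agent.Work.MP_4bb68c_ex.Defs
import Pool.Agent.Work.MP_4bb68c_ex.EWb

/-!
# Local functions and local systems (module SysB, size M)

`T_far`: if `s < -n` or `n + 1 < s` then `L.T s x` agrees with `x` on `-n, ..., n` (`L.out`: it changes
only `s - 1` and `s`).
`Loc.T`: let `x, x'` agree on `[-(m+1), m+1]`. For `y ∈ [-n, n]`, if `y ∈ {s - 1, s}` use `L.dep`
(`s - 1, s, s + 1` are in the window), otherwise `L.out` and `|y| ≤ n ≤ m + 1`. More precisely show that
`L.T s x` and `L.T s x'` agree on `[-(m+1), m+1]`; this also gives `Loc.wd` by induction on the word.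
`Loc.EW`: `EW_congr` and `Loc.wd` (the letters of `Ww i` have absolute value `≤ Rr i`).
Measurability: `A` is countable with measurable singletons, so every function on `A` and on
`Finset.Icc a b → A` is measurable (the function type over a finite index set is again countable with
measurable singletons). `Loc.measurable`: `f = g ∘ r` with `r x = fun y : Finset.Icc (-n) n => x y`
(choose `g z = f (extension of z)`, where the extension uses a default value; if `A` is empty the
space `ℤ → A` is empty and everything is trivial). `measurable_T`: coordinatewise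
(`measurable_pi_iff`); the coordinate `y` of `L.T s x` depends on the coordinates of `x` in
`[-m, m]`, `m = |s| + |y| + 1`, by `L.dep` and `L.out`: as for `Loc.measurable` it factors through the
restriction to a finite window. `LocS.measurableSet`: the indicator is `Loc n`.
`Stn.big`: for `C > 0` divide `f` by `C` and use the definition for the window `N` (`Loc.mono`); if
`C ≤ 0` then `f = 0`. (Replace `C` by `max C 1`.)
`stn_of_sets`: let `f` be `Loc n` with `|f| ≤ 1`; factor `f = g ∘ r` as above, and compare the two finite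
measures `∑ s ∈ Icc (-n) (n+1), (μ.map (L.T s)).map r` and `(2 n + 2) • μ.map r` on the countable space
`Finset.Icc (-n) n → A`: by hypothesis (applied to `B = r ⁻¹' {z}`, which is `LocS n`) they agree on
singletons, so they are equal; integrate the bounded function `g`.
-/

set_option autoImplicit false

open MeasureTheory ProbabilityTheory Filter Topology
open scoped NNReal ENNReal

namespace Pool.MP4bb68cEx

open Pool.MP4bb68c Pool.MP4bb68cOne Pool.MP4bb68cCl

private theorem agree_T {A : Type} (L : Sys A) {m : ℕ} {s : ℤ} (hs : |s| ≤ m) {x x' : ℤ → A}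
    (h : ∀ y : ℤ, -((m : ℤ) + 1) ≤ y → y ≤ (m : ℤ) + 1 → x y = x' y) (y : ℤ)
    (h1 : -((m : ℤ) + 1) ≤ y) (h2 : y ≤ (m : ℤ) + 1) : L.T s x y = L.T s x' y := by
  rw [abs_le] at hs
  by_cases hy : s - 1 ≤ y ∧ y ≤ s
  · exact L.dep s x x' (fun z hz1 hz2 => h z (by omega) (by omega)) y hy.1 hy.2
  · rw [L.out s x y (by omega) (by omega), L.out s x' y (by omega) (by omega)]
    exact h y h1 h2

private theorem agree_wd {A : Type} (L : Sys A) {m : ℕ} {σ : List ℤ} (hσ : ∀ s ∈ σ, |s| ≤ m)
    {x x' : ℤ → A} (h : ∀ y : ℤ, -((m : ℤ) + 1) ≤ y → y ≤ (m : ℤ) + 1 → x y = x' y) (y : ℤ)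
    (h1 : -((m : ℤ) + 1) ≤ y) (h2 : y ≤ (m : ℤ) + 1) : L.wd σ x y = L.wd σ x' y := by
  induction σ generalizing x x' with
  | nil => exact h y h1 h2
  | cons s σ ih =>
    show L.wd σ (L.T s x) y = L.wd σ (L.T s x') y
    exact ih (fun t ht => hσ t (List.mem_cons_of_mem _ ht))
      (fun z hz1 hz2 => agree_T L (hσ s List.mem_cons_self) h z hz1 hz2)

private theorem word_bd (σ : List ℤ) : ∃ M : ℕ, ∀ s ∈ σ, |s| ≤ M := by
  induction σ with
  | nil => exact ⟨0, by simp⟩
  | cons s σ ih =>
    obtain ⟨M, hM⟩ := ih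
    refine ⟨M + s.natAbs, fun t ht => ?_⟩
    rw [List.mem_cons] at ht
    push_cast
    rcases ht with rfl | ht
    · have : (0 : ℤ) ≤ M := Int.natCast_nonneg M
      linarith
    · have h1 := hM t ht
      have h2 := abs_nonneg s
      linarith

/-- functions of finitely many coordinates are measurable -/
private theorem meas_loc {A β : Type} [Countable A] [MeasurableSpace A] [MeasurableSingletonClass A]
    [MeasurableSpace β] (n : ℕ) (F : (ℤ → A) → β)
    (h : ∀ x x' : ℤ → A, (∀ y : ℤ, -(n : ℤ) ≤ y → y ≤ n → x y = x' y) → F x = F x') :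
    Measurable F := by
  rcases isEmpty_or_nonempty A with hA | ⟨⟨a0⟩⟩
  · haveI : IsEmpty (ℤ → A) := ⟨fun x => hA.false (x 0)⟩
    exact measurable_of_empty F
  · have e : F = (fun z : (Finset.Icc (-(n : ℤ)) n → A) =>
        F (fun y => if hy : y ∈ Finset.Icc (-(n : ℤ)) (n : ℤ) then z ⟨y, hy⟩ else a0)) ∘
        (fun x : ℤ → A => fun y : Finset.Icc (-(n : ℤ)) (n : ℤ) => x y) := by
      funext x
      simp only [Function.comp_apply]
      apply h
      intro y h1 h2
      rw [dif_pos (Finset.mem_Icc.mpr ⟨h1, h2⟩)]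
    rw [e]
    refine (measurable_of_countable _).comp ?_
    rw [measurable_pi_iff]
    intro y
    exact measurable_pi_apply _

theorem Loc.mono {A : Type} {n m : ℕ} {f : (ℤ → A) → ℝ} (hf : Loc n f) (h : n ≤ m) : Loc m f := by
  intro x x' hxx
  exact hf x x' fun y h1 h2 => hxx y (by omega) (by omega)

theorem LocS.mono {A : Type} {n m : ℕ} {B : Set (ℤ → A)} (hB : LocS n B) (h : n ≤ m) :
    LocS m B := by
  intro x x' hxx
  exact hB x x' fun y h1 h2 => hxx y (by omega) (by omega)

theorem T_far {A : Type} (L : Sys A) {n : ℕ} {f : (ℤ → A) → ℝ} (hf : Loc n f) {s : ℤ}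
    (hs : s ∉ Finset.Icc (-(n : ℤ)) (n + 1)) (x : ℤ → A) : f (L.T s x) = f x := by
  rw [Finset.mem_Icc] at hs
  exact hf _ _ fun y h1 h2 => L.out s x y (by omega) (by omega)

theorem Loc.T {A : Type} (L : Sys A) {n m : ℕ} {f : (ℤ → A) → ℝ} (hf : Loc n f) (hn : n ≤ m + 1)
    {s : ℤ} (hs : |s| ≤ m) : Loc (m + 1) (fun x => f (L.T s x)) := by
  intro x x' hxx
  refine hf _ _ fun y h1 h2 => ?_
  refine agree_T L hs (fun z hz1 hz2 => hxx z ?_ ?_) y (by omega) (by omega)
  · push_cast; exact hz1
  · push_cast; exact hz2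

theorem Loc.wd {A : Type} (L : Sys A) {n m : ℕ} {f : (ℤ → A) → ℝ} (hf : Loc n f)
    (hn : n ≤ m + 1) {σ : List ℤ} (hσ : ∀ s ∈ σ, |s| ≤ m) :
    Loc (m + 1) (fun x => f (L.wd σ x)) := by
  intro x x' hxx
  refine hf _ _ fun y h1 h2 => ?_
  refine agree_wd L hσ (fun z hz1 hz2 => hxx z ?_ ?_) y (by omega) (by omega)
  · push_cast; exact hz1
  · push_cast; exact hz2

theorem Loc.EW {A : Type} (L : Sys A) {n i : ℕ} {f : (ℤ → A) → ℝ} (hf : Loc n f)
    (hn : n ≤ Rr i + 1) (k : ℕ) :
    Loc (Rr i + 1) (fun x => Pool.MP4bb68cEx.EW (Ww i) k (fun σ => f (L.wd σ x))) := by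
  intro x x' hxx
  refine EW_congr fun σ _ hσ => ?_
  refine Loc.wd L hf hn (fun s hs => ?_) x x' hxx
  have h1 := hσ s hs
  unfold Ww at h1
  rw [Finset.mem_Icc] at h1
  rw [abs_le]
  exact h1

theorem Sys.wd_append {A : Type} (L : Sys A) (σ τ : List ℤ) (x : ℤ → A) :
    L.wd (σ ++ τ) x = L.wd τ (L.wd σ x) := by
  induction σ generalizing x with
  | nil => rfl
  | cons s σ ih => exact ih (L.T s x)

theorem LocS.wd {A : Type} (L : Sys A) {n : ℕ} {B : Set (ℤ → A)} (hB : LocS n B) (σ : List ℤ) :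
    ∃ m, LocS m (L.wd σ ⁻¹' B) := by
  obtain ⟨M, hM⟩ := word_bd σ
  refine ⟨n + M + 1, fun x x' hxx => ?_⟩
  refine hB _ _ fun y h1 h2 => ?_
  refine agree_wd (m := n + M) L (fun s hs => (hM s hs).trans (by push_cast; omega))
    (fun z hz1 hz2 => hxx z ?_ ?_) y (by push_cast; omega) (by push_cast; omega)
  · push_cast at hz1 ⊢; exact hz1
  · push_cast at hz2 ⊢; exact hz2

theorem Loc.measurable {A : Type} [Countable A] [MeasurableSpace A] [MeasurableSingletonClass A]
    {n : ℕ} {f : (ℤ → A) → ℝ} (hf : Loc n f) : Measurable f := by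
  exact meas_loc n f hf

theorem LocS.measurableSet {A : Type} [Countable A] [MeasurableSpace A]
    [MeasurableSingletonClass A] {n : ℕ} {B : Set (ℤ → A)} (hB : LocS n B) : MeasurableSet B := by
  have h1 : Measurable (fun x : ℤ → A => (x ∈ B : Prop)) :=
    meas_loc n _ fun x x' hxx => propext (hB x x' hxx)
  exact measurableSet_setOfPred.mpr h1

theorem LocS.loc {A : Type} {n : ℕ} {B : Set (ℤ → A)} (hB : LocS n B) :
    Loc n (B.indicator (fun _ => (1 : ℝ))) := by
  intro x x' hxx
  have h1 := hB x x' hxx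
  by_cases h : x ∈ B
  · rw [Set.indicator_of_mem h, Set.indicator_of_mem (h1.mp h)]
  · rw [Set.indicator_of_notMem h, Set.indicator_of_notMem (fun h2 => h (h1.mpr h2))]

theorem Sys.measurable_T {A : Type} [Countable A] [MeasurableSpace A]
    [MeasurableSingletonClass A] (L : Sys A) (s : ℤ) : Measurable (L.T s) := by
  rw [measurable_pi_iff]
  intro y
  refine meas_loc (s.natAbs + y.natAbs + 1) _ fun x x' hxx => ?_
  refine agree_T (m := s.natAbs + y.natAbs) L ?_ (fun z hz1 hz2 => hxx z ?_ ?_) y ?_ ?_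
  · push_cast
    have := abs_nonneg y
    linarith
  · push_cast at hz1 ⊢; exact hz1
  · push_cast at hz2 ⊢; exact hz2
  · push_cast
    have h1 := neg_abs_le y
    have := abs_nonneg s
    linarith
  · push_cast
    have h1 := le_abs_self y
    have := abs_nonneg s
    linarith

theorem Sys.measurable_wd {A : Type} [Countable A] [MeasurableSpace A]
    [MeasurableSingletonClass A] (L : Sys A) (σ : List ℤ) : Measurable (L.wd σ) := by
  induction σ with
  | nil => exact measurable_id
  | cons s σ ih => exact ih.comp (L.measurable_T s)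

theorem measurable_tra {A : Type} [MeasurableSpace A] (a : ℤ) :
    Measurable (tra a : (ℤ → A) → ℤ → A) := by
  rw [measurable_pi_iff]
  intro y
  exact measurable_pi_apply _

theorem Stn.big {A : Type} [Countable A] [MeasurableSpace A] [MeasurableSingletonClass A]
    {L : Sys A} {μ : Measure (ℤ → A)} (h : Stn L μ) {n : ℕ} {f : (ℤ → A) → ℝ} (hf : Loc n f)
    {C : ℝ} (hb : ∀ x, |f x| ≤ C) {N : ℕ} (hN : n ≤ N) :
    ∑ s ∈ Finset.Icc (-(N : ℤ)) (N + 1), (∫ x, f (L.T s x) ∂μ - ∫ x, f x ∂μ) = 0 := by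
  have hC : 0 < max C 1 := lt_of_lt_of_le one_pos (le_max_right _ _)
  have hg : Loc N (fun x => f x / max C 1) := by
    intro x x' hxx
    show f x / max C 1 = f x' / max C 1
    rw [Loc.mono hf hN x x' hxx]
  have h1 := h N (fun x => f x / max C 1) hg (fun x => by
    rw [abs_div, abs_of_pos hC, div_le_one hC]
    exact (hb x).trans (le_max_left _ _))
  simp only [integral_div] at h1
  have h2 : ∀ s ∈ Finset.Icc (-(N : ℤ)) (N + 1),
      (∫ x, f (L.T s x) ∂μ - ∫ x, f x ∂μ) =
        max C 1 * ((∫ x, f (L.T s x) ∂μ) / max C 1 - (∫ x, f x ∂μ) / max C 1) := by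
    intro s _
    field_simp
  rw [Finset.sum_congr rfl h2, ← Finset.mul_sum, h1, mul_zero]

theorem stn_of_sets {A : Type} [Countable A] [MeasurableSpace A] [MeasurableSingletonClass A]
    {L : Sys A} {μ : Measure (ℤ → A)} [IsFiniteMeasure μ]
    (h : ∀ (n : ℕ) (B : Set (ℤ → A)), LocS n B →
      ∑ s ∈ Finset.Icc (-(n : ℤ)) (n + 1), (μ.real (L.T s ⁻¹' B) - μ.real B) = 0) : Stn L μ := by
  intro n f hf hb
  rcases isEmpty_or_nonempty A with hA | ⟨⟨a0⟩⟩
  · haveI : IsEmpty (ℤ → A) := ⟨fun x => hA.false (x 0)⟩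
    have hμ : μ = 0 := Measure.eq_zero_of_isEmpty μ
    rw [hμ]
    simp
  · obtain ⟨r, hr⟩ : ∃ r : (ℤ → A) → (Finset.Icc (-(n : ℤ)) (n : ℤ) → A), r = fun x y => x y :=
      ⟨_, rfl⟩
    obtain ⟨g, hg⟩ : ∃ g : (Finset.Icc (-(n : ℤ)) (n : ℤ) → A) → ℝ, g = fun z =>
        f (fun y => if hy : y ∈ Finset.Icc (-(n : ℤ)) (n : ℤ) then z ⟨y, hy⟩ else a0) := ⟨_, rfl⟩
    have hrm : Measurable r := by
      rw [hr, measurable_pi_iff]
      intro y
      exact measurable_pi_apply _
    have hfg : ∀ x, f x = g (r x) := by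
      intro x
      rw [hg, hr]
      apply hf
      intro y h1 h2
      rw [dif_pos (Finset.mem_Icc.mpr ⟨h1, h2⟩)]
    have hgm : Measurable g := measurable_of_countable g
    have hgb : ∀ z, ‖g z‖ ≤ 1 := by
      intro z
      rw [hg, Real.norm_eq_abs]
      exact hb _
    have hgi : ∀ (ν : Measure (Finset.Icc (-(n : ℤ)) (n : ℤ) → A)) [IsFiniteMeasure ν],
        Integrable g ν := fun ν _ =>
      Integrable.of_bound hgm.aestronglyMeasurable 1 (Filter.Eventually.of_forall hgb)
    have hTm : ∀ s, Measurable (fun x => r (L.T s x)) := fun s => hrm.comp (L.measurable_T s)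
    -- the two measures
    have hmeas : (∑ s ∈ Finset.Icc (-(n : ℤ)) (n + 1), μ.map (fun x => r (L.T s x))) =
        (Finset.Icc (-(n : ℤ)) (n + 1)).card • μ.map r := by
      apply Measure.ext_of_singleton
      intro z
      have hB : LocS n (r ⁻¹' {z}) := by
        intro x x' hxx
        have e : r x = r x' := by
          rw [hr]
          funext y
          have hy := Finset.mem_Icc.mp y.2
          exact hxx y hy.1 hy.2
        rw [Set.mem_preimage, Set.mem_preimage, e]
      have h1 := h n _ hB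
      rw [Finset.sum_sub_distrib, Finset.sum_const, sub_eq_zero] at h1
      have h2 : ∀ s, (μ.map (fun x => r (L.T s x))) {z} = μ (L.T s ⁻¹' (r ⁻¹' {z})) := fun s =>
        Measure.map_apply (hTm s) (measurableSet_singleton z)
      rw [Measure.finsetSum_apply, Measure.smul_apply, Measure.map_apply hrm (measurableSet_singleton z)]
      simp only [h2]
      have h3 : (∑ s ∈ Finset.Icc (-(n : ℤ)) (n + 1), μ (L.T s ⁻¹' (r ⁻¹' {z}))).toReal =
          ((Finset.Icc (-(n : ℤ)) (n + 1)).card • μ (r ⁻¹' {z})).toReal := by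
        rw [ENNReal.toReal_sum (fun s _ => measure_ne_top _ _), nsmul_eq_mul, ENNReal.toReal_mul,
          ENNReal.toReal_natCast]
        rw [nsmul_eq_mul] at h1
        exact h1
      refine (ENNReal.toReal_eq_toReal_iff' ?_ ?_).mp h3
      · exact (ENNReal.sum_lt_top.mpr fun s _ => measure_lt_top _ _).ne
      · rw [nsmul_eq_mul]
        exact ENNReal.mul_ne_top (ENNReal.natCast_ne_top _) (measure_ne_top _ _)
    have h4 : ∀ s, ∫ x, f (L.T s x) ∂μ = ∫ z, g z ∂(μ.map (fun x => r (L.T s x))) := by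
      intro s
      rw [integral_map (hTm s).aemeasurable hgm.aestronglyMeasurable]
      simp only [hfg]
    have h5 : ∫ x, f x ∂μ = ∫ z, g z ∂(μ.map r) := by
      rw [integral_map hrm.aemeasurable hgm.aestronglyMeasurable]
      simp only [hfg]
    rw [Finset.sum_sub_distrib, Finset.sum_const, h5, sub_eq_zero]
    simp only [h4]
    rw [← integral_finsetSum_measure (fun s _ => hgi _), hmeas]
    have h6 : ((Finset.Icc (-(n : ℤ)) (n + 1)).card • μ.map r) =
        (((Finset.Icc (-(n : ℤ)) (n + 1)).card : ℝ≥0∞)) • μ.map r := by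
      rw [← Nat.cast_smul_eq_nsmul ℝ≥0∞]
    rw [h6, integral_smul_measure, ENNReal.toReal_natCast, nsmul_eq_mul, smul_eq_mul]

end Pool.MP4bb68cEx
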