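import Mathlib
import Pool.Agent.Work.MP_4bb68c_ex.Defs
import Pool.Agent.Work.MP_4bb68c_ex.Defs2
import Pool.Agent.Work.MP_4bb68c_ex.SysB
import Pool.Agent.Work.MP_4bb68c_ex.Link
import Pool.Agent.Work.MP_4bb68c_pr.Clocks
import Pool.Agent.Work.MP_4bb68c_pr.Evol

/-!
# The process for a short time (module GenA1, size M-L)

Let `W = Finset.Icc (-n - 1) (n + 2)` (as integers), `c = |W| = 2 n + 4`, and let `N x ω = count (upd ω) (pt x) 0 t` be
the number of updates of the site `x` in `(0, t]`.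

(1) PROBABILITIES. By `IsPoissonClocks.law` and `IsPoissonClocks.indep` (with the sequence of times
`k ↦ if k = 0 then 0 else t`, monotone, and the indices `(0, pt x)`), the `N x`, `x ∈ W`, are independent
Poisson variables with parameter `t`. So with `E0 = {N x = 0 for all x ∈ W}` and, for `s ∈ W`,
`E s = {N s = 1, N x = 0 for x ∈ W, x ≠ s}`: `P E0 = exp (-c t)`, `P (E s) = t exp (-c t)`; the events are
disjoint; the rest has probability `1 - exp (-c t) (1 + c t) ≤ (c t)^2`
(`exp (-u) ≥ 1 - u`, so `1 - exp (-u) (1 + u) ≤ 1 - (1 - u)(1 + u) = u^2`).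

(2) PATHS. Let `ω` be such that `h = H ω` is an evolution of `f` with the updates `upd ω` (almost all
`ω`). `N x = 0` means `upd ω (pt x) ∩ Ioc 0 t = ∅` (finite set with `ncard = 0`: `IsPoissonClocks.finite`).
 * On `E0`: `h t (pt x) = f (pt x)` for `x ∈ W` (`IsEvolution.const`, `init`), so `incr (h t)` and
   `incr f` agree on `[-n, n]` and `incr (h t) ∈ B ↔ incr f ∈ B` (`LocS n B`).
 * On `E s`: there is exactly one update time `τ` of `s` in `(0, t]`. For `x ∈ W`, `x ≠ s`:
   `h r (pt x) = f (pt x)` for all `0 ≤ r ≤ t`. For `0 ≤ r < τ`: `h r (pt s) = f (pt s)`. By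
   `IsEvolution.jump` there is `r ∈ (0, τ)` with `h τ (pt s) = newHeight (h r) (pt s)`, and
   `h t (pt s) = h τ (pt s)` (`const` on `(τ, t]`). If `-n ≤ s ≤ n + 1` then `s - 1, s + 1 ∈ W`, so
   `newHeight (h r) (pt s) = max (f (pt s) + 1) (max (f (pt (s+1))) (f (pt (s-1))))`
   (the neighbours of `pt s` are `pt (s ± 1)`; see the lemmas on `newHeight` in dimension one in
   MP_4bb68c_cl, for example `incr_slotStep`, or MP_4bb68c_d1/Basic). So `incr (h t)` and
   `SI.T s (incr f)` agree on `[-n, n]`. If `s = -n - 1` or `s = n + 2`: `incr (h t)` agrees with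
   `incr f` on `[-n, n]`, and so does `SI.T s (incr f)` (`SI.out`).
   In all cases on `E s`: `incr (h t) ∈ B ↔ SI.T s (incr f) ∈ B`.

(3) So `P {incr (h t) ∈ B}` is, up to at most `P (rest) ≤ (c t)^2`, equal to
`exp (-c t) [incr f ∈ B] + ∑ s ∈ W, t exp (-c t) [SI.T s (incr f) ∈ B]`. (The event
`{ω | incr (H ω t) ∈ B}` agrees on `E0` and on each `E s`, up to null sets, with a constant event; it
is null measurable by `aemeasurable_height`, or avoid measurability: use inner and outer bounds: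
`⋃ (the E's with value true) ⊆ event ⊆ ⋃ (the E's with value true) ∪ rest` up to a null set.)
-/

set_option autoImplicit false

open MeasureTheory ProbabilityTheory Filter Topology
open scoped NNReal ENNReal

namespace Pool.MP4bb68cEx

open Pool.MP4bb68c Pool.MP4bb68cOne Pool.MP4bb68cCl

section det

variable {u : Site 1 → Set ℝ} {f : Height 1} {h : ℝ → Height 1}

private theorem g_zero (hfin : ∀ x T, (u x ∩ Set.Iic T).Finite) (hE : IsEvolution u f h)
    {t : ℝ} {x : Site 1} (hN : count u x 0 t = 0) {r : ℝ} (h0 : 0 ≤ r) (hr : r ≤ t) :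
    h r x = f x := by
  have h1 : (u x ∩ Set.Ioc 0 t).Finite :=
    (hfin x t).subset (Set.inter_subset_inter_right _ fun y hy => Set.mem_Iic.2 hy.2)
  have h2 : u x ∩ Set.Ioc 0 t = ∅ := (Set.ncard_eq_zero h1).1 hN
  have h3 : u x ∩ Set.Ioc 0 r = ∅ := by
    rw [Set.eq_empty_iff_forall_notMem] at h2 ⊢
    intro y hy
    exact h2 y ⟨hy.1, hy.2.1, hy.2.2.trans hr⟩
  rw [hE.const x 0 r le_rfl h0 h3, hE.init]

private theorem g_one (hE : IsEvolution u f h) {t : ℝ} {x : Site 1} (hN : count u x 0 t = 1) :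
    ∃ r, 0 ≤ r ∧ r ≤ t ∧ h r x = f x ∧ h t x = newHeight (h r) x := by
  obtain ⟨τ, hτ⟩ := Set.ncard_eq_one.1 hN
  have h1 : τ ∈ u x ∩ Set.Ioc 0 t := by
    rw [hτ]
    exact Set.mem_singleton _
  have h2 : ∀ y ∈ u x ∩ Set.Ioc 0 t, y = τ := by
    intro y hy
    rw [hτ] at hy
    exact hy
  have h3 := hE.jump x τ h1.1
  have h4 : ∀ᶠ s in 𝓝[<] τ, 0 < s := by
    refine Filter.Eventually.filter_mono nhdsWithin_le_nhds ?_
    exact lt_mem_nhds h1.2.1
  have h5 : ∀ᶠ s in 𝓝[<] τ, s < τ := self_mem_nhdsWithin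
  obtain ⟨r, hr1, hr2, hr3⟩ := (h3.and (h4.and h5)).exists
  refine ⟨r, hr2.le, hr3.le.trans h1.2.2, ?_, ?_⟩
  · have h6 : u x ∩ Set.Ioc 0 r = ∅ := by
      rw [Set.eq_empty_iff_forall_notMem]
      intro y hy
      have h7 := h2 y ⟨hy.1, hy.2.1, (hy.2.2.trans hr3.le).trans h1.2.2⟩
      have h8 := hy.2.2
      rw [h7] at h8
      exact absurd hr3 (not_lt.2 h8)
    rw [hE.const x 0 r le_rfl hr2.le h6, hE.init]
  · have h6 : u x ∩ Set.Ioc τ t = ∅ := by
      rw [Set.eq_empty_iff_forall_notMem]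
      intro y hy
      have h7 := h2 y ⟨hy.1, h1.2.1.trans hy.2.1, hy.2.2⟩
      have h8 := hy.2.1
      rw [h7] at h8
      exact lt_irrefl _ h8
    rw [hE.const x τ t h1.2.1.le h1.2.2 h6, hr1]

/-- the value of the increments after the event with index `o` -/
private def gv (f : Height 1) (o : Option ℤ) : ℤ → ℤ :=
  match o with
  | none => incr f
  | some s => SI.T s (incr f)

private theorem g_det (hfin : ∀ x T, (u x ∩ Set.Iic T).Finite) (hE : IsEvolution u f h)
    {t : ℝ} (ht : 0 < t) (n : ℕ) (o : Option ℤ)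
    (hN : ∀ x ∈ Finset.Icc (-(n : ℤ) - 1) (n + 2),
      count u (pt x) 0 t = if o = some x then 1 else 0) (y : ℤ) (hy1 : -(n : ℤ) ≤ y)
    (hy2 : y ≤ n) : incr (h t) y = gv f o y := by
  have hz : ∀ x : ℤ, -(n : ℤ) - 1 ≤ x → x ≤ n + 2 → o ≠ some x → ∀ r, 0 ≤ r → r ≤ t →
      h r (pt x) = f (pt x) := by
    intro x hx1 hx2 hx3 r hr1 hr2
    refine g_zero hfin hE ?_ hr1 hr2
    rw [hN x (Finset.mem_Icc.2 ⟨hx1, hx2⟩), if_neg hx3]
  cases o with
  | none =>
    change h t (pt (y + 1)) - h t (pt y) = f (pt (y + 1)) - f (pt y)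
    rw [hz (y + 1) (by omega) (by omega) (by simp) t ht.le le_rfl,
      hz y (by omega) (by omega) (by simp) t ht.le le_rfl]
  | some s =>
    have hne : ∀ x : ℤ, x ≠ s → (some s : Option ℤ) ≠ some x := by
      intro x hx h1
      exact hx (Option.some_injective _ h1).symm
    have hs : -(n : ℤ) ≤ s → s ≤ n + 1 → h t (pt s) =
        max (f (pt s) + 1) (max (f (pt (s + 1))) (f (pt (s - 1)))) := by
      intro h1 h2
      have h3 := hN s (Finset.mem_Icc.2 ⟨by omega, by omega⟩)
      rw [if_pos rfl] at h3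
      obtain ⟨r, hr1, hr2, hr3, hr4⟩ := g_one hE h3
      rw [hr4, newHeight_pt, hr3, hz (s + 1) (by omega) (by omega) (hne _ (by omega)) r hr1 hr2,
        hz (s - 1) (by omega) (by omega) (hne _ (by omega)) r hr1 hr2]
    have hc : cc (incr f) s = max 1 (max (f (pt (s + 1)) - f (pt s))
        (-(f (pt s) - f (pt (s - 1))))) := by
      unfold cc incr
      rw [sub_add_cancel]
    change h t (pt (y + 1)) - h t (pt y) = if y = s - 1 then incr f y + cc (incr f) s else
      if y = s then incr f y - cc (incr f) s else incr f y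
    rw [hc]
    unfold incr
    by_cases h1 : y = s - 1
    · rw [if_pos h1]
      have h2 : y + 1 = s := by omega
      rw [hz y (by omega) (by omega) (hne _ (by omega)) t ht.le le_rfl, h2,
        hs (by omega) (by omega), h1]
      omega
    · rw [if_neg h1]
      by_cases h2 : y = s
      · rw [if_pos h2, hz (y + 1) (by omega) (by omega) (hne _ (by omega)) t ht.le le_rfl, h2,
          hs (by omega) (by omega)]
        omega
      · rw [if_neg h2, hz (y + 1) (by omega) (by omega) (hne _ (by omega)) t ht.le le_rfl,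
          hz y (by omega) (by omega) (hne _ (by omega)) t ht.le le_rfl]

end det

section prob

variable {Ω : Type} [MeasurableSpace Ω] {P : Measure Ω} [IsProbabilityMeasure P]
    {upd : Ω → Site 1 → Set ℝ}

private theorem g_indep (hclk : IsPoissonClocks P upd) {t : ℝ} (ht : 0 < t) :
    iIndepFun (fun (x : ℤ) ω => count (upd ω) (pt x) 0 t) P := by
  have h := hclk.indep (fun k => if k = 0 then 0 else t) (by simp) (by
    intro a b hab
    dsimp only
    split_ifs with h1 h2
    · exact le_rfl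
    · exact ht.le
    · omega
    · exact le_rfl)
  exact h.precomp (g := fun x : ℤ => ((0 : ℕ), pt x)) (fun x y hxy => pt_inj.1 (Prod.ext_iff.1 hxy).2)

private theorem g_law (hclk : IsPoissonClocks P upd) {t : ℝ} (ht : 0 < t) (x : ℤ) (k : ℕ) :
    P.real ((fun ω => count (upd ω) (pt x) 0 t) ⁻¹' {k}) =
      Real.exp (-t) * t ^ k / (k.factorial : ℝ) := by
  have h := hclk.law (pt x) 0 t le_rfl ht.le
  rw [← map_measureReal_apply (hclk.meas (pt x) 0 t) (MeasurableSet.singleton k), h,
    poissonMeasure_real_singleton, sub_zero, Real.coe_toNNReal t ht.le]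

/-- the events -/
private def gE (upd : Ω → Site 1 → Set ℝ) (t : ℝ) (W : Finset ℤ) (o : Option ℤ) : Set Ω :=
  ⋂ x ∈ W, (fun ω => count (upd ω) (pt x) 0 t) ⁻¹' {if o = some x then 1 else 0}

private theorem g_meas (hclk : IsPoissonClocks P upd) (t : ℝ) (W : Finset ℤ) (o : Option ℤ) :
    MeasurableSet (gE upd t W o) := by
  unfold gE
  refine Finset.measurableSet_biInter _ fun x _ => ?_
  exact (hclk.meas (pt x) 0 t) (MeasurableSet.singleton _)

private theorem g_prob (hclk : IsPoissonClocks P upd) {t : ℝ} (ht : 0 < t) (W : Finset ℤ)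
    (o : Option ℤ) : P.real (gE upd t W o) =
      Real.exp (-t) ^ W.card * ∏ x ∈ W, (if o = some x then t else 1) := by
  have h := (g_indep hclk ht).measure_inter_preimage_eq_mul W
    (sets := fun x => {if o = some x then 1 else 0}) (fun _ _ => MeasurableSet.of_discrete)
  unfold gE
  rw [measureReal_def, h, ENNReal.toReal_prod, ← Finset.prod_const, ← Finset.prod_mul_distrib]
  refine Finset.prod_congr rfl fun x _ => ?_
  rw [← measureReal_def, g_law hclk ht]
  split_ifs
  · simp
  · simp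

private theorem g_disj (t : ℝ) (W : Finset ℤ) {o o' : Option ℤ} (ho : o ∈ Finset.insertNone W)
    (ho' : o' ∈ Finset.insertNone W) (hoo : o ≠ o') :
    Disjoint (gE upd t W o) (gE upd t W o') := by
  have key : ∀ (s : ℤ) (o' : Option ℤ), s ∈ W → some s ≠ o' → ∀ ω, ω ∈ gE upd t W (some s) →
      ω ∈ gE upd t W o' → False := by
    intro s o' hs hne ω h1 h2
    unfold gE at h1 h2
    rw [Set.mem_iInter₂] at h1 h2
    have h3 := h1 s hs
    have h4 := h2 s hs
    rw [Set.mem_preimage, Set.mem_singleton_iff] at h3 h4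
    rw [if_pos rfl] at h3
    rw [if_neg (fun h => hne h.symm)] at h4
    omega
  rw [Set.disjoint_left]
  intro ω h1 h2
  cases o with
  | some s => exact key s o' (Finset.some_mem_insertNone.1 ho) hoo ω h1 h2
  | none =>
    cases o' with
    | none => exact hoo rfl
    | some s => exact key s none (Finset.some_mem_insertNone.1 ho') hoo.symm ω h2 h1

end prob

open Classical in
theorem genA1 {Ω : Type} [MeasurableSpace Ω] {P : Measure Ω} [IsProbabilityMeasure P]
    {upd : Ω → Site 1 → Set ℝ} (hclk : IsPoissonClocks P upd) {f : Height 1}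
    {H : Ω → ℝ → Height 1} (hH : ∀ᵐ ω ∂P, IsEvolution (upd ω) f (H ω)) {t : ℝ} (ht : 0 < t)
    {n : ℕ} {B : Set (ℤ → ℤ)} (hB : LocS n B) :
    |P.real {ω | incr (H ω t) ∈ B} - Real.exp (-((2 * n + 4) * t)) *
      ((if incr f ∈ B then 1 else 0) + t * ∑ s ∈ Finset.Icc (-(n : ℤ) - 1) (n + 2),
        (if SI.T s (incr f) ∈ B then (1 : ℝ) else 0))| ≤ ((2 * n + 4) * t) ^ 2 := by
  set W : Finset ℤ := Finset.Icc (-(n : ℤ) - 1) (n + 2) with hW
  have hcard : W.card = 2 * n + 4 := by
    rw [hW, Int.card_Icc]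
    omega
  have hexp : Real.exp (-t) ^ W.card = Real.exp (-((2 * n + 4) * t)) := by
    rw [← Real.exp_nat_mul, hcard]
    congr 1
    push_cast
    ring
  have hp0 : P.real (gE upd t W none) = Real.exp (-((2 * n + 4) * t)) := by
    rw [g_prob hclk ht, hexp]
    simp
  have hp1 : ∀ s ∈ W, P.real (gE upd t W (some s)) = Real.exp (-((2 * n + 4) * t)) * t := by
    intro s hs
    rw [g_prob hclk ht, hexp]
    congr 1
    simp only [Option.some_inj, Finset.prod_ite_eq, if_pos hs]
  have hae : ∀ᵐ ω ∂P, ∀ o, ω ∈ gE upd t W o → (incr (H ω t) ∈ B ↔ gv f o ∈ B) := by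
    filter_upwards [hH] with ω hω o ho
    refine hB _ _ fun y hy1 hy2 => ?_
    refine g_det (hclk.finite ω) hω ht n o ?_ y hy1 hy2
    intro x hx
    unfold gE at ho
    rw [Set.mem_iInter₂] at ho
    exact ho x hx
  -- the two unions
  have hU : P.real (⋃ o ∈ (Finset.insertNone W).filter (fun o => gv f o ∈ B), gE upd t W o) =
      Real.exp (-((2 * n + 4) * t)) *
      ((if incr f ∈ B then 1 else 0) + t * ∑ s ∈ W,
        (if SI.T s (incr f) ∈ B then (1 : ℝ) else 0)) := by
    rw [measureReal_biUnion_finset (fun o ho o' ho' hoo => g_disj t W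
      (Finset.mem_filter.1 ho).1 (Finset.mem_filter.1 ho').1 hoo)
      (fun o _ => g_meas hclk t W o), Finset.sum_filter, Finset.sum_insertNone, hp0]
    rw [mul_add, ← mul_assoc, Finset.mul_sum]
    congr 1
    · change (if incr f ∈ B then _ else _) = _
      split_ifs
      · rw [mul_one]
      · rw [mul_zero]
    · refine Finset.sum_congr rfl fun s hs => ?_
      rw [hp1 s hs]
      change (if SI.T s (incr f) ∈ B then _ else _) = _
      split_ifs
      · rw [mul_one]
      · rw [mul_zero]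
  have hV : P.real (⋃ o ∈ Finset.insertNone W, gE upd t W o) =
      Real.exp (-((2 * n + 4) * t)) * (1 + (2 * n + 4) * t) := by
    rw [measureReal_biUnion_finset (fun o ho o' ho' hoo => g_disj t W ho ho' hoo)
      (fun o _ => g_meas hclk t W o), Finset.sum_insertNone, hp0, Finset.sum_congr rfl hp1,
      Finset.sum_const, hcard, nsmul_eq_mul]
    push_cast
    ring
  have hVm : MeasurableSet (⋃ o ∈ Finset.insertNone W, gE upd t W o) :=
    Finset.measurableSet_biUnion _ fun o _ => g_meas hclk t W o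
  have hVc : P.real (⋃ o ∈ Finset.insertNone W, gE upd t W o)ᶜ =
      1 - Real.exp (-((2 * n + 4) * t)) * (1 + (2 * n + 4) * t) := by
    rw [probReal_compl_eq_one_sub hVm, hV]
  have h1 : P.real (⋃ o ∈ (Finset.insertNone W).filter (fun o => gv f o ∈ B), gE upd t W o) ≤
      P.real {ω | incr (H ω t) ∈ B} := by
    refine ENNReal.toReal_mono (measure_ne_top _ _) (measure_mono_ae ?_)
    filter_upwards [hae] with ω hω h2
    obtain ⟨o, ho, h3⟩ := Set.mem_iUnion₂.1 h2
    exact (hω o h3).2 (Finset.mem_filter.1 ho).2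
  have h2 : P.real {ω | incr (H ω t) ∈ B} ≤
      P.real ((⋃ o ∈ (Finset.insertNone W).filter (fun o => gv f o ∈ B), gE upd t W o) ∪
        (⋃ o ∈ Finset.insertNone W, gE upd t W o)ᶜ) := by
    refine ENNReal.toReal_mono (measure_ne_top _ _) (measure_mono_ae ?_)
    filter_upwards [hae] with ω hω h3
    by_cases h4 : ω ∈ ⋃ o ∈ Finset.insertNone W, gE upd t W o
    · obtain ⟨o, ho, h5⟩ := Set.mem_iUnion₂.1 h4
      exact Or.inl (Set.mem_iUnion₂.2 ⟨o, Finset.mem_filter.2 ⟨ho, (hω o h5).1 h3⟩, h5⟩)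
    · exact Or.inr h4
  have h3 := measureReal_union_le (μ := P)
    (⋃ o ∈ (Finset.insertNone W).filter (fun o => gv f o ∈ B), gE upd t W o)
    ((⋃ o ∈ Finset.insertNone W, gE upd t W o)ᶜ)
  rw [hU] at h1 h3
  rw [hVc] at h3
  have h4 : 1 - Real.exp (-((2 * n + 4) * t)) * (1 + (2 * n + 4) * t) ≤
      ((2 * n + 4) * t) ^ 2 := by
    set z : ℝ := (2 * n + 4) * t with hz
    have hz0 : 0 ≤ z := by positivity
    have h5 := Real.add_one_le_exp (-z)
    nlinarith
  rw [abs_le]
  constructor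
  · nlinarith [sq_nonneg ((2 * (n : ℝ) + 4) * t)]
  · linarith

end Pool.MP4bb68cEx
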