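import Mathlib
import Pool.Agent.Work.MP_4bb68c_ex.Defs
import Pool.Agent.Work.MP_4bb68c_ex.Defs2
import Pool.Agent.Work.MP_4bb68c_ex.SysB
import Pool.Agent.Work.MP_4bb68c_ex.GenA1
import Pool.Agent.Work.MP_4bb68c_cl.Ker
import Pool.Agent.Work.MP_4bb68c_cl.Meas
import Pool.Agent.Work.MP_4bb68c_cl.KerB

/-!
# Stationary laws satisfy the balance equation (module GenA2, size M)

PROOF. By `stn_of_sets` it is enough to treat an event `B`, `LocS n B`. Take a probability space with
clocks and evolutions `H f` for all initial functions (`exists_space 1`, MP_4bb68c_cl/Ker). Let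
`W = Icc (-n-1) (n+2)`, `c = 2 n + 4`, `m = (μ.map incr).real B`, `m_s = (μ.map incr).real (SI.T s ⁻¹' B)`. By
`IsStationary` for the event `incr ⁻¹' B` (`incr (seen h) = incr h`):
`m = ∫ f, P.real {ω | incr (H f ω t) ∈ B} dμ` (`lintegral` version in the definition; the integrand is
measurable in `f` by `Ka_real`, Kernel; or use `kerB` and `kerB_real`: `(μ.bind (Ka 1 t)).map seen = μ` and
`P.real {H f ω t ∈ A} = (Ka 1 t f).real A`). Integrate `genA1` over `f`:
`|m - exp (-c t) (m + t ∑ s ∈ W, m_s)| ≤ (c t)^2`. Since `|W| = c`: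
`m - exp (-c t) (m + t ∑ m_s) = (1 - exp (-c t) (1 + c t)) m - t exp (-c t) ∑ s ∈ W, (m_s - m)`, and
`0 ≤ 1 - exp (-c t) (1 + c t) ≤ (c t)^2`. So `t exp (-c t) |∑ s ∈ W, (m_s - m)| ≤ 2 (c t)^2` for all
`t > 0`, hence `|∑ (m_s - m)| ≤ 2 c^2 t exp (c t) → 0` as `t → 0`. So `∑ s ∈ W, (m_s - m) = 0`, and
the terms for `s = -n-1`, `s = n+2` vanish (`T_far` for the indicator of `B`, or `SI.out`), which is the
hypothesis of `stn_of_sets`.
-/

set_option autoImplicit false

open MeasureTheory ProbabilityTheory Filter Topology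
open scoped NNReal ENNReal

namespace Pool.MP4bb68cEx

open Pool.MP4bb68c Pool.MP4bb68cOne Pool.MP4bb68cCl

private theorem g2_meas : Measurable (incr : Height 1 → Inc) := by
  rw [measurable_pi_iff]
  intro x
  exact (measurable_pi_apply _).sub (measurable_pi_apply _)

private theorem g2_seen (h : Height 1) : incr (seen h) = incr h := by
  funext x
  unfold incr seen
  ring

open Classical in
private theorem g2_int {μ : Measure (Height 1)} [IsProbabilityMeasure μ] {B : Set (ℤ → ℤ)}
    (hB : MeasurableSet B) (T : Inc → Inc) (hT : Measurable T) :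
    ∫ f, (if T (incr f) ∈ B then (1 : ℝ) else 0) ∂μ = (μ.map incr).real (T ⁻¹' B) := by
  rw [map_measureReal_apply g2_meas (hT hB)]
  have h1 : (fun f : Height 1 => (if T (incr f) ∈ B then (1 : ℝ) else 0)) =
      (incr ⁻¹' (T ⁻¹' B)).indicator (fun _ => (1 : ℝ)) := by
    funext f
    by_cases h : T (incr f) ∈ B
    · rw [if_pos h, Set.indicator_of_mem (by exact h)]
    · rw [if_neg h, Set.indicator_of_notMem (by exact h)]
  rw [h1, integral_indicator_const _ (g2_meas (hT hB)), smul_eq_mul, mul_one]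

open Classical in
private theorem g2_intble {μ : Measure (Height 1)} [IsProbabilityMeasure μ] {B : Set (ℤ → ℤ)}
    (hB : MeasurableSet B) (T : Inc → Inc) (hT : Measurable T) :
    Integrable (fun f => (if T (incr f) ∈ B then (1 : ℝ) else 0)) μ := by
  refine Integrable.of_bound (C := 1) ?_ ?_
  · refine (Measurable.ite ?_ measurable_const measurable_const).aestronglyMeasurable
    exact g2_meas (hT hB)
  · refine Filter.Eventually.of_forall fun f => ?_
    split_ifs <;> simp

private theorem g2_main {μ : Measure (Height 1)} [IsProbabilityMeasure μ] (h : IsStationary μ)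
    {n : ℕ} {B : Set (ℤ → ℤ)} (hB : LocS n B) {t : ℝ} (ht : 0 < t) :
    |(μ.map incr).real B - Real.exp (-((2 * n + 4) * t)) * ((μ.map incr).real B + t *
      ∑ s ∈ Finset.Icc (-(n : ℤ) - 1) (n + 2), (μ.map incr).real (SI.T s ⁻¹' B))| ≤
      ((2 * n + 4) * t) ^ 2 := by
  classical
  obtain ⟨Ω, m, P, hP, upd, H, hclk, hH⟩ := exists_space 1
  have hBm : MeasurableSet B := hB.measurableSet
  have hA : MeasurableSet (incr ⁻¹' B : Set (Height 1)) := g2_meas hBm
  have e1 : (seen ⁻¹' (incr ⁻¹' B) : Set (Height 1)) = incr ⁻¹' B := by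
    ext f
    rw [Set.mem_preimage, Set.mem_preimage, Set.mem_preimage, g2_seen]
  have h1 : (μ.map incr).real B = ∫ f, (Ka 1 t f).real (incr ⁻¹' B) ∂μ := by
    have h2 := kerB_real (μ := μ) t hA
    rw [kerB.1 h t ht, e1] at h2
    rw [← h2, map_measureReal_apply g2_meas hBm]
  have hF : Integrable (fun f => (Ka 1 t f).real (incr ⁻¹' B)) μ := by
    refine Integrable.of_bound (C := 1) ?_ ?_
    · refine Measurable.aestronglyMeasurable ?_
      exact (Kernel.measurable_coe _ hA).ennreal_toReal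
    · refine Filter.Eventually.of_forall fun f => ?_
      rw [Real.norm_of_nonneg measureReal_nonneg]
      exact measureReal_le_one
  have hi0 : Integrable (fun f => (if incr f ∈ B then (1 : ℝ) else 0)) μ :=
    g2_intble hBm id measurable_id
  have hG : Integrable (fun f => Real.exp (-((2 * n + 4) * t)) *
      ((if incr f ∈ B then 1 else 0) + t * ∑ s ∈ Finset.Icc (-(n : ℤ) - 1) (n + 2),
        (if SI.T s (incr f) ∈ B then (1 : ℝ) else 0))) μ := by
    refine Integrable.const_mul ?_ _
    refine hi0.add (Integrable.const_mul ?_ _)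
    exact integrable_finsetSum _ fun s _ => g2_intble hBm (SI.T s) (SI.measurable_T s)
  have hGi : ∫ f, (Real.exp (-((2 * n + 4) * t)) *
      ((if incr f ∈ B then 1 else 0) + t * ∑ s ∈ Finset.Icc (-(n : ℤ) - 1) (n + 2),
        (if SI.T s (incr f) ∈ B then (1 : ℝ) else 0))) ∂μ =
      Real.exp (-((2 * n + 4) * t)) * ((μ.map incr).real B + t *
      ∑ s ∈ Finset.Icc (-(n : ℤ) - 1) (n + 2), (μ.map incr).real (SI.T s ⁻¹' B)) := by
    rw [integral_const_mul, integral_add hi0
      (Integrable.const_mul (integrable_finsetSum _ fun s _ =>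
        g2_intble hBm (SI.T s) (SI.measurable_T s)) _), integral_const_mul,
      integral_finsetSum _ (fun s _ => g2_intble hBm (SI.T s) (SI.measurable_T s))]
    have h3 := g2_int (μ := μ) hBm id measurable_id
    rw [Set.preimage_id] at h3
    simp only [id] at h3
    rw [h3]
    congr 3
    exact Finset.sum_congr rfl fun s _ => g2_int hBm (SI.T s) (SI.measurable_T s)
  rw [← hGi, h1, ← integral_sub hF hG]
  have h4 : ∀ᵐ f ∂μ, ‖(Ka 1 t f).real (incr ⁻¹' B) - Real.exp (-((2 * n + 4) * t)) *
      ((if incr f ∈ B then 1 else 0) + t * ∑ s ∈ Finset.Icc (-(n : ℤ) - 1) (n + 2),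
        (if SI.T s (incr f) ∈ B then (1 : ℝ) else 0))‖ ≤ ((2 * n + 4) * t) ^ 2 := by
    refine Filter.Eventually.of_forall fun f => ?_
    rw [← (Ka_real hclk (hH f) ht hA).2, Real.norm_eq_abs]
    exact genA1 hclk (hH f) ht hB
  have h5 := norm_integral_le_of_norm_le_const h4
  rw [probReal_univ, mul_one, Real.norm_eq_abs] at h5
  exact h5

theorem genA {μ : Measure (Height 1)} [IsProbabilityMeasure μ] (h : IsStationary μ) :
    Stn SI (μ.map incr) := by
  haveI : IsProbabilityMeasure (μ.map incr) :=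
    Measure.isProbabilityMeasure_map g2_meas.aemeasurable
  refine stn_of_sets fun n B hB => ?_
  have hm := fun t (ht : 0 < t) => g2_main h hB (n := n) ht
  have hcard : ((Finset.Icc (-(n : ℤ) - 1) (n + 2)).card : ℝ) = 2 * n + 4 := by
    have h1 : (Finset.Icc (-(n : ℤ) - 1) ((n : ℤ) + 2)).card = 2 * n + 4 := by
      rw [Int.card_Icc]
      omega
    rw [h1]
    push_cast
    ring
  have hsub : ∑ s ∈ Finset.Icc (-(n : ℤ)) (n + 1),
      ((μ.map incr).real (SI.T s ⁻¹' B) - (μ.map incr).real B) =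
      ∑ s ∈ Finset.Icc (-(n : ℤ) - 1) (n + 2),
      ((μ.map incr).real (SI.T s ⁻¹' B) - (μ.map incr).real B) := by
    refine Finset.sum_subset ?_ ?_
    · intro s hs
      rw [Finset.mem_Icc] at hs ⊢
      omega
    · intro s _ hs
      rw [Finset.mem_Icc] at hs
      have h1 : SI.T s ⁻¹' B = B := by
        ext x
        exact hB _ _ fun y h1 h2 => SI.out s x y (by omega) (by omega)
      rw [h1, sub_self]
  rw [hsub, Finset.sum_sub_distrib, Finset.sum_const, nsmul_eq_mul, hcard]
  set Sg : ℝ := ∑ s ∈ Finset.Icc (-(n : ℤ) - 1) (n + 2), (μ.map incr).real (SI.T s ⁻¹' B)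
  set m : ℝ := (μ.map incr).real B with hmdef
  set c : ℝ := 2 * n + 4 with hc
  have hc0 : 0 < c := by positivity
  have hm0 : 0 ≤ m := measureReal_nonneg
  have hm1 : m ≤ 1 := measureReal_le_one
  by_contra hne
  set D : ℝ := Sg - c * m with hD
  have hD0 : 0 < |D| := abs_pos.2 hne
  -- the bound for small times
  have key : ∀ t : ℝ, 0 < t → t ≤ 1 → |D| ≤ 2 * c ^ 2 * Real.exp c * t := by
    intro t ht ht1
    have h1 := hm t ht
    have hct : 0 ≤ c * t := by positivity
    have h2 := Real.add_one_le_exp (-(c * t))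
    have h3 : 0 < Real.exp (-(c * t)) := Real.exp_pos _
    have h4 : Real.exp (-(c * t)) * (1 + c * t) ≤ 1 := by
      have h5 := Real.add_one_le_exp (c * t)
      have h6 : Real.exp (-(c * t)) * Real.exp (c * t) = 1 := by
        rw [← Real.exp_add, neg_add_cancel, Real.exp_zero]
      nlinarith
    have h5 : 1 - Real.exp (-(c * t)) * (1 + c * t) ≤ (c * t) ^ 2 := by nlinarith
    have h6 : m - Real.exp (-(c * t)) * (m + t * Sg) =
        m * (1 - Real.exp (-(c * t)) * (1 + c * t)) - t * Real.exp (-(c * t)) * D := by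
      rw [hD]
      ring
    rw [h6, abs_le] at h1
    have h7 : m * (1 - Real.exp (-(c * t)) * (1 + c * t)) ≤ (c * t) ^ 2 := by nlinarith
    have h8 : 0 ≤ m * (1 - Real.exp (-(c * t)) * (1 + c * t)) :=
      mul_nonneg hm0 (by linarith)
    have h9 : |t * Real.exp (-(c * t)) * D| ≤ 2 * (c * t) ^ 2 := by
      rw [abs_le]
      constructor <;> nlinarith
    rw [abs_mul, abs_of_pos (mul_pos ht h3)] at h9
    have h10 : Real.exp (-(c * t)) * |D| ≤ 2 * c ^ 2 * t := by
      have h11 : t * (Real.exp (-(c * t)) * |D|) ≤ t * (2 * c ^ 2 * t) := by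
        calc t * (Real.exp (-(c * t)) * |D|) = t * Real.exp (-(c * t)) * |D| := by ring
          _ ≤ 2 * (c * t) ^ 2 := h9
          _ = t * (2 * c ^ 2 * t) := by ring
      exact le_of_mul_le_mul_left h11 ht
    have h12 : Real.exp (c * t) ≤ Real.exp c := Real.exp_le_exp.2 (by nlinarith)
    have h13 : Real.exp (c * t) * Real.exp (-(c * t)) = 1 := by
      rw [← Real.exp_add, add_neg_cancel, Real.exp_zero]
    calc |D| = Real.exp (c * t) * (Real.exp (-(c * t)) * |D|) := by
          rw [← mul_assoc, h13, one_mul]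
      _ ≤ Real.exp (c * t) * (2 * c ^ 2 * t) :=
          mul_le_mul_of_nonneg_left h10 (Real.exp_pos _).le
      _ ≤ Real.exp c * (2 * c ^ 2 * t) := mul_le_mul_of_nonneg_right h12 (by positivity)
      _ = 2 * c ^ 2 * Real.exp c * t := by ring
  have hK : 0 < 2 * c ^ 2 * Real.exp c := by positivity
  have h1 := key (min 1 (|D| / (2 * (2 * c ^ 2 * Real.exp c)))) (by positivity) (min_le_left _ _)
  have h2 : 2 * c ^ 2 * Real.exp c * min 1 (|D| / (2 * (2 * c ^ 2 * Real.exp c))) ≤ |D| / 2 := by
    calc 2 * c ^ 2 * Real.exp c * min 1 (|D| / (2 * (2 * c ^ 2 * Real.exp c)))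
        ≤ 2 * c ^ 2 * Real.exp c * (|D| / (2 * (2 * c ^ 2 * Real.exp c))) :=
          mul_le_mul_of_nonneg_left (min_le_right _ _) hK.le
      _ = |D| / 2 := by
          field_simp
  linarith

end Pool.MP4bb68cEx
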