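import Mathlib
import Pool.Agent.Work.MP_4bb68c_ex.Defs
import Pool.Agent.Work.MP_4bb68c_ex.Defs2
import Pool.Agent.Work.MP_4bb68c_ex.SysB
import Pool.Agent.Work.MP_4bb68c_cl.Meas
import Pool.Agent.Work.MP_4bb68c_pr.Chain
import Pool.Agent.Work.MP_4bb68c_pr.Run

/-!
# One slot restricted to a window (module Slot1, size M)

`tb R b` keeps the updates of the sites in `[-R, R]` only. `istep b η = ng (zb b) η`.

`ng_single`: if `b` is `true` exactly at `pt s` then `istep b η = SI.T s η`: by the formula of `ng`: at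
`x = s - 1`: `max (η (s-1) + 1) (max (η (s-1) + η s) 0) = η (s-1) + cc η s`; at `x = s`:
`η s - max 1 (max (η s) (-η (s-1)))`. `ng_none`: if `b` is `false` everywhere then `istep b η = η`.

`slot1`: let `N = 2 R + 1`, `p = 1 - exp (-δ) ∈ [0, 1)`. Under `siteLaw 1 δ` the variables `b (pt s)`,
`|s| ≤ R`, are independent and `true` with probability `p` (`siteLaw_real_true`; `Measure.infinitePi_pi`
or `iIndepFun`). The event that all are `false` has probability `(1-p)^N`, the event that exactly `b (pt s)`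
is `true` has probability `p (1-p)^(N-1)`, these events are disjoint, and the rest has probability
`1 - (1-p)^N - N p (1-p)^(N-1) ≤ N^2 p^2` (Bernoulli: `(1-p)^(N-1) ≥ 1 - (N-1) p`,
`(1-p)^N = (1-p) (1-p)^(N-1)`, so it is `1 - (1-p)^(N-1) (1 + (N-1) p) ≤ 1 - (1 - (N-1)p)(1 + (N-1)p) =
((N-1)p)^2`). So the integral differs by at most `N^2 p^2` from
`(1-p)^N G η + p (1-p)^(N-1) ∑ G (SI.T s η)`, and this differs from `G η + p ∑ (G (SI.T s η) - G η)
= (1 - N p) G η + p ∑ G (SI.T s η)` by at most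
`|(1-p)^N - (1 - N p)| + N p (1 - (1-p)^(N-1)) ≤ N^2 p^2 + N^2 p^2`. Total `≤ 3 N^2 p^2`.
-/

set_option autoImplicit false

open MeasureTheory ProbabilityTheory Filter Topology
open scoped NNReal ENNReal

namespace Pool.MP4bb68cEx

open Pool.MP4bb68c Pool.MP4bb68cOne Pool.MP4bb68cCl

/-- Keep only the updates of the sites in `[-R, R]`. -/
def tb (R : ℕ) (b : Site 1 → Bool) : Site 1 → Bool := fun z => decide (|z 0| ≤ (R : ℤ)) && b z

/-- the slots with the pattern `c` in the window -/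
private def Ev (R : ℕ) (c : ℤ → Bool) : Set (Site 1 → Bool) :=
  {b | ∀ s ∈ Finset.Icc (-(R : ℤ)) R, b (pt s) = c s}

private theorem Ev_meas (R : ℕ) (c : ℤ → Bool) : MeasurableSet (Ev R c) := by
  have h1 : Ev R c = ⋂ s ∈ Finset.Icc (-(R : ℤ)) R, {b : Site 1 → Bool | b (pt s) = c s} := by
    ext b
    unfold Ev
    simp only [Set.mem_ofPred_eq, Set.mem_iInter]
  rw [h1]
  refine Finset.measurableSet_biInter _ fun s _ => ?_
  have h2 : Measurable (fun b : Site 1 → Bool => b (pt s)) := measurable_pi_apply _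
  exact h2 (measurableSet_singleton (c s))

private theorem Ev_real (R : ℕ) (δ : ℝ≥0) (c : ℤ → Bool) :
    (siteLaw 1 δ).real (Ev R c) = ∏ s ∈ Finset.Icc (-(R : ℤ)) R, (slotLaw δ).real {c s} := by
  have h1 : Ev R c = Set.pi (((Finset.Icc (-(R : ℤ)) R).image pt : Finset (Site 1)) :
      Set (Site 1)) (fun z => {c (z 0)}) := by
    ext b
    unfold Ev
    simp only [Set.mem_ofPred_eq, Set.mem_pi, Finset.coe_image, Set.mem_image, Finset.mem_coe,
      Set.mem_singleton_iff]
    constructor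
    · rintro h z ⟨s, hs, rfl⟩
      exact h s hs
    · intro h s hs
      exact h (pt s) ⟨s, hs, rfl⟩
  rw [measureReal_def, h1]
  unfold siteLaw
  rw [Measure.infinitePi_pi _ (fun i _ => measurableSet_singleton _),
    Finset.prod_image (fun i _ j _ hij => pt_inj.mp hij), ENNReal.toReal_prod]
  rfl

private theorem zb_tb (R : ℕ) (b : Site 1 → Bool) (x : ℤ) :
    zb (tb R b) x = (decide (|x| ≤ (R : ℤ)) && b (pt x)) := rfl

private theorem step_none (R : ℕ) {b : Site 1 → Bool} (hb : b ∈ Ev R (fun _ => false))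
    (η : ℤ → ℤ) : istep (tb R b) η = η := by
  have h1 : ∀ x, zb (tb R b) x = false := by
    intro x
    rw [zb_tb]
    by_cases hx : |x| ≤ (R : ℤ)
    · have h2 := hb x (Finset.mem_Icc.mpr (abs_le.mp hx))
      rw [h2, Bool.and_false]
    · rw [decide_eq_false hx, Bool.false_and]
  funext x
  unfold istep ng
  rw [h1, h1, if_neg (by simp), if_neg (by simp), sub_zero]

private theorem step_one (R : ℕ) {b : Site 1 → Bool} {s : ℤ}
    (hs : s ∈ Finset.Icc (-(R : ℤ)) R) (hb : b ∈ Ev R (fun x => decide (x = s)))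
    (η : ℤ → ℤ) : istep (tb R b) η = SI.T s η := by
  have h1 : ∀ x, zb (tb R b) x = decide (x = s) := by
    intro x
    rw [zb_tb]
    by_cases hx : |x| ≤ (R : ℤ)
    · have h2 := hb x (Finset.mem_Icc.mpr (abs_le.mp hx))
      rw [h2, decide_eq_true hx, Bool.true_and]
    · rw [decide_eq_false hx, Bool.false_and]
      have h3 : x ≠ s := by
        rintro rfl
        exact hx (abs_le.mpr (Finset.mem_Icc.mp hs))
      rw [decide_eq_false h3]
  funext x
  unfold istep ng
  rw [h1, h1]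
  show _ = (if x = s - 1 then η x + cc η s else if x = s then η x - cc η s else η x)
  unfold cc
  simp only [decide_eq_true_eq]
  by_cases h2 : x = s - 1
  · subst h2
    rw [if_pos (by omega), if_neg (by omega), if_pos rfl, sub_add_cancel]
    omega
  · by_cases h3 : x = s
    · subst h3
      rw [if_neg (by omega), if_pos rfl, if_neg (by omega), if_pos rfl]
    · rw [if_neg (by omega), if_neg h3, if_neg h2, if_neg h3, sub_zero]

private theorem num1 (n : ℕ) {p : ℝ} (h0 : 0 ≤ p) (h1 : p ≤ 1) :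
    1 - (1 - p) * (1 - p) ^ n - ((n : ℝ) + 1) * (p * (1 - p) ^ n) ≤ ((n : ℝ) * p) ^ 2 := by
  have hb := one_add_mul_le_pow (show (-2 : ℝ) ≤ -p by linarith) n
  have e : (1 + -p : ℝ) = 1 - p := by ring
  rw [e] at hb
  have h2 : (1 - n * p) * (1 + n * p) ≤ (1 - p) ^ n * (1 + n * p) :=
    mul_le_mul_of_nonneg_right (by linarith) (by positivity)
  nlinarith

private theorem num2 (N : ℕ) {p : ℝ} (h0 : 0 ≤ p) (h1 : p ≤ 1) :
    |(1 - p) ^ N - (1 - N * p)| ≤ ((N : ℝ) * p) ^ 2 := by
  have hb := one_add_mul_le_pow (show (-2 : ℝ) ≤ -p by linarith) N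
  have e : (1 + -p : ℝ) = 1 - p := by ring
  rw [e] at hb
  have hc := one_add_mul_le_pow (show (-2 : ℝ) ≤ p by linarith) N
  have hpos : (0 : ℝ) ≤ (1 - p) ^ N := pow_nonneg (by linarith) N
  have h2 : (1 - p) ^ N * (1 + N * p) ≤ 1 := by
    calc (1 - p) ^ N * (1 + N * p) ≤ (1 - p) ^ N * (1 + p) ^ N :=
          mul_le_mul_of_nonneg_left hc hpos
      _ = (1 - p ^ 2) ^ N := by
          rw [← mul_pow]
          congr 1
          ring
      _ ≤ 1 := pow_le_one₀ (by nlinarith) (by nlinarith)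
  have hx : (0 : ℝ) ≤ N * p := by positivity
  have h3 : (1 - p) ^ N ≤ 1 - N * p + (N * p) ^ 2 := by
    have h4 : (1 - p) ^ N * (1 + N * p) ≤ (1 - N * p + (N * p) ^ 2) * (1 + N * p) := by
      have h5 : (1 - N * p + (N * p) ^ 2) * (1 + N * p) = 1 + (N * p) ^ 3 := by ring
      have h6 : (0 : ℝ) ≤ (N * p) ^ 3 := by positivity
      rw [h5]
      linarith
    exact le_of_mul_le_mul_right h4 (by linarith)
  rw [abs_le]
  constructor
  · have : (0 : ℝ) ≤ (N * p) ^ 2 := by positivity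
    linarith
  · linarith

theorem slot1 (R : ℕ) (δ : ℝ≥0) {G : (ℤ → ℤ) → ℝ} (hG : Measurable G) (hb : ∀ η, |G η| ≤ 1)
    (η : ℤ → ℤ) :
    |∫ b, G (istep (tb R b) η) ∂(siteLaw 1 δ) - (G η + (1 - Real.exp (-(δ : ℝ))) *
      ∑ s ∈ Finset.Icc (-(R : ℤ)) R, (G (SI.T s η) - G η))| ≤
      3 * (2 * (R : ℝ) + 1) ^ 2 * (1 - Real.exp (-(δ : ℝ))) ^ 2 := by
  classical
  obtain ⟨p, hp⟩ : ∃ p : ℝ, p = 1 - Real.exp (-(δ : ℝ)) := ⟨_, rfl⟩
  have hexp1 : Real.exp (-(δ : ℝ)) ≤ 1 := Real.exp_le_one_iff.mpr (by simp)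
  have hexp0 : 0 < Real.exp (-(δ : ℝ)) := Real.exp_pos _
  have hp0 : 0 ≤ p := by linarith
  have hp1 : p ≤ 1 := by linarith
  have hexp : Real.exp (-(δ : ℝ)) = 1 - p := by linarith
  rw [← hp]
  obtain ⟨W, hW⟩ : ∃ W : Finset ℤ, W = Finset.Icc (-(R : ℤ)) R := ⟨_, rfl⟩
  rw [← hW]
  have hcard : W.card = 2 * R + 1 := by
    rw [hW, Int.card_Icc]
    omega
  obtain ⟨μ, hμ⟩ : ∃ μ : Measure (Site 1 → Bool), μ = siteLaw 1 δ := ⟨_, rfl⟩
  haveI : IsProbabilityMeasure μ := by rw [hμ]; infer_instance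
  rw [← hμ]
  -- the probabilities of the events
  obtain ⟨E0, hE0⟩ : ∃ E0 : Set (Site 1 → Bool), E0 = Ev R (fun _ => false) := ⟨_, rfl⟩
  obtain ⟨E, hE⟩ : ∃ E : ℤ → Set (Site 1 → Bool), E = fun s => Ev R (fun x => decide (x = s)) :=
    ⟨_, rfl⟩
  have hE0m : MeasurableSet E0 := by rw [hE0]; exact Ev_meas _ _
  have hEm : ∀ s, MeasurableSet (E s) := fun s => by rw [hE]; exact Ev_meas _ _
  have hP0 : μ.real E0 = (1 - p) * (1 - p) ^ (2 * R) := by
    rw [hμ, hE0, Ev_real, ← hW]
    simp only [slotLaw_real_false, hexp]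
    rw [Finset.prod_const, hcard, pow_succ]
    ring
  have hP1 : ∀ s ∈ W, μ.real (E s) = p * (1 - p) ^ (2 * R) := by
    intro s hs
    rw [hμ, hE]
    show (siteLaw 1 δ).real (Ev R (fun x => decide (x = s))) = _
    rw [Ev_real, ← hW, ← Finset.mul_prod_erase W _ hs]
    have h1 : ∀ x ∈ W.erase s, (slotLaw δ).real {decide (x = s)} = 1 - p := by
      intro x hx
      rw [decide_eq_false (Finset.ne_of_mem_erase hx), slotLaw_real_false, hexp]
    rw [Finset.prod_congr rfl h1, Finset.prod_const, Finset.card_erase_of_mem hs, hcard,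
      decide_eq_true rfl, slotLaw_real_true, ← hp]
    rfl
  -- the pointwise estimate
  have hpt : ∀ b, |G (istep (tb R b) η) - (E0.indicator (fun _ => G η) b +
      ∑ s ∈ W, (E s).indicator (fun _ => G (SI.T s η)) b)| ≤
      1 - (E0.indicator (fun _ => (1 : ℝ)) b + ∑ s ∈ W, (E s).indicator (fun _ => (1 : ℝ)) b) := by
    intro b
    by_cases h0 : b ∈ E0
    · have h1 : ∀ s ∈ W, b ∉ E s := by
        intro s hs h2
        rw [hE] at h2
        have h3 := h2 s (by rw [← hW]; exact hs)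
        rw [hE0] at h0
        have h4 := h0 s (by rw [← hW]; exact hs)
        rw [h4] at h3
        exact absurd h3 (by simp)
      have h5 : ∑ s ∈ W, (E s).indicator (fun _ => G (SI.T s η)) b = 0 :=
        Finset.sum_eq_zero fun s hs => Set.indicator_of_notMem (h1 s hs) _
      have h6 : ∑ s ∈ W, (E s).indicator (fun _ => (1 : ℝ)) b = 0 :=
        Finset.sum_eq_zero fun s hs => Set.indicator_of_notMem (h1 s hs) _
      rw [h5, h6, Set.indicator_of_mem h0, Set.indicator_of_mem h0,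
        step_none R (by rw [← hE0]; exact h0) η]
      simp
    · rw [Set.indicator_of_notMem h0, Set.indicator_of_notMem h0]
      by_cases h1 : ∃ s ∈ W, b ∈ E s
      · obtain ⟨s, hs, hbs⟩ := h1
        have h2 : ∀ s' ∈ W, s' ≠ s → b ∉ E s' := by
          intro s' hs' hne h3
          rw [hE] at h3 hbs
          have h4 := h3 s' (by rw [← hW]; exact hs')
          have h5 := hbs s' (by rw [← hW]; exact hs')
          rw [h5] at h4
          have h6 : decide (s' = s) = decide (s' = s') := h4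
          rw [decide_eq_false hne, decide_eq_true rfl] at h6
          exact absurd h6 (by simp)
        have h5 : ∑ s ∈ W, (E s).indicator (fun _ => G (SI.T s η)) b = G (SI.T s η) := by
          rw [Finset.sum_eq_single s (fun s' hs' hne => Set.indicator_of_notMem (h2 s' hs' hne) _)
            (fun h => absurd hs h), Set.indicator_of_mem hbs]
        have h6 : ∑ s ∈ W, (E s).indicator (fun _ => (1 : ℝ)) b = 1 := by
          rw [Finset.sum_eq_single s (fun s' hs' hne => Set.indicator_of_notMem (h2 s' hs' hne) _)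
            (fun h => absurd hs h), Set.indicator_of_mem hbs]
        rw [h5, h6, step_one R (s := s) (by rw [← hW]; exact hs) (by rw [hE] at hbs; exact hbs) η]
        simp
      · push Not at h1
        have h5 : ∑ s ∈ W, (E s).indicator (fun _ => G (SI.T s η)) b = 0 :=
          Finset.sum_eq_zero fun s hs => Set.indicator_of_notMem (h1 s hs) _
        have h6 : ∑ s ∈ W, (E s).indicator (fun _ => (1 : ℝ)) b = 0 :=
          Finset.sum_eq_zero fun s hs => Set.indicator_of_notMem (h1 s hs) _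
        rw [h5, h6]
        simp only [add_zero, sub_zero]
        exact hb _
  -- integration
  have hFm : Measurable (fun b : Site 1 → Bool => G (istep (tb R b) η)) := by
    have htb : Measurable (fun b : Site 1 → Bool => tb R b) := by
      unfold tb
      rw [measurable_pi_iff]
      intro z
      have h1 : Measurable (fun b : Bool => decide (|z 0| ≤ (R : ℤ)) && b) :=
        measurable_of_countable _
      exact h1.comp (measurable_pi_apply z)
    exact hG.comp (measurable_istep.comp (measurable_const.prodMk htb))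
  have hFi : Integrable (fun b : Site 1 → Bool => G (istep (tb R b) η)) μ :=
    Integrable.of_bound hFm.aestronglyMeasurable 1
      (Filter.Eventually.of_forall fun x => by rw [Real.norm_eq_abs]; exact hb _)
  have hci : ∀ c : ℝ, ∀ s, Integrable ((E s).indicator (fun _ => c)) μ := fun c s =>
    (integrable_const c).indicator (hEm s)
  have hci0 : ∀ c : ℝ, Integrable (E0.indicator (fun _ => c)) μ := fun c =>
    (integrable_const c).indicator hE0m
  have hSi : ∀ g : ℤ → ℝ, Integrable (fun b => ∑ s ∈ W, (E s).indicator (fun _ => g s) b) μ :=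
    fun g => integrable_finsetSum _ fun s _ => hci (g s) s
  have hAi : ∀ (c : ℝ) (g : ℤ → ℝ), Integrable (fun b => E0.indicator (fun _ => c) b +
      ∑ s ∈ W, (E s).indicator (fun _ => g s) b) μ := fun c g => (hci0 c).add (hSi g)
  have hAe : ∀ (c : ℝ) (g : ℤ → ℝ), ∫ b, (E0.indicator (fun _ => c) b +
      ∑ s ∈ W, (E s).indicator (fun _ => g s) b) ∂μ =
      (1 - p) * (1 - p) ^ (2 * R) * c + p * (1 - p) ^ (2 * R) * ∑ s ∈ W, g s := by
    intro c g
    rw [integral_add (hci0 c) (hSi g), integral_finsetSum _ (fun s _ => hci (g s) s),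
      integral_indicator_const _ hE0m, hP0, smul_eq_mul, Finset.mul_sum]
    congr 1
    refine Finset.sum_congr rfl fun s hs => ?_
    rw [integral_indicator_const _ (hEm s), hP1 s hs, smul_eq_mul]
  have hmain : |∫ b, G (istep (tb R b) η) ∂μ - ((1 - p) * (1 - p) ^ (2 * R) * G η +
      p * (1 - p) ^ (2 * R) * ∑ s ∈ W, G (SI.T s η))| ≤
      1 - ((1 - p) * (1 - p) ^ (2 * R) * 1 + p * (1 - p) ^ (2 * R) * ∑ s ∈ W, (1 : ℝ)) := by
    rw [← hAe (G η) (fun s => G (SI.T s η)), ← hAe 1 (fun _ => 1),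
      ← integral_sub hFi (hAi _ _)]
    have h1 : (1 : ℝ) - ∫ b, (E0.indicator (fun _ => (1 : ℝ)) b +
        ∑ s ∈ W, (E s).indicator (fun _ => (1 : ℝ)) b) ∂μ =
        ∫ b, (1 - (E0.indicator (fun _ => (1 : ℝ)) b +
        ∑ s ∈ W, (E s).indicator (fun _ => (1 : ℝ)) b)) ∂μ := by
      rw [integral_sub (integrable_const _) (hAi _ _), integral_const, probReal_univ, one_smul]
    rw [h1]
    refine (abs_integral_le_integral_abs).trans ?_
    refine integral_mono_of_nonneg (Filter.Eventually.of_forall fun b => abs_nonneg _)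
      ((integrable_const _).sub (hAi _ _)) (Filter.Eventually.of_forall fun b => hpt b)
  -- numbers
  have hWs : ∑ s ∈ W, (1 : ℝ) = 2 * R + 1 := by
    rw [Finset.sum_const, hcard, nsmul_eq_mul, mul_one]
    push_cast
    ring
  have hn1 := num1 (2 * R) hp0 hp1
  have hn2 := num2 (2 * R + 1) hp0 hp1
  rw [pow_succ] at hn2
  push_cast at hn1 hn2
  have hbern := one_add_mul_le_pow (show (-2 : ℝ) ≤ -p by linarith) (2 * R)
  have e : (1 + -p : ℝ) = 1 - p := by ring
  rw [e] at hbern
  push_cast at hbern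
  have ha1 : (1 - p) ^ (2 * R) ≤ 1 := pow_le_one₀ (by linarith) (by linarith)
  have ha0 : 0 ≤ (1 - p) ^ (2 * R) := pow_nonneg (by linarith) _
  obtain ⟨a, ha⟩ : ∃ a : ℝ, a = (1 - p) ^ (2 * R) := ⟨_, rfl⟩
  rw [← ha] at hmain hn1 hn2 hbern ha1 ha0
  obtain ⟨n, hn⟩ : ∃ n : ℝ, n = 2 * (R : ℝ) := ⟨_, rfl⟩
  have hn0 : 0 ≤ n := by rw [hn]; positivity
  rw [hWs] at hmain
  rw [← hn] at hmain hn1 hn2 hbern ⊢
  obtain ⟨S, hS⟩ : ∃ S : ℝ, S = ∑ s ∈ W, G (SI.T s η) := ⟨_, rfl⟩
  have hSb : |S| ≤ n + 1 := by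
    rw [hS]
    refine (Finset.abs_sum_le_sum_abs _ _).trans ?_
    have h1 : ∑ s ∈ W, |G (SI.T s η)| ≤ ∑ s ∈ W, (1 : ℝ) := Finset.sum_le_sum fun s _ => hb _
    rw [hWs, ← hn] at h1
    exact h1
  have hsum : ∑ s ∈ W, (G (SI.T s η) - G η) = S - (n + 1) * G η := by
    rw [Finset.sum_sub_distrib, ← hS, Finset.sum_const, hcard, nsmul_eq_mul]
    push_cast
    rw [hn]
  rw [hsum]
  rw [← hS] at hmain
  have hGη := hb η
  obtain ⟨g, hg⟩ : ∃ g : ℝ, g = G η := ⟨_, rfl⟩
  rw [← hg] at hmain hGη ⊢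
  obtain ⟨X, hX⟩ : ∃ X : ℝ, X = ∫ b, G (istep (tb R b) η) ∂μ := ⟨_, rfl⟩
  rw [← hX] at hmain ⊢
  -- the difference of the two main terms
  have hd : |((1 - p) * a * g + p * a * S) - (g + p * (S - (n + 1) * g))| ≤
      ((n + 1) * p) ^ 2 + p * (n * p) * (n + 1) := by
    have h1 : ((1 - p) * a * g + p * a * S) - (g + p * (S - (n + 1) * g)) =
        (a * (1 - p) - (1 - (n + 1) * p)) * g + (p * (a - 1)) * S := by ring
    rw [h1]
    refine (abs_add_le _ _).trans (add_le_add ?_ ?_)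
    · rw [abs_mul]
      calc |a * (1 - p) - (1 - (n + 1) * p)| * |g| ≤ ((n + 1) * p) ^ 2 * 1 :=
            mul_le_mul hn2 hGη (abs_nonneg _) (by positivity)
        _ = _ := by ring
    · rw [abs_mul, abs_mul, abs_of_nonneg hp0]
      have h2 : |a - 1| ≤ n * p := by
        rw [abs_le]
        constructor
        · linarith
        · have : 0 ≤ n * p := by positivity
          linarith
      exact mul_le_mul (mul_le_mul_of_nonneg_left h2 hp0) hSb (abs_nonneg _) (by positivity)
  have hf := abs_sub_le X ((1 - p) * a * g + p * a * S) (g + p * (S - (n + 1) * g))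
  have hlast : (n * p) ^ 2 + (((n + 1) * p) ^ 2 + p * (n * p) * (n + 1)) ≤
      3 * (n + 1) ^ 2 * p ^ 2 := by
    have h1 : 3 * (n + 1) ^ 2 * p ^ 2 - ((n * p) ^ 2 + (((n + 1) * p) ^ 2 +
        p * (n * p) * (n + 1))) = (3 * n + 2) * p ^ 2 := by ring
    have h2 : 0 ≤ (3 * n + 2) * p ^ 2 := by positivity
    linarith
  have hm2 : 1 - ((1 - p) * a * 1 + p * a * (n + 1)) ≤ (n * p) ^ 2 := by
    refine le_trans (le_of_eq ?_) hn1
    ring
  linarith

end Pool.MP4bb68cEx
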