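import Mathlib
import Pool.Agent.Work.MP_4bb68c_ex.Defs
import Pool.Agent.Work.MP_4bb68c_ex.Defs2
import Pool.Agent.Work.MP_4bb68c_ex.SysB
import Pool.Agent.Work.MP_4bb68c_cl.Meas
import Pool.Agent.Work.MP_4bb68c_pr.Chain

/-!
# The speed of influence for synchronous slots (module SlotF, size M)

`ng b η x` (definitions of MP_4bb68c_cl) uses `b x`, `b (x+1)`, `η x`, uses `η (x+1)` only if
`b (x+1) = true`, and uses `η (x-1)` only if `b x = true`. `ifw ξ η (j+1) = ng (zb (ξ j)) (ifw ξ η j)`,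
`zb b x = b (pt x)`.

PROOF. Fix `ξ`. Right front: `r 0 = R`, `r (j+1) = r j - 1` if `ξ j (pt (r j)) = true`, otherwise `r j`. Left
front: `l 0 = -R - 1`, `l (j+1) = l j + 1` if `ξ j (pt (l j + 1)) = true`, otherwise `l j`.
CLAIM (induction on `j`): if `ξ, ξ'` agree at the sites in `[-R, R]` and `η, η'` agree on `[-R, R-1]` then
`ifw ξ η j` and `ifw ξ' η' j` agree at all `x` with `l j < x < r j`. Step: let
`l (j+1) < x < r (j+1)`. Then `-R ≤ x` and `x + 1 ≤ R`, so `ξ j` and `ξ' j` agree at `pt x` and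
`pt (x+1)`; `l j < x < r j`. If `x + 1 < r j` the value at `x + 1` agrees; if `x + 1 = r j` then the front
has not moved (otherwise `x < r j - 1`), so `ξ j (pt (x+1)) = false` and the value at `x + 1` is not used.
If `l j < x - 1` the value at `x - 1` agrees; if `x - 1 = l j` the front has not moved (otherwise
`l j + 1 < x`), so `ξ j (pt (l j + 1)) = ξ j (pt x) = false` and the value at `x - 1` is not used.
PROBABILITY: under `arrLaw 1 δ` the slots are independent and `ξ j (pt y)` is `true` with probability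
`p = 1 - exp (-δ) ≤ δ` (`siteLaw_real_true`). Given the first `j` slots `r j` is fixed, so
`E 2 ^ (-r (j+1)) ≤ (1 + p) E 2 ^ (-r j)`, hence `E 2 ^ (-r j) ≤ 2 ^ (-R) (1 + δ)^j` and
`P (r j ≤ M) ≤ 2 ^ (M - R) (1 + δ)^j`; in the same way `P (l j ≥ -M) ≤ 2 ^ (M - R - 1) (1 + δ)^j`. (For the
induction it is convenient to peel off the FIRST slot: `map_consArr`, with the fronts started at
arbitrary positions: `r (j+1)` for `consArr (b, ζ)` started at `B` is `r j` for `ζ` started at `B - 1` or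
`B`; as in the proof of `fwd_law` in MP_4bb68c_cl/Marg.lean.) The bad set is
`{r j ≤ M} ∪ {l j ≥ -M}`; on its complement all `x ∈ [-M, M]` satisfy `l j < x < r j`.
-/

set_option autoImplicit false

open MeasureTheory ProbabilityTheory Filter Topology
open scoped NNReal ENNReal

namespace Pool.MP4bb68cEx

open Pool.MP4bb68c Pool.MP4bb68cOne Pool.MP4bb68cCl

/-- Remove the first slot. -/
private def tl (ξ : ℕ → Site 1 → Bool) : ℕ → Site 1 → Bool := fun i => ξ (i + 1)

/-- A front which moves by `e` if the site at distance `c` is updated. -/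
private def mv (c e : ℤ) : ℕ → (ℕ → Site 1 → Bool) → ℤ → ℤ
  | 0, _, B => B
  | j + 1, ξ, B => if ξ 0 (pt (B + c)) = true then mv c e j (tl ξ) (B + e) else mv c e j (tl ξ) B

private theorem measurable_tl : Measurable tl :=
  measurable_pi_iff.2 fun i => measurable_pi_apply (i + 1)

private theorem measurable_mv (c e : ℤ) (j : ℕ) (B : ℤ) : Measurable (fun ξ => mv c e j ξ B) := by
  induction j generalizing B with
  | zero => exact measurable_const
  | succ j ih =>
    have h : MeasurableSet {ξ : ℕ → Site 1 → Bool | ξ 0 (pt (B + c)) = true} := by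
      have h1 : Measurable fun ξ : ℕ → Site 1 → Bool => ξ 0 (pt (B + c)) :=
        (measurable_pi_apply _).comp (measurable_pi_apply 0)
      exact h1 (measurableSet_singleton true)
    exact Measurable.ite h ((ih (B + e)).comp measurable_tl) ((ih B).comp measurable_tl)

private theorem measurableSet_mv (c e : ℤ) (j : ℕ) (B M : ℤ) :
    MeasurableSet {ξ | M ≤ e * mv c e j ξ B} :=
  measurableSet_le measurable_const (measurable_const.mul (measurable_mv c e j B))

private theorem mv_bound (δ : ℝ≥0) (c : ℤ) {e : ℤ} (he : e * e = 1) (j : ℕ) (B M : ℤ) :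
    (arrLaw 1 δ).real {ξ | M ≤ e * mv c e j ξ B} ≤ (2 : ℝ) ^ (e * B - M) * (1 + (δ : ℝ)) ^ j := by
  induction j generalizing B with
  | zero =>
    rw [pow_zero, mul_one]
    by_cases h : M ≤ e * B
    · refine measureReal_le_one.trans ?_
      exact one_le_zpow₀ (by norm_num) (by linarith)
    · have : {ξ : ℕ → Site 1 → Bool | M ≤ e * mv c e 0 ξ B} = ∅ := by
        ext ξ
        simp only [Set.mem_ofPred_eq, Set.mem_empty_iff_false, iff_false]
        exact h
      rw [this, measureReal_empty]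
      positivity
  | succ j ih =>
    have hset : consArr ⁻¹' {ξ : ℕ → Site 1 → Bool | M ≤ e * mv c e (j + 1) ξ B} ⊆
        ({b | b (pt (B + c)) = true} ×ˢ {ζ | M ≤ e * mv c e j ζ (B + e)}) ∪
        ({b | b (pt (B + c)) = true}ᶜ ×ˢ {ζ | M ≤ e * mv c e j ζ B}) := by
      rintro ⟨b, ζ⟩ h
      change M ≤ e * (if b (pt (B + c)) = true then mv c e j ζ (B + e) else mv c e j ζ B) at h
      by_cases hb : b (pt (B + c)) = true
      · rw [if_pos hb] at h
        exact Or.inl ⟨hb, h⟩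
      · rw [if_neg hb] at h
        exact Or.inr ⟨hb, h⟩
    have hm : MeasurableSet {b : Site 1 → Bool | b (pt (B + c)) = true} := by
      have h1 : Measurable fun b : Site 1 → Bool => b (pt (B + c)) := measurable_pi_apply _
      exact h1 (measurableSet_singleton true)
    set p : ℝ := (siteLaw 1 δ).real {b | b (pt (B + c)) = true} with hp
    have hp0 : 0 ≤ p := measureReal_nonneg
    have hp1 : p ≤ 1 := measureReal_le_one
    have hpδ : p ≤ δ := by
      rw [hp, siteLaw_real_true]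
      have := Real.add_one_le_exp (-(δ : ℝ))
      linarith
    have hc : (siteLaw 1 δ).real {b | b (pt (B + c)) = true}ᶜ = 1 - p :=
      probReal_compl_eq_one_sub hm
    have hmain : (arrLaw 1 δ).real {ξ | M ≤ e * mv c e (j + 1) ξ B} ≤
        p * (arrLaw 1 δ).real {ζ | M ≤ e * mv c e j ζ (B + e)} +
          (1 - p) * (arrLaw 1 δ).real {ζ | M ≤ e * mv c e j ζ B} := by
      calc (arrLaw 1 δ).real {ξ | M ≤ e * mv c e (j + 1) ξ B}
          = ((siteLaw 1 δ).prod (arrLaw 1 δ)).real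
            (consArr ⁻¹' {ξ | M ≤ e * mv c e (j + 1) ξ B}) := by
            rw [← map_measureReal_apply measurable_consArr (measurableSet_mv _ _ _ _ _),
              map_consArr]
        _ ≤ _ := measureReal_mono hset
        _ ≤ _ := measureReal_union_le _ _
        _ = _ := by rw [measureReal_prod_prod, measureReal_prod_prod, hc]
    refine hmain.trans ?_
    have h1 := ih (B + e)
    have h2 := ih B
    have e1 : (2 : ℝ) ^ (e * (B + e) - M) = 2 * 2 ^ (e * B - M) := by
      have : e * (B + e) - M = 1 + (e * B - M) := by rw [mul_add, he]; ring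
      rw [this, zpow_add₀ (by norm_num), zpow_one]
    rw [e1] at h1
    set Z : ℝ := (2 : ℝ) ^ (e * B - M) * (1 + (δ : ℝ)) ^ j with hZ
    have hZ0 : 0 ≤ Z := by positivity
    have h3 : p * (arrLaw 1 δ).real {ζ | M ≤ e * mv c e j ζ (B + e)} ≤ p * (2 * Z) :=
      mul_le_mul_of_nonneg_left (by rw [hZ]; linarith) hp0
    have h4 : (1 - p) * (arrLaw 1 δ).real {ζ | M ≤ e * mv c e j ζ B} ≤ (1 - p) * Z :=
      mul_le_mul_of_nonneg_left h2 (by linarith)
    have h5 : (2 : ℝ) ^ (e * B - M) * (1 + (δ : ℝ)) ^ (j + 1) = (1 + δ) * Z := by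
      rw [hZ, pow_succ]; ring
    rw [h5]
    nlinarith [mul_le_mul_of_nonneg_right hpδ hZ0]

private theorem ifw_tl (ξ : ℕ → Site 1 → Bool) (η : ℤ → ℤ) (j : ℕ) :
    ifw ξ η (j + 1) = ifw (tl ξ) (istep (ξ 0) η) j := by
  have h : consArr (ξ 0, tl ξ) = ξ := by
    funext i
    cases i with
    | zero => rfl
    | succ i => rfl
  have h1 := ifw_cons (ξ 0) (tl ξ) η j
  rw [h] at h1
  exact h1

/-- One slot. -/
private theorem step_agree {b b' : Site 1 → Bool} {η η' : ℤ → ℤ} {l r : ℤ} {R : ℕ}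
    (hl : -(R : ℤ) - 1 ≤ l) (hr : r ≤ R)
    (hb : ∀ x : ℤ, -(R : ℤ) ≤ x → x ≤ R → b (pt x) = b' (pt x))
    (hη : ∀ x : ℤ, l < x → x < r → η x = η' x) :
    ∀ x : ℤ, (if b (pt (l + 1)) = true then l + 1 else l) < x →
      x < (if b (pt (r + 0)) = true then r + -1 else r) → istep b η x = istep b' η' x := by
  intro x h1 h2
  rw [add_zero] at h2
  have hlx : l < x := by split_ifs at h1 <;> omega
  have hxr : x < r := by split_ifs at h2 <;> omega
  have e0 := hη x hlx hxr
  have e1 : zb b x = zb b' x := hb x (by omega) (by omega)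
  have e2 : zb b (x + 1) = zb b' (x + 1) := hb (x + 1) (by omega) (by omega)
  have e3 : zb b (x + 1) = true → η (x + 1) = η' (x + 1) := by
    intro h
    refine hη (x + 1) (by omega) ?_
    by_contra hc
    have : x + 1 = r := by omega
    change b (pt (x + 1)) = true at h
    rw [← this, if_pos h] at h2
    omega
  have e4 : zb b x = true → η (x - 1) = η' (x - 1) := by
    intro h
    refine hη (x - 1) ?_ (by omega)
    by_contra hc
    have : x = l + 1 := by omega
    change b (pt x) = true at h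
    rw [← this, if_pos h] at h1
    omega
  show (if zb b (x + 1) = true then max (η x + 1) (max (η x + η (x + 1)) 0) else η x) -
      (if zb b x = true then max 1 (max (η x) (-η (x - 1))) else 0) =
    (if zb b' (x + 1) = true then max (η' x + 1) (max (η' x + η' (x + 1)) 0) else η' x) -
      (if zb b' x = true then max 1 (max (η' x) (-η' (x - 1))) else 0)
  rw [← e1, ← e2, e0]
  by_cases c1 : zb b (x + 1) = true
  · rw [if_pos c1, if_pos c1, e3 c1]
    by_cases c2 : zb b x = true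
    · rw [if_pos c2, if_pos c2, e4 c2]
    · rw [if_neg c2, if_neg c2]
  · rw [if_neg c1, if_neg c1]
    by_cases c2 : zb b x = true
    · rw [if_pos c2, if_pos c2, e4 c2]
    · rw [if_neg c2, if_neg c2]

private theorem agree (j : ℕ) {R : ℕ} : ∀ (ξ ξ' : ℕ → Site 1 → Bool) (η η' : ℤ → ℤ) (l r : ℤ),
    -(R : ℤ) - 1 ≤ l → r ≤ R →
    (∀ (k : ℕ) (x : ℤ), -(R : ℤ) ≤ x → x ≤ R → ξ k (pt x) = ξ' k (pt x)) →
    (∀ x : ℤ, l < x → x < r → η x = η' x) →
    ∀ x : ℤ, mv 1 1 j ξ l < x → x < mv 0 (-1) j ξ r → ifw ξ η j x = ifw ξ' η' j x := by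
  induction j with
  | zero =>
    intro ξ ξ' η η' l r _ _ _ hη x h1 h2
    exact hη x h1 h2
  | succ j ih =>
    intro ξ ξ' η η' l r hl hr hξ hη x h1 h2
    rw [ifw_tl, ifw_tl]
    have hs := step_agree (b := ξ 0) (b' := ξ' 0) hl hr (fun x h3 h4 => hξ 0 x h3 h4) hη
    refine ih (tl ξ) (tl ξ') _ _ (if ξ 0 (pt (l + 1)) = true then l + 1 else l)
      (if ξ 0 (pt (r + 0)) = true then r + -1 else r) ?_ ?_ (fun k x h3 h4 => hξ (k + 1) x h3 h4)
      hs x ?_ ?_
    · split_ifs <;> omega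
    · split_ifs <;> omega
    · change (if ξ 0 (pt (l + 1)) = true then mv 1 1 j (tl ξ) (l + 1) else mv 1 1 j (tl ξ) l) < x
        at h1
      split_ifs at h1 ⊢ <;> exact h1
    · change x < (if ξ 0 (pt (r + 0)) = true then mv 0 (-1) j (tl ξ) (r + -1)
        else mv 0 (-1) j (tl ξ) r) at h2
      split_ifs at h2 ⊢ <;> exact h2

theorem slot_front (δ : ℝ≥0) (R M j : ℕ) : ∃ Bd : Set (ℕ → Site 1 → Bool), MeasurableSet Bd ∧
    (arrLaw 1 δ).real Bd ≤ 2 * (2 : ℝ) ^ ((M : ℤ) - R) * (1 + (δ : ℝ)) ^ j ∧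
    ∀ ξ ∉ Bd, ∀ ξ' : ℕ → Site 1 → Bool,
      (∀ (k : ℕ) (x : ℤ), -(R : ℤ) ≤ x → x ≤ R → ξ k (pt x) = ξ' k (pt x)) →
      ∀ η η' : ℤ → ℤ, (∀ x : ℤ, -(R : ℤ) ≤ x → x < R → η x = η' x) →
        ∀ x : ℤ, -(M : ℤ) ≤ x → x ≤ M → ifw ξ η j x = ifw ξ' η' j x := by
  refine ⟨{ξ | -(M : ℤ) ≤ -1 * mv 0 (-1) j ξ R} ∪ {ξ | -(M : ℤ) ≤ 1 * mv 1 1 j ξ (-(R : ℤ) - 1)},
    (measurableSet_mv _ _ _ _ _).union (measurableSet_mv _ _ _ _ _), ?_, ?_⟩
  · refine (measureReal_union_le _ _).trans ?_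
    have h1 := mv_bound δ 0 (e := -1) (by norm_num) j R (-(M : ℤ))
    have h2 := mv_bound δ 1 (e := 1) (by norm_num) j (-(R : ℤ) - 1) (-(M : ℤ))
    have e1 : (-1 : ℤ) * R - -(M : ℤ) = M - R := by ring
    have e2 : (2 : ℝ) ^ ((1 : ℤ) * (-(R : ℤ) - 1) - -(M : ℤ)) ≤ 2 ^ ((M : ℤ) - R) := by
      refine zpow_le_zpow_right₀ (by norm_num) ?_
      linarith
    rw [e1] at h1
    have h3 : (2 : ℝ) ^ ((1 : ℤ) * (-(R : ℤ) - 1) - -(M : ℤ)) * (1 + (δ : ℝ)) ^ j ≤
        2 ^ ((M : ℤ) - R) * (1 + (δ : ℝ)) ^ j := mul_le_mul_of_nonneg_right e2 (by positivity)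
    linarith
  · intro ξ hξ ξ' hξ' η η' hη x h1 h2
    rw [Set.mem_union, not_or] at hξ
    obtain ⟨a1, a2⟩ := hξ
    simp only [Set.mem_ofPred_eq, not_le] at a1 a2
    refine agree j (R := R) ξ ξ' η η' (-(R : ℤ) - 1) R le_rfl le_rfl hξ' ?_ x ?_ ?_
    · intro y h3 h4
      exact hη y (by omega) h4
    · omega
    · omega

end Pool.MP4bb68cEx
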