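import Mathlib
import Pool.Agent.Work.MP_4bb68c_ex.Defs
import Pool.Agent.Work.MP_4bb68c_ex.Defs2
import Pool.Agent.Work.MP_4bb68c_ex.SysB
import Pool.Agent.Work.MP_4bb68c_ex.SlotF
import Pool.Agent.Work.MP_4bb68c_ex.Slot1
import Pool.Agent.Work.MP_4bb68c_cl.Meas
import Pool.Agent.Work.MP_4bb68c_pr.Chain

/-!
# The balance equation implies near invariance for synchronous slots (module SlotB, size M-L)

For `R : ℕ` let `tr ξ = fun k => tb R (ξ k)` (module Slot1), `q j η = (arrLaw 1 δ).real {ξ | ifw (tr ξ) η j ∈ B}`.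
 * `q 0 η = [η ∈ B]`. `q (j+1) η = ∫ q j (istep (tb R b) η) d(siteLaw 1 δ)(b)` (peel off the first slot:
   `map_consArr`, `ifw_cons`).
 * If `M ≤ R + 1`, `q j` is `Loc (R + 1)`: every step `istep (tb R b)` maps configurations which agree on
   `[-(R+1), R+1]` to such configurations (outside of `[-(R+1), R]` nothing changes; inside only
   coordinates in `[-(R+1), R+1]` are used). `0 ≤ q j ≤ 1`.
 * `slot1` with `G = q j`, integrated over `η` with `π`, `p = 1 - exp (-δ)`: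
   `|∫ q (j+1) dπ - ∫ q j dπ - p ∑ s ∈ Icc (-R) R, (∫ q j ∘ SI.T s dπ - ∫ q j dπ)| ≤ 3 (2R+1)^2 p^2`.
 * Balance equation for `q j` and the window `R + 1` (`Stn.big`): the sum over `Icc (-R) R` is minus the sum
   of the three terms `s = -R-1, R+1, R+2`. For these `s`, `η` and `SI.T s η` agree on `[-R, R-1]`, so by
   `slot_front` (`ξ' = tr ξ` for both; more precisely compare `ifw (tr ξ) η j` and
   `ifw (tr ξ) (SI.T s η) j` through `ifw ξ η j`, or apply the conclusion twice with the same bad set):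
   `|q j (SI.T s η) - q j η| ≤ (arrLaw 1 δ).real Bd ≤ 2 * 2^(M-R) (1+δ)^j`.
 * So `|∫ q (j+1) dπ - ∫ q j dπ| ≤ 6 p 2^(M-R) (1+δ)^j + 3 (2R+1)^2 p^2`, and with `p ≤ δ`, `j δ ≤ t`:
   `|∫ q j dπ - π.real B| ≤ 6 t 2^(M-R) exp t + 3 (2R+1)^2 t δ`.
 * By `slot_front` (`ξ' = tr ξ`, `η' = η`):
   `|(arrLaw 1 δ).real {ξ | ifw ξ η j ∈ B} - q j η| ≤ 2 * 2^(M-R) exp t`.
 * `((π.prod (arrLaw 1 δ)).map (fun q => ifw q.2 q.1 j)).real B = ∫ (arrLaw 1 δ).real {ξ | ifw ξ η j ∈ B} dπ`.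
Given `t, ε`: choose `R` with `(6 t + 2) 2^(M-R) exp t ≤ ε/2`, then `δ₀ > 0` with
`3 (2R+1)^2 t δ₀ ≤ ε/2`.
-/

set_option autoImplicit false

open MeasureTheory ProbabilityTheory Filter Topology
open scoped NNReal ENNReal

namespace Pool.MP4bb68cEx

open Pool.MP4bb68c Pool.MP4bb68cOne Pool.MP4bb68cCl

private def trr (R : ℕ) (ξ : ℕ → Site 1 → Bool) : ℕ → Site 1 → Bool := fun k => tb R (ξ k)

private theorem trr_meas (R : ℕ) : Measurable (trr R) := by
  unfold trr tb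
  rw [measurable_pi_iff]
  intro k
  rw [measurable_pi_iff]
  intro z
  have h1 : Measurable (fun b : Bool => decide (|z 0| ≤ (R : ℤ)) && b) := measurable_of_countable _
  exact h1.comp ((measurable_pi_apply z).comp (measurable_pi_apply k))

private theorem ifw_meas (j : ℕ) (η : ℤ → ℤ) :
    Measurable (fun ξ : ℕ → Site 1 → Bool => ifw ξ η j) :=
  (measurable_ifw j).comp (measurable_const.prodMk measurable_id)

/-- the probability of `B` after `j` restricted slots -/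
private noncomputable def qq (R : ℕ) (δ : ℝ≥0) (B : Set (ℤ → ℤ)) (j : ℕ) (η : ℤ → ℤ) : ℝ :=
  (arrLaw 1 δ).real {ξ | ifw (trr R ξ) η j ∈ B}

private theorem qq_set_meas (R : ℕ) {B : Set (ℤ → ℤ)} (hB : MeasurableSet B) (j : ℕ)
    (η : ℤ → ℤ) : MeasurableSet {ξ : ℕ → Site 1 → Bool | ifw (trr R ξ) η j ∈ B} :=
  ((ifw_meas j η).comp (trr_meas R)) hB

private theorem qq_nonneg (R : ℕ) (δ : ℝ≥0) (B : Set (ℤ → ℤ)) (j : ℕ) (η : ℤ → ℤ) :
    0 ≤ qq R δ B j η := measureReal_nonneg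

private theorem qq_le_one (R : ℕ) (δ : ℝ≥0) (B : Set (ℤ → ℤ)) (j : ℕ) (η : ℤ → ℤ) :
    qq R δ B j η ≤ 1 := measureReal_le_one

private theorem real_prod {α β : Type*} [MeasurableSpace α] [MeasurableSpace β] (μ : Measure α)
    (ν : Measure β) [IsProbabilityMeasure μ] [IsProbabilityMeasure ν] {S : Set (α × β)}
    (hS : MeasurableSet S) : (μ.prod ν).real S = ∫ x, ν.real (Prod.mk x ⁻¹' S) ∂μ := by
  rw [measureReal_def, Measure.prod_apply hS]
  unfold Measure.real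
  rw [integral_toReal (measurable_measure_prodMk_left hS).aemeasurable
    (Filter.Eventually.of_forall fun x => measure_lt_top _ _)]

private theorem qq_succ (R : ℕ) (δ : ℝ≥0) {B : Set (ℤ → ℤ)} (hB : MeasurableSet B) (j : ℕ)
    (η : ℤ → ℤ) :
    qq R δ B (j + 1) η = ∫ b, qq R δ B j (istep (tb R b) η) ∂(siteLaw 1 δ) := by
  have h1 : qq R δ B (j + 1) η = ((siteLaw 1 δ).prod (arrLaw 1 δ)).real
      (consArr ⁻¹' {ξ | ifw (trr R ξ) η (j + 1) ∈ B}) := by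
    unfold qq
    rw [← map_measureReal_apply measurable_consArr (qq_set_meas R hB (j + 1) η), map_consArr]
  rw [h1, real_prod _ _ (measurable_consArr (qq_set_meas R hB (j + 1) η))]
  refine integral_congr_ae (Filter.Eventually.of_forall fun b => ?_)
  show (arrLaw 1 δ).real _ = (arrLaw 1 δ).real _
  congr 1
  ext ζ
  simp only [Set.mem_preimage, Set.mem_ofPred_eq]
  have e : trr R (consArr (b, ζ)) = consArr (tb R b, trr R ζ) := by
    funext k
    cases k with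
    | zero => rfl
    | succ k => rfl
  rw [e, ifw_cons]

private theorem step_agree (R : ℕ) (b : Site 1 → Bool) {η η' : ℤ → ℤ}
    (h : ∀ y : ℤ, -((R + 1 : ℕ) : ℤ) ≤ y → y ≤ ((R + 1 : ℕ) : ℤ) → η y = η' y) (y : ℤ)
    (h1 : -((R + 1 : ℕ) : ℤ) ≤ y) (h2 : y ≤ ((R + 1 : ℕ) : ℤ)) :
    istep (tb R b) η y = istep (tb R b) η' y := by
  have hz : ∀ x : ℤ, zb (tb R b) x = true → |x| ≤ (R : ℤ) := by
    intro x hx
    unfold zb tb at hx
    rw [Bool.and_eq_true, decide_eq_true_eq] at hx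
    exact hx.1
  push_cast at h1 h2
  have h' : ∀ y : ℤ, -((R : ℤ) + 1) ≤ y → y ≤ (R : ℤ) + 1 → η y = η' y := by
    intro y a1 a2
    exact h y (by push_cast; exact a1) (by push_cast; exact a2)
  unfold istep ng
  have e0 := h' y h1 h2
  congr 1
  · split_ifs with hb
    · have h3 := abs_le.mp (hz _ hb)
      rw [e0, h' (y + 1) (by omega) (by omega)]
    · exact e0
  · split_ifs with hb
    · have h3 := abs_le.mp (hz _ hb)
      rw [e0, h' (y - 1) (by omega) (by omega)]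
    · rfl

private theorem ifw_agree (R : ℕ) (ξ : ℕ → Site 1 → Bool) {η η' : ℤ → ℤ}
    (h : ∀ y : ℤ, -((R + 1 : ℕ) : ℤ) ≤ y → y ≤ ((R + 1 : ℕ) : ℤ) → η y = η' y) (j : ℕ) :
    ∀ y : ℤ, -((R + 1 : ℕ) : ℤ) ≤ y → y ≤ ((R + 1 : ℕ) : ℤ) →
      ifw (trr R ξ) η j y = ifw (trr R ξ) η' j y := by
  induction j with
  | zero => exact h
  | succ j ih => exact step_agree R (ξ j) ih

private theorem qq_loc (R : ℕ) (δ : ℝ≥0) {M : ℕ} {B : Set (ℤ → ℤ)} (hB : LocS M B)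
    (hM : M ≤ R + 1) (j : ℕ) : Loc (R + 1) (qq R δ B j) := by
  intro η η' h
  unfold qq
  congr 1
  ext ξ
  simp only [Set.mem_ofPred_eq]
  refine hB _ _ fun y h1 h2 => ifw_agree R ξ h j y ?_ ?_
  · push_cast
    omega
  · push_cast
    omega

private theorem real_diff {Ω : Type*} [MeasurableSpace Ω] (μ : Measure Ω) [IsProbabilityMeasure μ]
    {S S' D : Set Ω} (h : ∀ ξ ∉ D, (ξ ∈ S ↔ ξ ∈ S')) : |μ.real S - μ.real S'| ≤ μ.real D := by
  rw [abs_le]
  constructor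
  · have h1 : S' ⊆ S ∪ D := by
      intro ξ hξ
      by_cases hD : ξ ∈ D
      · exact Or.inr hD
      · exact Or.inl ((h ξ hD).mpr hξ)
    have h2 : μ.real S' ≤ μ.real S + μ.real D :=
      (measureReal_mono h1).trans (measureReal_union_le _ _)
    linarith
  · have h1 : S ⊆ S' ∪ D := by
      intro ξ hξ
      by_cases hD : ξ ∈ D
      · exact Or.inr hD
      · exact Or.inl ((h ξ hD).mp hξ)
    have h2 : μ.real S ≤ μ.real S' + μ.real D :=
      (measureReal_mono h1).trans (measureReal_union_le _ _)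
    linarith

private theorem trr_same (R : ℕ) (ξ : ℕ → Site 1 → Bool) (k : ℕ) (x : ℤ) (h1 : -(R : ℤ) ≤ x)
    (h2 : x ≤ R) : ξ k (pt x) = trr R ξ k (pt x) := by
  unfold trr tb
  have h3 : |(pt x) 0| ≤ (R : ℤ) := by
    rw [pt_apply]
    exact abs_le.mpr ⟨h1, h2⟩
  rw [decide_eq_true h3, Bool.true_and]

/-- the error of the influence -/
private noncomputable def ee (R M : ℕ) (δ : ℝ≥0) (j : ℕ) : ℝ :=
  2 * (2 : ℝ) ^ ((M : ℤ) - R) * (1 + (δ : ℝ)) ^ j

private theorem qq_T (R : ℕ) (δ : ℝ≥0) {M : ℕ} {B : Set (ℤ → ℤ)} (hB : LocS M B) (j : ℕ)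
    (η η' : ℤ → ℤ) (hη : ∀ x : ℤ, -(R : ℤ) ≤ x → x < R → η x = η' x) :
    |qq R δ B j η' - qq R δ B j η| ≤ ee R M δ j := by
  obtain ⟨Bd, hBd, hle, hag⟩ := slot_front δ R M j
  refine (real_diff (arrLaw 1 δ) (D := Bd) fun ξ hξ => ?_).trans hle
  simp only [Set.mem_ofPred_eq]
  refine hB _ _ fun y h1 h2 => ?_
  rw [← hag ξ hξ (trr R ξ) (fun k x a1 a2 => trr_same R ξ k x a1 a2) η η' hη y h1 h2,
    ← hag ξ hξ (trr R ξ) (fun k x a1 a2 => trr_same R ξ k x a1 a2) η η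
      (fun _ _ _ => rfl) y h1 h2]

private theorem qq_free (R : ℕ) (δ : ℝ≥0) {M : ℕ} {B : Set (ℤ → ℤ)} (hB : LocS M B) (j : ℕ)
    (η : ℤ → ℤ) :
    |(arrLaw 1 δ).real {ξ | ifw ξ η j ∈ B} - qq R δ B j η| ≤ ee R M δ j := by
  obtain ⟨Bd, hBd, hle, hag⟩ := slot_front δ R M j
  refine (real_diff (arrLaw 1 δ) (D := Bd) fun ξ hξ => ?_).trans hle
  simp only [Set.mem_ofPred_eq]
  refine hB _ _ fun y h1 h2 => ?_
  rw [← hag ξ hξ (trr R ξ) (fun k x a1 a2 => trr_same R ξ k x a1 a2) η η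
      (fun _ _ _ => rfl) y h1 h2]

private theorem int_bd {π : Measure (ℤ → ℤ)} [IsProbabilityMeasure π] {f : (ℤ → ℤ) → ℝ}
    (hf : Measurable f) (hb : ∀ x, |f x| ≤ 1) : Integrable f π :=
  Integrable.of_bound hf.aestronglyMeasurable 1
    (Filter.Eventually.of_forall fun x => by rw [Real.norm_eq_abs]; exact hb x)

private theorem int_abs_le {π : Measure (ℤ → ℤ)} [IsProbabilityMeasure π] {f : (ℤ → ℤ) → ℝ}
    {C : ℝ} (hb : ∀ x, |f x| ≤ C) : |∫ x, f x ∂π| ≤ C := by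
  have h := norm_integral_le_of_norm_le_const (μ := π) (f := f) (C := C)
    (Filter.Eventually.of_forall fun x => by rw [Real.norm_eq_abs]; exact hb x)
  rw [Real.norm_eq_abs, probReal_univ, mul_one] at h
  exact h

private theorem qq_step {π : Measure (ℤ → ℤ)} [IsProbabilityMeasure π] (h : Stn SI π) {M : ℕ}
    {B : Set (ℤ → ℤ)} (hB : LocS M B) (R : ℕ) (hM : M ≤ R + 1) (δ : ℝ≥0) (j : ℕ) :
    |∫ η, qq R δ B (j + 1) η ∂π - ∫ η, qq R δ B j η ∂π| ≤
      3 * (δ : ℝ) * ee R M δ j + 3 * (2 * (R : ℝ) + 1) ^ 2 * (δ : ℝ) ^ 2 := by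
  have hBm : MeasurableSet B := hB.measurableSet
  obtain ⟨p, hp⟩ : ∃ p : ℝ, p = 1 - Real.exp (-(δ : ℝ)) := ⟨_, rfl⟩
  have hp0 : 0 ≤ p := by
    rw [hp]
    have : Real.exp (-(δ : ℝ)) ≤ 1 := Real.exp_le_one_iff.mpr (by simp)
    linarith
  have hp1 : p ≤ δ := by
    rw [hp]
    have := Real.add_one_le_exp (-(δ : ℝ))
    linarith
  have hqm : ∀ i, Measurable (qq R δ B i) := fun i => (qq_loc R δ hB hM i).measurable
  have hqb : ∀ i η, |qq R δ B i η| ≤ 1 := fun i η => by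
    rw [abs_of_nonneg (qq_nonneg R δ B i η)]
    exact qq_le_one R δ B i η
  have hqi : ∀ i, Integrable (qq R δ B i) π := fun i => int_bd (hqm i) (hqb i)
  have hqTi : ∀ s, Integrable (fun η => qq R δ B j (SI.T s η)) π := fun s =>
    int_bd ((hqm j).comp (SI.measurable_T s)) fun η => hqb j _
  -- the one slot estimate, integrated
  have h1 : |∫ η, (qq R δ B (j + 1) η - (qq R δ B j η + p *
      ∑ s ∈ Finset.Icc (-(R : ℤ)) R, (qq R δ B j (SI.T s η) - qq R δ B j η))) ∂π| ≤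
      3 * (2 * (R : ℝ) + 1) ^ 2 * p ^ 2 := by
    refine int_abs_le fun η => ?_
    rw [qq_succ R δ hBm, hp]
    exact slot1 R δ (hqm j) (hqb j) η
  have hdi : ∀ s, Integrable (fun η => qq R δ B j (SI.T s η) - qq R δ B j η) π := fun s =>
    (hqTi s).sub (hqi j)
  have hsum_i : Integrable (fun η => ∑ s ∈ Finset.Icc (-(R : ℤ)) R,
      (qq R δ B j (SI.T s η) - qq R δ B j η)) π :=
    integrable_finsetSum _ fun s _ => hdi s
  have h2 : ∫ η, (qq R δ B (j + 1) η - (qq R δ B j η + p *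
      ∑ s ∈ Finset.Icc (-(R : ℤ)) R, (qq R δ B j (SI.T s η) - qq R δ B j η))) ∂π =
      ∫ η, qq R δ B (j + 1) η ∂π - (∫ η, qq R δ B j η ∂π + p *
        ∑ s ∈ Finset.Icc (-(R : ℤ)) R,
          (∫ η, qq R δ B j (SI.T s η) ∂π - ∫ η, qq R δ B j η ∂π)) := by
    have haQ : Integrable (fun η => qq R δ B j η + p *
        ∑ s ∈ Finset.Icc (-(R : ℤ)) R, (qq R δ B j (SI.T s η) - qq R δ B j η)) π :=
      (hqi j).add (hsum_i.const_mul p)
    rw [integral_sub (hqi _) haQ,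
      integral_add (hqi j) (hsum_i.const_mul p), integral_const_mul,
      integral_finsetSum _ (fun s _ => hdi s)]
    congr 3
    refine Finset.sum_congr rfl fun s _ => ?_
    rw [integral_sub (hqTi s) (hqi j)]
  rw [h2] at h1
  -- the balance equation
  have h3 := h.big (qq_loc R δ hB hM j) (hqb j) (le_refl (R + 1))
  have h4 : Finset.Icc (-((R + 1 : ℕ) : ℤ)) (((R + 1 : ℕ) : ℤ) + 1) =
      insert (-(R : ℤ) - 1) (insert ((R : ℤ) + 1) (insert ((R : ℤ) + 2)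
        (Finset.Icc (-(R : ℤ)) R))) := by
    ext x
    simp only [Finset.mem_insert, Finset.mem_Icc]
    push_cast
    omega
  rw [h4, Finset.sum_insert (by simp only [Finset.mem_insert, Finset.mem_Icc]; omega),
    Finset.sum_insert (by simp only [Finset.mem_insert, Finset.mem_Icc]; omega),
    Finset.sum_insert (by simp only [Finset.mem_Icc]; omega)] at h3
  have h5 : ∀ s : ℤ, (s < -(R : ℤ) ∨ (R : ℤ) < s) →
      |∫ η, qq R δ B j (SI.T s η) ∂π - ∫ η, qq R δ B j η ∂π| ≤ ee R M δ j := by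
    intro s hs
    rw [← integral_sub (hqTi s) (hqi j)]
    refine int_abs_le fun η => ?_
    refine qq_T R δ hB j η (SI.T s η) fun x hx1 hx2 => ?_
    rw [SI.out s η x (by omega) (by omega)]
  have a1 := h5 (-(R : ℤ) - 1) (by omega)
  have a2 := h5 ((R : ℤ) + 1) (by omega)
  have a3 := h5 ((R : ℤ) + 2) (by omega)
  obtain ⟨T0, hT0⟩ : ∃ T0 : ℝ, T0 = ∑ s ∈ Finset.Icc (-(R : ℤ)) R,
    (∫ η, qq R δ B j (SI.T s η) ∂π - ∫ η, qq R δ B j η ∂π) := ⟨_, rfl⟩
  rw [← hT0] at h1 h3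
  have h6 : |T0| ≤ 3 * ee R M δ j := by
    rw [abs_le] at a1 a2 a3 ⊢
    constructor <;> linarith [a1.1, a1.2, a2.1, a2.2, a3.1, a3.2]
  have he0 : 0 ≤ ee R M δ j := by
    unfold ee
    positivity
  have h7 : |p * T0| ≤ (δ : ℝ) * (3 * ee R M δ j) := by
    rw [abs_mul, abs_of_nonneg hp0]
    exact mul_le_mul hp1 h6 (abs_nonneg _) δ.2
  have h8 : p ^ 2 ≤ (δ : ℝ) ^ 2 := pow_le_pow_left₀ hp0 hp1 2
  have h9 : 3 * (2 * (R : ℝ) + 1) ^ 2 * p ^ 2 ≤ 3 * (2 * (R : ℝ) + 1) ^ 2 * (δ : ℝ) ^ 2 :=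
    mul_le_mul_of_nonneg_left h8 (by positivity)
  rw [abs_le] at h1 h7 ⊢
  constructor <;> linarith [h1.1, h1.2, h7.1, h7.2]

theorem slotB {π : Measure (ℤ → ℤ)} [IsProbabilityMeasure π] (h : Stn SI π) {M : ℕ}
    {B : Set (ℤ → ℤ)} (hB : LocS M B) (t : ℝ) {ε : ℝ} (hε : 0 < ε) :
    ∃ δ₀ : ℝ, 0 < δ₀ ∧ ∀ (δ : ℝ≥0) (j : ℕ), (δ : ℝ) ≤ δ₀ → (j : ℝ) * δ ≤ t →
      |((π.prod (arrLaw 1 δ)).map (fun q => ifw q.2 q.1 j)).real B - π.real B| ≤ ε := by
  have hBm : MeasurableSet B := hB.measurableSet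
  obtain ⟨u, hu⟩ : ∃ u : ℝ, u = max t 0 := ⟨_, rfl⟩
  have hu0 : 0 ≤ u := by rw [hu]; exact le_max_right _ _
  have htu : t ≤ u := by rw [hu]; exact le_max_left _ _
  obtain ⟨C, hC⟩ : ∃ C : ℝ, C = (6 * u + 2) * Real.exp u := ⟨_, rfl⟩
  have hC0 : 0 < C := by rw [hC]; positivity
  obtain ⟨k, hk⟩ := exists_pow_lt_of_lt_one (show 0 < ε / (2 * C) by positivity)
    (show (1 / 2 : ℝ) < 1 by norm_num)
  obtain ⟨R, hR⟩ : ∃ R : ℕ, R = M + k := ⟨_, rfl⟩
  have h2R : (2 : ℝ) ^ ((M : ℤ) - R) = (1 / 2) ^ k := by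
    rw [hR]
    push_cast
    rw [show (M : ℤ) - (M + k) = -(k : ℤ) by ring, zpow_neg, zpow_natCast, one_div, inv_pow]
  have hMR : M ≤ R + 1 := by omega
  obtain ⟨D, hD⟩ : ∃ D : ℝ, D = 3 * (2 * (R : ℝ) + 1) ^ 2 * u + 1 := ⟨_, rfl⟩
  have hD0 : 0 < D := by rw [hD]; positivity
  refine ⟨ε / (2 * D), by positivity, fun δ j hδ hj => ?_⟩
  have hju : (j : ℝ) * δ ≤ u := hj.trans htu
  have hδ0 : (0 : ℝ) ≤ δ := δ.2
  have hexp : ∀ i ≤ j, (1 + (δ : ℝ)) ^ i ≤ Real.exp u := by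
    intro i hi
    have h1 : (1 + (δ : ℝ)) ≤ Real.exp δ := by
      have := Real.add_one_le_exp (δ : ℝ)
      linarith
    have h2 : (1 + (δ : ℝ)) ^ i ≤ (Real.exp δ) ^ i := pow_le_pow_left₀ (by positivity) h1 i
    rw [← Real.exp_nat_mul] at h2
    refine h2.trans (Real.exp_le_exp.mpr ?_)
    refine le_trans ?_ hju
    exact mul_le_mul_of_nonneg_right (by exact_mod_cast hi) hδ0
  have hee : ∀ i ≤ j, ee R M δ i ≤ 2 * (1 / 2) ^ k * Real.exp u := by
    intro i hi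
    unfold ee
    rw [h2R]
    exact mul_le_mul_of_nonneg_left (hexp i hi) (by positivity)
  -- the sum of the steps
  have hsum : ∀ i ≤ j, |∫ η, qq R δ B i η ∂π - π.real B| ≤
      (i : ℝ) * (3 * (δ : ℝ) * (2 * (1 / 2) ^ k * Real.exp u) +
        3 * (2 * (R : ℝ) + 1) ^ 2 * (δ : ℝ) ^ 2) := by
    intro i
    induction i with
    | zero =>
      intro _
      have h1 : ∀ η, qq R δ B 0 η = B.indicator (fun _ => (1 : ℝ)) η := by
        intro η
        unfold qq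
        by_cases hη : η ∈ B
        · have : {ξ : ℕ → Site 1 → Bool | ifw (trr R ξ) η 0 ∈ B} = Set.univ := by
            ext ξ
            simp only [Set.mem_ofPred_eq, Set.mem_univ, iff_true]
            exact hη
          rw [this, probReal_univ, Set.indicator_of_mem hη]
        · have : {ξ : ℕ → Site 1 → Bool | ifw (trr R ξ) η 0 ∈ B} = ∅ := by
            ext ξ
            simp only [Set.mem_ofPred_eq, Set.mem_empty_iff_false, iff_false]
            exact hη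
          rw [this, measureReal_empty, Set.indicator_of_notMem hη]
      simp only [h1]
      rw [integral_indicator_const _ hBm, smul_eq_mul, mul_one, sub_self, abs_zero]
      push_cast
      rw [zero_mul]
    | succ i ih =>
      intro hi
      have h1 := ih (by omega)
      have h2 := qq_step h hB R hMR δ i
      have h3 := hee i (by omega)
      have h4 : 3 * (δ : ℝ) * ee R M δ i ≤ 3 * (δ : ℝ) * (2 * (1 / 2) ^ k * Real.exp u) :=
        mul_le_mul_of_nonneg_left h3 (by positivity)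
      have h5 := abs_sub_le (∫ η, qq R δ B (i + 1) η ∂π) (∫ η, qq R δ B i η ∂π) (π.real B)
      push_cast
      linarith
  have hj1 := hsum j le_rfl
  -- the free slots
  have hfree : ((π.prod (arrLaw 1 δ)).map (fun q => ifw q.2 q.1 j)).real B =
      ∫ η, (arrLaw 1 δ).real {ξ | ifw ξ η j ∈ B} ∂π := by
    rw [map_measureReal_apply (measurable_ifw j) hBm, real_prod _ _ (measurable_ifw j hBm)]
    rfl
  have hfm : Measurable (fun η : ℤ → ℤ => (arrLaw 1 δ).real {ξ | ifw ξ η j ∈ B}) := by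
    have h1 := measurable_measure_prodMk_left (ν := arrLaw 1 δ) (measurable_ifw j hBm)
    exact h1.ennreal_toReal
  have hfi : Integrable (fun η : ℤ → ℤ => (arrLaw 1 δ).real {ξ | ifw ξ η j ∈ B}) π :=
    int_bd hfm fun η => by
      rw [abs_of_nonneg measureReal_nonneg]
      exact measureReal_le_one
  have hqi : Integrable (qq R δ B j) π :=
    int_bd (qq_loc R δ hB hMR j).measurable fun η => by
      rw [abs_of_nonneg (qq_nonneg R δ B j η)]
      exact qq_le_one R δ B j η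
  have h10 : |∫ η, (arrLaw 1 δ).real {ξ | ifw ξ η j ∈ B} ∂π - ∫ η, qq R δ B j η ∂π| ≤
      2 * (1 / 2) ^ k * Real.exp u := by
    rw [← integral_sub hfi hqi]
    exact int_abs_le fun η => (qq_free R δ hB j η).trans (hee j le_rfl)
  rw [hfree]
  have h11 := abs_sub_le (∫ η, (arrLaw 1 δ).real {ξ | ifw ξ η j ∈ B} ∂π)
    (∫ η, qq R δ B j η ∂π) (π.real B)
  -- numbers
  have hk0 : (0 : ℝ) < (1 / 2) ^ k := by positivity
  have h12 : C * (1 / 2) ^ k ≤ ε / 2 := by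
    have h13 : C * (1 / 2) ^ k ≤ C * (ε / (2 * C)) := mul_le_mul_of_nonneg_left hk.le hC0.le
    have h14 : C * (ε / (2 * C)) = ε / 2 := by field_simp
    linarith
  have h15 : (j : ℝ) * (3 * (δ : ℝ) * (2 * (1 / 2) ^ k * Real.exp u) +
      3 * (2 * (R : ℝ) + 1) ^ 2 * (δ : ℝ) ^ 2) =
      ((j : ℝ) * δ) * (6 * (1 / 2) ^ k * Real.exp u + 3 * (2 * (R : ℝ) + 1) ^ 2 * δ) := by ring
  have h16 : ((j : ℝ) * δ) * (6 * (1 / 2) ^ k * Real.exp u + 3 * (2 * (R : ℝ) + 1) ^ 2 * δ) ≤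
      u * (6 * (1 / 2) ^ k * Real.exp u + 3 * (2 * (R : ℝ) + 1) ^ 2 * δ) :=
    mul_le_mul_of_nonneg_right hju (by positivity)
  have h17 : (3 * (2 * (R : ℝ) + 1) ^ 2 * u) * δ ≤ ε / 2 := by
    have h18 : (3 * (2 * (R : ℝ) + 1) ^ 2 * u) * δ ≤ D * δ := by
      refine mul_le_mul_of_nonneg_right ?_ hδ0
      rw [hD]
      linarith
    have h19 : D * δ ≤ D * (ε / (2 * D)) := mul_le_mul_of_nonneg_left hδ hD0.le
    have h20 : D * (ε / (2 * D)) = ε / 2 := by field_simp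
    linarith
  have h21 : C * (1 / 2) ^ k = u * (6 * (1 / 2) ^ k * Real.exp u) +
      2 * (1 / 2) ^ k * Real.exp u := by
    rw [hC]
    ring
  have h22 : u * (6 * (1 / 2) ^ k * Real.exp u + 3 * (2 * (R : ℝ) + 1) ^ 2 * δ) =
      u * (6 * (1 / 2) ^ k * Real.exp u) + (3 * (2 * (R : ℝ) + 1) ^ 2 * u) * δ := by ring
  linarith

end Pool.MP4bb68cEx
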