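import Mathlib
import Pool.Agent.Work.MP_4bb68c_ex.Defs
import Pool.Agent.Work.MP_4bb68c_ex.Defs2
import Pool.Agent.Work.MP_4bb68c_ex.SysB
import Pool.Agent.Work.MP_4bb68c_ex.SlotB
import Pool.Agent.Work.MP_4bb68c_ex.Link
import Pool.Agent.Work.MP_4bb68c_ex.GenA2
import Pool.Agent.Work.MP_4bb68c_cl.KerA
import Pool.Agent.Work.MP_4bb68c_cl.KerC
import Pool.Agent.Work.MP_4bb68c_cl.Marg
import Pool.Agent.Work.MP_4bb68c_cl.Init

/-!
# The balance equation implies stationarity (module GenB, size M-L)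

`incr_ht`: `incr (ht η) = η` (`gr_pr'`). `ht_incr`: `ht (incr g) = seen g` (`pr_incr`). `measurable_ht`:
coordinatewise (`measurable_pr`). `map_incr_htL`: `(htL ν).map incr = ν`.

`genB`: let `μ = htL π`, `μ.map incr = π`. By `kerC_stat` it is enough that
`(μ.bind (Ka 1 q)).map seen = μ` for rational `q > 0`; by `ext_cyl` it is enough to compare the
measures of a cylinder `A = cyl S c`. Both measures are carried by `{g | g 0 = 0}`; let
`B = {η | ht η ∈ A} = ht ⁻¹' A`, which is `LocS M B` for `M` large (`pr η x` for `x ∈ S` uses finitely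
many increments). Then `μ.real A = π.real B`, and `seen ⁻¹' A = incr ⁻¹' B` (`ht (incr g) = seen g`), so
`((μ.bind (Ka 1 q)).map seen).real A = ∫ f, (Ka 1 q f).real (incr ⁻¹' B) dμ` (`kerB_real`). Let `ε > 0`. The
event `incr ⁻¹' B` depends on finitely many sites (`DepB`). By `Ka_appr` (uniform in `f`) for `n` large
the integral differs by at most `ε` from `∫ f, (La 1 q n f).real (incr ⁻¹' B) dμ =
((μ.bind (lawK 1 (List.replicate j (dl 1 n)))).map incr).real B`, where `j = ⌊q / dl 1 n⌋₊`, so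
`j * dl 1 n ≤ q`. This is `((π.prod (arrLaw 1 (dl 1 n))).map (fun q => ifw q.2 q.1 j)).real B`: see `fwd_incr`
in MP_4bb68c_cl/Marg.lean (private there; copy it, or use `PI_fst` for the law of the pair
`μ'.map (fun η => (η, η))`, `μ' = μ.map incr`, whose first marginal is `μ.map incr`). By `slotB` it differs
from `π.real B` by at most `ε` for `n` large (`dl 1 n → 0`). Let `ε → 0`.

`stat_iff`: `IsStationary μ` implies `(μ.bind (Ka 1 1)).map seen = μ` (`kerB`), so `μ`-almost surely
`g 0 = 0` (`seen g 0 = 0`), so `seen g = g` almost surely and `μ = htL (μ.map incr)`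
(`ht (incr g) = seen g`); and `genA`. Conversely `genB` for `μ.map incr`.
-/

set_option autoImplicit false

open MeasureTheory ProbabilityTheory Filter Topology
open scoped NNReal ENNReal

namespace Pool.MP4bb68cEx

open Pool.MP4bb68c Pool.MP4bb68cOne Pool.MP4bb68cCl

theorem measurable_ht : Measurable ht := by
  rw [measurable_pi_iff]
  intro x
  exact measurable_pr (x 0)

theorem incr_ht (η : ℤ → ℤ) : incr (ht η) = η := gr_pr' η

theorem ht_incr (g : Height 1) : ht (incr g) = seen g := by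
  funext z
  show pr (incr g) (z 0) = g z - g 0
  rw [pr_incr, zero_eq_pt]
  conv_rhs => rw [eq_pt z]

theorem map_incr_htL (ν : Measure (ℤ → ℤ)) : (htL ν).map incr = ν := by
  unfold htL
  rw [Measure.map_map measurable_incr measurable_ht]
  have e : incr ∘ ht = id := funext incr_ht
  rw [e, Measure.map_id]

private theorem pr_congr (M : ℕ) {η η' : Inc} (h : ∀ x : ℤ, -M ≤ x → x < M → η x = η' x) (x : ℤ) :
    -M ≤ x → x ≤ M → pr η x = pr η' x := by
  induction x using Int.induction_on with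
  | zero => intro _ _; rw [pr_zero, pr_zero]
  | succ i ih =>
    intro h1 h2
    rw [pr_succ, pr_succ, ih (by omega) (by omega), h i (by omega) (by omega)]
  | pred i ih =>
    intro h1 h2
    have e : -(i : ℤ) - 1 + 1 = -(i : ℤ) := by ring
    have h3 := pr_succ η (-(i : ℤ) - 1)
    have h4 := pr_succ η' (-(i : ℤ) - 1)
    rw [e] at h3 h4
    have h5 := ih (by omega) (by omega)
    have h6 := h (-(i : ℤ) - 1) h1 (by omega)
    linarith

private theorem seen_pre (A : Set (Height 1)) : seen ⁻¹' A = incr ⁻¹' (ht ⁻¹' A) := by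
  ext g
  simp only [Set.mem_preimage]
  rw [ht_incr]

private theorem locS_cyl (S : Finset (Site 1)) (c : Site 1 → ℤ) :
    ∃ M : ℕ, LocS M (ht ⁻¹' cyl S c) := by
  refine ⟨∑ x ∈ S, (x 0).natAbs, fun η η' h => ?_⟩
  have h1 : ∀ x ∈ S, pr η (x 0) = pr η' (x 0) := by
    intro x hx
    have h2 : (x 0).natAbs ≤ ∑ x ∈ S, (x 0).natAbs :=
      Finset.single_le_sum (f := fun x : Site 1 => (x 0).natAbs) (fun _ _ => Nat.zero_le _) hx
    exact pr_congr (∑ x ∈ S, (x 0).natAbs) (fun y hy1 hy2 => h y hy1 hy2.le) (x 0) (by omega) (by omega)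
  constructor
  · intro hη x hx
    have := hη x hx
    show pr η' (x 0) = c x
    rw [← h1 x hx]
    exact this
  · intro hη x hx
    have := hη x hx
    show pr η (x 0) = c x
    rw [h1 x hx]
    exact this

private theorem depB_incr {M : ℕ} {B : Set (ℤ → ℤ)} (hB : LocS M B) :
    DepB ((Finset.Icc (-(M : ℤ)) (M + 1)).image pt) (incr ⁻¹' B) := by
  intro g g' h
  refine hB _ _ fun y h1 h2 => ?_
  unfold incr
  rw [h (pt (y + 1)) (Finset.mem_image_of_mem pt (Finset.mem_Icc.2 ⟨by omega, by omega⟩)),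
    h (pt y) (Finset.mem_image_of_mem pt (Finset.mem_Icc.2 ⟨by omega, by omega⟩))]

private theorem fwd (π : Measure (ℤ → ℤ)) [IsProbabilityMeasure π] {μ : Measure (Height 1)}
    [IsProbabilityMeasure μ] (h : μ.map incr = π) (δ : ℝ≥0) (j : ℕ) :
    (π.prod (arrLaw 1 δ)).map (fun q => ifw q.2 q.1 j) =
      (μ.bind (lawK 1 (List.replicate j δ))).map incr := by
  have hd : Measurable (fun η : ℤ → ℤ => (η, η)) := measurable_id.prodMk measurable_id
  have : IsProbabilityMeasure (π.map (fun η : ℤ → ℤ => (η, η))) :=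
    Measure.isProbabilityMeasure_map hd.aemeasurable
  have h1 : (π.map (fun η : ℤ → ℤ => (η, η))).map Prod.fst = μ.map incr := by
    rw [Measure.map_map measurable_fst hd, h]
    exact Measure.map_id
  rw [← PI_fst h1 δ j]
  unfold PI
  rw [Measure.map_map measurable_fst (measurable_pair j)]
  have e : (π.map (fun η : ℤ → ℤ => (η, η))).prod (arrLaw 1 δ) =
      (π.prod (arrLaw 1 δ)).map (Prod.map (fun η : ℤ → ℤ => (η, η)) id) := by
    rw [← Measure.map_prod_map _ _ hd measurable_id, Measure.map_id]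
  rw [e, Measure.map_map (measurable_fst.comp (measurable_pair j)) (hd.prodMap measurable_id)]
  rfl

theorem genB {π : Measure (ℤ → ℤ)} [IsProbabilityMeasure π] (h : Stn SI π) :
    IsStationary (htL π) := by
  classical
  have hμ : IsProbabilityMeasure (htL π) := Measure.isProbabilityMeasure_map measurable_ht.aemeasurable
  obtain ⟨μ, hμd⟩ : ∃ μ, μ = htL π := ⟨_, rfl⟩
  rw [← hμd] at hμ ⊢
  have hincr : μ.map incr = π := by rw [hμd, map_incr_htL]
  refine kerC_stat fun q hq => ?_
  have hq' : (0 : ℝ) < q := by exact_mod_cast hq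
  have : IsProbabilityMeasure ((μ.bind (Ka 1 (q : ℝ))).map seen) :=
    Measure.isProbabilityMeasure_map measurable_seen.aemeasurable
  refine ext_cyl fun S c => ?_
  have hA := measurableSet_cyl S c
  obtain ⟨B, hB⟩ : ∃ B, B = ht ⁻¹' cyl S c := ⟨_, rfl⟩
  have hBm : MeasurableSet B := by rw [hB]; exact measurable_ht hA
  obtain ⟨M, hM⟩ := locS_cyl S c
  rw [← hB] at hM
  have e1 : μ.real (cyl S c) = π.real B := by
    rw [hμd, hB]
    exact map_measureReal_apply measurable_ht hA
  have e2 : ((μ.bind (Ka 1 (q : ℝ))).map seen).real (cyl S c) =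
      ∫ f, (Ka 1 (q : ℝ) f).real (incr ⁻¹' B) ∂μ := by
    rw [kerB_real _ hA, seen_pre, hB]
  rw [e1, e2]
  have hIm : MeasurableSet (incr ⁻¹' B) := measurable_incr hBm
  have key : ∀ ε : ℝ, 0 < ε → |∫ f, (Ka 1 (q : ℝ) f).real (incr ⁻¹' B) ∂μ - π.real B| ≤ ε + ε := by
    intro ε hε
    obtain ⟨n₀, hn₀⟩ := Ka_appr hq' ((Finset.Icc (-(M : ℤ)) (M + 1)).image pt) hε
    obtain ⟨δ₀, hδ₀, hs⟩ := slotB h hM (q : ℝ) hε
    obtain ⟨n, hn, hnδ⟩ : ∃ n, n₀ ≤ n ∧ ((dl 1 n : ℝ≥0) : ℝ) ≤ δ₀ := by
      have h1 : Tendsto (fun n : ℕ => ((dl 1 n : ℝ≥0) : ℝ)) atTop (𝓝 0) := by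
        have h2 : (fun n : ℕ => ((dl 1 n : ℝ≥0) : ℝ)) = fun n => (1 / 2 : ℝ) ^ n := by
          funext n
          unfold dl
          push_cast
          rw [one_mul, one_div, one_div, inv_pow]
        rw [h2]
        exact tendsto_pow_atTop_nhds_zero_of_lt_one (by norm_num) (by norm_num)
      have h3 := (h1.eventually_le_const hδ₀).and (eventually_ge_atTop n₀)
      obtain ⟨n, h4, h5⟩ := h3.exists
      exact ⟨n, h5, h4⟩
    have hpos := dl_pos one_pos n
    obtain ⟨j, hj⟩ : ∃ j, j = ⌊(q : ℝ) / (dl 1 n : ℝ)⌋₊ := ⟨_, rfl⟩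
    have hjδ : (j : ℝ) * (dl 1 n : ℝ) ≤ q := by
      rw [hj, ← le_div_iff₀ hpos]
      exact Nat.floor_le (div_nonneg hq'.le hpos.le)
    have a1 : ∀ κ : Kernel (Height 1) (Height 1), IsMarkovKernel κ →
        Integrable (fun f => (κ f).real (incr ⁻¹' B)) μ := by
      intro κ _
      refine Integrable.of_bound
        (Kernel.measurable_coe κ hIm).ennreal_toReal.aestronglyMeasurable 1 ?_
      filter_upwards with f
      rw [Real.norm_eq_abs, abs_of_nonneg measureReal_nonneg]
      exact measureReal_le_one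
    have a2 : |∫ f, (Ka 1 (q : ℝ) f).real (incr ⁻¹' B) ∂μ - ∫ f, (La 1 (q : ℝ) n f).real (incr ⁻¹' B) ∂μ| ≤ ε := by
      have hi1 := a1 (Ka 1 (q : ℝ)) inferInstance
      have hi2 : Integrable (fun f => (La 1 (q : ℝ) n f).real (incr ⁻¹' B)) μ :=
        a1 (lawK 1 (List.replicate ⌊(q : ℝ) / (dl 1 n : ℝ)⌋₊ (dl 1 n))) inferInstance
      rw [← integral_sub hi1 hi2]
      have h1 := norm_integral_le_of_norm_le_const (μ := μ)
        (f := fun f => (Ka 1 (q : ℝ) f).real (incr ⁻¹' B) - (La 1 (q : ℝ) n f).real (incr ⁻¹' B))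
        (C := ε) (by
          filter_upwards with f
          rw [Real.norm_eq_abs]
          exact hn₀ n hn f _ hIm (depB_incr hM))
      rw [probReal_univ, mul_one, Real.norm_eq_abs] at h1
      exact h1
    have a3 : ∫ f, (La 1 (q : ℝ) n f).real (incr ⁻¹' B) ∂μ =
        ((μ.bind (lawK 1 (List.replicate j (dl 1 n)))).map incr).real B := by
      rw [measureReal_def, Measure.map_apply measurable_incr hBm,
        Measure.bind_apply hIm (Kernel.aemeasurable _), ← integral_toReal]
      · rw [hj]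
        rfl
      · exact (Kernel.measurable_coe _ hIm).aemeasurable
      · exact Filter.Eventually.of_forall fun f => measure_lt_top _ _
    have a4 := hs (dl 1 n) j hnδ hjδ
    rw [fwd π hincr, ← a3] at a4
    have a5 := abs_sub_le (∫ f, (Ka 1 (q : ℝ) f).real (incr ⁻¹' B) ∂μ)
      (∫ f, (La 1 (q : ℝ) n f).real (incr ⁻¹' B) ∂μ) (π.real B)
    linarith
  by_contra hne
  have h1 : 0 < |∫ f, (Ka 1 (q : ℝ) f).real (incr ⁻¹' B) ∂μ - π.real B| :=
    abs_pos.2 (sub_ne_zero.2 hne)
  have h2 := key _ (div_pos h1 (by norm_num : (0 : ℝ) < 4))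
  linarith

theorem stat_iff {μ : Measure (Height 1)} [IsProbabilityMeasure μ] :
    IsStationary μ ↔ (Stn SI (μ.map incr) ∧ μ = htL (μ.map incr)) := by
  constructor
  · intro h
    refine ⟨genA h, ?_⟩
    have h1 := kerB.1 h 1 one_pos
    have hz : ∀ᵐ g ∂μ, seen g = g := by
      have hms : MeasurableSet {g : Height 1 | g 0 = 0} :=
        measurableSet_eq_fun (measurable_pi_apply 0) measurable_const
      have h2 : ∀ᵐ g ∂μ, g 0 = 0 := by
        rw [← h1]
        refine (ae_map_iff measurable_seen.aemeasurable hms).2 ?_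
        refine ae_of_all _ fun g => ?_
        show g 0 - g 0 = 0
        exact sub_self _
      filter_upwards [h2] with g hg
      funext x
      show g x - g 0 = g x
      rw [hg, sub_zero]
    unfold htL
    rw [Measure.map_map measurable_ht measurable_incr]
    have e : ht ∘ incr = seen := funext ht_incr
    rw [e]
    have e2 : μ.map seen = μ.map id := Measure.map_congr hz
    rw [e2, Measure.map_id]
  · rintro ⟨h1, h2⟩
    rw [h2]
    have : IsProbabilityMeasure (μ.map incr) :=
      Measure.isProbabilityMeasure_map measurable_incr.aemeasurable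
    exact genB h1

end Pool.MP4bb68cEx
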