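import Mathlib
import Pool.Agent.Work.MP_4bb68c_ex.Defs
import Pool.Agent.Work.MP_4bb68c_ex.Defs2
import Pool.Agent.Work.MP_4bb68c_ex.SysB

/-!
# Projections and linear operations preserve the balance equation (module Proj, size M)

`T_tra`: `L.T s (tra 1 x) = tra 1 (L.T (s + 1) x)` is `L.shift`; iterate (induction on `a : ℤ`, in both
directions: replace `x` by `tra (-1) x` and `s` by `s - 1`).
`Stn.tra`: let `f` be `Loc n`. `f ∘ tra a` is `Loc N` with `N = n + |a|` and
`f (L.T s (tra a x)) = (f ∘ tra a) (L.T (s + a) x)`. In the balance equation of `μ` for `f ∘ tra a` over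
`Icc (-N) (N + 1)` (`Stn.big`) the terms for `s'` with `s' - a ∉ Icc (-n) (n+1)` vanish, because
`f (tra a (L.T s' x)) = f (L.T (s' - a) (tra a x)) = f (tra a x)` (`T_far`); the remaining ones are
the terms of the balance equation of `μ.map (tra a)` for `f` (substitute `s' = s + a`).
`Stn.fac`: `f (φ ∘ L.T s x) = f (L'.T s (φ ∘ x))`, and `f (φ ∘ ·)` is `Loc n` (`integral_map`; the map
`x ↦ φ ∘ x` is measurable because `φ` is measurable, `measurable_of_countable`).
`Stn.fs`, `Stn.sn`, `Stn.hI`, `Stn.swp`, `Stn.negc`: special cases of `Stn.fac` (for `negc`: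
`φ (a, b) = (a, !b)`; the increments are updated without the colours, the colour of the source is
negated).
`Stn.add`, `Stn.smul`, `Stn.of_add`: linearity of the integral in the measure (all functions are
bounded and measurable, the measures are finite).
`Stn.restrict_compl`: `μ = μ.restrict S + μ.restrict Sᶜ` and `Stn.of_add`.
`Stn.cond`: `ProbabilityTheory.cond μ S = (μ S)⁻¹ • μ.restrict S`.
`ExtI.tra`: if `α ≤ C • ν.map (tra a)` then `α.map (tra (-a)) ≤ C • ν`, so `α.map (tra (-a)) = ν`, so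
`α = ν.map (tra a)` (`tra a ∘ tra (-a) = id`).
-/

set_option autoImplicit false

open MeasureTheory ProbabilityTheory Filter Topology
open scoped NNReal ENNReal

namespace Pool.MP4bb68cEx

open Pool.MP4bb68c Pool.MP4bb68cOne Pool.MP4bb68cCl

private theorem T_tra_one {A : Type} (L : Sys A) (s : ℤ) (x : ℤ → A) :
    L.T s (tra 1 x) = tra 1 (L.T (s + 1) x) := by
  funext y
  exact L.shift s x y

private theorem tra_tra {A : Type} (a b : ℤ) (x : ℤ → A) : tra a (tra b x) = tra (a + b) x := by
  funext y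
  show x (y + a + b) = x (y + (a + b))
  rw [add_assoc]

private theorem tra_zero {A : Type} (x : ℤ → A) : tra 0 x = x := by
  funext y
  show x (y + 0) = x y
  rw [add_zero]

theorem T_tra {A : Type} (L : Sys A) (a s : ℤ) (x : ℤ → A) :
    L.T s (tra a x) = tra a (L.T (s + a) x) := by
  induction a using Int.induction_on generalizing s x with
  | zero => rw [tra_zero, tra_zero, add_zero]
  | succ n ih =>
    have e : ∀ z : ℤ → A, tra ((n : ℤ) + 1) z = tra 1 (tra (n : ℤ) z) := fun z => by
      rw [tra_tra, add_comm]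
    rw [e, e, T_tra_one, ih, show s + 1 + (n : ℤ) = s + ((n : ℤ) + 1) by ring]
  | pred n ih =>
    have e : ∀ z : ℤ → A, tra (-(n : ℤ) - 1) z = tra (-1) (tra (-(n : ℤ)) z) := fun z => by
      rw [tra_tra]
      congr 1
      ring
    have h1 : ∀ (s : ℤ) (z : ℤ → A), L.T s (tra (-1) z) = tra (-1) (L.T (s - 1) z) := by
      intro s z
      have h2 := T_tra_one L (s - 1) (tra (-1) z)
      rw [tra_tra, show (1 : ℤ) + -1 = 0 by ring, tra_zero, sub_add_cancel] at h2
      rw [h2, tra_tra, show (-1 : ℤ) + 1 = 0 by ring, tra_zero]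
    rw [e, e, h1, ih, show s - 1 + -(n : ℤ) = s + (-(n : ℤ) - 1) by ring]

private theorem int_loc {A : Type} [Countable A] [MeasurableSpace A] [MeasurableSingletonClass A]
    {μ : Measure (ℤ → A)} [IsFiniteMeasure μ] {n : ℕ} {f : (ℤ → A) → ℝ} (hf : Loc n f)
    (hb : ∀ x, |f x| ≤ 1) : Integrable f μ :=
  Integrable.of_bound hf.measurable.aestronglyMeasurable 1
    (Filter.Eventually.of_forall fun x => by rw [Real.norm_eq_abs]; exact hb x)

private theorem int_loc_T {A : Type} [Countable A] [MeasurableSpace A]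
    [MeasurableSingletonClass A] (L : Sys A)
    {μ : Measure (ℤ → A)} [IsFiniteMeasure μ] {n : ℕ} {f : (ℤ → A) → ℝ} (hf : Loc n f)
    (hb : ∀ x, |f x| ≤ 1) (s : ℤ) : Integrable (fun x => f (L.T s x)) μ :=
  Integrable.of_bound (hf.measurable.comp (L.measurable_T s)).aestronglyMeasurable 1
    (Filter.Eventually.of_forall fun x => by rw [Real.norm_eq_abs]; exact hb _)

theorem Stn.tra {A : Type} [Countable A] [MeasurableSpace A] [MeasurableSingletonClass A]
    {L : Sys A} {μ : Measure (ℤ → A)} [IsFiniteMeasure μ] (h : Stn L μ) (a : ℤ) :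
    Stn L (μ.map (Pool.MP4bb68cEx.tra a)) := by
  intro n f hf hb
  have hg : Loc (n + a.natAbs) (fun x => f (Pool.MP4bb68cEx.tra a x)) := by
    intro x x' hxx
    refine hf _ _ fun y h1 h2 => ?_
    show x (y + a) = x' (y + a)
    exact hxx _ (by omega) (by omega)
  have hbig := h.big hg (C := 1) (fun x => hb _) le_rfl
  have e1 : ∀ s : ℤ, ∫ x, f (L.T s x) ∂(μ.map (Pool.MP4bb68cEx.tra a)) =
      ∫ x, f (Pool.MP4bb68cEx.tra a (L.T (s + a) x)) ∂μ := by
    intro s
    have hm : Measurable (fun x => f (L.T s x)) := hf.measurable.comp (L.measurable_T s)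
    rw [integral_map (measurable_tra a).aemeasurable hm.aestronglyMeasurable]
    refine integral_congr_ae (Filter.Eventually.of_forall fun x => ?_)
    show f (L.T s (Pool.MP4bb68cEx.tra a x)) = _
    rw [T_tra]
  have e2 : ∫ x, f x ∂(μ.map (Pool.MP4bb68cEx.tra a)) =
      ∫ x, f (Pool.MP4bb68cEx.tra a x) ∂μ := by
    rw [integral_map (measurable_tra a).aemeasurable hf.measurable.aestronglyMeasurable]
  rw [Finset.sum_congr rfl fun s _ => by rw [e1 s, e2]]
  have e3 : ∑ s ∈ Finset.Icc (-(n : ℤ)) (n + 1),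
      (∫ x, f (Pool.MP4bb68cEx.tra a (L.T (s + a) x)) ∂μ -
        ∫ x, f (Pool.MP4bb68cEx.tra a x) ∂μ) =
      ∑ s ∈ Finset.Icc (-(n : ℤ) + a) (n + 1 + a),
      (∫ x, f (Pool.MP4bb68cEx.tra a (L.T s x)) ∂μ -
        ∫ x, f (Pool.MP4bb68cEx.tra a x) ∂μ) := by
    rw [← Finset.map_add_right_Icc, Finset.sum_map]
    rfl
  rw [e3, ← hbig]
  refine Finset.sum_subset ?_ fun s _ hs => ?_
  · intro s hs
    rw [Finset.mem_Icc] at hs ⊢
    omega
  · have hs' : s - a ∉ Finset.Icc (-(n : ℤ)) (n + 1) := by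
      rw [Finset.mem_Icc] at hs ⊢
      omega
    have e4 : ∀ x : ℤ → A, f (Pool.MP4bb68cEx.tra a (L.T s x)) =
        f (Pool.MP4bb68cEx.tra a x) := by
      intro x
      have e5 := T_tra L a (s - a) x
      rw [sub_add_cancel] at e5
      rw [← e5, T_far L hf hs']
    simp only [e4, sub_self]

theorem Stn.fac {A B : Type} [Countable A] [MeasurableSpace A] [MeasurableSingletonClass A]
    [Countable B] [MeasurableSpace B] [MeasurableSingletonClass B]
    {L : Sys A} {L' : Sys B} {μ : Measure (ℤ → A)} [IsFiniteMeasure μ] (φ : A → B)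
    (hφ : ∀ (s : ℤ) (x : ℤ → A) (y : ℤ), φ (L.T s x y) = L'.T s (fun z => φ (x z)) y)
    (h : Stn L μ) : Stn L' (μ.map (fun x y => φ (x y))) := by
  intro n f hf hb
  have hm : Measurable (fun (x : ℤ → A) (y : ℤ) => φ (x y)) :=
    measurable_pi_iff.2 fun y => (measurable_of_countable φ).comp (measurable_pi_apply y)
  have hg : Loc n (fun x : ℤ → A => f (fun y => φ (x y))) := by
    intro x x' hxx
    refine hf _ _ fun y h1 h2 => ?_
    show φ (x y) = φ (x' y)
    rw [hxx y h1 h2]
  have h0 := h n _ hg fun x => hb _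
  rw [← h0]
  refine Finset.sum_congr rfl fun s _ => ?_
  have hm' : Measurable (fun x => f (L'.T s x)) := hf.measurable.comp (L'.measurable_T s)
  rw [integral_map hm.aemeasurable hm'.aestronglyMeasurable,
    integral_map hm.aemeasurable hf.measurable.aestronglyMeasurable]
  have e1 : ∀ x : ℤ → A, L'.T s (fun y => φ (x y)) = fun y => φ (L.T s x y) := fun x =>
    funext fun y => (hφ s x y).symm
  simp only [e1]

theorem Stn.fs {μ : Measure (ℤ → ℤ × ℤ)} [IsFiniteMeasure μ] (h : Stn SP μ) :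
    Stn SI (μ.map fsI) :=
  h.fac (L' := SI) (fun p : ℤ × ℤ => p.1) fun _ _ _ => rfl

theorem Stn.sn {μ : Measure (ℤ → ℤ × ℤ)} [IsFiniteMeasure μ] (h : Stn SP μ) :
    Stn SI (μ.map snI) :=
  h.fac (L' := SI) (fun p : ℤ × ℤ => p.2) fun _ _ _ => rfl

theorem Stn.hI {μ : Measure (ℤ → ℤ × Bool)} [IsFiniteMeasure μ] (h : Stn SC μ) :
    Stn SI (μ.map Pool.MP4bb68cEx.hI) :=
  h.fac (L' := SI) (fun p : ℤ × Bool => p.1) fun _ _ _ => rfl

theorem Stn.swp {μ : Measure (ℤ → ℤ × ℤ)} [IsFiniteMeasure μ] (h : Stn SP μ) :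
    Stn SP (μ.map sw) :=
  h.fac (L' := SP) (fun p : ℤ × ℤ => (p.2, p.1)) fun _ _ _ => rfl

theorem Stn.negc {μ : Measure (ℤ → ℤ × Bool)} [IsFiniteMeasure μ] (h : Stn SC μ) :
    Stn SC (μ.map ngc) :=
  h.fac (L' := SC) (fun p : ℤ × Bool => (p.1, !p.2)) fun s x y => by
    show (SI.T s (fun z => (x z).1) y,
      !(if y = s then (x (csI (fun z => (x z).1) s)).2 else (x y).2)) =
      (SI.T s (fun z => (x z).1) y,
      if y = s then !(x (csI (fun z => (x z).1) s)).2 else !(x y).2)
    split_ifs <;> rfl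

theorem measurable_fsI : Measurable fsI :=
  measurable_pi_iff.2 fun y => measurable_fst.comp (measurable_pi_apply y)

theorem measurable_snI : Measurable snI :=
  measurable_pi_iff.2 fun y => measurable_snd.comp (measurable_pi_apply y)

theorem measurable_hI : Measurable Pool.MP4bb68cEx.hI :=
  measurable_pi_iff.2 fun y => measurable_fst.comp (measurable_pi_apply y)

theorem measurable_zI : Measurable zI :=
  measurable_pi_iff.2 fun y => measurable_snd.comp (measurable_pi_apply y)

theorem measurable_sw : Measurable sw :=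
  measurable_pi_iff.2 fun y => (measurable_of_countable (fun p : ℤ × ℤ => (p.2, p.1))).comp
    (measurable_pi_apply y)

theorem measurable_ngc : Measurable ngc :=
  measurable_pi_iff.2 fun y => (measurable_of_countable (fun p : ℤ × Bool => (p.1, !p.2))).comp
    (measurable_pi_apply y)

theorem Stn.add {A : Type} [Countable A] [MeasurableSpace A] [MeasurableSingletonClass A]
    {L : Sys A} {μ ν : Measure (ℤ → A)} [IsFiniteMeasure μ] [IsFiniteMeasure ν] (h : Stn L μ)
    (h' : Stn L ν) : Stn L (μ + ν) := by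
  intro n f hf hb
  have h1 := h n f hf hb
  have h2 := h' n f hf hb
  rw [← add_zero (0 : ℝ)]
  nth_rw 1 [← h1]
  rw [← h2, ← Finset.sum_add_distrib]
  refine Finset.sum_congr rfl fun s _ => ?_
  rw [integral_add_measure (int_loc_T L hf hb s) (int_loc_T L hf hb s),
    integral_add_measure (int_loc hf hb) (int_loc hf hb)]
  ring

theorem Stn.smul {A : Type} [Countable A] [MeasurableSpace A] [MeasurableSingletonClass A]
    {L : Sys A} {μ : Measure (ℤ → A)} [IsFiniteMeasure μ] (h : Stn L μ) (c : ℝ≥0∞) :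
    Stn L (c • μ) := by
  intro n f hf hb
  have h1 := h n f hf hb
  rw [Finset.sum_congr rfl fun s _ => by
    rw [integral_smul_measure, integral_smul_measure, ← smul_sub], ← Finset.smul_sum, h1,
    smul_zero]

theorem Stn.of_add {A : Type} [Countable A] [MeasurableSpace A] [MeasurableSingletonClass A]
    {L : Sys A} {μ ν : Measure (ℤ → A)} [IsFiniteMeasure μ] [IsFiniteMeasure ν]
    (h : Stn L (μ + ν)) (h' : Stn L μ) : Stn L ν := by
  intro n f hf hb
  have h1 := h n f hf hb
  have h2 := h' n f hf hb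
  rw [Finset.sum_congr rfl fun s _ => show
    (∫ x, f (L.T s x) ∂(μ + ν) - ∫ x, f x ∂(μ + ν)) =
      (∫ x, f (L.T s x) ∂μ - ∫ x, f x ∂μ) + (∫ x, f (L.T s x) ∂ν - ∫ x, f x ∂ν) by
    rw [integral_add_measure (int_loc_T L hf hb s) (int_loc_T L hf hb s),
      integral_add_measure (int_loc hf hb) (int_loc hf hb)]
    ring, Finset.sum_add_distrib, h2, zero_add] at h1
  exact h1

theorem Stn.restrict_compl {A : Type} [Countable A] [MeasurableSpace A]
    [MeasurableSingletonClass A] {L : Sys A} {μ : Measure (ℤ → A)} [IsFiniteMeasure μ]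
    (h : Stn L μ) {S : Set (ℤ → A)} (hS : MeasurableSet S) (h' : Stn L (μ.restrict S)) :
    Stn L (μ.restrict Sᶜ) := by
  refine Stn.of_add (μ := μ.restrict S) ?_ h'
  rw [Measure.restrict_add_restrict_compl hS]
  exact h

theorem ExtI.tra {ν : Measure (ℤ → ℤ)} (h : ExtI ν) (a : ℤ) :
    ExtI (ν.map (Pool.MP4bb68cEx.tra a)) := by
  obtain ⟨h1, h2, h3⟩ := h
  have hinv : ∀ b : ℤ, (Pool.MP4bb68cEx.tra (-b) ∘ Pool.MP4bb68cEx.tra b :
      (ℤ → ℤ) → ℤ → ℤ) = id := by
    intro b
    funext x y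
    show x (y + -b + b) = x y
    rw [neg_add_cancel_right]
  refine ⟨Measure.isProbabilityMeasure_map (measurable_tra a).aemeasurable, h2.tra a, ?_⟩
  intro α hα hαs C hC hle
  have h4 : α.map (Pool.MP4bb68cEx.tra (-a)) = ν := by
    refine h3 _ (Measure.isProbabilityMeasure_map (measurable_tra (-a)).aemeasurable)
      (hαs.tra (-a)) C hC ?_
    have h5 := Measure.map_mono hle (measurable_tra (A := ℤ) (-a))
    rw [Measure.map_smul, Measure.map_map (measurable_tra (-a)) (measurable_tra a), hinv,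
      Measure.map_id] at h5
    exact h5
  rw [← h4, Measure.map_map (measurable_tra a) (measurable_tra (-a))]
  have h6 := hinv (-a)
  rw [neg_neg] at h6
  rw [h6, Measure.map_id]

end Pool.MP4bb68cEx
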