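import Mathlib
import Pool.Agent.Work.MP_4bb68c_ex.Defs
import Pool.Agent.Work.MP_4bb68c_ex.Defs3
import Pool.Agent.Work.MP_4bb68c_ex.SysB
import Pool.Agent.Work.MP_4bb68c_ex.Proj
import Pool.Agent.Work.MP_4bb68c_ex.GenB

/-!
# Extremal laws of heights and of increments (module ExtEq, size M)

`ext_to`: let `ν` be extremal (`ExtH`) and `π = ν.map incr`; `π` is a stationary probability measure and
`ν = htL π` (`stat_iff`). Let `α` be a stationary probability measure on increments, `α ≤ C • π`, `C ≠ ∞`.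
Let `c = max C 2` (real number `c.toReal ≥ 2`), `a = 1/c ∈ (0, 1)`. Then `a • α ≤ π`; let
`β = (1 - a)⁻¹ • (π - a • α)` (`Measure.sub`; `π = a • α + (π - a • α)` by `Measure.sub_add_cancel_of_le`),
a probability measure with `π = a • α + (1 - a) • β`. `β` is stationary: `Stn.of_add`, `Stn.smul`. Put
`ν₁ = htL α`, `ν₂ = htL β`: stationary by `genB`, and `ν = htL π = a • ν₁ + (1 - a) • ν₂` (linearity of
`Measure.map`). So `ν₁ = ν` and `α = (htL α).map incr = ν.map incr = π` (`map_incr_htL`).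

`ext_from`: let `π = ν.map incr` be `ExtI` and `ν = htL π`; so `ν` is stationary (`genB`). Let
`ν = a ν₁ + (1-a) ν₂` as in the definition. `α = ν₁.map incr` is a stationary probability measure
(`stat_iff`) and `α ≤ a⁻¹ • π` (from `a • α ≤ π`). So `α = π`, and
`ν₁ = htL (ν₁.map incr) = htL π = ν`.
-/

set_option autoImplicit false

open MeasureTheory ProbabilityTheory Filter Topology
open scoped NNReal ENNReal

namespace Pool.MP4bb68cEx

open Pool.MP4bb68c Pool.MP4bb68cOne Pool.MP4bb68cCl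

private theorem ee_meas : Measurable (incr : Height 1 → Inc) := by
  rw [measurable_pi_iff]
  intro x
  exact (measurable_pi_apply _).sub (measurable_pi_apply _)

private theorem ee_split {α π : Measure (ℤ → ℤ)} [IsProbabilityMeasure α]
    [IsProbabilityMeasure π] {a : ℝ} (ha : 0 < a) (ha1 : a < 1)
    (hle : ENNReal.ofReal a • α ≤ π) : ∃ β : Measure (ℤ → ℤ), IsProbabilityMeasure β ∧
      π = ENNReal.ofReal a • α + ENNReal.ofReal (1 - a) • β := by
  have hfin : IsFiniteMeasure (ENNReal.ofReal a • α) := Measure.smul_finite α ENNReal.ofReal_ne_top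
  have h0 : ENNReal.ofReal (1 - a) ≠ 0 := by
    rw [Ne, ENNReal.ofReal_eq_zero, not_le]
    linarith
  have hD : (π - ENNReal.ofReal a • α) Set.univ = ENNReal.ofReal (1 - a) := by
    rw [Measure.sub_apply MeasurableSet.univ hle, measure_univ, Measure.smul_apply, measure_univ,
      smul_eq_mul, mul_one, ENNReal.ofReal_sub _ ha.le, ENNReal.ofReal_one]
  refine ⟨(ENNReal.ofReal (1 - a))⁻¹ • (π - ENNReal.ofReal a • α), ⟨?_⟩, ?_⟩
  · rw [Measure.smul_apply, hD, smul_eq_mul, ENNReal.inv_mul_cancel h0 ENNReal.ofReal_ne_top]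
  · rw [smul_smul, ENNReal.mul_inv_cancel h0 ENNReal.ofReal_ne_top, one_smul, add_comm]
    exact (Measure.sub_add_cancel_of_le hle).symm

theorem ext_to {ν : Measure (Height 1)} (h : ExtH ν) :
    ExtI (ν.map incr) ∧ ν = htL (ν.map incr) := by
  obtain ⟨hp, hs, hext⟩ := h
  obtain ⟨hst, heq⟩ := stat_iff.1 hs
  have hπ : IsProbabilityMeasure (ν.map incr) :=
    Measure.isProbabilityMeasure_map ee_meas.aemeasurable
  refine ⟨⟨hπ, hst, fun α hα hαs C hC hle => ?_⟩, heq⟩
  obtain ⟨π, hπd⟩ : ∃ π, π = ν.map incr := ⟨_, rfl⟩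
  rw [← hπd] at hπ hst heq hle ⊢
  obtain ⟨c, hc⟩ : ∃ c, c = max C.toReal 2 := ⟨_, rfl⟩
  have hc2 : 2 ≤ c := hc ▸ le_max_right _ _
  have hc0 : 0 < c := by linarith
  have hCc : C ≤ ENNReal.ofReal c := by
    rw [← ENNReal.ofReal_toReal hC]
    exact ENNReal.ofReal_le_ofReal (hc ▸ le_max_left _ _)
  have ha : 0 < 1 / c := by positivity
  have ha1 : 1 / c < 1 := by
    rw [div_lt_one hc0]
    linarith
  have hle' : ENNReal.ofReal (1 / c) • α ≤ π := by
    rw [Measure.le_iff]
    intro S hS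
    rw [Measure.smul_apply, smul_eq_mul]
    have h1 : α S ≤ ENNReal.ofReal c * π S := by
      have h2 := Measure.le_iff.1 hle S hS
      rw [Measure.smul_apply, smul_eq_mul] at h2
      exact h2.trans (mul_le_mul' hCc le_rfl)
    calc ENNReal.ofReal (1 / c) * α S
        ≤ ENNReal.ofReal (1 / c) * (ENNReal.ofReal c * π S) := mul_le_mul' le_rfl h1
      _ = π S := by
        rw [← mul_assoc, ← ENNReal.ofReal_mul ha.le, one_div, inv_mul_cancel₀ hc0.ne',
          ENNReal.ofReal_one, one_mul]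
  obtain ⟨β, hβ, hsum⟩ := ee_split ha ha1 hle'
  have hf1 : IsFiniteMeasure (ENNReal.ofReal (1 / c) • α) :=
    Measure.smul_finite α ENNReal.ofReal_ne_top
  have hf2 : IsFiniteMeasure (ENNReal.ofReal (1 - 1 / c) • β) :=
    Measure.smul_finite β ENNReal.ofReal_ne_top
  have hβs : Stn SI β := by
    have h1 : Stn SI (ENNReal.ofReal (1 - 1 / c) • β) := by
      refine Stn.of_add (μ := ENNReal.ofReal (1 / c) • α) ?_ (Stn.smul hαs _)
      rw [← hsum]
      exact hst
    have h2 := Stn.smul h1 (ENNReal.ofReal (1 - 1 / c))⁻¹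
    rw [smul_smul, ENNReal.inv_mul_cancel, one_smul] at h2
    · exact h2
    · rw [Ne, ENNReal.ofReal_eq_zero, not_le]
      linarith
    · exact ENNReal.ofReal_ne_top
  have hsum2 : ν = ENNReal.ofReal (1 / c) • htL α + ENNReal.ofReal (1 - 1 / c) • htL β := by
    rw [heq]
    unfold htL
    rw [← Measure.map_smul, ← Measure.map_smul, ← Measure.map_add _ _ measurable_ht, ← hsum]
  have hp1 : IsProbabilityMeasure (htL α) :=
    Measure.isProbabilityMeasure_map measurable_ht.aemeasurable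
  have hp2 : IsProbabilityMeasure (htL β) :=
    Measure.isProbabilityMeasure_map measurable_ht.aemeasurable
  have h3 := hext (htL α) (htL β) hp1 hp2 (genB hαs) (genB hβs) (1 / c) ha ha1 hsum2
  rw [hπd, ← h3, map_incr_htL]

theorem ext_from {ν : Measure (Height 1)} (h : ExtI (ν.map incr)) (h' : ν = htL (ν.map incr)) :
    ExtH ν := by
  obtain ⟨hπ, hst, hI⟩ := h
  have hp : IsProbabilityMeasure ν := by
    rw [h']
    exact Measure.isProbabilityMeasure_map measurable_ht.aemeasurable
  have hs : IsStationary ν := by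
    rw [h']
    exact genB hst
  refine ⟨hp, hs, fun ν₁ ν₂ hp1 hp2 hs1 hs2 a ha ha1 hsum => ?_⟩
  obtain ⟨hst1, heq1⟩ := stat_iff.1 hs1
  have hα : IsProbabilityMeasure (ν₁.map incr) :=
    Measure.isProbabilityMeasure_map ee_meas.aemeasurable
  have h0 : ENNReal.ofReal a ≠ 0 := by
    rw [Ne, ENNReal.ofReal_eq_zero, not_le]
    exact ha
  have hle : ν₁.map incr ≤ (ENNReal.ofReal a)⁻¹ • ν.map incr := by
    rw [Measure.le_iff]
    intro S hS
    rw [Measure.smul_apply, smul_eq_mul]
    have h1 : ENNReal.ofReal a * ν₁.map incr S ≤ ν.map incr S := by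
      have h2 : ν.map incr = ENNReal.ofReal a • ν₁.map incr +
          ENNReal.ofReal (1 - a) • ν₂.map incr := by
        rw [← Measure.map_smul, ← Measure.map_smul, ← Measure.map_add _ _ ee_meas, ← hsum]
      rw [h2, Measure.add_apply, Measure.smul_apply, smul_eq_mul]
      exact le_self_add
    calc ν₁.map incr S = (ENNReal.ofReal a)⁻¹ * (ENNReal.ofReal a * ν₁.map incr S) := by
          rw [← mul_assoc, ENNReal.inv_mul_cancel h0 ENNReal.ofReal_ne_top, one_mul]
      _ ≤ (ENNReal.ofReal a)⁻¹ * ν.map incr S := mul_le_mul' le_rfl h1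
  have h3 := hI (ν₁.map incr) hα hst1 (ENNReal.ofReal a)⁻¹ (ENNReal.inv_ne_top.2 h0) hle
  rw [heq1, h3, ← h']

end Pool.MP4bb68cEx
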