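import Mathlib
import Pool.Agent.Work.MP_4bb68c_ex.Defs
import Pool.Agent.Work.MP_4bb68c_ex.Anc

/-!
# Ancestors: monotonicity and comparison (module AncCmp, size M)

All statements are proved by induction on the word from its END: `List.reverseRecOn` (or
`List.reverseRec`), with `wd_snoc` and `anc_snoc` of the module Anc. Write `H = wd σ h`,
`H' = wd σ h'`, `a = anc σ h`, `a' = anc σ h'`, and let `s` be the new last letter. Only the value at
`s` changes: the new height is `up1 s H s = H c + [c = s]` with `c = cs H s`, the new ancestor is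
`a c`; the same for the primed objects with `c' = cs H' s`.

`wd_mono`: the new heights are maxima of monotone expressions (`cand_le` for `H'` at `c`).

`anc_mono`: if `x < s` then `x ≤ s - 1 ≤ c`, so `a x ≤ a c`; if `s < y` then `c ≤ s + 1 ≤ y`, so
`a c ≤ a y`.

`diff_le`: at `s`: `H'_new s = H' c' + [c' = s]` and `H_new s ≥ H c' + [c' = s]` (`cand_le`), so the
difference is `≤ H' c' - H c' ≤ h' (a' c') - h (a' c')` by the induction hypothesis, and
`a'_new s = a' c'`.

`cmp`: prove for all `x` at once: `h' (a' x) = h (a' x) → a x = a' x ∧ H x = H' x`. At `s`: suppose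
`h' = h` at `a' c'`. By the induction hypothesis `a c' = a' c'` and `H c' = H' c'`. Let
`v(H, c) = H c + [c = s]`. Then
`H'_new s = v(H', c') = v(H, c') ≤ H_new s ≤ H'_new s`, so all are equal. Since `c'` is a maximizer
for `H`, `c' ≤ c` (`cs_right`). Since `v(H', c) ≥ v(H, c) = H_new s = H'_new s` and `v(H', c) ≤ H'_new s`
(`cand_le`), `c` is a maximizer for `H'`, so `c ≤ c'` (`cs_right`). Hence `c = c'`, and
`a_new s = a c = a c' = a' c' = a'_new s`. (`H ≤ H'` by `wd_mono`.)

`raise`: no induction. `h ≤ h'`. By `diff_le` with the roles exchanged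
(`wd σ h x - wd σ h' x ≤ h (a x) - h' (a x)` with `a x = y`), `H' x - H x ≥ h' y - h y > 0`. By
`diff_le`, `H' x - H x ≤ h' (a' x) - h (a' x)`; so `h' (a' x) - h (a' x) > 0`, which by `ho` forces
`a' x = y`, and then `H' x - H x ≤ h' y - h y`.
-/

set_option autoImplicit false

open MeasureTheory ProbabilityTheory Filter Topology
open scoped NNReal ENNReal

namespace Pool.MP4bb68cEx

open Pool.MP4bb68c Pool.MP4bb68cOne Pool.MP4bb68cCl

theorem wd_mono (σ : List ℤ) {h h' : ℤ → ℤ} (hle : ∀ y, h y ≤ h' y) (x : ℤ) :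
    wd σ h x ≤ wd σ h' x := by
  induction σ using List.reverseRecOn generalizing x with
  | nil => exact hle x
  | append_singleton σ s ih =>
    rw [wd_snoc, wd_snoc]
    by_cases hx : x = s
    · rw [hx, up1_self]
      have h1 := cand_le (wd σ h') s (cs (wd σ h) s) (cs_cases (wd σ h) s)
      have h2 := ih (cs (wd σ h) s)
      linarith
    · rw [up1_of_ne hx, up1_of_ne hx]
      exact ih x

theorem anc_mono (σ : List ℤ) (h : ℤ → ℤ) {x y : ℤ} (hxy : x ≤ y) : anc σ h x ≤ anc σ h y := by
  induction σ using List.reverseRecOn generalizing x y with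
  | nil => exact hxy
  | append_singleton σ s ih =>
    rw [anc_snoc, anc_snoc]
    have hc := cs_cases (wd σ h) s
    by_cases hx : x = s
    · rw [if_pos hx]
      by_cases hy : y = s
      · rw [if_pos hy]
      · rw [if_neg hy]
        exact ih (by omega)
    · rw [if_neg hx]
      by_cases hy : y = s
      · rw [if_pos hy]
        exact ih (by omega)
      · rw [if_neg hy]
        exact ih hxy

theorem diff_le (σ : List ℤ) (h h' : ℤ → ℤ) (x : ℤ) :
    wd σ h' x - wd σ h x ≤ h' (anc σ h' x) - h (anc σ h' x) := by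
  induction σ using List.reverseRecOn generalizing x with
  | nil => exact le_refl _
  | append_singleton σ s ih =>
    rw [wd_snoc, wd_snoc, anc_snoc]
    by_cases hx : x = s
    · rw [if_pos hx, hx, up1_self (wd σ h')]
      have h1 := cand_le (wd σ h) s (cs (wd σ h') s) (cs_cases (wd σ h') s)
      have h2 := ih (cs (wd σ h') s)
      linarith
    · rw [if_neg hx, up1_of_ne hx, up1_of_ne hx]
      exact ih x

theorem cmp (σ : List ℤ) {h h' : ℤ → ℤ} (hle : ∀ y, h y ≤ h' y) (x : ℤ)
    (he : h' (anc σ h' x) = h (anc σ h' x)) :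
    anc σ h x = anc σ h' x ∧ wd σ h x = wd σ h' x := by
  induction σ using List.reverseRecOn generalizing x with
  | nil => exact ⟨rfl, he.symm⟩
  | append_singleton σ s ih =>
    rw [anc_snoc] at he
    rw [wd_snoc, wd_snoc, anc_snoc, anc_snoc]
    by_cases hx : x = s
    · rw [if_pos hx] at he
      rw [if_pos hx, if_pos hx, hx]
      obtain ⟨h1, h2⟩ := ih (cs (wd σ h') s) he
      have m := wd_mono σ hle
      have k1 := up1_self (wd σ h') s
      have k2 := up1_self (wd σ h) s
      have k3 := cand_le (wd σ h) s (cs (wd σ h') s) (cs_cases (wd σ h') s)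
      have k4 := cand_le (wd σ h') s (cs (wd σ h) s) (cs_cases (wd σ h) s)
      have k5 := m (cs (wd σ h) s)
      have k6 : cs (wd σ h') s ≤ cs (wd σ h) s := by
        apply cs_right (wd σ h) s _ (cs_cases (wd σ h') s)
        linarith
      have k7 : cs (wd σ h) s ≤ cs (wd σ h') s := by
        apply cs_right (wd σ h') s _ (cs_cases (wd σ h) s)
        linarith
      have k8 : cs (wd σ h) s = cs (wd σ h') s := le_antisymm k7 k6
      refine ⟨by rw [k8, h1], ?_⟩
      rw [k1, k2, k8, h2]
    · rw [if_neg hx] at he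
      rw [if_neg hx, if_neg hx, up1_of_ne hx, up1_of_ne hx]
      exact ih x he

theorem raise (σ : List ℤ) {h h' : ℤ → ℤ} {y x : ℤ} (hy : h y < h' y)
    (ho : ∀ z, z ≠ y → h' z = h z) (ha : anc σ h x = y) :
    anc σ h' x = y ∧ wd σ h' x = wd σ h x + (h' y - h y) := by
  have h1 := diff_le σ h' h x
  have h2 := diff_le σ h h' x
  rw [ha] at h1
  have h3 : anc σ h' x = y := by
    by_contra hne
    have h4 := ho _ hne
    rw [h4] at h2
    linarith
  rw [h3] at h2
  exact ⟨h3, by linarith⟩

end Pool.MP4bb68cEx
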