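import Mathlib
import Pool.Agent.Work.MP_4bb68c_ex.Defs
import Pool.Agent.Work.MP_4bb68c_ex.Anc
import Pool.Agent.Work.MP_4bb68c_ex.AncCmp
import Pool.Agent.Work.MP_4bb68c_ex.Link

/-!
# The dissipation: deterministic part (module Diss, size M-L)

Notation: `ξ` has `Up X ξ` (colours `false` up to `X`, `true` from `X + 1`), `h = pr (hI ξ)`,
`y > X`, `ξ' = SC.T y ξ`, `h' = up1 y h`. By the module Link: `hI ξ' = gr h'`, so for every word
`hI (SC.wd σ ξ') = gr (wd σ h')`, `hI (SC.wd σ ξ) = gr (wd σ h)`,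
`zI (SC.wd σ ξ) x = zI ξ (anc σ h x)`, `zI (SC.wd σ ξ') x = zI ξ' (anc σ h' x)` (use `anc_gr`,
`pr (hI ξ') = pr (gr h')`). The sum of increments telescopes:
`mh K (SC.wd σ ξ) = wd σ h (-K) - wd σ h K`, and the same for `ξ'` with `h'`. Also `h ≤ h'`, `h' = h`
off `y`, `h y < h' y`.

FACT psi: `psi` is strictly increasing and `-1 < psi m < 1` (`psi_lt`, `neg_one_lt_psi`, `psi_lt_one`).
(`psi m = 1 - 1/(1+m)` for `m ≥ 0` and `-1 + 1/(1-m)` for `m ≤ 0`.)

`c = csI (hI ξ) y = cs h y ∈ {y - 1, y, y + 1}`.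

CASE A: `X < c`. The new colour of `y` is `true`, the old one too: `zI ξ' = zI ξ`, so `Up X ξ'`.
For every `σ` and `x`: if `zI (SC.wd σ ξ') x = false` then `anc σ h' x ≤ X < y`, so `h' = h` at
`anc σ h' x`, and by `cmp`: `anc σ h x = anc σ h' x` and `wd σ h x = wd σ h' x`; hence also
`zI (SC.wd σ ξ) x = false`. Conclusion: `Fd K (SC.wd σ ξ') ≤ Fd K (SC.wd σ ξ)`:
 - if `zI (SC.wd σ ξ') K = false` then both values are `1`;
 - if `zI (SC.wd σ ξ) K = false` then the right side is `1` and every value is `≤ 1`;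
 - otherwise both colours at `K` are `true`. If `zI (SC.wd σ ξ') (-K) = true` the left side is `-1`.
   Otherwise `zI (SC.wd σ ξ') (-K) = false`, so `zI (SC.wd σ ξ) (-K) = false` and
   `wd σ h (-K) = wd σ h' (-K)`, while `wd σ h K ≤ wd σ h' K` (`wd_mono`): so `mh` of the left side is
   `≤` `mh` of the right side, `psi` is increasing.

CASE B: `c ≤ X`. As `c ≥ y - 1 ≥ X` we get `c = X`, `y = X + 1`. The new colour of `y` is `false`:
`zI ξ' z = true ↔ X + 1 < z`. For every `σ` and `x`: if `zI (SC.wd σ ξ') x = true` then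
`X + 1 < anc σ h' x`, so `anc σ h' x ≠ y`, `h' = h` there, and by `cmp` `anc σ h x = anc σ h' x`,
`wd σ h x = wd σ h' x`; hence `zI (SC.wd σ ξ) x = true`. Conclusion:
`Fd K (SC.wd σ ξ) ≤ Fd K (SC.wd σ ξ')`:
 - if `zI (SC.wd σ ξ) K = false` then `zI (SC.wd σ ξ') K = false`: both are `1`;
 - if `zI (SC.wd σ ξ') K = false`: the right side is `1`;
 - otherwise both colours at `K` are `true` and `wd σ h K = wd σ h' K`. If
   `zI (SC.wd σ ξ') (-K) = true` then `zI (SC.wd σ ξ) (-K) = true`: both `-1`. Otherwise, if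
   `zI (SC.wd σ ξ) (-K) = true` the left side is `-1`; else
   `mh (..ξ) = wd σ h (-K) - wd σ h K ≤ wd σ h' (-K) - wd σ h' K`.

`diss1` is the disjunction of the two cases.

`diss2`: let `y = anc σ h K` and `Mid K (SC.wd σ ξ)`; `m = mh K (SC.wd σ ξ)`; so
`Fd K (SC.wd σ ξ) = psi m`. `zI ξ y = zI (SC.wd σ ξ) K = true`, so `X < y`. By `raise` (with `x = K`):
`anc σ h' K = y` and `wd σ h' K = wd σ h K + d` with `d = h' y - h y ≥ 1`.
CASE A: `zI (SC.wd σ ξ') K = zI ξ' y = true`. If `zI (SC.wd σ ξ') (-K) = true`: the new value is `-1`,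
the difference is `1 + psi m` in absolute value. Otherwise, as above, `wd σ h' (-K) = wd σ h (-K)`, the
new value is `psi (m - d) ≤ psi (m - 1)`, the absolute difference is `≥ psi m - psi (m - 1)`.
CASE B: `zI (SC.wd σ ξ') K = zI ξ' y = false`, so the new value is `1`, the absolute difference is
`1 - psi m`. In all cases it is `≥ chi m`.
-/

set_option autoImplicit false

open MeasureTheory ProbabilityTheory Filter Topology
open scoped NNReal ENNReal

namespace Pool.MP4bb68cEx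

open Pool.MP4bb68c Pool.MP4bb68cOne Pool.MP4bb68cCl

private theorem ds_pos (a : ℤ) : (0 : ℝ) < 1 + |(a : ℝ)| := by
  have := abs_nonneg (a : ℝ)
  linarith

theorem psi_lt {a b : ℤ} (h : a < b) : psi a < psi b := by
  unfold psi
  rw [div_lt_div_iff₀ (ds_pos a) (ds_pos b)]
  have h1 : (a : ℝ) < b := by exact_mod_cast h
  rcases le_total 0 (a : ℝ) with ha | ha <;> rcases le_total 0 (b : ℝ) with hb | hb
  · rw [abs_of_nonneg ha, abs_of_nonneg hb]
    nlinarith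
  · linarith
  · rw [abs_of_nonpos ha, abs_of_nonneg hb]
    nlinarith [mul_nonneg (neg_nonneg.2 ha) hb]
  · rw [abs_of_nonpos ha, abs_of_nonpos hb]
    nlinarith

theorem psi_lt_one (a : ℤ) : psi a < 1 := by
  unfold psi
  rw [div_lt_one (ds_pos a)]
  have := le_abs_self (a : ℝ)
  linarith

theorem neg_one_lt_psi (a : ℤ) : -1 < psi a := by
  unfold psi
  rw [lt_div_iff₀ (ds_pos a)]
  have := neg_abs_le (a : ℝ)
  linarith

theorem chi_pos (m : ℤ) : 0 < chi m := by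
  have h1 := psi_lt (show m - 1 < m by omega)
  have h2 := psi_lt_one m
  have h3 := neg_one_lt_psi m
  unfold chi
  refine lt_min (by linarith) (lt_min (by linarith) (by linarith))

private theorem ds_psi_le {a b : ℤ} (h : a ≤ b) : psi a ≤ psi b := by
  rcases eq_or_lt_of_le h with h1 | h1
  · rw [h1]
  · exact (psi_lt h1).le

private theorem ds_Fd_le (K : ℕ) (ξ : ℤ → ℤ × Bool) : Fd K ξ ≤ 1 := by
  unfold Fd
  split_ifs
  · exact le_rfl
  · norm_num
  · exact (psi_lt_one _).le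

private theorem ds_le_Fd (K : ℕ) (ξ : ℤ → ℤ × Bool) : -1 ≤ Fd K ξ := by
  unfold Fd
  split_ifs
  · norm_num
  · exact le_rfl
  · exact (neg_one_lt_psi _).le

theorem Fd_abs_le (K : ℕ) (ξ : ℤ → ℤ × Bool) : |Fd K ξ| ≤ 1 :=
  abs_le.2 ⟨ds_le_Fd K ξ, ds_Fd_le K ξ⟩

private theorem ds_tel (H : ℤ → ℤ) (a : ℤ) (n : ℕ) :
    ∑ x ∈ Finset.Ico a (a + n), gr H x = H (a + n) - H a := by
  induction n with
  | zero => simp
  | succ n ih =>
    have e : Finset.Ico a (a + ((n + 1 : ℕ) : ℤ)) = insert (a + (n : ℤ)) (Finset.Ico a (a + n)) := by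
      ext x
      rw [Finset.mem_insert, Finset.mem_Ico, Finset.mem_Ico]
      push_cast
      omega
    rw [e, Finset.sum_insert (by rw [Finset.mem_Ico]; omega), ih]
    unfold gr
    push_cast
    rw [← add_assoc]
    ring

private theorem ds_mh {K : ℕ} {ξ : ℤ → ℤ × Bool} {H : ℤ → ℤ} (h : hI ξ = gr H) :
    mh K ξ = H (-(K : ℤ)) - H K := by
  unfold mh
  rw [h]
  have h1 := ds_tel H (-(K : ℤ)) (2 * K)
  have e : -(K : ℤ) + ((2 * K : ℕ) : ℤ) = K := by
    push_cast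
    ring
  rw [e] at h1
  rw [h1]
  ring

/-- The facts about the two evolutions. -/
private theorem ds_facts (ξ : ℤ → ℤ × Bool) (y : ℤ) (σ : List ℤ) :
    hI (SC.wd σ ξ) = gr (wd σ (pr (hI ξ))) ∧
    hI (SC.wd σ (SC.T y ξ)) = gr (wd σ (up1 y (pr (hI ξ)))) ∧
    (∀ x, zI (SC.wd σ ξ) x = zI ξ (anc σ (pr (hI ξ)) x)) ∧
    (∀ x, zI (SC.wd σ (SC.T y ξ)) x = zI (SC.T y ξ) (anc σ (up1 y (pr (hI ξ))) x)) := by
  have e1 : gr (pr (hI ξ)) = hI ξ := gr_pr' _
  have e2 : hI (SC.T y ξ) = gr (up1 y (pr (hI ξ))) := by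
    rw [gr_up1, e1]
    rfl
  refine ⟨?_, ?_, fun x => zI_wd σ ξ x, fun x => ?_⟩
  · rw [hI_wd, gr_wd, e1]
  · rw [hI_wd, gr_wd, e2]
  · rw [zI_wd, e2, anc_gr]

private theorem ds_zT (s : ℤ) (x : ℤ → ℤ × Bool) (y : ℤ) :
    zI (SC.T s x) y = if y = s then zI x (csI (hI x) s) else zI x y := rfl

private theorem ds_cs (η : ℤ → ℤ) (s : ℤ) : csI η s = s - 1 ∨ csI η s = s ∨ csI η s = s + 1 := by
  unfold csI
  split_ifs
  · exact Or.inr (Or.inr rfl)
  · exact Or.inr (Or.inl rfl)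
  · exact Or.inl rfl

/-- Case A: the source of the new colour is to the right. -/
private theorem ds_A {ξ : ℤ → ℤ × Bool} {X : ℤ} (hX : Up X ξ) {y : ℤ} (hy : X < y)
    (hc : X < csI (hI ξ) y) (σ : List ℤ) (x : ℤ) (hz : zI (SC.wd σ (SC.T y ξ)) x = false) :
    zI (SC.wd σ ξ) x = false ∧ wd σ (pr (hI ξ)) x = wd σ (up1 y (pr (hI ξ))) x := by
  obtain ⟨_, _, f3, f4⟩ := ds_facts ξ y σ
  rw [f4] at hz
  have h1 : ¬ X < anc σ (up1 y (pr (hI ξ))) x := by
    intro h2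
    have h3 : zI (SC.T y ξ) (anc σ (up1 y (pr (hI ξ))) x) = true := by
      rw [ds_zT]
      split_ifs
      · exact (hX _).2 hc
      · exact (hX _).2 h2
    rw [h3] at hz
    exact Bool.noConfusion hz
  have h2 : anc σ (up1 y (pr (hI ξ))) x ≠ y := by omega
  obtain ⟨h3, h4⟩ := cmp σ (le_up1 (pr (hI ξ)) y) x (up1_of_ne h2 _)
  refine ⟨?_, h4⟩
  rw [f3, h3]
  rw [ds_zT, if_neg h2] at hz
  exact hz

/-- Case B: the source of the new colour is to the left. -/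
private theorem ds_B {ξ : ℤ → ℤ × Bool} {X : ℤ} (hX : Up X ξ) {y : ℤ}
    (hc : ¬ X < csI (hI ξ) y) (σ : List ℤ) (x : ℤ) (hz : zI (SC.wd σ (SC.T y ξ)) x = true) :
    zI (SC.wd σ ξ) x = true ∧ wd σ (pr (hI ξ)) x = wd σ (up1 y (pr (hI ξ))) x := by
  obtain ⟨_, _, f3, f4⟩ := ds_facts ξ y σ
  rw [f4] at hz
  have h2 : anc σ (up1 y (pr (hI ξ))) x ≠ y := by
    intro h2
    rw [h2, ds_zT, if_pos rfl] at hz
    exact hc ((hX _).1 hz)
  obtain ⟨h3, h4⟩ := cmp σ (le_up1 (pr (hI ξ)) y) x (up1_of_ne h2 _)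
  refine ⟨?_, h4⟩
  rw [f3, h3]
  rw [ds_zT, if_neg h2] at hz
  exact hz

private theorem ds_bf {b : Bool} (h : ¬ b = true) : b = false := by
  cases b
  · rfl
  · exact absurd rfl h

private theorem ds_bt {b : Bool} (h : ¬ b = false) : b = true := by
  cases b
  · exact absurd rfl h
  · rfl

theorem diss1 (K : ℕ) {ξ : ℤ → ℤ × Bool} {X : ℤ} (hX : Up X ξ) {y : ℤ} (hy : X < y) :
    (∀ σ, Fd K (SC.wd σ (SC.T y ξ)) ≤ Fd K (SC.wd σ ξ)) ∨
      (∀ σ, Fd K (SC.wd σ ξ) ≤ Fd K (SC.wd σ (SC.T y ξ))) := by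
  by_cases hc : X < csI (hI ξ) y
  · left
    intro σ
    obtain ⟨f1, f2, _, _⟩ := ds_facts ξ y σ
    by_cases h1 : zI (SC.wd σ ξ) K = false
    · have e : Fd K (SC.wd σ ξ) = 1 := by
        unfold Fd
        rw [if_pos h1]
      rw [e]
      exact ds_Fd_le K _
    · have h2 : ¬ zI (SC.wd σ (SC.T y ξ)) K = false := fun h => h1 (ds_A hX hy hc σ K h).1
      by_cases h3 : zI (SC.wd σ (SC.T y ξ)) (-(K : ℤ)) = true
      · have e : Fd K (SC.wd σ (SC.T y ξ)) = -1 := by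
          unfold Fd
          rw [if_neg h2, if_pos h3]
        rw [e]
        exact ds_le_Fd K _
      · obtain ⟨h4, h5⟩ := ds_A hX hy hc σ (-(K : ℤ)) (ds_bf h3)
        have h6 : ¬ zI (SC.wd σ ξ) (-(K : ℤ)) = true := by
          rw [h4]
          exact fun h => Bool.noConfusion h
        unfold Fd
        rw [if_neg h2, if_neg h3, if_neg h1, if_neg h6]
        apply ds_psi_le
        rw [ds_mh f1, ds_mh f2, ← h5]
        have h7 := wd_mono σ (le_up1 (pr (hI ξ)) y) (K : ℤ)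
        linarith
  · right
    intro σ
    obtain ⟨f1, f2, _, _⟩ := ds_facts ξ y σ
    by_cases h1 : zI (SC.wd σ (SC.T y ξ)) K = false
    · have e : Fd K (SC.wd σ (SC.T y ξ)) = 1 := by
        unfold Fd
        rw [if_pos h1]
      rw [e]
      exact ds_Fd_le K _
    · obtain ⟨h4, h5⟩ := ds_B hX hc σ K (ds_bt h1)
      have h2 : ¬ zI (SC.wd σ ξ) K = false := by
        rw [h4]
        exact fun h => Bool.noConfusion h
      by_cases h3 : zI (SC.wd σ ξ) (-(K : ℤ)) = true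
      · have e : Fd K (SC.wd σ ξ) = -1 := by
          unfold Fd
          rw [if_neg h2, if_pos h3]
        rw [e]
        exact ds_le_Fd K _
      · have h6 : ¬ zI (SC.wd σ (SC.T y ξ)) (-(K : ℤ)) = true :=
          fun h => h3 (ds_B hX hc σ (-(K : ℤ)) h).1
        unfold Fd
        rw [if_neg h2, if_neg h3, if_neg h1, if_neg h6]
        apply ds_psi_le
        rw [ds_mh f1, ds_mh f2, ← h5]
        have h7 := wd_mono σ (le_up1 (pr (hI ξ)) y) (-(K : ℤ))
        linarith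

theorem diss2 (K : ℕ) {ξ : ℤ → ℤ × Bool} {X : ℤ} (hX : Up X ξ) (σ : List ℤ)
    (hm : Mid K (SC.wd σ ξ)) :
    X < anc σ (pr (hI ξ)) K ∧ chi (mh K (SC.wd σ ξ)) ≤
      |Fd K (SC.wd σ (SC.T (anc σ (pr (hI ξ)) K) ξ)) - Fd K (SC.wd σ ξ)| := by
  set y := anc σ (pr (hI ξ)) K with hy
  obtain ⟨f1, f2, f3, f4⟩ := ds_facts ξ y σ
  obtain ⟨m1, m2⟩ := hm
  have hXy : X < y := by
    rw [f3] at m1
    exact (hX _).1 m1
  refine ⟨hXy, ?_⟩
  have hFd : Fd K (SC.wd σ ξ) = psi (mh K (SC.wd σ ξ)) := by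
    unfold Fd
    rw [m1, m2]
    rfl
  rw [hFd]
  obtain ⟨r1, r2⟩ := raise σ (lt_up1_self (pr (hI ξ)) y)
    (fun z hz => up1_of_ne hz (pr (hI ξ))) hy.symm
  have hlt := lt_up1_self (pr (hI ξ)) y
  have b1 := psi_lt_one (mh K (SC.wd σ ξ))
  have b2 := neg_one_lt_psi (mh K (SC.wd σ ξ))
  have hchi1 : chi (mh K (SC.wd σ ξ)) ≤ psi (mh K (SC.wd σ ξ)) - psi (mh K (SC.wd σ ξ) - 1) :=
    min_le_left _ _
  have hchi2 : chi (mh K (SC.wd σ ξ)) ≤ psi (mh K (SC.wd σ ξ)) + 1 :=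
    (min_le_right _ _).trans (min_le_left _ _)
  have hchi3 : chi (mh K (SC.wd σ ξ)) ≤ 1 - psi (mh K (SC.wd σ ξ)) :=
    (min_le_right _ _).trans (min_le_right _ _)
  by_cases hc : X < csI (hI ξ) y
  · have h1 : zI (SC.wd σ (SC.T y ξ)) K = true := by
      rw [f4, r1, ds_zT, if_pos rfl]
      exact (hX _).2 hc
    have h2 : ¬ zI (SC.wd σ (SC.T y ξ)) K = false := by
      rw [h1]
      exact fun h => Bool.noConfusion h
    by_cases h3 : zI (SC.wd σ (SC.T y ξ)) (-(K : ℤ)) = true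
    · have e : Fd K (SC.wd σ (SC.T y ξ)) = -1 := by
        unfold Fd
        rw [if_neg h2, if_pos h3]
      rw [e, abs_sub_comm, abs_of_nonneg (by linarith)]
      linarith
    · obtain ⟨h4, h5⟩ := ds_A hX hXy hc σ (-(K : ℤ)) (ds_bf h3)
      have e : Fd K (SC.wd σ (SC.T y ξ)) = psi (mh K (SC.wd σ (SC.T y ξ))) := by
        unfold Fd
        rw [if_neg h2, if_neg h3]
      have h6 : mh K (SC.wd σ (SC.T y ξ)) ≤ mh K (SC.wd σ ξ) - 1 := by
        rw [ds_mh f1, ds_mh f2, ← h5, r2]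
        linarith
      have h7 := ds_psi_le h6
      have h8 := psi_lt (show mh K (SC.wd σ ξ) - 1 < mh K (SC.wd σ ξ) by omega)
      rw [e, abs_sub_comm, abs_of_nonneg (by linarith)]
      linarith
  · have h1 : zI (SC.wd σ (SC.T y ξ)) K = false := by
      rw [f4, r1, ds_zT, if_pos rfl]
      exact ds_bf fun h => hc ((hX _).1 h)
    have e : Fd K (SC.wd σ (SC.T y ξ)) = 1 := by
      unfold Fd
      rw [if_pos h1]
    rw [e, abs_of_nonneg (by linarith)]
    exact hchi3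

end Pool.MP4bb68cEx
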