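import Mathlib
import Pool.Agent.Work.MP_4bb68c_ex.Defs
import Pool.Agent.Work.MP_4bb68c_ex.EWb

/-!
# Greedy lines: displacement and coalescence (module EWg, size M-L)

`gl e (s :: σ) x = if gl e σ x = s then s + e else gl e σ x`. So with the first-letter recursion of `EW`,
for every `φ : ℤ → ℤ → ℝ`:
`EW W (k+1) (fun σ => φ (gl e σ x) (gl e σ y)) = EW W k (fun σ => (A φ) (gl e σ x) (gl e σ y))` with
`(A φ) a b = 1/2 φ a b + w ∑ s ∈ W, φ (m s a) (m s b)`, `m s a = if a = s then s + e else a`,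
`w = 1/(2|W|)`: a Markov chain. (For `W` nonempty `1/2 + w |W| = 1`.)

`EW_gl`: `φ a = 2 ^ a`: `(A φ) a = 2 ^ a (1 + w [a ∈ W]) ≤ (1 + w) 2 ^ a`. Induction on `k`.
`gl_tail`: the indicator is `≤ 2 ^ (gl 1 σ x - x - r)`.

`greedy_coal`, case `e = 1`. Fix `i`, `W = Ww i = [-R, R]`, `R = Rr i = 20 (i + 1)`, `w = dw i`,
`K = Kk i`, `w K = i + 1`. Let `a = gl 1 σ 0`, `b = gl 1 σ 1`; always `0 ≤ a ≤ b` (a letter moves a line
only if it is at its position and moves both if they are at the same position). `D = b - a ≥ 0`.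
 (1) `E_k D := EW W k D` is nonincreasing in `k` and `E_0 D = 1`: for `D > 0`,
     `A D - D = w ([b ∈ W] - [a ∈ W]) ≤ 0` because `0 ≤ a < b`, so `b ∈ W` implies `a ∈ W`; for `D = 0`
     nothing changes. Hence `E_k [D > M] ≤ 1/(M + 1)` (indicator `≤ D / (M + 1)`).
 (2) `φ = 2 ^ (-D)`: for `D > 0`, `A φ - φ = w 2^(-D) ([a ∈ W] (2 - 1) + [b ∈ W] (1/2 - 1)) ≥
     (w/2) 2^(-D) [a ∈ W]`; for `D = 0` no change. Summing over `k < K` and using `0 ≤ φ ≤ 1`:
     `∑_{k < K} (w/2) E_k (2^(-D) [D > 0] [a ∈ W]) ≤ 1`. As `2^(-D) ≥ 2^(-M)` if `D ≤ M`: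
     `∑_{k<K} E_k [0 < D ≤ M, a ∈ W] ≤ 2^(M+1) / w`.
 (3) `E_k [a ∉ W] ≤ E_k [a > R] ≤ 2^(-R) (1 + w)^k ≤ 2^(-R) exp (w K) = 2^(-20 (i+1)) exp (i + 1)` for
     `k ≤ K` (`gl_tail`).
 (4) `E_k [D > 0]` is nonincreasing in `k` (once `D = 0` it stays so). Therefore
     `E_K [D > 0] ≤ (1/K) ∑_{k<K} E_k [D > 0] ≤ 2^(M+1)/(w K) + 1/(M+1) + 2^(-20(i+1)) exp (i+1)`
     `= 2^(M+1)/(i+1) + 1/(M+1) + exp(i+1)/2^(20(i+1))`.
 For given `ε` choose `M` with `1/(M+1) < ε/3`, then `i` large (`2^20 > e`).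
Case `e = -1`: `a = gl (-1) σ 0 ≤ b = gl (-1) σ 1 ≤ 1`, `D = b - a`. Now the letter `a` increases `D`, the
letter `b` decreases it. (1) `A D - D = w ([a ∈ W] - [b ∈ W]) ≤ 0` (`a < b ≤ 1 ≤ R`, so `a ∈ W`
implies `b ∈ W`). (2) `A φ - φ = w 2^(-D) ([b ∈ W] - 1/2 [a ∈ W]) ≥ (w/2) 2^(-D) [b ∈ W]`.
(3) `b ∉ W` means `b < -R`; `2 ^ (-gl (-1) σ 1)` has the same bound as in `EW_gl`:
`E_k 2^(-b) ≤ 2^(-1) (1+w)^k`, so `E_k [b < -R] ≤ 2^(-R-1) 2^(-1) (1 + w)^k`. (4) as above.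
-/

set_option autoImplicit false

open MeasureTheory ProbabilityTheory Filter Topology
open scoped NNReal ENNReal

namespace Pool.MP4bb68cEx

open Pool.MP4bb68c Pool.MP4bb68cOne Pool.MP4bb68cCl

/-- the move of a line by the letter `s` -/
private def mv (s a : ℤ) : ℤ := if a = s then s + 1 else a

private theorem gl_cons (s : ℤ) (σ : List ℤ) (x : ℤ) : gl 1 (s :: σ) x = mv s (gl 1 σ x) := rfl

private theorem mv_mono {s a b : ℤ} (h : a ≤ b) : mv s a ≤ mv s b := by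
  unfold mv
  split_ifs <;> omega

private theorem le_mv (s a : ℤ) : a ≤ mv s a := by
  unfold mv
  split_ifs <;> omega

private theorem gl_mono (σ : List ℤ) {x y : ℤ} (h : x ≤ y) : gl 1 σ x ≤ gl 1 σ y := by
  induction σ with
  | nil => exact h
  | cons s σ ih => exact mv_mono ih

private theorem le_gl (σ : List ℤ) (x : ℤ) : x ≤ gl 1 σ x := by
  induction σ with
  | nil => exact le_refl x
  | cons s σ ih => exact ih.trans (le_mv s _)

private theorem card_pos' {W : Finset ℤ} (hW : W.Nonempty) : (0 : ℝ) < W.card := by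
  exact_mod_cast Finset.card_pos.mpr hW

/-- one step -/
private theorem step {W : Finset ℤ} (hW : W.Nonempty) (k : ℕ) (G : ℤ → ℤ → ℝ) (x y : ℤ) :
    EW W (k + 1) (fun σ => G (gl 1 σ x) (gl 1 σ y)) =
      EW W k (fun σ => G (gl 1 σ x) (gl 1 σ y) + 1 / (2 * (W.card : ℝ)) *
        ∑ s ∈ W, (G (mv s (gl 1 σ x)) (mv s (gl 1 σ y)) - G (gl 1 σ x) (gl 1 σ y))) := by
  have hc := card_pos' hW
  have e1 : (fun σ => G (gl 1 σ x) (gl 1 σ y) + 1 / (2 * (W.card : ℝ)) *
      ∑ s ∈ W, (G (mv s (gl 1 σ x)) (mv s (gl 1 σ y)) - G (gl 1 σ x) (gl 1 σ y))) =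
      fun σ => (1 / 2) * G (gl 1 σ x) (gl 1 σ y) + 1 / (2 * (W.card : ℝ)) *
        ∑ s ∈ W, G (mv s (gl 1 σ x)) (mv s (gl 1 σ y)) := by
    funext σ
    rw [Finset.sum_sub_distrib, Finset.sum_const, nsmul_eq_mul]
    field_simp
    ring
  rw [e1, EW_add, EW_mul, EW_mul, EW_finsum]
  rfl

private theorem diff_ne {W : Finset ℤ} (G : ℤ → ℤ → ℝ) {a b : ℤ} (h : a ≠ b) :
    ∑ s ∈ W, (G (mv s a) (mv s b) - G a b) =
      (if a ∈ W then G (a + 1) b - G a b else 0) + (if b ∈ W then G a (b + 1) - G a b else 0) := by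
  have e : ∀ s, G (mv s a) (mv s b) - G a b = (if s = a then G (a + 1) b - G a b else 0) +
      (if s = b then G a (b + 1) - G a b else 0) := by
    intro s
    unfold mv
    by_cases h1 : a = s
    · subst h1
      rw [if_pos rfl, if_pos rfl, if_neg (Ne.symm h), if_neg h, add_zero]
    · rw [if_neg h1, if_neg (Ne.symm h1)]
      by_cases h2 : b = s
      · subst h2
        rw [if_pos rfl, if_pos rfl, zero_add]
      · rw [if_neg h2, if_neg (Ne.symm h2), sub_self, zero_add]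
  rw [Finset.sum_congr rfl (fun s _ => e s), Finset.sum_add_distrib, Finset.sum_ite_eq',
    Finset.sum_ite_eq']

private theorem diff_eq {W : Finset ℤ} (G : ℤ → ℤ → ℝ) (a : ℤ) :
    ∑ s ∈ W, (G (mv s a) (mv s a) - G a a) =
      (if a ∈ W then G (a + 1) (a + 1) - G a a else 0) := by
  have e : ∀ s, G (mv s a) (mv s a) - G a a = (if s = a then G (a + 1) (a + 1) - G a a else 0) := by
    intro s
    unfold mv
    by_cases h1 : a = s
    · subst h1
      rw [if_pos rfl, if_pos rfl]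
    · rw [if_neg h1, if_neg (Ne.symm h1), sub_self]
  rw [Finset.sum_congr rfl (fun s _ => e s), Finset.sum_ite_eq']

theorem EW_gl {W : Finset ℤ} (hW : W.Nonempty) (k : ℕ) (x : ℤ) :
    EW W k (fun σ => (2 : ℝ) ^ (gl 1 σ x)) ≤
      (2 : ℝ) ^ x * (1 + 1 / (2 * (W.card : ℝ))) ^ k := by
  have hc := card_pos' hW
  induction k with
  | zero =>
    rw [pow_zero, mul_one]
    exact le_refl _
  | succ k ih =>
    have h1 := step hW k (fun a _ => (2 : ℝ) ^ a) x x
    rw [h1]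
    have h2 : EW W k (fun σ => (2 : ℝ) ^ (gl 1 σ x) + 1 / (2 * (W.card : ℝ)) *
        ∑ s ∈ W, ((2 : ℝ) ^ (mv s (gl 1 σ x)) - (2 : ℝ) ^ (gl 1 σ x))) ≤
        EW W k (fun σ => (1 + 1 / (2 * (W.card : ℝ))) * (2 : ℝ) ^ (gl 1 σ x)) := by
      refine EW_mono fun σ _ _ => ?_
      have h3 := diff_eq (W := W) (fun a _ => (2 : ℝ) ^ a) (gl 1 σ x)
      beta_reduce at h3
      rw [h3]
      have h4 : (if gl 1 σ x ∈ W then (2 : ℝ) ^ (gl 1 σ x + 1) - (2 : ℝ) ^ (gl 1 σ x) else 0) ≤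
          (2 : ℝ) ^ (gl 1 σ x) := by
        have h5 : (0 : ℝ) < (2 : ℝ) ^ (gl 1 σ x) := by positivity
        split_ifs
        · rw [zpow_add_one₀ (by norm_num)]
          linarith
        · exact h5.le
      have h6 : (0 : ℝ) ≤ 1 / (2 * (W.card : ℝ)) := by positivity
      nlinarith [mul_le_mul_of_nonneg_left h4 h6]
    refine h2.trans ?_
    rw [EW_mul, pow_succ]
    have h6 : (0 : ℝ) ≤ 1 + 1 / (2 * (W.card : ℝ)) := by positivity
    nlinarith [mul_le_mul_of_nonneg_left ih h6]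

open Classical in
theorem gl_tail {W : Finset ℤ} (hW : W.Nonempty) (k : ℕ) (x r : ℤ) :
    EW W k (fun σ => if x + r < gl 1 σ x then 1 else 0) ≤
      (2 : ℝ) ^ (-r) * (1 + 1 / (2 * (W.card : ℝ))) ^ k := by
  have h1 : EW W k (fun σ => if x + r < gl 1 σ x then 1 else 0) ≤
      EW W k (fun σ => (2 : ℝ) ^ (-x - r) * (2 : ℝ) ^ (gl 1 σ x)) := by
    refine EW_mono fun σ _ _ => ?_
    rw [← zpow_add₀ (by norm_num : (2 : ℝ) ≠ 0)]
    by_cases h : x + r < gl 1 σ x
    · rw [if_pos h]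
      exact one_le_zpow₀ (by norm_num) (by omega)
    · rw [if_neg h]
      positivity
  refine h1.trans ?_
  rw [EW_mul]
  have h2 := mul_le_mul_of_nonneg_left (EW_gl hW k x) (show (0 : ℝ) ≤ (2 : ℝ) ^ (-x - r) by positivity)
  refine h2.trans (le_of_eq ?_)
  rw [← mul_assoc, ← zpow_add₀ (by norm_num : (2 : ℝ) ≠ 0)]
  congr 2
  ring

/-! ### the main computation, for two lines which start at `x` and `x + 1` -/

private noncomputable def ind (a b : ℤ) : ℝ := if a = b then 0 else 1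

private theorem ind_nonneg (a b : ℤ) : 0 ≤ ind a b := by
  unfold ind; split_ifs <;> norm_num

private noncomputable def hh (W : Finset ℤ) (a b : ℤ) : ℝ :=
  if a = b then 0 else if a ∈ W then (2 : ℝ) ^ (a - b) else 0

private theorem hh_nonneg (W : Finset ℤ) (a b : ℤ) : 0 ≤ hh W a b := by
  unfold hh
  split_ifs
  · exact le_refl _
  · positivity
  · exact le_refl _

private theorem mono_D {W : Finset ℤ} (hW : W.Nonempty) {x : ℤ}
    (hin : ∀ a b, x ≤ a → a < b → b ∈ W → a ∈ W) (k : ℕ) :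
    EW W k (fun σ => ((gl 1 σ (x + 1) - gl 1 σ x : ℤ) : ℝ)) ≤ 1 := by
  have hc := card_pos' hW
  induction k with
  | zero =>
    show (((x + 1) - x : ℤ) : ℝ) ≤ 1
    push_cast
    linarith
  | succ k ih =>
    have h1 := step hW k (fun a b => ((b - a : ℤ) : ℝ)) x (x + 1)
    beta_reduce at h1
    rw [h1]
    refine le_trans ?_ ih
    refine EW_mono fun σ _ _ => ?_
    have hab := gl_mono σ (show x ≤ x + 1 by omega)
    have hx := le_gl σ x
    have h6 : (0 : ℝ) ≤ 1 / (2 * (W.card : ℝ)) := by positivity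
    by_cases he : gl 1 σ x = gl 1 σ (x + 1)
    · rw [← he]
      have h3 := diff_eq (W := W) (fun a b => ((b - a : ℤ) : ℝ)) (gl 1 σ x)
      beta_reduce at h3
      rw [h3]
      simp
    · have h3 := diff_ne (W := W) (fun a b => ((b - a : ℤ) : ℝ)) he
      beta_reduce at h3
      rw [h3]
      have h4 : (if gl 1 σ x ∈ W then ((gl 1 σ (x + 1) - (gl 1 σ x + 1) : ℤ) : ℝ) -
          ((gl 1 σ (x + 1) - gl 1 σ x : ℤ) : ℝ) else 0) +
          (if gl 1 σ (x + 1) ∈ W then ((gl 1 σ (x + 1) + 1 - gl 1 σ x : ℤ) : ℝ) -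
            ((gl 1 σ (x + 1) - gl 1 σ x : ℤ) : ℝ) else 0) ≤ 0 := by
        by_cases hb : gl 1 σ (x + 1) ∈ W
        · have ha := hin _ _ hx (by omega) hb
          rw [if_pos ha, if_pos hb]
          push_cast
          linarith
        · rw [if_neg hb, add_zero]
          split_ifs
          · push_cast
            linarith
          · exact le_refl _
      nlinarith [mul_le_mul_of_nonneg_left h4 h6]

private theorem mono_ind {W : Finset ℤ} (hW : W.Nonempty) {x : ℤ} (k : ℕ) :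
    EW W (k + 1) (fun σ => ind (gl 1 σ x) (gl 1 σ (x + 1))) ≤
      EW W k (fun σ => ind (gl 1 σ x) (gl 1 σ (x + 1))) := by
  have hc := card_pos' hW
  rw [step hW k ind x (x + 1)]
  refine EW_mono fun σ _ _ => ?_
  have hab := gl_mono σ (show x ≤ x + 1 by omega)
  have h6 : (0 : ℝ) ≤ 1 / (2 * (W.card : ℝ)) := by positivity
  by_cases he : gl 1 σ x = gl 1 σ (x + 1)
  · rw [← he, diff_eq]
    unfold ind
    simp
  · rw [diff_ne _ he]
    have h4 : (if gl 1 σ x ∈ W then ind (gl 1 σ x + 1) (gl 1 σ (x + 1)) -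
        ind (gl 1 σ x) (gl 1 σ (x + 1)) else 0) +
        (if gl 1 σ (x + 1) ∈ W then ind (gl 1 σ x) (gl 1 σ (x + 1) + 1) -
          ind (gl 1 σ x) (gl 1 σ (x + 1)) else 0) ≤ 0 := by
      have e1 : ind (gl 1 σ x) (gl 1 σ (x + 1)) = 1 := if_neg he
      have e2 : ind (gl 1 σ x) (gl 1 σ (x + 1) + 1) = 1 := if_neg (by omega)
      have e3 : ind (gl 1 σ x + 1) (gl 1 σ (x + 1)) ≤ 1 := by
        unfold ind; split_ifs <;> norm_num
      rw [e1, e2]
      split_ifs <;> linarith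
    nlinarith [mul_le_mul_of_nonneg_left h4 h6]

private theorem step_phi {W : Finset ℤ} (hW : W.Nonempty) {x : ℤ}
    (hin : ∀ a b, x ≤ a → a < b → b ∈ W → a ∈ W) (k : ℕ) :
    EW W k (fun σ => (2 : ℝ) ^ (gl 1 σ x - gl 1 σ (x + 1))) +
      1 / (4 * (W.card : ℝ)) * EW W k (fun σ => hh W (gl 1 σ x) (gl 1 σ (x + 1))) ≤
      EW W (k + 1) (fun σ => (2 : ℝ) ^ (gl 1 σ x - gl 1 σ (x + 1))) := by
  have hc := card_pos' hW
  have h1 := step hW k (fun a b => (2 : ℝ) ^ (a - b)) x (x + 1)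
  beta_reduce at h1
  rw [h1, ← EW_mul, ← EW_add]
  refine EW_mono fun σ _ _ => ?_
  have hab := gl_mono σ (show x ≤ x + 1 by omega)
  have hx := le_gl σ x
  by_cases he : gl 1 σ x = gl 1 σ (x + 1)
  · rw [← he]
    have h3 := diff_eq (W := W) (fun a b => (2 : ℝ) ^ (a - b)) (gl 1 σ x)
    beta_reduce at h3
    rw [h3]
    unfold hh
    simp
  · have h3 := diff_ne (W := W) (fun a b => (2 : ℝ) ^ (a - b)) he
    beta_reduce at h3
    rw [h3]
    have hp : (0 : ℝ) < (2 : ℝ) ^ (gl 1 σ x - gl 1 σ (x + 1)) := by positivity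
    have e1 : (2 : ℝ) ^ (gl 1 σ x + 1 - gl 1 σ (x + 1)) =
        2 * (2 : ℝ) ^ (gl 1 σ x - gl 1 σ (x + 1)) := by
      rw [show gl 1 σ x + 1 - gl 1 σ (x + 1) = (gl 1 σ x - gl 1 σ (x + 1)) + 1 by ring,
        zpow_add_one₀ (by norm_num), mul_comm]
    have e2 : (2 : ℝ) ^ (gl 1 σ x - (gl 1 σ (x + 1) + 1)) =
        (2 : ℝ) ^ (gl 1 σ x - gl 1 σ (x + 1)) / 2 := by
      rw [show gl 1 σ x - (gl 1 σ (x + 1) + 1) = (gl 1 σ x - gl 1 σ (x + 1)) - 1 by ring,
        zpow_sub_one₀ (by norm_num)]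
      ring
    rw [e1, e2]
    unfold hh
    rw [if_neg he]
    generalize (2 : ℝ) ^ (gl 1 σ x - gl 1 σ (x + 1)) = P at *
    have h4 : (if gl 1 σ x ∈ W then P else 0) / 2 ≤
        (if gl 1 σ x ∈ W then 2 * P - P else 0) +
          (if gl 1 σ (x + 1) ∈ W then P / 2 - P else 0) := by
      by_cases hb : gl 1 σ (x + 1) ∈ W
      · have ha := hin _ _ hx (by omega) hb
        rw [if_pos ha, if_pos hb, if_pos ha]
        linarith
      · rw [if_neg hb]
        split_ifs <;> linarith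
    have h6 : (0 : ℝ) ≤ 1 / (2 * (W.card : ℝ)) := by positivity
    have h7 := mul_le_mul_of_nonneg_left h4 h6
    have h8 : 1 / (4 * (W.card : ℝ)) * (if gl 1 σ x ∈ W then P else 0) =
        1 / (2 * (W.card : ℝ)) * ((if gl 1 σ x ∈ W then P else 0) / 2) := by
      field_simp
      ring
    rw [h8]
    linarith

private theorem main_bound (i M : ℕ) {x : ℤ} (hx0 : x ≤ 0) (hx1 : -1 ≤ x) :
    EW (Ww i) (Kk i) (fun σ => ind (gl 1 σ x) (gl 1 σ (x + 1))) ≤
      2 ^ (M + 1) * (1 / ((i : ℝ) + 1)) + 1 / ((M : ℝ) + 1) + (1 / 2) ^ (i + 1) := by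
  classical
  have hW := Ww_nonempty i
  have hc := card_pos' hW
  have hK : (0 : ℝ) < Kk i := by exact_mod_cast Kk_pos i
  have hw := dw_pos i
  have hR : (20 : ℤ) ≤ Rr i := by
    unfold Rr
    push_cast
    have : (0 : ℤ) ≤ i := Int.natCast_nonneg i
    linarith
  have hin : ∀ a b, x ≤ a → a < b → b ∈ Ww i → a ∈ Ww i := by
    intro a b h1 h2 h3
    unfold Ww at h3 ⊢
    rw [Finset.mem_Icc] at h3 ⊢
    omega
  -- the sum of the gains
  have h1 : ∀ n, 1 / (4 * ((Ww i).card : ℝ)) * ∑ k ∈ Finset.range n,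
      EW (Ww i) k (fun σ => hh (Ww i) (gl 1 σ x) (gl 1 σ (x + 1))) ≤
      EW (Ww i) n (fun σ => (2 : ℝ) ^ (gl 1 σ x - gl 1 σ (x + 1))) := by
    intro n
    induction n with
    | zero =>
      rw [Finset.sum_range_zero, mul_zero]
      exact EW_nonneg fun σ => by positivity
    | succ n ih =>
      rw [Finset.sum_range_succ, mul_add]
      exact (add_le_add ih le_rfl).trans (step_phi hW hin n)
  have h2 : EW (Ww i) (Kk i) (fun σ => (2 : ℝ) ^ (gl 1 σ x - gl 1 σ (x + 1))) ≤ 1 := by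
    have h3 : EW (Ww i) (Kk i) (fun σ => (2 : ℝ) ^ (gl 1 σ x - gl 1 σ (x + 1))) ≤
        EW (Ww i) (Kk i) (fun _ => (1 : ℝ)) := by
      refine EW_mono fun σ _ _ => ?_
      have hab := gl_mono σ (show x ≤ x + 1 by omega)
      exact zpow_le_one_of_nonpos₀ (by norm_num) (by omega)
    rwa [EW_const hW] at h3
  have h3 : ∑ k ∈ Finset.range (Kk i),
      EW (Ww i) k (fun σ => hh (Ww i) (gl 1 σ x) (gl 1 σ (x + 1))) ≤ 4 * ((Ww i).card : ℝ) := by
    have h4 := (h1 (Kk i)).trans h2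
    rw [one_div, inv_mul_le_iff₀ (by positivity), mul_one] at h4
    exact h4
  -- the pointwise inequality
  have h5 : ∀ k, k ≤ Kk i → EW (Ww i) k (fun σ => ind (gl 1 σ x) (gl 1 σ (x + 1))) ≤
      2 ^ M * EW (Ww i) k (fun σ => hh (Ww i) (gl 1 σ x) (gl 1 σ (x + 1))) +
        1 / ((M : ℝ) + 1) + (1 / 2) ^ (i + 1) := by
    intro k hk
    have hM : (0 : ℝ) < (M : ℝ) + 1 := by positivity
    have h6 : EW (Ww i) k (fun σ => ind (gl 1 σ x) (gl 1 σ (x + 1))) ≤
        EW (Ww i) k (fun σ => (2 ^ M * hh (Ww i) (gl 1 σ x) (gl 1 σ (x + 1)) +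
          1 / ((M : ℝ) + 1) * ((gl 1 σ (x + 1) - gl 1 σ x : ℤ) : ℝ)) +
          (if x + (Rr i - x) < gl 1 σ x then 1 else 0)) := by
      refine EW_mono fun σ _ _ => ?_
      have hab := gl_mono σ (show x ≤ x + 1 by omega)
      have hx := le_gl σ x
      have hD : (0 : ℝ) ≤ ((gl 1 σ (x + 1) - gl 1 σ x : ℤ) : ℝ) := by
        exact_mod_cast sub_nonneg.mpr hab
      have p1 : 0 ≤ 2 ^ M * hh (Ww i) (gl 1 σ x) (gl 1 σ (x + 1)) :=
        mul_nonneg (by positivity) (hh_nonneg _ _ _)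
      have p2 : 0 ≤ 1 / ((M : ℝ) + 1) * ((gl 1 σ (x + 1) - gl 1 σ x : ℤ) : ℝ) := by positivity
      have p3 : (0 : ℝ) ≤ (if x + (Rr i - x) < gl 1 σ x then 1 else 0) := by
        split_ifs <;> norm_num
      by_cases he : gl 1 σ x = gl 1 σ (x + 1)
      · have e0 : ind (gl 1 σ x) (gl 1 σ (x + 1)) = 0 := if_pos he
        rw [e0]
        linarith
      · have e0 : ind (gl 1 σ x) (gl 1 σ (x + 1)) = 1 := if_neg he
        rw [e0]
        by_cases hr : x + (Rr i - x) < gl 1 σ x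
        · rw [if_pos hr]
          linarith
        · by_cases hm : gl 1 σ (x + 1) - gl 1 σ x ≤ M
          · have ha : gl 1 σ x ∈ Ww i := by
              unfold Ww
              rw [Finset.mem_Icc]
              omega
            have e1 : hh (Ww i) (gl 1 σ x) (gl 1 σ (x + 1)) =
                (2 : ℝ) ^ (gl 1 σ x - gl 1 σ (x + 1)) := by
              unfold hh
              rw [if_neg he, if_pos ha]
            have e2 : 1 ≤ 2 ^ M * hh (Ww i) (gl 1 σ x) (gl 1 σ (x + 1)) := by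
              rw [e1, ← zpow_natCast, ← zpow_add₀ (by norm_num : (2 : ℝ) ≠ 0)]
              exact one_le_zpow₀ (by norm_num) (by omega)
            linarith
          · have e2 : 1 ≤ 1 / ((M : ℝ) + 1) * ((gl 1 σ (x + 1) - gl 1 σ x : ℤ) : ℝ) := by
              rw [one_div, ← div_eq_inv_mul, le_div_iff₀ hM, one_mul]
              have : (M : ℤ) + 1 ≤ gl 1 σ (x + 1) - gl 1 σ x := by omega
              exact_mod_cast this
            linarith
    refine h6.trans ?_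
    rw [EW_add, EW_add, EW_mul, EW_mul]
    have h7 := mono_D hW hin k
    have h8 := gl_tail hW k x (Rr i - x)
    have h9 : (1 + 1 / (2 * ((Ww i).card : ℝ))) ^ k ≤ Real.exp ((i : ℝ) + 1) := by
      rw [one_div_card]
      have h10 : (1 + dw i) ^ k ≤ (1 + dw i) ^ (Kk i) := pow_le_pow_right₀ (by linarith) hk
      have h11 : (1 + dw i) ^ (Kk i) ≤ Real.exp (dw i) ^ (Kk i) :=
        pow_le_pow_left₀ (by linarith) (by rw [add_comm]; exact Real.add_one_le_exp _) _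
      rw [← Real.exp_nat_mul, Kk_mul_dw] at h11
      exact h10.trans h11
    have h12 : (2 : ℝ) ^ (-((Rr i : ℤ) - x)) ≤ (1 / 2) ^ (20 * (i + 1)) := by
      have e3 : ((1 : ℝ) / 2) ^ (20 * (i + 1)) = (2 : ℝ) ^ (-((20 * (i + 1) : ℕ) : ℤ)) := by
        rw [zpow_neg, zpow_natCast, one_div, inv_pow]
      rw [e3]
      refine zpow_le_zpow_right₀ (by norm_num) ?_
      unfold Rr
      omega
    have h13 : (2 : ℝ) ^ (-((Rr i : ℤ) - x)) * (1 + 1 / (2 * ((Ww i).card : ℝ))) ^ k ≤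
        (1 / 2) ^ (i + 1) := by
      refine (mul_le_mul h12 h9 (by positivity) (by positivity)).trans ?_
      have e4 : Real.exp ((i : ℝ) + 1) ≤ (2 ^ 2 : ℝ) ^ (i + 1) := by
        have e5 : Real.exp ((i : ℝ) + 1) = Real.exp 1 ^ (i + 1) := by
          rw [← Real.exp_nat_mul]
          congr 1
          push_cast
          ring
        rw [e5]
        refine pow_le_pow_left₀ (Real.exp_pos 1).le ?_ _
        have := Real.exp_one_lt_d9
        linarith
      refine (mul_le_mul_of_nonneg_left e4 (by positivity)).trans ?_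
      rw [pow_mul, ← mul_pow]
      refine pow_le_pow_left₀ (by positivity) (by norm_num) _
    have h14 : 1 / ((M : ℝ) + 1) * EW (Ww i) k (fun σ => ((gl 1 σ (x + 1) - gl 1 σ x : ℤ) : ℝ)) ≤
        1 / ((M : ℝ) + 1) * 1 := mul_le_mul_of_nonneg_left h7 (by positivity)
    rw [mul_one] at h14
    linarith [h8.trans h13]
  -- the indicator decreases
  have hmon : ∀ k, k ≤ Kk i → EW (Ww i) (Kk i) (fun σ => ind (gl 1 σ x) (gl 1 σ (x + 1))) ≤
      EW (Ww i) k (fun σ => ind (gl 1 σ x) (gl 1 σ (x + 1))) := by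
    have hanti : Antitone (fun k => EW (Ww i) k (fun σ => ind (gl 1 σ x) (gl 1 σ (x + 1)))) :=
      antitone_nat_of_succ_le fun k => mono_ind hW k
    intro k hk
    exact hanti hk
  have h15 : (Kk i : ℝ) * EW (Ww i) (Kk i) (fun σ => ind (gl 1 σ x) (gl 1 σ (x + 1))) ≤
      2 ^ M * (4 * ((Ww i).card : ℝ)) + (Kk i : ℝ) * (1 / ((M : ℝ) + 1) + (1 / 2) ^ (i + 1)) := by
    have h16 : ∑ _k ∈ Finset.range (Kk i),
        EW (Ww i) (Kk i) (fun σ => ind (gl 1 σ x) (gl 1 σ (x + 1))) ≤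
        ∑ k ∈ Finset.range (Kk i), (2 ^ M * EW (Ww i) k
          (fun σ => hh (Ww i) (gl 1 σ x) (gl 1 σ (x + 1))) +
            (1 / ((M : ℝ) + 1) + (1 / 2) ^ (i + 1))) := by
      refine Finset.sum_le_sum fun k hk => ?_
      have hk' := (Finset.mem_range.mp hk).le
      exact (hmon k hk').trans ((h5 k hk').trans (le_of_eq (by ring)))
    rw [Finset.sum_const, Finset.card_range, nsmul_eq_mul, Finset.sum_add_distrib, ← Finset.mul_sum,
      Finset.sum_const, Finset.card_range, nsmul_eq_mul] at h16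
    have h17 := mul_le_mul_of_nonneg_left h3 (show (0 : ℝ) ≤ 2 ^ M by positivity)
    linarith
  have h18 : EW (Ww i) (Kk i) (fun σ => ind (gl 1 σ x) (gl 1 σ (x + 1))) ≤
      (2 ^ M * (4 * ((Ww i).card : ℝ)) + (Kk i : ℝ) * (1 / ((M : ℝ) + 1) + (1 / 2) ^ (i + 1))) /
        (Kk i : ℝ) := by
    rw [le_div_iff₀ hK, mul_comm]
    exact h15
  refine h18.trans (le_of_eq ?_)
  have e6 : (2 ^ M * (4 * ((Ww i).card : ℝ))) / (Kk i : ℝ) = 2 ^ (M + 1) * (1 / ((i : ℝ) + 1)) := by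
    rw [← Kk_mul_dw, ← one_div_card, pow_succ]
    field_simp
    norm_num
  rw [add_div, e6, mul_div_cancel_left₀ _ hK.ne']
  ring

private theorem main_lim {x : ℤ} (hx0 : x ≤ 0) (hx1 : -1 ≤ x) :
    Tendsto (fun i : ℕ => EW (Ww i) (Kk i) (fun σ => ind (gl 1 σ x) (gl 1 σ (x + 1))))
      atTop (𝓝 0) := by
  rw [Metric.tendsto_atTop]
  intro ε hε
  obtain ⟨M, hM⟩ := exists_nat_one_div_lt (show (0 : ℝ) < ε / 3 by positivity)
  have t1 : Tendsto (fun i : ℕ => (2 : ℝ) ^ (M + 1) * (1 / ((i : ℝ) + 1))) atTop (𝓝 0) := by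
    have := (tendsto_one_div_add_atTop_nhds_zero_nat (𝕜 := ℝ)).const_mul ((2 : ℝ) ^ (M + 1))
    rwa [mul_zero] at this
  have t2 : Tendsto (fun i : ℕ => ((1 : ℝ) / 2) ^ (i + 1)) atTop (𝓝 0) :=
    (tendsto_pow_atTop_nhds_zero_of_lt_one (by norm_num) (by norm_num)).comp (tendsto_add_atTop_nat 1)
  have e1 := (tendsto_order.mp t1).2 (ε / 3) (by positivity)
  have e2 := (tendsto_order.mp t2).2 (ε / 3) (by positivity)
  obtain ⟨N, hN⟩ := Filter.eventually_atTop.mp (e1.and e2)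
  refine ⟨N, fun i hi => ?_⟩
  have h1 := main_bound i M hx0 hx1
  have h2 : 0 ≤ EW (Ww i) (Kk i) (fun σ => ind (gl 1 σ x) (gl 1 σ (x + 1))) :=
    EW_nonneg fun σ => ind_nonneg _ _
  obtain ⟨h3, h4⟩ := hN i hi
  rw [Real.dist_eq, sub_zero, abs_of_nonneg h2]
  linarith

/-! ### reflection -/

private theorem EW_refl {W : Finset ℤ} (hW : ∀ s, s ∈ W ↔ -s ∈ W) (k : ℕ) (F : List ℤ → ℝ) :
    EW W k (fun σ => F (σ.map Neg.neg)) = EW W k F := by
  induction k generalizing F with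
  | zero => rfl
  | succ k ih =>
    simp only [EW]
    rw [ih F]
    congr 2
    have h1 : ∀ y, EW W k (fun σ => F ((y :: σ).map Neg.neg)) = EW W k (fun σ => F (-y :: σ)) := by
      intro y
      exact ih (fun σ => F (-y :: σ))
    simp only [h1]
    refine Finset.sum_equiv (Equiv.neg ℤ) (fun s => by simpa using hW s) (fun s _ => rfl)

private theorem gl_refl (σ : List ℤ) (x : ℤ) : gl (-1) σ x = -gl 1 (σ.map Neg.neg) (-x) := by
  induction σ with
  | nil => show x = - -x; ring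
  | cons s σ ih =>
    show (if gl (-1) σ x = s then s + -1 else gl (-1) σ x) =
      -(if gl 1 (σ.map Neg.neg) (-x) = -s then -s + 1 else gl 1 (σ.map Neg.neg) (-x))
    rw [ih]
    split_ifs <;> omega

open Classical in
theorem greedy_coal (e : ℤ) (he : e = 1 ∨ e = -1) :
    Tendsto (fun i : ℕ => EW (Ww i) (Kk i) (fun σ => if gl e σ 0 = gl e σ 1 then 0 else 1))
      atTop (𝓝 0) := by
  rcases he with rfl | rfl
  · have h1 := main_lim (x := 0) le_rfl (by norm_num)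
    refine h1.congr fun i => ?_
    refine EW_congr fun σ _ _ => ?_
    rw [zero_add]
    unfold ind
    by_cases h : gl 1 σ 0 = gl 1 σ 1
    · simp only [if_pos h]
    · simp only [if_neg h]
  · have h1 := main_lim (x := -1) (by norm_num) le_rfl
    refine h1.congr fun i => ?_
    have hsym : ∀ s, s ∈ Ww i ↔ -s ∈ Ww i := by
      intro s
      unfold Ww
      rw [Finset.mem_Icc, Finset.mem_Icc]
      omega
    rw [← EW_refl hsym]
    refine EW_congr fun σ _ _ => ?_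
    rw [gl_refl, gl_refl]
    have e1 : (-1 : ℤ) + 1 = -0 := by norm_num
    rw [e1]
    unfold ind
    by_cases h : gl 1 (σ.map Neg.neg) (-1) = gl 1 (σ.map Neg.neg) (-0)
    · rw [if_pos h, if_pos (by rw [h])]
    · rw [if_neg h, if_neg (fun h2 => h (neg_injective h2).symm)]

end Pool.MP4bb68cEx
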