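import Mathlib
import Pool.Agent.Work.MP_4bb68c_ex.Defs
import Pool.Agent.Work.MP_4bb68c_ex.Anc
import Pool.Agent.Work.MP_4bb68c_ex.AncCmp

/-!
# Greedy lines (module Greedy, size M)

`gl e σ x`: backwards in time the line from `x` moves by `e` at each update of its position.

`gl_snoc`: induction on `σ`, as for `anc_snoc`.

`anc_le_gl`, `gl_le_anc`: induction on the word from its END. At the new last letter `s` the new
ancestor of `s` is `a c` with `c = cs (wd σ h) s ≤ s + 1`, so `a c ≤ a (s + 1) ≤ gl 1 σ (s + 1)`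
(`anc_mono`, induction hypothesis), which is the new greedy position. Mirror image for `e = -1`.

`right_ge`: if `x ≤ y` and `anc σ h y ≤ gl 1 σ x` then `wd σ h x ≥ wd σ h y - σ.length`. Induction on
the word from its END, for all `x, y`. Write `H = wd σ h`, `g = gl 1 σ`, `a = anc σ h`, `N` the length
of `σ`, `s` the new last letter, `c = cs H s`. `σ = []`: `x = y`. Step: `x = y` trivial. `x, y ≠ s`:
induction hypothesis. `x = s < y`: `g_new s = g (s + 1) ≥ a y`, `s + 1 ≤ y`, so
`H (s + 1) ≥ H y - N`, and `H_new s ≥ H (s + 1)` (`cand_le`). `x < s = y`: `g x ≥ a_new s = a c`,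
`x ≤ s - 1 ≤ c`, so `H x ≥ H c - N`, and `H_new s = H c + [c = s] ≤ H c + 1`.

`left_ge`: the mirror image (`y ≤ x`, `gl (-1) σ x ≤ anc σ h y`): `x = s > y`: `g_new s = g (s - 1) ≤ a y`,
`y ≤ s - 1`, `H_new s ≥ H (s - 1)`. `y = s < x`: `g x ≤ a c`, `c ≤ s + 1 ≤ x`.

`diff_le_length`: `right_ge` with `x = 0`, `y = 1`: `anc σ h 1 ≤ gl 1 σ 1 = gl 1 σ 0`.
`diff_ge_length`: `left_ge` with `x = 1`, `y = 0`: `gl (-1) σ 1 = gl (-1) σ 0 ≤ anc σ h 0`.
-/

set_option autoImplicit false

open MeasureTheory ProbabilityTheory Filter Topology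
open scoped NNReal ENNReal

namespace Pool.MP4bb68cEx

open Pool.MP4bb68c Pool.MP4bb68cOne Pool.MP4bb68cCl

theorem gl_snoc (e : ℤ) (σ : List ℤ) (s x : ℤ) :
    gl e (σ ++ [s]) x = if x = s then gl e σ (s + e) else gl e σ x := by
  induction σ with
  | nil => rfl
  | cons t σ ih =>
    have e1 : gl e (t :: σ ++ [s]) x =
        if gl e (σ ++ [s]) x = t then t + e else gl e (σ ++ [s]) x := rfl
    have e2 : ∀ z, gl e (t :: σ) z = if gl e σ z = t then t + e else gl e σ z := fun z => rfl
    rw [e1, ih, e2, e2]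
    by_cases h : x = s
    · rw [if_pos h, if_pos h]
    · rw [if_neg h, if_neg h]

theorem anc_le_gl (σ : List ℤ) (h : ℤ → ℤ) (x : ℤ) : anc σ h x ≤ gl 1 σ x := by
  induction σ using List.reverseRecOn generalizing x with
  | nil => exact le_refl _
  | append_singleton σ s ih =>
    rw [anc_snoc, gl_snoc]
    by_cases hx : x = s
    · rw [if_pos hx, if_pos hx]
      refine (anc_mono σ h ?_).trans (ih (s + 1))
      rcases cs_cases (wd σ h) s with h1 | h1 | h1 <;> omega
    · rw [if_neg hx, if_neg hx]
      exact ih x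

theorem gl_le_anc (σ : List ℤ) (h : ℤ → ℤ) (x : ℤ) : gl (-1) σ x ≤ anc σ h x := by
  induction σ using List.reverseRecOn generalizing x with
  | nil => exact le_refl _
  | append_singleton σ s ih =>
    rw [anc_snoc, gl_snoc]
    by_cases hx : x = s
    · rw [if_pos hx, if_pos hx]
      refine (ih (s + -1)).trans (anc_mono σ h ?_)
      rcases cs_cases (wd σ h) s with h1 | h1 | h1 <;> omega
    · rw [if_neg hx, if_neg hx]
      exact ih x

theorem right_ge (σ : List ℤ) (h : ℤ → ℤ) {x y : ℤ} (hxy : x ≤ y) (ha : anc σ h y ≤ gl 1 σ x) :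
    wd σ h y - σ.length ≤ wd σ h x := by
  induction σ using List.reverseRecOn generalizing x y with
  | nil =>
    have h1 : y ≤ x := ha
    have h2 : x = y := le_antisymm hxy h1
    rw [h2]
    simp
  | append_singleton σ s ih =>
    rw [anc_snoc, gl_snoc] at ha
    rw [wd_snoc, List.length_append, List.length_singleton]
    push_cast
    rcases eq_or_lt_of_le hxy with h0 | h0
    · rw [h0]
      have : (0 : ℤ) ≤ σ.length := by positivity
      linarith
    by_cases hx : x = s
    · have hy : y ≠ s := by omega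
      rw [if_neg hy, if_pos hx] at ha
      have h1 := ih (x := s + 1) (y := y) (by omega) ha
      rw [up1_of_ne hy, hx]
      have h2 := cand_le (wd σ h) s (s + 1) (Or.inr (Or.inr rfl))
      rw [if_neg (by omega : s + 1 ≠ s), add_zero] at h2
      linarith
    · by_cases hy : y = s
      · rw [if_pos hy, if_neg hx] at ha
        have h3 := cs_cases (wd σ h) s
        have h1 := ih (x := x) (y := cs (wd σ h) s) (by omega) ha
        rw [hy, up1_of_ne hx, up1_self]
        split_ifs <;> linarith
      · rw [if_neg hy, if_neg hx] at ha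
        have h1 := ih hxy ha
        rw [up1_of_ne hx, up1_of_ne hy]
        linarith

theorem left_ge (σ : List ℤ) (h : ℤ → ℤ) {x y : ℤ} (hxy : y ≤ x) (ha : gl (-1) σ x ≤ anc σ h y) :
    wd σ h y - σ.length ≤ wd σ h x := by
  induction σ using List.reverseRecOn generalizing x y with
  | nil =>
    have h1 : x ≤ y := ha
    have h2 : x = y := le_antisymm h1 hxy
    rw [h2]
    simp
  | append_singleton σ s ih =>
    rw [anc_snoc, gl_snoc] at ha
    rw [wd_snoc, List.length_append, List.length_singleton]
    push_cast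
    rcases eq_or_lt_of_le hxy with h0 | h0
    · rw [h0]
      have : (0 : ℤ) ≤ σ.length := by positivity
      linarith
    by_cases hx : x = s
    · have hy : y ≠ s := by omega
      rw [if_neg hy, if_pos hx] at ha
      have h1 := ih (x := s + -1) (y := y) (by omega) ha
      rw [up1_of_ne hy, hx]
      have h2 := cand_le (wd σ h) s (s - 1) (Or.inl rfl)
      rw [if_neg (by omega : s - 1 ≠ s), add_zero] at h2
      have e : s + -1 = s - 1 := by ring
      rw [e] at h1
      linarith
    · by_cases hy : y = s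
      · rw [if_pos hy, if_neg hx] at ha
        have h3 := cs_cases (wd σ h) s
        have h1 := ih (x := x) (y := cs (wd σ h) s) (by omega) ha
        rw [hy, up1_of_ne hx, up1_self]
        split_ifs <;> linarith
      · rw [if_neg hy, if_neg hx] at ha
        have h1 := ih hxy ha
        rw [up1_of_ne hx, up1_of_ne hy]
        linarith

theorem diff_le_length (σ : List ℤ) (h : ℤ → ℤ) (he : gl 1 σ 0 = gl 1 σ 1) :
    wd σ h 1 - wd σ h 0 ≤ σ.length := by
  have h1 := right_ge σ h (x := 0) (y := 1) (by norm_num) (by rw [he]; exact anc_le_gl σ h 1)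
  linarith

theorem diff_ge_length (σ : List ℤ) (h : ℤ → ℤ) (he : gl (-1) σ 0 = gl (-1) σ 1) :
    -(σ.length : ℤ) ≤ wd σ h 1 - wd σ h 0 := by
  have h1 := left_ge σ h (x := 1) (y := 0) (by norm_num) (by rw [← he]; exact gl_le_anc σ h 0)
  linarith

end Pool.MP4bb68cEx
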