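import Mathlib
import Pool.Agent.Work.MP_4bb68c_ex.Defs
import Pool.Agent.Work.MP_4bb68c_ex.Defs2
import Pool.Agent.Work.MP_4bb68c_ex.EWb
import Pool.Agent.Work.MP_4bb68c_ex.Diss

/-!
# The dissipation: pointwise lower bound (module LowA, size M)

PROOF. Let `I = Finset.Ioc X Z ⊆ W`, `g = gk K W k`, `y ∈ I`, so `X < y`. By `diss1` all the differences
`Fd K (SC.wd σ (SC.T y ξ)) - Fd K (SC.wd σ ξ)` (`σ` any word) have the same sign, hence
`|g (SC.T y ξ) - g ξ| = EW W k (fun σ => |Fd K (SC.wd σ (SC.T y ξ)) - Fd K (SC.wd σ ξ)|)` (`EW_sub`).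
Sum over `y ∈ I` (`EW_finsum`):
`∑ y ∈ I, |g (SC.T y ξ) - g ξ| = EW W k (fun σ => ∑ y ∈ I, |...|) ≥ χ0 * EW W k (gd K M Z ξ)`, because
if `gd K M Z ξ σ = 1` then by `diss2` the site `a = anc σ (pr (hI ξ)) K` satisfies `X < a ≤ Z`, that is
`a ∈ I`, and the term of `y = a` is at least `chi (mh K (SC.wd σ ξ)) ≥ χ0` (as
`|mh K (SC.wd σ ξ)| ≤ M`). Both sides are nonnegative; square and use
`(∑ y ∈ I, |t y|)^2 ≤ |I| ∑ y ∈ I, (t y)^2` (`sq_sum_le_card_mul_sum_sq`) with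
`|I| = (Z - X).toNat ≤ C` (if `Z ≤ X` then `|I| = 0 ≤ C`), and `I ⊆ W`.
-/

set_option autoImplicit false

open MeasureTheory ProbabilityTheory Filter Topology
open scoped NNReal ENNReal

namespace Pool.MP4bb68cEx

open Pool.MP4bb68c Pool.MP4bb68cOne Pool.MP4bb68cCl

theorem lowA (K M : ℕ) (Z : ℤ) {χ0 C : ℝ} (hχ : 0 ≤ χ0) (hc : ∀ m : ℤ, |m| ≤ M → χ0 ≤ chi m)
    {ξ : ℤ → ℤ × Bool} {X : ℤ} (hX : Up X ξ) (hC : ((Z - X : ℤ) : ℝ) ≤ C) (hC0 : 0 ≤ C)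
    {W : Finset ℤ} (hW : Finset.Ioc X Z ⊆ W) (k : ℕ) :
    (χ0 * EW W k (gd K M Z ξ)) ^ 2 ≤
      C * ∑ y ∈ W, (gk K W k (SC.T y ξ) - gk K W k ξ) ^ 2 := by
  obtain ⟨d, hd⟩ : ∃ d : ℤ → List ℤ → ℝ, d = fun y σ =>
    |Fd K (SC.wd σ (SC.T y ξ)) - Fd K (SC.wd σ ξ)| := ⟨_, rfl⟩
  have hdd : ∀ y σ, d y σ = |Fd K (SC.wd σ (SC.T y ξ)) - Fd K (SC.wd σ ξ)| := by
    intro y σ
    rw [hd]
  have hd0 : ∀ y σ, 0 ≤ d y σ := by
    intro y σ
    rw [hdd]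
    exact abs_nonneg _
  have h1 : ∀ y ∈ Finset.Ioc X Z, EW W k (d y) ≤ |gk K W k (SC.T y ξ) - gk K W k ξ| := by
    intro y hy
    rcases diss1 K hX (Finset.mem_Ioc.1 hy).1 with h | h
    · have e1 : EW W k (d y) = gk K W k ξ - gk K W k (SC.T y ξ) := by
        unfold gk
        rw [← EW_sub]
        congr 1
        funext σ
        rw [hdd, abs_sub_comm, abs_of_nonneg (sub_nonneg.2 (h σ))]
      rw [e1, abs_sub_comm]
      exact le_abs_self _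
    · have e1 : EW W k (d y) = gk K W k (SC.T y ξ) - gk K W k ξ := by
        unfold gk
        rw [← EW_sub]
        congr 1
        funext σ
        rw [hdd, abs_of_nonneg (sub_nonneg.2 (h σ))]
      rw [e1]
      exact le_abs_self _
  have h2 : χ0 * EW W k (gd K M Z ξ) ≤ EW W k (fun σ => ∑ y ∈ Finset.Ioc X Z, d y σ) := by
    rw [← EW_mul]
    refine EW_mono fun σ _ _ => ?_
    have hs : 0 ≤ ∑ y ∈ Finset.Ioc X Z, d y σ := Finset.sum_nonneg fun y _ => hd0 y σ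
    unfold gd
    split_ifs with hg
    · obtain ⟨g1, g2, g3⟩ := hg
      obtain ⟨d1, d2⟩ := diss2 K hX σ g1
      have h3 := hc _ g2
      have h4 : d (anc σ (pr (hI ξ)) K) σ ≤ ∑ y ∈ Finset.Ioc X Z, d y σ :=
        Finset.single_le_sum (f := fun y => d y σ) (fun y _ => hd0 y σ)
          (Finset.mem_Ioc.2 ⟨d1, g3⟩)
      rw [mul_one]
      refine h3.trans (d2.trans (le_trans (le_of_eq ?_) h4))
      rw [hdd]
    · rw [mul_zero]
      exact hs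
  rw [EW_finsum] at h2
  have h3 : χ0 * EW W k (gd K M Z ξ) ≤
      ∑ y ∈ Finset.Ioc X Z, |gk K W k (SC.T y ξ) - gk K W k ξ| :=
    h2.trans (Finset.sum_le_sum h1)
  have h0 : 0 ≤ χ0 * EW W k (gd K M Z ξ) := by
    refine mul_nonneg hχ (EW_nonneg fun σ => ?_)
    unfold gd
    split_ifs
    · exact zero_le_one
    · exact le_rfl
  have h4 : (χ0 * EW W k (gd K M Z ξ)) ^ 2 ≤
      (∑ y ∈ Finset.Ioc X Z, |gk K W k (SC.T y ξ) - gk K W k ξ|) ^ 2 :=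
    pow_le_pow_left₀ h0 h3 2
  refine h4.trans (sq_sum_le_card_mul_sum_sq.trans ?_)
  have h5 : ((Finset.Ioc X Z).card : ℝ) ≤ C := by
    rw [Int.card_Ioc]
    rcases le_total (Z - X) 0 with h | h
    · rw [Int.toNat_of_nonpos h]
      simpa using hC0
    · refine le_trans (le_of_eq ?_) hC
      have h6 : ((Z - X).toNat : ℤ) = Z - X := Int.toNat_of_nonneg h
      exact_mod_cast h6
  have h6 : ∑ y ∈ Finset.Ioc X Z, |gk K W k (SC.T y ξ) - gk K W k ξ| ^ 2 ≤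
      ∑ y ∈ W, (gk K W k (SC.T y ξ) - gk K W k ξ) ^ 2 := by
    simp only [sq_abs]
    exact Finset.sum_le_sum_of_subset_of_nonneg hW fun y _ _ => sq_nonneg _
  exact mul_le_mul h5 h6 (Finset.sum_nonneg fun y _ => sq_nonneg _) hC0

end Pool.MP4bb68cEx
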