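import Mathlib
import Pool.Agent.Work.MP_4bb68c_ex.Defs
import Pool.Agent.Work.MP_4bb68c_ex.EWb

/-!
# The speed of influence (module EWf, size M)

`fr σ B` (definitions file) is the right front: a letter `B - 1` moves it from `B` to `B - 2`, a letter
`B` moves it to `B - 1`, other letters do not move it. `lf σ B` is the left front: a letter `B + 1` moves
it to `B + 1`.

`agree_right`: induction on `σ` generalizing `x, x', B`. Let the first letter be `y`, `B'` the new front.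
Claim: `L.T y x` and `L.T y x'` agree on the coordinates `z < B'`. If `z ≠ y - 1` and `z ≠ y` use
`L.out` and `B' ≤ B`. If `z ∈ {y - 1, y}` and `z < B'`: then `y < B - 1` (if `y = B - 1` then
`B' = B - 2 = y - 1`, if `y = B` then `B' = B - 1 = y - 1`, if `y > B` then `B' = B ≤ y - 1`: in these
cases `z ≥ y - 1 ≥ B'`), so the coordinates `y - 1, y, y + 1` are all `< B` and `L.dep` applies.
`agree_left`: the same: if `z ∈ {y - 1, y}` and `z > B'` then `y - 1 > B` (if `y = B + 1` then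
`B' = B + 1 ≥ y`; if `y ≤ B` then `z ≤ y ≤ B`), so `L.dep` applies.

`EW_fr`: write `w = 1 / (2 |W|)`. Induction on `k` generalizing `B`. One step:
`EW W (k+1) (fun σ => 2 ^ (-(fr σ B))) = 1/2 * EW W k (fun σ => 2^(-(fr σ B))) +
w * ∑ y ∈ W, EW W k (fun σ => 2 ^ (-(fr σ (B'(y)))))
≤ (1 + 4 w)^k * (1/2 * 2^(-B) + w * ∑ y ∈ W, 2 ^ (-B'(y)))`, and
`∑ y ∈ W, 2 ^ (-B'(y)) ≤ (|W| + 4) 2^(-B)` because `2 ^ (-B'(y))` is `2^(-B)` except for the letters
`B - 1` (`4 * 2^(-B)`) and `B` (`2 * 2^(-B)`): the excess is at most `3 + 1 = 4` times `2^(-B)`. And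
`1/2 + w |W| = 1`.
`EW_lf`: the same with `2 ^ (lf σ B)`, `B'(y) = B + 1` only for `y = B + 1`: factor `1 + w ≤ 1 + 4 w`.

`EW_right`: for each `σ`, if `fr σ B > n` then the two configurations after `σ` agree on `-n, ..., n`,
so the two values of `f` are equal; otherwise the difference is `≤ 2 ≤ 2 * 2 ^ (n - fr σ B)`. So the
difference is always `≤ 2 * 2 ^ n * 2 ^ (-(fr σ B))`; take the average (`EW_sub`, `EW_abs_le`, `EW_mul`)
and use `EW_fr`.
`EW_left`: the configurations agree on the coordinates `> -B`; with `lf σ (-B)`: if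
`lf σ (-B) < -n` then the values are equal; otherwise the difference is `≤ 2 ≤
2 * 2 ^ (n + lf σ (-B))`; use `EW_lf` with the front `-B`.
(All powers are integer powers `zpow` of the real number `2`.)
-/

set_option autoImplicit false

open MeasureTheory ProbabilityTheory Filter Topology
open scoped NNReal ENNReal

namespace Pool.MP4bb68cEx

open Pool.MP4bb68c Pool.MP4bb68cOne Pool.MP4bb68cCl

theorem fr_le (σ : List ℤ) (B : ℤ) : fr σ B ≤ B := by
  induction σ generalizing B with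
  | nil => exact le_refl _
  | cons y σ ih =>
    show fr σ (if y = B - 1 then B - 2 else if y = B then B - 1 else B) ≤ B
    refine (ih _).trans ?_
    split_ifs <;> omega

theorem agree_right {A : Type} (L : Sys A) (σ : List ℤ) {x x' : ℤ → A} {B : ℤ}
    (hx : ∀ y, y < B → x y = x' y) : ∀ y, y < fr σ B → L.wd σ x y = L.wd σ x' y := by
  induction σ generalizing x x' B with
  | nil => exact hx
  | cons s σ ih =>
    intro y hy
    show L.wd σ (L.T s x) y = L.wd σ (L.T s x') y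
    refine ih (B := if s = B - 1 then B - 2 else if s = B then B - 1 else B) ?_ y hy
    intro z hz
    by_cases h1 : z = s - 1 ∨ z = s
    · have h2 : s < B - 1 := by
        rcases h1 with h1 | h1
        · split_ifs at hz <;> omega
        · split_ifs at hz <;> omega
      exact L.dep s x x' (fun u _ hu2 => hx u (by omega)) z (by omega) (by omega)
    · rw [not_or] at h1
      rw [L.out s x z h1.1 h1.2, L.out s x' z h1.1 h1.2]
      apply hx
      split_ifs at hz <;> omega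

theorem agree_left {A : Type} (L : Sys A) (σ : List ℤ) {x x' : ℤ → A} {B : ℤ}
    (hx : ∀ y, B < y → x y = x' y) : ∀ y, lf σ B < y → L.wd σ x y = L.wd σ x' y := by
  induction σ generalizing x x' B with
  | nil => exact hx
  | cons s σ ih =>
    intro y hy
    show L.wd σ (L.T s x) y = L.wd σ (L.T s x') y
    refine ih (B := if s = B + 1 then B + 1 else B) ?_ y hy
    intro z hz
    by_cases h1 : z = s - 1 ∨ z = s
    · have h2 : B < s - 1 := by
        rcases h1 with h1 | h1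
        · split_ifs at hz <;> omega
        · split_ifs at hz <;> omega
      exact L.dep s x x' (fun u hu1 _ => hx u (by omega)) z (by omega) (by omega)
    · rw [not_or] at h1
      rw [L.out s x z h1.1 h1.2, L.out s x' z h1.1 h1.2]
      apply hx
      split_ifs at hz <;> omega

private theorem step_bd {W : Finset ℤ} (hW : W.Nonempty) {k : ℕ} {F0 : ℝ} {F : ℤ → ℝ} {a : ℝ}
    (ha : 0 ≤ a) {c : ℤ → ℝ} (hc : ∑ y ∈ W, c y ≤ (W.card : ℝ) + 4)
    (h0 : F0 ≤ a * (1 + 4 * (1 / (2 * (W.card : ℝ)))) ^ k)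
    (h1 : ∀ y, F y ≤ c y * a * (1 + 4 * (1 / (2 * (W.card : ℝ)))) ^ k) :
    (1 / 2) * F0 + (1 / (2 * (W.card : ℝ))) * ∑ y ∈ W, F y ≤
      a * (1 + 4 * (1 / (2 * (W.card : ℝ)))) ^ (k + 1) := by
  have hcard : 0 < (W.card : ℝ) := by exact_mod_cast hW.card_pos
  obtain ⟨w, hw⟩ : ∃ w : ℝ, w = 1 / (2 * (W.card : ℝ)) := ⟨_, rfl⟩
  have hwc : w * (W.card : ℝ) = 1 / 2 := by
    rw [hw]
    field_simp
  rw [← hw] at h0 h1 ⊢
  have hw0 : 0 < w := by rw [hw]; positivity
  have hq : 0 ≤ (1 + 4 * w) ^ k := by positivity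
  have h2 : ∑ y ∈ W, F y ≤ ((W.card : ℝ) + 4) * (a * (1 + 4 * w) ^ k) := by
    calc ∑ y ∈ W, F y ≤ ∑ y ∈ W, c y * (a * (1 + 4 * w) ^ k) :=
          Finset.sum_le_sum fun y _ => (h1 y).trans (le_of_eq (by ring))
      _ = (∑ y ∈ W, c y) * (a * (1 + 4 * w) ^ k) := by rw [Finset.sum_mul]
      _ ≤ _ := mul_le_mul_of_nonneg_right hc (mul_nonneg ha hq)
  have h3 : w * ∑ y ∈ W, F y ≤ w * (((W.card : ℝ) + 4) * (a * (1 + 4 * w) ^ k)) :=
    mul_le_mul_of_nonneg_left h2 hw0.le
  have h4 : w * (((W.card : ℝ) + 4) * (a * (1 + 4 * w) ^ k)) =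
      (w * (W.card : ℝ) + 4 * w) * (a * (1 + 4 * w) ^ k) := by ring
  rw [h4, hwc] at h3
  have h5 : a * (1 + 4 * w) ^ (k + 1) = (1 / 2) * (a * (1 + 4 * w) ^ k) +
      (1 / 2 + 4 * w) * (a * (1 + 4 * w) ^ k) := by ring
  rw [h5]
  linarith

theorem EW_fr {W : Finset ℤ} (hW : W.Nonempty) (k : ℕ) (B : ℤ) :
    EW W k (fun σ => (2 : ℝ) ^ (-(fr σ B))) ≤
      (2 : ℝ) ^ (-B) * (1 + 4 * (1 / (2 * (W.card : ℝ)))) ^ k := by
  induction k generalizing B with
  | zero =>
    rw [pow_zero, mul_one]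
    exact le_refl _
  | succ k ih =>
    refine step_bd hW (F0 := EW W k (fun σ => (2 : ℝ) ^ (-(fr σ B))))
      (F := fun y => EW W k (fun σ => (2 : ℝ) ^ (-(fr (y :: σ) B)))) (by positivity)
      (c := fun y => 1 + (if y = B - 1 then 3 else 0) + (if y = B then 1 else 0)) ?_ (ih B) ?_
    · rw [Finset.sum_add_distrib, Finset.sum_add_distrib, Finset.sum_const, nsmul_eq_mul, mul_one,
        Finset.sum_ite_eq', Finset.sum_ite_eq']
      have h1 : (if B - 1 ∈ W then (3 : ℝ) else 0) ≤ 3 := by split_ifs <;> norm_num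
      have h2 : (if B ∈ W then (1 : ℝ) else 0) ≤ 1 := by split_ifs <;> norm_num
      linarith
    · intro y
      have h1 := ih (if y = B - 1 then B - 2 else if y = B then B - 1 else B)
      refine h1.trans (le_of_eq ?_)
      congr 1
      have e1 : (2 : ℝ) ^ (-(B - 2)) = 4 * 2 ^ (-B) := by
        have : -(B - 2) = 2 + -B := by ring
        rw [this, zpow_add₀ two_ne_zero]
        norm_num
      have e2 : (2 : ℝ) ^ (-(B - 1)) = 2 * 2 ^ (-B) := by
        have : -(B - 1) = 1 + -B := by ring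
        rw [this, zpow_add₀ two_ne_zero]
        norm_num
      by_cases h2 : y = B - 1
      · have h3 : y ≠ B := by omega
        simp only [if_pos h2, if_neg h3]
        rw [e1]
        ring
      · by_cases h3 : y = B
        · simp only [if_neg h2, if_pos h3]
          rw [e2]
          ring
        · simp only [if_neg h2, if_neg h3]
          ring

theorem EW_lf {W : Finset ℤ} (hW : W.Nonempty) (k : ℕ) (B : ℤ) :
    EW W k (fun σ => (2 : ℝ) ^ (lf σ B)) ≤
      (2 : ℝ) ^ B * (1 + 4 * (1 / (2 * (W.card : ℝ)))) ^ k := by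
  induction k generalizing B with
  | zero =>
    rw [pow_zero, mul_one]
    exact le_refl _
  | succ k ih =>
    refine step_bd hW (F0 := EW W k (fun σ => (2 : ℝ) ^ (lf σ B)))
      (F := fun y => EW W k (fun σ => (2 : ℝ) ^ (lf (y :: σ) B))) (by positivity)
      (c := fun y => 1 + (if y = B + 1 then 1 else 0)) ?_ (ih B) ?_
    · rw [Finset.sum_add_distrib, Finset.sum_const, nsmul_eq_mul, mul_one, Finset.sum_ite_eq']
      have h2 : (if B + 1 ∈ W then (1 : ℝ) else 0) ≤ 1 := by split_ifs <;> norm_num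
      linarith
    · intro y
      have h1 := ih (if y = B + 1 then B + 1 else B)
      refine h1.trans (le_of_eq ?_)
      congr 1
      have e2 : (2 : ℝ) ^ (B + 1) = 2 * 2 ^ B := by
        rw [zpow_add₀ two_ne_zero, zpow_one, mul_comm]
      by_cases h2 : y = B + 1
      · simp only [if_pos h2]
        rw [e2]
        ring
      · simp only [if_neg h2]
        ring

private theorem two_le_of {u v : ℝ} {t : ℤ} (hu : |u| ≤ 1) (hv : |v| ≤ 1) (ht : 0 ≤ t) :
    |u - v| ≤ 2 * (2 : ℝ) ^ t := by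
  have h1 : |u - v| ≤ |u| + |v| := abs_sub u v
  have h2 : (1 : ℝ) ≤ 2 ^ t := one_le_zpow₀ one_le_two ht
  linarith

theorem EW_right {A : Type} (L : Sys A) {n : ℕ} {f : (ℤ → A) → ℝ} (hf : Loc n f)
    (hb : ∀ x, |f x| ≤ 1) {x x' : ℤ → A} {B : ℤ} (hx : ∀ y, y < B → x y = x' y) {W : Finset ℤ}
    (hW : W.Nonempty) (k : ℕ) :
    |EW W k (fun σ => f (L.wd σ x)) - EW W k (fun σ => f (L.wd σ x'))| ≤
      2 * (2 : ℝ) ^ ((n : ℤ) - B) * (1 + 4 * (1 / (2 * (W.card : ℝ)))) ^ k := by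
  rw [← EW_sub]
  have h1 : ∀ σ, |f (L.wd σ x) - f (L.wd σ x')| ≤ (2 * (2 : ℝ) ^ (n : ℤ)) * 2 ^ (-(fr σ B)) := by
    intro σ
    have e : (2 * (2 : ℝ) ^ (n : ℤ)) * 2 ^ (-(fr σ B)) = 2 * 2 ^ ((n : ℤ) - fr σ B) := by
      rw [mul_assoc, ← zpow_add₀ two_ne_zero, sub_eq_add_neg]
    rw [e]
    rcases lt_or_ge (n : ℤ) (fr σ B) with h | h
    · have h2 : f (L.wd σ x) = f (L.wd σ x') :=
        hf _ _ fun y _ hy => agree_right L σ hx y (by omega)
      rw [h2, sub_self, abs_zero]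
      positivity
    · exact two_le_of (hb _) (hb _) (by omega)
  refine (EW_abs_le h1).trans ?_
  rw [EW_mul]
  have h2 := mul_le_mul_of_nonneg_left (EW_fr hW k B)
    (show (0 : ℝ) ≤ 2 * (2 : ℝ) ^ (n : ℤ) by positivity)
  refine h2.trans (le_of_eq ?_)
  rw [sub_eq_add_neg, zpow_add₀ two_ne_zero]
  ring

theorem EW_left {A : Type} (L : Sys A) {n : ℕ} {f : (ℤ → A) → ℝ} (hf : Loc n f)
    (hb : ∀ x, |f x| ≤ 1) {x x' : ℤ → A} {B : ℤ} (hx : ∀ y, -B < y → x y = x' y) {W : Finset ℤ}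
    (hW : W.Nonempty) (k : ℕ) :
    |EW W k (fun σ => f (L.wd σ x)) - EW W k (fun σ => f (L.wd σ x'))| ≤
      2 * (2 : ℝ) ^ ((n : ℤ) - B) * (1 + 4 * (1 / (2 * (W.card : ℝ)))) ^ k := by
  rw [← EW_sub]
  have h1 : ∀ σ, |f (L.wd σ x) - f (L.wd σ x')| ≤ (2 * (2 : ℝ) ^ (n : ℤ)) * 2 ^ (lf σ (-B)) := by
    intro σ
    have e : (2 * (2 : ℝ) ^ (n : ℤ)) * 2 ^ (lf σ (-B)) = 2 * 2 ^ ((n : ℤ) + lf σ (-B)) := by
      rw [mul_assoc, ← zpow_add₀ two_ne_zero]
    rw [e]
    rcases lt_or_ge (lf σ (-B)) (-(n : ℤ)) with h | h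
    · have h2 : f (L.wd σ x) = f (L.wd σ x') :=
        hf _ _ fun y hy _ => agree_left L σ hx y (by omega)
      rw [h2, sub_self, abs_zero]
      positivity
    · exact two_le_of (hb _) (hb _) (by omega)
  refine (EW_abs_le h1).trans ?_
  rw [EW_mul]
  have h2 := mul_le_mul_of_nonneg_left (EW_lf hW k (-B))
    (show (0 : ℝ) ≤ 2 * (2 : ℝ) ^ (n : ℤ) by positivity)
  refine h2.trans (le_of_eq ?_)
  rw [sub_eq_add_neg, zpow_add₀ two_ne_zero]
  ring

end Pool.MP4bb68cEx
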