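import Mathlib
import Pool.Agent.Work.MP_4bb68c_ex.Defs
import Pool.Agent.Work.MP_4bb68c_ex.SysB
import Pool.Agent.Work.MP_4bb68c_ex.EWf

/-!
# Quasi-invariance and invariance up to small errors (module Quasi, size M)

`quasi`: the balance equation for the indicator of `B`:
`∑ s ∈ Icc (-n) (n+1), μ.real (L.T s ⁻¹' B) = (2 n + 2) * μ.real B`, all terms are nonnegative. For `s`
outside of `Icc (-n) (n+1)` the preimage is `B` (`T_far`), and `1 ≤ 2 n + 2`.
`null`: induction on `σ` (from the END: `L.wd (σ ++ [s]) ⁻¹' B = L.wd σ ⁻¹' (L.T s ⁻¹' B)`, where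
`L.T s ⁻¹' B` is local (`LocS.wd` for the word `[s]`) and null by `quasi`).

`inv`: write `w = dw i = 1/(2 |Ww i|)`, `R = Rr i`, `g_k x = EW (Ww i) k (fun σ => f (L.wd σ x))`. If
`n > R` then `er n i ≥ 2` (it is `≥ 6 * 2^n / 2^R`) and `|..| ≤ 2`. Let `n ≤ R`. `g_k` is `Loc (R + 1)`
(`Loc.EW`), `|g_k| ≤ 1`, and by definition of `EW` (first-letter recursion)
`g_{k+1} x = 1/2 g_k x + w ∑ y ∈ Ww i, g_k (L.T y x)`, so
`g_{k+1} x - g_k x = w ∑ y ∈ Ww i, (g_k (L.T y x) - g_k x)`. The balance equation for `g_k` and the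
window `R + 1` is `∑ s ∈ Icc (-(R+1)) (R+2), (∫ g_k ∘ L.T s - ∫ g_k) = 0`, and
`Icc (-(R+1)) (R+2) = Ww i ∪ {-(R+1), R+1, R+2}`. So
`∫ g_{k+1} - ∫ g_k = - w * (the three terms s = -(R+1), R+1, R+2)`.
For `s ∈ {R + 1, R + 2}`: `x` and `L.T s x` agree on the coordinates `< R` (`s - 1 ≥ R`), so by
`EW_right` with `B = R`: `|g_k (L.T s x) - g_k x| ≤ 2 * 2^(n-R) (1 + 4 w)^k`. For `s = -(R+1)`: they
agree on the coordinates `> -R`, `EW_left` with `B = R` gives the same bound. Hence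
`|∫ g_{k+1} - ∫ g_k| ≤ 6 w 2^(n-R) (1+4w)^k ≤ 6 w 2^(n-R) exp (4 w k)`, and for `k ≤ Kk i`
(`w * Kk i = i + 1`) the sum over `j < k` is at most
`6 w k 2^(n-R) exp (4 w k) ≤ 6 (i+1) 2^n exp (4 (i+1)) / 2^(20 (i+1)) = er n i`. Start: `g_0 = f`.
`inv_av`: average over `k < Kk i`.
`er_tendsto`: `er n i = 6 * 2^n * (i+1) * (exp 4 / 2^20)^(i+1)` and `exp 4 < 2^20`.
(Needs the module EWf.)
-/

set_option autoImplicit false

open MeasureTheory ProbabilityTheory Filter Topology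
open scoped NNReal ENNReal

namespace Pool.MP4bb68cEx

open Pool.MP4bb68c Pool.MP4bb68cOne Pool.MP4bb68cCl

private theorem qi_ind {A : Type} [Countable A] [MeasurableSpace A] [MeasurableSingletonClass A]
    {μ : Measure (ℤ → A)} {B : Set (ℤ → A)} (hm : MeasurableSet B) {T : (ℤ → A) → (ℤ → A)}
    (hT : Measurable T) : ∫ x, B.indicator (fun _ => (1 : ℝ)) (T x) ∂μ = μ.real (T ⁻¹' B) := by
  have h1 : (fun x => B.indicator (fun _ => (1 : ℝ)) (T x)) =
      (T ⁻¹' B).indicator (fun _ => (1 : ℝ)) := by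
    funext x
    by_cases hx : T x ∈ B
    · rw [Set.indicator_of_mem hx, Set.indicator_of_mem (show x ∈ T ⁻¹' B from hx)]
    · rw [Set.indicator_of_notMem hx, Set.indicator_of_notMem (show x ∉ T ⁻¹' B from hx)]
  rw [h1, integral_indicator_const _ (hT hm), smul_eq_mul, mul_one]

theorem Stn.quasi {A : Type} [Countable A] [MeasurableSpace A] [MeasurableSingletonClass A]
    {L : Sys A} {μ : Measure (ℤ → A)} [IsFiniteMeasure μ] (h : Stn L μ) {n : ℕ}
    {B : Set (ℤ → A)} (hB : LocS n B) (s : ℤ) :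
    μ.real (L.T s ⁻¹' B) ≤ (2 * n + 2) * μ.real B := by
  have hm : MeasurableSet B := hB.measurableSet
  have h0 : 0 ≤ μ.real B := measureReal_nonneg
  have hn : (0 : ℝ) ≤ n := Nat.cast_nonneg n
  by_cases hs : s ∈ Finset.Icc (-(n : ℤ)) (n + 1)
  · have h1 := h n _ hB.loc (fun x => by
      by_cases hx : x ∈ B
      · rw [Set.indicator_of_mem hx, abs_one]
      · rw [Set.indicator_of_notMem hx, abs_zero]
        norm_num)
    have h3 : ∫ x, B.indicator (fun _ => (1 : ℝ)) x ∂μ = μ.real B := by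
      rw [integral_indicator_const _ hm, smul_eq_mul, mul_one]
    have h2 : ∀ t, ∫ x, B.indicator (fun _ => (1 : ℝ)) (L.T t x) ∂μ = μ.real (L.T t ⁻¹' B) :=
      fun t => qi_ind hm (L.measurable_T t)
    simp only [h2, h3] at h1
    have hc : (Finset.Icc (-(n : ℤ)) (n + 1)).card = 2 * n + 2 := by
      rw [Int.card_Icc]
      omega
    rw [Finset.sum_sub_distrib, Finset.sum_const, hc, nsmul_eq_mul, sub_eq_zero] at h1
    push_cast at h1
    rw [← h1]
    exact Finset.single_le_sum (f := fun t => μ.real (L.T t ⁻¹' B))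
      (fun t _ => measureReal_nonneg) hs
  · have h1 : L.T s ⁻¹' B = B := by
      rw [Finset.mem_Icc] at hs
      ext x
      exact hB _ _ fun y h1 h2 => L.out s x y (by omega) (by omega)
    rw [h1]
    nlinarith

theorem Stn.null {A : Type} [Countable A] [MeasurableSpace A] [MeasurableSingletonClass A]
    {L : Sys A} {μ : Measure (ℤ → A)} [IsFiniteMeasure μ] (h : Stn L μ) {n : ℕ}
    {B : Set (ℤ → A)} (hB : LocS n B) (h0 : μ B = 0) (σ : List ℤ) : μ (L.wd σ ⁻¹' B) = 0 := by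
  induction σ using List.reverseRecOn generalizing n B with
  | nil => exact h0
  | append_singleton σ s ih =>
    have h1 : L.wd (σ ++ [s]) ⁻¹' B = L.wd σ ⁻¹' (L.wd [s] ⁻¹' B) := by
      ext x
      rw [Set.mem_preimage, Set.mem_preimage, Set.mem_preimage, Sys.wd_append]
    obtain ⟨m, hm⟩ := LocS.wd L hB [s]
    rw [h1]
    refine ih hm ?_
    have h2 := h.quasi hB s
    have h3 : μ.real B = 0 := by
      rw [measureReal_def, h0, ENNReal.toReal_zero]
    rw [h3, mul_zero] at h2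
    have h4 : μ.real (L.T s ⁻¹' B) = 0 := le_antisymm h2 measureReal_nonneg
    exact (measureReal_eq_zero_iff (measure_ne_top _ _)).1 h4

theorem er_nonneg (n i : ℕ) : 0 ≤ er n i := by
  unfold er
  positivity

theorem er_tendsto (n : ℕ) : Tendsto (er n) atTop (𝓝 0) := by
  have hr : Real.exp 4 / 2 ^ 20 < 1 := by
    rw [div_lt_one (by positivity)]
    have h1 : Real.exp 4 = Real.exp 1 ^ 4 := by
      rw [← Real.exp_nat_mul]
      norm_num
    rw [h1]
    have h2 : Real.exp 1 ≤ 3 := by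
      have := Real.exp_one_lt_d9
      linarith
    calc Real.exp 1 ^ 4 ≤ 3 ^ 4 := pow_le_pow_left₀ (Real.exp_pos 1).le h2 4
      _ < 2 ^ 20 := by norm_num
  have h1 := tendsto_self_mul_const_pow_of_lt_one (r := Real.exp 4 / 2 ^ 20) (by positivity) hr
  have h2 := ((tendsto_add_atTop_iff_nat 1).2 h1).const_mul (6 * 2 ^ n)
  rw [mul_zero] at h2
  refine h2.congr fun i => ?_
  unfold er
  have h3 : Real.exp (4 * ((i : ℝ) + 1)) = Real.exp 4 ^ (i + 1) := by
    rw [← Real.exp_nat_mul]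
    congr 1
    push_cast
    ring
  rw [h3, div_pow, ← pow_mul]
  push_cast
  ring

private theorem qi_step {A : Type} [Countable A] [MeasurableSpace A] [MeasurableSingletonClass A]
    {L : Sys A} {μ : Measure (ℤ → A)} [IsProbabilityMeasure μ] (h : Stn L μ) {n i : ℕ}
    {f : (ℤ → A) → ℝ} (hf : Loc n f) (hb : ∀ x, |f x| ≤ 1) (hn : n ≤ Rr i) (k : ℕ) :
    |∫ x, EW (Ww i) (k + 1) (fun σ => f (L.wd σ x)) ∂μ -
      ∫ x, EW (Ww i) k (fun σ => f (L.wd σ x)) ∂μ| ≤
      6 * dw i * ((2 : ℝ) ^ ((n : ℤ) - (Rr i : ℤ)) * (1 + 4 * dw i) ^ k) := by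
  obtain ⟨g, hg⟩ : ∃ g : (ℤ → A) → ℝ, g = fun x => EW (Ww i) k (fun σ => f (L.wd σ x)) := ⟨_, rfl⟩
  have hgl : Loc (Rr i + 1) g := by
    rw [hg]
    exact hf.EW L (by omega) k
  have hg1 : ∀ x, |g x| ≤ 1 := by
    intro x
    rw [hg]
    exact EW_abs_le_one (Ww_nonempty i) fun σ => hb _
  have hgi : Integrable g μ := Integrable.of_bound hgl.measurable.aestronglyMeasurable 1
    (Filter.Eventually.of_forall fun x => by
      rw [Real.norm_eq_abs]
      exact hg1 x)
  have hgT : ∀ s, Integrable (fun x => g (L.T s x)) μ := fun s =>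
    Integrable.of_bound (hgl.measurable.comp (L.measurable_T s)).aestronglyMeasurable 1
    (Filter.Eventually.of_forall fun x => by
      rw [Real.norm_eq_abs]
      exact hg1 _)
  have hst := h (Rr i + 1) g hgl hg1
  have hset : Finset.Icc (-(((Rr i + 1 : ℕ)) : ℤ)) (((Rr i + 1 : ℕ) : ℤ) + 1) =
      insert (-(Rr i : ℤ) - 1) (insert ((Rr i : ℤ) + 1) (insert ((Rr i : ℤ) + 2) (Ww i))) := by
    ext s
    simp only [Ww, Finset.mem_insert, Finset.mem_Icc]
    omega
  have n1 : (Rr i : ℤ) + 2 ∉ Ww i := by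
    simp only [Ww, Finset.mem_Icc]
    omega
  have n2 : (Rr i : ℤ) + 1 ∉ insert ((Rr i : ℤ) + 2) (Ww i) := by
    simp only [Ww, Finset.mem_insert, Finset.mem_Icc]
    omega
  have n3 : -(Rr i : ℤ) - 1 ∉ insert ((Rr i : ℤ) + 1) (insert ((Rr i : ℤ) + 2) (Ww i)) := by
    simp only [Ww, Finset.mem_insert, Finset.mem_Icc]
    omega
  rw [hset, Finset.sum_insert n3, Finset.sum_insert n2, Finset.sum_insert n1] at hst
  obtain ⟨b, hbd⟩ : ∃ b : ℝ, b = 2 * (2 : ℝ) ^ ((n : ℤ) - (Rr i : ℤ)) * (1 + 4 * dw i) ^ k :=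
    ⟨_, rfl⟩
  have hdiff : ∀ s, (∀ x, |g (L.T s x) - g x| ≤ b) →
      |∫ x, g (L.T s x) ∂μ - ∫ x, g x ∂μ| ≤ b := by
    intro s hs
    rw [← integral_sub (hgT s) hgi]
    have h1 := norm_integral_le_of_norm_le_const (μ := μ)
      (f := fun x => g (L.T s x) - g x) (C := b)
      (Filter.Eventually.of_forall fun x => by
        rw [Real.norm_eq_abs]
        exact hs x)
    rw [Real.norm_eq_abs, probReal_univ, mul_one] at h1
    exact h1
  have hr1 : ∀ s, (s = (Rr i : ℤ) + 1 ∨ s = (Rr i : ℤ) + 2) →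
      |∫ x, g (L.T s x) ∂μ - ∫ x, g x ∂μ| ≤ b := by
    intro s hs
    refine hdiff s fun x => ?_
    have h1 := EW_right L hf hb (x := L.T s x) (x' := x) (B := (Rr i : ℤ))
      (fun y hy => L.out s x y (by omega) (by omega)) (Ww_nonempty i) k
    rw [one_div_card] at h1
    rw [hg, hbd]
    exact h1
  have hl1 : |∫ x, g (L.T (-(Rr i : ℤ) - 1) x) ∂μ - ∫ x, g x ∂μ| ≤ b := by
    refine hdiff _ fun x => ?_
    have h1 := EW_left L hf hb (x := L.T (-(Rr i : ℤ) - 1) x) (x' := x) (B := (Rr i : ℤ))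
      (fun y hy => L.out _ x y (by omega) (by omega)) (Ww_nonempty i) k
    rw [one_div_card] at h1
    rw [hg, hbd]
    exact h1
  have e1 := hr1 _ (Or.inl rfl)
  have e2 := hr1 _ (Or.inr rfl)
  -- the step
  have hstep : ∫ x, EW (Ww i) (k + 1) (fun σ => f (L.wd σ x)) ∂μ - ∫ x, g x ∂μ =
      dw i * ∑ s ∈ Ww i, (∫ x, g (L.T s x) ∂μ - ∫ x, g x ∂μ) := by
    have h1 : (fun x => EW (Ww i) (k + 1) (fun σ => f (L.wd σ x))) = fun x =>
        (1 / 2) * g x + dw i * ∑ s ∈ Ww i, g (L.T s x) := by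
      funext x
      rw [hg, ← one_div_card]
      rfl
    rw [h1, integral_add (hgi.const_mul _)
      ((integrable_finsetSum _ fun s _ => hgT s).const_mul _), integral_const_mul,
      integral_const_mul, integral_finsetSum _ (fun s _ => hgT s), Finset.sum_sub_distrib,
      Finset.sum_const, nsmul_eq_mul]
    have h2 : dw i * ((Ww i).card : ℝ) = 1 / 2 := by
      rw [← one_div_card]
      have h3 : ((Ww i).card : ℝ) ≠ 0 := by
        have := Finset.card_pos.2 (Ww_nonempty i)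
        positivity
      field_simp
    linear_combination (∫ x, g x ∂μ) * h2
  have hfin : |∑ s ∈ Ww i, (∫ x, g (L.T s x) ∂μ - ∫ x, g x ∂μ)| ≤ 3 * b := by
    rw [abs_le] at e1 e2 hl1 ⊢
    constructor <;> linarith [e1.1, e1.2, e2.1, e2.2, hl1.1, hl1.2]
  have hgoal : ∫ x, EW (Ww i) k (fun σ => f (L.wd σ x)) ∂μ = ∫ x, g x ∂μ := by rw [hg]
  rw [hgoal, hstep, abs_mul, abs_of_pos (dw_pos i)]
  calc dw i * |∑ s ∈ Ww i, (∫ x, g (L.T s x) ∂μ - ∫ x, g x ∂μ)| ≤ dw i * (3 * b) :=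
        mul_le_mul_of_nonneg_left hfin (dw_pos i).le
    _ = _ := by
      rw [hbd]
      ring

private theorem qi_int {A : Type} [Countable A] [MeasurableSpace A] [MeasurableSingletonClass A]
    {L : Sys A} {μ : Measure (ℤ → A)} [IsProbabilityMeasure μ] {n : ℕ}
    {f : (ℤ → A) → ℝ} (hf : Loc n f) (hb : ∀ x, |f x| ≤ 1) (σ : List ℤ) :
    Integrable (fun x => f (L.wd σ x)) μ :=
  Integrable.of_bound (hf.measurable.comp (L.measurable_wd σ)).aestronglyMeasurable 1
    (Filter.Eventually.of_forall fun x => by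
      rw [Real.norm_eq_abs]
      exact hb _)

private theorem qi_abs {A : Type} [Countable A] [MeasurableSpace A] [MeasurableSingletonClass A]
    {μ : Measure (ℤ → A)} [IsProbabilityMeasure μ] {g : (ℤ → A) → ℝ} (hg : ∀ x, |g x| ≤ 1) :
    |∫ x, g x ∂μ| ≤ 1 := by
  have h1 := norm_integral_le_of_norm_le_const (μ := μ) (f := g) (C := 1)
    (Filter.Eventually.of_forall fun x => by
      rw [Real.norm_eq_abs]
      exact hg x)
  rw [Real.norm_eq_abs, probReal_univ, mul_one] at h1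
  exact h1

theorem Stn.inv {A : Type} [Countable A] [MeasurableSpace A] [MeasurableSingletonClass A]
    {L : Sys A} {μ : Measure (ℤ → A)} [IsProbabilityMeasure μ] (h : Stn L μ) {n i k : ℕ}
    {f : (ℤ → A) → ℝ} (hf : Loc n f) (hb : ∀ x, |f x| ≤ 1) (hk : k ≤ Kk i) :
    |∫ x, EW (Ww i) k (fun σ => f (L.wd σ x)) ∂μ - ∫ x, f x ∂μ| ≤ er n i := by
  have hi0 : (0 : ℝ) ≤ i := Nat.cast_nonneg i
  by_cases hn : n ≤ Rr i
  · obtain ⟨c, hc⟩ : ∃ c : ℝ, c = 6 * dw i *
        ((2 : ℝ) ^ ((n : ℤ) - (Rr i : ℤ)) * Real.exp (4 * ((i : ℝ) + 1))) := ⟨_, rfl⟩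
    have hd := dw_pos i
    have hc0 : 0 ≤ c := by
      rw [hc]
      positivity
    have hmain : ∀ j, j ≤ Kk i →
        |∫ x, EW (Ww i) j (fun σ => f (L.wd σ x)) ∂μ - ∫ x, f x ∂μ| ≤ j * c := by
      intro j
      induction j with
      | zero =>
        intro _
        have h1 : ∫ x, EW (Ww i) 0 (fun σ => f (L.wd σ x)) ∂μ = ∫ x, f x ∂μ := rfl
        rw [h1, sub_self, abs_zero, Nat.cast_zero, zero_mul]
      | succ j ih =>
        intro hj
        have h1 := ih (by omega)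
        have h2 := qi_step h hf hb hn j
        have h3 : (1 + 4 * dw i) ^ j ≤ Real.exp (4 * ((i : ℝ) + 1)) := by
          have h4 : 1 + 4 * dw i ≤ Real.exp (4 * dw i) := by
            have := Real.add_one_le_exp (4 * dw i)
            linarith
          calc (1 + 4 * dw i) ^ j ≤ Real.exp (4 * dw i) ^ j :=
                pow_le_pow_left₀ (by positivity) h4 j
            _ = Real.exp (j * (4 * dw i)) := by rw [← Real.exp_nat_mul]
            _ ≤ Real.exp (4 * ((i : ℝ) + 1)) := by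
              refine Real.exp_le_exp.2 ?_
              have h5 : (j : ℝ) ≤ Kk i := by
                have : j ≤ Kk i := by omega
                exact_mod_cast this
              have h6 : (j : ℝ) * dw i ≤ Kk i * dw i := mul_le_mul_of_nonneg_right h5 hd.le
              rw [Kk_mul_dw] at h6
              linarith
        have h4 : 6 * dw i * ((2 : ℝ) ^ ((n : ℤ) - (Rr i : ℤ)) * (1 + 4 * dw i) ^ j) ≤ c := by
          rw [hc]
          exact mul_le_mul_of_nonneg_left (mul_le_mul_of_nonneg_left h3 (by positivity))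
            (by positivity)
        have h5 : ∫ x, EW (Ww i) (j + 1) (fun σ => f (L.wd σ x)) ∂μ - ∫ x, f x ∂μ =
            (∫ x, EW (Ww i) (j + 1) (fun σ => f (L.wd σ x)) ∂μ -
              ∫ x, EW (Ww i) j (fun σ => f (L.wd σ x)) ∂μ) +
            (∫ x, EW (Ww i) j (fun σ => f (L.wd σ x)) ∂μ - ∫ x, f x ∂μ) := by ring
        rw [h5]
        refine (abs_add_le _ _).trans ?_
        push_cast
        linarith
    refine (hmain k hk).trans ?_
    have h1 : (k : ℝ) * c ≤ Kk i * c := by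
      have : (k : ℝ) ≤ Kk i := by exact_mod_cast hk
      exact mul_le_mul_of_nonneg_right this hc0
    refine h1.trans (le_of_eq ?_)
    have h2 := Kk_mul_dw i
    have h3 : (2 : ℝ) ^ ((n : ℤ) - (Rr i : ℤ)) = 2 ^ n / 2 ^ (20 * (i + 1)) := by
      rw [zpow_sub₀ (by norm_num), zpow_natCast, zpow_natCast]
      rfl
    rw [hc, h3]
    unfold er
    calc (Kk i : ℝ) * (6 * dw i * (2 ^ n / 2 ^ (20 * (i + 1)) * Real.exp (4 * ((i : ℝ) + 1)))) =
        6 * (Kk i * dw i) * (2 ^ n / 2 ^ (20 * (i + 1)) * Real.exp (4 * ((i : ℝ) + 1))) := by ring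
      _ = _ := by
        rw [h2]
        ring
  · have h2 : (2 : ℝ) ≤ er n i := by
      have h3 : (2 : ℝ) ^ (20 * (i + 1)) ≤ 2 ^ n := by
        refine pow_le_pow_right₀ one_le_two ?_
        unfold Rr at hn
        omega
      have h4 : 1 ≤ Real.exp (4 * ((i : ℝ) + 1)) := Real.one_le_exp (by positivity)
      unfold er
      rw [le_div_iff₀ (by positivity)]
      have h5 : (2 : ℝ) * 2 ^ (20 * (i + 1)) ≤ 6 * ((i : ℝ) + 1) * 2 ^ n * 1 := by
        have : (0 : ℝ) < 2 ^ n := by positivity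
        nlinarith
      refine h5.trans (mul_le_mul_of_nonneg_left h4 (by positivity))
    refine le_trans ?_ h2
    have h3 : |∫ x, EW (Ww i) k (fun σ => f (L.wd σ x)) ∂μ| ≤ 1 :=
      qi_abs fun x => EW_abs_le_one (Ww_nonempty i) fun σ => hb _
    have h4 : |∫ x, f x ∂μ| ≤ 1 := qi_abs hb
    rw [abs_le] at h3 h4 ⊢
    constructor <;> linarith [h3.1, h3.2, h4.1, h4.2]

theorem Stn.inv_av {A : Type} [Countable A] [MeasurableSpace A] [MeasurableSingletonClass A]
    {L : Sys A} {μ : Measure (ℤ → A)} [IsProbabilityMeasure μ] (h : Stn L μ) {n i : ℕ}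
    {f : (ℤ → A) → ℝ} (hf : Loc n f) (hb : ∀ x, |f x| ≤ 1) :
    |∫ x, av i (fun σ => f (L.wd σ x)) ∂μ - ∫ x, f x ∂μ| ≤ er n i := by
  have hK : (0 : ℝ) < Kk i := by exact_mod_cast Kk_pos i
  have h1 : ∫ x, av i (fun σ => f (L.wd σ x)) ∂μ - ∫ x, f x ∂μ =
      (1 / (Kk i : ℝ)) * ∑ k ∈ Finset.range (Kk i),
        (∫ x, EW (Ww i) k (fun σ => f (L.wd σ x)) ∂μ - ∫ x, f x ∂μ) := by
    unfold av
    rw [integral_const_mul, integral_finsetSum _
      (fun k _ => EW_integrable (fun σ => qi_int hf hb σ) _ k), Finset.sum_sub_distrib,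
      Finset.sum_const, Finset.card_range, nsmul_eq_mul]
    field_simp
  rw [h1, abs_mul, abs_of_pos (by positivity)]
  have h2 : |∑ k ∈ Finset.range (Kk i),
      (∫ x, EW (Ww i) k (fun σ => f (L.wd σ x)) ∂μ - ∫ x, f x ∂μ)| ≤ Kk i * er n i := by
    refine (Finset.abs_sum_le_sum_abs _ _).trans ?_
    refine (Finset.sum_le_card_nsmul _ _ (er n i) fun k hk => ?_).trans (le_of_eq ?_)
    · exact h.inv hf hb (Finset.mem_range.1 hk).le
    · rw [Finset.card_range, nsmul_eq_mul]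
  calc 1 / (Kk i : ℝ) * |∑ k ∈ Finset.range (Kk i),
        (∫ x, EW (Ww i) k (fun σ => f (L.wd σ x)) ∂μ - ∫ x, f x ∂μ)| ≤
        1 / (Kk i : ℝ) * (Kk i * er n i) := mul_le_mul_of_nonneg_left h2 (by positivity)
    _ = er n i := by
      field_simp

end Pool.MP4bb68cEx
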