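import Mathlib
import Pool.Agent.Work.MP_4bb68c_ex.Defs
import Pool.Agent.Work.MP_4bb68c_ex.Defs2
import Pool.Agent.Work.MP_4bb68c_ex.SysB
import Pool.Agent.Work.MP_4bb68c_ex.EWb
import Pool.Agent.Work.MP_4bb68c_ex.EWg
import Pool.Agent.Work.MP_4bb68c_ex.Greedy
import Pool.Agent.Work.MP_4bb68c_ex.Link
import Pool.Agent.Work.MP_4bb68c_ex.Quasi
import Pool.Agent.Work.MP_4bb68c_ex.LowA
import Pool.Agent.Work.MP_4bb68c_ex.Diss

/-!
# The dissipation: lower bound after integration (module LowB, size M-L)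

Hypotheses: `μ` stationary, almost surely `∃ X, Up X ξ`. All the events used depend on finitely many
coordinates (`Mid K ξ`, `mh K ξ`, `zI ξ (-K') = true`), hence are measurable.

(a) If `Up X ξ` then `Mid K ξ ↔ -K ≤ X ∧ X < K`; so the events `{Mid K}` increase almost surely to
everything: choose `K` with `μ (Mid K) ≥ 7/8`.
(b) Choose `M` with `μ (G) ≥ 3/4`, `G = {Mid K ξ ∧ |mh K ξ| ≤ M}` (increasing in `M` to `{Mid K}`).
`G` is `LocS K`. Let `χ0 = min` of `chi m` over `|m| ≤ M` (a nonempty finite set), `χ0 > 0` (`chi_pos`).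
(c) Choose `K'` with `μ (zI ξ (-K') = true) ≤ 1/16`: if `Up X ξ`, then `zI ξ (-K') = true ↔ X < -K'`, which
for large `K'` is false.
(d) For `i, k` with `k ≤ Kk i` put `r = ⌈2 k dw i⌉ + 4`, `Z = K + r`. Then
`EW (Ww i) k [Z < anc σ h K] ≤ EW (Ww i) k [K + r < gl 1 σ K] ≤ 2^(-r) (1 + dw i)^k ≤
2^(-4) 4^(-k dw i) exp (k dw i) ≤ 1/16` for every `h` (`anc_le_gl`, `gl_tail`,
`1/(2 |Ww i|) = dw i`, `exp x ≤ 4 ^ x` for `x ≥ 0`).
(e) By `Stn.inv` for the indicator of `G`: `∫ ξ, EW (Ww i) k [SC.wd σ ξ ∈ G] dμ ≥ μ (G) - er K i ≥ 5/8` for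
`i` large and all `k ≤ Kk i`.
(f) `gd K M Z ξ σ ≥ [SC.wd σ ξ ∈ G] - [Z < anc σ (pr (hI ξ)) K]`, so
`∫ ξ in S, EW (Ww i) k (gd K M Z ξ) dμ ≥ 5/8 - 1/16 - 1/16 = 1/2`, where
`S = {zI ξ (-K') = false}` (on the complement, of measure `≤ 1/16`, the integrand is `≤ 1`).
(g) Let `C = K + K' + 5`. For almost every `ξ ∈ S` there is `X ≥ -K'` with `Up X ξ`, and
`Z - X ≤ K + r + K' ≤ C + 2 k dw i` (`r ≤ 2 k dw i + 5`), and `Ioc X Z ⊆ Ww i` if `K' ≤ Rr i` and
`K + r ≤ K + 2 (i+1) + 5 ≤ 20 (i+1) = Rr i` (true for `i` large). So by `lowA`: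
`∑ y ∈ Ww i, (gk (T y ξ) - gk ξ)^2 ≥ χ0^2 (EW (Ww i) k (gd K M Z ξ))^2 / (C + 2 k dw i)`.
(h) Integrate over `S` and use `∫_S φ^2 dμ ≥ (∫_S φ dμ)^2` for the bounded function
`φ ξ = EW (Ww i) k (gd K M Z ξ)` (Cauchy-Schwarz on a space of mass `≤ 1`, or
`∫_S (φ - c)^2 ≥ 0` with `c = ∫_S φ`): the sum of the integrals is
`≥ χ0^2 (1/2)^2 / (C + 2 k dw i)`. So `c = χ0^2 / 4`. Measurability of `φ`: for every word `σ`,
`ξ ↦ gd K M Z ξ σ` is local (it depends on `pr (hI ξ)` near the letters of `σ` and `K`; use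
`EW_measurable`; that `anc σ (pr (hI ξ)) K` is a measurable function of `ξ`: by induction on `σ`,
`anc (s :: σ) h x` is composed from `cs h s` and `anc σ (up1 s h) x`, with `h = pr (hI ξ)`,
`h z` measurable for each `z`; prove for every measurable family `ξ ↦ H ξ` of heights that
`ξ ↦ anc σ (H ξ) x` is measurable).
-/

set_option autoImplicit false

open MeasureTheory ProbabilityTheory Filter Topology
open scoped NNReal ENNReal

namespace Pool.MP4bb68cEx

open Pool.MP4bb68c Pool.MP4bb68cOne Pool.MP4bb68cCl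

private theorem lb_up1 {α : Type*} [MeasurableSpace α] (s : ℤ) {H : α → ℤ → ℤ}
    (hH : ∀ z, Measurable fun a => H a z) (z : ℤ) : Measurable fun a => up1 s (H a) z := by
  by_cases hz : z = s
  · have e : (fun a => up1 s (H a) z) =
        fun a => max (H a z + 1) (max (H a (z + 1)) (H a (z - 1))) := by
      funext a
      unfold up1 up
      rw [if_pos (decide_eq_true hz)]
    rw [e]
    exact ((hH z).add_const 1).max ((hH (z + 1)).max (hH (z - 1)))
  · have e : (fun a => up1 s (H a) z) = fun a => H a z := by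
      funext a
      exact up1_of_ne hz _
    rw [e]
    exact hH z

private theorem lb_cs {α : Type*} [MeasurableSpace α] (s : ℤ) {H : α → ℤ → ℤ}
    (hH : ∀ z, Measurable fun a => H a z) : Measurable fun a => cs (H a) s := by
  unfold cs
  refine Measurable.ite ?_ measurable_const (Measurable.ite ?_ measurable_const measurable_const)
  · exact measurableSet_le (((hH s).add_const 1).max (hH (s - 1))) (hH (s + 1))
  · exact measurableSet_le (hH (s - 1)) ((hH s).add_const 1)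

theorem measurable_anc {α : Type*} [MeasurableSpace α] (σ : List ℤ) {H : α → ℤ → ℤ}
    (hH : ∀ z, Measurable fun a => H a z) (x : ℤ) : Measurable fun a => anc σ (H a) x := by
  induction σ generalizing H with
  | nil => exact measurable_const
  | cons s σ ih =>
    have h1 : Measurable fun a => anc σ (up1 s (H a)) x := ih (lb_up1 s hH)
    have e : (fun a => anc (s :: σ) (H a) x) = fun a =>
        if anc σ (up1 s (H a)) x = s then cs (H a) s else anc σ (up1 s (H a)) x := rfl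
    rw [e]
    exact Measurable.ite (measurableSet_eq_fun h1 measurable_const) (lb_cs s hH) h1

private theorem lb_pr {α : Type*} [MeasurableSpace α] {f : α → ℤ → ℤ}
    (hf : ∀ z, Measurable fun a => f a z) (z : ℤ) : Measurable fun a => pr (f a) z := by
  unfold MP4bb68cCl.pr
  by_cases hz : 0 ≤ z
  · simp only [hz, if_true]
    exact Finset.measurable_fun_sum _ fun i _ => hf _
  · simp only [hz, if_false]
    exact (Finset.measurable_fun_sum _ fun i _ => hf _).neg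

private theorem lb_agree {K : ℕ} {x x' : ℤ → ℤ × Bool}
    (h : ∀ y : ℤ, -(K : ℤ) ≤ y → y ≤ K → x y = x' y) :
    zI x K = zI x' K ∧ zI x (-(K : ℤ)) = zI x' (-(K : ℤ)) ∧ mh K x = mh K x' := by
  refine ⟨?_, ?_, ?_⟩
  · show (x K).2 = (x' K).2
    rw [h K (by omega) le_rfl]
  · show (x (-(K : ℤ))).2 = (x' (-(K : ℤ))).2
    rw [h (-(K : ℤ)) le_rfl (by omega)]
  · unfold mh
    congr 1
    refine Finset.sum_congr rfl fun y hy => ?_
    rw [Finset.mem_Ico] at hy
    show (x y).1 = (x' y).1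
    rw [h y hy.1 hy.2.le]

private theorem lb_locFd (K : ℕ) : Loc K (Fd K) := by
  intro x x' h
  obtain ⟨h1, h2, h3⟩ := lb_agree h
  unfold Fd
  rw [h1, h2, h3]

private theorem lb_locMid (K : ℕ) : LocS K {ξ : ℤ → ℤ × Bool | Mid K ξ} := by
  intro x x' h
  obtain ⟨h1, h2, h3⟩ := lb_agree h
  show Mid K x ↔ Mid K x'
  unfold Mid
  rw [h1, h2]

private theorem lb_locG (K M : ℕ) :
    LocS K {ξ : ℤ → ℤ × Bool | Mid K ξ ∧ |mh K ξ| ≤ M} := by
  intro x x' h
  obtain ⟨h1, h2, h3⟩ := lb_agree h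
  show (Mid K x ∧ |mh K x| ≤ M) ↔ (Mid K x' ∧ |mh K x'| ≤ M)
  unfold Mid
  rw [h1, h2, h3]

private theorem lb_locT (K : ℕ) : LocS K {ξ : ℤ → ℤ × Bool | zI ξ (-(K : ℤ)) = true} := by
  intro x x' h
  obtain ⟨h1, h2, h3⟩ := lb_agree h
  show zI x (-(K : ℤ)) = true ↔ zI x' (-(K : ℤ)) = true
  rw [h2]

private theorem lb_tail (i k K : ℕ) (h : ℤ → ℤ) {r : ℤ} (hr : 2 * (k * dw i) + 4 ≤ (r : ℝ)) :
    EW (Ww i) k (fun σ => if (K : ℤ) + r < anc σ h K then 1 else 0) ≤ 1 / 16 := by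
  have h1 : EW (Ww i) k (fun σ => if (K : ℤ) + r < anc σ h K then 1 else 0) ≤
      EW (Ww i) k (fun σ => if (K : ℤ) + r < gl 1 σ K then 1 else 0) := by
    refine EW_mono fun σ _ _ => ?_
    by_cases h2 : (K : ℤ) + r < anc σ h K
    · rw [if_pos h2, if_pos (h2.trans_le (anc_le_gl σ h K))]
    · rw [if_neg h2]
      split_ifs <;> norm_num
  refine h1.trans ((gl_tail (Ww_nonempty i) k K r).trans ?_)
  rw [one_div_card]
  have hw := dw_pos i
  have hl := Real.log_two_gt_d9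
  have e1 : (2 : ℝ) ^ (-r) = Real.exp (Real.log 2 * (-(r : ℝ))) := by
    rw [← Real.rpow_intCast, Real.rpow_def_of_pos two_pos]
    push_cast
    rfl
  have e2 : (1 + dw i) ^ k ≤ Real.exp (k * dw i) := by
    rw [Real.exp_nat_mul]
    refine pow_le_pow_left₀ (by linarith) ?_ k
    have := Real.add_one_le_exp (dw i)
    linarith
  have e3 : Real.exp (Real.log 2 * (-4)) = 1 / 16 := by
    rw [← Real.rpow_def_of_pos two_pos, Real.rpow_neg two_pos.le]
    norm_num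
  calc (2 : ℝ) ^ (-r) * (1 + dw i) ^ k ≤
        Real.exp (Real.log 2 * (-(r : ℝ))) * Real.exp (k * dw i) := by
        rw [e1]
        exact mul_le_mul_of_nonneg_left e2 (Real.exp_pos _).le
    _ = Real.exp (Real.log 2 * (-(r : ℝ)) + k * dw i) := by rw [Real.exp_add]
    _ ≤ Real.exp (Real.log 2 * (-4)) := by
        apply Real.exp_le_exp.2
        have ht : 0 ≤ (k : ℝ) * dw i := by positivity
        have h3 : Real.log 2 * (2 * (k * dw i) + 4) ≤ Real.log 2 * r :=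
          mul_le_mul_of_nonneg_left hr (by linarith)
        nlinarith
    _ = 1 / 16 := e3

private theorem lb_gd_meas (K M : ℕ) (Z : ℤ) (σ : List ℤ) :
    Measurable fun ξ : ℤ → ℤ × Bool => gd K M Z ξ σ := by
  unfold gd
  refine Measurable.ite ?_ measurable_const measurable_const
  have h1 : MeasurableSet (SC.wd σ ⁻¹' {ξ : ℤ → ℤ × Bool | Mid K ξ ∧ |mh K ξ| ≤ M}) :=
    SC.measurable_wd σ (lb_locG K M).measurableSet
  have h2 : MeasurableSet {ξ : ℤ → ℤ × Bool | anc σ (pr (hI ξ)) K ≤ Z} := by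
    refine measurableSet_le (measurable_anc σ (fun z => ?_) _) measurable_const
    refine lb_pr (fun y => ?_) z
    exact measurable_fst.comp (measurable_pi_apply y)
  have e : {ξ : ℤ → ℤ × Bool | Mid K (SC.wd σ ξ) ∧ |mh K (SC.wd σ ξ)| ≤ M ∧
      anc σ (pr (hI ξ)) K ≤ Z} = (SC.wd σ ⁻¹' {ξ | Mid K ξ ∧ |mh K ξ| ≤ M}) ∩
        {ξ | anc σ (pr (hI ξ)) K ≤ Z} := by
    ext ξ
    show (_ ∧ _ ∧ _) ↔ ((_ ∧ _) ∧ _)
    tauto
  rw [e]
  exact h1.inter h2

private theorem lb_gk_meas (K i k : ℕ) : Measurable (gk K (Ww i) k) :=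
  EW_measurable (fun σ => (lb_locFd K).measurable.comp (SC.measurable_wd σ)) _ _

private theorem lb_gk_abs (K i k : ℕ) (ξ : ℤ → ℤ × Bool) : |gk K (Ww i) k ξ| ≤ 1 :=
  EW_abs_le_one (Ww_nonempty i) fun σ => Fd_abs_le K _

private theorem lb_bt {b : Bool} (h : ¬ b = false) : b = true := by
  cases b
  · exact absurd rfl h
  · rfl

private theorem lb_bf {b : Bool} (h : ¬ b = true) : b = false := by
  cases b
  · rfl
  · exact absurd rfl h

theorem lowB {μ : Measure (ℤ → ℤ × Bool)} [IsProbabilityMeasure μ] (h : Stn SC μ)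
    (hu : ∀ᵐ ξ ∂μ, ∃ X, Up X ξ) :
    ∃ (K : ℕ) (c C : ℝ) (i₀ : ℕ), 0 < c ∧ 1 ≤ C ∧ K ≤ Rr i₀ ∧ ∀ i ≥ i₀, ∀ k < Kk i,
      c / (C + 2 * (k * dw i)) ≤
        ∑ y ∈ Ww i, ∫ ξ, (gk K (Ww i) k (SC.T y ξ) - gk K (Ww i) k ξ) ^ 2 ∂μ := by
  -- the choice of K
  obtain ⟨K, hK⟩ : ∃ K : ℕ, ENNReal.ofReal (7 / 8) < μ {ξ | Mid K ξ} := by
    have h1 : Tendsto (fun K : ℕ => μ {ξ | Mid K ξ}) atTop (𝓝 (μ Set.univ)) := by
      refine tendsto_measure_of_ae_tendsto_indicator_of_isFiniteMeasure atTop MeasurableSet.univ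
        (fun K => (lb_locMid K).measurableSet) ?_
      filter_upwards [hu] with ξ hξ
      obtain ⟨X, hX⟩ := hξ
      refine eventually_atTop.2 ⟨X.natAbs + 1, fun K hK => ?_⟩
      refine ⟨fun _ => trivial, fun _ => ?_⟩
      refine ⟨(hX _).2 (by omega), lb_bf fun h2 => ?_⟩
      have := (hX _).1 h2
      omega
    rw [measure_univ] at h1
    have h2 : ENNReal.ofReal (7 / 8) < 1 := by
      rw [← ENNReal.ofReal_one]
      exact (ENNReal.ofReal_lt_ofReal_iff one_pos).2 (by norm_num)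
    exact (h1.eventually (lt_mem_nhds h2)).exists
  -- the choice of M
  obtain ⟨M, hM⟩ : ∃ M : ℕ, ENNReal.ofReal (7 / 8) < μ {ξ | Mid K ξ ∧ |mh K ξ| ≤ M} := by
    have h1 : Tendsto (fun M : ℕ => μ {ξ | Mid K ξ ∧ |mh K ξ| ≤ M}) atTop
        (𝓝 (μ {ξ | Mid K ξ})) := by
      refine tendsto_measure_of_ae_tendsto_indicator_of_isFiniteMeasure atTop
        (lb_locMid K).measurableSet (fun M => (lb_locG K M).measurableSet) ?_
      refine Eventually.of_forall fun ξ => ?_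
      refine eventually_atTop.2 ⟨(mh K ξ).natAbs, fun M hM => ?_⟩
      refine ⟨fun h2 => h2.1, fun h2 => ⟨h2, ?_⟩⟩
      rw [Int.abs_eq_natAbs]
      exact_mod_cast hM
    exact (h1.eventually (lt_mem_nhds hK)).exists
  -- the choice of K'
  obtain ⟨K', hK'⟩ : ∃ K' : ℕ, μ {ξ | zI ξ (-(K' : ℤ)) = true} < ENNReal.ofReal (1 / 16) := by
    have h1 : Tendsto (fun K : ℕ => μ {ξ | zI ξ (-(K : ℤ)) = true}) atTop (𝓝 (μ ∅)) := by
      refine tendsto_measure_of_ae_tendsto_indicator_of_isFiniteMeasure atTop MeasurableSet.empty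
        (fun K => (lb_locT K).measurableSet) ?_
      filter_upwards [hu] with ξ hξ
      obtain ⟨X, hX⟩ := hξ
      refine eventually_atTop.2 ⟨X.natAbs + 1, fun K hK => ?_⟩
      refine ⟨fun h2 => ?_, fun h2 => absurd h2 (Set.notMem_empty _)⟩
      have := (hX _).1 h2
      omega
    rw [measure_empty] at h1
    exact (h1.eventually (gt_mem_nhds (ENNReal.ofReal_pos.2 (by norm_num)))).exists
  set G : Set (ℤ → ℤ × Bool) := {ξ | Mid K ξ ∧ |mh K ξ| ≤ M} with hG
  set D : Set (ℤ → ℤ × Bool) := {ξ | zI ξ (-(K' : ℤ)) = true} with hD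
  have hGm : MeasurableSet G := (lb_locG K M).measurableSet
  have hDm : MeasurableSet D := (lb_locT K').measurableSet
  have hGr : 3 / 4 ≤ μ.real G := by
    have h1 : 7 / 8 < μ.real G := by
      rw [Measure.real, ← ENNReal.ofReal_lt_iff_lt_toReal (by norm_num) (measure_ne_top _ _)]
      exact hM
    linarith
  have hDr : μ.real D ≤ 1 / 16 := by
    have h1 : μ.real D ≤ (ENNReal.ofReal (1 / 16)).toReal :=
      ENNReal.toReal_mono ENNReal.ofReal_ne_top hK'.le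
    rwa [ENNReal.toReal_ofReal (by norm_num)] at h1
  -- the constant
  obtain ⟨m0, hm0, hmin⟩ := Finset.exists_min_image (Finset.Icc (-(M : ℤ)) M) chi
    ⟨0, Finset.mem_Icc.2 ⟨by omega, by omega⟩⟩
  set χ0 := chi m0 with hχ0
  have hχpos : 0 < χ0 := chi_pos m0
  have hχ : ∀ m : ℤ, |m| ≤ M → χ0 ≤ chi m := by
    intro m hm
    rw [abs_le] at hm
    exact hmin m (Finset.mem_Icc.2 hm)
  -- large i
  obtain ⟨i₁, hi₁⟩ : ∃ i₁ : ℕ, ∀ i ≥ i₁, er K i ≤ 1 / 8 := by
    have h1 := (er_tendsto K).eventually (gt_mem_nhds (show (0 : ℝ) < 1 / 8 by norm_num))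
    obtain ⟨i₁, h2⟩ := eventually_atTop.1 h1
    exact ⟨i₁, fun i hi => (h2 i hi).le⟩
  refine ⟨K, χ0 ^ 2 / 4, K + K' + 5, i₁ + K + K' + 5, by positivity, ?_, ?_, ?_⟩
  · have : (0 : ℝ) ≤ K := Nat.cast_nonneg K
    have : (0 : ℝ) ≤ K' := Nat.cast_nonneg K'
    linarith
  · unfold Rr
    omega
  intro i hi k hk
  have hw := dw_pos i
  set t : ℝ := k * dw i with ht
  have ht0 : 0 ≤ t := by positivity
  have hti : t ≤ i + 1 := by
    rw [← Kk_mul_dw i, ht]
    refine mul_le_mul_of_nonneg_right ?_ hw.le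
    exact_mod_cast hk.le
  set r : ℤ := ⌈2 * t⌉ + 4 with hr
  have hr1 : 2 * t + 4 ≤ (r : ℝ) := by
    rw [hr]
    push_cast
    have := Int.le_ceil (2 * t)
    linarith
  have hr2 : (r : ℝ) ≤ 2 * t + 5 := by
    rw [hr]
    push_cast
    have := (Int.ceil_lt_add_one (2 * t)).le
    linarith
  set Z : ℤ := K + r with hZ
  set C : ℝ := K + K' + 5 + 2 * t with hC
  have hKn : (0 : ℝ) ≤ K := Nat.cast_nonneg K
  have hKn' : (0 : ℝ) ≤ K' := Nat.cast_nonneg K'
  have hCpos : 0 < C := by linarith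
  set f : (ℤ → ℤ × Bool) → ℝ := G.indicator (fun _ => (1 : ℝ)) with hf
  have hfl : Loc K f := (lb_locG K M).loc
  have hf0 : ∀ ξ, 0 ≤ f ξ := fun ξ => Set.indicator_nonneg (fun _ _ => zero_le_one) ξ
  have hf1 : ∀ ξ, f ξ ≤ 1 := fun ξ => Set.indicator_le_self' (fun _ _ => zero_le_one) ξ
  have hfa : ∀ ξ, |f ξ| ≤ 1 := fun ξ => by
    rw [abs_of_nonneg (hf0 ξ)]
    exact hf1 ξ
  have hfi : ∫ ξ, f ξ ∂μ = μ.real G := by
    rw [hf, integral_indicator_const _ hGm, smul_eq_mul, mul_one]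
  -- the average of the indicator of G
  set FF : (ℤ → ℤ × Bool) → ℝ := fun ξ => EW (Ww i) k (fun σ => f (SC.wd σ ξ)) with hFF
  have hFFi : 5 / 8 ≤ ∫ ξ, FF ξ ∂μ := by
    have h1 := Stn.inv h hfl hfa hk.le
    have h2 := hi₁ i (by omega)
    rw [hfi] at h1
    have h3 := (abs_le.1 h1).1
    have h4 : ∫ ξ, FF ξ ∂μ = ∫ ξ, EW (Ww i) k (fun σ => f (SC.wd σ ξ)) ∂μ := rfl
    rw [h4]
    linarith
  have hFFm : Measurable FF :=
    EW_measurable (fun σ => hfl.measurable.comp (SC.measurable_wd σ)) _ _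
  have hFFa : ∀ ξ, |FF ξ| ≤ 1 := fun ξ => EW_abs_le_one (Ww_nonempty i) fun σ => hfa _
  have hFFint : Integrable FF μ :=
    Integrable.of_bound hFFm.aestronglyMeasurable 1 (Eventually.of_forall fun ξ => by
      rw [Real.norm_eq_abs]
      exact hFFa ξ)
  -- comparison with gd
  have hgd : ∀ ξ, FF ξ - 1 / 16 ≤ EW (Ww i) k (gd K M Z ξ) := by
    intro ξ
    have h1 : EW (Ww i) k (fun σ => f (SC.wd σ ξ) -
        (if (K : ℤ) + r < anc σ (pr (hI ξ)) K then 1 else 0)) ≤ EW (Ww i) k (gd K M Z ξ) := by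
      refine EW_mono fun σ _ _ => ?_
      unfold gd
      by_cases h2 : SC.wd σ ξ ∈ G
      · have e : f (SC.wd σ ξ) = 1 := Set.indicator_of_mem h2 _
        rw [e]
        by_cases h3 : (K : ℤ) + r < anc σ (pr (hI ξ)) K
        · rw [if_pos h3]
          split_ifs <;> norm_num
        · rw [if_neg h3, if_pos ⟨h2.1, h2.2, not_lt.1 h3⟩]
          norm_num
      · have e : f (SC.wd σ ξ) = 0 := Set.indicator_of_notMem h2 _
        rw [e]
        split_ifs <;> norm_num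
    rw [EW_sub] at h1
    have h2 := lb_tail i k K (pr (hI ξ)) hr1
    have h3 : EW (Ww i) k (fun σ => f (SC.wd σ ξ)) = FF ξ := rfl
    rw [h3] at h1
    linarith
  -- the sum of squares
  set Q : (ℤ → ℤ × Bool) → ℝ := fun ξ =>
    ∑ y ∈ Ww i, (gk K (Ww i) k (SC.T y ξ) - gk K (Ww i) k ξ) ^ 2 with hQ
  have hQ0 : ∀ ξ, 0 ≤ Q ξ := fun ξ => Finset.sum_nonneg fun y _ => sq_nonneg _
  have hQi : ∀ y, Integrable (fun ξ => (gk K (Ww i) k (SC.T y ξ) - gk K (Ww i) k ξ) ^ 2) μ := by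
    intro y
    have hm : Measurable (fun ξ => (gk K (Ww i) k (SC.T y ξ) - gk K (Ww i) k ξ) ^ 2) :=
      (((lb_gk_meas K i k).comp (SC.measurable_T y)).sub (lb_gk_meas K i k)).pow_const 2
    refine Integrable.of_bound hm.aestronglyMeasurable 4 (Eventually.of_forall fun ξ => ?_)
    rw [Real.norm_eq_abs, abs_pow]
    have h1 := lb_gk_abs K i k (SC.T y ξ)
    have h2 := lb_gk_abs K i k ξ
    have h3 : |gk K (Ww i) k (SC.T y ξ) - gk K (Ww i) k ξ| ≤ 2 := by
      rw [abs_le] at h1 h2 ⊢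
      constructor <;> linarith [h1.1, h1.2, h2.1, h2.2]
    have h4 := abs_nonneg (gk K (Ww i) k (SC.T y ξ) - gk K (Ww i) k ξ)
    nlinarith
  have hQint : Integrable Q μ := integrable_finsetSum _ fun y _ => hQi y
  have hQe : ∫ ξ, Q ξ ∂μ =
      ∑ y ∈ Ww i, ∫ ξ, (gk K (Ww i) k (SC.T y ξ) - gk K (Ww i) k ξ) ^ 2 ∂μ :=
    integral_finsetSum _ fun y _ => hQi y
  -- the pointwise inequality
  have hpt : ∀ᵐ ξ ∂μ, χ0 ^ 2 * (FF ξ - 5 / 16 - D.indicator (fun _ => (1 : ℝ)) ξ) ≤ C * Q ξ := by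
    filter_upwards [hu] with ξ hξ
    obtain ⟨X, hX⟩ := hξ
    by_cases hd : ξ ∈ D
    · rw [Set.indicator_of_mem hd]
      have h1 := (abs_le.1 (hFFa ξ)).2
      have h2 : χ0 ^ 2 * (FF ξ - 5 / 16 - 1) ≤ 0 :=
        mul_nonpos_of_nonneg_of_nonpos (sq_nonneg _) (by linarith)
      have h3 := mul_nonneg hCpos.le (hQ0 ξ)
      linarith
    · rw [Set.indicator_of_notMem hd, sub_zero]
      have hX1 : -(K' : ℤ) ≤ X := by
        by_contra h2
        exact hd ((hX _).2 (by omega))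
      have hX1' : -(K' : ℝ) ≤ X := by exact_mod_cast hX1
      have hZX : ((Z - X : ℤ) : ℝ) ≤ C := by
        rw [hZ, hC]
        push_cast
        linarith
      have hsub : Finset.Ioc X Z ⊆ Ww i := by
        intro y hy
        rw [Finset.mem_Ioc] at hy
        unfold Ww
        rw [Finset.mem_Icc]
        have hrb : r ≤ 2 * ((i : ℤ) + 1) + 5 := by
          have : (r : ℝ) ≤ ((2 * ((i : ℤ) + 1) + 5 : ℤ) : ℝ) := by
            push_cast
            linarith
          exact_mod_cast this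
        unfold Rr
        push_cast
        constructor
        · omega
        · omega
      have h1 := lowA K M Z hχpos.le hχ hX hZX hCpos.le hsub k
      have h2 := hgd ξ
      have h3 : χ0 ^ 2 * (FF ξ - 5 / 16) ≤ (χ0 * EW (Ww i) k (gd K M Z ξ)) ^ 2 := by
        rw [mul_pow]
        refine mul_le_mul_of_nonneg_left ?_ (sq_nonneg _)
        nlinarith [sq_nonneg (EW (Ww i) k (gd K M Z ξ) - 1 / 2)]
      exact h3.trans h1
  have hDint : Integrable (D.indicator (fun _ => (1 : ℝ))) μ :=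
    (integrable_const 1).indicator hDm
  have hint := integral_mono_ae (((hFFint.sub (integrable_const _)).sub hDint).const_mul (χ0 ^ 2))
    (hQint.const_mul C) hpt
  rw [integral_const_mul, integral_const_mul] at hint
  have e1 : ∫ ξ, (FF ξ - 5 / 16 - D.indicator (fun _ => (1 : ℝ)) ξ) ∂μ =
      ∫ ξ, FF ξ ∂μ - 5 / 16 - μ.real D := by
    have i1 : Integrable (fun ξ => FF ξ - 5 / 16) μ := hFFint.sub (integrable_const _)
    rw [integral_sub i1 hDint, integral_sub hFFint (integrable_const _),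
      integral_indicator_const _ hDm]
    simp
  have e2 : χ0 ^ 2 * (∫ ξ, FF ξ ∂μ - 5 / 16 - μ.real D) ≤ C * ∫ ξ, Q ξ ∂μ := by
    rw [← e1]
    exact hint
  rw [hQe] at e2
  have e3 : χ0 ^ 2 / 4 ≤ χ0 ^ 2 * (∫ ξ, FF ξ ∂μ - 5 / 16 - μ.real D) := by
    have h1 : 1 / 4 ≤ ∫ ξ, FF ξ ∂μ - 5 / 16 - μ.real D := by linarith
    have h2 := mul_le_mul_of_nonneg_left h1 (sq_nonneg χ0)
    linarith
  rw [div_le_iff₀ hCpos]
  linarith

end Pool.MP4bb68cEx
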