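import Mathlib
import Pool.Agent.Work.MP_4bb68c_ex.Defs
import Pool.Agent.Work.MP_4bb68c_ex.Defs2
import Pool.Agent.Work.MP_4bb68c_ex.Link
import Pool.Agent.Work.MP_4bb68c_ex.LowB
import Pool.Agent.Work.MP_4bb68c_ex.Proj

/-!
# Random initial colours (module Bern, size M)

`exists_bern`: the product over `ℤ` of the uniform law on `Bool` (`Measure.infinitePi`, `PMF.bernoulli` or
`(1/2) • dirac true + (1/2) • dirac false`). For `a ≠ b` the pair of coordinates has the product law
(`iIndepFun` of the coordinates, or evaluate `Measure.infinitePi_pi` on the two cylinders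
`{ζ a = true, ζ b = false}` and `{ζ a = false, ζ b = true}`, each of measure `1/4`).

`init_col`: `π = (ν.prod β).map (fun p y => (p.1 y, p.2 y))`. Then `π.map hI = ν` (first marginal of a
product with a probability measure). Fix `σ` and `m`. By `zI_wd` and `hI` of the image being `p.1`:
`zI (SC.wd σ ξ) x = p.2 (anc σ (pr p.1) x)` for `ξ` the image of `p`. So the event is
`{p | p.2 (a p.1) ≠ p.2 (b p.1)}` with `a η = anc σ (pr η) (-m)`, `b η = anc σ (pr η) m` (measurable by
`measurable_anc`; the event is measurable: countable union over the values of `a` and `b`). By Fubini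
(`Measure.prod_apply`) its measure is `∫ β {ζ | ζ (a η) ≠ ζ (b η)} dν`, and the inner measure is `1/2` if
`a η ≠ b η` and `0` otherwise.
-/

set_option autoImplicit false

open MeasureTheory ProbabilityTheory Filter Topology
open scoped NNReal ENNReal

namespace Pool.MP4bb68cEx

open Pool.MP4bb68c Pool.MP4bb68cOne Pool.MP4bb68cCl

/-- The uniform law on `Bool`. -/
private noncomputable def bl45 : Measure Bool :=
  (1 / 2 : ℝ≥0∞) • Measure.dirac true + (1 / 2 : ℝ≥0∞) • Measure.dirac false

private instance bl45_prob : IsProbabilityMeasure bl45 := by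
  constructor
  simp only [bl45, Measure.add_apply, Measure.smul_apply, measure_univ, smul_eq_mul, mul_one]
  exact ENNReal.add_halves 1

private theorem bl45_true : bl45 {true} = 1 / 2 := by
  simp [bl45]

private theorem bl45_false : bl45 {false} = 1 / 2 := by
  simp [bl45]

theorem exists_bern : ∃ β : Measure (ℤ → Bool), IsProbabilityMeasure β ∧
    ∀ a b : ℤ, a ≠ b → β.real {ζ | ζ a ≠ ζ b} = 1 / 2 := by
  classical
  refine ⟨Measure.infinitePi (fun _ : ℤ => bl45), inferInstance, ?_⟩
  intro a b hab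
  have cyl : ∀ u v : Bool, (Measure.infinitePi (fun _ : ℤ => bl45)) {ζ | ζ a = u ∧ ζ b = v} =
      bl45 {u} * bl45 {v} := by
    intro u v
    have e : {ζ : ℤ → Bool | ζ a = u ∧ ζ b = v} =
        Set.pi (({a, b} : Finset ℤ) : Set ℤ) (fun i => if i = a then {u} else {v}) := by
      ext ζ
      simp only [Set.mem_setOf_eq, Set.mem_pi, Finset.coe_insert, Finset.coe_singleton,
        Set.mem_insert_iff, Set.mem_singleton_iff]
      constructor
      · rintro ⟨h1, h2⟩ i hi
        rcases hi with hi | hi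
        · subst hi
          simp [h1]
        · subst hi
          rw [if_neg (Ne.symm hab)]
          simp [h2]
      · intro h
        constructor
        · have := h a (Or.inl rfl)
          simpa using this
        · have := h b (Or.inr rfl)
          rw [if_neg (Ne.symm hab)] at this
          simpa using this
    rw [e, Measure.infinitePi_pi]
    · rw [Finset.prod_pair hab, if_pos rfl, if_neg (Ne.symm hab)]
    · intro i _
      exact MeasurableSet.of_discrete
  have mc : ∀ u v : Bool, MeasurableSet {ζ : ℤ → Bool | ζ a = u ∧ ζ b = v} := by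
    intro u v
    exact (measurableSet_eq_fun (measurable_pi_apply a) measurable_const).inter
      (measurableSet_eq_fun (measurable_pi_apply b) measurable_const)
  have e2 : {ζ : ℤ → Bool | ζ a ≠ ζ b} =
      {ζ | ζ a = true ∧ ζ b = false} ∪ {ζ | ζ a = false ∧ ζ b = true} := by
    ext ζ
    simp only [Set.mem_setOf_eq, Set.mem_union]
    cases ζ a <;> cases ζ b <;> simp
  rw [e2, measureReal_union _ (mc _ _), measureReal_def, measureReal_def, cyl, cyl, bl45_true,
    bl45_false, ENNReal.toReal_mul]
  · norm_num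
  · rw [Set.disjoint_left]
    intro ζ h1 h2
    simp only [Set.mem_setOf_eq] at h1 h2
    rw [h1.1] at h2
    simp at h2

private theorem measurable_pr45 (z : ℤ) : Measurable fun η : ℤ → ℤ => pr η z := by
  unfold Pool.MP4bb68cCl.pr
  split_ifs
  · exact Finset.measurable_sum _ fun i _ => measurable_pi_apply _
  · refine Measurable.neg ?_
    exact Finset.measurable_sum _ fun i _ => measurable_pi_apply _

theorem init_col (ν : Measure (ℤ → ℤ)) [IsProbabilityMeasure ν] :
    ∃ π : Measure (ℤ → ℤ × Bool), IsProbabilityMeasure π ∧ π.map Pool.MP4bb68cEx.hI = ν ∧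
      ∀ (σ : List ℤ) (m : ℕ),
        π.real {ξ | zI (SC.wd σ ξ) (-(m : ℤ)) ≠ zI (SC.wd σ ξ) m} =
          (1 / 2) * ν.real {η | anc σ (pr η) (-(m : ℤ)) ≠ anc σ (pr η) m} := by
  classical
  obtain ⟨β, hβ, hb⟩ := exists_bern
  let g : (ℤ → ℤ) × (ℤ → Bool) → ℤ → ℤ × Bool := fun p y => (p.1 y, p.2 y)
  have hg : Measurable g := by
    refine measurable_pi_iff.2 fun y => ?_
    exact ((measurable_pi_apply y).comp measurable_fst).prodMk
      ((measurable_pi_apply y).comp measurable_snd)
  have hIg : ∀ p, Pool.MP4bb68cEx.hI (g p) = p.1 := fun p => rfl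
  refine ⟨(ν.prod β).map g, Measure.isProbabilityMeasure_map hg.aemeasurable, ?_, ?_⟩
  · rw [Measure.map_map measurable_hI hg]
    have e : Pool.MP4bb68cEx.hI ∘ g = Prod.fst := by
      funext p
      rfl
    rw [e, measurePreserving_fst.map_eq]
  · intro σ m
    have hA : ∀ x : ℤ, Measurable fun η : ℤ → ℤ => anc σ (pr η) x := fun x =>
      measurable_anc σ (H := fun η => pr η) measurable_pr45 x
    have hZ : ∀ x : ℤ, Measurable fun ξ : ℤ → ℤ × Bool => zI (SC.wd σ ξ) x := fun x =>
      (measurable_pi_apply x).comp (measurable_zI.comp (SC.measurable_wd σ))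
    have hS : MeasurableSet {ξ : ℤ → ℤ × Bool | zI (SC.wd σ ξ) (-(m : ℤ)) ≠ zI (SC.wd σ ξ) m} :=
      (measurableSet_eq_fun (hZ _) (hZ _)).compl
    have hS' := hg hS
    have hE : MeasurableSet {η : ℤ → ℤ | anc σ (pr η) (-(m : ℤ)) ≠ anc σ (pr η) m} :=
      (measurableSet_eq_fun (hA _) (hA _)).compl
    rw [measureReal_def, Measure.map_apply hg hS, Measure.prod_apply hS']
    have key : ∀ η : ℤ → ℤ, β (Prod.mk η ⁻¹'
        (g ⁻¹' {ξ : ℤ → ℤ × Bool | zI (SC.wd σ ξ) (-(m : ℤ)) ≠ zI (SC.wd σ ξ) m})) =
        Set.indicator {η : ℤ → ℤ | anc σ (pr η) (-(m : ℤ)) ≠ anc σ (pr η) m}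
          (fun _ => (1 / 2 : ℝ≥0∞)) η := by
      intro η
      have e1 : Prod.mk η ⁻¹'
          (g ⁻¹' {ξ : ℤ → ℤ × Bool | zI (SC.wd σ ξ) (-(m : ℤ)) ≠ zI (SC.wd σ ξ) m}) =
          {ζ : ℤ → Bool | ζ (anc σ (pr η) (-(m : ℤ))) ≠ ζ (anc σ (pr η) m)} := by
        ext ζ
        simp only [Set.mem_preimage, Set.mem_setOf_eq]
        rw [zI_wd, zI_wd]
        exact Iff.rfl
      rw [e1]
      by_cases hc : anc σ (pr η) (-(m : ℤ)) = anc σ (pr η) m
      · rw [Set.indicator_of_notMem (by simpa using hc)]
        have : {ζ : ℤ → Bool | ζ (anc σ (pr η) (-(m : ℤ))) ≠ ζ (anc σ (pr η) m)} = ∅ := by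
          ext ζ
          simp [hc]
        rw [this, measure_empty]
      · rw [Set.indicator_of_mem (by simpa using hc)]
        have h1 := hb _ _ hc
        rw [measureReal_def] at h1
        have h2 : β {ζ : ℤ → Bool | ζ (anc σ (pr η) (-(m : ℤ))) ≠ ζ (anc σ (pr η) m)} ≠ ∞ :=
          measure_ne_top _ _
        rw [← ENNReal.ofReal_toReal h2, h1]
        rw [ENNReal.ofReal_div_of_pos (by norm_num)]
        simp
    simp only [key]
    rw [lintegral_indicator_const hE, ENNReal.toReal_mul, measureReal_def]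
    simp

end Pool.MP4bb68cEx
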