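import Mathlib
import Pool.Agent.Work.MP_4bb68c_ex.Defs
import Pool.Agent.Work.MP_4bb68c_ex.Defs2
import Pool.Agent.Work.MP_4bb68c_ex.SysB
import Pool.Agent.Work.MP_4bb68c_ex.EWb
import Pool.Agent.Work.MP_4bb68c_ex.EWf

/-!
# The energy inequality (module Energy, size M)

`var_ineq`: with `u y = v y - v0` and `w * |W| = 1/2`, the left side minus the right side is
`w ∑ u^2 - w^2 (∑ u)^2 - (w/2) ∑ u^2`, and `(∑ u)^2 ≤ |W| ∑ u^2` (`sq_sum_le_card_mul_sum_sq`), so it is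
`≥ w ∑ u^2 (1 - w |W| - 1/2) = 0`. (Expand: `1/2 v0^2 + w ∑ (v0 + u)^2 - (v0 + w ∑ u)^2 =
w ∑ u^2 - w^2 (∑ u)^2`.)

`energy`: write `g_k x = EW (Ww i) k (fun σ => f (L.wd σ x))`, `w = dw i`, `R = Rr i`. `g_k` is
`Loc (R + 1)` and `|g_k| ≤ 1`. `g_{k+1} x = 1/2 g_k x + w ∑ y ∈ Ww i, g_k (L.T y x)` (first-letter
recursion). `var_ineq` with `v0 = g_k x`, `v y = g_k (L.T y x)` gives
`1/2 g_k^2 + w ∑_y g_k(T y ·)^2 - g_{k+1}^2 ≥ (w/2) ∑_y (g_k (T y ·) - g_k)^2`. Integrate. As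
`1/2 + w |Ww i| = 1`, the integral of the first two terms is
`∫ g_k^2 + w ∑_{y ∈ Ww i} (∫ g_k(T y ·)^2 - ∫ g_k^2)`. By the balance equation for `g_k^2`
(`Loc (R+1)`, window `Icc (-(R+1)) (R+2) = Ww i ∪ {-(R+1), R+1, R+2}`) the last sum is minus the sum of
the three terms with `s = -(R+1), R+1, R+2`, each of absolute value
`≤ sup |g_k(T s ·)^2 - g_k^2| ≤ 2 sup |g_k (T s ·) - g_k| ≤ 4 * 2^(n-R) (1 + 4w)^k` by `EW_right`
(`B = R`; `x` and `T s x` agree on the coordinates `< R` for `s ≥ R + 1`) and `EW_left` (`B = R`; they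
agree on the coordinates `> -R` for `s = -(R+1)`). So
`(w/2) ∑_y ∫ (g_k (T y ·) - g_k)^2 ≤ ∫ g_k^2 - ∫ g_{k+1}^2 + 12 w 2^(n-R) (1+4w)^k`. Sum over
`k < Kk i`: telescoping gives `≤ 1`, and `∑_k 12 w 2^(n-R) (1+4w)^k ≤ 12 (w Kk i) 2^(n-R) exp (4 w Kk i)
= 2 * er n i` (`w Kk i = i + 1`, `R = 20 (i + 1)`).
-/

set_option autoImplicit false
set_option linter.unusedVariables false

open MeasureTheory ProbabilityTheory Filter Topology
open scoped NNReal ENNReal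

namespace Pool.MP4bb68cEx

open Pool.MP4bb68c Pool.MP4bb68cOne Pool.MP4bb68cCl

theorem var_ineq (W : Finset ℤ) (w : ℝ) (hw : 0 ≤ w) (hW : w * W.card = 1 / 2) (v0 : ℝ)
    (v : ℤ → ℝ) :
    (w / 2) * ∑ y ∈ W, (v y - v0) ^ 2 ≤
      (1 / 2) * v0 ^ 2 + w * ∑ y ∈ W, (v y) ^ 2 - ((1 / 2) * v0 + w * ∑ y ∈ W, v y) ^ 2 := by
  have e1 : ∑ y ∈ W, (v y - v0) ^ 2 =
      ∑ y ∈ W, (v y) ^ 2 - 2 * v0 * ∑ y ∈ W, v y + (W.card : ℝ) * v0 ^ 2 := by
    have : ∀ y ∈ W, (v y - v0) ^ 2 = (v y) ^ 2 - 2 * v0 * v y + v0 ^ 2 := fun y _ => by ring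
    rw [Finset.sum_congr rfl this, Finset.sum_add_distrib, Finset.sum_sub_distrib,
      ← Finset.mul_sum, Finset.sum_const, nsmul_eq_mul]
  have e2 : ∑ y ∈ W, (v y - v0) = ∑ y ∈ W, v y - (W.card : ℝ) * v0 := by
    rw [Finset.sum_sub_distrib, Finset.sum_const, nsmul_eq_mul]
  have h1 : (∑ y ∈ W, (v y - v0)) ^ 2 ≤ (W.card : ℝ) * ∑ y ∈ W, (v y - v0) ^ 2 :=
    sq_sum_le_card_mul_sum_sq
  set S1 : ℝ := ∑ y ∈ W, v y with hS1
  set S2 : ℝ := ∑ y ∈ W, (v y) ^ 2 with hS2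
  set D : ℝ := ∑ y ∈ W, (v y - v0) ^ 2 with hD
  set U : ℝ := ∑ y ∈ W, (v y - v0) with hU
  set c : ℝ := (W.card : ℝ) with hc
  -- right side = w D - w^2 U^2
  have e3 : (1 / 2) * v0 ^ 2 + w * S2 - ((1 / 2) * v0 + w * S1) ^ 2 = w * D - w ^ 2 * U ^ 2 := by
    have hS : S2 = D + 2 * v0 * S1 - c * v0 ^ 2 := by linarith
    have hT : S1 = U + c * v0 := by linarith
    have hv : w * c = 1 / 2 := hW
    calc (1 / 2) * v0 ^ 2 + w * S2 - ((1 / 2) * v0 + w * S1) ^ 2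
        = (1 / 2) * v0 ^ 2 + w * D + 2 * v0 * (w * U + (w * c) * v0) - (w * c) * v0 ^ 2
          - ((1 / 2) * v0 + (w * U + (w * c) * v0)) ^ 2 := by
            rw [hS, hT]; ring
      _ = w * D - w ^ 2 * U ^ 2 := by
            rw [hv]; ring
  rw [e3]
  have h2 : w ^ 2 * U ^ 2 ≤ w ^ 2 * (c * D) := mul_le_mul_of_nonneg_left h1 (sq_nonneg w)
  have h3 : w ^ 2 * (c * D) = w / 2 * D := by
    calc w ^ 2 * (c * D) = w * (w * c) * D := by ring
      _ = w / 2 * D := by rw [hW]; ring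
  linarith

/-- the average -/
private noncomputable def gg {A : Type} (L : Sys A) (i : ℕ) (f : (ℤ → A) → ℝ) (k : ℕ)
    (x : ℤ → A) : ℝ := EW (Ww i) k (fun σ => f (L.wd σ x))

private theorem gg_succ {A : Type} (L : Sys A) (i : ℕ) (f : (ℤ → A) → ℝ) (k : ℕ) (x : ℤ → A) :
    gg L i f (k + 1) x = (1 / 2) * gg L i f k x + dw i * ∑ y ∈ Ww i, gg L i f k (L.T y x) := by
  unfold gg
  rw [← one_div_card i]
  rfl

private theorem gg_abs {A : Type} (L : Sys A) (i : ℕ) {f : (ℤ → A) → ℝ} (hb : ∀ x, |f x| ≤ 1)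
    (k : ℕ) (x : ℤ → A) : |gg L i f k x| ≤ 1 :=
  EW_abs_le_one (Ww_nonempty i) (fun σ => hb _)

private theorem gg_loc {A : Type} (L : Sys A) {n i : ℕ} {f : (ℤ → A) → ℝ} (hf : Loc n f)
    (hn : n ≤ Rr i) (k : ℕ) : Loc (Rr i + 1) (gg L i f k) :=
  Loc.EW L hf (by omega) k

private theorem dw_card (i : ℕ) : dw i * ((Ww i).card : ℝ) = 1 / 2 := by
  rw [← one_div_card i]
  have h : (0 : ℝ) < ((Ww i).card : ℝ) := by
    exact_mod_cast Finset.card_pos.2 (Ww_nonempty i)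
  field_simp

private theorem win (i : ℕ) : Finset.Icc (-((Rr i + 1 : ℕ) : ℤ)) (((Rr i + 1 : ℕ) : ℤ) + 1) =
    insert (-((Rr i : ℤ) + 1)) (insert ((Rr i : ℤ) + 1) (insert ((Rr i : ℤ) + 2) (Ww i))) := by
  ext y
  simp only [Ww, Finset.mem_Icc, Finset.mem_insert]
  push_cast
  omega

private theorem win_sum (i : ℕ) (F : ℤ → ℝ) :
    ∑ s ∈ Finset.Icc (-((Rr i + 1 : ℕ) : ℤ)) (((Rr i + 1 : ℕ) : ℤ) + 1), F s =
      F (-((Rr i : ℤ) + 1)) + (F ((Rr i : ℤ) + 1) + (F ((Rr i : ℤ) + 2) + ∑ y ∈ Ww i, F y)) := by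
  rw [win, Finset.sum_insert, Finset.sum_insert, Finset.sum_insert]
  · simp only [Ww, Finset.mem_Icc]
    omega
  · simp only [Ww, Finset.mem_Icc, Finset.mem_insert]
    omega
  · simp only [Ww, Finset.mem_Icc, Finset.mem_insert]
    omega

private theorem pint {A : Type} [Countable A] [MeasurableSpace A] [MeasurableSingletonClass A]
    {μ : Measure (ℤ → A)} [IsProbabilityMeasure μ] {F : (ℤ → A) → ℝ} (hF : Measurable F) {C : ℝ}
    (hC : ∀ x, |F x| ≤ C) : Integrable F μ :=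
  Integrable.of_bound hF.aestronglyMeasurable C (Filter.Eventually.of_forall fun x => by
    rw [Real.norm_eq_abs]; exact hC x)

private theorem dif {A : Type} (L : Sys A) {n i : ℕ} {f : (ℤ → A) → ℝ} (hf : Loc n f)
    (hb : ∀ x, |f x| ≤ 1) (k : ℕ) {s : ℤ} (hs : (Rr i : ℤ) + 1 ≤ s ∨ s ≤ -((Rr i : ℤ) + 1))
    (x : ℤ → A) : |gg L i f k (L.T s x) - gg L i f k x| ≤
      2 * (2 : ℝ) ^ ((n : ℤ) - Rr i) * (1 + 4 * dw i) ^ k := by
  rw [← one_div_card i]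
  rcases hs with h | h
  · refine EW_right L hf hb (B := (Rr i : ℤ)) (fun y hy => ?_) (Ww_nonempty i) k
    exact L.out s x y (by omega) (by omega)
  · refine EW_left L hf hb (B := (Rr i : ℤ)) (fun y hy => ?_) (Ww_nonempty i) k
    exact L.out s x y (by omega) (by omega)

private theorem pw0 (n R k : ℕ) {w : ℝ} (hw : 0 < w) :
    0 ≤ 2 * (2 : ℝ) ^ ((n : ℤ) - R) * (1 + 4 * w) ^ k := by positivity

private theorem jdif {A : Type} [Countable A] [MeasurableSpace A] [MeasurableSingletonClass A]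
    (L : Sys A) {μ : Measure (ℤ → A)} [IsProbabilityMeasure μ] {n i : ℕ}
    {f : (ℤ → A) → ℝ} (hf : Loc n f) (hb : ∀ x, |f x| ≤ 1) (hn : n ≤ Rr i) (k : ℕ) {s : ℤ}
    (hs : (Rr i : ℤ) + 1 ≤ s ∨ s ≤ -((Rr i : ℤ) + 1)) :
    ∫ x, gg L i f k x ^ 2 ∂μ - ∫ x, gg L i f k (L.T s x) ^ 2 ∂μ ≤
      4 * (2 : ℝ) ^ ((n : ℤ) - Rr i) * (1 + 4 * dw i) ^ k := by
  have hm : Measurable (gg L i f k) := (gg_loc L hf hn k).measurable
  have hmT : Measurable (fun x => gg L i f k (L.T s x)) := hm.comp (L.measurable_T s)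
  have hsq : ∀ x, |gg L i f k x ^ 2| ≤ 1 := fun x => by
    rw [abs_pow]
    exact pow_le_one₀ (abs_nonneg _) (gg_abs L i hb k x)
  have i1 : Integrable (fun x => gg L i f k x ^ 2) μ := pint (hm.pow_const 2) hsq
  have i2 : Integrable (fun x => gg L i f k (L.T s x) ^ 2) μ :=
    pint (hmT.pow_const 2) (fun x => hsq _)
  rw [← integral_sub i1 i2]
  have hc : ∫ x, (gg L i f k x ^ 2 - gg L i f k (L.T s x) ^ 2) ∂μ ≤
      ∫ _ : ℤ → A, 4 * (2 : ℝ) ^ ((n : ℤ) - Rr i) * (1 + 4 * dw i) ^ k ∂μ := by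
    refine integral_mono (i1.sub i2) (integrable_const _) (fun x => ?_)
    have hd := dif L hf hb k hs x
    have ha := gg_abs L i hb k x
    have hb' := gg_abs L i hb k (L.T s x)
    have h0 := pw0 n (Rr i) k (dw_pos i)
    show gg L i f k x ^ 2 - gg L i f k (L.T s x) ^ 2 ≤ _
    have e : gg L i f k x ^ 2 - gg L i f k (L.T s x) ^ 2 =
        -((gg L i f k (L.T s x) - gg L i f k x) * (gg L i f k (L.T s x) + gg L i f k x)) := by ring
    rw [e]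
    have h1 : |(gg L i f k (L.T s x) - gg L i f k x) * (gg L i f k (L.T s x) + gg L i f k x)| ≤
        2 * (2 : ℝ) ^ ((n : ℤ) - Rr i) * (1 + 4 * dw i) ^ k * 2 := by
      rw [abs_mul]
      refine mul_le_mul hd ?_ (abs_nonneg _) h0
      have := abs_add_le (gg L i f k (L.T s x)) (gg L i f k x)
      linarith
    have h2 := neg_abs_le
      ((gg L i f k (L.T s x) - gg L i f k x) * (gg L i f k (L.T s x) + gg L i f k x))
    nlinarith [h1, h2]
  refine hc.trans (le_of_eq ?_)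
  simp

private theorem stepE {A : Type} [Countable A] [MeasurableSpace A] [MeasurableSingletonClass A]
    {L : Sys A} {μ : Measure (ℤ → A)} [IsProbabilityMeasure μ] (h : Stn L μ) {n i : ℕ}
    {f : (ℤ → A) → ℝ} (hf : Loc n f) (hb : ∀ x, |f x| ≤ 1) (hn : n ≤ Rr i) (k : ℕ) :
    (dw i / 2) * ∑ y ∈ Ww i, ∫ x, (gg L i f k (L.T y x) - gg L i f k x) ^ 2 ∂μ ≤
      ∫ x, gg L i f k x ^ 2 ∂μ - ∫ x, gg L i f (k + 1) x ^ 2 ∂μ +
        12 * dw i * (2 : ℝ) ^ ((n : ℤ) - Rr i) * (1 + 4 * dw i) ^ k := by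
  have hm : ∀ k, Measurable (gg L i f k) := fun k => (gg_loc L hf hn k).measurable
  have hmT : ∀ s, Measurable (fun x => gg L i f k (L.T s x)) :=
    fun s => (hm k).comp (L.measurable_T s)
  have hsq : ∀ k x, |gg L i f k x ^ 2| ≤ 1 := fun k x => by
    rw [abs_pow]
    exact pow_le_one₀ (abs_nonneg _) (gg_abs L i hb k x)
  have i1 : ∀ k, Integrable (fun x => gg L i f k x ^ 2) μ := fun k =>
    pint ((hm k).pow_const 2) (hsq k)
  have i2 : ∀ s, Integrable (fun x => gg L i f k (L.T s x) ^ 2) μ := fun s =>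
    pint ((hmT s).pow_const 2) (fun x => hsq k _)
  have i3 : ∀ s, Integrable (fun x => (gg L i f k (L.T s x) - gg L i f k x) ^ 2) μ := fun s =>
    pint (((hmT s).sub (hm k)).pow_const 2) (C := 4) (fun x => by
      rw [abs_pow]
      have h1 : |gg L i f k (L.T s x) - gg L i f k x| ≤ 2 := by
        have ha := abs_le.1 (gg_abs L i hb k x)
        have hb' := abs_le.1 (gg_abs L i hb k (L.T s x))
        rw [abs_le]
        constructor <;> linarith [ha.1, ha.2, hb'.1, hb'.2]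
      have h0 := abs_nonneg (gg L i f k (L.T s x) - gg L i f k x)
      nlinarith)
  -- integrate the variance inequality
  have hvar : ∫ x, (dw i / 2) * ∑ y ∈ Ww i, (gg L i f k (L.T y x) - gg L i f k x) ^ 2 ∂μ ≤
      ∫ x, ((1 / 2) * gg L i f k x ^ 2 + dw i * ∑ y ∈ Ww i, gg L i f k (L.T y x) ^ 2 -
        gg L i f (k + 1) x ^ 2) ∂μ := by
    refine integral_mono ?_ ?_ (fun x => ?_)
    · exact (integrable_finsetSum _ (fun y _ => i3 y)).const_mul _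
    · exact (((i1 k).const_mul _).add
        ((integrable_finsetSum _ (fun y _ => i2 y)).const_mul _)).sub (i1 (k + 1))
    · have hv := var_ineq (Ww i) (dw i) (dw_pos i).le (dw_card i) (gg L i f k x)
        (fun y => gg L i f k (L.T y x))
      show (dw i / 2) * ∑ y ∈ Ww i, (gg L i f k (L.T y x) - gg L i f k x) ^ 2 ≤
        (1 / 2) * gg L i f k x ^ 2 + dw i * ∑ y ∈ Ww i, gg L i f k (L.T y x) ^ 2 -
        gg L i f (k + 1) x ^ 2
      rw [gg_succ L i f k x]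
      exact hv
  have el : ∫ x, (dw i / 2) * ∑ y ∈ Ww i, (gg L i f k (L.T y x) - gg L i f k x) ^ 2 ∂μ =
      (dw i / 2) * ∑ y ∈ Ww i, ∫ x, (gg L i f k (L.T y x) - gg L i f k x) ^ 2 ∂μ := by
    rw [integral_const_mul, integral_finsetSum _ (fun y _ => i3 y)]
  have er' : ∫ x, ((1 / 2) * gg L i f k x ^ 2 + dw i * ∑ y ∈ Ww i, gg L i f k (L.T y x) ^ 2 -
        gg L i f (k + 1) x ^ 2) ∂μ =
      (1 / 2) * ∫ x, gg L i f k x ^ 2 ∂μ + dw i * ∑ y ∈ Ww i, ∫ x, gg L i f k (L.T y x) ^ 2 ∂μ -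
        ∫ x, gg L i f (k + 1) x ^ 2 ∂μ := by
    have j2 : Integrable (fun x => dw i * ∑ y ∈ Ww i, gg L i f k (L.T y x) ^ 2) μ :=
      (integrable_finsetSum _ (fun y _ => i2 y)).const_mul _
    have j1 : Integrable (fun x => (1 / 2) * gg L i f k x ^ 2) μ := (i1 k).const_mul _
    have j3 : Integrable (fun x => (1 / 2) * gg L i f k x ^ 2 +
      dw i * ∑ y ∈ Ww i, gg L i f k (L.T y x) ^ 2) μ := j1.add j2
    rw [integral_sub j3 (i1 (k + 1)), integral_add j1 j2, integral_const_mul,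
      integral_const_mul, integral_finsetSum _ (fun y _ => i2 y)]
  rw [el, er'] at hvar
  -- the balance equation
  have hbal : ∑ s ∈ Finset.Icc (-((Rr i + 1 : ℕ) : ℤ)) (((Rr i + 1 : ℕ) : ℤ) + 1),
      (∫ x, gg L i f k (L.T s x) ^ 2 ∂μ - ∫ x, gg L i f k x ^ 2 ∂μ) = 0 := by
    refine h (Rr i + 1) (fun x => gg L i f k x ^ 2) (fun x x' hx => ?_) (hsq k)
    show gg L i f k x ^ 2 = gg L i f k x' ^ 2
    rw [gg_loc L hf hn k x x' hx]
  rw [win_sum i (fun s => ∫ x, gg L i f k (L.T s x) ^ 2 ∂μ - ∫ x, gg L i f k x ^ 2 ∂μ)] at hbal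
  have b1 := jdif L (μ := μ) hf hb hn k (s := -((Rr i : ℤ) + 1)) (Or.inr le_rfl)
  have b2 := jdif L (μ := μ) hf hb hn k (s := (Rr i : ℤ) + 1) (Or.inl le_rfl)
  have b3 := jdif L (μ := μ) hf hb hn k (s := (Rr i : ℤ) + 2) (Or.inl (by omega))
  rw [Finset.sum_sub_distrib, Finset.sum_const, nsmul_eq_mul] at hbal
  have hcard := dw_card i
  have hw := dw_pos i
  set I0 : ℝ := ∫ x, gg L i f k x ^ 2 ∂μ with hI0
  set I1 : ℝ := ∫ x, gg L i f (k + 1) x ^ 2 ∂μ with hI1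
  set SJ : ℝ := ∑ y ∈ Ww i, ∫ x, gg L i f k (L.T y x) ^ 2 ∂μ with hSJ
  set E : ℝ := (2 : ℝ) ^ ((n : ℤ) - Rr i) * (1 + 4 * dw i) ^ k with hE
  have hs : SJ - ((Ww i).card : ℝ) * I0 ≤ 12 * E := by
    have c1 : 4 * (2 : ℝ) ^ ((n : ℤ) - Rr i) * (1 + 4 * dw i) ^ k = 4 * E := by
      rw [hE]; ring
    rw [c1] at b1 b2 b3
    linarith
  have hs2 : dw i * (SJ - ((Ww i).card : ℝ) * I0) ≤ dw i * (12 * E) :=
    mul_le_mul_of_nonneg_left hs hw.le
  have hs3 : dw i * (SJ - ((Ww i).card : ℝ) * I0) = dw i * SJ - 1 / 2 * I0 := by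
    rw [← hcard]; ring
  have hs4 : 12 * dw i * (2 : ℝ) ^ ((n : ℤ) - Rr i) * (1 + 4 * dw i) ^ k = dw i * (12 * E) := by
    rw [hE]; ring
  rw [hs4]
  linarith

theorem energy {A : Type} [Countable A] [MeasurableSpace A] [MeasurableSingletonClass A]
    {L : Sys A} {μ : Measure (ℤ → A)} [IsProbabilityMeasure μ] (h : Stn L μ) {n i : ℕ}
    {f : (ℤ → A) → ℝ} (hf : Loc n f) (hb : ∀ x, |f x| ≤ 1) (hn : n ≤ Rr i) :
    ∑ k ∈ Finset.range (Kk i), (dw i / 2) * ∑ y ∈ Ww i,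
      ∫ x, (EW (Ww i) k (fun σ => f (L.wd σ (L.T y x))) -
        EW (Ww i) k (fun σ => f (L.wd σ x))) ^ 2 ∂μ ≤ 1 + 2 * er n i := by
  have hw := dw_pos i
  have hK := Kk_mul_dw i
  have h1 : ∑ k ∈ Finset.range (Kk i), (dw i / 2) * ∑ y ∈ Ww i,
      ∫ x, (gg L i f k (L.T y x) - gg L i f k x) ^ 2 ∂μ ≤
      ∑ k ∈ Finset.range (Kk i), ((∫ x, gg L i f k x ^ 2 ∂μ - ∫ x, gg L i f (k + 1) x ^ 2 ∂μ) +
        12 * dw i * (2 : ℝ) ^ ((n : ℤ) - Rr i) * Real.exp (4 * ((i : ℝ) + 1))) := by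
    refine Finset.sum_le_sum (fun k hk => (stepE h hf hb hn k).trans ?_)
    have hk' : k < Kk i := Finset.mem_range.1 hk
    have hexp : (1 + 4 * dw i) ^ k ≤ Real.exp (4 * ((i : ℝ) + 1)) := by
      have e1 : 1 + 4 * dw i ≤ Real.exp (4 * dw i) := by
        have := Real.add_one_le_exp (4 * dw i)
        linarith
      calc (1 + 4 * dw i) ^ k ≤ Real.exp (4 * dw i) ^ k :=
            pow_le_pow_left₀ (by positivity) e1 k
        _ = Real.exp (k * (4 * dw i)) := by rw [← Real.exp_nat_mul]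
        _ ≤ Real.exp (4 * ((i : ℝ) + 1)) := by
            apply Real.exp_le_exp.2
            rw [← hK]
            have : (k : ℝ) ≤ (Kk i : ℝ) := by exact_mod_cast hk'.le
            nlinarith
    have hp : 0 ≤ 12 * dw i * (2 : ℝ) ^ ((n : ℤ) - Rr i) := by positivity
    have := mul_le_mul_of_nonneg_left hexp hp
    linarith
  refine h1.trans ?_
  rw [Finset.sum_add_distrib, Finset.sum_range_sub', Finset.sum_const, Finset.card_range,
    nsmul_eq_mul]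
  have hI0 : ∫ x, gg L i f 0 x ^ 2 ∂μ ≤ 1 := by
    have hm : Measurable (gg L i f 0) := (gg_loc L hf hn 0).measurable
    have hsq : ∀ x, |gg L i f 0 x ^ 2| ≤ 1 := fun x => by
      rw [abs_pow]
      exact pow_le_one₀ (abs_nonneg _) (gg_abs L i hb 0 x)
    calc ∫ x, gg L i f 0 x ^ 2 ∂μ ≤ ∫ _ : ℤ → A, (1 : ℝ) ∂μ :=
          integral_mono (pint (hm.pow_const 2) hsq) (integrable_const _)
            (fun x => (le_abs_self _).trans (hsq x))
      _ = 1 := by simp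
  have hIK : 0 ≤ ∫ x, gg L i f (Kk i) x ^ 2 ∂μ := integral_nonneg (fun x => sq_nonneg _)
  have hE : (Kk i : ℝ) * (12 * dw i * (2 : ℝ) ^ ((n : ℤ) - Rr i) *
      Real.exp (4 * ((i : ℝ) + 1))) = 2 * er n i := by
    have e1 : (2 : ℝ) ^ ((n : ℤ) - Rr i) = 2 ^ n / 2 ^ (20 * (i + 1)) := by
      rw [zpow_sub₀ (by norm_num), zpow_natCast, zpow_natCast]
      rfl
    rw [e1]
    unfold er
    calc (Kk i : ℝ) * (12 * dw i * (2 ^ n / 2 ^ (20 * (i + 1))) * Real.exp (4 * ((i : ℝ) + 1)))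
        = ((Kk i : ℝ) * dw i) * (12 * (2 ^ n / 2 ^ (20 * (i + 1))) *
          Real.exp (4 * ((i : ℝ) + 1))) := by ring
      _ = _ := by rw [hK]; ring
  rw [hE]
  linarith

end Pool.MP4bb68cEx
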