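import Mathlib
import Pool.Agent.Work.MP_4bb68c_ex.Defs
import Pool.Agent.Work.MP_4bb68c_ex.Defs2
import Pool.Agent.Work.MP_4bb68c_ex.SysB

/-!
# Restriction of a stationary law to an event which is almost invariant (module Restr, size M)

PROOF. Let `f` be `Loc m`, `|f| ≤ 1`. For each `n` let `g_n = (B n).indicator f`, which is
`Loc M` with `M = max m (N n)`, `|g_n| ≤ 1`. `Stn.big`:
`∑ s ∈ Icc (-M) (M+1), (∫ g_n (L.T s x) dμ - ∫ g_n dμ) = 0`. Write `b_n` for the indicator of `B n`:
`g_n (L.T s x) - g_n x = b_n x * (f (L.T s x) - f x) + (b_n (L.T s x) - b_n x) * f (L.T s x)`.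
The sum over `s` of the integrals of the second terms has absolute value at most the sum over
`s ∈ Icc (-(N n)) (N n + 1)` of `μ.real {x | ¬ (L.T s x ∈ B n ↔ x ∈ B n)}` (for the other `s`,
`b_n (L.T s x) = b_n x` by `T_far`), so it tends to `0`. The first terms vanish for
`s ∉ Icc (-m) (m+1)` (`T_far`). Hence
`∑ s ∈ Icc (-m) (m+1), ∫ b_n x (f (L.T s x) - f x) dμ → 0` as `n → ∞`; by dominated convergence (`hlim`)
it tends to `∑ s ∈ Icc (-m) (m+1), ∫ 1_{B'} (f (L.T s x) - f x) dμ`, so the latter is `0`: this is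
the balance equation of `μ.restrict B'` (`integral_indicator`).
-/

set_option autoImplicit false

open MeasureTheory ProbabilityTheory Filter Topology
open scoped NNReal ENNReal

namespace Pool.MP4bb68cEx

open Pool.MP4bb68c Pool.MP4bb68cOne Pool.MP4bb68cCl

private theorem bdint {α : Type*} [MeasurableSpace α] {μ : Measure α} [IsFiniteMeasure μ]
    {g : α → ℝ} (hg : Measurable g) (C : ℝ) (hC : ∀ x, |g x| ≤ C) : Integrable g μ :=
  Integrable.of_bound hg.aestronglyMeasurable C
    (Filter.Eventually.of_forall fun x => by rw [Real.norm_eq_abs]; exact hC x)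

private theorem ind_cases {α : Type*} (S : Set α) (x : α) :
    S.indicator (fun _ => (1 : ℝ)) x = 0 ∨ S.indicator (fun _ => (1 : ℝ)) x = 1 := by
  by_cases h : x ∈ S
  · right; exact Set.indicator_of_mem h _
  · left; exact Set.indicator_of_notMem h _

theorem restrict_stn {A : Type} [Countable A] [MeasurableSpace A] [MeasurableSingletonClass A]
    {L : Sys A} {μ : Measure (ℤ → A)} [IsFiniteMeasure μ] (h : Stn L μ) (N : ℕ → ℕ)
    (B : ℕ → Set (ℤ → A)) (hB : ∀ n, LocS (N n) (B n)) (B' : Set (ℤ → A))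
    (hB' : MeasurableSet B') (hlim : ∀ᵐ x ∂μ, ∀ᶠ n in atTop, (x ∈ B n ↔ x ∈ B'))
    (herr : Tendsto (fun n => ∑ s ∈ Finset.Icc (-(N n : ℤ)) (N n + 1),
      μ.real {x | ¬ (L.T s x ∈ B n ↔ x ∈ B n)}) atTop (𝓝 0)) : Stn L (μ.restrict B') := by
  intro m f hf hb
  have hBm : ∀ n, MeasurableSet (B n) := fun n => (hB n).measurableSet
  have hfm : Measurable f := hf.measurable
  have hfT : ∀ s, Measurable (fun x => f (L.T s x)) := fun s => hfm.comp (L.measurable_T s)
  have hD : ∀ s x, |f (L.T s x) - f x| ≤ 2 := by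
    intro s x
    have h1 := abs_le.1 (hb (L.T s x))
    have h2 := abs_le.1 (hb x)
    rw [abs_le]
    constructor <;> linarith [h1.1, h1.2, h2.1, h2.2]
  obtain ⟨b, hbd⟩ : ∃ b : ℕ → (ℤ → A) → ℝ, ∀ n, b n = (B n).indicator (fun _ => (1 : ℝ)) :=
    ⟨_, fun n => rfl⟩
  have hbm : ∀ n, Measurable (b n) := fun n => by
    rw [hbd]; exact measurable_const.indicator (hBm n)
  have hb01 : ∀ n x, b n x = 0 ∨ b n x = 1 := fun n x => by rw [hbd]; exact ind_cases _ x
  have hbT : ∀ n s, Measurable (fun x => b n (L.T s x)) := fun n s =>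
    (hbm n).comp (L.measurable_T s)
  have key : ∀ n, |∑ s ∈ Finset.Icc (-(m : ℤ)) (m + 1), ∫ x, b n x * (f (L.T s x) - f x) ∂μ| ≤
      ∑ s ∈ Finset.Icc (-(N n : ℤ)) (N n + 1), μ.real {x | ¬ (L.T s x ∈ B n ↔ x ∈ B n)} := by
    intro n
    have hbl : Loc (N n) (b n) := by rw [hbd]; exact (hB n).loc
    have hg : Loc (max m (N n)) (fun x => b n x * f x) := by
      intro x x' hxx
      have h1 := hbl.mono (le_max_right m (N n)) x x' hxx
      have h2 := hf.mono (le_max_left m (N n)) x x' hxx
      show b n x * f x = b n x' * f x'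
      rw [h1, h2]
    have hgb : ∀ x, |b n x * f x| ≤ 1 := by
      intro x
      rcases hb01 n x with h0 | h0
      · rw [h0, zero_mul, abs_zero]; exact zero_le_one
      · rw [h0, one_mul]; exact hb x
    have hbig := h.big hg (C := 1) hgb le_rfl
    have iP : ∀ s, Integrable (fun x => b n x * (f (L.T s x) - f x)) μ := fun s =>
      bdint ((hbm n).mul ((hfT s).sub hfm)) 2 fun x => by
        rcases hb01 n x with h0 | h0
        · rw [h0, zero_mul, abs_zero]; norm_num
        · rw [h0, one_mul]; exact hD s x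
    have hQ1 : ∀ s x, |(b n (L.T s x) - b n x) * f (L.T s x)| ≤
        ({x | ¬ (L.T s x ∈ B n ↔ x ∈ B n)} : Set (ℤ → A)).indicator (fun _ => (1 : ℝ)) x := by
      intro s x
      by_cases hx : (L.T s x ∈ B n ↔ x ∈ B n)
      · have e0 : b n (L.T s x) = b n x := by
          rw [hbd]
          by_cases hx' : x ∈ B n
          · rw [Set.indicator_of_mem hx', Set.indicator_of_mem (hx.2 hx')]
          · rw [Set.indicator_of_notMem hx', Set.indicator_of_notMem fun h => hx' (hx.1 h)]
        rw [e0, sub_self, zero_mul, abs_zero]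
        exact Set.indicator_nonneg (fun _ _ => zero_le_one) _
      · rw [Set.indicator_of_mem (show x ∈ {x | ¬ (L.T s x ∈ B n ↔ x ∈ B n)} from hx), abs_mul]
        have h1 : |b n (L.T s x) - b n x| ≤ 1 := by
          rcases hb01 n x with h0 | h0 <;> rcases hb01 n (L.T s x) with h2 | h2 <;>
            rw [h0, h2] <;> norm_num
        have h2 := hb (L.T s x)
        calc |b n (L.T s x) - b n x| * |f (L.T s x)| ≤ 1 * 1 :=
              mul_le_mul h1 h2 (abs_nonneg _) zero_le_one
          _ = 1 := one_mul 1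
    have hQ2 : ∀ s x, |(b n (L.T s x) - b n x) * f (L.T s x)| ≤ 1 := by
      intro s x
      refine (hQ1 s x).trans ?_
      rcases ind_cases {x | ¬ (L.T s x ∈ B n ↔ x ∈ B n)} x with h0 | h0
      · rw [h0]; exact zero_le_one
      · rw [h0]
    have iQ : ∀ s, Integrable (fun x => (b n (L.T s x) - b n x) * f (L.T s x)) μ := fun s =>
      bdint (((hbT n s).sub (hbm n)).mul (hfT s)) 1 (hQ2 s)
    have e1 : ∀ s, ∫ x, b n (L.T s x) * f (L.T s x) ∂μ - ∫ x, b n x * f x ∂μ =
        ∫ x, b n x * (f (L.T s x) - f x) ∂μ +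
          ∫ x, (b n (L.T s x) - b n x) * f (L.T s x) ∂μ := by
      intro s
      have i1 : Integrable (fun x => b n x * f x) μ := bdint ((hbm n).mul hfm) 1 hgb
      have i2 : Integrable (fun x => b n (L.T s x) * f (L.T s x)) μ :=
        bdint ((hbT n s).mul (hfT s)) 1 fun x => hgb _
      rw [← integral_sub i2 i1, ← integral_add (iP s) (iQ s)]
      refine integral_congr_ae (Filter.Eventually.of_forall fun x => ?_)
      show b n (L.T s x) * f (L.T s x) - b n x * f x = b n x * (f (L.T s x) - f x) +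
        (b n (L.T s x) - b n x) * f (L.T s x)
      ring
    rw [Finset.sum_congr rfl fun s _ => e1 s, Finset.sum_add_distrib] at hbig
    have e2 : ∑ s ∈ Finset.Icc (-(m : ℤ)) (m + 1), ∫ x, b n x * (f (L.T s x) - f x) ∂μ =
        ∑ s ∈ Finset.Icc (-((max m (N n) : ℕ) : ℤ)) ((max m (N n) : ℕ) + 1),
          ∫ x, b n x * (f (L.T s x) - f x) ∂μ := by
      refine Finset.sum_subset ?_ fun s _ hs => ?_
      · intro s hs
        rw [Finset.mem_Icc] at hs ⊢
        omega
      · simp only [T_far L hf hs, sub_self, mul_zero, integral_zero]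
    have e3 : ∑ s ∈ Finset.Icc (-(N n : ℤ)) (N n + 1),
        ∫ x, (b n (L.T s x) - b n x) * f (L.T s x) ∂μ =
        ∑ s ∈ Finset.Icc (-((max m (N n) : ℕ) : ℤ)) ((max m (N n) : ℕ) + 1),
          ∫ x, (b n (L.T s x) - b n x) * f (L.T s x) ∂μ := by
      refine Finset.sum_subset ?_ fun s _ hs => ?_
      · intro s hs
        rw [Finset.mem_Icc] at hs ⊢
        omega
      · simp only [T_far L hbl hs, sub_self, zero_mul, integral_zero]
    rw [← e2, ← e3] at hbig
    rw [eq_neg_of_add_eq_zero_left hbig, abs_neg]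
    refine (Finset.abs_sum_le_sum_abs _ _).trans (Finset.sum_le_sum fun s _ => ?_)
    have hEm : MeasurableSet {x | ¬ (L.T s x ∈ B n ↔ x ∈ B n)} := by
      have e4 : {x | ¬ (L.T s x ∈ B n ↔ x ∈ B n)} = symmDiff (L.T s ⁻¹' B n) (B n) := by
        ext x
        rw [Set.mem_symmDiff, Set.mem_preimage, Set.mem_setOf_eq]
        tauto
      rw [e4]
      exact ((L.measurable_T s) (hBm n)).symmDiff (hBm n)
    have h5 := norm_integral_le_of_norm_le (μ := μ)
      (bdint (measurable_const.indicator hEm) 1 fun x => by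
        rcases ind_cases {x | ¬ (L.T s x ∈ B n ↔ x ∈ B n)} x with h0 | h0
        · rw [h0, abs_zero]; exact zero_le_one
        · rw [h0, abs_one])
      (Filter.Eventually.of_forall fun x => by rw [Real.norm_eq_abs]; exact hQ1 s x)
    rw [Real.norm_eq_abs] at h5
    refine h5.trans (le_of_eq ?_)
    rw [integral_indicator_const (1 : ℝ) hEm, smul_eq_mul, mul_one]
  have hlimI : ∀ s, Tendsto (fun n => ∫ x, b n x * (f (L.T s x) - f x) ∂μ) atTop
      (𝓝 (∫ x, B'.indicator (fun _ => (1 : ℝ)) x * (f (L.T s x) - f x) ∂μ)) := by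
    intro s
    refine tendsto_integral_of_dominated_convergence (fun _ => (2 : ℝ))
      (fun n => ((hbm n).mul ((hfT s).sub hfm)).aestronglyMeasurable) (integrable_const _)
      (fun n => Filter.Eventually.of_forall fun x => ?_) ?_
    · rw [Real.norm_eq_abs]
      rcases hb01 n x with h0 | h0
      · rw [h0, zero_mul, abs_zero]; norm_num
      · rw [h0, one_mul]; exact hD s x
    · filter_upwards [hlim] with x hx
      refine tendsto_const_nhds.congr' ?_
      filter_upwards [hx] with n hn
      rw [hbd]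
      by_cases hx' : x ∈ B'
      · rw [Set.indicator_of_mem hx', Set.indicator_of_mem (hn.2 hx')]
      · rw [Set.indicator_of_notMem hx', Set.indicator_of_notMem fun h => hx' (hn.1 h)]
  have hlimS := tendsto_finset_sum (Finset.Icc (-(m : ℤ)) (m + 1)) fun s _ => hlimI s
  have hzero := squeeze_zero_norm (fun n => by rw [Real.norm_eq_abs]; exact key n) herr
  have h0 := tendsto_nhds_unique hlimS hzero
  rw [← h0]
  refine Finset.sum_congr rfl fun s _ => ?_
  rw [← integral_sub ((bdint (hfT s) 1 fun x => hb _).restrict)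
    ((bdint hfm 1 hb).restrict), ← integral_indicator hB']
  refine integral_congr_ae (Filter.Eventually.of_forall fun x => ?_)
  show B'.indicator (fun x => f (L.T s x) - f x) x =
    B'.indicator (fun _ => (1 : ℝ)) x * (f (L.T s x) - f x)
  by_cases hx : x ∈ B'
  · rw [Set.indicator_of_mem hx, Set.indicator_of_mem hx, one_mul]
  · rw [Set.indicator_of_notMem hx, Set.indicator_of_notMem hx, zero_mul]

end Pool.MP4bb68cEx
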