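import Mathlib
import Pool.Agent.Work.MP_4bb68c_ex.Defs
import Pool.Agent.Work.MP_4bb68c_ex.Anc
import Pool.Agent.Work.MP_4bb68c_ex.Link

/-!
# Two changes of colour can be removed (module Kill, size M-L)

`kill`: if the colours change at two bonds `p < q` then there are a word `σ` and a site `s` such that
the state after `σ` belongs to `Bl s` (the update of `s` removes two changes of colour).

PROOF. Take the smallest `q > p` with `ξ ∈ Ch q`; so we may assume that there is no change at the bonds
strictly between `p` and `q`: with `ζ = zI ξ`: `ζ p ≠ ζ (p + 1) = ... = ζ q ≠ ζ (q + 1)`; the colours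
are Booleans, hence `ζ (q + 1) = ζ p`. Suppose that no state `SC.wd σ ξ` is in any `Bl s`.
Let `N ξ'` be the number of `y` in `[p - 2, q]` with `ξ' ∈ Ch y` (`q - p + 3` bonds).

(1) If `ξ'` is not in `Bl s` and `s ∈ [p - 1, q]` then `N (SC.T s ξ') = N ξ'`: only the colour of `s`
changes, which concerns the bonds `s - 1` and `s`, both in `[p - 2, q]`. With `ζ' = zI ξ'` and
`c = csI (hI ξ') s`: if `c = s` nothing changes. Otherwise `c = s + 1` or `c = s - 1`. As `ξ'` is not in
`Bl s`, either `ζ' s = ζ' (s + 1) = ζ' (s - 1)`, or `ζ' (s - 1) ≠ ζ' (s + 1)`. In the first case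
nothing changes; in the second case exactly one of the bonds `s - 1, s` has a change, before and
after (the new colour of `s` is the colour of `s + 1` or of `s - 1`).

(2) The word `[p - 1]` repeated `M + 1` times, followed by `p, p + 1, ..., q`, where
`h = pr (hI ξ)` and `M ≥ |h y - h (p - 1)| + 2` for all `y` in `[p, q + 1]`. Effect: the first update of
`p - 1` gives it a colour `c ∈ {ζ (p - 2), ζ (p - 1), ζ p}` and a height which is at least those of
its two neighbours; so in the further updates of `p - 1` the source is `p - 1` itself (the height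
plus one is larger than the heights of both neighbours), the colour stays `c`, the height increases
by one each time. After this the height of `p - 1` is `≥ h (p - 1) + M + 1 > h y + 1` for all `y` in
`[p, q + 1]`. Then the update of `p` has the source `p - 1` (height of `p - 1` larger than
`h p + 1` and `h (p + 1)`), so `p` gets the height of `p - 1` and the colour `c`; in the same way
`p + 1`, ..., `q` (at the update of `y` the site `y - 1` has the large height, `h y`, `h (y + 1)` are
the old ones). At the end all sites of `[p - 1, q]` have the colour `c`; the sites `p - 2` and `q + 1`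
are unchanged. So `N` at the end is `[ζ (p-2) ≠ c] + [c ≠ ζ (q+1)] = [ζ (p-2) ≠ c] + [c ≠ ζ p]`,
and at the beginning it is `[ζ (p-2) ≠ ζ (p-1)] + [ζ (p-1) ≠ ζ p] + 1 + 1`. For each of the three
values of `c` the first number is strictly smaller than the second one (check the `2^3` Boolean
cases of `ζ (p-2), ζ (p-1), ζ p`). But by (1), applied to the letters of the word one after the
other (all letters are in `[p - 1, q]` and all the intermediate states `SC.wd τ ξ` are not in
any `Bl s`), `N` is constant: a contradiction.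

One can use `zI_wd` / `hI_wd` / `gr_wd` of the module Link to work with `wd` and `anc`, or work with
`SC.T` directly; `SC.wd (σ ++ τ) x = SC.wd τ (SC.wd σ x)` by induction.
-/

set_option autoImplicit false

open MeasureTheory ProbabilityTheory Filter Topology
open scoped NNReal ENNReal

namespace Pool.MP4bb68cEx

open Pool.MP4bb68c Pool.MP4bb68cOne Pool.MP4bb68cCl

private theorem kl_zI (s : ℤ) (x : ℤ → ℤ × Bool) (y : ℤ) :
    zI (SC.T s x) y = if y = s then zI x (csI (hI x) s) else zI x y := rfl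

private theorem kl_cs (η : ℤ → ℤ) (s : ℤ) : csI η s = s - 1 ∨ csI η s = s ∨ csI η s = s + 1 := by
  unfold csI
  split_ifs
  · exact Or.inr (Or.inr rfl)
  · exact Or.inr (Or.inl rfl)
  · exact Or.inl rfl

private theorem kl_wd {A : Type} (L : Sys A) (σ : List ℤ) (s : ℤ) (x : ℤ → A) :
    L.wd (σ ++ [s]) x = L.T s (L.wd σ x) := by
  induction σ generalizing x with
  | nil => rfl
  | cons t σ ih => exact ih (L.T t x)

/-- The indicator of a change of colour. -/
private def kl_nb (x : ℤ → ℤ × Bool) (y : ℤ) : ℤ := if zI x y ≠ zI x (y + 1) then 1 else 0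

private theorem kl_nb_nonneg (x : ℤ → ℤ × Bool) (y : ℤ) : 0 ≤ kl_nb x y := by
  unfold kl_nb
  split_ifs <;> norm_num

private theorem kl_step {ξ : ℤ → ℤ × Bool} {s p q : ℤ} (hs : p - 1 ≤ s) (hq : s ≤ q)
    (hB : ξ ∉ Bl s) :
    ∑ y ∈ Finset.Icc (p - 2) q, kl_nb (SC.T s ξ) y = ∑ y ∈ Finset.Icc (p - 2) q, kl_nb ξ y := by
  rw [← sub_eq_zero, ← Finset.sum_sub_distrib]
  have hsub : ({s - 1, s} : Finset ℤ) ⊆ Finset.Icc (p - 2) q := by
    intro y hy
    rw [Finset.mem_insert, Finset.mem_singleton] at hy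
    rw [Finset.mem_Icc]
    omega
  rw [← Finset.sum_subset hsub]
  · rw [Finset.sum_pair (by omega)]
    have e1 : s - 1 + 1 = s := by ring
    have h1 : zI (SC.T s ξ) (s - 1) = zI ξ (s - 1) := by rw [kl_zI, if_neg (by omega)]
    have h2 : zI (SC.T s ξ) s = zI ξ (csI (hI ξ) s) := by rw [kl_zI, if_pos rfl]
    have h3 : zI (SC.T s ξ) (s + 1) = zI ξ (s + 1) := by rw [kl_zI, if_neg (by omega)]
    unfold kl_nb
    rw [e1, h1, h2, h3]
    have hB' : ¬ (csI (hI ξ) s ≠ s ∧ zI ξ (s - 1) = zI ξ (s + 1) ∧ zI ξ s ≠ zI ξ (s + 1)) := hB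
    have n1 : s - 1 ≠ s := by omega
    have n2 : s + 1 ≠ s := by omega
    rcases kl_cs (hI ξ) s with hc | hc | hc
    · rw [hc] at hB' ⊢
      generalize zI ξ (s - 1) = u at *
      generalize zI ξ s = v at *
      generalize zI ξ (s + 1) = w at *
      cases u <;> cases v <;> cases w <;> simp_all
    · rw [hc]
      ring
    · rw [hc] at hB' ⊢
      generalize zI ξ (s - 1) = u at *
      generalize zI ξ s = v at *
      generalize zI ξ (s + 1) = w at *
      cases u <;> cases v <;> cases w <;> simp_all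
  · intro y hy hy'
    rw [Finset.mem_insert, Finset.mem_singleton, not_or] at hy'
    unfold kl_nb
    rw [kl_zI, kl_zI, if_neg hy'.2, if_neg (by omega : y + 1 ≠ s), sub_self]

private theorem kl_inv {ξ : ℤ → ℤ × Bool} {p q : ℤ} (hno : ∀ σ s, SC.wd σ ξ ∉ Bl s) (σ : List ℤ)
    (hσ : ∀ s ∈ σ, p - 1 ≤ s ∧ s ≤ q) :
    ∑ y ∈ Finset.Icc (p - 2) q, kl_nb (SC.wd σ ξ) y = ∑ y ∈ Finset.Icc (p - 2) q, kl_nb ξ y := by
  induction σ using List.reverseRecOn with
  | nil => rfl
  | append_singleton σ s ih =>
    rw [kl_wd]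
    obtain ⟨h1, h2⟩ := hσ s (List.mem_append.2 (Or.inr (List.mem_singleton.2 rfl)))
    rw [kl_step h1 h2 (hno σ s)]
    exact ih fun t ht => hσ t (List.mem_append.2 (Or.inl ht))

/-- The repeated letter. -/
private theorem kl_rep (h : ℤ → ℤ) (a : ℤ) (k : ℕ) :
    (∀ y, y ≠ a → wd (List.replicate (k + 1) a) h y = h y) ∧
    wd (List.replicate (k + 1) a) h a = up1 a h a + k ∧
    (∀ y, y ≠ a → anc (List.replicate (k + 1) a) h y = y) ∧
    anc (List.replicate (k + 1) a) h a = cs h a := by
  induction k with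
  | zero =>
    have e : List.replicate (0 + 1) a = [] ++ [a] := rfl
    rw [e]
    refine ⟨fun y hy => ?_, ?_, fun y hy => ?_, ?_⟩
    · rw [wd_snoc, up1_of_ne hy]
      rfl
    · rw [wd_snoc]
      show up1 a h a = _
      simp
    · rw [anc_snoc, if_neg hy]
      rfl
    · rw [anc_snoc, if_pos rfl]
      rfl
  | succ k ih =>
    obtain ⟨i1, i2, i3, i4⟩ := ih
    have e : List.replicate (k + 1 + 1) a = List.replicate (k + 1) a ++ [a] :=
      List.replicate_succ'
    rw [e]
    have n1 : a - 1 ≠ a := by omega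
    have n2 : a + 1 ≠ a := by omega
    have c1 := cand_le h a (a - 1) (Or.inl rfl)
    have c2 := cand_le h a (a + 1) (Or.inr (Or.inr rfl))
    rw [if_neg n1, add_zero] at c1
    rw [if_neg n2, add_zero] at c2
    have hk : (0 : ℤ) ≤ k := by positivity
    have hcs : cs (wd (List.replicate (k + 1) a) h) a = a := by
      unfold cs
      rw [i1 _ n1, i1 _ n2, i2]
      rw [if_neg, if_pos]
      · linarith
      · rw [max_le_iff]
        rintro ⟨h1, _⟩
        linarith
    refine ⟨fun y hy => ?_, ?_, fun y hy => ?_, ?_⟩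
    · rw [wd_snoc, up1_of_ne hy, i1 y hy]
    · rw [wd_snoc, up1_self, hcs, if_pos rfl, i2]
      push_cast
      ring
    · rw [anc_snoc, if_neg hy, i3 y hy]
    · rw [anc_snoc, if_pos rfl, hcs, i4]

/-- The sweep. -/
private theorem kl_sweep (h : ℤ → ℤ) (p q : ℤ) (M : ℕ)
    (hM : ∀ y, p ≤ y → y ≤ q + 1 → h y - h (p - 1) ≤ M - 1) (j : ℕ) (hj : (j : ℤ) ≤ q - p + 1) :
    (∀ y, p - 1 ≤ y → y < p + j →
      wd (List.replicate (M + 1) (p - 1) ++ (List.range j).map (fun i : ℕ => p + (i : ℤ))) h y =
        up1 (p - 1) h (p - 1) + M ∧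
      anc (List.replicate (M + 1) (p - 1) ++ (List.range j).map (fun i : ℕ => p + (i : ℤ))) h y =
        cs h (p - 1)) ∧
    (∀ y, (y < p - 1 ∨ p + j ≤ y) →
      wd (List.replicate (M + 1) (p - 1) ++ (List.range j).map (fun i : ℕ => p + (i : ℤ))) h y =
        h y ∧
      anc (List.replicate (M + 1) (p - 1) ++ (List.range j).map (fun i : ℕ => p + (i : ℤ))) h y =
        y) := by
  induction j with
  | zero =>
    obtain ⟨i1, i2, i3, i4⟩ := kl_rep h (p - 1) M
    rw [List.range_zero, List.map_nil, List.append_nil]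
    refine ⟨fun y h1 h2 => ?_, fun y h1 => ?_⟩
    · have : y = p - 1 := by
        push_cast at h2
        omega
      rw [this]
      exact ⟨i2, i4⟩
    · have : y ≠ p - 1 := by
        rcases h1 with h1 | h1
        · omega
        · push_cast at h1
          omega
      exact ⟨i1 y this, i3 y this⟩
  | succ j ih =>
    push_cast at hj
    obtain ⟨i1, i2⟩ := ih (by omega)
    rw [List.range_succ, List.map_append, List.map_singleton, ← List.append_assoc]
    set σ := List.replicate (M + 1) (p - 1) ++ (List.range j).map (fun i : ℕ => p + (i : ℤ)) with hσ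
    have hj0 : (0 : ℤ) ≤ j := by positivity
    have e1 := i1 (p + j - 1) (by omega) (by omega)
    have e2 := i2 (p + j) (Or.inr le_rfl)
    have e3 := i2 (p + j + 1) (Or.inr (by omega))
    have b1 := hM (p + j) (by omega) (by omega)
    have b2 := hM (p + j + 1) (by omega) (by omega)
    have b3 := lt_up1_self h (p - 1)
    have hcs : cs (wd σ h) (p + j) = p + j - 1 := by
      unfold cs
      rw [e1.1, e2.1, e3.1, if_neg, if_neg]
      · intro h1
        linarith
      · rw [max_le_iff]
        rintro ⟨_, h1⟩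
        linarith
    have hw : wd (σ ++ [p + (j : ℤ)]) h (p + j) = up1 (p - 1) h (p - 1) + M := by
      rw [wd_snoc, up1_self, hcs, if_neg (by omega), add_zero, e1.1]
    have ha : anc (σ ++ [p + (j : ℤ)]) h (p + j) = cs h (p - 1) := by
      rw [anc_snoc, if_pos rfl, hcs, e1.2]
    have ho : ∀ y, y ≠ p + j → wd (σ ++ [p + (j : ℤ)]) h y = wd σ h y ∧
        anc (σ ++ [p + (j : ℤ)]) h y = anc σ h y := by
      intro y hy
      rw [wd_snoc, up1_of_ne hy, anc_snoc, if_neg hy]
      exact ⟨rfl, rfl⟩
    refine ⟨fun y h1 h2 => ?_, fun y h1 => ?_⟩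
    · push_cast at h2
      by_cases hy : y = p + j
      · rw [hy]
        exact ⟨hw, ha⟩
      · rw [(ho y hy).1, (ho y hy).2]
        exact i1 y h1 (by omega)
    · push_cast at h1
      have hy : y ≠ p + j := by omega
      rw [(ho y hy).1, (ho y hy).2]
      exact i2 y (by omega)

theorem kill {ξ : ℤ → ℤ × Bool} {p q : ℤ} (hpq : p < q) (hp : ξ ∈ Ch p) (hq : ξ ∈ Ch q) :
    ∃ (σ : List ℤ) (s : ℤ), SC.wd σ ξ ∈ Bl s := by
  classical
  -- the first change to the right of p
  obtain ⟨r, hr, hmin⟩ := Finset.exists_min_image ((Finset.Ioc p q).filter fun r => ξ ∈ Ch r) id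
    ⟨q, Finset.mem_filter.2 ⟨Finset.mem_Ioc.2 ⟨hpq, le_rfl⟩, hq⟩⟩
  rw [Finset.mem_filter, Finset.mem_Ioc] at hr
  obtain ⟨⟨hpr, hrq⟩, hrC⟩ := hr
  have hbtw : ∀ y, p < y → y < r → zI ξ y = zI ξ (y + 1) := by
    intro y h1 h2
    by_contra h3
    have h4 := hmin y (Finset.mem_filter.2 ⟨Finset.mem_Ioc.2 ⟨h1, by omega⟩, h3⟩)
    simp only [id] at h4
    omega
  have hconst : ∀ k : ℕ, p + 1 + k ≤ r → zI ξ (p + 1 + k) = zI ξ (p + 1) := by
    intro k
    induction k with
    | zero => intro _; simp
    | succ k ih =>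
      intro hk
      push_cast at hk ⊢
      rw [← ih (by omega), show p + 1 + ((k : ℤ) + 1) = p + 1 + k + 1 by ring]
      exact (hbtw (p + 1 + k) (by omega) (by omega)).symm
  have hcr : zI ξ r = zI ξ (p + 1) := by
    have h1 := hconst (r - (p + 1)).toNat (by rw [Int.toNat_of_nonneg (by omega)]; omega)
    rw [Int.toNat_of_nonneg (by omega)] at h1
    rwa [show p + 1 + (r - (p + 1)) = r by ring] at h1
  have hp' : zI ξ p ≠ zI ξ (p + 1) := hp
  have hr' : zI ξ r ≠ zI ξ (r + 1) := hrC
  have hend : zI ξ (r + 1) = zI ξ p := by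
    rw [hcr] at hr'
    generalize zI ξ p = u at *
    generalize zI ξ (p + 1) = v at *
    generalize zI ξ (r + 1) = w at *
    cases u <;> cases v <;> cases w <;> simp_all
  by_contra hno
  push Not at hno
  set h := pr (hI ξ) with hh
  obtain ⟨M, hM⟩ : ∃ M : ℕ, ∀ y, p ≤ y → y ≤ r + 1 → h y - h (p - 1) ≤ (M : ℤ) - 1 := by
    refine ⟨(∑ y ∈ Finset.Icc p (r + 1), |h y - h (p - 1)| + 1).toNat, fun y h1 h2 => ?_⟩
    have h3 : |h y - h (p - 1)| ≤ ∑ y ∈ Finset.Icc p (r + 1), |h y - h (p - 1)| :=
      Finset.single_le_sum (f := fun y => |h y - h (p - 1)|) (fun i _ => abs_nonneg _)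
        (Finset.mem_Icc.2 ⟨h1, h2⟩)
    have h4 := le_abs_self (h y - h (p - 1))
    have h5 : (0 : ℤ) ≤ ∑ y ∈ Finset.Icc p (r + 1), |h y - h (p - 1)| + 1 := by
      have := Finset.sum_nonneg (s := Finset.Icc p (r + 1)) (f := fun y => |h y - h (p - 1)|)
        (fun i _ => abs_nonneg _)
      linarith
    rw [Int.toNat_of_nonneg h5]
    linarith
  obtain ⟨s1, s2⟩ := kl_sweep h p r M hM (r - p + 1).toNat
    (by rw [Int.toNat_of_nonneg (by omega)])
  rw [Int.toNat_of_nonneg (by omega)] at s1 s2
  set σ := List.replicate (M + 1) (p - 1) ++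
    (List.range (r - p + 1).toNat).map (fun i : ℕ => p + (i : ℤ)) with hσ
  have hlet : ∀ s ∈ σ, p - 1 ≤ s ∧ s ≤ r := by
    intro s hs
    rw [hσ, List.mem_append] at hs
    rcases hs with hs | hs
    · rw [(List.mem_replicate.1 hs).2]
      omega
    · rw [List.mem_map] at hs
      obtain ⟨i, hi, rfl⟩ := hs
      rw [List.mem_range] at hi
      omega
  have hinv := kl_inv hno σ hlet
  have z1 : ∀ y, p - 1 ≤ y → y ≤ r → zI (SC.wd σ ξ) y = zI ξ (cs h (p - 1)) := by
    intro y h1 h2
    rw [zI_wd, ← hh, (s1 y h1 (by omega)).2]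
  have z2 : zI (SC.wd σ ξ) (p - 2) = zI ξ (p - 2) := by
    rw [zI_wd, ← hh, (s2 (p - 2) (by omega)).2]
  have z3 : zI (SC.wd σ ξ) (r + 1) = zI ξ p := by
    rw [zI_wd, ← hh, (s2 (r + 1) (by omega)).2, hend]
  -- the number of changes at the end
  have hfin : ∑ y ∈ Finset.Icc (p - 2) r, kl_nb (SC.wd σ ξ) y =
      kl_nb (SC.wd σ ξ) (p - 2) + kl_nb (SC.wd σ ξ) r := by
    have hsub : ({p - 2, r} : Finset ℤ) ⊆ Finset.Icc (p - 2) r := by
      intro y hy
      rw [Finset.mem_insert, Finset.mem_singleton] at hy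
      rw [Finset.mem_Icc]
      omega
    rw [← Finset.sum_subset hsub, Finset.sum_pair (by omega)]
    intro y hy hy'
    rw [Finset.mem_Icc] at hy
    rw [Finset.mem_insert, Finset.mem_singleton, not_or] at hy'
    unfold kl_nb
    rw [z1 y (by omega) (by omega), z1 (y + 1) (by omega) (by omega), if_neg (fun h => h rfl)]
  -- the number of changes at the beginning
  have hbeg : kl_nb ξ (p - 2) + (kl_nb ξ (p - 1) + (kl_nb ξ p + kl_nb ξ r)) ≤
      ∑ y ∈ Finset.Icc (p - 2) r, kl_nb ξ y := by
    have hsub : ({p - 2, p - 1, p, r} : Finset ℤ) ⊆ Finset.Icc (p - 2) r := by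
      intro y hy
      rw [Finset.mem_insert, Finset.mem_insert, Finset.mem_insert, Finset.mem_singleton] at hy
      rw [Finset.mem_Icc]
      omega
    refine le_trans (le_of_eq ?_) (Finset.sum_le_sum_of_subset_of_nonneg hsub
      (fun y _ _ => kl_nb_nonneg ξ y))
    rw [Finset.sum_insert, Finset.sum_insert, Finset.sum_pair (by omega)]
    · rw [Finset.mem_insert, Finset.mem_singleton]
      omega
    · rw [Finset.mem_insert, Finset.mem_insert, Finset.mem_singleton]
      omega
  rw [hfin] at hinv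
  rw [← hinv] at hbeg
  have z4 := z1 (p - 1) le_rfl (by omega)
  have z5 := z1 r (by omega) le_rfl
  unfold kl_nb at hbeg
  rw [show p - 2 + 1 = p - 1 by ring, show p - 1 + 1 = p by ring, z2, z3, z4, z5,
    if_pos hp', if_pos hr'] at hbeg
  rcases cs_cases h (p - 1) with hc | hc | hc
  · rw [hc, show p - 1 - 1 = p - 2 by ring] at hbeg
    generalize zI ξ (p - 2) = u at *
    generalize zI ξ (p - 1) = v at *
    generalize zI ξ p = w at *
    clear hc z1 z2 z3 z4 z5
    revert hbeg
    cases u <;> cases v <;> cases w <;> simp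
  · rw [hc] at hbeg
    generalize zI ξ (p - 2) = u at *
    generalize zI ξ (p - 1) = v at *
    generalize zI ξ p = w at *
    clear hc z1 z2 z3 z4 z5
    revert hbeg
    cases u <;> cases v <;> cases w <;> simp
  · rw [hc, show p - 1 + 1 = p by ring] at hbeg
    generalize zI ξ (p - 2) = u at *
    generalize zI ξ (p - 1) = v at *
    generalize zI ξ p = w at *
    clear hc z1 z2 z3 z4 z5
    revert hbeg
    cases u <;> cases v <;> cases w <;> simp

end Pool.MP4bb68cEx
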