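import Mathlib
import Pool.Agent.Work.MP_4bb68c_ex.Defs
import Pool.Agent.Work.MP_4bb68c_ex.Defs2
import Pool.Agent.Work.MP_4bb68c_ex.SysB
import Pool.Agent.Work.MP_4bb68c_ex.Quasi
import Pool.Agent.Work.MP_4bb68c_ex.Kill
import Pool.Agent.Work.MP_4bb68c_ex.Proj

/-!
# Changes of colour under a stationary law (module Loss, size M)

`loc_Bl`: `Bl s` is `LocS (|s| + 1)`; `loc_Ch`: `Ch x` is `LocS (|x| + 1)`.

`loss`: `1 ≤ n`. Let `a x ξ = 1` if `ξ ∈ Ch x`, else `0`, and `f = (1/(2 n)) ∑ x ∈ Ico (-n) n, a x`, which is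
`Loc n` and bounded by `1`. For `s ∈ Ioo (-n) n` the update changes only the colour of `s`, which
concerns the bonds `s - 1` and `s`, both in `Ico (-n) n`; `2 n (f (T s ξ) - f ξ) = -2` if `ξ ∈ Bl s` and `0`
otherwise (if the source `c` is `s` nothing changes; if `c = s ± 1`: either
`ζ (s-1) = ζ (s+1) ≠ ζ s` and both changes disappear, or `ζ (s-1) = ζ (s+1) = ζ s` and nothing changes,
or `ζ (s-1) ≠ ζ (s+1)` and there is exactly one change at the bonds `s - 1`, `s` before and after;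
colours are Booleans). For `s = n`: only the bond `n - 1` of `f` is concerned;
`2 n (f (T n ξ) - f ξ) = [ζ (n-1) ≠ ζ c] - [ζ (n-1) ≠ ζ n] ≤ [ζ n ≠ ζ (n+1)]`: it is positive only if
`ζ (n-1) = ζ n ≠ ζ c`, then `c = n + 1`. For `s = -n`: only the bond `-n` is concerned;
`[ζ c ≠ ζ (-n+1)] - [ζ (-n) ≠ ζ (-n+1)] ≤ [ζ (-n-1) ≠ ζ (-n)]`. For `s = n + 1`: nothing (the colour
of `n + 1` does not occur in `f`). Balance equation times `2 n`:
`0 ≤ -2 ∑ s ∈ Ioo (-n) n, μ (Bl s) + μ (Ch n) + μ (Ch (-n-1))`.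

`one_ch`: if all `μ (Bl s) = 0` then `μ (SC.wd σ ⁻¹' (Bl s)) = 0` for all `σ, s` (`Stn.null`); there are
countably many pairs `(σ, s)`, so almost surely `SC.wd σ ξ ∉ Bl s` for all `σ, s`; by `kill` there are
no two bonds `p < q` with changes.

`sum_ch`: if almost surely there is at most one change then `∑ x ∈ F, μ.real (Ch x) ≤ 1` for every
finite set `F` (disjoint events up to null sets; or integrate
`∑ x ∈ F, indicator (Ch x) ≤ 1`).
-/

set_option autoImplicit false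

open MeasureTheory ProbabilityTheory Filter Topology
open scoped NNReal ENNReal

namespace Pool.MP4bb68cEx

open Pool.MP4bb68c Pool.MP4bb68cOne Pool.MP4bb68cCl

theorem loc_Bl (s : ℤ) : LocS (s.natAbs + 1) (Bl s) := by
  intro x x' h
  have h1 : x (s - 1) = x' (s - 1) := h _ (by omega) (by omega)
  have h2 : x s = x' s := h _ (by omega) (by omega)
  have h3 : x (s + 1) = x' (s + 1) := h _ (by omega) (by omega)
  have hc : csI (hI x) s = csI (hI x') s := by
    have a1 : hI x s = hI x' s := by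
      show (x s).1 = (x' s).1
      rw [h2]
    have a2 : hI x (s - 1) = hI x' (s - 1) := by
      show (x (s - 1)).1 = (x' (s - 1)).1
      rw [h1]
    unfold csI
    rw [a1, a2]
  show (csI (hI x) s ≠ s ∧ (x (s - 1)).2 = (x (s + 1)).2 ∧ (x s).2 ≠ (x (s + 1)).2) ↔
    (csI (hI x') s ≠ s ∧ (x' (s - 1)).2 = (x' (s + 1)).2 ∧ (x' s).2 ≠ (x' (s + 1)).2)
  rw [hc, h1, h2, h3]

theorem loc_Ch (x : ℤ) : LocS (x.natAbs + 1) (Ch x) := by
  intro y y' h
  have h2 : y x = y' x := h _ (by omega) (by omega)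
  have h3 : y (x + 1) = y' (x + 1) := h _ (by omega) (by omega)
  show ((y x).2 ≠ (y (x + 1)).2) ↔ ((y' x).2 ≠ (y' (x + 1)).2)
  rw [h2, h3]

/-- the indicator of a change of colour -/
private noncomputable def la (x : ℤ) (ξ : ℤ → ℤ × Bool) : ℝ :=
  if zI ξ x = zI ξ (x + 1) then 0 else 1

private theorem la_ind (x : ℤ) (ξ : ℤ → ℤ × Bool) :
    la x ξ = (Ch x).indicator (fun _ => (1 : ℝ)) ξ := by
  unfold la
  by_cases h : zI ξ x = zI ξ (x + 1)
  · rw [if_pos h, Set.indicator_of_notMem]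
    intro h1
    exact h1 h
  · rw [if_neg h, Set.indicator_of_mem (show ξ ∈ Ch x from h)]

private theorem la_nonneg (x : ℤ) (ξ : ℤ → ℤ × Bool) : 0 ≤ la x ξ := by
  unfold la
  split_ifs <;> norm_num

private theorem la_le (x : ℤ) (ξ : ℤ → ℤ × Bool) : la x ξ ≤ 1 := by
  unfold la
  split_ifs <;> norm_num

private theorem zI_T (s : ℤ) (ξ : ℤ → ℤ × Bool) (y : ℤ) :
    zI (SC.T s ξ) y = if y = s then zI ξ (csI (hI ξ) s) else zI ξ y := rfl

private theorem la_T {s x : ℤ} (ξ : ℤ → ℤ × Bool) (h1 : x ≠ s) (h2 : x ≠ s - 1) :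
    la x (SC.T s ξ) = la x ξ := by
  unfold la
  rw [zI_T, zI_T, if_neg h1, if_neg (show ¬ x + 1 = s by omega)]

private theorem la_T0 (s : ℤ) (ξ : ℤ → ℤ × Bool) :
    la s (SC.T s ξ) = if zI ξ (csI (hI ξ) s) = zI ξ (s + 1) then 0 else 1 := by
  unfold la
  rw [zI_T, zI_T, if_pos rfl, if_neg (show ¬ s + 1 = s by omega)]

private theorem la_T1 (s : ℤ) (ξ : ℤ → ℤ × Bool) :
    la (s - 1) (SC.T s ξ) = if zI ξ (s - 1) = zI ξ (csI (hI ξ) s) then 0 else 1 := by
  unfold la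
  rw [zI_T, zI_T, if_neg (show ¬ s - 1 = s by omega), if_pos (show s - 1 + 1 = s by omega)]

private theorem ls_cases (η : ℤ → ℤ) (s : ℤ) : csI η s = s + 1 ∨ csI η s = s ∨ csI η s = s - 1 := by
  unfold csI
  split_ifs
  · exact Or.inl rfl
  · exact Or.inr (Or.inl rfl)
  · exact Or.inr (Or.inr rfl)

private theorem la_mid (s : ℤ) (ξ : ℤ → ℤ × Bool) :
    (la (s - 1) (SC.T s ξ) - la (s - 1) ξ) + (la s (SC.T s ξ) - la s ξ) =
      -2 * (Bl s).indicator (fun _ => (1 : ℝ)) ξ := by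
  rw [la_T0, la_T1]
  unfold la
  have e : s - 1 + 1 = s := by omega
  rw [e]
  have hB : (Bl s).indicator (fun _ => (1 : ℝ)) ξ =
      if csI (hI ξ) s ≠ s ∧ zI ξ (s - 1) = zI ξ (s + 1) ∧ zI ξ s ≠ zI ξ (s + 1) then 1 else 0 := by
    by_cases h : csI (hI ξ) s ≠ s ∧ zI ξ (s - 1) = zI ξ (s + 1) ∧ zI ξ s ≠ zI ξ (s + 1)
    · rw [if_pos h, Set.indicator_of_mem (show ξ ∈ Bl s from h)]
    · rw [if_neg h, Set.indicator_of_notMem (show ξ ∉ Bl s from h)]
  rw [hB]
  rcases ls_cases (hI ξ) s with h | h | h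
  · have h1 : csI (hI ξ) s ≠ s := by omega
    rw [h] at h1 ⊢
    generalize zI ξ (s - 1) = u
    generalize zI ξ s = v
    generalize zI ξ (s + 1) = w
    cases u <;> cases v <;> cases w <;> simp <;> norm_num
  · rw [h]
    generalize zI ξ (s - 1) = u
    generalize zI ξ s = v
    generalize zI ξ (s + 1) = w
    cases u <;> cases v <;> cases w <;> simp
  · have h1 : csI (hI ξ) s ≠ s := by omega
    rw [h] at h1 ⊢
    generalize zI ξ (s - 1) = u
    generalize zI ξ s = v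
    generalize zI ξ (s + 1) = w
    cases u <;> cases v <;> cases w <;> simp <;> norm_num

private theorem la_right (s : ℤ) (ξ : ℤ → ℤ × Bool) :
    la (s - 1) (SC.T s ξ) - la (s - 1) ξ ≤ la s ξ := by
  rw [la_T1]
  unfold la
  have e : s - 1 + 1 = s := by omega
  rw [e]
  rcases ls_cases (hI ξ) s with h | h | h <;> rw [h] <;>
  generalize zI ξ (s - 1) = u <;>
  generalize zI ξ s = v <;>
  generalize zI ξ (s + 1) = w <;>
  cases u <;> cases v <;> cases w <;> simp

private theorem la_left (s : ℤ) (ξ : ℤ → ℤ × Bool) :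
    la s (SC.T s ξ) - la s ξ ≤ la (s - 1) ξ := by
  rw [la_T0]
  unfold la
  have e : s - 1 + 1 = s := by omega
  rw [e]
  rcases ls_cases (hI ξ) s with h | h | h <;> rw [h] <;>
  generalize zI ξ (s - 1) = u <;>
  generalize zI ξ s = v <;>
  generalize zI ξ (s + 1) = w <;>
  cases u <;> cases v <;> cases w <;> simp

private theorem la_meas (x : ℤ) : Measurable (la x) := by
  have h : la x = (Ch x).indicator (fun _ => (1 : ℝ)) := funext (la_ind x)
  rw [h]
  exact measurable_const.indicator (loc_Ch x).measurableSet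

private theorem la_int {μ : Measure (ℤ → ℤ × Bool)} [IsProbabilityMeasure μ] (x : ℤ) :
    ∫ ξ, la x ξ ∂μ = μ.real (Ch x) := by
  have h : la x = (Ch x).indicator (fun _ => (1 : ℝ)) := funext (la_ind x)
  rw [h, integral_indicator_const _ (loc_Ch x).measurableSet, smul_eq_mul, mul_one]

theorem loss {μ : Measure (ℤ → ℤ × Bool)} [IsProbabilityMeasure μ] (h : Stn SC μ) {n : ℕ}
    (hn : 1 ≤ n) : 2 * ∑ s ∈ Finset.Ioo (-(n : ℤ)) n, μ.real (Bl s) ≤
      μ.real (Ch n) + μ.real (Ch (-(n : ℤ) - 1)) := by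
  obtain ⟨f, hf⟩ : ∃ f : (ℤ → ℤ × Bool) → ℝ, f = fun ξ => ∑ x ∈ Finset.Ico (-(n : ℤ)) n, la x ξ :=
    ⟨_, rfl⟩
  have hfl : Loc n f := by
    intro x x' hx
    rw [hf]
    refine Finset.sum_congr rfl fun t ht => ?_
    rw [Finset.mem_Ico] at ht
    have h1 : x t = x' t := hx t (by omega) (by omega)
    have h2 : x (t + 1) = x' (t + 1) := hx (t + 1) (by omega) (by omega)
    show (if (x t).2 = (x (t + 1)).2 then (0 : ℝ) else 1) =
      if (x' t).2 = (x' (t + 1)).2 then (0 : ℝ) else 1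
    rw [h1, h2]
  have hcard : (Finset.Ico (-(n : ℤ)) n).card = 2 * n := by
    rw [Int.card_Ico]
    omega
  have hfb : ∀ x, |f x| ≤ ((2 * n : ℕ) : ℝ) := by
    intro x
    have h0 : 0 ≤ f x := by
      rw [hf]
      exact Finset.sum_nonneg fun t _ => la_nonneg t x
    rw [abs_of_nonneg h0, hf]
    refine (Finset.sum_le_card_nsmul _ _ 1 fun t _ => la_le t x).trans ?_
    rw [hcard, nsmul_eq_mul, mul_one]
  have hst := h.big hfl hfb le_rfl
  have hfi : Integrable f μ := Integrable.of_bound hfl.measurable.aestronglyMeasurable _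
    (Filter.Eventually.of_forall fun x => by
      rw [Real.norm_eq_abs]
      exact hfb x)
  have hfT : ∀ s, Integrable (fun x => f (SC.T s x)) μ := fun s =>
    Integrable.of_bound (hfl.measurable.comp (SC.measurable_T s)).aestronglyMeasurable _
    (Filter.Eventually.of_forall fun x => by
      rw [Real.norm_eq_abs]
      exact hfb _)
  have hli : ∀ x, Integrable (la x) μ := fun x =>
    Integrable.of_bound (la_meas x).aestronglyMeasurable 1
    (Filter.Eventually.of_forall fun ξ => by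
      rw [Real.norm_eq_abs, abs_of_nonneg (la_nonneg x ξ)]
      exact la_le x ξ)
  have hD : ∀ s ξ, f (SC.T s ξ) - f ξ =
      ∑ x ∈ Finset.Ico (-(n : ℤ)) n, (la x (SC.T s ξ) - la x ξ) := by
    intro s ξ
    rw [hf, Finset.sum_sub_distrib]
  -- the middle sites
  have hmid : ∀ s ∈ Finset.Ioo (-(n : ℤ)) n,
      ∫ x, f (SC.T s x) ∂μ - ∫ x, f x ∂μ = -2 * μ.real (Bl s) := by
    intro s hs
    rw [Finset.mem_Ioo] at hs
    rw [← integral_sub (hfT s) hfi]
    have h1 : (fun x => f (SC.T s x) - f x) =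
        fun x => -2 * (Bl s).indicator (fun _ => (1 : ℝ)) x := by
      funext ξ
      rw [hD, ← la_mid]
      have h2 : ({s - 1, s} : Finset ℤ) ⊆ Finset.Ico (-(n : ℤ)) n := by
        intro t ht
        rw [Finset.mem_insert, Finset.mem_singleton] at ht
        rw [Finset.mem_Ico]
        omega
      rw [← Finset.sum_subset h2 (fun t _ ht => by
        rw [Finset.mem_insert, Finset.mem_singleton, not_or] at ht
        rw [la_T ξ ht.2 ht.1, sub_self]), Finset.sum_pair (by omega)]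
    rw [h1, integral_const_mul, integral_indicator_const _ (loc_Bl s).measurableSet, smul_eq_mul,
      mul_one]
  have hn1 : ∫ x, f (SC.T n x) ∂μ - ∫ x, f x ∂μ ≤ μ.real (Ch n) := by
    rw [← integral_sub (hfT n) hfi, ← la_int]
    refine integral_mono ((hfT n).sub hfi) (hli n) fun ξ => ?_
    show f (SC.T n ξ) - f ξ ≤ la n ξ
    rw [hD]
    refine le_trans (le_of_eq ?_) (la_right n ξ)
    have h2 : ({(n : ℤ) - 1} : Finset ℤ) ⊆ Finset.Ico (-(n : ℤ)) n := by
      intro t ht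
      rw [Finset.mem_singleton] at ht
      rw [Finset.mem_Ico]
      omega
    rw [← Finset.sum_subset h2 (fun t ht1 ht => by
      rw [Finset.mem_singleton] at ht
      rw [Finset.mem_Ico] at ht1
      rw [la_T ξ (by omega) ht, sub_self]), Finset.sum_singleton]
  have hn2 : ∫ x, f (SC.T (-(n : ℤ)) x) ∂μ - ∫ x, f x ∂μ ≤ μ.real (Ch (-(n : ℤ) - 1)) := by
    rw [← integral_sub (hfT _) hfi, ← la_int]
    refine integral_mono ((hfT _).sub hfi) (hli _) fun ξ => ?_
    show f (SC.T (-(n : ℤ)) ξ) - f ξ ≤ la (-(n : ℤ) - 1) ξ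
    rw [hD]
    refine le_trans (le_of_eq ?_) (la_left (-(n : ℤ)) ξ)
    have h2 : ({-(n : ℤ)} : Finset ℤ) ⊆ Finset.Ico (-(n : ℤ)) n := by
      intro t ht
      rw [Finset.mem_singleton] at ht
      rw [Finset.mem_Ico]
      omega
    rw [← Finset.sum_subset h2 (fun t ht1 ht => by
      rw [Finset.mem_singleton] at ht
      rw [Finset.mem_Ico] at ht1
      rw [la_T ξ ht (by omega), sub_self]), Finset.sum_singleton]
  have hn3 : ∫ x, f (SC.T ((n : ℤ) + 1) x) ∂μ - ∫ x, f x ∂μ = 0 := by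
    rw [← integral_sub (hfT _) hfi]
    have h1 : (fun x => f (SC.T ((n : ℤ) + 1) x) - f x) = fun _ => (0 : ℝ) := by
      funext ξ
      rw [hD]
      refine Finset.sum_eq_zero fun t ht => ?_
      rw [Finset.mem_Ico] at ht
      rw [la_T ξ (by omega) (by omega), sub_self]
    rw [h1, integral_zero]
  have hset : Finset.Icc (-(n : ℤ)) (n + 1) =
      insert (-(n : ℤ)) (insert (n : ℤ) (insert ((n : ℤ) + 1) (Finset.Ioo (-(n : ℤ)) n))) := by
    ext s
    simp only [Finset.mem_insert, Finset.mem_Icc, Finset.mem_Ioo]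
    omega
  have m1 : (n : ℤ) + 1 ∉ Finset.Ioo (-(n : ℤ)) n := by
    simp only [Finset.mem_Ioo]
    omega
  have m2 : (n : ℤ) ∉ insert ((n : ℤ) + 1) (Finset.Ioo (-(n : ℤ)) n) := by
    simp only [Finset.mem_insert, Finset.mem_Ioo]
    omega
  have m3 : -(n : ℤ) ∉ insert (n : ℤ) (insert ((n : ℤ) + 1) (Finset.Ioo (-(n : ℤ)) n)) := by
    simp only [Finset.mem_insert, Finset.mem_Ioo]
    omega
  rw [hset, Finset.sum_insert m3, Finset.sum_insert m2, Finset.sum_insert m1,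
    Finset.sum_congr rfl hmid, hn3, ← Finset.mul_sum] at hst
  linarith

theorem one_ch {μ : Measure (ℤ → ℤ × Bool)} [IsProbabilityMeasure μ] (h : Stn SC μ)
    (h0 : ∀ s, μ (Bl s) = 0) : ∀ᵐ ξ ∂μ, ∀ p q, p < q → ¬ (ξ ∈ Ch p ∧ ξ ∈ Ch q) := by
  have h1 : ∀ᵐ ξ ∂μ, ∀ x : List ℤ × ℤ, SC.wd x.1 ξ ∉ Bl x.2 := by
    rw [ae_all_iff]
    rintro ⟨σ, s⟩
    exact measure_eq_zero_iff_ae_notMem.1 (h.null (loc_Bl s) (h0 s) σ)
  filter_upwards [h1] with ξ hξ p q hpq hc
  obtain ⟨σ, s, hs⟩ := kill hpq hc.1 hc.2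
  exact hξ (σ, s) hs

theorem sum_ch {μ : Measure (ℤ → ℤ × Bool)} [IsProbabilityMeasure μ]
    (h : ∀ᵐ ξ ∂μ, ∀ p q, p < q → ¬ (ξ ∈ Ch p ∧ ξ ∈ Ch q)) (F : Finset ℤ) :
    ∑ x ∈ F, μ.real (Ch x) ≤ 1 := by
  have hli : ∀ x, Integrable (la x) μ := fun x =>
    Integrable.of_bound (la_meas x).aestronglyMeasurable 1
    (Filter.Eventually.of_forall fun ξ => by
      rw [Real.norm_eq_abs, abs_of_nonneg (la_nonneg x ξ)]
      exact la_le x ξ)
  have h1 : ∑ x ∈ F, μ.real (Ch x) = ∫ ξ, ∑ x ∈ F, la x ξ ∂μ := by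
    rw [integral_finsetSum _ fun x _ => hli x]
    exact Finset.sum_congr rfl fun x _ => (la_int x).symm
  have h2 : (1 : ℝ) = ∫ _ξ : ℤ → ℤ × Bool, (1 : ℝ) ∂μ := by
    rw [integral_const, probReal_univ, smul_eq_mul, mul_one]
  rw [h1, h2]
  refine integral_mono_ae (integrable_finsetSum _ fun x _ => hli x) (integrable_const _) ?_
  filter_upwards [h] with ξ hξ
  by_cases hex : ∃ x ∈ F, ξ ∈ Ch x
  · obtain ⟨x, hxF, hx⟩ := hex
    rw [Finset.sum_eq_single x]
    · exact la_le x ξ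
    · intro t _ htx
      rw [la_ind, Set.indicator_of_notMem]
      intro ht
      rcases lt_or_gt_of_ne htx with h3 | h3
      · exact hξ t x h3 ⟨ht, hx⟩
      · exact hξ x t h3 ⟨hx, ht⟩
    · intro h3
      exact absurd hxF h3
  · rw [Finset.sum_eq_zero]
    · exact zero_le_one
    · intro t ht
      rw [la_ind, Set.indicator_of_notMem]
      intro h3
      exact hex ⟨t, ht, h3⟩

end Pool.MP4bb68cEx
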