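import Mathlib
import Pool.Agent.Work.MP_4bb68c_ex.Defs
import Pool.Agent.Work.MP_4bb68c_ex.Defs2
import Pool.Agent.Work.MP_4bb68c_ex.SysB

/-!
# Compactness (module Lim, size M)

`lim_exists`: put the discrete topology on `A` (`letI : TopologicalSpace A := ⊥`,
`haveI : DiscreteTopology A := ⟨rfl⟩`; the Borel `σ`-algebra of `ℤ → A` is the product one) and follow
the proof of `limA` in Pool/Agent/Work/MP_4bb68c_cl/LimA.lean (90 lines). Tightness of the family
`{π i}`: first, for every `y` and `ε > 0` there is a finite `S` with `π i {x | x y ∉ S} ≤ ε` for ALL `i`: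
the hypothesis gives it for `i ≥ i0`; for each `i < i0` use that the finite measure `π i`, pushed
forward to the countable space `A`, is tight (`A` is the increasing union of finite sets); take the
union of the finitely many finite sets. Then choose `ε' y > 0` with `∑' y, ε' y < ε`
(`ENNReal.exists_pos_sum_of_countable'`) and finite sets `S y`; the product of the finite sets `S y` is
compact. Prokhorov: `isCompact_closure_of_isTightMeasureSet`; take the limit along the ultrafilter
`hyperfilter ℕ`. A function which is `Loc n` is continuous (it is locally constant: it depends on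
finitely many coordinates in a discrete space).
`ext_loc`: the sets `{x | ∀ y ∈ [-n, n], x y = c y}` form a pi-system which generates the product
`σ`-algebra; their indicators are `Loc n`, the total masses are equal (`f = 1`). If the space `ℤ → A` is
empty everything is trivial.
`lim_stn`: pass to the limit in the balance equation: for a fixed `f` which is `Loc n`, the functions
`fun x => f (L.T s x)` are local (`Loc.T`), so both integrals converge.
-/

set_option autoImplicit false

open MeasureTheory ProbabilityTheory Filter Topology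
open scoped NNReal ENNReal

namespace Pool.MP4bb68cEx

open Pool.MP4bb68c Pool.MP4bb68cOne Pool.MP4bb68cCl

private theorem one_tight {A : Type} [Countable A] [MeasurableSpace A]
    [MeasurableSingletonClass A] (μ : Measure (ℤ → A)) [IsFiniteMeasure μ] (y : ℤ) {ε : ℝ≥0∞}
    (hε : ε ≠ 0) : ∃ S : Finset A, μ {x | x y ∉ S} ≤ ε := by
  obtain ⟨f, hf⟩ := exists_injective_nat A
  have hfin : ∀ n, (f ⁻¹' Set.Iio n).Finite := fun n => (Set.finite_Iio n).preimage hf.injOn
  let E : ℕ → Set (ℤ → A) := fun n => {x | n ≤ f (x y)}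
  have hm : ∀ n, MeasurableSet (E n) := fun n => by
    have h1 : Measurable (fun x : ℤ → A => f (x y)) :=
      (measurable_of_countable f).comp (measurable_pi_apply y)
    exact measurableSet_le measurable_const h1
  have hanti : Antitone E := fun a b hab x hx => le_trans hab hx
  have hInter : ⋂ n, E n = ∅ := by
    ext x
    simp only [Set.mem_iInter, Set.mem_empty_iff_false, iff_false, not_forall]
    refine ⟨f (x y) + 1, fun h => ?_⟩
    have : f (x y) + 1 ≤ f (x y) := h
    omega
  have ht := tendsto_measure_iInter_atTop (μ := μ) (s := E)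
    (fun n => (hm n).nullMeasurableSet) hanti ⟨0, measure_ne_top _ _⟩
  rw [hInter, measure_empty] at ht
  obtain ⟨n, hn⟩ := (ht.eventually (Iic_mem_nhds (pos_iff_ne_zero.2 hε))).exists
  refine ⟨(hfin n).toFinset, le_trans (measure_mono ?_) hn⟩
  intro x hx
  have h1 : x y ∉ (hfin n).toFinset := hx
  rw [Set.Finite.mem_toFinset, Set.mem_preimage, Set.mem_Iio, not_lt] at h1
  exact h1

private theorem all_tight {A : Type} [Countable A] [MeasurableSpace A]
    [MeasurableSingletonClass A] (π : ℕ → Measure (ℤ → A)) (hπ : ∀ i, IsProbabilityMeasure (π i))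
    (ht : ∀ (y : ℤ) (ε : ℝ), 0 < ε → ∃ S : Finset A, ∀ᶠ i in atTop,
      (π i).real {x | x y ∉ S} ≤ ε) (y : ℤ) {ε : ℝ≥0∞} (hε : ε ≠ 0) :
    ∃ S : Finset A, ∀ i, π i {x | x y ∉ S} ≤ ε := by
  classical
  have hε1 : min ε 1 ≠ 0 := by
    rw [Ne, min_eq_iff]
    rintro (h | h)
    · exact hε h.1
    · exact one_ne_zero h.1
  have hε2 : min ε 1 ≠ ∞ := ne_top_of_le_ne_top ENNReal.one_ne_top (min_le_right _ _)
  obtain ⟨S0, hS0⟩ := ht y (min ε 1).toReal (ENNReal.toReal_pos hε1 hε2)
  obtain ⟨i0, hi0⟩ := eventually_atTop.1 hS0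
  choose S hS using fun i => one_tight (π i) y hε
  refine ⟨S0 ∪ (Finset.range i0).biUnion S, fun i => ?_⟩
  by_cases hi : i < i0
  · refine le_trans (measure_mono ?_) (hS i)
    intro x hx h1
    exact hx (Finset.mem_union_right _ (Finset.mem_biUnion.2 ⟨i, Finset.mem_range.2 hi, h1⟩))
  · have h2 : π i {x | x y ∉ S0} ≤ min ε 1 := by
      have h3 := hi0 i (not_lt.1 hi)
      rw [Measure.real] at h3
      exact (ENNReal.toReal_le_toReal (measure_ne_top _ _) hε2).1 h3
    refine le_trans (measure_mono ?_) (h2.trans (min_le_left _ _))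
    intro x hx h1
    exact hx (Finset.mem_union_left _ h1)

private theorem cont_loc {A : Type} [TopologicalSpace A] [DiscreteTopology A] {n : ℕ}
    {f : (ℤ → A) → ℝ} (hf : Loc n f) : Continuous f := by
  rw [continuous_iff_continuousAt]
  intro x
  have h1 : ∀ᶠ x' in 𝓝 x, ∀ y ∈ Finset.Icc (-(n : ℤ)) n, x' y = x y := by
    rw [Filter.eventually_all_finset]
    intro y _
    exact (continuous_apply (A := fun _ : ℤ => A) y).continuousAt.eventually
      ((isOpen_discrete {x y}).mem_nhds rfl)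
  refine (continuousAt_const (y := f x)).congr (h1.mono fun x' hx' => ?_)
  exact hf x x' fun y h2 h3 => (hx' y (Finset.mem_Icc.2 ⟨h2, h3⟩)).symm

theorem lim_exists {A : Type} [Countable A] [MeasurableSpace A] [MeasurableSingletonClass A]
    (π : ℕ → Measure (ℤ → A)) (hπ : ∀ i, IsProbabilityMeasure (π i))
    (ht : ∀ (y : ℤ) (ε : ℝ), 0 < ε → ∃ S : Finset A, ∀ᶠ i in atTop,
      (π i).real {x | x y ∉ S} ≤ ε) :
    ∃ μ : Measure (ℤ → A), IsProbabilityMeasure μ ∧
      ∀ (n : ℕ) (f : (ℤ → A) → ℝ), Loc n f → (∀ x, |f x| ≤ 1) →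
        Tendsto (fun i => ∫ x, f x ∂(π i)) (hyperfilter ℕ) (𝓝 (∫ x, f x ∂μ)) := by
  let _ : TopologicalSpace A := ⊥
  have _ : DiscreteTopology A := ⟨rfl⟩
  let ν' : ℕ → ProbabilityMeasure (ℤ → A) := fun n => ⟨π n, hπ n⟩
  have htt : IsTightMeasureSet (Set.range π) := by
    rw [isTightMeasureSet_iff_exists_isCompact_measure_compl_le]
    intro ε hε
    obtain ⟨ε', hε'0, hε'⟩ := ENNReal.exists_pos_sum_of_countable' hε.ne' ℤ
    choose S hS using fun y : ℤ => all_tight π hπ ht y (hε'0 y).ne'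
    refine ⟨Set.pi Set.univ (fun y => (S y : Set A)),
      isCompact_univ_pi fun y => (S y).finite_toSet.isCompact, ?_⟩
    rintro μ ⟨n, rfl⟩
    have hsub : (Set.pi Set.univ (fun y => (S y : Set A)))ᶜ ⊆ ⋃ y : ℤ, {x | x y ∉ S y} := by
      intro x hx
      rw [Set.mem_compl_iff, Set.mem_univ_pi, not_forall] at hx
      obtain ⟨y, hy⟩ := hx
      exact Set.mem_iUnion.2 ⟨y, hy⟩
    calc (π n) (Set.pi Set.univ (fun y => (S y : Set A)))ᶜ
        ≤ (π n) (⋃ y : ℤ, {x | x y ∉ S y}) := measure_mono hsub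
      _ ≤ ∑' y : ℤ, (π n) {x | x y ∉ S y} := measure_iUnion_le _
      _ ≤ ∑' y : ℤ, ε' y := ENNReal.tsum_le_tsum fun y => hS y n
      _ ≤ ε := hε'.le
  have htt' : IsTightMeasureSet {((μ : ProbabilityMeasure (ℤ → A)) : Measure (ℤ → A)) |
      μ ∈ Set.range ν'} := by
    refine htt.subset ?_
    rintro μ ⟨ν'', ⟨n, rfl⟩, rfl⟩
    exact ⟨n, rfl⟩
  have hc := isCompact_closure_of_isTightMeasureSet htt'
  have hU : (((hyperfilter ℕ).map ν' : Ultrafilter _) : Filter (ProbabilityMeasure (ℤ → A))) ≤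
      𝓟 (closure (Set.range ν')) := by
    rw [le_principal_iff]
    exact mem_map.2 (Filter.Eventually.of_forall fun n => subset_closure ⟨n, rfl⟩)
  obtain ⟨μ, -, hμ⟩ := hc.ultrafilter_le_nhds _ hU
  refine ⟨μ, inferInstance, fun n f hf hb => ?_⟩
  have h1 : Tendsto ν' (hyperfilter ℕ) (𝓝 μ) := hμ
  rw [ProbabilityMeasure.tendsto_iff_forall_integral_tendsto] at h1
  exact h1 (BoundedContinuousFunction.ofNormedAddCommGroup f (cont_loc hf) 1
    (fun g => by rw [Real.norm_eq_abs]; exact hb g))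

theorem ext_loc {A : Type} [Countable A] [MeasurableSpace A] [MeasurableSingletonClass A]
    {μ ν : Measure (ℤ → A)} [IsFiniteMeasure μ] [IsFiniteMeasure ν]
    (h : ∀ (n : ℕ) (f : (ℤ → A) → ℝ), Loc n f → (∀ x, |f x| ≤ 1) →
      ∫ x, f x ∂μ = ∫ x, f x ∂ν) : μ = ν := by
  have key : ∀ (n : ℕ) (B : Set (ℤ → A)), LocS n B → μ B = ν B := by
    intro n B hB
    have h1 := h n _ hB.loc fun x => by
      by_cases hx : x ∈ B
      · rw [Set.indicator_of_mem hx, abs_one]
      · rw [Set.indicator_of_notMem hx, abs_zero]; exact zero_le_one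
    rw [integral_indicator_const (1 : ℝ) hB.measurableSet,
      integral_indicator_const (1 : ℝ) hB.measurableSet, smul_eq_mul, smul_eq_mul, mul_one,
      mul_one] at h1
    exact (ENNReal.toReal_eq_toReal_iff' (measure_ne_top _ _) (measure_ne_top _ _)).1 h1
  refine ext_of_generate_finite (measurableCylinders (fun _ : ℤ => A))
    (generateFrom_measurableCylinders (α := fun _ : ℤ => A)).symm isPiSystem_measurableCylinders
    ?_ ?_
  · intro B hB
    rw [mem_measurableCylinders] at hB
    obtain ⟨s, S, -, rfl⟩ := hB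
    refine key (s.sup Int.natAbs) _ fun x x' hxx => ?_
    rw [mem_cylinder, mem_cylinder]
    have h2 : s.restrict x = s.restrict x' := by
      funext y
      have h3 := Finset.le_sup (f := Int.natAbs) y.2
      show x y = x' y
      refine hxx _ ?_ ?_ <;> omega
    rw [h2]
  · exact key 0 Set.univ fun x x' _ => by simp

theorem lim_stn {A : Type} [Countable A] [MeasurableSpace A] [MeasurableSingletonClass A]
    (L : Sys A) (π : ℕ → Measure (ℤ → A)) (μ : Measure (ℤ → A))
    (hl : ∀ (n : ℕ) (f : (ℤ → A) → ℝ), Loc n f → (∀ x, |f x| ≤ 1) →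
      Tendsto (fun i => ∫ x, f x ∂(π i)) (hyperfilter ℕ) (𝓝 (∫ x, f x ∂μ)))
    (hs : ∀ (n : ℕ) (f : (ℤ → A) → ℝ), Loc n f → (∀ x, |f x| ≤ 1) →
      Tendsto (fun i => ∑ s ∈ Finset.Icc (-(n : ℤ)) (n + 1),
        (∫ x, f (L.T s x) ∂(π i) - ∫ x, f x ∂(π i))) (hyperfilter ℕ) (𝓝 0)) : Stn L μ := by
  intro n f hf hb
  have h1 : Tendsto (fun i => ∑ s ∈ Finset.Icc (-(n : ℤ)) (n + 1),
      (∫ x, f (L.T s x) ∂(π i) - ∫ x, f x ∂(π i))) (hyperfilter ℕ)
      (𝓝 (∑ s ∈ Finset.Icc (-(n : ℤ)) (n + 1), (∫ x, f (L.T s x) ∂μ - ∫ x, f x ∂μ))) := by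
    refine tendsto_finsetSum _ fun s hs => ?_
    refine Tendsto.sub ?_ (hl n f hf hb)
    refine hl (n + 1 + 1) (fun x => f (L.T s x)) (Loc.T L hf (m := n + 1) (by omega) ?_)
      fun x => hb _
    rw [Finset.mem_Icc] at hs
    rw [abs_le]
    push_cast
    constructor <;> omega
  exact tendsto_nhds_unique h1 (hs n f hf hb)

end Pool.MP4bb68cEx
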