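import Mathlib
import Pool.Agent.Work.MP_4bb68c_ex.Defs
import Pool.Agent.Work.MP_4bb68c_ex.Defs2
import Pool.Agent.Work.MP_4bb68c_ex.SysB
import Pool.Agent.Work.MP_4bb68c_ex.Lim
import Pool.Agent.Work.MP_4bb68c_ex.Proj

/-!
# Averages of the shifts converge to shift invariant stationary laws (module ShAv, size M)

Let `π_N = (1/(N+1)) ∑ j ∈ range (N+1), μ.map (tra (c N + j))`, a probability measure (a finite sum of
measures with the weights `ENNReal.ofReal (1/(N+1))`), so that `∫ f dπ_N` is the average in the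
statement. Tightness: `(μ.map (tra a)).real {x | x y ∉ S} = μ.real {x | x (y + a) ∉ S} ≤ ε` for all `a`.
`lim_exists` gives `μ'`. `lim_stn`: for each `N` the sum is zero, because all `μ.map (tra a)` are
stationary (`Stn.tra`) and by linearity. Shift invariance: by `ext_loc` it is enough to show
`∫ f (tra 1 x) dμ' = ∫ f dμ'` for local `f` with `|f| ≤ 1` (`f ∘ tra 1` is `Loc (n+1)`); and
`∫ f ∘ tra 1 dπ_N - ∫ f dπ_N = (1/(N+1)) (∫ f (tra (c N + N + 1) x) dμ - ∫ f (tra (c N) x) dμ)` has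
absolute value `≤ 2/(N+1)` (telescoping, `tra 1 (tra a x) = tra (a + 1) x`).
-/

set_option autoImplicit false

open MeasureTheory ProbabilityTheory Filter Topology
open scoped NNReal ENNReal

namespace Pool.MP4bb68cEx

open Pool.MP4bb68c Pool.MP4bb68cOne Pool.MP4bb68cCl

private theorem tra_one {A : Type} (a : ℤ) (x : ℤ → A) : tra 1 (tra a x) = tra (a + 1) x := by
  funext y
  show x (y + 1 + a) = x (y + (a + 1))
  congr 1
  ring

private theorem loc_tra {A : Type} {n : ℕ} {f : (ℤ → A) → ℝ} (hf : Loc n f) :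
    Loc (n + 1) (fun x => f (tra 1 x)) := by
  intro x x' h
  apply hf
  intro y h1 h2
  show x (y + 1) = x' (y + 1)
  apply h
  · push_cast; omega
  · push_cast; omega

/-- the average of the first `k` translates with the factor `w` -/
private noncomputable def sm {A : Type} [MeasurableSpace A] (μ : Measure (ℤ → A)) (c : ℤ) (k : ℕ) :
    Measure (ℤ → A) := ∑ j ∈ Finset.range k, μ.map (tra (c + j))

private theorem sm_succ {A : Type} [MeasurableSpace A] (μ : Measure (ℤ → A)) (c : ℤ) (k : ℕ) :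
    sm μ c (k + 1) = sm μ c k + μ.map (tra (c + k)) := Finset.sum_range_succ _ _

private theorem sm_univ {A : Type} [MeasurableSpace A] (μ : Measure (ℤ → A)) [IsProbabilityMeasure μ]
    (c : ℤ) (k : ℕ) : sm μ c k Set.univ = k := by
  induction k with
  | zero => simp [sm]
  | succ k ih =>
    rw [sm_succ, Measure.add_apply, ih, Measure.map_apply (measurable_tra _) MeasurableSet.univ,
      Set.preimage_univ, measure_univ]
    push_cast
    rfl

private theorem sm_fin {A : Type} [MeasurableSpace A] (μ : Measure (ℤ → A)) [IsProbabilityMeasure μ]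
    (c : ℤ) (k : ℕ) : IsFiniteMeasure (sm μ c k) :=
  ⟨by rw [sm_univ]; exact ENNReal.natCast_lt_top k⟩

private theorem sm_stn {A : Type} [Countable A] [MeasurableSpace A] [MeasurableSingletonClass A]
    (L : Sys A) (μ : Measure (ℤ → A)) [IsProbabilityMeasure μ] (hs : Stn L μ) (c : ℤ) (k : ℕ) :
    Stn L (sm μ c k) := by
  induction k with
  | zero =>
    intro n f _ _
    simp [sm]
  | succ k ih =>
    rw [sm_succ]
    haveI := sm_fin μ c k
    haveI : IsProbabilityMeasure (μ.map (tra (c + k))) :=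
      Measure.isProbabilityMeasure_map (measurable_tra _).aemeasurable
    exact Stn.add ih (hs.tra (c + k))

private theorem int_bd {A : Type} [MeasurableSpace A] {μ : Measure (ℤ → A)} [IsFiniteMeasure μ]
    {f : (ℤ → A) → ℝ} (hm : Measurable f) (hb : ∀ x, |f x| ≤ 1) : Integrable f μ :=
  Integrable.of_bound hm.aestronglyMeasurable 1 (Eventually.of_forall fun x => by
    rw [Real.norm_eq_abs]; exact hb x)

private theorem sm_int {A : Type} [MeasurableSpace A] (μ : Measure (ℤ → A)) [IsProbabilityMeasure μ]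
    {f : (ℤ → A) → ℝ} (hm : Measurable f) (hb : ∀ x, |f x| ≤ 1) (c : ℤ) (k : ℕ) :
    ∫ x, f x ∂(sm μ c k) = ∑ j ∈ Finset.range k, ∫ x, f (tra (c + j) x) ∂μ := by
  induction k with
  | zero => simp [sm]
  | succ k ih =>
    haveI := sm_fin μ c k
    haveI : IsProbabilityMeasure (μ.map (tra (c + k))) :=
      Measure.isProbabilityMeasure_map (measurable_tra _).aemeasurable
    rw [sm_succ, integral_add_measure (int_bd hm hb) (int_bd hm hb), ih, Finset.sum_range_succ,
      integral_map (measurable_tra _).aemeasurable hm.aestronglyMeasurable]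

theorem shift_avg {A : Type} [Countable A] [MeasurableSpace A] [MeasurableSingletonClass A]
    (L : Sys A) (μ : Measure (ℤ → A)) [IsProbabilityMeasure μ] (hs : Stn L μ)
    (ht : ∀ ε : ℝ, 0 < ε → ∃ S : Finset A, ∀ y : ℤ, μ.real {x | x y ∉ S} ≤ ε) (c : ℕ → ℤ) :
    ∃ μ' : Measure (ℤ → A), IsProbabilityMeasure μ' ∧ Stn L μ' ∧ μ'.map (tra 1) = μ' ∧
      ∀ (n : ℕ) (f : (ℤ → A) → ℝ), Loc n f → (∀ x, |f x| ≤ 1) →
        Tendsto (fun N : ℕ => (1 / ((N : ℝ) + 1)) * ∑ j ∈ Finset.range (N + 1),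
          ∫ x, f (tra (c N + j) x) ∂μ) (hyperfilter ℕ) (𝓝 (∫ x, f x ∂μ')) := by
  set π : ℕ → Measure (ℤ → A) := fun N =>
    ENNReal.ofReal (1 / ((N : ℝ) + 1)) • sm μ (c N) (N + 1) with hπdef
  have hN0 : ∀ N : ℕ, (0 : ℝ) < (N : ℝ) + 1 := fun N => by positivity
  have hπ : ∀ N, IsProbabilityMeasure (π N) := by
    intro N
    refine ⟨?_⟩
    show (ENNReal.ofReal (1 / ((N : ℝ) + 1)) • sm μ (c N) (N + 1)) Set.univ = 1
    rw [Measure.smul_apply, sm_univ, smul_eq_mul]
    have h1 : ((N + 1 : ℕ) : ℝ≥0∞) = ENNReal.ofReal ((N : ℝ) + 1) := by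
      rw [← ENNReal.ofReal_natCast]
      push_cast
      rfl
    rw [h1, ← ENNReal.ofReal_mul (by positivity), one_div, inv_mul_cancel₀ (hN0 N).ne',
      ENNReal.ofReal_one]
  have hint : ∀ (N : ℕ) (f : (ℤ → A) → ℝ), Measurable f → (∀ x, |f x| ≤ 1) →
      ∫ x, f x ∂(π N) = (1 / ((N : ℝ) + 1)) * ∑ j ∈ Finset.range (N + 1),
          ∫ x, f (tra (c N + j) x) ∂μ := by
    intro N f hm hb
    show ∫ x, f x ∂(ENNReal.ofReal (1 / ((N : ℝ) + 1)) • sm μ (c N) (N + 1)) = _
    rw [integral_smul_measure, ENNReal.toReal_ofReal (by positivity), smul_eq_mul,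
      sm_int μ hm hb]
  have htight : ∀ (y : ℤ) (ε : ℝ), 0 < ε → ∃ S : Finset A, ∀ᶠ i in atTop,
      (π i).real {x | x y ∉ S} ≤ ε := by
    intro y ε hε
    obtain ⟨S, hS⟩ := ht ε hε
    refine ⟨S, Eventually.of_forall fun N => ?_⟩
    have hB : MeasurableSet {x : ℤ → A | x y ∉ S} := by
      have h1 : MeasurableSet ((S : Set A)ᶜ) := S.measurableSet.compl
      exact (measurable_pi_apply y : Measurable fun x : ℤ → A => x y) h1
    have hm : Measurable (({x : ℤ → A | x y ∉ S}).indicator (fun _ => (1 : ℝ))) :=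
      measurable_const.indicator hB
    have hb : ∀ x, |({x : ℤ → A | x y ∉ S}).indicator (fun _ => (1 : ℝ)) x| ≤ 1 := by
      intro x
      by_cases hx : x ∈ {x : ℤ → A | x y ∉ S}
      · rw [Set.indicator_of_mem hx, abs_one]
      · rw [Set.indicator_of_notMem hx, abs_zero]
        exact zero_le_one
    have h1 := hint N _ hm hb
    rw [integral_indicator_const _ hB, smul_eq_mul, mul_one] at h1
    rw [h1]
    have h2 : ∀ j ∈ Finset.range (N + 1),
        ∫ x, ({x : ℤ → A | x y ∉ S}).indicator (fun _ => (1 : ℝ)) (tra (c N + j) x) ∂μ ≤ ε := by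
      intro j _
      have h3 : (fun x : ℤ → A => ({x : ℤ → A | x y ∉ S}).indicator (fun _ => (1 : ℝ))
          (tra (c N + j) x)) =
          ({x : ℤ → A | x (y + (c N + j)) ∉ S}).indicator (fun _ => (1 : ℝ)) := by
        funext x
        rfl
      rw [h3, integral_indicator_const _ (by
        have h1 : MeasurableSet ((S : Set A)ᶜ) := S.measurableSet.compl
        exact (measurable_pi_apply (y + (c N + j)) :
          Measurable fun x : ℤ → A => x (y + (c N + j))) h1), smul_eq_mul, mul_one]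
      exact hS _
    have h4 := Finset.sum_le_sum h2
    rw [Finset.sum_const, Finset.card_range, nsmul_eq_mul] at h4
    push_cast at h4
    calc (1 / ((N : ℝ) + 1)) * ∑ j ∈ Finset.range (N + 1), ∫ x,
          ({x : ℤ → A | x y ∉ S}).indicator (fun _ => (1 : ℝ)) (tra (c N + j) x) ∂μ
        ≤ (1 / ((N : ℝ) + 1)) * (((N : ℝ) + 1) * ε) :=
          mul_le_mul_of_nonneg_left h4 (by positivity)
      _ = ε := by field_simp
  obtain ⟨μ', hμ', hl⟩ := lim_exists π hπ htight
  have hstn : ∀ N, Stn L (π N) := by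
    intro N
    haveI := sm_fin μ (c N) (N + 1)
    exact (sm_stn L μ hs (c N) (N + 1)).smul _
  refine ⟨μ', hμ', ?_, ?_, ?_⟩
  · refine lim_stn L π μ' hl ?_
    intro n f hf hb
    have h1 : (fun i => ∑ s ∈ Finset.Icc (-(n : ℤ)) (n + 1),
        (∫ x, f (L.T s x) ∂(π i) - ∫ x, f x ∂(π i))) = fun _ => (0 : ℝ) := by
      funext i
      exact hstn i n f hf hb
    rw [h1]
    exact tendsto_const_nhds
  · haveI := hμ'
    haveI : IsProbabilityMeasure (μ'.map (tra 1)) :=
      Measure.isProbabilityMeasure_map (measurable_tra _).aemeasurable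
    apply ext_loc
    intro n f hf hb
    have hm := hf.measurable
    have hf1 := loc_tra hf
    have hm1 := hf1.measurable
    have hb1 : ∀ x, |f (tra 1 x)| ≤ 1 := fun x => hb _
    rw [integral_map (measurable_tra _).aemeasurable hm.aestronglyMeasurable]
    have t1 := hl (n + 1) _ hf1 hb1
    have t2 := hl n f hf hb
    have t3 := t1.sub t2
    have hbound : ∀ N : ℕ, |∫ x, f (tra 1 x) ∂(π N) - ∫ x, f x ∂(π N)| ≤ 2 / ((N : ℝ) + 1) := by
      intro N
      rw [hint N _ hm1 hb1, hint N f hm hb, ← mul_sub, ← Finset.sum_sub_distrib]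
      have h1 : ∀ j ∈ Finset.range (N + 1),
          (∫ x, f (tra 1 (tra (c N + j) x)) ∂μ - ∫ x, f (tra (c N + j) x) ∂μ) =
          (fun j : ℕ => ∫ x, f (tra (c N + (j : ℤ)) x) ∂μ) (j + 1) -
            (fun j : ℕ => ∫ x, f (tra (c N + (j : ℤ)) x) ∂μ) j := by
        intro j _
        show _ = ∫ x, f (tra (c N + ((j + 1 : ℕ) : ℤ)) x) ∂μ - ∫ x, f (tra (c N + (j : ℤ)) x) ∂μ
        have h2 : c N + ((j + 1 : ℕ) : ℤ) = c N + j + 1 := by push_cast; ring
        rw [h2]
        simp only [tra_one]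
      rw [Finset.sum_congr rfl h1,
        Finset.sum_range_sub (fun j : ℕ => ∫ x, f (tra (c N + (j : ℤ)) x) ∂μ) (N + 1), abs_mul,
        abs_of_pos (by positivity)]
      have hle : ∀ a : ℤ, |∫ x, f (tra a x) ∂μ| ≤ 1 := by
        intro a
        have h2 := norm_integral_le_of_norm_le_const (μ := μ) (f := fun x => f (tra a x)) (C := 1)
          (Eventually.of_forall fun x => by rw [Real.norm_eq_abs]; exact hb _)
        rw [Real.norm_eq_abs] at h2
        simpa using h2
      have h3 : |∫ x, f (tra (c N + ((N + 1 : ℕ) : ℤ)) x) ∂μ -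
          ∫ x, f (tra (c N + ((0 : ℕ) : ℤ)) x) ∂μ| ≤ 2 := by
        have e1 := hle (c N + ((N + 1 : ℕ) : ℤ))
        have e2 := hle (c N + ((0 : ℕ) : ℤ))
        rw [abs_le] at e1 e2 ⊢
        constructor <;> linarith
      calc 1 / ((N : ℝ) + 1) * |∫ x, f (tra (c N + ((N + 1 : ℕ) : ℤ)) x) ∂μ -
          ∫ x, f (tra (c N + ((0 : ℕ) : ℤ)) x) ∂μ| ≤ 1 / ((N : ℝ) + 1) * 2 :=
            mul_le_mul_of_nonneg_left h3 (by positivity)
        _ = 2 / ((N : ℝ) + 1) := by ring
    have hz : Tendsto (fun N : ℕ => 2 / ((N : ℝ) + 1)) (hyperfilter ℕ : Filter ℕ) (𝓝 0) := by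
      have h1 : Tendsto (fun N : ℕ => 2 / ((N : ℝ) + 1)) atTop (𝓝 0) := by
        have h2 := tendsto_one_div_add_atTop_nhds_zero_nat (𝕜 := ℝ)
        have h3 := h2.const_mul 2
        rw [mul_zero] at h3
        refine h3.congr fun N => ?_
        ring
      refine h1.mono_left ?_
      rw [← Nat.cofinite_eq_atTop]
      exact hyperfilter_le_cofinite
    have t4 : Tendsto (fun N => ∫ x, f (tra 1 x) ∂(π N) - ∫ x, f x ∂(π N))
        (hyperfilter ℕ : Filter ℕ) (𝓝 0) :=
      squeeze_zero_norm (fun N => by rw [Real.norm_eq_abs]; exact hbound N) hz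
    exact sub_eq_zero.1 (tendsto_nhds_unique t3 t4)
  · intro n f hf hb
    have h1 := hl n f hf hb
    have hm := hf.measurable
    refine h1.congr fun N => ?_
    exact hint N f hm hb

end Pool.MP4bb68cEx
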