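import Mathlib
import Pool.Agent.Work.MP_4bb68c_ex.Defs
import Pool.Agent.Work.MP_4bb68c_ex.Defs2
import Pool.Agent.Work.MP_4bb68c_ex.SysB
import Pool.Agent.Work.MP_4bb68c_ex.EWb
import Pool.Agent.Work.MP_4bb68c_ex.EWg
import Pool.Agent.Work.MP_4bb68c_ex.Greedy
import Pool.Agent.Work.MP_4bb68c_ex.Link
import Pool.Agent.Work.MP_4bb68c_ex.Quasi
import Pool.Agent.Work.MP_4bb68c_ex.Proj

/-!
# Uniform tightness of all stationary laws (module UTight, size M)

`utight`. Given `ε > 0`. By `greedy_coal` (for `e = 1` and `e = -1`) and `er_tendsto 0` choose `i` with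
`EW (Ww i) (Kk i) [gl e σ 0 ≠ gl e σ 1] ≤ ε/4` for both `e` and `er 0 i ≤ ε/4`. Let `m = Kk i`. Let `ν` be
stationary. First `y = 0`. `f η = 1` if `m < |η 0|`, else `0`, is `Loc 0`. By `Stn.inv` (`k = Kk i`):
`ν.real {m < |η 0|} ≤ ∫ η, EW (Ww i) (Kk i) (fun σ => f (SI.wd σ η)) dν + er 0 i`. By `SI_wd_eq`,
`SI.wd σ η 0 = wd σ (pr η) 1 - wd σ (pr η) 0`. For the words which occur (`EW_mono`),
`σ.length ≤ m`; if `gl 1 σ 0 = gl 1 σ 1` and `gl (-1) σ 0 = gl (-1) σ 1` then by `diff_le_length`,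
`diff_ge_length` we have `|SI.wd σ η 0| ≤ σ.length ≤ m` and `f = 0`. So
`f (SI.wd σ η) ≤ [gl 1 σ 0 ≠ gl 1 σ 1] + [gl (-1) σ 0 ≠ gl (-1) σ 1]` and the integral is `≤ ε/2`. For
general `y` apply this to `ν.map (tra y)` (`Stn.tra`), `tra y η 0 = η y`.

`tight_SP`: apply `utight` with `ε/2` to `μ.map fsI`, `μ.map snI` (`Stn.fs`, `Stn.sn`) and
`S = Icc (-m) m ×ˢ Icc (-m) m`. `tight_SC`: apply `utight` to `μ.map hI` and
`S = Icc (-m) m ×ˢ univ`.
-/

set_option autoImplicit false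

open MeasureTheory ProbabilityTheory Filter Topology
open scoped NNReal ENNReal

namespace Pool.MP4bb68cEx

open Pool.MP4bb68c Pool.MP4bb68cOne Pool.MP4bb68cCl

private theorem mset (y : ℤ) (m : ℕ) : MeasurableSet {η : ℤ → ℤ | (m : ℤ) < |η y|} := by
  have h : MeasurableSet ((fun η : ℤ → ℤ => η y) ⁻¹' {a : ℤ | (m : ℤ) < |a|}) :=
    (measurable_pi_apply y) MeasurableSet.of_discrete
  exact h

private theorem utight0 (ε : ℝ) (hε : 0 < ε) : ∃ m : ℕ, ∀ ν : Measure (ℤ → ℤ),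
    IsProbabilityMeasure ν → Stn SI ν → ν.real {η | (m : ℤ) < |η 0|} ≤ ε := by
  classical
  have e1 := (greedy_coal 1 (Or.inl rfl)).eventually_le_const (show (0 : ℝ) < ε / 4 by positivity)
  have e2 := (greedy_coal (-1) (Or.inr rfl)).eventually_le_const
    (show (0 : ℝ) < ε / 4 by positivity)
  have e3 := (er_tendsto 0).eventually_le_const (show (0 : ℝ) < ε / 4 by positivity)
  obtain ⟨i, hi1, hi2, hi3⟩ := (e1.and (e2.and e3)).exists
  refine ⟨Kk i, fun ν hν hst => ?_⟩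
  let f : (ℤ → ℤ) → ℝ := fun η => if ((Kk i : ℕ) : ℤ) < |η 0| then 1 else 0
  have hf : Loc 0 f := by
    intro x x' h
    have h0 : x 0 = x' 0 := h 0 (by simp) (by simp)
    simp only [f, h0]
  have hb : ∀ x, |f x| ≤ 1 := by
    intro x
    simp only [f]
    split_ifs <;> simp
  have key := hst.inv hf hb (le_refl (Kk i))
  have hint : ∫ η, f η ∂ν = ν.real {η | ((Kk i : ℕ) : ℤ) < |η 0|} := by
    rw [← integral_indicator_one (mset 0 (Kk i))]
    congr 1
    funext η
    simp only [f, Set.indicator_apply, Set.mem_ofPred_eq, Pi.one_apply]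
  have hle : ∫ η, EW (Ww i) (Kk i) (fun σ => f (SI.wd σ η)) ∂ν ≤ ε / 4 + ε / 4 := by
    have hpt : ∀ η, EW (Ww i) (Kk i) (fun σ => f (SI.wd σ η)) ≤ ε / 4 + ε / 4 := by
      intro η
      have h1 : EW (Ww i) (Kk i) (fun σ => f (SI.wd σ η)) ≤
          EW (Ww i) (Kk i) (fun σ => (if gl 1 σ 0 = gl 1 σ 1 then 0 else 1) +
            (if gl (-1) σ 0 = gl (-1) σ 1 then 0 else 1)) := by
        refine EW_mono fun σ hσ _ => ?_
        by_cases ha : gl 1 σ 0 = gl 1 σ 1
        · by_cases hc : gl (-1) σ 0 = gl (-1) σ 1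
          · have h2 := diff_le_length σ (pr η) ha
            have h3 := diff_ge_length σ (pr η) hc
            have h4 := SI_wd_eq σ η 0
            have h5 : f (SI.wd σ η) = 0 := by
              simp only [f]
              rw [if_neg]
              rw [h4, not_lt, abs_le]
              have h6 : (σ.length : ℤ) ≤ ((Kk i : ℕ) : ℤ) := by exact_mod_cast hσ
              simp only [zero_add]
              constructor <;> linarith
            rw [h5, if_pos ha, if_pos hc]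
            norm_num
          · rw [if_pos ha, if_neg hc]
            have := hb (SI.wd σ η)
            have := (abs_le.1 this).2
            linarith
        · rw [if_neg ha]
          have h2 := (abs_le.1 (hb (SI.wd σ η))).2
          have h3 : (0 : ℝ) ≤ if gl (-1) σ 0 = gl (-1) σ 1 then 0 else 1 := by
            split_ifs <;> norm_num
          linarith
      rw [EW_add] at h1
      exact h1.trans (add_le_add hi1 hi2)
    have h2 : ∫ η, EW (Ww i) (Kk i) (fun σ => f (SI.wd σ η)) ∂ν ≤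
        ∫ _ : ℤ → ℤ, (ε / 4 + ε / 4) ∂ν := by
      refine integral_mono_of_nonneg (Eventually.of_forall fun η => ?_) (integrable_const _)
        (Eventually.of_forall hpt)
      refine EW_nonneg fun σ => ?_
      simp only [f]
      split_ifs <;> norm_num
    simpa using h2
  rw [hint] at key
  have := (abs_le.1 key).1
  linarith

theorem utight (ε : ℝ) (hε : 0 < ε) : ∃ m : ℕ, ∀ ν : Measure (ℤ → ℤ), IsProbabilityMeasure ν →
    Stn SI ν → ∀ y : ℤ, ν.real {η | (m : ℤ) < |η y|} ≤ ε := by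
  obtain ⟨m, hm⟩ := utight0 ε hε
  refine ⟨m, fun ν hν hst y => ?_⟩
  have hp : IsProbabilityMeasure (ν.map (Pool.MP4bb68cEx.tra y)) :=
    Measure.isProbabilityMeasure_map (measurable_tra y).aemeasurable
  have h1 := hm _ hp (hst.tra y)
  rw [map_measureReal_apply (measurable_tra y) (mset 0 m)] at h1
  have h2 : (Pool.MP4bb68cEx.tra y : (ℤ → ℤ) → ℤ → ℤ) ⁻¹' {η | (m : ℤ) < |η 0|} =
      {η | (m : ℤ) < |η y|} := by
    ext η
    simp [Pool.MP4bb68cEx.tra]
  rwa [h2] at h1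

theorem tight_SP {μ : Measure (ℤ → ℤ × ℤ)} [IsProbabilityMeasure μ] (h : Stn SP μ) (ε : ℝ)
    (hε : 0 < ε) : ∃ S : Finset (ℤ × ℤ), ∀ y : ℤ, μ.real {x | x y ∉ S} ≤ ε := by
  obtain ⟨m, hm⟩ := utight (ε / 2) (by positivity)
  refine ⟨Finset.Icc (-(m : ℤ)) m ×ˢ Finset.Icc (-(m : ℤ)) m, fun y => ?_⟩
  have hp1 : IsProbabilityMeasure (μ.map fsI) :=
    Measure.isProbabilityMeasure_map measurable_fsI.aemeasurable
  have hp2 : IsProbabilityMeasure (μ.map snI) :=
    Measure.isProbabilityMeasure_map measurable_snI.aemeasurable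
  have h1 := hm _ hp1 h.fs y
  have h2 := hm _ hp2 h.sn y
  rw [map_measureReal_apply measurable_fsI (mset y m)] at h1
  rw [map_measureReal_apply measurable_snI (mset y m)] at h2
  have hsub : {x : ℤ → ℤ × ℤ | x y ∉ Finset.Icc (-(m : ℤ)) m ×ˢ Finset.Icc (-(m : ℤ)) m} ⊆
      fsI ⁻¹' {η | (m : ℤ) < |η y|} ∪ snI ⁻¹' {η | (m : ℤ) < |η y|} := by
    intro x hx
    by_contra hcon
    apply hx
    simp only [Set.mem_union, Set.mem_preimage, Set.mem_ofPred_eq, not_or, not_lt, abs_le,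
      fsI, snI] at hcon
    simp only [Finset.mem_product, Finset.mem_Icc]
    exact hcon
  calc μ.real {x : ℤ → ℤ × ℤ | x y ∉ Finset.Icc (-(m : ℤ)) m ×ˢ Finset.Icc (-(m : ℤ)) m}
      ≤ μ.real (fsI ⁻¹' {η | (m : ℤ) < |η y|} ∪ snI ⁻¹' {η | (m : ℤ) < |η y|}) :=
        measureReal_mono hsub
    _ ≤ _ := measureReal_union_le _ _
    _ ≤ ε := by linarith

theorem tight_SC {μ : Measure (ℤ → ℤ × Bool)} [IsProbabilityMeasure μ] (h : Stn SC μ) (ε : ℝ)
    (hε : 0 < ε) : ∃ S : Finset (ℤ × Bool), ∀ y : ℤ, μ.real {x | x y ∉ S} ≤ ε := by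
  obtain ⟨m, hm⟩ := utight ε hε
  refine ⟨Finset.Icc (-(m : ℤ)) m ×ˢ Finset.univ, fun y => ?_⟩
  have hp1 : IsProbabilityMeasure (μ.map Pool.MP4bb68cEx.hI) :=
    Measure.isProbabilityMeasure_map measurable_hI.aemeasurable
  have h1 := hm _ hp1 h.hI y
  rw [map_measureReal_apply measurable_hI (mset y m)] at h1
  refine le_trans (measureReal_mono ?_) h1
  intro x hx
  by_contra hcon
  apply hx
  simp only [Set.mem_preimage, Set.mem_ofPred_eq, not_lt, abs_le, Pool.MP4bb68cEx.hI] at hcon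
  simp only [Finset.mem_product, Finset.mem_Icc, Finset.mem_univ, and_true]
  exact hcon

end Pool.MP4bb68cEx
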