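import Mathlib
import Pool.Agent.Work.MP_4bb68c_ex.Defs
import Pool.Agent.Work.MP_4bb68c_ex.Defs2
import Pool.Agent.Work.MP_4bb68c_ex.SysB
import Pool.Agent.Work.MP_4bb68c_ex.Loss
import Pool.Agent.Work.MP_4bb68c_ex.ShAv
import Pool.Agent.Work.MP_4bb68c_ex.UTight
import Pool.Agent.Work.MP_4bb68c_ex.Proj

/-!
# A stationary law of the colouring process has at most one change of colour (module Step12, size M)

`step1`: let `μ` be stationary and shift invariant. `Ch x = tra x ⁻¹' (Ch 0)` and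
`Bl s = tra s ⁻¹' (Bl 0)`, so `μ (Ch x) = μ (Ch 0)`, `μ (Bl s) = μ (Bl 0)` for all `x, s` (iterate the
invariance in both directions; `tra a ∘ tra b = tra (a + b)`). By `loss`:
`2 (2 n - 1) μ (Bl 0) ≤ 2` for all `n ≥ 1`, so `μ (Bl 0) = 0`. By `one_ch` and `sum_ch`:
`(number of bonds) * μ (Ch 0) ≤ 1` for all finite sets of bonds, so `μ (Ch 0) = 0`.

`step2`: let `μ` be stationary. Fix `s` and `ε > 0`. Apply `shift_avg` (tightness: `tight_SC`) with
`c N = N` and with `c N = -2 N - 1`: the limits `μ', μ''` are stationary and shift invariant, so by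
`step1` `μ' (Ch 0) = 0 = μ'' (Ch 0)`. With `f` = the indicator of `Ch 0` (`Loc 1`),
`∫ f (tra a x) dμ = μ (Ch a)`. So along `hyperfilter ℕ`:
`(1/(N+1)) ∑ j ∈ range (N+1), (μ (Ch (N + j)) + μ (Ch (-2N - 1 + j))) → 0`. Reversing the order of the
second sum (`j ↦ N - j`), the bonds are `-2N - 1 + N - j = -(N + j) - 1`. So there are `N` (as large as
we want: the hyperfilter is finer than `atTop`) and `j ≤ N` such that with `n = N + j`:
`μ (Ch n) + μ (Ch (-n - 1)) ≤ ε`. If `N > |s|` then `s ∈ Ioo (-n) n` and `loss` gives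
`2 μ (Bl s) ≤ ε`. Hence `μ (Bl s) = 0` for all `s`; conclude with `one_ch`.
-/

set_option autoImplicit false

open MeasureTheory ProbabilityTheory Filter Topology
open scoped NNReal ENNReal

namespace Pool.MP4bb68cEx

open Pool.MP4bb68c Pool.MP4bb68cOne Pool.MP4bb68cCl

private theorem map_tra {μ : Measure (ℤ → ℤ × Bool)} (hi : μ.map (tra 1) = μ) (a : ℤ) :
    μ.map (tra a) = μ := by
  have hadd : ∀ a b : ℤ, (tra (a + b) : (ℤ → ℤ × Bool) → ℤ → ℤ × Bool) = tra b ∘ tra a := by
    intro a b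
    funext x y
    simp only [tra, Function.comp_apply]
    congr 1
    ring
  have hstep : ∀ a b : ℤ, μ.map (tra a) = μ → μ.map (tra b) = μ → μ.map (tra (a + b)) = μ := by
    intro a b h1 h2
    rw [hadd, ← Measure.map_map (measurable_tra b) (measurable_tra a), h1, h2]
  have h0 : μ.map (tra 0) = μ := by
    have : (tra 0 : (ℤ → ℤ × Bool) → ℤ → ℤ × Bool) = id := by
      funext x y
      simp [tra]
    rw [this, Measure.map_id]
  have hneg : μ.map (tra (-1)) = μ := by
    conv_lhs => rw [← hi]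
    rw [Measure.map_map (measurable_tra (-1)) (measurable_tra 1), ← hadd]
    exact h0
  induction a using Int.induction_on with
  | zero => exact h0
  | succ i ih => exact hstep _ _ ih hi
  | pred i ih => exact hstep _ _ ih hneg

private theorem Ch_tra (x : ℤ) : Ch x = tra x ⁻¹' Ch 0 := by
  ext ξ
  simp only [Ch, Set.mem_ofPred_eq, Set.mem_preimage, zI, tra, zero_add]
  rw [add_comm 1 x]

private theorem Bl_tra (s : ℤ) : Bl s = tra s ⁻¹' Bl 0 := by
  ext ξ
  have e1 : (0 : ℤ) + 1 + s = s + 1 := by ring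
  have e2 : (0 : ℤ) - 1 + s = s - 1 := by ring
  have e3 : (0 : ℤ) + s = s := by ring
  have hcs : (csI (hI ξ) s ≠ s) ↔ (csI (hI (tra s ξ)) 0 ≠ 0) := by
    simp only [csI, hI, tra, e2, e3]
    split_ifs <;> simp
  simp only [Bl, Set.mem_ofPred_eq, Set.mem_preimage]
  rw [hcs]
  simp only [zI, tra, e1, e2, e3]

private theorem real_Ch {μ : Measure (ℤ → ℤ × Bool)} [IsProbabilityMeasure μ]
    (hi : μ.map (tra 1) = μ) (x : ℤ) : μ.real (Ch x) = μ.real (Ch 0) := by
  rw [Ch_tra x, ← map_measureReal_apply (measurable_tra x) (loc_Ch 0).measurableSet,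
    map_tra hi x]

private theorem real_Bl {μ : Measure (ℤ → ℤ × Bool)} [IsProbabilityMeasure μ]
    (hi : μ.map (tra 1) = μ) (s : ℤ) : μ.real (Bl s) = μ.real (Bl 0) := by
  rw [Bl_tra s, ← map_measureReal_apply (measurable_tra s) (loc_Bl 0).measurableSet,
    map_tra hi s]

private theorem zero_of_bound {a : ℝ} (ha : 0 ≤ a) (h : ∀ n : ℕ, (n : ℝ) * a ≤ 1) : a = 0 := by
  by_contra hne
  have hpos : 0 < a := lt_of_le_of_ne ha (Ne.symm hne)
  obtain ⟨n, hn⟩ := exists_nat_gt (1 / a)
  have h1 := h n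
  rw [div_lt_iff₀ hpos] at hn
  linarith

theorem step1 {μ : Measure (ℤ → ℤ × Bool)} [IsProbabilityMeasure μ] (h : Stn SC μ)
    (hi : μ.map (tra 1) = μ) : μ (Ch 0) = 0 := by
  have hB0 : μ.real (Bl 0) = 0 := by
    refine zero_of_bound measureReal_nonneg fun n => ?_
    have h1 := loss h (n := n + 1) (by omega)
    have h2 : ∑ s ∈ Finset.Ioo (-((n + 1 : ℕ) : ℤ)) ((n + 1 : ℕ) : ℤ), μ.real (Bl s) =
        (2 * n + 1) * μ.real (Bl 0) := by
      rw [Finset.sum_congr rfl fun s _ => real_Bl hi s, Finset.sum_const, nsmul_eq_mul]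
      congr 1
      rw [Int.card_Ioo]
      have : (((n + 1 : ℕ) : ℤ) - -((n + 1 : ℕ) : ℤ) - 1).toNat = 2 * n + 1 := by
        push_cast
        omega
      rw [this]
      push_cast
      ring
    rw [h2] at h1
    have h3 : μ.real (Ch ((n + 1 : ℕ) : ℤ)) ≤ 1 := measureReal_le_one
    have h4 : μ.real (Ch (-((n + 1 : ℕ) : ℤ) - 1)) ≤ 1 := measureReal_le_one
    have h5 : 0 ≤ μ.real (Bl 0) := measureReal_nonneg
    nlinarith
  have hB : ∀ s, μ (Bl s) = 0 := by
    intro s
    have h1 := real_Bl hi s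
    rw [hB0] at h1
    exact (measureReal_eq_zero_iff (by finiteness)).1 h1
  have hone := one_ch h hB
  have hC0 : μ.real (Ch 0) = 0 := by
    refine zero_of_bound measureReal_nonneg fun n => ?_
    have h1 := sum_ch hone (Finset.Ico (0 : ℤ) n)
    rw [Finset.sum_congr rfl fun s _ => real_Ch hi s, Finset.sum_const, nsmul_eq_mul,
      Int.card_Ico] at h1
    simpa using h1
  exact (measureReal_eq_zero_iff (by finiteness)).1 hC0

theorem step2 {μ : Measure (ℤ → ℤ × Bool)} [IsProbabilityMeasure μ] (h : Stn SC μ) :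
    ∀ᵐ ξ ∂μ, ∀ p q, p < q → ¬ (ξ ∈ Ch p ∧ ξ ∈ Ch q) := by
  refine one_ch h fun s => ?_
  let f : (ℤ → ℤ × Bool) → ℝ := (Ch 0).indicator (fun _ => (1 : ℝ))
  have hf : Loc 1 f := (loc_Ch 0).loc
  have hfb : ∀ x, |f x| ≤ 1 := by
    intro x
    by_cases hx : x ∈ Ch 0
    · simp [f, hx]
    · simp [f, hx]
  have hfint : ∀ a : ℤ, ∫ x, f (tra a x) ∂μ = μ.real (Ch a) := by
    intro a
    have h1 : (fun x => f (tra a x)) = (Ch a).indicator 1 := by
      funext x
      rw [Ch_tra a]
      rfl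
    rw [h1, integral_indicator_one (loc_Ch a).measurableSet]
  have hlim : ∀ c : ℕ → ℤ, Tendsto (fun N : ℕ => (1 / ((N : ℝ) + 1)) *
      ∑ j ∈ Finset.range (N + 1), μ.real (Ch (c N + j))) (hyperfilter ℕ) (𝓝 0) := by
    intro c
    obtain ⟨μ', hp, hst, hinv, ht⟩ := shift_avg SC μ h (tight_SC h) c
    have h1 := ht 1 f hf hfb
    have h2 : ∫ x, f x ∂μ' = 0 := by
      have h3 : f = (Ch 0).indicator 1 := rfl
      rw [h3, integral_indicator_one (loc_Ch 0).measurableSet]
      exact (measureReal_eq_zero_iff (by finiteness)).2 (step1 hst hinv)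
    rw [h2] at h1
    simpa only [hfint] using h1
  have hsum := (hlim (fun N => (N : ℤ))).add (hlim (fun N => -2 * (N : ℤ) - 1))
  rw [add_zero] at hsum
  have hreal : μ.real (Bl s) = 0 := by
    refine le_antisymm (le_of_forall_pos_le_add fun ε hε => ?_) measureReal_nonneg
    have hev1 := hsum.eventually_lt_const hε
    have hev2 : ∀ᶠ N : ℕ in (hyperfilter ℕ : Filter ℕ), s.natAbs + 1 ≤ N :=
      Nat.hyperfilter_le_atTop (eventually_ge_atTop (s.natAbs + 1))
    obtain ⟨N, hN1, hN2⟩ := (hev1.and hev2).exists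
    -- reverse the second sum
    have hrev : ∑ j ∈ Finset.range (N + 1), μ.real (Ch (-2 * (N : ℤ) - 1 + j)) =
        ∑ j ∈ Finset.range (N + 1), μ.real (Ch (-((N : ℤ) + j) - 1)) := by
      rw [← Finset.sum_range_reflect]
      refine Finset.sum_congr rfl fun j hj => ?_
      have hj' : j ≤ N := by
        have := Finset.mem_range.1 hj
        omega
      congr 2
      have h1 : ((N + 1 - 1 - j : ℕ) : ℤ) = (N : ℤ) - j := by omega
      rw [h1]
      ring
    rw [hrev, ← mul_add, ← Finset.sum_add_distrib] at hN1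
    obtain ⟨j, hj, hj2⟩ : ∃ j ∈ Finset.range (N + 1),
        μ.real (Ch ((N : ℤ) + j)) + μ.real (Ch (-((N : ℤ) + j) - 1)) < ε := by
      by_contra hcon
      push Not at hcon
      have h1 := Finset.sum_le_sum hcon
      rw [Finset.sum_const, nsmul_eq_mul, Finset.card_range] at h1
      have h2 : (0 : ℝ) < (N : ℝ) + 1 := by positivity
      rw [one_div, inv_mul_lt_iff₀ h2] at hN1
      push_cast at h1
      linarith
    have hn : 1 ≤ N + j := by omega
    have h1 := loss h hn
    have hcast : ((N + j : ℕ) : ℤ) = (N : ℤ) + j := by push_cast; ring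
    rw [hcast] at h1
    have h2 : μ.real (Bl s) ≤ ∑ t ∈ Finset.Ioo (-((N : ℤ) + j)) ((N : ℤ) + j), μ.real (Bl t) :=
      Finset.single_le_sum (f := fun t => μ.real (Bl t)) (fun _ _ => measureReal_nonneg)
        (Finset.mem_Ioo.2 (by omega))
    have h3 : 0 ≤ μ.real (Bl s) := measureReal_nonneg
    linarith
  exact (measureReal_eq_zero_iff (by finiteness)).1 hreal

end Pool.MP4bb68cEx
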