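import Mathlib
import Pool.Agent.Work.MP_4bb68c_ex.Defs
import Pool.Agent.Work.MP_4bb68c_ex.Defs2
import Pool.Agent.Work.MP_4bb68c_ex.SysB
import Pool.Agent.Work.MP_4bb68c_ex.EWb
import Pool.Agent.Work.MP_4bb68c_ex.Quasi
import Pool.Agent.Work.MP_4bb68c_ex.Energy
import Pool.Agent.Work.MP_4bb68c_ex.LowB
import Pool.Agent.Work.MP_4bb68c_ex.Diss
import Pool.Agent.Work.MP_4bb68c_ex.Step12
import Pool.Agent.Work.MP_4bb68c_ex.Restr
import Pool.Agent.Work.MP_4bb68c_ex.Proj
import Pool.Agent.Work.MP_4bb68c_ex.Loss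

/-!
# Every stationary law of the colouring process has constant colours (module ThmC, size M-L)

`loc_Fd`: `Fd K` is `Loc K` (it uses the colours at `K`, `-K` and the increments over `[-K, K-1]`).

`step3`: suppose `μ` is a stationary probability measure and almost surely `∃ X, Up X ξ`. Take
`K, c, C, i₀` from `lowB`. By `energy` for `f = Fd K` (`Fd_abs_le`, `Rr` is increasing), for `i ≥ i₀`:
`∑ k < Kk i, (dw i / 2) c / (C + 2 k dw i) ≤ 1 + 2 er K i`. The left side is at least
`(c/4) log ((C + 2 (i+1)) / C)`: with `t_k = C + 2 k dw i`, `2 dw i / t_k ≥ log (t_{k+1} / t_k)`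
(`Real.log_le_sub_one_of_pos`: `log (1 + u) ≤ u`), so the sum telescopes, `t_{Kk i} = C + 2 (i+1)`. It
tends to infinity with `i` while the right side tends to `1` (`er_tendsto`): contradiction.

`thmC`: let `μ` be a stationary probability measure. By `step2` almost surely at most one bond has a
change of colour. Then `ξ` has constant colours, or `∃ X, Up X ξ`, or `∃ X, Up X (ngc ξ)` (if the
change is at the bond `X`: the colours are constant on `(-∞, X]` and on `[X+1, ∞)`, and different).
Claim: `μ {ξ | ∃ X, Up X ξ} = 0`. Let `B' = {ξ | ∃ X, Up X ξ}` (measurable: countable union over `X` of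
countable intersections) and `B n = {ξ | zI ξ (-n) = false ∧ zI ξ n = true}`, `LocS n`. For almost every
`ξ`: for `n` large `ξ ∈ B n ↔ ξ ∈ B'` (constant colours: never; `Up X ξ`: for `n > |X|`;
`Up X (ngc ξ)`: never). The update of `s` changes only the colour of `s`, so membership in `B n` can
change only for `s = n` or `s = -n`; for `s = n` only if the colour of `n` changes, so only if the
colour of a neighbour differs from the colour of `n`: `ξ ∈ Ch (n-1) ∪ Ch n`; for `s = -n` only
if `ξ ∈ Ch (-n-1) ∪ Ch (-n)`. So the error sum of `restrict_stn` is at most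
`μ (Ch (n-1)) + μ (Ch n) + μ (Ch (-n-1)) + μ (Ch (-n))`, which tends to zero, because the numbers
`μ (Ch x)` are summable (`sum_ch`; `tendsto_atTop_zero` of a summable series, composed with
the injective maps). Hence `μ.restrict B'` is stationary. If `μ B' > 0`, the normalized measure
`(μ B')⁻¹ • μ.restrict B'` (`Stn.smul`) contradicts `step3`. The same for `μ.map ngc` (`Stn.negc`):
`μ {ξ | ∃ X, Up X (ngc ξ)} = 0`. So almost surely the colours are constant.
-/

set_option autoImplicit false

open MeasureTheory ProbabilityTheory Filter Topology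
open scoped NNReal ENNReal

namespace Pool.MP4bb68cEx

open Pool.MP4bb68c Pool.MP4bb68cOne Pool.MP4bb68cCl

private theorem tc_agree {K : ℕ} {x x' : ℤ → ℤ × Bool}
    (h : ∀ y : ℤ, -(K : ℤ) ≤ y → y ≤ K → x y = x' y) :
    zI x K = zI x' K ∧ zI x (-(K : ℤ)) = zI x' (-(K : ℤ)) ∧ mh K x = mh K x' := by
  refine ⟨?_, ?_, ?_⟩
  · show (x K).2 = (x' K).2
    rw [h K (by omega) le_rfl]
  · show (x (-(K : ℤ))).2 = (x' (-(K : ℤ))).2
    rw [h (-(K : ℤ)) le_rfl (by omega)]
  · unfold mh
    congr 1
    refine Finset.sum_congr rfl fun y hy => ?_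
    rw [Finset.mem_Ico] at hy
    show (x y).1 = (x' y).1
    rw [h y hy.1 hy.2.le]

theorem loc_Fd (K : ℕ) : Loc K (Fd K) := by
  intro x x' h
  obtain ⟨h1, h2, h3⟩ := tc_agree h
  unfold Fd
  rw [h1, h2, h3]

private theorem tc_sum (c C w : ℝ) (hc : 0 < c) (hC : 1 ≤ C) (hw : 0 < w) (n : ℕ) :
    c / 4 * (Real.log (C + 2 * (n * w)) - Real.log C) ≤
      ∑ k ∈ Finset.range n, w / 2 * (c / (C + 2 * (k * w))) := by
  induction n with
  | zero => simp
  | succ n ih =>
    rw [Finset.sum_range_succ]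
    have hp : 0 < C + 2 * (n * w) := by positivity
    have hp' : 0 < C + 2 * (((n + 1 : ℕ) : ℝ) * w) := by positivity
    have h1 : Real.log (C + 2 * (((n + 1 : ℕ) : ℝ) * w)) - Real.log (C + 2 * (n * w)) ≤
        2 * w / (C + 2 * (n * w)) := by
      rw [← Real.log_div hp'.ne' hp.ne']
      have h2 := Real.log_le_sub_one_of_pos (div_pos hp' hp)
      refine h2.trans (le_of_eq ?_)
      push_cast
      field_simp
      ring
    have h3 : w / 2 * (c / (C + 2 * (n * w))) = c / 4 * (2 * w / (C + 2 * (n * w))) := by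
      field_simp
      ring
    rw [h3]
    have h4 := mul_le_mul_of_nonneg_left h1 (show 0 ≤ c / 4 by positivity)
    linarith

theorem step3 {μ : Measure (ℤ → ℤ × Bool)} [IsProbabilityMeasure μ] (h : Stn SC μ)
    (hu : ∀ᵐ ξ ∂μ, ∃ X, Up X ξ) : False := by
  obtain ⟨K, c, C, i₀, hc, hC, hK, H⟩ := lowB h hu
  have key : ∀ i ≥ i₀, c / 4 * (Real.log (C + 2 * ((i : ℝ) + 1)) - Real.log C) ≤
      1 + 2 * er K i := by
    intro i hi
    have h1 := tc_sum c C (dw i) hc hC (dw_pos i) (Kk i)
    rw [Kk_mul_dw] at h1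
    refine h1.trans ?_
    have hn : K ≤ Rr i := hK.trans (by unfold Rr; omega)
    refine le_trans ?_ (energy h (loc_Fd K) (Fd_abs_le K) hn)
    refine Finset.sum_le_sum fun k hk => ?_
    refine mul_le_mul_of_nonneg_left ?_ (by have := dw_pos i; positivity)
    exact H i hi k (Finset.mem_range.1 hk)
  have h1 : ∀ᶠ i : ℕ in atTop, er K i < 1 :=
    (er_tendsto K).eventually (gt_mem_nhds one_pos)
  have h2 : Tendsto (fun i : ℕ => Real.log (C + 2 * ((i : ℝ) + 1))) atTop atTop := by
    refine Real.tendsto_log_atTop.comp ?_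
    refine tendsto_atTop_mono (fun i : ℕ => ?_) tendsto_natCast_atTop_atTop
    have : (0 : ℝ) ≤ i := Nat.cast_nonneg i
    linarith
  have h3 := h2.eventually (eventually_gt_atTop (Real.log C + 12 / c))
  obtain ⟨i, ⟨h4, h5⟩, h6⟩ := ((h1.and h3).and (eventually_ge_atTop i₀)).exists
  have h7 := key i h6
  have h8 : c / 4 * (12 / c) = 3 := by
    field_simp
    norm_num
  have h9 : c / 4 * (12 / c) < c / 4 * (Real.log (C + 2 * ((i : ℝ) + 1)) - Real.log C) :=
    mul_lt_mul_of_pos_left (by linarith) (by positivity)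
  linarith

private theorem tc_right {ξ : ℤ → ℤ × Bool} {X : ℤ} (h : ∀ y, X < y → ξ ∉ Ch y) (y : ℤ)
    (hy : X < y) : zI ξ y = zI ξ (X + 1) := by
  have h1 : ∀ m : ℕ, zI ξ (X + 1 + m) = zI ξ (X + 1) := by
    intro m
    induction m with
    | zero => simp
    | succ m ih =>
      rw [← ih]
      have h2 := h (X + 1 + m) (by omega)
      have h3 : zI ξ (X + 1 + m) = zI ξ (X + 1 + m + 1) := by
        by_contra h4
        exact h2 h4
      rw [h3]
      congr 1
      push_cast
      ring
  have h2 := h1 (y - (X + 1)).toNat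
  rw [Int.toNat_of_nonneg (by omega), add_sub_cancel] at h2
  exact h2

private theorem tc_left {ξ : ℤ → ℤ × Bool} {X : ℤ} (h : ∀ y, y < X → ξ ∉ Ch y) (y : ℤ)
    (hy : y ≤ X) : zI ξ y = zI ξ X := by
  have h1 : ∀ m : ℕ, zI ξ (X - m) = zI ξ X := by
    intro m
    induction m with
    | zero => simp
    | succ m ih =>
      rw [← ih]
      have h2 := h (X - ((m + 1 : ℕ) : ℤ)) (by push_cast; omega)
      have h3 : zI ξ (X - ((m + 1 : ℕ) : ℤ)) = zI ξ (X - ((m + 1 : ℕ) : ℤ) + 1) := by
        by_contra h4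
        exact h2 h4
      rw [h3]
      congr 1
      push_cast
      ring
  have h2 := h1 (X - y).toNat
  rw [Int.toNat_of_nonneg (by omega), sub_sub_cancel] at h2
  exact h2

private theorem tc_const {ξ : ℤ → ℤ × Bool} (h : ∀ y, ξ ∉ Ch y) (x y : ℤ) :
    zI ξ x = zI ξ y := by
  rcases le_total x y with h1 | h1
  · exact tc_left (X := y) (fun z _ => h z) x h1
  · exact (tc_left (X := x) (fun z _ => h z) y h1).symm

/-- The three cases. -/
private theorem tc_cases {ξ : ℤ → ℤ × Bool} (h : ∀ p q, p < q → ¬ (ξ ∈ Ch p ∧ ξ ∈ Ch q)) :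
    (∀ x y, zI ξ x = zI ξ y) ∨ ∃ X, (∀ y, X < y → zI ξ y = zI ξ (X + 1)) ∧
      (∀ y, y ≤ X → zI ξ y = zI ξ X) ∧ zI ξ X ≠ zI ξ (X + 1) := by
  by_cases hc : ∃ X, ξ ∈ Ch X
  · right
    obtain ⟨X, hX⟩ := hc
    exact ⟨X, tc_right fun y hy h1 => h X y hy ⟨hX, h1⟩, tc_left fun y hy h1 => h y X hy ⟨h1, hX⟩,
      hX⟩
  · left
    exact tc_const fun y hy => hc ⟨y, hy⟩

private theorem tc_zT (s : ℤ) (x : ℤ → ℤ × Bool) (y : ℤ) :
    zI (SC.T s x) y = if y = s then zI x (csI (hI x) s) else zI x y := rfl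

private theorem tc_cs (η : ℤ → ℤ) (s : ℤ) : csI η s = s - 1 ∨ csI η s = s ∨ csI η s = s + 1 := by
  unfold csI
  split_ifs
  · exact Or.inr (Or.inr rfl)
  · exact Or.inr (Or.inl rfl)
  · exact Or.inl rfl

private theorem tc_ch {x : ℤ → ℤ × Bool} {s : ℤ} (h : zI (SC.T s x) s ≠ zI x s) :
    x ∈ Ch (s - 1) ∨ x ∈ Ch s := by
  rw [tc_zT, if_pos rfl] at h
  rcases tc_cs (hI x) s with hc | hc | hc
  · left
    rw [hc] at h
    show zI x (s - 1) ≠ zI x (s - 1 + 1)
    rw [sub_add_cancel]
    exact h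
  · rw [hc] at h
    exact absurd rfl h
  · right
    rw [hc] at h
    exact Ne.symm h

/-- The event that the ends have the colours `false` and `true`. -/
private def tc_B (n : ℕ) : Set (ℤ → ℤ × Bool) := {ξ | zI ξ (-(n : ℤ)) = false ∧ zI ξ n = true}

private theorem tc_locB (n : ℕ) : LocS n (tc_B n) := by
  intro x x' h
  obtain ⟨h1, h2, _⟩ := tc_agree h
  show (zI x (-(n : ℤ)) = false ∧ zI x n = true) ↔ (zI x' (-(n : ℤ)) = false ∧ zI x' n = true)
  rw [h1, h2]

private theorem tc_mUp : MeasurableSet {ξ : ℤ → ℤ × Bool | ∃ X, Up X ξ} := by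
  have e : {ξ : ℤ → ℤ × Bool | ∃ X, Up X ξ} =
      ⋃ X : ℤ, ⋂ y : ℤ, {ξ | zI ξ y = decide (X < y)} := by
    ext ξ
    simp only [Set.mem_iUnion, Set.mem_iInter]
    constructor
    · rintro ⟨X, hX⟩
      refine ⟨X, fun y => ?_⟩
      show zI ξ y = decide (X < y)
      by_cases h : X < y
      · rw [(hX y).2 h, decide_eq_true h]
      · rw [decide_eq_false h]
        cases hz : zI ξ y
        · rfl
        · exact absurd ((hX y).1 hz) h
    · rintro ⟨X, hX⟩
      refine ⟨X, fun y => ?_⟩
      have h1 : zI ξ y = decide (X < y) := hX y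
      rw [h1]
      exact decide_eq_true_iff
  rw [e]
  refine MeasurableSet.iUnion fun X => MeasurableSet.iInter fun y => ?_
  exact ((measurable_pi_apply y).comp measurable_zI) (measurableSet_singleton (decide (X < y)))

private theorem tc_mCh (x : ℤ) : MeasurableSet (Ch x) := (loc_Ch x).measurableSet

private theorem tc_up {μ : Measure (ℤ → ℤ × Bool)} [IsProbabilityMeasure μ] (h : Stn SC μ) :
    μ {ξ | ∃ X, Up X ξ} = 0 := by
  by_contra hne
  have hone := step2 h
  have hsumm : Summable fun x : ℤ => μ.real (Ch x) :=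
    summable_of_sum_le (fun x => measureReal_nonneg) (sum_ch hone)
  have t1 : ∀ a : ℤ, Tendsto (fun n : ℕ => μ.real (Ch ((n : ℤ) + a))) atTop (𝓝 0) := by
    intro a
    refine (hsumm.comp_injective (i := fun n : ℕ => (n : ℤ) + a) ?_).tendsto_atTop_zero
    intro m n hmn
    simp only at hmn
    omega
  have t2 : ∀ a : ℤ, Tendsto (fun n : ℕ => μ.real (Ch (-(n : ℤ) + a))) atTop (𝓝 0) := by
    intro a
    refine (hsumm.comp_injective (i := fun n : ℕ => -(n : ℤ) + a) ?_).tendsto_atTop_zero
    intro m n hmn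
    simp only at hmn
    omega
  have hst : Stn SC (μ.restrict {ξ | ∃ X, Up X ξ}) := by
    refine restrict_stn h (fun n => n) tc_B tc_locB _ tc_mUp ?_ ?_
    · filter_upwards [hone] with ξ hξ
      rcases tc_cases hξ with hconst | ⟨X, hr, hl, hne⟩
      · refine Eventually.of_forall fun n => ⟨fun h1 => ?_, fun h1 => ?_⟩
        · obtain ⟨h2, h3⟩ := h1
          rw [hconst (-(n : ℤ)) n, h3] at h2
          exact Bool.noConfusion h2
        · obtain ⟨Y, hY⟩ := h1
          have h2 := (hY (Y + 1)).2 (by omega)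
          rw [hconst (Y + 1) Y] at h2
          exact absurd ((hY Y).1 h2) (lt_irrefl _)
      · refine eventually_atTop.2 ⟨X.natAbs + 1, fun n hn => ?_⟩
        have e1 : zI ξ n = zI ξ (X + 1) := hr n (by omega)
        have e2 : zI ξ (-(n : ℤ)) = zI ξ X := hl _ (by omega)
        show (zI ξ (-(n : ℤ)) = false ∧ zI ξ n = true) ↔ ∃ Y, Up Y ξ
        rw [e1, e2]
        constructor
        · rintro ⟨h1, h2⟩
          refine ⟨X, fun y => ⟨fun h3 => ?_, fun h3 => ?_⟩⟩
          · by_contra h4
            rw [hl y (not_lt.1 h4), h1] at h3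
            exact Bool.noConfusion h3
          · rw [hr y h3, h2]
        · rintro ⟨Y, hY⟩
          have h1 : zI ξ (X + 1) = true := by
            rw [← hr (max X Y + 1) (by omega)]
            exact (hY _).2 (by omega)
          refine ⟨?_, h1⟩
          rw [h1] at hne
          cases hz : zI ξ X
          · rfl
          · exact absurd hz hne
    · have hlim : Tendsto (fun n : ℕ => (μ.real (Ch ((n : ℤ) + (-1))) + μ.real (Ch ((n : ℤ) + 0))) +
          (μ.real (Ch (-(n : ℤ) + (-1))) + μ.real (Ch (-(n : ℤ) + 0)))) atTop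
          (𝓝 ((0 + 0) + (0 + 0))) :=
        ((t1 (-1)).add (t1 0)).add ((t2 (-1)).add (t2 0))
      rw [add_zero, add_zero] at hlim
      refine squeeze_zero' (Eventually.of_forall fun n =>
        Finset.sum_nonneg fun s _ => measureReal_nonneg) ?_ hlim
      filter_upwards [eventually_ge_atTop 1] with n hn
      have hsub : ({(n : ℤ), -(n : ℤ)} : Finset ℤ) ⊆ Finset.Icc (-(n : ℤ)) (n + 1) := by
        intro y hy
        rw [Finset.mem_insert, Finset.mem_singleton] at hy
        rw [Finset.mem_Icc]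
        omega
      rw [← Finset.sum_subset hsub, Finset.sum_pair (by omega)]
      · refine add_le_add ?_ ?_
        · refine le_trans (measureReal_mono ?_) (measureReal_union_le _ _)
          intro x hx
          have h1 : ¬ (SC.T (n : ℤ) x ∈ tc_B n ↔ x ∈ tc_B n) := hx
          have h2 : zI (SC.T (n : ℤ) x) n ≠ zI x n := by
            intro h3
            apply h1
            show (zI (SC.T (n : ℤ) x) (-(n : ℤ)) = false ∧ zI (SC.T (n : ℤ) x) n = true) ↔
              (zI x (-(n : ℤ)) = false ∧ zI x n = true)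
            rw [h3, tc_zT, if_neg (by omega)]
          rw [add_zero]
          exact tc_ch h2
        · refine le_trans (measureReal_mono ?_) (measureReal_union_le _ _)
          intro x hx
          have h1 : ¬ (SC.T (-(n : ℤ)) x ∈ tc_B n ↔ x ∈ tc_B n) := hx
          have h2 : zI (SC.T (-(n : ℤ)) x) (-(n : ℤ)) ≠ zI x (-(n : ℤ)) := by
            intro h3
            apply h1
            show (zI (SC.T (-(n : ℤ)) x) (-(n : ℤ)) = false ∧ zI (SC.T (-(n : ℤ)) x) n = true) ↔
              (zI x (-(n : ℤ)) = false ∧ zI x n = true)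
            rw [h3, tc_zT, if_neg (by omega)]
          rw [add_zero]
          exact tc_ch h2
      · intro s hs hs'
        rw [Finset.mem_insert, Finset.mem_singleton, not_or] at hs'
        have e : {x : ℤ → ℤ × Bool | ¬ (SC.T s x ∈ tc_B n ↔ x ∈ tc_B n)} = ∅ := by
          rw [Set.eq_empty_iff_forall_notMem]
          intro x hx
          apply hx
          show (zI (SC.T s x) (-(n : ℤ)) = false ∧ zI (SC.T s x) n = true) ↔
            (zI x (-(n : ℤ)) = false ∧ zI x n = true)
          rw [tc_zT, tc_zT, if_neg (Ne.symm hs'.1), if_neg (Ne.symm hs'.2)]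
        rw [e, measureReal_empty]
  set B' : Set (ℤ → ℤ × Bool) := {ξ | ∃ X, Up X ξ} with hB'
  have hst2 := Stn.smul hst (μ B')⁻¹
  haveI : IsProbabilityMeasure ((μ B')⁻¹ • μ.restrict B') := by
    refine ⟨?_⟩
    rw [Measure.smul_apply, Measure.restrict_apply_univ, smul_eq_mul,
      ENNReal.inv_mul_cancel hne (measure_ne_top _ _)]
  refine step3 hst2 ?_
  exact Measure.ae_smul_measure (ae_restrict_mem tc_mUp) _

theorem thmC {μ : Measure (ℤ → ℤ × Bool)} [IsProbabilityMeasure μ] (h : Stn SC μ) :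
    ∀ᵐ ξ ∂μ, ∀ x y, zI ξ x = zI ξ y := by
  have h1 : ∀ᵐ ξ ∂μ, ¬ ∃ X, Up X ξ := by
    rw [ae_iff]
    simp only [not_not]
    exact tc_up h
  have h2 : ∀ᵐ ξ ∂μ, ¬ ∃ X, Up X (ngc ξ) := by
    haveI : IsProbabilityMeasure (μ.map ngc) :=
      Measure.isProbabilityMeasure_map measurable_ngc.aemeasurable
    have h3 := tc_up (Stn.negc h)
    rw [Measure.map_apply measurable_ngc tc_mUp] at h3
    rw [ae_iff]
    simp only [not_not]
    exact h3
  filter_upwards [h1, h2, step2 h] with ξ g1 g2 g3
  rcases tc_cases g3 with hconst | ⟨X, hr, hl, hne⟩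
  · exact hconst
  exfalso
  cases hz : zI ξ (X + 1)
  · apply g2
    rw [hz] at hne
    have hX : zI ξ X = true := by
      cases hz' : zI ξ X
      · exact absurd hz' hne
      · rfl
    refine ⟨X, fun y => ?_⟩
    show (!zI ξ y) = true ↔ X < y
    by_cases hy : X < y
    · rw [hr y hy, hz]
      simp [hy]
    · rw [hl y (not_lt.1 hy), hX]
      simp [hy]
  · apply g1
    rw [hz] at hne
    have hX : zI ξ X = false := by
      cases hz' : zI ξ X
      · rfl
      · exact absurd hz' hne
    refine ⟨X, fun y => ?_⟩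
    by_cases hy : X < y
    · rw [hr y hy, hz]
      simp [hy]
    · rw [hl y (not_lt.1 hy), hX]
      simp [hy]

end Pool.MP4bb68cEx
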