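import Mathlib
import Pool.Agent.Work.MP_4bb68c_ex.Defs
import Pool.Agent.Work.MP_4bb68c_ex.Defs2
import Pool.Agent.Work.MP_4bb68c_ex.SysB
import Pool.Agent.Work.MP_4bb68c_ex.EWb
import Pool.Agent.Work.MP_4bb68c_ex.Lim

/-!
# Time averages converge to stationary laws (module TiAv, size M-L)

STEP 1. For each `i` there is a probability measure `π_i` on `ℤ → A` with
`∫ f d π_i = ∫ x, av i (fun σ => f (L.wd σ x)) ∂π` for all bounded measurable `f`. Construction: by
induction on `k` there are a finite set `S` of words and numbers `c σ ≥ 0` (`σ ∈ S`) with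
`∑ σ ∈ S, c σ = 1` and `EW W k F = ∑ σ ∈ S, c σ * F σ` for all `F` (for `W` nonempty); the same for
`av i`; then `π_i = ∑ σ ∈ S, ENNReal.ofReal (c σ) • π.map (L.wd σ)`. (Or define a measure valued
version of `EW` by recursion on `k`.)
STEP 2. The hypothesis `ht` is the tightness condition of `lim_exists` (for the indicator of
`{x | x y ∉ S}`). So there is a limit `μ`.
STEP 3. `lim_stn`: let `f` be `Loc n`, `|f| ≤ 1`, and `i` with `Rr i ≥ n + 1`. Then
`Icc (-n) (n+1) ⊆ Ww i` and the terms for `s ∈ Ww i` outside of `Icc (-n) (n+1)` vanish (`T_far`). So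
`∑ s ∈ Icc (-n) (n+1), (∫ f (L.T s x) dπ_i - ∫ f dπ_i) =
∫ x, av i (fun σ => ∑ s ∈ Ww i, (f (L.wd (σ ++ [s]) x) - f (L.wd σ x))) ∂π` (as
`L.wd (σ ++ [s]) x = L.T s (L.wd σ x)`). By `EW_snoc` and `1/2 + dw i * |Ww i| = 1`:
`EW (k+1) F - EW k F = dw i * ∑ s ∈ Ww i, (EW k (fun σ => F (σ ++ [s])) - EW k F)`. Hence the integrand
is `(1 / (Kk i * dw i)) * ∑ k < Kk i, (EW (k+1) F - EW k F) = (1/(i+1)) (EW (Kk i) F - F [])` with
`F σ = f (L.wd σ x)`, of absolute value `≤ 2/(i+1)`, which tends to zero.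
-/

set_option autoImplicit false

open MeasureTheory ProbabilityTheory Filter Topology
open scoped NNReal ENNReal

namespace Pool.MP4bb68cEx

open Pool.MP4bb68c Pool.MP4bb68cOne Pool.MP4bb68cCl

private theorem ta_mix {X ι : Type*} [MeasurableSpace X] (S : Finset ι) (c : ι → ℝ)
    (hc : ∀ j ∈ S, 0 ≤ c j) (hs : ∑ j ∈ S, c j = 1) (ρ : ι → Measure X)
    (hρ : ∀ j, IsProbabilityMeasure (ρ j)) : ∃ ρ' : Measure X, IsProbabilityMeasure ρ' ∧
      ∀ f : X → ℝ, Measurable f → (∀ x, |f x| ≤ 1) → ∫ x, f x ∂ρ' = ∑ j ∈ S, c j * ∫ x, f x ∂(ρ j) := by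
  refine ⟨∑ j ∈ S, ENNReal.ofReal (c j) • ρ j, ⟨?_⟩, fun f hf hb => ?_⟩
  · rw [Measure.finsetSum_apply]
    have h1 : ∀ j ∈ S, (ENNReal.ofReal (c j) • ρ j) Set.univ = ENNReal.ofReal (c j) := fun j _ => by
      rw [Measure.smul_apply, measure_univ, smul_eq_mul, mul_one]
    rw [Finset.sum_congr rfl h1, ← ENNReal.ofReal_sum_of_nonneg hc, hs, ENNReal.ofReal_one]
  · rw [integral_finsetSum_measure]
    · refine Finset.sum_congr rfl fun j hj => ?_
      rw [integral_smul_measure, ENNReal.toReal_ofReal (hc j hj), smul_eq_mul]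
    · intro j _
      refine Integrable.smul_measure ?_ ENNReal.ofReal_ne_top
      exact Integrable.of_bound hf.aestronglyMeasurable 1 (Filter.Eventually.of_forall hb)

private theorem ta_int {A : Type} [Countable A] [MeasurableSpace A] [MeasurableSingletonClass A]
    (L : Sys A) (π : Measure (ℤ → A)) [IsProbabilityMeasure π] {f : (ℤ → A) → ℝ} (hf : Measurable f)
    (hb : ∀ x, |f x| ≤ 1) (σ : List ℤ) : Integrable (fun x => f (L.wd σ x)) π :=
  Integrable.of_bound (hf.comp (L.measurable_wd σ)).aestronglyMeasurable 1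
    (Filter.Eventually.of_forall fun x => hb _)

private theorem ta_EW {A : Type} [Countable A] [MeasurableSpace A] [MeasurableSingletonClass A]
    (L : Sys A) {W : Finset ℤ} (hW : W.Nonempty) (k : ℕ) (π : Measure (ℤ → A))
    (hπ : IsProbabilityMeasure π) : ∃ ρ : Measure (ℤ → A), IsProbabilityMeasure ρ ∧
      ∀ f : (ℤ → A) → ℝ, Measurable f → (∀ x, |f x| ≤ 1) →
        ∫ x, f x ∂ρ = ∫ x, EW W k (fun σ => f (L.wd σ x)) ∂π := by
  induction k generalizing π with
  | zero => exact ⟨π, hπ, fun f _ _ => rfl⟩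
  | succ k ih =>
    obtain ⟨ρ0, h0, h0'⟩ := ih π hπ
    have hmp : ∀ y, IsProbabilityMeasure (π.map (L.T y)) := fun y =>
      Measure.isProbabilityMeasure_map (L.measurable_T y).aemeasurable
    choose ρ1 h1 h1' using fun y => ih (π.map (L.T y)) (hmp y)
    have hc : (0 : ℝ) < W.card := by exact_mod_cast Finset.card_pos.mpr hW
    obtain ⟨ρ2, h2, h2'⟩ := ta_mix W (fun _ => 1 / (W.card : ℝ)) (fun _ _ => by positivity) (by
      rw [Finset.sum_const, nsmul_eq_mul, mul_one_div_cancel hc.ne']) ρ1 h1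
    obtain ⟨ρ, h3, h3'⟩ := ta_mix (Finset.univ : Finset Bool) (fun _ => 1 / 2)
      (fun _ _ => by norm_num) (by simp) (fun b => if b then ρ0 else ρ2) (fun b => by
        cases b
        · exact h2
        · exact h0)
    refine ⟨ρ, h3, fun f hf hb => ?_⟩
    rw [h3' f hf hb, Fintype.sum_bool]
    simp only [if_true, Bool.false_eq_true, if_false]
    rw [h0' f hf hb, h2' f hf hb]
    have h4 : ∀ y, ∫ x, f x ∂(ρ1 y) = ∫ x, EW W k (fun σ => f (L.wd (y :: σ) x)) ∂π := by
      intro y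
      rw [h1' y f hf hb, integral_map (L.measurable_T y).aemeasurable]
      · rfl
      · exact (EW_measurable (fun σ => hf.comp (L.measurable_wd σ)) W k).aestronglyMeasurable
    simp only [h4, EW]
    have i1 : ∀ y, Integrable (fun x => EW W k (fun σ => f (L.wd (y :: σ) x))) π := fun y =>
      EW_integrable (fun σ => ta_int L π hf hb (y :: σ)) W k
    have i2 : Integrable (fun x => 1 / 2 * EW W k (fun σ => f (L.wd σ x))) π :=
      (EW_integrable (fun σ => ta_int L π hf hb σ) W k).const_mul _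
    have i3 : Integrable (fun x => (1 / (2 * (W.card : ℝ))) * ∑ y ∈ W,
        EW W k (fun σ => f (L.wd (y :: σ) x))) π :=
      (integrable_finsetSum W fun y _ => i1 y).const_mul _
    rw [integral_add i2 i3, integral_const_mul, integral_const_mul,
      integral_finsetSum W (fun y _ => i1 y), ← Finset.mul_sum, ← mul_assoc]
    congr 2
    field_simp

private theorem ta_av {A : Type} [Countable A] [MeasurableSpace A] [MeasurableSingletonClass A]
    (L : Sys A) (π : Measure (ℤ → A)) [hπ : IsProbabilityMeasure π] (i : ℕ) :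
    ∃ ρ : Measure (ℤ → A), IsProbabilityMeasure ρ ∧
      ∀ f : (ℤ → A) → ℝ, Measurable f → (∀ x, |f x| ≤ 1) →
        ∫ x, f x ∂ρ = ∫ x, av i (fun σ => f (L.wd σ x)) ∂π := by
  choose ρ1 h1 h1' using fun k => ta_EW L (Ww_nonempty i) k π hπ
  have hc : (0 : ℝ) < Kk i := by exact_mod_cast Kk_pos i
  obtain ⟨ρ, h2, h2'⟩ := ta_mix (Finset.range (Kk i)) (fun _ => 1 / (Kk i : ℝ))
    (fun _ _ => by positivity) (by
      rw [Finset.sum_const, Finset.card_range, nsmul_eq_mul, mul_one_div_cancel hc.ne']) ρ1 h1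
  refine ⟨ρ, h2, fun f hf hb => ?_⟩
  rw [h2' f hf hb, ← Finset.mul_sum]
  unfold av
  rw [integral_const_mul, integral_finsetSum _ (fun k _ =>
    EW_integrable (fun σ => ta_int L π hf hb σ) (Ww i) k)]
  congr 1
  exact Finset.sum_congr rfl fun k _ => h1' k f hf hb

/-- the balance of the averages -/
private theorem ta_bal (i : ℕ) (F : List ℤ → ℝ) :
    ∑ s ∈ Ww i, (av i (fun σ => F (σ ++ [s])) - av i F) =
      (1 / ((i : ℝ) + 1)) * (EW (Ww i) (Kk i) F - F []) := by
  have hc : (0 : ℝ) < Kk i := by exact_mod_cast Kk_pos i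
  have hd := dw_pos i
  have hW : ((Ww i).card : ℝ) * dw i = 1 / 2 := by
    have h0 : (0 : ℝ) < (Ww i).card := by exact_mod_cast Finset.card_pos.mpr (Ww_nonempty i)
    rw [← one_div_card]
    field_simp
  have h1 : ∀ k, dw i * ∑ s ∈ Ww i, (EW (Ww i) k (fun σ => F (σ ++ [s])) - EW (Ww i) k F) =
      EW (Ww i) (k + 1) F - EW (Ww i) k F := by
    intro k
    rw [EW_snoc, one_div_card, Finset.sum_sub_distrib, Finset.sum_const, nsmul_eq_mul, mul_sub,
      ← mul_assoc (dw i) ((Ww i).card : ℝ), mul_comm (dw i) ((Ww i).card : ℝ), hW]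
    ring
  have h2 : ∑ s ∈ Ww i, (av i (fun σ => F (σ ++ [s])) - av i F) =
      (1 / (Kk i : ℝ)) * ∑ k ∈ Finset.range (Kk i),
        ∑ s ∈ Ww i, (EW (Ww i) k (fun σ => F (σ ++ [s])) - EW (Ww i) k F) := by
    have h0 : ∑ k ∈ Finset.range (Kk i), ∑ s ∈ Ww i,
        (EW (Ww i) k (fun σ => F (σ ++ [s])) - EW (Ww i) k F) =
        ∑ s ∈ Ww i, ∑ k ∈ Finset.range (Kk i),
          (EW (Ww i) k (fun σ => F (σ ++ [s])) - EW (Ww i) k F) := Finset.sum_comm
    rw [h0, Finset.mul_sum]
    refine Finset.sum_congr rfl fun s _ => ?_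
    rw [Finset.sum_sub_distrib]
    unfold av
    ring
  have h3 : dw i * ∑ k ∈ Finset.range (Kk i),
      ∑ s ∈ Ww i, (EW (Ww i) k (fun σ => F (σ ++ [s])) - EW (Ww i) k F) =
      EW (Ww i) (Kk i) F - F [] := by
    rw [Finset.mul_sum, Finset.sum_congr rfl (fun k _ => h1 k),
      Finset.sum_range_sub (fun k => EW (Ww i) k F) (Kk i)]
    rfl
  rw [h2, ← h3, ← Kk_mul_dw]
  field_simp

open Classical in
theorem time_avg {A : Type} [Countable A] [MeasurableSpace A] [MeasurableSingletonClass A]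
    (L : Sys A) (π : Measure (ℤ → A)) [IsProbabilityMeasure π]
    (ht : ∀ (y : ℤ) (ε : ℝ), 0 < ε → ∃ S : Finset A, ∀ᶠ i in atTop,
      ∫ x, av i (fun σ => if L.wd σ x y ∈ S then (0 : ℝ) else 1) ∂π ≤ ε) :
    ∃ μ : Measure (ℤ → A), IsProbabilityMeasure μ ∧ Stn L μ ∧
      ∀ (n : ℕ) (f : (ℤ → A) → ℝ), Loc n f → (∀ x, |f x| ≤ 1) →
        Tendsto (fun i => ∫ x, av i (fun σ => f (L.wd σ x)) ∂π) (hyperfilter ℕ)
          (𝓝 (∫ x, f x ∂μ)) := by
  choose ρ hρ hρ' using fun i => ta_av L π i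
  obtain ⟨μ, hμ, hl⟩ := lim_exists ρ hρ (by
    intro y ε hε
    obtain ⟨S, hS⟩ := ht y ε hε
    refine ⟨S, hS.mono fun i hi => ?_⟩
    have hB : LocS y.natAbs {x : ℤ → A | x y ∉ S} := by
      intro x x' hxx
      have e : x y = x' y := hxx y (by omega) (by omega)
      rw [Set.mem_ofPred_eq, Set.mem_ofPred_eq, e]
    have hm := hB.measurableSet
    have h1 := hρ' i ({x : ℤ → A | x y ∉ S}.indicator (fun _ => (1 : ℝ)))
      (measurable_const.indicator hm) (fun x => by
        by_cases hx : x ∈ {x : ℤ → A | x y ∉ S}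
        · rw [Set.indicator_of_mem hx, abs_one]
        · rw [Set.indicator_of_notMem hx, abs_zero]
          exact zero_le_one)
    rw [integral_indicator_const (1 : ℝ) hm, smul_eq_mul, mul_one] at h1
    rw [h1]
    refine le_trans (le_of_eq ?_) hi
    refine integral_congr_ae (Filter.Eventually.of_forall fun x => ?_)
    show av i _ = av i _
    congr 1
    funext σ
    by_cases hx : L.wd σ x y ∈ S
    · rw [if_pos hx, Set.indicator_of_notMem]
      simpa using hx
    · rw [if_neg hx, Set.indicator_of_mem]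
      exact hx)
  refine ⟨μ, hμ, ?_, ?_⟩
  · refine lim_stn L ρ μ hl ?_
    intro n f hf hb
    have hfm : Measurable f := hf.measurable
    have key : ∀ i : ℕ, n + 1 ≤ Rr i → |∑ s ∈ Finset.Icc (-(n : ℤ)) (n + 1),
        (∫ x, f (L.T s x) ∂(ρ i) - ∫ x, f x ∂(ρ i))| ≤ 2 * (1 / ((i : ℝ) + 1)) := by
      intro i hi
      have hi1 : (0 : ℝ) < (i : ℝ) + 1 := by positivity
      have hsub : Finset.Icc (-(n : ℤ)) (n + 1) ⊆ Ww i := by
        unfold Ww
        intro s hs
        rw [Finset.mem_Icc] at hs ⊢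
        omega
      rw [Finset.sum_subset hsub (fun s _ hs => by
        simp only [T_far L hf hs]
        exact sub_self _)]
      have h1 : ∀ s, ∫ x, f (L.T s x) ∂(ρ i) = ∫ x, av i (fun σ => f (L.wd (σ ++ [s]) x)) ∂π := by
        intro s
        rw [hρ' i (fun x => f (L.T s x)) (hfm.comp (L.measurable_T s)) (fun x => hb _)]
        simp only [L.wd_append]
        rfl
      have h2 : ∫ x, f x ∂(ρ i) = ∫ x, av i (fun σ => f (L.wd σ x)) ∂π := hρ' i f hfm hb
      have i1 : ∀ s, Integrable (fun x => av i (fun σ => f (L.wd (σ ++ [s]) x))) π := fun s =>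
        av_integrable (fun σ => ta_int L π hfm hb (σ ++ [s])) i
      have i2 : Integrable (fun x => av i (fun σ => f (L.wd σ x))) π :=
        av_integrable (fun σ => ta_int L π hfm hb σ) i
      have h3 : ∑ s ∈ Ww i, (∫ x, f (L.T s x) ∂(ρ i) - ∫ x, f x ∂(ρ i)) =
          ∫ x, (1 / ((i : ℝ) + 1)) *
            (EW (Ww i) (Kk i) (fun σ => f (L.wd σ x)) - f (L.wd [] x)) ∂π := by
        have h4 : ∀ x, (1 / ((i : ℝ) + 1)) *
            (EW (Ww i) (Kk i) (fun σ => f (L.wd σ x)) - f (L.wd [] x)) =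
            ∑ s ∈ Ww i, (av i (fun σ => f (L.wd (σ ++ [s]) x)) - av i (fun σ => f (L.wd σ x))) :=
          fun x => (ta_bal i (fun σ => f (L.wd σ x))).symm
        simp only [h4]
        have i3 : ∀ s, Integrable (fun x => av i (fun σ => f (L.wd (σ ++ [s]) x)) -
            av i (fun σ => f (L.wd σ x))) π := fun s => (i1 s).sub i2
        rw [integral_finsetSum _ (fun s _ => i3 s)]
        refine Finset.sum_congr rfl fun s _ => ?_
        rw [integral_sub (i1 s) i2, h1, h2]
      rw [h3]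
      have h5 : ∀ x, ‖(1 / ((i : ℝ) + 1)) *
          (EW (Ww i) (Kk i) (fun σ => f (L.wd σ x)) - f (L.wd [] x))‖ ≤ 2 * (1 / ((i : ℝ) + 1)) := by
        intro x
        rw [norm_mul, Real.norm_of_nonneg (by positivity), mul_comm]
        refine mul_le_mul_of_nonneg_right ?_ (by positivity)
        have h6 := EW_abs_le_one (Ww_nonempty i) (k := Kk i) (F := fun σ => f (L.wd σ x))
          (fun σ => hb _)
        have h7 := hb (L.wd [] x)
        rw [Real.norm_eq_abs]
        refine (abs_sub _ _).trans ?_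
        linarith
      have h8 := norm_integral_le_of_norm_le_const (μ := π) (Filter.Eventually.of_forall h5)
      rw [probReal_univ, mul_one, Real.norm_eq_abs] at h8
      exact h8
    have h9 : Tendsto (fun i : ℕ => ∑ s ∈ Finset.Icc (-(n : ℤ)) (n + 1),
        (∫ x, f (L.T s x) ∂(ρ i) - ∫ x, f x ∂(ρ i))) atTop (𝓝 0) := by
      refine squeeze_zero_norm' (a := fun i : ℕ => 2 * (1 / ((i : ℝ) + 1))) ?_ ?_
      · filter_upwards [Filter.eventually_ge_atTop n] with i hi
        rw [Real.norm_eq_abs]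
        refine key i ?_
        unfold Rr
        omega
      · have := (tendsto_one_div_add_atTop_nhds_zero_nat (𝕜 := ℝ)).const_mul 2
        rwa [mul_zero] at this
    exact h9.mono_left Nat.hyperfilter_le_atTop
  · intro n f hf hb
    have h1 := hl n f hf hb
    have h2 : ∀ i, ∫ x, f x ∂(ρ i) = ∫ x, av i (fun σ => f (L.wd σ x)) ∂π := fun i =>
      hρ' i f hf.measurable hb
    simp only [h2] at h1
    exact h1

end Pool.MP4bb68cEx
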