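import Mathlib
import Pool.Agent.Work.MP_4bb68c_ex.Defs
import Pool.Agent.Work.MP_4bb68c_ex.Defs2
import Pool.Agent.Work.MP_4bb68c_ex.SysB
import Pool.Agent.Work.MP_4bb68c_ex.EWb
import Pool.Agent.Work.MP_4bb68c_ex.Link
import Pool.Agent.Work.MP_4bb68c_ex.LowB
import Pool.Agent.Work.MP_4bb68c_ex.Quasi
import Pool.Agent.Work.MP_4bb68c_ex.TiAv
import Pool.Agent.Work.MP_4bb68c_ex.UTight
import Pool.Agent.Work.MP_4bb68c_ex.ThmC
import Pool.Agent.Work.MP_4bb68c_ex.Bern
import Pool.Agent.Work.MP_4bb68c_ex.Proj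
import Pool.Agent.Work.MP_4bb68c_cl.Meas

/-!
# Coalescence of the ancestors under every stationary law (module Coal, size M)

PROOF. Take `π` from `init_col`. Apply `time_avg` to `SC` and `π`. Tightness: given `y, ε`, take `m'` from
`utight (ε/2)` and `S = Icc (-m') m' ×ˢ univ`. `SC.wd σ ξ y ∉ S` iff `m' < |SI.wd σ (hI ξ) y|` (`hI_wd`), so
`∫ ξ, av i (fun σ => [SC.wd σ ξ y ∉ S]) dπ = ∫ η, av i (fun σ => [m' < |SI.wd σ η y|]) dν`
(`π.map hI = ν`) `≤ ν.real {m' < |η y|} + er |y| i ≤ ε/2 + ε/2` for `i` large, by `Stn.inv_av` (the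
indicator is `Loc |y|`) and `er_tendsto`.
So there is a stationary limit `μ`. By `thmC`, `μ {ξ | zI ξ (-m) ≠ zI ξ m} = 0`. The indicator of this
event is `Loc m`, so along the hyperfilter
`∫ ξ, av i (fun σ => [zI (SC.wd σ ξ) (-m) ≠ zI (SC.wd σ ξ) m]) dπ → 0`. By `av_integral`,
`integral_indicator` and `init_col` the left side is `(1/2)` times
`∫ η, av i (fun σ => [anc σ (pr η) (-m) ≠ anc σ (pr η) m]) dν` (both are
`av i` of the probabilities).
-/

set_option autoImplicit false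

open MeasureTheory ProbabilityTheory Filter Topology
open scoped NNReal ENNReal

namespace Pool.MP4bb68cEx

open Pool.MP4bb68c Pool.MP4bb68cOne Pool.MP4bb68cCl

private theorem co_int {X Y : Type*} [MeasurableSpace X] [MeasurableSpace Y] {μ : Measure X}
    {B : Set Y} (hm : MeasurableSet B) {T : X → Y}
    (hT : Measurable T) : ∫ x, B.indicator (fun _ => (1 : ℝ)) (T x) ∂μ = μ.real (T ⁻¹' B) := by
  have h1 : (fun x => B.indicator (fun _ => (1 : ℝ)) (T x)) =
      (T ⁻¹' B).indicator (fun _ => (1 : ℝ)) := by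
    funext x
    by_cases hx : T x ∈ B
    · rw [Set.indicator_of_mem hx, Set.indicator_of_mem (show x ∈ T ⁻¹' B from hx)]
    · rw [Set.indicator_of_notMem hx, Set.indicator_of_notMem (show x ∉ T ⁻¹' B from hx)]
  rw [h1, integral_indicator_const _ (hT hm), smul_eq_mul, mul_one]

private theorem co_abs {Y : Type*} (B : Set Y) (x : Y) :
    |B.indicator (fun _ => (1 : ℝ)) x| ≤ 1 := by
  by_cases hx : x ∈ B
  · rw [Set.indicator_of_mem hx, abs_one]
  · rw [Set.indicator_of_notMem hx, abs_zero]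
    norm_num

private theorem co_itg {X Y : Type*} [MeasurableSpace X] [MeasurableSpace Y] {μ : Measure X}
    [IsFiniteMeasure μ] {B : Set Y} (hm : MeasurableSet B) {T : X → Y} (hT : Measurable T) :
    Integrable (fun x => B.indicator (fun _ => (1 : ℝ)) (T x)) μ :=
  Integrable.of_bound ((measurable_const.indicator hm).comp hT).aestronglyMeasurable 1
    (Filter.Eventually.of_forall fun x => by
      rw [Real.norm_eq_abs]
      exact co_abs _ _)

private theorem co_tight {ν : Measure (ℤ → ℤ)} [IsProbabilityMeasure ν] (h : Stn SI ν)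
    {π : Measure (ℤ → ℤ × Bool)} [IsProbabilityMeasure π]
    (hmap : π.map Pool.MP4bb68cEx.hI = ν) (y : ℤ) {ε : ℝ} (hε : 0 < ε) :
    ∃ m' : ℕ, ∀ᶠ i in atTop, ∫ x, av i (fun σ =>
      ({η : ℤ → ℤ | (m' : ℤ) < |η y|}).indicator (fun _ => (1 : ℝ))
        (SI.wd σ (Pool.MP4bb68cEx.hI x))) ∂π ≤ ε := by
  obtain ⟨m', hm'⟩ := utight (ε / 2) (half_pos hε)
  refine ⟨m', ?_⟩
  obtain ⟨B, hBd⟩ : ∃ B : Set (ℤ → ℤ), B = {η : ℤ → ℤ | (m' : ℤ) < |η y|} := ⟨_, rfl⟩
  have hB : LocS y.natAbs B := by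
    intro x x' hxx
    have h1 : x y = x' y := hxx y (by omega) (by omega)
    rw [hBd]
    show (m' : ℤ) < |x y| ↔ (m' : ℤ) < |x' y|
    rw [h1]
  have hm := hB.measurableSet
  have h2 : ν.real B ≤ ε / 2 := by
    rw [hBd]
    exact hm' ν inferInstance h y
  have h3 : ∫ η, B.indicator (fun _ => (1 : ℝ)) η ∂ν = ν.real B := co_int hm measurable_id
  have h4 := (er_tendsto y.natAbs).eventually (ge_mem_nhds (half_pos hε))
  rw [← hBd]
  filter_upwards [h4] with i hi
  have h5 := h.inv_av (i := i) hB.loc (co_abs B)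
  have h6 : ∫ x, av i (fun σ => B.indicator (fun _ => (1 : ℝ))
      (SI.wd σ (Pool.MP4bb68cEx.hI x))) ∂π =
      ∫ η, av i (fun σ => B.indicator (fun _ => (1 : ℝ)) (SI.wd σ η)) ∂ν := by
    rw [av_integral (F := fun σ x => B.indicator (fun _ => (1 : ℝ))
        (SI.wd σ (Pool.MP4bb68cEx.hI x)))
      (fun σ => co_itg hm ((SI.measurable_wd σ).comp measurable_hI)),
      av_integral (F := fun σ η => B.indicator (fun _ => (1 : ℝ)) (SI.wd σ η))
      (fun σ => co_itg hm (SI.measurable_wd σ))]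
    congr 1
    funext σ
    rw [co_int hm (SI.measurable_wd σ), ← hmap,
      map_measureReal_apply measurable_hI ((SI.measurable_wd σ) hm)]
    exact co_int hm ((SI.measurable_wd σ).comp measurable_hI)
  rw [h6]
  rw [h3] at h5
  have h7 := (abs_le.1 h5).2
  linarith

open Classical in
theorem coal {ν : Measure (ℤ → ℤ)} [IsProbabilityMeasure ν] (h : Stn SI ν) (m : ℕ) :
    Tendsto (fun i => ∫ η, av i (fun σ =>
      if anc σ (pr η) (-(m : ℤ)) = anc σ (pr η) m then (0 : ℝ) else 1) ∂ν)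
      (hyperfilter ℕ) (𝓝 0) := by
  obtain ⟨π, hπ, hmap, hcol⟩ := init_col ν
  obtain ⟨μ, hμ, hS, hlim⟩ := time_avg SC π (by
    intro y ε hε
    obtain ⟨m', hm'⟩ := co_tight h hmap y hε
    refine ⟨Finset.Icc (-(m' : ℤ)) m' ×ˢ Finset.univ, ?_⟩
    filter_upwards [hm'] with i hi
    refine le_trans (le_of_eq (integral_congr_ae (Filter.Eventually.of_forall fun x => ?_))) hi
    show av i _ = av i _
    congr 1
    funext σ
    have h1 : (SC.wd σ x y ∈ Finset.Icc (-(m' : ℤ)) m' ×ˢ (Finset.univ : Finset Bool)) ↔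
        SI.wd σ (Pool.MP4bb68cEx.hI x) ∉ {η : ℤ → ℤ | (m' : ℤ) < |η y|} := by
      rw [← hI_wd, Finset.mem_product, Finset.mem_Icc]
      show (-(m' : ℤ) ≤ (SC.wd σ x y).1 ∧ (SC.wd σ x y).1 ≤ m') ∧ (SC.wd σ x y).2 ∈ _ ↔
        ¬ ((m' : ℤ) < |(SC.wd σ x y).1|)
      rw [not_lt, abs_le]
      simp only [Finset.mem_univ, and_true]
    by_cases h2 : SC.wd σ x y ∈ Finset.Icc (-(m' : ℤ)) m' ×ˢ (Finset.univ : Finset Bool)
    · rw [if_pos h2, Set.indicator_of_notMem (h1.1 h2)]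
    · rw [if_neg h2, Set.indicator_of_mem (not_not.1 fun h3 => h2 (h1.2 h3))])
  obtain ⟨B, hBd⟩ : ∃ B : Set (ℤ → ℤ × Bool), B = {ξ | zI ξ (-(m : ℤ)) ≠ zI ξ m} := ⟨_, rfl⟩
  have hB : LocS m B := by
    intro x x' hxx
    have h1 : zI x (-(m : ℤ)) = zI x' (-(m : ℤ)) := by
      unfold zI
      rw [hxx (-(m : ℤ)) (by omega) (by omega)]
    have h2 : zI x m = zI x' m := by
      unfold zI
      rw [hxx m (by omega) (by omega)]
    rw [hBd]
    show zI x (-(m : ℤ)) ≠ zI x m ↔ zI x' (-(m : ℤ)) ≠ zI x' m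
    rw [h1, h2]
  have hm := hB.measurableSet
  have h1 := hlim m _ hB.loc (co_abs B)
  have h2 : ∫ ξ, B.indicator (fun _ => (1 : ℝ)) ξ ∂μ = 0 := by
    apply integral_eq_zero_of_ae
    filter_upwards [thmC hS] with ξ hξ
    have h3 : ξ ∉ B := by
      rw [hBd]
      show ¬ (zI ξ (-(m : ℤ)) ≠ zI ξ m)
      exact fun h4 => h4 (hξ _ _)
    exact Set.indicator_of_notMem h3 _
  rw [h2] at h1
  have hma : ∀ σ : List ℤ, MeasurableSet {η : ℤ → ℤ | anc σ (pr η) (-(m : ℤ)) ≠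
      anc σ (pr η) m} := by
    intro σ
    exact (measurableSet_eq_fun (measurable_anc σ (fun z => measurable_pr z) _)
      (measurable_anc σ (fun z => measurable_pr z) _)).compl
  have h3 : ∀ i, ∫ η, av i (fun σ =>
      if anc σ (pr η) (-(m : ℤ)) = anc σ (pr η) m then (0 : ℝ) else 1) ∂ν =
      2 * ∫ x, av i (fun σ => B.indicator (fun _ => (1 : ℝ)) (SC.wd σ x)) ∂π := by
    intro i
    have h4 : ∀ (σ : List ℤ) (η : ℤ → ℤ),
        (if anc σ (pr η) (-(m : ℤ)) = anc σ (pr η) m then (0 : ℝ) else 1) =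
        ({η : ℤ → ℤ | anc σ (pr η) (-(m : ℤ)) ≠ anc σ (pr η) m}).indicator
          (fun _ => (1 : ℝ)) (id η) := by
      intro σ η
      by_cases h5 : anc σ (pr η) (-(m : ℤ)) = anc σ (pr η) m
      · have h6 : id η ∉ {η : ℤ → ℤ | anc σ (pr η) (-(m : ℤ)) ≠ anc σ (pr η) m} := by
          show ¬ (anc σ (pr η) (-(m : ℤ)) ≠ anc σ (pr η) m)
          exact fun h7 => h7 h5
        rw [if_pos h5, Set.indicator_of_notMem h6]
      · rw [if_neg h5, Set.indicator_of_mem h5]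
    simp only [h4]
    rw [av_integral (F := fun σ η => ({η : ℤ → ℤ | anc σ (pr η) (-(m : ℤ)) ≠
          anc σ (pr η) m}).indicator (fun _ => (1 : ℝ)) (id η))
        (fun σ => co_itg (hma σ) measurable_id),
      av_integral (F := fun σ x => B.indicator (fun _ => (1 : ℝ)) (SC.wd σ x))
        (fun σ => co_itg hm (SC.measurable_wd σ)), ← av_mul]
    congr 1
    funext σ
    rw [co_int (hma σ) measurable_id, co_int hm (SC.measurable_wd σ)]
    have h5 := hcol σ m
    have h6 : SC.wd σ ⁻¹' B = {ξ | zI (SC.wd σ ξ) (-(m : ℤ)) ≠ zI (SC.wd σ ξ) m} := by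
      rw [hBd]
      rfl
    rw [h6, h5, Set.preimage_id]
    ring
  simp only [h3]
  have h4 := h1.const_mul 2
  rwa [mul_zero] at h4

end Pool.MP4bb68cEx
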