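import Mathlib
import Pool.Agent.Work.MP_4bb68c_ex.Defs
import Pool.Agent.Work.MP_4bb68c_ex.Anc
import Pool.Agent.Work.MP_4bb68c_ex.AncCmp

/-!
# Two height functions with the same updates: coalescence of ancestors gives order
(module PairM, size M)

`pairL`, `pairR`: induction on the word from its END (`List.reverseRecOn`), for all `x, y` at once.
Notation: `H = wd σ h`, `H' = wd σ h'`, `a = anc σ h`, `a' = anc σ h'`, `D = H' - H`; new last letter
`s`, `c = cs H s`, `c' = cs H' s`; new values only at `s`: `H_new s = H c + [c = s]`, `a_new s = a c`,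
`H'_new s = H' c' + [c' = s]`, `a'_new s = a' c'`. By `cand_le`:
(1) `D_new s ≤ H' c' - H c' = D c'` and (2) `D_new s ≥ H' c - H c = D c`.

`pairL`: (`x ≤ y` and `a' y ≤ a x` imply `D y ≤ D x`.) For `σ = []`: `y ≤ x ≤ y`, so `x = y`. Step: if
`x = y` trivial. If `x, y ≠ s`: induction hypothesis. If `y = s`, `x < s`: `x ≤ s - 1 ≤ c'` and
`a' c' ≤ a x`, so by the induction hypothesis for `(x, c')`: `D c' ≤ D x`; use (1). If `x = s`,
`s < y`: `c ≤ s + 1 ≤ y` and `a' y ≤ a c`, so by the induction hypothesis for `(c, y)`: `D y ≤ D c`;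
use (2).

`pairR`: (`y ≤ x` and `a x ≤ a' y` imply `D y ≤ D x`.) Mirror image: `σ = []`: `x = y`. If `y = s`,
`s < x`: `c' ≤ s + 1 ≤ x`, `a x ≤ a' c'`, so `D c' ≤ D x`; use (1). If `x = s`, `y < s`:
`y ≤ s - 1 ≤ c`, `a c ≤ a' y`, so `D y ≤ D c`; use (2).

`pair_mono`: by `anc_mono`, `anc σ h` is constant `= a` on `[-m, m]` and `anc σ h'` is constant `= a'`
there. If `a' ≤ a`: for `x, x + 1` in `[-m, m]`, `pairL` gives `D (x + 1) ≤ D x`, that is
`gr (wd σ h') x ≤ gr (wd σ h) x`. If `a ≤ a'`: `pairR` (with `x := x + 1`, `y := x`) gives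
`D x ≤ D (x + 1)`. (`gr h x = h (x + 1) - h x`.)
-/

set_option autoImplicit false

open MeasureTheory ProbabilityTheory Filter Topology
open scoped NNReal ENNReal

namespace Pool.MP4bb68cEx

open Pool.MP4bb68c Pool.MP4bb68cOne Pool.MP4bb68cCl

/-- the two inequalities at the new letter -/
private theorem pm_new (h h' : ℤ → ℤ) (s : ℤ) :
    up1 s h' s - up1 s h s ≤ h' (cs h' s) - h (cs h' s) ∧
      h' (cs h s) - h (cs h s) ≤ up1 s h' s - up1 s h s := by
  have k1 := up1_self h' s
  have k2 := up1_self h s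
  have k3 := cand_le h s (cs h' s) (cs_cases h' s)
  have k4 := cand_le h' s (cs h s) (cs_cases h s)
  constructor <;> linarith

theorem pairL (σ : List ℤ) (h h' : ℤ → ℤ) {x y : ℤ} (hxy : x ≤ y) (ha : anc σ h' y ≤ anc σ h x) :
    wd σ h' y - wd σ h y ≤ wd σ h' x - wd σ h x := by
  induction σ using List.reverseRecOn generalizing x y with
  | nil =>
    have e : x = y := le_antisymm hxy ha
    rw [e]
  | append_singleton σ s ih =>
    rw [anc_snoc, anc_snoc] at ha
    simp only [wd_snoc]
    have hc := cs_cases (wd σ h) s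
    have hc' := cs_cases (wd σ h') s
    obtain ⟨n1, n2⟩ := pm_new (wd σ h) (wd σ h') s
    by_cases hx : x = s
    · rw [if_pos hx] at ha
      by_cases hy : y = s
      · rw [hx, hy]
      · rw [if_neg hy] at ha
        have k := ih (x := cs (wd σ h) s) (y := y) (by omega) ha
        rw [up1_of_ne hy, up1_of_ne hy, hx]
        linarith
    · rw [if_neg hx] at ha
      by_cases hy : y = s
      · rw [if_pos hy] at ha
        have k := ih (x := x) (y := cs (wd σ h') s) (by omega) ha
        rw [up1_of_ne hx, up1_of_ne hx, hy]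
        linarith
      · rw [if_neg hy] at ha
        rw [up1_of_ne hx, up1_of_ne hx, up1_of_ne hy, up1_of_ne hy]
        exact ih hxy ha

theorem pairR (σ : List ℤ) (h h' : ℤ → ℤ) {x y : ℤ} (hxy : y ≤ x) (ha : anc σ h x ≤ anc σ h' y) :
    wd σ h' y - wd σ h y ≤ wd σ h' x - wd σ h x := by
  induction σ using List.reverseRecOn generalizing x y with
  | nil =>
    have e : x = y := le_antisymm ha hxy
    rw [e]
  | append_singleton σ s ih =>
    rw [anc_snoc, anc_snoc] at ha
    simp only [wd_snoc]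
    have hc := cs_cases (wd σ h) s
    have hc' := cs_cases (wd σ h') s
    obtain ⟨n1, n2⟩ := pm_new (wd σ h) (wd σ h') s
    by_cases hx : x = s
    · rw [if_pos hx] at ha
      by_cases hy : y = s
      · rw [hx, hy]
      · rw [if_neg hy] at ha
        have k := ih (x := cs (wd σ h) s) (y := y) (by omega) ha
        rw [up1_of_ne hy, up1_of_ne hy, hx]
        linarith
    · rw [if_neg hx] at ha
      by_cases hy : y = s
      · rw [if_pos hy] at ha
        have k := ih (x := x) (y := cs (wd σ h') s) (by omega) ha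
        rw [up1_of_ne hx, up1_of_ne hx, hy]
        linarith
      · rw [if_neg hy] at ha
        rw [up1_of_ne hx, up1_of_ne hx, up1_of_ne hy, up1_of_ne hy]
        exact ih hxy ha

theorem pair_mono (σ : List ℤ) (h h' : ℤ → ℤ) {m : ℤ} (h1 : anc σ h (-m) = anc σ h m)
    (h2 : anc σ h' (-m) = anc σ h' m) :
    (∀ x, -m ≤ x → x < m → gr (wd σ h) x ≤ gr (wd σ h') x) ∨
      (∀ x, -m ≤ x → x < m → gr (wd σ h') x ≤ gr (wd σ h) x) := by
  have hc1 : ∀ x, -m ≤ x → x ≤ m → anc σ h x = anc σ h m := fun x hx1 hx2 =>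
    le_antisymm (anc_mono σ h hx2) (by rw [← h1]; exact anc_mono σ h hx1)
  have hc2 : ∀ x, -m ≤ x → x ≤ m → anc σ h' x = anc σ h' m := fun x hx1 hx2 =>
    le_antisymm (anc_mono σ h' hx2) (by rw [← h2]; exact anc_mono σ h' hx1)
  rcases le_total (anc σ h m) (anc σ h' m) with hle | hle
  · left
    intro x hx1 hx2
    have k := pairR σ h h' (x := x + 1) (y := x) (by omega) (by
      rw [hc1 (x + 1) (by omega) (by omega), hc2 x hx1 (by omega)]
      exact hle)
    unfold gr
    linarith
  · right
    intro x hx1 hx2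
    have k := pairL σ h h' (x := x) (y := x + 1) (by omega) (by
      rw [hc1 x (by omega) (by omega), hc2 (x + 1) (by omega) (by omega)]
      exact hle)
    unfold gr
    linarith

end Pool.MP4bb68cEx
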