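import Mathlib
import Pool.Agent.Work.MP_4bb68c_ex.Defs
import Pool.Agent.Work.MP_4bb68c_ex.Defs2
import Pool.Agent.Work.MP_4bb68c_ex.SysB
import Pool.Agent.Work.MP_4bb68c_ex.EWb
import Pool.Agent.Work.MP_4bb68c_ex.Link
import Pool.Agent.Work.MP_4bb68c_ex.Quasi
import Pool.Agent.Work.MP_4bb68c_ex.PairM
import Pool.Agent.Work.MP_4bb68c_ex.Coal
import Pool.Agent.Work.MP_4bb68c_ex.Proj
import Pool.Agent.Work.MP_4bb68c_cl.Meas

/-!
# Every stationary coupling is monotone (module MonoC, size M)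

PROOF. For `m : ℕ` let `Q m` be the set of `x` for which neither `(x y).1 ≤ (x y).2` for all
`y ∈ [-m, m - 1]` nor `(x y).2 ≤ (x y).1` for all `y ∈ [-m, m - 1]`; it is `LocS m`. By `Stn.inv_av` for its
indicator: `μ.real (Q m) ≤ ∫ x, av i (fun σ => [SP.wd σ x ∈ Q m]) dμ + er m i`. For every `x` and `σ`, with
`h = pr (fsI x)`, `h' = pr (snI x)`: `fsI (SP.wd σ x) = SI.wd σ (fsI x) = gr (wd σ h)` and
`snI (SP.wd σ x) = gr (wd σ h')` (`fsI_wd`, `gr_wd`, `gr_pr'`). So by `pair_mono`, `SP.wd σ x ∈ Q m` implies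
`anc σ h (-m) ≠ anc σ h m` or `anc σ h' (-m) ≠ anc σ h' m`. Hence the integral is at most the sum of the
two quantities of `coal` for `μ.map fsI` and `μ.map snI` (`Stn.fs`, `Stn.sn`, `integral_map`), which tends
to `0` along the hyperfilter; so does `er m i`. So `μ (Q m) = 0` for all `m`. If `x` is in no `Q m` then
`x ∈ Pos ∪ Neg`: otherwise there are `y₁, y₂` with `(x y₁).2 < (x y₁).1` and `(x y₂).1 < (x y₂).2`, and
`x ∈ Q m` for `m > max |y₁| |y₂|`.
-/

set_option autoImplicit false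

open MeasureTheory ProbabilityTheory Filter Topology
open scoped NNReal ENNReal

namespace Pool.MP4bb68cEx

open Pool.MP4bb68c Pool.MP4bb68cOne Pool.MP4bb68cCl

open Classical in
private noncomputable def ca (m : ℕ) (σ : List ℤ) (η : ℤ → ℤ) : ℝ :=
  if anc σ (pr η) (-(m : ℤ)) = anc σ (pr η) m then (0 : ℝ) else 1

private theorem ca_cases (m : ℕ) (σ : List ℤ) (η : ℤ → ℤ) : ca m σ η = 0 ∨ ca m σ η = 1 := by
  unfold ca
  split_ifs
  · left; rfl
  · right; rfl

private theorem ca_abs (m : ℕ) (σ : List ℤ) (η : ℤ → ℤ) : |ca m σ η| ≤ 1 := by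
  rcases ca_cases m σ η with h | h <;> rw [h] <;> norm_num

private theorem ca_meas (m : ℕ) (σ : List ℤ) : Measurable (ca m σ) := by
  have hA : ∀ x : ℤ, Measurable fun η : ℤ → ℤ => anc σ (pr η) x := fun x =>
    measurable_anc σ (H := fun η => pr η) (fun z => measurable_pr z) x
  unfold ca
  exact Measurable.ite (measurableSet_eq_fun (hA _) (hA _)) measurable_const measurable_const

private theorem av_meas (m i : ℕ) : Measurable (fun η => av i (fun σ => ca m σ η)) := by
  unfold av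
  exact (Finset.measurable_fun_sum _ fun k _ => EW_measurable (ca_meas m) _ k).const_mul _

private def Qm (m : ℕ) : Set (ℤ → ℤ × ℤ) :=
  {x | ¬ (∀ y, -(m : ℤ) ≤ y → y < m → (x y).1 ≤ (x y).2) ∧
    ¬ (∀ y, -(m : ℤ) ≤ y → y < m → (x y).2 ≤ (x y).1)}

private theorem Qm_loc (m : ℕ) : LocS m (Qm m) := by
  intro x x' h
  have h1 : (∀ y, -(m : ℤ) ≤ y → y < m → (x y).1 ≤ (x y).2) ↔
      (∀ y, -(m : ℤ) ≤ y → y < m → (x' y).1 ≤ (x' y).2) := by
    refine forall_congr' fun y => forall_congr' fun h1 => forall_congr' fun h2 => ?_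
    rw [h y h1 h2.le]
  have h2 : (∀ y, -(m : ℤ) ≤ y → y < m → (x y).2 ≤ (x y).1) ↔
      (∀ y, -(m : ℤ) ≤ y → y < m → (x' y).2 ≤ (x' y).1) := by
    refine forall_congr' fun y => forall_congr' fun h1 => forall_congr' fun h2 => ?_
    rw [h y h1 h2.le]
  exact and_congr (not_congr h1) (not_congr h2)

private theorem Qm_pt (m : ℕ) (σ : List ℤ) (x : ℤ → ℤ × ℤ) :
    (Qm m).indicator (fun _ => (1 : ℝ)) (SP.wd σ x) ≤ ca m σ (fsI x) + ca m σ (snI x) := by
  have n1 : 0 ≤ ca m σ (fsI x) := by rcases ca_cases m σ (fsI x) with h | h <;> rw [h] <;> norm_num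
  have n2 : 0 ≤ ca m σ (snI x) := by rcases ca_cases m σ (snI x) with h | h <;> rw [h] <;> norm_num
  by_cases hx : SP.wd σ x ∈ Qm m
  · rw [Set.indicator_of_mem hx]
    by_cases h1 : anc σ (pr (fsI x)) (-(m : ℤ)) = anc σ (pr (fsI x)) m
    · by_cases h2 : anc σ (pr (snI x)) (-(m : ℤ)) = anc σ (pr (snI x)) m
      · exfalso
        have e1 : gr (wd σ (pr (fsI x))) = fsI (SP.wd σ x) := by rw [gr_wd, gr_pr', fsI_wd]
        have e2 : gr (wd σ (pr (snI x))) = snI (SP.wd σ x) := by rw [gr_wd, gr_pr', snI_wd]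
        rcases pair_mono σ (pr (fsI x)) (pr (snI x)) h1 h2 with h3 | h3
        · rw [e1, e2] at h3
          exact hx.1 h3
        · rw [e1, e2] at h3
          exact hx.2 h3
      · have e3 : ca m σ (snI x) = 1 := by unfold ca; rw [if_neg h2]
        linarith
    · have e3 : ca m σ (fsI x) = 1 := by unfold ca; rw [if_neg h1]
      linarith
  · rw [Set.indicator_of_notMem hx]
    linarith

theorem mono_coupling {μ : Measure (ℤ → ℤ × ℤ)} [IsProbabilityMeasure μ] (h : Stn SP μ) :
    ∀ᵐ x ∂μ, x ∈ Pos ∨ x ∈ Neg := by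
  have hzero : ∀ m : ℕ, μ.real (Qm m) = 0 := by
    intro m
    have hf : Loc m ((Qm m).indicator (fun _ => (1 : ℝ))) := (Qm_loc m).loc
    have hfb : ∀ x, |(Qm m).indicator (fun _ => (1 : ℝ)) x| ≤ 1 := by
      intro x
      by_cases hx : x ∈ Qm m
      · rw [Set.indicator_of_mem hx, abs_one]
      · rw [Set.indicator_of_notMem hx, abs_zero]; exact zero_le_one
    have hca : ∀ (φ : (ℤ → ℤ × ℤ) → ℤ → ℤ), Measurable φ → ∀ σ,
        Integrable (fun x => ca m σ (φ x)) μ := fun φ hφ σ =>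
      Integrable.of_bound ((ca_meas m σ).comp hφ).aestronglyMeasurable 1
        (Filter.Eventually.of_forall fun x => by rw [Real.norm_eq_abs]; exact ca_abs _ _ _)
    have hint : ∀ (φ : (ℤ → ℤ × ℤ) → ℤ → ℤ), Measurable φ → ∀ i,
        ∫ x, av i (fun σ => ca m σ (φ x)) ∂μ = ∫ η, av i (fun σ => ca m σ η) ∂(μ.map φ) := by
      intro φ hφ i
      rw [integral_map hφ.aemeasurable (av_meas m i).aestronglyMeasurable]
    have h1 : IsProbabilityMeasure (μ.map fsI) :=
      Measure.isProbabilityMeasure_map measurable_fsI.aemeasurable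
    have h2 : IsProbabilityMeasure (μ.map snI) :=
      Measure.isProbabilityMeasure_map measurable_snI.aemeasurable
    have hle : ∀ i, μ.real (Qm m) ≤ ∫ η, av i (fun σ => ca m σ η) ∂(μ.map fsI) +
        ∫ η, av i (fun σ => ca m σ η) ∂(μ.map snI) + er m i := by
      intro i
      have h3 := abs_le.1 (h.inv_av (i := i) hf hfb)
      rw [integral_indicator_const (1 : ℝ) (Qm_loc m).measurableSet, smul_eq_mul, mul_one] at h3
      have h4 : ∫ x, av i (fun σ => (Qm m).indicator (fun _ => (1 : ℝ)) (SP.wd σ x)) ∂μ ≤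
          ∫ x, av i (fun σ => ca m σ (fsI x) + ca m σ (snI x)) ∂μ := by
        refine integral_mono (av_integrable (fun σ => ?_) i) (av_integrable (fun σ => ?_) i)
          fun x => av_mono fun σ => Qm_pt m σ x
        · exact Integrable.of_bound (hf.measurable.comp (SP.measurable_wd σ)).aestronglyMeasurable 1
            (Filter.Eventually.of_forall fun x => by rw [Real.norm_eq_abs]; exact hfb _)
        · exact (hca fsI measurable_fsI σ).add (hca snI measurable_snI σ)
      have h5 : ∫ x, av i (fun σ => ca m σ (fsI x) + ca m σ (snI x)) ∂μ =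
          ∫ x, av i (fun σ => ca m σ (fsI x)) ∂μ + ∫ x, av i (fun σ => ca m σ (snI x)) ∂μ := by
        rw [← integral_add (av_integrable (fun σ => hca fsI measurable_fsI σ) i)
          (av_integrable (fun σ => hca snI measurable_snI σ) i)]
        refine integral_congr_ae (Filter.Eventually.of_forall fun x => ?_)
        exact av_add i _ _
      rw [h5, hint fsI measurable_fsI i, hint snI measurable_snI i] at h4
      linarith [h3.1]
    have hlim := ((coal h.fs m).add (coal h.sn m)).add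
      ((er_tendsto m).mono_left Nat.hyperfilter_le_atTop)
    rw [add_zero, add_zero] at hlim
    refine le_antisymm (ge_of_tendsto hlim (Filter.Eventually.of_forall hle)) measureReal_nonneg
  have hall : ∀ᵐ x ∂μ, ∀ m : ℕ, x ∉ Qm m := by
    rw [ae_all_iff]
    intro m
    rw [ae_iff]
    simp only [not_not]
    have h1 := hzero m
    rw [measureReal_eq_zero_iff] at h1
    exact h1
  filter_upwards [hall] with x hx
  by_contra hcon
  rw [not_or] at hcon
  obtain ⟨h1, h2⟩ := hcon
  have h3 : ∃ y, ¬ (x y).1 ≤ (x y).2 := by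
    by_contra h; push Not at h; exact h1 h
  have h4 : ∃ y, ¬ (x y).2 ≤ (x y).1 := by
    by_contra h; push Not at h; exact h2 h
  obtain ⟨y, hy⟩ := h3
  obtain ⟨z, hz⟩ := h4
  refine hx (y.natAbs + z.natAbs + 1) ⟨fun h => hy (h y (by omega) (by omega)),
    fun h => hz (h z (by omega) (by omega))⟩

end Pool.MP4bb68cEx
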