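import Mathlib
import Pool.Agent.Work.MP_4bb68c_ex.Defs
import Pool.Agent.Work.MP_4bb68c_ex.Defs2
import Pool.Agent.Work.MP_4bb68c_ex.SysB
import Pool.Agent.Work.MP_4bb68c_ex.Restr
import Pool.Agent.Work.MP_4bb68c_ex.MonoC
import Pool.Agent.Work.MP_4bb68c_ex.Proj

/-!
# Restriction of a stationary coupling to the ordered pairs (module PosR, size M)

`SI_mono`: at `x = s - 1`: `η (s-1) + cc η s = max (η (s-1) + 1) (max (η (s-1) + η s) 0)`; at `x = s`:
`η s - cc η s = min (η s - 1) (min 0 (η s + η (s-1)))`: both nondecreasing in `η (s-1)`, `η s`; other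
coordinates unchanged. `SI_sum`: `SI.T s η (s-1) + SI.T s η s = η (s-1) + η s`.

`pos_restrict`: `restrict_stn` with `N n = n`, `B n = {x | ∀ y ∈ [-n, n], (x y).1 ≤ (x y).2}`, `B' = Pos`
(measurable: countable intersection; `B n` decreases to `Pos`, so `hlim` holds for every `x`: if
`x ∉ Pos` take a bad coordinate `y` and `n ≥ |y|`).
Errors. By `mono_coupling` we may consider `x ∈ Pos ∪ Neg`; let `δ y = (x y).2 - (x y).1`. If
`x ∈ Pos` then `SP.T s x ∈ Pos` (`SI_mono`), so both belong to `B n`. Let `x ∈ Neg`; then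
`SP.T s x ∈ Neg`, all `δ ≤ 0`, and membership in `B n` means `δ = 0` on `[-n, n]`, i.e. the sum of `δ` over
`[-n, n]` is zero. For `-n + 1 ≤ s ≤ n` the update changes only the coordinates `s - 1, s`, both in
`[-n, n]`, and preserves the sum (`SI_sum` for both families): no error. For `s = n + 1` the
coordinates `n`, `n + 1` change: if `x ∈ B n` and `SP.T s x ∉ B n` then `δ n = 0` and the new `δ n` is
negative, so `δ (n+1) < 0` (if `δ n = δ (n+1) = 0` the two families agree at `n, n+1` and stay so): `x`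
is in `B n` but not in `B (n+1)`. If `x ∉ B n` and `SP.T s x ∈ B n` then `δ = 0` on
`[-n, n-1]` and `δ n < 0`: `x` is in `B (n-1)` but not in `B n` (`n ≥ 1`). The same for `s = -n` (the
coordinates `-n-1` and `-n` change). So the error sum is at most
`2 (μ.real (B (n-1)) - μ.real (B (n+1)))` for `n ≥ 1`, and both terms converge to `μ.real Pos`
(`tendsto_measure_iInter_atTop` or `tendsto_measure_iInter_le`).
-/

set_option autoImplicit false

open MeasureTheory ProbabilityTheory Filter Topology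
open scoped NNReal ENNReal

namespace Pool.MP4bb68cEx

open Pool.MP4bb68c Pool.MP4bb68cOne Pool.MP4bb68cCl

theorem SI_mono {η η' : ℤ → ℤ} (h : ∀ y, η y ≤ η' y) (s x : ℤ) : SI.T s η x ≤ SI.T s η' x := by
  have h1 := h (s - 1)
  have h2 := h s
  have h3 := h x
  show (if x = s - 1 then η x + cc η s else if x = s then η x - cc η s else η x) ≤
    (if x = s - 1 then η' x + cc η' s else if x = s then η' x - cc η' s else η' x)
  unfold cc
  split_ifs with h4 h5
  · subst h4
    omega
  · subst h5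
    omega
  · exact h3

theorem SI_sum (η : ℤ → ℤ) (s : ℤ) : SI.T s η (s - 1) + SI.T s η s = η (s - 1) + η s := by
  show (if s - 1 = s - 1 then η (s - 1) + cc η s else if s - 1 = s then η (s - 1) - cc η s
      else η (s - 1)) +
    (if s = s - 1 then η s + cc η s else if s = s then η s - cc η s else η s) = η (s - 1) + η s
  rw [if_pos rfl, if_neg (by omega), if_pos rfl]
  ring

theorem measurableSet_Pos : MeasurableSet Pos := by
  have e : Pos = ⋂ y : ℤ, {x : ℤ → ℤ × ℤ | (x y).1 ≤ (x y).2} := by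
    ext x
    simp [Pos]
  rw [e]
  refine MeasurableSet.iInter fun y => ?_
  exact measurableSet_le (measurable_fst.comp (measurable_pi_apply y))
    (measurable_snd.comp (measurable_pi_apply y))

private theorem SPfst45 (s : ℤ) (x : ℤ → ℤ × ℤ) (y : ℤ) :
    (SP.T s x y).1 = SI.T s (fun z => (x z).1) y := rfl

private theorem SPsnd45 (s : ℤ) (x : ℤ → ℤ × ℤ) (y : ℤ) :
    (SP.T s x y).2 = SI.T s (fun z => (x z).2) y := rfl

private theorem SP_pos45 {x : ℤ → ℤ × ℤ} (hx : x ∈ Pos) (s : ℤ) : SP.T s x ∈ Pos := by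
  intro y
  rw [SPfst45, SPsnd45]
  exact SI_mono hx s y

private theorem SP_neg45 {x : ℤ → ℤ × ℤ} (hx : x ∈ Neg) (s : ℤ) : SP.T s x ∈ Neg := by
  intro y
  rw [SPfst45, SPsnd45]
  exact SI_mono (η := fun z => (x z).2) (η' := fun z => (x z).1) hx s y

private theorem SP_sum45 (x : ℤ → ℤ × ℤ) (s : ℤ) :
    (SP.T s x (s - 1)).1 + (SP.T s x s).1 = (x (s - 1)).1 + (x s).1 ∧
    (SP.T s x (s - 1)).2 + (SP.T s x s).2 = (x (s - 1)).2 + (x s).2 := by
  constructor
  · rw [SPfst45, SPfst45, SI_sum]
  · rw [SPsnd45, SPsnd45, SI_sum]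

/-- If the two families agree at `s - 1` and `s`, they still agree there after the update. -/
private theorem SP_eq45 (x : ℤ → ℤ × ℤ) (s : ℤ) (h1 : (x (s - 1)).1 = (x (s - 1)).2)
    (h2 : (x s).1 = (x s).2) {y : ℤ} (hy : y = s - 1 ∨ y = s) :
    (SP.T s x y).1 = (SP.T s x y).2 := by
  rw [SPfst45, SPsnd45]
  have e : cc (fun z => (x z).1) s = cc (fun z => (x z).2) s := by
    unfold cc
    simp only [h1, h2]
  have ey : (x y).1 = (x y).2 := by
    rcases hy with rfl | rfl
    · exact h1
    · exact h2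
  show (if y = s - 1 then (x y).1 + cc (fun z => (x z).1) s else if y = s then
      (x y).1 - cc (fun z => (x z).1) s else (x y).1) =
    (if y = s - 1 then (x y).2 + cc (fun z => (x z).2) s else if y = s then
      (x y).2 - cc (fun z => (x z).2) s else (x y).2)
  rw [e, ey]

/-- The event on the window `n`. -/
private def Bp45 (n : ℕ) : Set (ℤ → ℤ × ℤ) :=
  {x | ∀ y : ℤ, -(n : ℤ) ≤ y → y ≤ n → (x y).1 ≤ (x y).2}

private theorem Bp45_loc (n : ℕ) : LocS n (Bp45 n) := by
  intro x x' h
  constructor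
  · intro hx y h1 h2
    rw [← h y h1 h2]
    exact hx y h1 h2
  · intro hx y h1 h2
    rw [h y h1 h2]
    exact hx y h1 h2

private theorem Bp45_anti {n m : ℕ} (h : n ≤ m) : Bp45 m ⊆ Bp45 n := by
  intro x hx y h1 h2
  have : (n : ℤ) ≤ m := by exact_mod_cast h
  exact hx y (by omega) (by omega)

private theorem Bp45_mid {x : ℤ → ℤ × ℤ} (hx : x ∈ Pos ∨ x ∈ Neg) {n : ℕ} {s : ℤ}
    (h1 : -(n : ℤ) + 1 ≤ s) (h2 : s ≤ n) : SP.T s x ∈ Bp45 n ↔ x ∈ Bp45 n := by
  rcases hx with hx | hx
  · exact ⟨fun _ y _ _ => hx y, fun _ y _ _ => SP_pos45 hx s y⟩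
  · have hn' := SP_neg45 hx s
    have hs := SP_sum45 x s
    have a1 := hx (s - 1)
    have a2 := hx s
    have b1 := hn' (s - 1)
    have b2 := hn' s
    constructor
    · intro h y hy1 hy2
      have c1 := h (s - 1) (by omega) (by omega)
      have c2 := h s (by omega) (by omega)
      by_cases e1 : y = s - 1
      · subst e1
        omega
      · by_cases e2 : y = s
        · subst e2
          omega
        · have := h y hy1 hy2
          rwa [SP.out s x y e1 e2] at this
    · intro h y hy1 hy2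
      have c1 := h (s - 1) (by omega) (by omega)
      have c2 := h s (by omega) (by omega)
      by_cases e1 : y = s - 1
      · subst e1
        omega
      · by_cases e2 : y = s
        · subst e2
          omega
        · rw [SP.out s x y e1 e2]
          exact h y hy1 hy2

private theorem Bp45_end {x : ℤ → ℤ × ℤ} (hx : x ∈ Pos ∨ x ∈ Neg) {n : ℕ} (hn : 1 ≤ n) {s : ℤ}
    (hs : s = -(n : ℤ) ∨ s = (n : ℤ) + 1) (he : ¬ (SP.T s x ∈ Bp45 n ↔ x ∈ Bp45 n)) :
    x ∈ Bp45 (n - 1) \ Bp45 (n + 1) := by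
  have hn' : ((n - 1 : ℕ) : ℤ) = (n : ℤ) - 1 := by omega
  rcases hx with hx | hx
  · exact absurd ⟨fun _ y _ _ => hx y, fun _ y _ _ => SP_pos45 hx s y⟩ he
  · by_cases hB : x ∈ Bp45 n
    · have hT : SP.T s x ∉ Bp45 n := fun h => he ⟨fun _ => hB, fun _ => h⟩
      refine ⟨Bp45_anti (by omega) hB, fun hc => hT ?_⟩
      intro y h1 h2
      have eqs : ∀ z : ℤ, -(n : ℤ) - 1 ≤ z → z ≤ n + 1 → (x z).1 = (x z).2 := by
        intro z hz1 hz2
        have a1 := hc z (by push_cast; omega) (by push_cast; omega)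
        have a2 := hx z
        omega
      by_cases e : y = s - 1 ∨ y = s
      · exact (SP_eq45 x s (eqs _ (by omega) (by omega)) (eqs _ (by omega) (by omega)) e).le
      · rw [not_or] at e
        rw [SP.out s x y e.1 e.2]
        exact hB y h1 h2
    · have hT : SP.T s x ∈ Bp45 n := by
        by_contra h
        exact he ⟨fun h' => absurd h' h, fun h' => absurd h' hB⟩
      refine ⟨?_, fun hc => hB (Bp45_anti (by omega) hc)⟩
      intro y h1 h2
      have := hT y (by omega) (by omega)
      rwa [SP.out s x y (by omega) (by omega)] at this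

theorem pos_restrict {μ : Measure (ℤ → ℤ × ℤ)} [IsProbabilityMeasure μ] (h : Stn SP μ) :
    Stn SP (μ.restrict Pos) := by
  have hmc := mono_coupling h
  have hBm : ∀ n, MeasurableSet (Bp45 n) := fun n => (Bp45_loc n).measurableSet
  have hInter : ⋂ n, Bp45 n = Pos := by
    ext x
    simp only [Set.mem_iInter]
    constructor
    · intro hx y
      exact hx y.natAbs y (by omega) (by omega)
    · intro hx n y _ _
      exact hx y
  have hanti : Antitone Bp45 := fun n m hnm => Bp45_anti hnm
  have hlim0 : Tendsto (fun n => μ.real (Bp45 n)) atTop (𝓝 (μ.real Pos)) := by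
    have h1 := tendsto_measure_iInter_atTop (μ := μ) (fun n => (hBm n).nullMeasurableSet) hanti
      ⟨0, measure_ne_top _ _⟩
    rw [hInter] at h1
    exact (ENNReal.tendsto_toReal (measure_ne_top _ _)).comp h1
  refine restrict_stn h (fun n => n) Bp45 Bp45_loc Pos measurableSet_Pos ?_ ?_
  · refine ae_of_all _ fun x => ?_
    by_cases hx : x ∈ Pos
    · exact Eventually.of_forall fun n => ⟨fun _ => hx, fun _ y _ _ => hx y⟩
    · have : ∃ y, ¬ (x y).1 ≤ (x y).2 := by
        by_contra hc
        push Not at hc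
        exact hx hc
      obtain ⟨y, hy⟩ := this
      filter_upwards [eventually_ge_atTop y.natAbs] with n hn
      refine ⟨fun h' => absurd (h' y (by omega) (by omega)) hy, fun h' => absurd h' hx⟩
  · have l1 : Tendsto (fun n : ℕ => μ.real (Bp45 (n - 1))) atTop (𝓝 (μ.real Pos)) :=
      hlim0.comp (tendsto_sub_atTop_nat 1)
    have l2 : Tendsto (fun n : ℕ => μ.real (Bp45 (n + 1))) atTop (𝓝 (μ.real Pos)) :=
      hlim0.comp (tendsto_add_atTop_nat 1)
    have l3 : Tendsto (fun n : ℕ => 2 * (μ.real (Bp45 (n - 1)) - μ.real (Bp45 (n + 1)))) atTop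
        (𝓝 0) := by
      have := (l1.sub l2).const_mul 2
      simpa using this
    refine squeeze_zero' (Eventually.of_forall fun n => Finset.sum_nonneg fun s _ =>
      measureReal_nonneg) ?_ l3
    filter_upwards [eventually_ge_atTop 1] with n hn
    have hmid : ∀ s ∈ Finset.Icc (-(n : ℤ)) (n + 1), s ∉ ({-(n : ℤ), (n : ℤ) + 1} : Finset ℤ) →
        μ.real {x | ¬ (SP.T s x ∈ Bp45 n ↔ x ∈ Bp45 n)} = 0 := by
      intro s hs hs'
      rw [Finset.mem_Icc] at hs
      rw [Finset.mem_insert, Finset.mem_singleton, not_or] at hs'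
      rw [measureReal_def]
      have : μ {x | ¬ (SP.T s x ∈ Bp45 n ↔ x ∈ Bp45 n)} = 0 := by
        rw [← compl_compl {x | ¬ (SP.T s x ∈ Bp45 n ↔ x ∈ Bp45 n)}]
        refine mem_ae_iff.1 ?_
        filter_upwards [hmc] with x hx
        intro hc
        exact hc (Bp45_mid hx (by omega) (by omega))
      rw [this]
      rfl
    have hend : ∀ s ∈ ({-(n : ℤ), (n : ℤ) + 1} : Finset ℤ),
        μ.real {x | ¬ (SP.T s x ∈ Bp45 n ↔ x ∈ Bp45 n)} ≤
          μ.real (Bp45 (n - 1)) - μ.real (Bp45 (n + 1)) := by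
      intro s hs
      rw [Finset.mem_insert, Finset.mem_singleton] at hs
      rw [← measureReal_diff (Bp45_anti (by omega)) (hBm _)]
      rw [measureReal_def, measureReal_def]
      refine ENNReal.toReal_mono (measure_ne_top _ _) (measure_mono_ae ?_)
      filter_upwards [hmc] with x hx
      intro hc
      exact Bp45_end hx hn hs hc
    have hsub : ({-(n : ℤ), (n : ℤ) + 1} : Finset ℤ) ⊆ Finset.Icc (-(n : ℤ)) (n + 1) := by
      intro s hs
      rw [Finset.mem_insert, Finset.mem_singleton] at hs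
      rw [Finset.mem_Icc]
      omega
    rw [← Finset.sum_subset hsub hmid]
    calc _ ≤ ∑ _s ∈ ({-(n : ℤ), (n : ℤ) + 1} : Finset ℤ),
          (μ.real (Bp45 (n - 1)) - μ.real (Bp45 (n + 1))) := Finset.sum_le_sum hend
      _ = 2 * (μ.real (Bp45 (n - 1)) - μ.real (Bp45 (n + 1))) := by
          rw [Finset.sum_pair (by omega)]
          ring

end Pool.MP4bb68cEx
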