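import Mathlib
import Pool.Agent.Work.MP_4bb68c_ex.Defs
import Pool.Agent.Work.MP_4bb68c_ex.Defs2
import Pool.Agent.Work.MP_4bb68c_ex.PosR

/-!
# The maximum of two ordered height functions (module MaxP, size M; integer arithmetic)

`x ∈ Pos`: `δ y = dl2 x y ≥ 0` for all `y`. Write `a = (x (s-1)).1`, `b = (x s).1`, `a' = (x (s-1)).2`,
`b' = (x s).2`, `D0 = ∑ z ∈ Ico (-N) (s-1), δ z`, `D1 = D0 + δ (s-1)`, `D2 = D1 + δ s` (`s ≥ -N + 1`), all
`≥ 0`. As the `δ z` are nonnegative integers, `zN N x y = true` iff `∑ z ∈ Ico (-N) y, δ z ≥ 1`; so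
`zN N x (s-1) = [D0 ≥ 1]`, `zN N x s = [D1 ≥ 1]`, `zN N x (s+1) = [D2 ≥ 1]`. One can avoid the sums:
only the three Booleans `z0 = zN N x (s-1)`, `z1 = zN N x s`, `z2 = zN N x (s+1)` matter, with
`z1 = z0 || (δ (s-1) ≠ 0)`, `z2 = z1 || (δ s ≠ 0)`.

`psiN_T` (`s ≥ -N + 1`, `y ≥ -N`). Let `c = max 1 (max b (-a))`, `c' = max 1 (max b' (-a'))`. After the
update: `δ (s-1)` becomes `δ (s-1) + c' - c ≥ 0` and `δ s` becomes `δ s - (c' - c) ≥ 0` (`SI_mono`), the sum
is unchanged, other `δ` unchanged. So `zN` is unchanged at all `y ≠ s` (for `y ≤ s - 1` nothing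
changed to the left of `y`; for `y ≥ s + 1`: some `δ` on `[-N, y-1]` is nonzero iff the sum is
positive, and the sum is unchanged), and at `s` it becomes `z0 || (δ (s-1) + c' - c ≠ 0)`.
The increments of `psiN N x` at `s - 1`, `s` are `A = a' - [z0 = false and z1 = true]` and
`B = b' - [z1 = false and z2 = true]`. Claims (all by case distinction on the Booleans and `omega`):
 * with `c'' = max 1 (max B (-A))`: `A + c'' = a' + c' - [z0 = false and z1' = true]` and
   `B - c'' = b' - c' - [z1' = false and z2 = true]`, where `z1' = z0 || (δ (s-1) + c' - c ≠ 0)`;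
 * the colour of the source: if `1 ≤ B` and `0 ≤ B + A` it is `z2`, else if `-1 ≤ A` it is `z1`, else
   `z0`; and this colour is `z1'`.
 Explanation: `psiN N x` describes `max (h + 1) h'` (heights equal at `-N`) and the colour says that
 `h + 1 ≤ h'`; the maximum evolves like a height function, and the rightmost choice of the source is
 consistent with the colours because they are nondecreasing in space.
 (Cases: `z0 = true`: then `z1 = z2 = z1' = true`, `A = a'`, `B = b'`. `z0 = false`, `z1 = true`: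
 `a < a'`, `A = a' - 1`, `B = b'`, `z2 = true`. `z0 = false`, `z1 = false`, `z2 = true`: `a = a'`,
 `b < b'`, `A = a'`, `B = b' - 1`. `z0 = z1 = z2 = false`: `a = a'`, `b = b'`, `c = c'`.)
 The coordinates `y ≥ -N` other than `s - 1, s`: unchanged on both sides (`SC.out`); note that the
 increment at `y` uses `zN` at `y` and `y + 1`; for `y = s` it uses `z1'` and `z2`, for `y = s - 1` it
 uses `z0` and `z1'`, the other ones do not involve `zN` at `s`.
`psiN_out` (`s < -N`, `y ≥ -N`): the update changes only coordinates `< -N`, `s ≤ -N - 1`.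
`psiN_edge` (`s = -N`, `dl2 x (-N-1) = 0`, `dl2 x (-N) = 0`, `y ≥ -N + 1`): the two families agree at
`-N-1` and `-N` and they agree there after the update; `δ` is unchanged everywhere; the second family
is unchanged at `y ≥ -N + 1`.
`psiN_loc`: `psiN N x y` for `y ∈ [-n, n]`, `n ≤ N`, depends only on the coordinates in `[-N, n]`
(`zN N x (y+1)` uses `z ≤ y`).
`psiN_eq`: if `dl2 x y = 0` for all `y < -N` then `zN N x y = zInf x y` and `psiN N x y = psiI x y` for all
`y`.
-/

set_option autoImplicit false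

open MeasureTheory ProbabilityTheory Filter Topology
open scoped NNReal ENNReal

namespace Pool.MP4bb68cEx

open Pool.MP4bb68c Pool.MP4bb68cOne Pool.MP4bb68cCl

private theorem zN_iff (N : ℕ) (x : ℤ → ℤ × ℤ) (y : ℤ) :
    zN N x y = true ↔ ∃ z, -(N : ℤ) ≤ z ∧ z < y ∧ dl2 x z ≠ 0 := by
  unfold zN
  simp only [decide_eq_true_eq]

private theorem zN_step (N : ℕ) (x : ℤ → ℤ × ℤ) {y : ℤ} (hy : -(N : ℤ) ≤ y) :
    zN N x (y + 1) = (zN N x y || decide (dl2 x y ≠ 0)) := by
  rw [Bool.eq_iff_iff, Bool.or_eq_true, zN_iff, zN_iff, decide_eq_true_iff]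
  constructor
  · rintro ⟨z, h1, h2, h3⟩
    rcases lt_or_ge z y with h | h
    · exact Or.inl ⟨z, h1, h, h3⟩
    · have : z = y := by omega
      subst this
      exact Or.inr h3
  · rintro (⟨z, h1, h2, h3⟩ | h)
    · exact ⟨z, h1, by omega, h3⟩
    · exact ⟨y, hy, by omega, h⟩

private theorem zN_congr (N : ℕ) {x x' : ℤ → ℤ × ℤ} {y : ℤ}
    (h : ∀ z, -(N : ℤ) ≤ z → z < y → dl2 x z = dl2 x' z) : zN N x y = zN N x' y := by
  rw [Bool.eq_iff_iff, zN_iff, zN_iff]
  constructor
  · rintro ⟨z, h1, h2, h3⟩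
    exact ⟨z, h1, h2, by rw [← h z h1 h2]; exact h3⟩
  · rintro ⟨z, h1, h2, h3⟩
    exact ⟨z, h1, h2, by rw [h z h1 h2]; exact h3⟩

private theorem SPT_out (s : ℤ) (x : ℤ → ℤ × ℤ) {y : ℤ} (h1 : y ≠ s - 1) (h2 : y ≠ s) :
    SP.T s x y = x y := SP.out s x y h1 h2

private theorem SPT_a (s : ℤ) (x : ℤ → ℤ × ℤ) :
    SP.T s x (s - 1) = ((x (s - 1)).1 + max 1 (max (x s).1 (-(x (s - 1)).1)),
      (x (s - 1)).2 + max 1 (max (x s).2 (-(x (s - 1)).2))) := by
  show (SI.T s (fun z => (x z).1) (s - 1), SI.T s (fun z => (x z).2) (s - 1)) = _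
  simp only [SI, cc, if_true]

private theorem SPT_b (s : ℤ) (x : ℤ → ℤ × ℤ) :
    SP.T s x s = ((x s).1 - max 1 (max (x s).1 (-(x (s - 1)).1)),
      (x s).2 - max 1 (max (x s).2 (-(x (s - 1)).2))) := by
  show (SI.T s (fun z => (x z).1) s, SI.T s (fun z => (x z).2) s) = _
  have h : ¬ (s = s - 1) := by omega
  simp only [SI, cc, if_true, h, if_false]

private theorem dl2_out (s : ℤ) (x : ℤ → ℤ × ℤ) {y : ℤ} (h1 : y ≠ s - 1) (h2 : y ≠ s) :
    dl2 (SP.T s x) y = dl2 x y := by
  unfold dl2
  rw [SPT_out s x h1 h2]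

/-- The colours after the update. -/
private theorem zN_T_ne (N : ℕ) {x : ℤ → ℤ × ℤ} (hx : x ∈ Pos) {s y : ℤ}
    (hs : -(N : ℤ) + 1 ≤ s) (hy : y ≠ s) : zN N (SP.T s x) y = zN N x y := by
  have ha : (x (s - 1)).1 ≤ (x (s - 1)).2 := hx (s - 1)
  have hb : (x s).1 ≤ (x s).2 := hx s
  rcases lt_or_ge y s with h | h
  · refine zN_congr N fun z h1 h2 => dl2_out s x (by omega) (by omega)
  · rw [Bool.eq_iff_iff, zN_iff, zN_iff]
    have ea : dl2 (SP.T s x) (s - 1) = (x (s - 1)).2 + max 1 (max (x s).2 (-(x (s - 1)).2)) -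
        ((x (s - 1)).1 + max 1 (max (x s).1 (-(x (s - 1)).1))) := by
      unfold dl2
      rw [SPT_a]
    have eb : dl2 (SP.T s x) s = (x s).2 - max 1 (max (x s).2 (-(x (s - 1)).2)) -
        ((x s).1 - max 1 (max (x s).1 (-(x (s - 1)).1))) := by
      unfold dl2
      rw [SPT_b]
    have ea' : dl2 x (s - 1) = (x (s - 1)).2 - (x (s - 1)).1 := rfl
    have eb' : dl2 x s = (x s).2 - (x s).1 := rfl
    constructor
    · rintro ⟨z, h1, h2, h3⟩
      by_cases hz : z = s - 1 ∨ z = s
      · by_cases h4 : dl2 x (s - 1) = 0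
        · refine ⟨s, by omega, by omega, ?_⟩
          rcases hz with hz | hz
          · subst hz
            rw [ea] at h3
            rw [eb']
            rw [ea'] at h4
            omega
          · subst hz
            rw [eb] at h3
            rw [eb']
            rw [ea'] at h4
            omega
        · exact ⟨s - 1, by omega, by omega, h4⟩
      · refine ⟨z, h1, h2, ?_⟩
        rw [← dl2_out s x (by omega) (by omega)]
        exact h3
    · rintro ⟨z, h1, h2, h3⟩
      by_cases hz : z = s - 1 ∨ z = s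
      · by_cases h4 : dl2 (SP.T s x) (s - 1) = 0
        · refine ⟨s, by omega, by omega, ?_⟩
          rcases hz with hz | hz
          · subst hz
            rw [ea'] at h3
            rw [eb]
            rw [ea] at h4
            omega
          · subst hz
            rw [eb'] at h3
            rw [eb]
            rw [ea] at h4
            omega
        · exact ⟨s - 1, by omega, by omega, h4⟩
      · refine ⟨z, h1, h2, ?_⟩
        rw [dl2_out s x (by omega) (by omega)]
        exact h3

theorem psiN_T (N : ℕ) {x : ℤ → ℤ × ℤ} (hx : x ∈ Pos) {s y : ℤ} (hs : -(N : ℤ) + 1 ≤ s)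
    (hy : -(N : ℤ) ≤ y) : psiN N (SP.T s x) y = SC.T s (psiN N x) y := by
  have ha : (x (s - 1)).1 ≤ (x (s - 1)).2 := hx (s - 1)
  have hb : (x s).1 ≤ (x s).2 := hx s
  have h0' : zN N (SP.T s x) (s - 1) = zN N x (s - 1) := zN_T_ne N hx hs (by omega)
  have h2' : zN N (SP.T s x) (s + 1) = zN N x (s + 1) := zN_T_ne N hx hs (by omega)
  have h1 : zN N x s = (zN N x (s - 1) || decide (dl2 x (s - 1) ≠ 0)) := by
    have := zN_step N x (y := s - 1) (by omega)
    rw [sub_add_cancel] at this
    exact this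
  have h1' : zN N (SP.T s x) s =
      (zN N x (s - 1) || decide (dl2 (SP.T s x) (s - 1) ≠ 0)) := by
    have := zN_step N (SP.T s x) (y := s - 1) (by omega)
    rw [sub_add_cancel, h0'] at this
    exact this
  have h2 : zN N x (s + 1) = (zN N x s || decide (dl2 x s ≠ 0)) := zN_step N x (by omega)
  have ea : dl2 (SP.T s x) (s - 1) = (x (s - 1)).2 + max 1 (max (x s).2 (-(x (s - 1)).2)) -
      ((x (s - 1)).1 + max 1 (max (x s).1 (-(x (s - 1)).1))) := by
    unfold dl2
    rw [SPT_a]
  have ea' : dl2 x (s - 1) = (x (s - 1)).2 - (x (s - 1)).1 := rfl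
  have eb' : dl2 x s = (x s).2 - (x s).1 := rfl
  rw [ea] at h1'
  rw [ea'] at h1
  rw [eb'] at h2
  by_cases hya : y = s - 1
  · subst hya
    show ((SP.T s x (s - 1)).2 - (if zN N (SP.T s x) (s - 1) = false ∧
        zN N (SP.T s x) (s - 1 + 1) = true then 1 else 0), zN N (SP.T s x) (s - 1)) =
      (SI.T s (fun z => (psiN N x z).1) (s - 1),
        if s - 1 = s then (psiN N x (csI (fun z => (psiN N x z).1) s)).2
        else (psiN N x (s - 1)).2)
    have hne : ¬ (s - 1 = s) := by omega
    rw [if_neg hne, SPT_a, sub_add_cancel, h0', h1']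
    simp only [SI, if_true, cc, psiN, sub_add_cancel, h2, h1]
    generalize (x (s - 1)).1 = a at *
    generalize (x (s - 1)).2 = a' at *
    generalize (x s).1 = b at *
    generalize (x s).2 = b' at *
    generalize zN N x (s - 1) = z0 at *
    rw [Prod.mk.injEq]
    refine ⟨?_, rfl⟩
    cases z0
    · by_cases e1 : a' - a = 0
      · by_cases e2 : b' - b = 0
        · have : a' + max 1 (max b' (-a')) - (a + max 1 (max b (-a))) = 0 := by omega
          simp [e1, e2, this]
        · by_cases e3 : a' + max 1 (max b' (-a')) - (a + max 1 (max b (-a))) = 0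
          · simp [e1, e2, e3]
            omega
          · simp [e1, e2, e3]
            omega
      · by_cases e3 : a' + max 1 (max b' (-a')) - (a + max 1 (max b (-a))) = 0
        · simp [e1, e3]
          omega
        · simp [e1, e3]
          omega
    · simp
  · by_cases hyb : y = s
    · subst hyb
      show ((SP.T y x y).2 - (if zN N (SP.T y x) y = false ∧
          zN N (SP.T y x) (y + 1) = true then 1 else 0), zN N (SP.T y x) y) =
        (SI.T y (fun z => (psiN N x z).1) y,
          if y = y then (psiN N x (csI (fun z => (psiN N x z).1) y)).2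
          else (psiN N x y).2)
      have hne : ¬ (y = y - 1) := by omega
      have hc : (psiN N x (csI (fun z => (psiN N x z).1) y)).2 =
          if 1 ≤ (psiN N x y).1 ∧ 0 ≤ (psiN N x y).1 + (psiN N x (y - 1)).1 then zN N x (y + 1)
          else if -1 ≤ (psiN N x (y - 1)).1 then zN N x y else zN N x (y - 1) := by
        show zN N x (csI (fun z => (psiN N x z).1) y) = _
        unfold csI
        split_ifs <;> rfl
      rw [if_pos rfl, SPT_b, h2', h1', hc]
      simp only [SI, if_true, if_neg hne, cc, psiN, sub_add_cancel, h2, h1]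
      generalize (x (y - 1)).1 = a at *
      generalize (x (y - 1)).2 = a' at *
      generalize (x y).1 = b at *
      generalize (x y).2 = b' at *
      generalize zN N x (y - 1) = z0 at *
      rw [Prod.mk.injEq]
      cases z0
      · by_cases e1 : a' - a = 0
        · by_cases e2 : b' - b = 0
          · have : a' + max 1 (max b' (-a')) - (a + max 1 (max b (-a))) = 0 := by omega
            simp [e1, e2, this]
          · by_cases e3 : a' + max 1 (max b' (-a')) - (a + max 1 (max b (-a))) = 0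
            · simp [e1, e2, e3]
              omega
            · simp [e1, e2, e3]
              omega
        · by_cases e3 : a' + max 1 (max b' (-a')) - (a + max 1 (max b (-a))) = 0
          · simp [e1, e3]
            omega
          · simp [e1, e3]
            omega
      · simp
    · rw [SC.out s (psiN N x) y hya hyb]
      unfold psiN
      rw [SPT_out s x hya hyb, zN_T_ne N hx hs hyb, zN_T_ne N hx hs (y := y + 1) (by omega)]

theorem psiN_out (N : ℕ) (x : ℤ → ℤ × ℤ) {s y : ℤ} (hs : s < -(N : ℤ)) (hy : -(N : ℤ) ≤ y) :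
    psiN N (SP.T s x) y = psiN N x y := by
  unfold psiN
  rw [SPT_out s x (by omega) (by omega)]
  rw [zN_congr N (x := SP.T s x) (x' := x) (y := y) fun z h1 h2 =>
    dl2_out s x (by omega) (by omega)]
  rw [zN_congr N (x := SP.T s x) (x' := x) (y := y + 1) fun z h1 h2 =>
    dl2_out s x (by omega) (by omega)]

theorem psiN_edge (N : ℕ) (x : ℤ → ℤ × ℤ) (h1 : dl2 x (-(N : ℤ) - 1) = 0)
    (h2 : dl2 x (-(N : ℤ)) = 0) {y : ℤ} (hy : -(N : ℤ) + 1 ≤ y) :
    psiN N (SP.T (-(N : ℤ)) x) y = psiN N x y := by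
  have key : ∀ z, dl2 (SP.T (-(N : ℤ)) x) z = dl2 x z := by
    intro z
    unfold dl2 at h1 h2
    by_cases hz : z = -(N : ℤ) - 1
    · subst hz
      unfold dl2
      rw [SPT_a]
      show (x (-(N : ℤ) - 1)).2 + max 1 (max (x (-(N : ℤ))).2 (-(x (-(N : ℤ) - 1)).2)) -
        ((x (-(N : ℤ) - 1)).1 + max 1 (max (x (-(N : ℤ))).1 (-(x (-(N : ℤ) - 1)).1))) = _
      omega
    · by_cases hz2 : z = -(N : ℤ)
      · subst hz2
        unfold dl2
        rw [SPT_b]
        show (x (-(N : ℤ))).2 - max 1 (max (x (-(N : ℤ))).2 (-(x (-(N : ℤ) - 1)).2)) -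
          ((x (-(N : ℤ))).1 - max 1 (max (x (-(N : ℤ))).1 (-(x (-(N : ℤ) - 1)).1))) = _
        omega
      · exact dl2_out _ x hz hz2
  unfold psiN
  rw [SPT_out _ x (by omega) (by omega), zN_congr N (fun z _ _ => key z),
    zN_congr N (fun z _ _ => key z)]

theorem psiN_loc (N n : ℕ) (hn : n ≤ N) {x x' : ℤ → ℤ × ℤ}
    (h : ∀ y : ℤ, -(N : ℤ) ≤ y → y ≤ N → x y = x' y) {y : ℤ} (h1 : -(n : ℤ) ≤ y) (h2 : y ≤ n) :
    psiN N x y = psiN N x' y := by
  have key : ∀ z, -(N : ℤ) ≤ z → z ≤ N → dl2 x z = dl2 x' z := by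
    intro z h3 h4
    unfold dl2
    rw [h z h3 h4]
  unfold psiN
  rw [h y (by omega) (by omega)]
  rw [zN_congr N (x := x) (x' := x') (y := y) fun z h3 h4 => key z h3 (by omega)]
  rw [zN_congr N (x := x) (x' := x') (y := y + 1) fun z h3 h4 => key z h3 (by omega)]

theorem psiN_eq (N : ℕ) {x : ℤ → ℤ × ℤ} (h : ∀ y, y < -(N : ℤ) → dl2 x y = 0) (y : ℤ) :
    psiN N x y = psiI x y := by
  have key : ∀ w, zN N x w = zInf x w := by
    intro w
    rw [Bool.eq_iff_iff, zN_iff]
    unfold zInf
    simp only [decide_eq_true_eq]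
    constructor
    · rintro ⟨z, _, h2, h3⟩
      exact ⟨z, h2, h3⟩
    · rintro ⟨z, h2, h3⟩
      refine ⟨z, ?_, h2, h3⟩
      by_contra hc
      exact h3 (h z (by omega))
  unfold psiN psiI
  rw [key y, key (y + 1)]

end Pool.MP4bb68cEx
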