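import Mathlib
import Pool.Agent.Work.MP_4bb68c_ex.Defs
import Pool.Agent.Work.MP_4bb68c_ex.Defs2
import Pool.Agent.Work.MP_4bb68c_ex.SysB
import Pool.Agent.Work.MP_4bb68c_ex.MaxP
import Pool.Agent.Work.MP_4bb68c_ex.PosR
import Pool.Agent.Work.MP_4bb68c_ex.Proj
import Pool.Agent.Work.MP_4bb68c_ex.ThmC

/-!
# Ordered couplings which agree near `-∞` are diagonal (module MaxS, size M)

`measurable_psiI`: coordinatewise; `zInf x y` is decided by a countable union of measurable events.

`maxS`: let `f` be `Loc n`, `|f| ≤ 1`. For `N ≥ n + 2` let `F x = f (psiN N x)`, which is `Loc N`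
(`psiN_loc`), `|F| ≤ 1`. Balance equation of `μ` for `F` and the window `N`:
`∑ s ∈ Icc (-N) (N+1), (∫ F (SP.T s x) dμ - ∫ F dμ) = 0`. For `s ≥ -N + 1` and `x ∈ Pos` (almost all `x`),
`psiN N (SP.T s x)` and `SC.T s (psiN N x)` agree on `[-N, ∞)` (`psiN_T`), so `F (SP.T s x) =
f (SC.T s (psiN N x))`; if moreover `s ∉ Icc (-n) (n+1)` this is `f (psiN N x)` (`T_far`). For `s = -N`:
`F (SP.T s x) = F x` unless `dl2 x (-N-1) ≠ 0` or `dl2 x (-N) ≠ 0` (`psiN_edge`, `n < N`), so the term has
absolute value `≤ 2 μ.real {dl2 x (-N-1) ≠ 0 ∨ dl2 x (-N) ≠ 0}`, which tends to `0` as `N → ∞` (`hl`,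
dominated convergence). Hence
`∑ s ∈ Icc (-n) (n+1), ∫ (f (SC.T s (psiN N x)) - f (psiN N x)) dμ → 0`. For almost every `x`,
`psiN N x = psiI x` for all large `N` (`psiN_eq`, `hl`); by dominated convergence
`∑ s ∈ Icc (-n) (n+1), ∫ (f (SC.T s (psiI x)) - f (psiI x)) dμ = 0`, which is the balance equation of
`μ.map psiI` (`integral_map`).

`finM`: `thmC` for `μ.map psiI` (a probability measure): for almost every `x`, `zInf x y` does not depend
on `y`; for `y ≤ -N` it is `false` (`hl`), so it is `false` for all `y`: `dl2 x z = 0` for all `z`.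
-/

set_option autoImplicit false

open MeasureTheory ProbabilityTheory Filter Topology
open scoped NNReal ENNReal

namespace Pool.MP4bb68cEx

open Pool.MP4bb68c Pool.MP4bb68cOne Pool.MP4bb68cCl

private theorem measurable_zInf45 (y : ℤ) : Measurable fun x : ℤ → ℤ × ℤ => zInf x y := by
  apply measurable_to_bool
  have e : (fun x : ℤ → ℤ × ℤ => zInf x y) ⁻¹' {true} =
      ⋃ z : ℤ, {x | z < y ∧ dl2 x z ≠ 0} := by
    ext x
    simp only [Set.mem_preimage, Set.mem_singleton_iff, Set.mem_iUnion, Set.mem_setOf_eq, zInf,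
      decide_eq_true_eq]
  rw [e]
  refine MeasurableSet.iUnion fun z => ?_
  by_cases hz : z < y
  · have e2 : {x : ℤ → ℤ × ℤ | z < y ∧ dl2 x z ≠ 0} = {x | (x z).2 - (x z).1 = 0}ᶜ := by
      ext x
      simp only [Set.mem_setOf_eq, Set.mem_compl_iff, hz, true_and, dl2, ne_eq]
    rw [e2]
    have m1 : Measurable fun x : ℤ → ℤ × ℤ => (x z).2 - (x z).1 :=
      (measurable_snd.comp (measurable_pi_apply z)).sub
        (measurable_fst.comp (measurable_pi_apply z))
    exact (m1 (measurableSet_singleton (0 : ℤ))).compl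
  · have e2 : {x : ℤ → ℤ × ℤ | z < y ∧ dl2 x z ≠ 0} = ∅ := by
      ext x
      simp [hz]
    rw [e2]
    exact MeasurableSet.empty

theorem measurable_psiI : Measurable psiI := by
  refine measurable_pi_iff.2 fun y => ?_
  unfold psiI
  refine Measurable.prodMk ?_ (measurable_zInf45 y)
  refine (measurable_snd.comp (measurable_pi_apply y)).sub ?_
  refine Measurable.ite ?_ measurable_const measurable_const
  have m1 : MeasurableSet {x : ℤ → ℤ × ℤ | zInf x y = false} :=
    measurable_zInf45 y (measurableSet_singleton false)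
  have m2 : MeasurableSet {x : ℤ → ℤ × ℤ | zInf x (y + 1) = true} :=
    measurable_zInf45 (y + 1) (measurableSet_singleton true)
  exact m1.inter m2

theorem maxS {μ : Measure (ℤ → ℤ × ℤ)} [IsProbabilityMeasure μ] (h : Stn SP μ)
    (hp : ∀ᵐ x ∂μ, x ∈ Pos) (hl : ∀ᵐ x ∂μ, ∃ N : ℕ, ∀ y, y < -(N : ℤ) → dl2 x y = 0) :
    Stn SC (μ.map psiI) := by
  classical
  intro n f hf hb
  have hfm : Measurable f := hf.measurable
  have hμ' : IsProbabilityMeasure (μ.map psiI) :=
    Measure.isProbabilityMeasure_map measurable_psiI.aemeasurable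
  have e1 : ∀ s : ℤ, ∫ x, f (SC.T s x) ∂(μ.map psiI) = ∫ x, f (SC.T s (psiI x)) ∂μ := fun s =>
    integral_map measurable_psiI.aemeasurable
      (hfm.comp (SC.measurable_T s)).aestronglyMeasurable
  have e2 : ∫ x, f x ∂(μ.map psiI) = ∫ x, f (psiI x) ∂μ :=
    integral_map measurable_psiI.aemeasurable hfm.aestronglyMeasurable
  simp only [e1, e2]
  -- the test functions
  let F : ℕ → (ℤ → ℤ × ℤ) → ℝ := fun N x => f (psiN N x)
  have hFloc : ∀ N : ℕ, n ≤ N → Loc N (F N) := by
    intro N hN x x' hx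
    exact hf _ _ fun y h1 h2 => psiN_loc N n hN hx h1 h2
  have hFb : ∀ (N : ℕ) x, |F N x| ≤ 1 := fun N x => hb _
  have hFm : ∀ N : ℕ, n ≤ N → Measurable (F N) := fun N hN => (hFloc N hN).measurable
  have hFT : ∀ (N : ℕ), n + 2 ≤ N → ∀ s : ℤ, -(N : ℤ) + 1 ≤ s → ∀ x ∈ Pos,
      F N (SP.T s x) = f (SC.T s (psiN N x)) := by
    intro N hN s hs x hx
    exact hf _ _ fun y h1 h2 => psiN_T N hx hs (by omega)
  -- the balance equation
  have hbal : ∀ N : ℕ, n + 2 ≤ N →
      ∑ s ∈ Finset.Icc (-(n : ℤ)) (n + 1), (∫ x, F N (SP.T s x) ∂μ - ∫ x, F N x ∂μ) =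
        -(∫ x, (F N (SP.T (-(N : ℤ)) x) - F N x) ∂μ) := by
    intro N hN
    have h0 := h N (F N) (hFloc N (by omega)) (hFb N)
    have hsub : ∑ s ∈ insert (-(N : ℤ)) (Finset.Icc (-(n : ℤ)) (n + 1)),
        (∫ x, F N (SP.T s x) ∂μ - ∫ x, F N x ∂μ) =
        ∑ s ∈ Finset.Icc (-(N : ℤ)) (N + 1), (∫ x, F N (SP.T s x) ∂μ - ∫ x, F N x ∂μ) := by
      apply Finset.sum_subset
      · intro s hs
        rw [Finset.mem_insert, Finset.mem_Icc] at hs
        rw [Finset.mem_Icc]
        omega
      · intro s hs hs'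
        rw [Finset.mem_insert, not_or] at hs'
        rw [Finset.mem_Icc] at hs
        rw [sub_eq_zero]
        apply integral_congr_ae
        filter_upwards [hp] with x hx
        rw [hFT N hN s (by omega) x hx]
        exact T_far SC hf hs'.2 _
    rw [h0, Finset.sum_insert] at hsub
    · have hi1 : Integrable (fun x => F N (SP.T (-(N : ℤ)) x)) μ := by
        refine Integrable.of_bound ((hFm N (by omega)).comp
          (SP.measurable_T _)).aestronglyMeasurable 1 (ae_of_all _ fun x => ?_)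
        rw [Real.norm_eq_abs]
        exact hFb N _
      have hi2 : Integrable (F N) μ := by
        refine Integrable.of_bound (hFm N (by omega)).aestronglyMeasurable 1
          (ae_of_all _ fun x => ?_)
        rw [Real.norm_eq_abs]
        exact hFb N _
      rw [integral_sub hi1 hi2]
      linarith
    · rw [Finset.mem_Icc]
      omega
  -- limits
  have hev : ∀ᵐ x ∂μ, ∀ᶠ N : ℕ in atTop, psiN N x = psiI x := by
    filter_upwards [hl] with x hx
    obtain ⟨M, hM⟩ := hx
    filter_upwards [eventually_ge_atTop M] with N hN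
    funext y
    exact psiN_eq N (fun z hz => hM z (by
      have : (M : ℤ) ≤ N := by exact_mod_cast hN
      omega)) y
  have hn2 : ∀ᶠ N : ℕ in atTop, n + 2 ≤ N := eventually_ge_atTop _
  have lim1 : ∀ s ∈ Finset.Icc (-(n : ℤ)) (n + 1),
      Tendsto (fun N : ℕ => ∫ x, F N (SP.T s x) ∂μ) atTop (𝓝 (∫ x, f (SC.T s (psiI x)) ∂μ)) := by
    intro s hs
    rw [Finset.mem_Icc] at hs
    have := tendsto_integral_filter_of_dominated_convergence (μ := μ) (l := atTop)
      (F := fun (N : ℕ) x => F N (SP.T s x)) (f := fun x => f (SC.T s (psiI x)))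
      (fun _ => (1 : ℝ)) ?_ ?_ (integrable_const _) ?_
    · exact this
    · filter_upwards [hn2] with N hN
      exact ((hFm N (by omega)).comp (SP.measurable_T s)).aestronglyMeasurable
    · refine Eventually.of_forall fun N => ae_of_all _ fun x => ?_
      rw [Real.norm_eq_abs]
      exact hFb N _
    · filter_upwards [hev, hp] with x hx hx'
      apply tendsto_const_nhds.congr'
      filter_upwards [hx, hn2] with N h1 h2
      rw [hFT N h2 s (by omega) x hx', h1]
  have lim2 : Tendsto (fun N : ℕ => ∫ x, F N x ∂μ) atTop (𝓝 (∫ x, f (psiI x) ∂μ)) := by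
    have := tendsto_integral_filter_of_dominated_convergence (μ := μ) (l := atTop)
      (F := fun (N : ℕ) x => F N x) (f := fun x => f (psiI x))
      (fun _ => (1 : ℝ)) ?_ ?_ (integrable_const _) ?_
    · exact this
    · filter_upwards [hn2] with N hN
      exact (hFm N (by omega)).aestronglyMeasurable
    · refine Eventually.of_forall fun N => ae_of_all _ fun x => ?_
      rw [Real.norm_eq_abs]
      exact hFb N _
    · filter_upwards [hev] with x hx
      apply tendsto_const_nhds.congr'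
      filter_upwards [hx] with N h1
      show f (psiI x) = f (psiN N x)
      rw [h1]
  have lim3 : Tendsto (fun N : ℕ => -(∫ x, (F N (SP.T (-(N : ℤ)) x) - F N x) ∂μ)) atTop
      (𝓝 0) := by
    have := tendsto_integral_filter_of_dominated_convergence (μ := μ) (l := atTop)
      (F := fun (N : ℕ) x => F N (SP.T (-(N : ℤ)) x) - F N x) (f := fun _ => (0 : ℝ))
      (fun _ => (2 : ℝ)) ?_ ?_ (integrable_const _) ?_
    · simpa using this.neg
    · filter_upwards [hn2] with N hN
      exact (((hFm N (by omega)).comp (SP.measurable_T _)).sub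
        (hFm N (by omega))).aestronglyMeasurable
    · refine Eventually.of_forall fun N => ae_of_all _ fun x => ?_
      rw [Real.norm_eq_abs]
      have h1 := hFb N (SP.T (-(N : ℤ)) x)
      have h2 := hFb N x
      rw [abs_le] at h1 h2 ⊢
      constructor <;> linarith [h1.1, h1.2, h2.1, h2.2]
    · filter_upwards [hl] with x hx
      obtain ⟨M, hM⟩ := hx
      apply tendsto_const_nhds.congr'
      filter_upwards [hn2, eventually_ge_atTop (M + 1)] with N h1 h2
      have hMN : (M : ℤ) + 1 ≤ N := by exact_mod_cast h2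
      symm
      rw [sub_eq_zero]
      exact hf _ _ fun y h3 h4 => psiN_edge N x (hM _ (by omega)) (hM _ (by omega)) (by omega)
  have lim4 : Tendsto (fun N : ℕ => ∑ s ∈ Finset.Icc (-(n : ℤ)) (n + 1),
      (∫ x, F N (SP.T s x) ∂μ - ∫ x, F N x ∂μ)) atTop
      (𝓝 (∑ s ∈ Finset.Icc (-(n : ℤ)) (n + 1),
        (∫ x, f (SC.T s (psiI x)) ∂μ - ∫ x, f (psiI x) ∂μ))) :=
    tendsto_finsetSum _ fun s hs => (lim1 s hs).sub lim2
  refine tendsto_nhds_unique lim4 (lim3.congr' ?_)
  filter_upwards [hn2] with N hN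
  exact (hbal N hN).symm

theorem finM {μ : Measure (ℤ → ℤ × ℤ)} [IsProbabilityMeasure μ] (h : Stn SP μ)
    (hp : ∀ᵐ x ∂μ, x ∈ Pos) (hl : ∀ᵐ x ∂μ, ∃ N : ℕ, ∀ y, y < -(N : ℤ) → dl2 x y = 0) :
    ∀ᵐ x ∂μ, ∀ y, dl2 x y = 0 := by
  have hμ' : IsProbabilityMeasure (μ.map psiI) :=
    Measure.isProbabilityMeasure_map measurable_psiI.aemeasurable
  have h1 := thmC (maxS h hp hl)
  have h2 := ae_of_ae_map measurable_psiI.aemeasurable h1
  filter_upwards [h2, hl] with x hx hx'
  obtain ⟨N, hN⟩ := hx'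
  intro y
  have h3 : zInf x (-(N : ℤ)) = false := by
    unfold zInf
    rw [decide_eq_false_iff_not]
    rintro ⟨z, hz, hz'⟩
    exact hz' (hN z hz)
  have h4 : zInf x (y + 1) = false := by
    have := hx (y + 1) (-(N : ℤ))
    have e : zInf x (y + 1) = zInf x (-(N : ℤ)) := this
    rw [e, h3]
  by_contra hc
  unfold zInf at h4
  rw [decide_eq_false_iff_not] at h4
  exact h4 ⟨y, by omega, hc⟩

end Pool.MP4bb68cEx
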