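import Mathlib
import Pool.Agent.Work.MP_4bb68c_ex.Defs
import Pool.Agent.Work.MP_4bb68c_ex.Defs2
import Pool.Agent.Work.MP_4bb68c_ex.SysB
import Pool.Agent.Work.MP_4bb68c_ex.EWb
import Pool.Agent.Work.MP_4bb68c_ex.Link
import Pool.Agent.Work.MP_4bb68c_ex.Quasi
import Pool.Agent.Work.MP_4bb68c_ex.TiAv
import Pool.Agent.Work.MP_4bb68c_ex.UTight
import Pool.Agent.Work.MP_4bb68c_ex.Lim
import Pool.Agent.Work.MP_4bb68c_ex.Proj

/-!
# Existence of stationary couplings (module CoupE, size M)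

PROOF. `π = (ν.prod ν').map (fun p y => (p.1 y, p.2 y))`; `π.map fsI = ν`, `π.map snI = ν'`. Apply
`time_avg` to `SP` and `π`. Tightness: given `y, ε`, take `m'` from `utight (ε/4)` and
`S = Icc (-m') m' ×ˢ Icc (-m') m'`; `SP.wd σ x y ∉ S` implies `m' < |SI.wd σ (fsI x) y|` or
`m' < |SI.wd σ (snI x) y|` (`fsI_wd`, `snI_wd`); the average of each indicator is, by `Stn.inv_av` for
`ν` and `ν'` (the indicator of `{m' < |η y|}` is `Loc |y|`), at most `ε/4 + er |y| i ≤ ε/2` for `i`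
large. Let `μ` be the limit. First marginal: for `f` which is `Loc n`, `|f| ≤ 1`:
`f ∘ fsI` is `Loc n`, and `∫ f (fsI x) dμ = lim ∫ x, av i (fun σ => f (SI.wd σ (fsI x))) dπ =
lim ∫ η, av i (fun σ => f (SI.wd σ η)) dν = ∫ f dν` (`Stn.inv_av`, `er_tendsto`, the hyperfilter is
finer than `atTop`: `hyperfilter_le_cofinite`, `Nat.cofinite_eq_atTop`). So `μ.map fsI = ν` by
`ext_loc`. The same for the second one.
-/

set_option autoImplicit false

open MeasureTheory ProbabilityTheory Filter Topology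
open scoped NNReal ENNReal

namespace Pool.MP4bb68cEx

open Pool.MP4bb68c Pool.MP4bb68cOne Pool.MP4bb68cCl

private def jn (p : (ℤ → ℤ) × (ℤ → ℤ)) : ℤ → ℤ × ℤ := fun y => (p.1 y, p.2 y)

private theorem jn_meas : Measurable jn := by
  refine measurable_pi_iff.mpr fun y => ?_
  exact ((measurable_pi_apply y).comp measurable_fst).prodMk
    ((measurable_pi_apply y).comp measurable_snd)

private theorem loc_int {A : Type} [Countable A] [MeasurableSpace A] [MeasurableSingletonClass A]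
    (L : Sys A) {n : ℕ} {f : (ℤ → A) → ℝ} (hf : Loc n f) (hb : ∀ x, |f x| ≤ 1)
    (μ : Measure (ℤ → A)) [IsFiniteMeasure μ] (σ : List ℤ) :
    Integrable (fun x => f (L.wd σ x)) μ := by
  refine Integrable.of_bound (hf.measurable.comp (L.measurable_wd σ)).aestronglyMeasurable 1 ?_
  exact Eventually.of_forall fun x => hb _

private theorem marg {φ : (ℤ → ℤ × ℤ) → ℤ → ℤ} (hφm : Measurable φ)
    (hφ : ∀ σ x, φ (SP.wd σ x) = SI.wd σ (φ x)) {π : Measure (ℤ → ℤ × ℤ)} [IsFiniteMeasure π]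
    {ν : Measure (ℤ → ℤ)} (hπ : π.map φ = ν) {n : ℕ} {f : (ℤ → ℤ) → ℝ} (hf : Loc n f)
    (hb : ∀ x, |f x| ≤ 1) (i : ℕ) :
    ∫ x, av i (fun σ => f (φ (SP.wd σ x))) ∂π = ∫ η, av i (fun σ => f (SI.wd σ η)) ∂ν := by
  have hfin : IsFiniteMeasure (π.map φ) := inferInstance
  rw [← hπ, integral_map hφm.aemeasurable]
  · refine integral_congr_ae (Eventually.of_forall fun x => ?_)
    show av i (fun σ => f (φ (SP.wd σ x))) = av i (fun σ => f (SI.wd σ (φ x)))
    simp only [hφ]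
  · exact (av_integrable (F := fun σ η => f (SI.wd σ η))
      (fun σ => loc_int SI hf hb (π.map φ) σ) i).aestronglyMeasurable

private theorem lim_av {ν : Measure (ℤ → ℤ)} [IsProbabilityMeasure ν] (h : Stn SI ν) {n : ℕ}
    {f : (ℤ → ℤ) → ℝ} (hf : Loc n f) (hb : ∀ x, |f x| ≤ 1) :
    Tendsto (fun i => ∫ η, av i (fun σ => f (SI.wd σ η)) ∂ν) atTop (𝓝 (∫ η, f η ∂ν)) := by
  rw [tendsto_iff_norm_sub_tendsto_zero]
  refine squeeze_zero (fun i => norm_nonneg _) (fun i => ?_) (er_tendsto n)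
  exact h.inv_av hf hb

private theorem marg_eq {φ : (ℤ → ℤ × ℤ) → ℤ → ℤ} (hφm : Measurable φ)
    (hφ : ∀ σ x, φ (SP.wd σ x) = SI.wd σ (φ x))
    (hloc : ∀ (n : ℕ) (f : (ℤ → ℤ) → ℝ), Loc n f → Loc n fun x => f (φ x))
    {π : Measure (ℤ → ℤ × ℤ)} [IsFiniteMeasure π]
    {ν : Measure (ℤ → ℤ)} [IsProbabilityMeasure ν] (h : Stn SI ν) (hπ : π.map φ = ν)
    {μ : Measure (ℤ → ℤ × ℤ)} [IsProbabilityMeasure μ]
    (hl : ∀ (n : ℕ) (f : (ℤ → ℤ × ℤ) → ℝ), Loc n f → (∀ x, |f x| ≤ 1) →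
        Tendsto (fun i => ∫ x, av i (fun σ => f (SP.wd σ x)) ∂π) (hyperfilter ℕ)
          (𝓝 (∫ x, f x ∂μ))) : μ.map φ = ν := by
  have hfin : IsFiniteMeasure (μ.map φ) := inferInstance
  refine ext_loc fun n f hf hb => ?_
  rw [integral_map hφm.aemeasurable hf.measurable.aestronglyMeasurable]
  have h1 := hl n (fun x => f (φ x)) (hloc n f hf) (fun x => hb _)
  have h2 : (fun i => ∫ x, av i (fun σ => f (φ (SP.wd σ x))) ∂π) =
      fun i => ∫ η, av i (fun σ => f (SI.wd σ η)) ∂ν := by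
    funext i
    exact marg hφm hφ hπ hf hb i
  have h3 : Tendsto (fun i => ∫ x, av i (fun σ => f (φ (SP.wd σ x))) ∂π) (hyperfilter ℕ)
      (𝓝 (∫ η, f η ∂ν)) := by
    rw [h2]
    exact (lim_av h hf hb).mono_left Nat.hyperfilter_le_atTop
  exact tendsto_nhds_unique h1 h3

private noncomputable def gg (m : ℕ) (y : ℤ) (η : ℤ → ℤ) : ℝ := if (m : ℤ) < |η y| then 1 else 0

private theorem gg_loc (m : ℕ) (y : ℤ) : Loc y.natAbs (gg m y) := by
  intro x x' h
  have h1 : x y = x' y := h y (by omega) (by omega)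
  unfold gg
  rw [h1]

private theorem gg_le (m : ℕ) (y : ℤ) (η : ℤ → ℤ) : |gg m y η| ≤ 1 := by
  unfold gg
  split_ifs <;> simp

private theorem gg_int (m : ℕ) (y : ℤ) (ν : Measure (ℤ → ℤ)) [IsFiniteMeasure ν] :
    ∫ η, gg m y η ∂ν = ν.real {η | (m : ℤ) < |η y|} := by
  have h1 : MeasurableSet {η : ℤ → ℤ | (m : ℤ) < |η y|} := by
    have h2 : {η : ℤ → ℤ | (m : ℤ) < |η y|} = (fun η : ℤ → ℤ => η y) ⁻¹' {t | (m : ℤ) < |t|} := rfl
    rw [h2]
    exact (measurable_pi_apply y) (MeasurableSet.of_discrete)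
  have h3 : gg m y = {η : ℤ → ℤ | (m : ℤ) < |η y|}.indicator (fun _ => (1 : ℝ)) := by
    funext η
    unfold gg
    rw [Set.indicator_apply]
    rfl
  rw [h3, integral_indicator_const _ h1, smul_eq_mul, mul_one]

theorem exists_coupling {ν ν' : Measure (ℤ → ℤ)} [IsProbabilityMeasure ν]
    [IsProbabilityMeasure ν'] (h : Stn SI ν) (h' : Stn SI ν') :
    ∃ μ : Measure (ℤ → ℤ × ℤ), IsProbabilityMeasure μ ∧ Stn SP μ ∧ μ.map fsI = ν ∧
      μ.map snI = ν' := by
  obtain ⟨π, hπd⟩ : ∃ π : Measure (ℤ → ℤ × ℤ), π = (ν.prod ν').map jn := ⟨_, rfl⟩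
  have hπp : IsProbabilityMeasure π := by
    rw [hπd]
    exact Measure.isProbabilityMeasure_map jn_meas.aemeasurable
  have hπ1 : π.map fsI = ν := by
    rw [hπd, Measure.map_map measurable_fsI jn_meas]
    have : fsI ∘ jn = Prod.fst := rfl
    rw [this]
    exact Measure.fst_prod
  have hπ2 : π.map snI = ν' := by
    rw [hπd, Measure.map_map measurable_snI jn_meas]
    have : snI ∘ jn = Prod.snd := rfl
    rw [this]
    exact Measure.snd_prod
  obtain ⟨μ, hμp, hμs, hl⟩ := time_avg SP π (by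
    intro y ε hε
    obtain ⟨m, hm⟩ := utight (ε / 4) (by positivity)
    refine ⟨Finset.Icc (-(m : ℤ)) m ×ˢ Finset.Icc (-(m : ℤ)) m, ?_⟩
    have he : ∀ᶠ i in atTop, er y.natAbs i < ε / 4 :=
      (er_tendsto y.natAbs).eventually_lt_const (by positivity)
    filter_upwards [he] with i hi
    have hl1 : Loc y.natAbs fun x : ℤ → ℤ × ℤ => gg m y (fsI x) := by
      intro x x' h
      refine gg_loc m y _ _ fun z hz1 hz2 => ?_
      show (x z).1 = (x' z).1
      rw [h z hz1 hz2]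
    have hl2 : Loc y.natAbs fun x : ℤ → ℤ × ℤ => gg m y (snI x) := by
      intro x x' h
      refine gg_loc m y _ _ fun z hz1 hz2 => ?_
      show (x z).2 = (x' z).2
      rw [h z hz1 hz2]
    have hl3 : Loc y.natAbs fun x : ℤ → ℤ × ℤ =>
        if x y ∈ Finset.Icc (-(m : ℤ)) m ×ˢ Finset.Icc (-(m : ℤ)) m then (0 : ℝ) else 1 := by
      intro x x' h
      have h1 : x y = x' y := h y (by omega) (by omega)
      show (if x y ∈ Finset.Icc (-(m : ℤ)) m ×ˢ Finset.Icc (-(m : ℤ)) m then (0 : ℝ) else 1) = _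
      rw [h1]
    have hb3 : ∀ x : ℤ → ℤ × ℤ,
        |(if x y ∈ Finset.Icc (-(m : ℤ)) m ×ˢ Finset.Icc (-(m : ℤ)) m then (0 : ℝ) else 1)| ≤ 1 := by
      intro x
      split_ifs <;> simp
    have hpt : ∀ (x : ℤ → ℤ × ℤ),
        av i (fun σ => if SP.wd σ x y ∈ Finset.Icc (-(m : ℤ)) m ×ˢ Finset.Icc (-(m : ℤ)) m
          then (0 : ℝ) else 1) ≤
        av i (fun σ => gg m y (fsI (SP.wd σ x))) + av i (fun σ => gg m y (snI (SP.wd σ x))) := by
      intro x
      rw [← av_add]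
      refine av_mono fun σ => ?_
      have n1 : 0 ≤ gg m y (fsI (SP.wd σ x)) := by unfold gg; split_ifs <;> norm_num
      have n2 : 0 ≤ gg m y (snI (SP.wd σ x)) := by unfold gg; split_ifs <;> norm_num
      split_ifs with h1
      · linarith
      · have h2 : (m : ℤ) < |fsI (SP.wd σ x) y| ∨ (m : ℤ) < |snI (SP.wd σ x) y| := by
          by_contra hcon
          rw [not_or, not_lt, not_lt] at hcon
          apply h1
          rw [Finset.mem_product, Finset.mem_Icc, Finset.mem_Icc]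
          exact ⟨abs_le.mp hcon.1, abs_le.mp hcon.2⟩
        rcases h2 with h2 | h2
        · have : gg m y (fsI (SP.wd σ x)) = 1 := by unfold gg; rw [if_pos h2]
          linarith
        · have : gg m y (snI (SP.wd σ x)) = 1 := by unfold gg; rw [if_pos h2]
          linarith
    have i1 : Integrable (fun x => av i (fun σ => gg m y (fsI (SP.wd σ x)))) π :=
      av_integrable (F := fun σ x => gg m y (fsI (SP.wd σ x)))
        (fun σ => loc_int SP hl1 (fun x => gg_le m y _) π σ) i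
    have i2 : Integrable (fun x => av i (fun σ => gg m y (snI (SP.wd σ x)))) π :=
      av_integrable (F := fun σ x => gg m y (snI (SP.wd σ x)))
        (fun σ => loc_int SP hl2 (fun x => gg_le m y _) π σ) i
    have i3 : Integrable (fun x => av i (fun σ => if SP.wd σ x y ∈
        Finset.Icc (-(m : ℤ)) m ×ˢ Finset.Icc (-(m : ℤ)) m then (0 : ℝ) else 1)) π :=
      av_integrable (F := fun σ x => if SP.wd σ x y ∈
        Finset.Icc (-(m : ℤ)) m ×ˢ Finset.Icc (-(m : ℤ)) m then (0 : ℝ) else 1)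
        (fun σ => loc_int SP hl3 hb3 π σ) i
    have h1 := integral_mono i3 (i1.add i2) hpt
    have h2 : ∫ x, ((fun x => av i (fun σ => gg m y (fsI (SP.wd σ x)))) +
        (fun x => av i (fun σ => gg m y (snI (SP.wd σ x))))) x ∂π =
        ∫ x, av i (fun σ => gg m y (fsI (SP.wd σ x))) ∂π +
        ∫ x, av i (fun σ => gg m y (snI (SP.wd σ x))) ∂π := integral_add i1 i2
    rw [h2, marg measurable_fsI fsI_wd hπ1 (gg_loc m y) (gg_le m y) i,
      marg measurable_snI snI_wd hπ2 (gg_loc m y) (gg_le m y) i] at h1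
    have k1 := (abs_le.mp (h.inv_av (i := i) (gg_loc m y) (gg_le m y))).2
    have k2 := (abs_le.mp (h'.inv_av (i := i) (gg_loc m y) (gg_le m y))).2
    rw [gg_int] at k1 k2
    have t1 := hm ν inferInstance h y
    have t2 := hm ν' inferInstance h' y
    refine le_trans (le_of_eq (integral_congr_ae (Eventually.of_forall fun x => ?_)))
      (h1.trans (by linarith))
    refine congrArg (av i) (funext fun σ => ?_)
    by_cases hh : SP.wd σ x y ∈ Finset.Icc (-(m : ℤ)) m ×ˢ Finset.Icc (-(m : ℤ)) m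
    · rw [if_pos hh, if_pos hh]
    · rw [if_neg hh, if_neg hh])
  refine ⟨μ, hμp, hμs, ?_, ?_⟩
  · refine marg_eq measurable_fsI fsI_wd ?_ h hπ1 hl
    intro n f hf x x' hx
    refine hf _ _ fun z hz1 hz2 => ?_
    show (x z).1 = (x' z).1
    rw [hx z hz1 hz2]
  · refine marg_eq measurable_snI snI_wd ?_ h' hπ2 hl
    intro n f hf x x' hx
    refine hf _ _ fun z hz1 hz2 => ?_
    show (x z).2 = (x' z).2
    rw [hx z hz1 hz2]

end Pool.MP4bb68cEx
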