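import Mathlib
import Pool.Agent.Work.MP_4bb68c_ex.Defs
import Pool.Agent.Work.MP_4bb68c_ex.Defs2
import Pool.Agent.Work.MP_4bb68c_ex.SysB
import Pool.Agent.Work.MP_4bb68c_ex.CoupE
import Pool.Agent.Work.MP_4bb68c_ex.MonoC
import Pool.Agent.Work.MP_4bb68c_ex.PosR
import Pool.Agent.Work.MP_4bb68c_ex.Proj

/-!
# Two extremal stationary laws are comparable (module Ord, size M)

`norm_marg`: let `μ` be a stationary probability measure on pairs with extremal marginals `ν, ν'` and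
`μ Pos ≠ 0`. Then `μ₁ = (μ Pos)⁻¹ • μ.restrict Pos` is a probability measure, stationary
(`pos_restrict`, `Stn.smul`), almost surely in `Pos`, and `μ₁.map fsI ≤ (μ Pos)⁻¹ • ν` is stationary
(`Stn.fs`), so it is `ν` by extremality; the same for `snI`.

`ext_order`: take `μ` from `exists_coupling`. By `mono_coupling`, `μ Pos ≠ 0` or `μ Neg ≠ 0`. In the first
case use `norm_marg`. In the second case let `μ' = μ.map sw` (`Stn.swp`): its marginals are `ν', ν`
(`fsI (sw x) = snI x`), `μ' Pos = μ Neg ≠ 0` (`sw ⁻¹' Pos = Neg`); `norm_marg` for `μ'` gives `μ₁`, and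
`μ₁.map sw` has the marginals `ν, ν'` and is almost surely in `Neg`.
-/

set_option autoImplicit false

open MeasureTheory ProbabilityTheory Filter Topology
open scoped NNReal ENNReal

namespace Pool.MP4bb68cEx

open Pool.MP4bb68c Pool.MP4bb68cOne Pool.MP4bb68cCl

private theorem ext_of {ν : Measure (ℤ → ℤ)} (hν : ExtI ν) {μ : Measure (ℤ → ℤ × ℤ)}
    [IsProbabilityMeasure μ] {f : (ℤ → ℤ × ℤ) → ℤ → ℤ} (hf : Measurable f)
    (h1 : μ.map f = ν) (h0 : μ Pos ≠ 0)
    (hp : IsProbabilityMeasure ((μ Pos)⁻¹ • μ.restrict Pos))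
    (hs : Stn SI (((μ Pos)⁻¹ • μ.restrict Pos).map f)) :
    ((μ Pos)⁻¹ • μ.restrict Pos).map f = ν := by
  refine hν.2.2 _ (Measure.isProbabilityMeasure_map hf.aemeasurable) hs (μ Pos)⁻¹
    (ENNReal.inv_ne_top.2 h0) ?_
  rw [Measure.map_smul, ← h1]
  have h2 : (μ.restrict Pos).map f ≤ μ.map f := Measure.map_mono Measure.restrict_le_self hf
  refine Measure.le_iff.2 fun s hs' => ?_
  rw [Measure.smul_apply, Measure.smul_apply, smul_eq_mul, smul_eq_mul]
  exact mul_le_mul_right (h2 s) _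

theorem norm_marg {ν ν' : Measure (ℤ → ℤ)} (hν : ExtI ν) (hν' : ExtI ν')
    {μ : Measure (ℤ → ℤ × ℤ)} [IsProbabilityMeasure μ] (h : Stn SP μ) (h1 : μ.map fsI = ν)
    (h2 : μ.map snI = ν') (h0 : μ Pos ≠ 0) :
    ∃ μ₁ : Measure (ℤ → ℤ × ℤ), IsProbabilityMeasure μ₁ ∧ Stn SP μ₁ ∧ μ₁.map fsI = ν ∧
      μ₁.map snI = ν' ∧ ∀ᵐ x ∂μ₁, x ∈ Pos := by
  have hp : IsProbabilityMeasure ((μ Pos)⁻¹ • μ.restrict Pos) :=
    cond_isProbabilityMeasure h0
  have hs : Stn SP ((μ Pos)⁻¹ • μ.restrict Pos) := (pos_restrict h).smul _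
  refine ⟨(μ Pos)⁻¹ • μ.restrict Pos, hp, hs, ?_, ?_, ?_⟩
  · exact ext_of hν measurable_fsI h1 h0 hp hs.fs
  · exact ext_of hν' measurable_snI h2 h0 hp hs.sn
  · exact Measure.ae_smul_measure (ae_restrict_mem measurableSet_Pos) _

theorem ext_order {ν ν' : Measure (ℤ → ℤ)} (hν : ExtI ν) (hν' : ExtI ν') :
    ∃ μ : Measure (ℤ → ℤ × ℤ), IsProbabilityMeasure μ ∧ Stn SP μ ∧ μ.map fsI = ν ∧
      μ.map snI = ν' ∧ ((∀ᵐ x ∂μ, x ∈ Pos) ∨ ∀ᵐ x ∂μ, x ∈ Neg) := by
  have := hν.1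
  have := hν'.1
  obtain ⟨μ, hμ, hst, h1, h2⟩ := exists_coupling hν.2.1 hν'.2.1
  have := hμ
  by_cases h0 : μ Pos = 0
  · have hN : μ Neg ≠ 0 := by
      intro hN
      have h3 := mono_coupling hst
      have h4 : ∀ᵐ x ∂μ, x ∉ Pos := measure_eq_zero_iff_ae_notMem.1 h0
      have h5 : ∀ᵐ x ∂μ, x ∉ Neg := measure_eq_zero_iff_ae_notMem.1 hN
      have h6 : ∀ᵐ x ∂μ, False := by
        filter_upwards [h3, h4, h5] with x a b c
        exact a.elim b c
      rw [ae_iff] at h6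
      simp at h6
    have hp' : IsProbabilityMeasure (μ.map sw) :=
      Measure.isProbabilityMeasure_map measurable_sw.aemeasurable
    have e1 : (μ.map sw).map fsI = ν' := by
      rw [Measure.map_map measurable_fsI measurable_sw]
      exact h2
    have e2 : (μ.map sw).map snI = ν := by
      rw [Measure.map_map measurable_snI measurable_sw]
      exact h1
    have e3 : μ.map sw Pos ≠ 0 := by
      rw [Measure.map_apply measurable_sw measurableSet_Pos]
      exact hN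
    obtain ⟨μ₁, hp1, hs1, f1, f2, f3⟩ := norm_marg hν' hν hst.swp e1 e2 e3
    have := hp1
    refine ⟨μ₁.map sw, Measure.isProbabilityMeasure_map measurable_sw.aemeasurable, hs1.swp, ?_,
      ?_, Or.inr ?_⟩
    · rw [Measure.map_map measurable_fsI measurable_sw]
      exact f2
    · rw [Measure.map_map measurable_snI measurable_sw]
      exact f1
    · have hm : MeasurableSet Neg := measurable_sw measurableSet_Pos
      exact (ae_map_iff measurable_sw.aemeasurable hm).2 f3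
  · obtain ⟨μ₁, hp1, hs1, f1, f2, f3⟩ := norm_marg hν hν' hst h1 h2 h0
    exact ⟨μ₁, hp1, hs1, f1, f2, Or.inl f3⟩

end Pool.MP4bb68cEx
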