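import Mathlib
import Pool.Agent.Work.MP_4bb68c_ex.Defs
import Pool.Agent.Work.MP_4bb68c_ex.Defs2
import Pool.Agent.Work.MP_4bb68c_ex.SysB

/-!
# The speed is constant in space (module Speed, size M)

`cc_step`: for `M : ℕ`, `M ≥ 1`, let `φ u = max (-M) (min u M)` (real or integer truncation) and
`f η = φ (η x) / M`, which is `Loc |x|` and bounded by `1`. In the balance equation only the letters
`s = x` (`η x` becomes `η x - cc η x`) and `s = x + 1` (`η x` becomes `η x + cc η (x+1)`) change `η x`. So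
`∫ (φ (η x + cc η (x+1)) - φ (η x)) dν = ∫ (φ (η x) - φ (η x - cc η x)) dν`. Both integrands are
nonnegative, nondecreasing in `M`, and equal to `cc η (x+1)`, resp. `cc η x`, for `M` large (depending
on `η`; `cc η s ≥ 1`). By monotone convergence (with `lintegral`, `ENNReal.ofReal`)
`∫⁻ cc η (x+1) = ∫⁻ cc η x`. `cc_const`: induction on `x` in both directions.

`int_bound`: `cc η 0 ≤ 1 + |η 0| + |η (-1)|`, so `s := ∫⁻ cc η 0 < ∞`. For all `x`:
`η x ≤ cc η x` and `-η x ≤ cc η (x+1)`, so `|η x| ≤ cc η x + cc η (x+1)` and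
`∫⁻ |η x| ≤ 2 s`. Take `b = (2 s).toReal`.
-/

set_option autoImplicit false

open MeasureTheory ProbabilityTheory Filter Topology
open scoped NNReal ENNReal

namespace Pool.MP4bb68cEx

open Pool.MP4bb68c Pool.MP4bb68cOne Pool.MP4bb68cCl

private def ph (M : ℕ) (u : ℤ) : ℤ := max (-(M : ℤ)) (min u M)

private theorem one_le_cc (η : ℤ → ℤ) (s : ℤ) : 1 ≤ cc η s := le_max_left _ _

private theorem loc_two {g : ℤ → ℤ → ℤ → ℝ} (x : ℤ) :
    Loc (x.natAbs + 1) (fun η : ℤ → ℤ => g (η (x - 1)) (η x) (η (x + 1))) := by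
  intro η η' h
  show g (η (x - 1)) (η x) (η (x + 1)) = g (η' (x - 1)) (η' x) (η' (x + 1))
  rw [h (x - 1) (by omega) (by omega), h x (by omega) (by omega), h (x + 1) (by omega) (by omega)]

private theorem meas_two {g : ℤ → ℤ → ℤ → ℝ} (x : ℤ) :
    Measurable (fun η : ℤ → ℤ => g (η (x - 1)) (η x) (η (x + 1))) :=
  (loc_two x).measurable

private theorem meas_cc (x : ℤ) : Measurable (fun η : ℤ → ℤ => (cc η x : ℝ)) :=
  meas_two (g := fun a b _ => ((max 1 (max b (-a)) : ℤ) : ℝ)) x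

private theorem meas_ap (x : ℤ) : Measurable (fun η : ℤ → ℤ => (η x : ℝ)) :=
  meas_two (g := fun _ b _ => (b : ℝ)) x

private theorem cc_step {ν : Measure (ℤ → ℤ)} [IsProbabilityMeasure ν] (h : Stn SI ν) (x : ℤ) :
    ∫⁻ η, ENNReal.ofReal (cc η (x + 1) : ℝ) ∂ν = ∫⁻ η, ENNReal.ofReal (cc η x : ℝ) ∂ν := by
  -- the increments of the truncations
  have hA : ∀ M : ℕ, Measurable fun η : ℤ → ℤ => ((ph M (η x + cc η (x + 1)) - ph M (η x) : ℤ) : ℝ) := by
    intro M
    have := meas_two (g := fun a b c => ((ph M (b + max 1 (max c (-b))) - ph M b : ℤ) : ℝ)) x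
    have e : (fun η : ℤ → ℤ => ((ph M (η x + cc η (x + 1)) - ph M (η x) : ℤ) : ℝ)) =
        fun η : ℤ → ℤ =>
          ((ph M (η x + max 1 (max (η (x + 1)) (-(η x)))) - ph M (η x) : ℤ) : ℝ) := by
      funext η
      unfold cc
      rw [add_sub_cancel_right]
    rw [e]
    exact this
  have hB : ∀ M : ℕ, Measurable fun η : ℤ → ℤ => ((ph M (η x) - ph M (η x - cc η x) : ℤ) : ℝ) := by
    intro M
    exact meas_two (g := fun a b c => ((ph M b - ph M (b - max 1 (max b (-a))) : ℤ) : ℝ)) x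
  have bA : ∀ (M : ℕ) (u v : ℤ), |((ph M u - ph M v : ℤ) : ℝ)| ≤ 2 * M := by
    intro M u v
    have h1 : |ph M u - ph M v| ≤ 2 * (M : ℤ) := by
      rw [abs_le]
      unfold ph
      constructor <;> omega
    have h2 : ((|ph M u - ph M v| : ℤ) : ℝ) ≤ ((2 * (M : ℤ) : ℤ) : ℝ) := by exact_mod_cast h1
    rw [Int.cast_abs] at h2
    push_cast at h2 ⊢
    exact h2
  have iA : ∀ M : ℕ, Integrable
      (fun η : ℤ → ℤ => ((ph M (η x + cc η (x + 1)) - ph M (η x) : ℤ) : ℝ)) ν := fun M =>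
    Integrable.of_bound (hA M).aestronglyMeasurable (2 * M)
      (Eventually.of_forall fun η => by rw [Real.norm_eq_abs]; exact bA M _ _)
  have iB : ∀ M : ℕ, Integrable
      (fun η : ℤ → ℤ => ((ph M (η x) - ph M (η x - cc η x) : ℤ) : ℝ)) ν := fun M =>
    Integrable.of_bound (hB M).aestronglyMeasurable (2 * M)
      (Eventually.of_forall fun η => by rw [Real.norm_eq_abs]; exact bA M _ _)
  have nA : ∀ (M : ℕ) (η : ℤ → ℤ), (0 : ℝ) ≤
      ((ph M (η x + cc η (x + 1)) - ph M (η x) : ℤ) : ℝ) := by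
    intro M η
    have h1 := one_le_cc η (x + 1)
    have h2 : 0 ≤ ph M (η x + cc η (x + 1)) - ph M (η x) := by
      unfold ph
      omega
    exact_mod_cast h2
  have nB : ∀ (M : ℕ) (η : ℤ → ℤ), (0 : ℝ) ≤
      ((ph M (η x) - ph M (η x - cc η x) : ℤ) : ℝ) := by
    intro M η
    have h1 := one_le_cc η x
    have h2 : 0 ≤ ph M (η x) - ph M (η x - cc η x) := by
      unfold ph
      omega
    exact_mod_cast h2
  -- the balance equation
  have key : ∀ M : ℕ, ∫ η : ℤ → ℤ, ((ph M (η x + cc η (x + 1)) - ph M (η x) : ℤ) : ℝ) ∂ν =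
      ∫ η : ℤ → ℤ, ((ph M (η x) - ph M (η x - cc η x) : ℤ) : ℝ) ∂ν := by
    intro M
    have hloc : Loc x.natAbs (fun η : ℤ → ℤ => ((ph M (η x) : ℤ) : ℝ)) := by
      intro η η' hh
      show ((ph M (η x) : ℤ) : ℝ) = ((ph M (η' x) : ℤ) : ℝ)
      rw [hh x (by omega) (by omega)]
    have hbd : ∀ u : ℤ, |((ph M u : ℤ) : ℝ)| ≤ (M : ℝ) := by
      intro u
      have h1 : |ph M u| ≤ (M : ℤ) := by
        rw [abs_le]
        unfold ph
        constructor <;> omega
      have h2 : ((|ph M u| : ℤ) : ℝ) ≤ ((M : ℤ) : ℝ) := by exact_mod_cast h1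
      rw [Int.cast_abs] at h2
      push_cast at h2 ⊢
      exact h2
    have hst := h.big hloc (C := M) (fun η => hbd _) (le_refl x.natAbs)
    have mI : ∀ g : (ℤ → ℤ) → ℤ, Measurable (fun η => ((ph M (g η) : ℤ) : ℝ)) →
        Integrable (fun η => ((ph M (g η) : ℤ) : ℝ)) ν := fun g hg =>
      Integrable.of_bound hg.aestronglyMeasurable M
        (Eventually.of_forall fun η => by rw [Real.norm_eq_abs]; exact hbd _)
    have m0 : Measurable (fun η : ℤ → ℤ => ((ph M (η x) : ℤ) : ℝ)) :=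
      meas_two (g := fun _ b _ => ((ph M b : ℤ) : ℝ)) x
    have m1 : Measurable (fun η : ℤ → ℤ => ((ph M (η x - cc η x) : ℤ) : ℝ)) :=
      meas_two (g := fun a b _ => ((ph M (b - max 1 (max b (-a))) : ℤ) : ℝ)) x
    have m2 : Measurable (fun η : ℤ → ℤ => ((ph M (η x + cc η (x + 1)) : ℤ) : ℝ)) := by
      have := (hA M).add m0
      have e : ((fun η : ℤ → ℤ => ((ph M (η x + cc η (x + 1)) - ph M (η x) : ℤ) : ℝ)) +
          fun η : ℤ → ℤ => ((ph M (η x) : ℤ) : ℝ)) =
          fun η : ℤ → ℤ => ((ph M (η x + cc η (x + 1)) : ℤ) : ℝ) := by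
        funext η
        simp
      rw [e] at this
      exact this
    have hzero : ∀ s ∈ Finset.Icc (-(x.natAbs : ℤ)) (x.natAbs + 1), s ∉ ({x, x + 1} : Finset ℤ) →
        (∫ η : ℤ → ℤ, ((ph M (SI.T s η x) : ℤ) : ℝ) ∂ν - ∫ η : ℤ → ℤ, ((ph M (η x) : ℤ) : ℝ) ∂ν) = 0 := by
      intro s _ hs
      rw [Finset.mem_insert, Finset.mem_singleton, not_or] at hs
      have : ∀ η : ℤ → ℤ, SI.T s η x = η x := fun η => SI.out s η x (by omega) (by omega)
      simp only [this, sub_self]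
    have hsub : ({x, x + 1} : Finset ℤ) ⊆ Finset.Icc (-(x.natAbs : ℤ)) (x.natAbs + 1) := by
      intro s hs
      rw [Finset.mem_insert, Finset.mem_singleton] at hs
      rw [Finset.mem_Icc]
      omega
    rw [← Finset.sum_subset hsub hzero, Finset.sum_pair (by omega)] at hst
    have e1 : ∀ η : ℤ → ℤ, SI.T x η x = η x - cc η x := by
      intro η
      have : ¬ (x = x - 1) := by omega
      simp only [SI, if_true, this, if_false]
    have e2 : ∀ η : ℤ → ℤ, SI.T (x + 1) η x = η x + cc η (x + 1) := by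
      intro η
      simp only [SI, add_sub_cancel_right, if_true]
    simp only [e1, e2] at hst
    push_cast
    rw [integral_sub (mI (fun η => η x + cc η (x + 1)) m2) (mI (fun η => η x) m0),
      integral_sub (mI (fun η => η x) m0) (mI (fun η => η x - cc η x) m1)]
    linarith
  have limA : Tendsto (fun M : ℕ => ∫⁻ η : ℤ → ℤ,
      ENNReal.ofReal ((ph M (η x + cc η (x + 1)) - ph M (η x) : ℤ) : ℝ) ∂ν) atTop
      (𝓝 (∫⁻ η, ENNReal.ofReal (cc η (x + 1) : ℝ) ∂ν)) := by
    refine lintegral_tendsto_of_tendsto_of_monotone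
      (fun M => (ENNReal.measurable_ofReal.comp (hA M)).aemeasurable)
      (Eventually.of_forall fun η => ?_) (Eventually.of_forall fun η => ?_)
    · refine monotone_nat_of_le_succ fun M => ENNReal.ofReal_le_ofReal ?_
      have h1 := one_le_cc η (x + 1)
      have h2 : ph M (η x + cc η (x + 1)) - ph M (η x) ≤
          ph (M + 1) (η x + cc η (x + 1)) - ph (M + 1) (η x) := by
        unfold ph
        push_cast
        omega
      exact_mod_cast h2
    · refine tendsto_const_nhds.congr' ?_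
      filter_upwards [eventually_ge_atTop ((η x).natAbs + (cc η (x + 1)).natAbs)] with M hM
      have h2 : ph M (η x + cc η (x + 1)) - ph M (η x) = cc η (x + 1) := by
        unfold ph
        omega
      rw [h2]
  have limB : Tendsto (fun M : ℕ => ∫⁻ η : ℤ → ℤ,
      ENNReal.ofReal ((ph M (η x) - ph M (η x - cc η x) : ℤ) : ℝ) ∂ν) atTop
      (𝓝 (∫⁻ η, ENNReal.ofReal (cc η x : ℝ) ∂ν)) := by
    refine lintegral_tendsto_of_tendsto_of_monotone
      (fun M => (ENNReal.measurable_ofReal.comp (hB M)).aemeasurable)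
      (Eventually.of_forall fun η => ?_) (Eventually.of_forall fun η => ?_)
    · refine monotone_nat_of_le_succ fun M => ENNReal.ofReal_le_ofReal ?_
      have h1 := one_le_cc η x
      have h2 : ph M (η x) - ph M (η x - cc η x) ≤
          ph (M + 1) (η x) - ph (M + 1) (η x - cc η x) := by
        unfold ph
        push_cast
        omega
      exact_mod_cast h2
    · refine tendsto_const_nhds.congr' ?_
      filter_upwards [eventually_ge_atTop ((η x).natAbs + (cc η x).natAbs)] with M hM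
      have h2 : ph M (η x) - ph M (η x - cc η x) = cc η x := by
        unfold ph
        omega
      rw [h2]
  refine tendsto_nhds_unique limA ?_
  refine limB.congr fun M => ?_
  rw [← ofReal_integral_eq_lintegral_ofReal (iB M) (Eventually.of_forall (nB M)),
    ← ofReal_integral_eq_lintegral_ofReal (iA M) (Eventually.of_forall (nA M)), key M]

theorem cc_const {ν : Measure (ℤ → ℤ)} [IsProbabilityMeasure ν] (h : Stn SI ν) (x : ℤ) :
    ∫⁻ η, ENNReal.ofReal (cc η x : ℝ) ∂ν = ∫⁻ η, ENNReal.ofReal (cc η 0 : ℝ) ∂ν := by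
  induction x using Int.induction_on with
  | zero => rfl
  | succ n ih => rw [cc_step h, ih]
  | pred n ih =>
    have := cc_step h (-(n : ℤ) - 1)
    rw [sub_add_cancel] at this
    rw [← this, ih]

theorem int_bound {ν : Measure (ℤ → ℤ)} [IsProbabilityMeasure ν] (h : Stn SI ν)
    (h0 : Integrable (fun η : ℤ → ℤ => (η 0 : ℝ)) ν)
    (h1 : Integrable (fun η : ℤ → ℤ => (η (-1) : ℝ)) ν) :
    ∃ b : ℝ, ∀ x : ℤ, Integrable (fun η : ℤ → ℤ => (η x : ℝ)) ν ∧
      ∫ η : ℤ → ℤ, |(η x : ℝ)| ∂ν ≤ b := by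
  have i0 : Integrable (fun η : ℤ → ℤ => (cc η 0 : ℝ)) ν := by
    have hd : Integrable (fun η : ℤ → ℤ => (1 : ℝ) + (|(η 0 : ℝ)| + |(η (-1) : ℝ)|)) ν :=
      (integrable_const (1 : ℝ)).add (h0.abs.add h1.abs)
    refine hd.mono' (meas_cc 0).aestronglyMeasurable (Eventually.of_forall fun η => ?_)
    rw [Real.norm_eq_abs]
    have e1 : |cc η 0| ≤ 1 + (|η 0| + |η (-1)|) := by
      have h3 : cc η 0 = max 1 (max (η 0) (-η (-1))) := rfl
      rw [abs_of_nonneg (by have := one_le_cc η 0; omega), h3]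
      have h4 := abs_nonneg (η 0)
      have h5 := abs_nonneg (η (-1))
      have h6 := le_abs_self (η 0)
      have h7 := neg_le_abs (η (-1))
      omega
    exact_mod_cast e1
  have hfin : ∫⁻ η, ENNReal.ofReal (cc η 0 : ℝ) ∂ν ≠ ∞ := i0.lintegral_lt_top.ne
  have nn : ∀ (x : ℤ) (η : ℤ → ℤ), (0 : ℝ) ≤ (cc η x : ℝ) := by
    intro x η
    have := one_le_cc η x
    have h2 : 0 ≤ cc η x := by omega
    exact_mod_cast h2
  have ix : ∀ x : ℤ, Integrable (fun η : ℤ → ℤ => (cc η x : ℝ)) ν := by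
    intro x
    refine (lintegral_ofReal_ne_top_iff_integrable (meas_cc x).aestronglyMeasurable
      (Eventually.of_forall (nn x))).1 ?_
    rw [cc_const h x]
    exact hfin
  have ex : ∀ x : ℤ, ∫ η, (cc η x : ℝ) ∂ν = (∫⁻ η, ENNReal.ofReal (cc η 0 : ℝ) ∂ν).toReal := by
    intro x
    rw [integral_eq_lintegral_of_nonneg_ae (Eventually.of_forall (nn x))
      (meas_cc x).aestronglyMeasurable, cc_const h x]
  refine ⟨(∫⁻ η, ENNReal.ofReal (cc η 0 : ℝ) ∂ν).toReal +
    (∫⁻ η, ENNReal.ofReal (cc η 0 : ℝ) ∂ν).toReal, fun x => ?_⟩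
  have hle : ∀ η : ℤ → ℤ, |(η x : ℝ)| ≤ (cc η x : ℝ) + (cc η (x + 1) : ℝ) := by
    intro η
    have e1 : |η x| ≤ cc η x + cc η (x + 1) := by
      have h3 : cc η x = max 1 (max (η x) (-η (x - 1))) := rfl
      have h4 : cc η (x + 1) = max 1 (max (η (x + 1)) (-η (x + 1 - 1))) := rfl
      rw [add_sub_cancel_right] at h4
      rw [h3, h4, abs_le]
      constructor <;> omega
    exact_mod_cast e1
  have hi : Integrable (fun η : ℤ → ℤ => (η x : ℝ)) ν :=
    ((ix x).add (ix (x + 1))).mono' (meas_ap x).aestronglyMeasurable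
      (Eventually.of_forall fun η => by rw [Real.norm_eq_abs]; exact hle η)
  refine ⟨hi, ?_⟩
  calc ∫ η : ℤ → ℤ, |(η x : ℝ)| ∂ν ≤ ∫ η : ℤ → ℤ, ((cc η x : ℝ) + (cc η (x + 1) : ℝ)) ∂ν :=
        integral_mono hi.abs ((ix x).add (ix (x + 1))) hle
    _ = _ := by rw [integral_add (ix x) (ix (x + 1)), ex x, ex (x + 1)]

end Pool.MP4bb68cEx
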