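import Mathlib
import Pool.Agent.Work.MP_4bb68c_ex.Defs
import Pool.Agent.Work.MP_4bb68c_ex.Defs2
import Pool.Agent.Work.MP_4bb68c_ex.SysB
import Pool.Agent.Work.MP_4bb68c_ex.Ord
import Pool.Agent.Work.MP_4bb68c_ex.MaxS
import Pool.Agent.Work.MP_4bb68c_ex.Speed
import Pool.Agent.Work.MP_4bb68c_ex.Proj

/-!
# Extremal stationary laws with integrable increments are shift invariant (module ExtSh, size M)

PROOF. `ν' = ν.map (tra 1)` is extremal (`ExtI.tra`). Take `μ` from `ext_order` for `ν, ν'`. Let `b` be the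
bound of `int_bound` for `ν`.

`key`: if `μ` is a stationary probability measure on pairs, almost surely in `Pos`, whose two marginals
are `ν, ν.map (tra 1)` or `ν.map (tra 1), ν`, then almost surely `dl2 x y = 0` for all `y`: for `n : ℕ`,
`∫ (∑ y ∈ Ico (-n) n, dl2 x y) dμ = ± ∑ y ∈ Ico (-n) n, (E_ν η (y+1) - E_ν η y) =
± (E_ν η n - E_ν η (-n)) ≤ 2 b` (all integrable; `tra 1 η y = η (y+1)`; the second family minus the first
one). The `dl2 x y` are nonnegative almost surely, so by monotone convergence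
`∫⁻ ∑' y, ofReal (dl2 x y) dμ ≤ 2 b < ∞`, hence almost surely `∑' y, ofReal (dl2 x y) < ∞`, and as the terms
are integers only finitely many are nonzero (a summable family tends to zero along `cofinite`):
there is `N` with `dl2 x y = 0` for `y < -N`. `finM` gives the claim.

Conclusion: if `μ` is in `Pos` almost surely, `key` gives `fsI x = snI x` almost surely, so
`ν = μ.map fsI = μ.map snI = ν.map (tra 1)`. If `μ` is in `Neg` almost surely use `μ.map sw` (`Stn.swp`),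
whose marginals are `ν.map (tra 1), ν`, and which is in `Pos` almost surely.
-/

set_option autoImplicit false

open MeasureTheory ProbabilityTheory Filter Topology
open scoped NNReal ENNReal

namespace Pool.MP4bb68cEx

open Pool.MP4bb68c Pool.MP4bb68cOne Pool.MP4bb68cCl

private theorem pos_meas : MeasurableSet Pos := by
  have e : Pos = ⋂ y : ℤ, {x : ℤ → ℤ × ℤ | (x y).1 ≤ (x y).2} := by
    ext x
    rw [Set.mem_iInter]
    rfl
  rw [e]
  refine MeasurableSet.iInter fun y => measurableSet_le ?_ ?_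
  · exact measurable_fst.comp (measurable_pi_apply y)
  · exact measurable_snd.comp (measurable_pi_apply y)

private theorem ev_meas (y : ℤ) : Measurable (fun η : ℤ → ℤ => (η y : ℝ)) :=
  (measurable_of_countable (fun z : ℤ => (z : ℝ))).comp (measurable_pi_apply y)

private theorem es_key {b : ℝ} {a c : ℤ → ℝ} {μ : Measure (ℤ → ℤ × ℤ)} [IsProbabilityMeasure μ]
    (h : Stn SP μ) (hp : ∀ᵐ x ∂μ, x ∈ Pos)
    (i1 : ∀ y, Integrable (fun x => (fsI x y : ℝ)) μ)
    (i2 : ∀ y, Integrable (fun x => (snI x y : ℝ)) μ)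
    (e1 : ∀ y, ∫ x, (fsI x y : ℝ) ∂μ = a y) (e2 : ∀ y, ∫ x, (snI x y : ℝ) ∂μ = c y)
    (hb : ∀ n : ℕ, ∑ y ∈ Finset.Ico (-(n : ℤ)) n, (c y - a y) ≤ b) :
    ∀ᵐ x ∂μ, ∀ y, dl2 x y = 0 := by
  refine finM h hp ?_
  have hnn : ∀ y, 0 ≤ᵐ[μ] fun x => (dl2 x y : ℝ) := by
    intro y
    filter_upwards [hp] with x hx
    have h1 : (x y).1 ≤ (x y).2 := hx y
    have h2 : 0 ≤ dl2 x y := by unfold dl2; omega
    show (0 : ℝ) ≤ (dl2 x y : ℝ)
    exact_mod_cast h2
  have hdi : ∀ y, Integrable (fun x => (dl2 x y : ℝ)) μ := by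
    intro y
    refine ((i2 y).sub (i1 y)).congr (Filter.Eventually.of_forall fun x => ?_)
    show (((x y).2 : ℤ) : ℝ) - ((x y).1 : ℝ) = ((dl2 x y : ℤ) : ℝ)
    unfold dl2
    push_cast
    ring
  have hde : ∀ y, ∫ x, (dl2 x y : ℝ) ∂μ = c y - a y := by
    intro y
    rw [← e1, ← e2, ← integral_sub (i2 y) (i1 y)]
    refine integral_congr_ae (Filter.Eventually.of_forall fun x => ?_)
    show ((dl2 x y : ℤ) : ℝ) = (((x y).2 : ℤ) : ℝ) - ((x y).1 : ℝ)
    unfold dl2
    push_cast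
    ring
  have hle : ∀ y, ∫⁻ x, ENNReal.ofReal (dl2 x y : ℝ) ∂μ = ENNReal.ofReal (c y - a y) := by
    intro y
    rw [← ofReal_integral_eq_lintegral_ofReal (hdi y) (hnn y), hde]
  have hca : ∀ y, 0 ≤ c y - a y := by
    intro y
    rw [← hde]
    exact integral_nonneg_of_ae (hnn y)
  have hmeas : ∀ y : ℤ, Measurable (fun x : ℤ → ℤ × ℤ => ENNReal.ofReal (dl2 x y : ℝ)) := by
    intro y
    exact (measurable_of_countable (fun p : ℤ × ℤ => ENNReal.ofReal ((p.2 - p.1 : ℤ) : ℝ))).comp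
      (measurable_pi_apply y)
  have hsum : ∫⁻ x, ∑' y : ℤ, ENNReal.ofReal (dl2 x y : ℝ) ∂μ ≤ ENNReal.ofReal b := by
    rw [lintegral_tsum fun y => (hmeas y).aemeasurable]
    rw [ENNReal.tsum_eq_iSup_sum' (fun n : ℕ => Finset.Ico (-(n : ℤ)) n)]
    · refine iSup_le fun n => ?_
      rw [Finset.sum_congr rfl fun y _ => hle y, ← ENNReal.ofReal_sum_of_nonneg fun y _ => hca y]
      exact ENNReal.ofReal_le_ofReal (hb n)
    · intro t
      refine ⟨t.sup Int.natAbs + 1, fun y hy => ?_⟩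
      have h3 := Finset.le_sup (f := Int.natAbs) hy
      rw [Finset.mem_Ico]
      omega
  have hfin : ∀ᵐ x ∂μ, ∑' y : ℤ, ENNReal.ofReal (dl2 x y : ℝ) < ∞ :=
    ae_lt_top (Measurable.tsum hmeas) (ne_top_of_le_ne_top ENNReal.ofReal_ne_top hsum)
  filter_upwards [hfin, hp] with x hx hxp
  have h3 := ENNReal.tendsto_cofinite_zero_of_tsum_ne_top hx.ne
  have h4 : ∀ᶠ y in cofinite, ENNReal.ofReal (dl2 x y : ℝ) < 1 :=
    h3.eventually (Iio_mem_nhds one_pos)
  rw [Filter.eventually_cofinite] at h4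
  obtain ⟨M, hM⟩ := h4.bddBelow
  refine ⟨M.natAbs + 1, fun y hy => ?_⟩
  by_contra hne
  have h5 : (x y).1 ≤ (x y).2 := hxp y
  have h6 : 1 ≤ dl2 x y := by
    unfold dl2 at hne ⊢
    omega
  have h7 : M ≤ y := hM (by
    show ¬ ENNReal.ofReal (dl2 x y : ℝ) < 1
    rw [not_lt, ← ENNReal.ofReal_one]
    exact ENNReal.ofReal_le_ofReal (by exact_mod_cast h6))
  omega

private theorem es_tra {ν : Measure (ℤ → ℤ)} (hi : ∀ x : ℤ, Integrable (fun η : ℤ → ℤ => (η x : ℝ)) ν)
    (y : ℤ) : Integrable (fun η : ℤ → ℤ => (η y : ℝ)) (ν.map (tra 1)) ∧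
      ∫ η : ℤ → ℤ, (η y : ℝ) ∂(ν.map (tra 1)) = ∫ η : ℤ → ℤ, (η (y + 1) : ℝ) ∂ν := by
  constructor
  · rw [integrable_map_measure (ev_meas y).aestronglyMeasurable (measurable_tra 1).aemeasurable]
    exact hi (y + 1)
  · rw [integral_map (measurable_tra 1).aemeasurable (ev_meas y).aestronglyMeasurable]
    rfl

private theorem es_pull {μ : Measure (ℤ → ℤ × ℤ)} {α : Measure (ℤ → ℤ)}
    {φ : (ℤ → ℤ × ℤ) → ℤ → ℤ} (hφ : Measurable φ) (h : μ.map φ = α) (y : ℤ)
    (hi : Integrable (fun η : ℤ → ℤ => (η y : ℝ)) α) :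
    Integrable (fun x => (φ x y : ℝ)) μ ∧ ∫ x, (φ x y : ℝ) ∂μ = ∫ η : ℤ → ℤ, (η y : ℝ) ∂α := by
  subst h
  constructor
  · rw [integrable_map_measure (ev_meas y).aestronglyMeasurable hφ.aemeasurable] at hi
    exact hi
  · rw [integral_map hφ.aemeasurable (ev_meas y).aestronglyMeasurable]

private theorem tele (a : ℤ → ℝ) (n : ℕ) :
    ∑ y ∈ Finset.Ico (-(n : ℤ)) n, (a (y + 1) - a y) = a n - a (-(n : ℤ)) := by
  induction n with
  | zero => simp
  | succ n ih =>
    have e : Finset.Ico (-((n + 1 : ℕ) : ℤ)) ((n + 1 : ℕ) : ℤ) =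
        insert (-((n : ℤ) + 1)) (insert (n : ℤ) (Finset.Ico (-(n : ℤ)) n)) := by
      ext y
      simp only [Finset.mem_Ico, Finset.mem_insert]
      omega
    rw [e, Finset.sum_insert, Finset.sum_insert, ih]
    · push_cast
      rw [show -((n : ℤ) + 1) + 1 = -(n : ℤ) by ring, show -((n : ℤ) + 1) = -1 + -(n : ℤ) by ring]
      ring
    · simp only [Finset.mem_Ico]
      omega
    · simp only [Finset.mem_insert, Finset.mem_Ico]
      omega

theorem ext_shift {ν : Measure (ℤ → ℤ)} (hν : ExtI ν)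
    (h0 : Integrable (fun η : ℤ → ℤ => (η 0 : ℝ)) ν)
    (h1 : Integrable (fun η : ℤ → ℤ => (η (-1) : ℝ)) ν) : ν.map (tra 1) = ν := by
  have hprob : IsProbabilityMeasure ν := hν.1
  obtain ⟨b, hb⟩ := int_bound hν.2.1 h0 h1
  have habs : ∀ y : ℤ, |∫ η : ℤ → ℤ, (η y : ℝ) ∂ν| ≤ b := fun y =>
    (abs_integral_le_integral_abs).trans (hb y).2
  have hi : ∀ x : ℤ, Integrable (fun η : ℤ → ℤ => (η x : ℝ)) ν := fun x => (hb x).1
  obtain ⟨μ, hμp, hμ, hf, hs, hcase⟩ := ext_order hν (hν.tra 1)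
  have hfin : ∀ {μ' : Measure (ℤ → ℤ × ℤ)}, (∀ᵐ x ∂μ', ∀ y, dl2 x y = 0) →
      μ'.map fsI = μ'.map snI := by
    intro μ' h
    refine Measure.map_congr ?_
    filter_upwards [h] with x hx
    funext y
    have := hx y
    unfold dl2 at this
    show (x y).1 = (x y).2
    omega
  rcases hcase with hc | hc
  · have h2 : ∀ᵐ x ∂μ, ∀ y, dl2 x y = 0 := by
      refine es_key (b := 2 * b) hμ hc (fun y => (es_pull measurable_fsI hf y (hi y)).1)
        (fun y => (es_pull measurable_snI hs y (es_tra hi y).1).1)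
        (fun y => (es_pull measurable_fsI hf y (hi y)).2)
        (fun y => (es_pull measurable_snI hs y (es_tra hi y).1).2.trans (es_tra hi y).2) ?_
      intro n
      rw [tele (fun y => ∫ η : ℤ → ℤ, (η y : ℝ) ∂ν)]
      have h3 := abs_le.1 (habs n)
      have h4 := abs_le.1 (habs (-(n : ℤ)))
      linarith [h3.2, h4.1]
    rw [← hs, ← hfin h2, hf]
  · have hμ' : IsProbabilityMeasure (μ.map sw) :=
      Measure.isProbabilityMeasure_map measurable_sw.aemeasurable
    have hf' : (μ.map sw).map fsI = ν.map (tra 1) := by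
      rw [Measure.map_map measurable_fsI measurable_sw, ← hs]
      rfl
    have hs' : (μ.map sw).map snI = ν := by
      rw [Measure.map_map measurable_snI measurable_sw, ← hf]
      rfl
    have hc' : ∀ᵐ x ∂(μ.map sw), x ∈ Pos := by
      refine (ae_map_iff (p := fun x => x ∈ Pos) measurable_sw.aemeasurable pos_meas).2 ?_
      filter_upwards [hc] with x hx
      exact hx
    have h2 : ∀ᵐ x ∂(μ.map sw), ∀ y, dl2 x y = 0 := by
      refine es_key (b := 2 * b) hμ.swp hc'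
        (fun y => (es_pull measurable_fsI hf' y (es_tra hi y).1).1)
        (fun y => (es_pull measurable_snI hs' y (hi y)).1)
        (fun y => (es_pull measurable_fsI hf' y (es_tra hi y).1).2.trans (es_tra hi y).2)
        (fun y => (es_pull measurable_snI hs' y (hi y)).2) ?_
      intro n
      have h5 := tele (fun y => ∫ η : ℤ → ℤ, (η y : ℝ) ∂ν) n
      have h3 := abs_le.1 (habs n)
      have h4 := abs_le.1 (habs (-(n : ℤ)))
      have h6 : ∑ y ∈ Finset.Ico (-(n : ℤ)) n, (∫ η : ℤ → ℤ, (η y : ℝ) ∂ν -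
          ∫ η : ℤ → ℤ, (η (y + 1) : ℝ) ∂ν) = -(∑ y ∈ Finset.Ico (-(n : ℤ)) n,
          (∫ η : ℤ → ℤ, (η (y + 1) : ℝ) ∂ν - ∫ η : ℤ → ℤ, (η y : ℝ) ∂ν)) := by
        rw [← Finset.sum_neg_distrib]
        exact Finset.sum_congr rfl fun y _ => by ring
      rw [h6, h5]
      linarith [h3.1, h4.2]
    have h7 := hfin h2
    rw [hf', hs'] at h7
    exact h7

end Pool.MP4bb68cEx
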