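import Mathlib
import Pool.Agent.Work.MP_4bb68c_ex.Defs
import Pool.Agent.Work.MP_4bb68c_ex.Defs3
import Pool.Agent.Work.MP_4bb68c_ex.SysB
import Pool.Agent.Work.MP_4bb68c_ex.Proj
import Pool.Agent.Work.MP_4bb68c_ex.GenB
import Pool.Agent.Work.MP_4bb68c_ex.Speed
import Pool.Agent.Work.MP_4bb68c_cl.Init

/-!
# Shift invariant stationary laws of increments are invariant laws (module InvL, size M)

`int_pr`: `pr η x` is a finite sum of increments `± η z`, all integrable (`int_bound`).
`invLaw_of_shift`: `prob`: a map of a probability measure. `stat`: `genB`. `inv`: for `y : Site 1`,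
`recenter y (ht η) = ht (tra (y 0) η)` (`pr η (x + y) - pr η y = pr (tra y η) x`: both sides vanish at
`x = 0` and have the same increments), so `(htL π).map (recenter y) = htL (π.map (tra (y 0))) = htL π`,
because `π.map (tra a) = π` for all `a : ℤ` (induction in both directions from `a = 1`). `int`: `ht η x =
pr η (x 0)` and `int_pr` (`integrable_map_measure`).
`int_of_invLaw`: if `μ` is an `InvLaw` then `η 0` and `η (-1)` are integrable for `μ.map incr`:
`incr g x = g (pt (x+1)) - g (pt x)`.
-/

set_option autoImplicit false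

open MeasureTheory ProbabilityTheory Filter Topology
open scoped NNReal ENNReal

namespace Pool.MP4bb68cEx

open Pool.MP4bb68c Pool.MP4bb68cOne Pool.MP4bb68cCl

private theorem il_pr_tra (η : ℤ → ℤ) (a x : ℤ) : pr (tra a η) x = pr η (x + a) - pr η a := by
  induction x using Int.induction_on with
  | zero => rw [pr_zero, zero_add, sub_self]
  | succ n ih =>
    rw [pr_succ, ih, show (n : ℤ) + 1 + a = ((n : ℤ) + a) + 1 by ring, pr_succ]
    show pr η ((n : ℤ) + a) - pr η a + η ((n : ℤ) + a) = _
    ring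
  | pred n ih =>
    have h1 := pr_succ (tra a η) (-(n : ℤ) - 1)
    have h2 := pr_succ η (-(n : ℤ) - 1 + a)
    rw [sub_add_cancel] at h1
    rw [show -(n : ℤ) - 1 + a + 1 = -(n : ℤ) + a by ring] at h2
    have h3 : tra a η (-(n : ℤ) - 1) = η (-(n : ℤ) - 1 + a) := rfl
    rw [h3] at h1
    linarith

private theorem il_incr : Measurable (incr : Height 1 → Inc) := by
  rw [measurable_pi_iff]
  intro x
  exact (measurable_pi_apply (pt (x + 1))).sub (measurable_pi_apply (pt x))

private theorem il_map_tra {π : Measure (ℤ → ℤ)} (hs : π.map (tra 1) = π) (a : ℤ) :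
    π.map (tra a) = π := by
  have hc : ∀ a b : ℤ, (tra a ∘ tra b : (ℤ → ℤ) → ℤ → ℤ) = tra (a + b) := by
    intro a b
    funext η y
    show η (y + a + b) = η (y + (a + b))
    rw [add_assoc]
  have h0 : (tra 0 : (ℤ → ℤ) → ℤ → ℤ) = id := by
    funext η y
    show η (y + 0) = η y
    rw [add_zero]
  have hm1 : π.map (tra (-1)) = π := by
    conv_lhs => rw [← hs]
    rw [Measure.map_map (measurable_tra (-1)) (measurable_tra 1), hc, neg_add_cancel, h0,
      Measure.map_id]
  induction a using Int.induction_on with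
  | zero => rw [h0, Measure.map_id]
  | succ n ih =>
    rw [show (n : ℤ) + 1 = 1 + (n : ℤ) by ring, ← hc, ← Measure.map_map (measurable_tra 1)
      (measurable_tra (n : ℤ)), ih, hs]
  | pred n ih =>
    rw [show -(n : ℤ) - 1 = -1 + -(n : ℤ) by ring, ← hc, ← Measure.map_map (measurable_tra (-1))
      (measurable_tra (-(n : ℤ))), ih, hm1]

private theorem il_cast (x : Site 1) : Measurable (fun g : Height 1 => (g x : ℝ)) :=
  (measurable_of_countable (fun z : ℤ => (z : ℝ))).comp (measurable_pi_apply x)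

theorem int_pr {π : Measure (ℤ → ℤ)} [IsProbabilityMeasure π] (h : Stn SI π)
    (h0 : Integrable (fun η : ℤ → ℤ => (η 0 : ℝ)) π)
    (h1 : Integrable (fun η : ℤ → ℤ => (η (-1) : ℝ)) π) (x : ℤ) :
    Integrable (fun η : ℤ → ℤ => (pr η x : ℝ)) π := by
  obtain ⟨b, hb⟩ := int_bound h h0 h1
  induction x using Int.induction_on with
  | zero =>
    have e : (fun η : ℤ → ℤ => (pr η 0 : ℝ)) = fun _ => 0 := by
      funext η
      rw [pr_zero, Int.cast_zero]
    rw [e]
    exact integrable_zero _ _ _
  | succ n ih =>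
    have e : (fun η : ℤ → ℤ => (pr η ((n : ℤ) + 1) : ℝ)) =
        fun η => (pr η (n : ℤ) : ℝ) + (η (n : ℤ) : ℝ) := by
      funext η
      rw [pr_succ, Int.cast_add]
    rw [e]
    exact ih.add (hb n).1
  | pred n ih =>
    have e : (fun η : ℤ → ℤ => (pr η (-(n : ℤ) - 1) : ℝ)) =
        fun η => (pr η (-(n : ℤ)) : ℝ) - (η (-(n : ℤ) - 1) : ℝ) := by
      funext η
      have h2 := pr_succ η (-(n : ℤ) - 1)
      rw [sub_add_cancel] at h2
      rw [h2, Int.cast_add]
      ring
    rw [e]
    exact ih.sub (hb (-(n : ℤ) - 1)).1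

theorem invLaw_of_shift {π : Measure (ℤ → ℤ)} [IsProbabilityMeasure π] (h : Stn SI π)
    (h0 : Integrable (fun η : ℤ → ℤ => (η 0 : ℝ)) π)
    (h1 : Integrable (fun η : ℤ → ℤ => (η (-1) : ℝ)) π) (hs : π.map (tra 1) = π) :
    InvLaw (htL π) := by
  refine ⟨Measure.isProbabilityMeasure_map measurable_ht.aemeasurable, genB h, fun y => ?_,
    fun x => ?_⟩
  · have e : recenter y ∘ ht = ht ∘ tra (y 0) := by
      funext η x
      show pr η ((x + y) 0) - pr η (y 0) = pr (tra (y 0) η) (x 0)
      rw [il_pr_tra]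
      rfl
    unfold htL
    rw [Measure.map_map (measurable_recenter y) measurable_ht, e,
      ← Measure.map_map measurable_ht (measurable_tra (y 0)), il_map_tra hs]
  · unfold htL
    rw [integrable_map_measure (il_cast x).aestronglyMeasurable measurable_ht.aemeasurable]
    exact int_pr h h0 h1 (x 0)

theorem int_of_invLaw {μ : Measure (Height 1)} (h : InvLaw μ) (x : ℤ) :
    Integrable (fun η : ℤ → ℤ => (η x : ℝ)) (μ.map incr) := by
  have hm : Measurable (fun η : ℤ → ℤ => (η x : ℝ)) :=
    (measurable_of_countable (fun z : ℤ => (z : ℝ))).comp (measurable_pi_apply x)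
  rw [integrable_map_measure hm.aestronglyMeasurable il_incr.aemeasurable]
  have e : ((fun η : ℤ → ℤ => (η x : ℝ)) ∘ incr) =
      fun g : Height 1 => (g (pt (x + 1)) : ℝ) - (g (pt x) : ℝ) := by
    funext g
    show ((g (pt (x + 1)) - g (pt x) : ℤ) : ℝ) = _
    rw [Int.cast_sub]
  rw [e]
  exact (h.int _).sub (h.int _)

end Pool.MP4bb68cEx
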