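import Mathlib
import Pool.Agent.Work.MP_4bb68c_ex.Defs
import Pool.Agent.Work.MP_4bb68c_ex.Defs3
import Pool.Agent.Work.MP_4bb68c_ex.SysB
import Pool.Agent.Work.MP_4bb68c_ex.Proj
import Pool.Agent.Work.MP_4bb68c_ex.GenB
import Pool.Agent.Work.MP_4bb68c_ex.InvL
import Pool.Agent.Work.MP_4bb68c_ex.ExtSh
import Pool.Agent.Work.MP_4bb68c_cl.Fin
import Pool.Agent.Work.MP_4bb68c_cl.FamB
import Pool.Agent.Work.MP_4bb68c_cl.FamC
import Pool.Agent.Work.MP_4bb68c_cl.Fm

/-!
# Extremal stationary laws with integrable increments are the `mu v` (module FinA, size M)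

Let `ν = htL π`, `ν.map incr = π`. By `ext_shift` and `invLaw_of_shift`, `InvLaw ν`. By `fin_decomp` there is a
unique `κ` (probability measure on `ℝ`, `κ JJᶜ = 0`, integrable) with `ν = κ.bind mu`.
CLAIM: `κ (Iic q) ∈ {0, 1}` for every real `q`. Suppose `0 < p = κ (Iic q) < 1`. Let
`κ' = p⁻¹ • κ.restrict (Iic q)`, a probability measure with `κ' JJᶜ = 0`, integrable identity. By
`mixture`, `InvLaw (κ'.bind mu)`; so `α = (κ'.bind mu).map incr` is a stationary probability measure
(`genA`), and `κ'.bind mu ≤ p⁻¹ • (κ.bind mu) = p⁻¹ • ν` (`measurable_mu isClosed_JJ.measurableSet`,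
`Measure.bind_apply`), so `α ≤ p⁻¹ • π`. By extremality `α = π`, so (`stat_iff` for the stationary law
`κ'.bind mu`) `κ'.bind mu = htL α = htL π = ν = κ.bind mu`. By uniqueness in `fin_decomp` (or
`decomp_unique`: `(κ.bind mu).map lam = κ`) `κ' = κ`, but `κ' (Iic q) = 1 ≠ p`. Contradiction.
So the distribution function of `κ` takes only the values `0, 1`: `κ = Measure.dirac v` for some `v`
(for example `v = sInf {q | κ (Iic q) = 1}`; right continuity; or: the mean `v` of `κ`:
the function `id` is `κ`-a.e. constant because `κ {x ≤ q} ∈ {0, 1}` for all rational `q`), `v ∈ JJ` because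
`κ JJᶜ = 0`, and `ν = (dirac v).bind mu = mu v`. So `π = (mu v).map incr`.
-/

set_option autoImplicit false

open MeasureTheory ProbabilityTheory Filter Topology
open scoped NNReal ENNReal

namespace Pool.MP4bb68cEx

open Pool.MP4bb68c Pool.MP4bb68cOne Pool.MP4bb68cCl

private theorem fa_incr : Measurable incr := by
  rw [measurable_pi_iff]
  intro x
  exact (measurable_pi_apply _).sub (measurable_pi_apply _)

private theorem fa_mu : Measurable mu := measurable_mu isClosed_JJ.measurableSet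

/-- the mixing measure takes only the values zero and one -/
private theorem fa_zo {π : Measure (ℤ → ℤ)} (h : ExtI π) {κ : Measure ℝ}
    (hκ : IsProbabilityMeasure κ) (hJ : κ JJᶜ = 0) (hi : Integrable (fun v : ℝ => v) κ)
    (he : htL π = κ.bind mu) {S : Set ℝ} (hS : MeasurableSet S) : κ S = 0 ∨ κ S = 1 := by
  by_contra hcon
  rw [not_or] at hcon
  obtain ⟨hp0, hp1⟩ := hcon
  have hcp : IsProbabilityMeasure (cond κ S) := cond_isProbabilityMeasure hp0
  have hcJ : (cond κ S) JJᶜ = 0 := cond_absolutelyContinuous hJ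
  have hdef : cond κ S = (κ S)⁻¹ • κ.restrict S := rfl
  have hinvt : (κ S)⁻¹ ≠ ∞ := ENNReal.inv_ne_top.2 hp0
  have hci : Integrable (fun v : ℝ => v) (cond κ S) := by
    rw [hdef]
    exact hi.restrict.smul_measure hinvt
  have hL : InvLaw ((cond κ S).bind mu) := mixture isClosed_JJ.measurableSet hcJ hci
  have hLp : IsProbabilityMeasure ((cond κ S).bind mu) := hL.prob
  have hle : (cond κ S).bind mu ≤ (κ S)⁻¹ • (κ.bind mu) := by
    rw [Measure.le_iff]
    intro A hA
    rw [Measure.smul_apply, Measure.bind_apply hA fa_mu.aemeasurable,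
      Measure.bind_apply hA fa_mu.aemeasurable, hdef, lintegral_smul_measure]
    exact mul_le_mul' le_rfl (setLIntegral_le_lintegral _ _)
  have hαp : IsProbabilityMeasure (((cond κ S).bind mu).map incr) :=
    Measure.isProbabilityMeasure_map fa_incr.aemeasurable
  have hα : ((cond κ S).bind mu).map incr = π := by
    refine h.2.2 _ hαp (genA hL.stat) _ hinvt ?_
    have h4 := Measure.map_mono hle fa_incr
    rw [Measure.map_smul, ← he, map_incr_htL] at h4
    exact h4
  have h5 : (cond κ S).bind mu = κ.bind mu := by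
    rw [(stat_iff.1 hL.stat).2, hα, he]
  have h6 : cond κ S = κ := by
    have h7 := decomp_unique isClosed_JJ.measurableSet (κ := cond κ S) hcJ
    have h8 := decomp_unique isClosed_JJ.measurableSet (κ := κ) hJ
    rw [← h7, h5, h8]
  have h9 : κ Sᶜ = 0 := by
    have h10 : (cond κ S) Sᶜ = 0 := by
      rw [hdef, Measure.smul_apply, Measure.restrict_apply hS.compl, Set.compl_inter_self,
        measure_empty, smul_zero]
    rwa [h6] at h10
  exact hp1 ((prob_compl_eq_zero_iff hS).1 h9)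

theorem ext_mu {π : Measure (ℤ → ℤ)} (h : ExtI π)
    (h0 : Integrable (fun η : ℤ → ℤ => (η 0 : ℝ)) π)
    (h1 : Integrable (fun η : ℤ → ℤ => (η (-1) : ℝ)) π) :
    ∃ v ∈ JJ, π = (mu v).map incr := by
  have hπ : IsProbabilityMeasure π := h.1
  have hs : π.map (tra 1) = π := ext_shift h h0 h1
  obtain ⟨κ, ⟨hκ, hJ, hi, he⟩, -⟩ := fin_decomp (invLaw_of_shift h.2.1 h0 h1 hs)
  have hlt : ∀ S : Set ℝ, MeasurableSet S → ∫ x, x ∂κ ∉ S →
      (∀ x ∈ S, x ≤ ∫ x, x ∂κ) ∨ (∀ x ∈ S, ∫ x, x ∂κ ≤ x) → κ S = 0 := by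
    intro S hS hv hc
    rcases fa_zo h hκ hJ hi he hS with h2 | h2
    · exact h2
    exfalso
    have hae : ∀ᵐ x ∂κ, x ∈ S := by
      rw [ae_iff]
      exact (prob_compl_eq_zero_iff hS).2 h2
    have hint : ∫ x, (x - ∫ x, x ∂κ) ∂κ = 0 := by
      rw [integral_sub hi (integrable_const _), integral_const]
      simp
    have hint' : ∫ x, ((∫ x, x ∂κ) - x) ∂κ = 0 := by
      rw [integral_sub (integrable_const _) hi, integral_const]
      simp
    have hfin : ∀ᵐ x ∂κ, x = ∫ x, x ∂κ := by
      rcases hc with hc | hc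
      · have h3 : 0 ≤ᵐ[κ] fun x => (∫ x, x ∂κ) - x := by
          filter_upwards [hae] with x hx
          have := hc x hx
          show (0 : ℝ) ≤ (∫ x, x ∂κ) - x
          linarith
        rw [integral_eq_zero_iff_of_nonneg_ae h3 ((integrable_const _).sub hi)] at hint'
        filter_upwards [hint'] with x hx
        have : (∫ x, x ∂κ) - x = 0 := hx
        linarith
      · have h3 : 0 ≤ᵐ[κ] fun x => x - ∫ x, x ∂κ := by
          filter_upwards [hae] with x hx
          have := hc x hx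
          show (0 : ℝ) ≤ x - ∫ x, x ∂κ
          linarith
        rw [integral_eq_zero_iff_of_nonneg_ae h3 (hi.sub (integrable_const _))] at hint
        filter_upwards [hint] with x hx
        have : x - ∫ x, x ∂κ = 0 := hx
        linarith
    have hfalse : ∀ᵐ x ∂κ, False := by
      filter_upwards [hae, hfin] with x h3 h4
      rw [h4] at h3
      exact hv h3
    rw [ae_iff] at hfalse
    simp at hfalse
  have ha := hlt (Set.Iio (∫ x, x ∂κ)) measurableSet_Iio Set.self_notMem_Iio
    (Or.inl fun x hx => le_of_lt hx)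
  have hb := hlt (Set.Ioi (∫ x, x ∂κ)) measurableSet_Ioi Set.self_notMem_Ioi
    (Or.inr fun x hx => le_of_lt hx)
  have hae : ∀ᵐ x ∂κ, x = ∫ x, x ∂κ := by
    have h2 : ∀ᵐ x ∂κ, x ∉ Set.Iio (∫ x, x ∂κ) := measure_eq_zero_iff_ae_notMem.1 ha
    have h3 : ∀ᵐ x ∂κ, x ∉ Set.Ioi (∫ x, x ∂κ) := measure_eq_zero_iff_ae_notMem.1 hb
    filter_upwards [h2, h3] with x h4 h5
    exact le_antisymm (not_lt.1 h5) (not_lt.1 h4)
  have hv : ∫ x, x ∂κ ∈ JJ := by
    by_contra hn
    have h2 : ∀ᵐ x ∂κ, x ∉ JJᶜ := measure_eq_zero_iff_ae_notMem.1 hJ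
    have hfalse : ∀ᵐ x ∂κ, False := by
      filter_upwards [h2, hae] with x h3 h4
      rw [h4] at h3
      exact h3 hn
    rw [ae_iff] at hfalse
    simp at hfalse
  refine ⟨_, hv, ?_⟩
  have h2 : htL π = mu (∫ x, x ∂κ) := by
    rw [he]
    ext A hA
    rw [Measure.bind_apply hA fa_mu.aemeasurable]
    have h3 : ∫⁻ x, mu x A ∂κ = ∫⁻ _x, mu (∫ x, x ∂κ) A ∂κ := by
      refine lintegral_congr_ae ?_
      filter_upwards [hae] with x hx
      rw [← hx]
    rw [h3, lintegral_const, measure_univ, mul_one]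
  rw [← h2, map_incr_htL]

end Pool.MP4bb68cEx
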