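import Mathlib
import Pool.Agent.Work.MP_4bb68c_ex.Defs

/-!
# Ergodic decomposition: the operator of a Markov kernel on L2 (module ErgA, size M)

`K` is a Markov kernel on `X` and `ν` is an invariant probability measure.

PROOF. For `f` in `Lp ℝ 2 ν` take its strongly measurable representative; `f^2` is `ν`-integrable, and
`ν = ν.bind K`, so (`Measure.lintegral_bind`, `integrable` with respect to a bind) for `ν`-almost every `x` the
function `f` is in `L2 (K x)`, `(∫ f dK x)^2 ≤ ∫ f^2 dK x` (Cauchy-Schwarz / Jensen for the probability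
measure `K x`) and `∫ (∫ f^2 dK x) dν = ∫ f^2 dν`. The function `x ↦ ∫ y, f y ∂(K x)` is strongly measurable
(`MeasureTheory.StronglyMeasurable.integral_kernel` or similar), so it is in `L2 ν` with norm at most
that of `f`. It does not depend on the representative: if `f = f'` `ν`-a.e. then for `ν`-a.e. `x`,
`f = f'` `K x`-a.e. (`Measure.ae_of_ae_bind` or `ae_ae_of_ae_bind` style lemma: the null set `N` has
`∫ K x N dν = ν N = 0`). Linearity: for `ν`-a.e. `x` both functions are `K x`-integrable. Define the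
operator with `LinearMap.mkContinuous` and the constant `1`.
-/

set_option autoImplicit false

open MeasureTheory ProbabilityTheory Filter Topology
open scoped NNReal ENNReal

namespace Pool.MP4bb68cEx

open Pool.MP4bb68c Pool.MP4bb68cOne Pool.MP4bb68cCl

private theorem L2_eq {X : Type*} [MeasurableSpace X] (μ : Measure X) (f : X → ℝ) :
    eLpNorm f 2 μ = (∫⁻ x, ‖f x‖ₑ ^ (2 : ℝ) ∂μ) ^ (1 / 2 : ℝ) := by
  rw [eLpNorm_eq_lintegral_rpow_enorm_toReal two_ne_zero ENNReal.ofNat_ne_top,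
    ENNReal.toReal_ofNat]

private theorem jensen {X : Type*} [MeasurableSpace X] (μ : Measure X) [IsProbabilityMeasure μ]
    {f : X → ℝ} (hf : AEStronglyMeasurable f μ) :
    ‖∫ y, f y ∂μ‖ₑ ^ (2 : ℝ) ≤ ∫⁻ y, ‖f y‖ₑ ^ (2 : ℝ) ∂μ := by
  have h1 : ‖∫ y, f y ∂μ‖ₑ ≤ eLpNorm f 1 μ := by
    rw [eLpNorm_one_eq_lintegral_enorm]
    exact enorm_integral_le_lintegral_enorm f
  have h2 : eLpNorm f 1 μ ≤ eLpNorm f 2 μ :=
    eLpNorm_le_eLpNorm_of_exponent_le (by norm_num) hf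
  rw [L2_eq] at h2
  calc ‖∫ y, f y ∂μ‖ₑ ^ (2 : ℝ) ≤ ((∫⁻ x, ‖f x‖ₑ ^ (2 : ℝ) ∂μ) ^ (1 / 2 : ℝ)) ^ (2 : ℝ) :=
        ENNReal.rpow_le_rpow (h1.trans h2) (by norm_num)
    _ = ∫⁻ y, ‖f y‖ₑ ^ (2 : ℝ) ∂μ := by
      rw [← ENNReal.rpow_mul]
      norm_num

theorem exists_op {X : Type*} [MeasurableSpace X] (ν : Measure X) [IsProbabilityMeasure ν]
    (K : Kernel X X) [IsMarkovKernel K] (h : ν.bind K = ν) :
    ∃ T : Lp ℝ 2 ν →L[ℝ] Lp ℝ 2 ν, ‖T‖ ≤ 1 ∧
      ∀ f : Lp ℝ 2 ν, (T f : X → ℝ) =ᵐ[ν] fun x => ∫ y, f y ∂(K x) := by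
  have hK : Measurable (fun x => K x) := K.measurable
  have hmeas : ∀ f : X → ℝ, StronglyMeasurable f →
      ∫⁻ y, ‖f y‖ₑ ^ (2 : ℝ) ∂ν = ∫⁻ x, ∫⁻ y, ‖f y‖ₑ ^ (2 : ℝ) ∂(K x) ∂ν := by
    intro f hf
    have h1 := Measure.lintegral_bind (m := ν) (μ := fun x => K x) hK.aemeasurable
      (f := fun y => ‖f y‖ₑ ^ (2 : ℝ)) (hf.enorm.pow_const 2).aemeasurable
    rw [← h1]
    have h2 : ν.bind (fun x => K x) = ν := h
    rw [h2]
  have hle : ∀ f : X → ℝ, StronglyMeasurable f →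
      eLpNorm (fun x => ∫ y, f y ∂(K x)) 2 ν ≤ eLpNorm f 2 ν := by
    intro f hf
    rw [L2_eq, L2_eq]
    refine ENNReal.rpow_le_rpow ?_ (by norm_num)
    rw [hmeas f hf]
    exact lintegral_mono fun x => jensen (K x) hf.aestronglyMeasurable
  have hint : ∀ f : X → ℝ, StronglyMeasurable f → eLpNorm f 2 ν < ∞ →
      ∀ᵐ x ∂ν, Integrable f (K x) := by
    intro f hf hm
    have h1 : ∫⁻ y, ‖f y‖ₑ ^ (2 : ℝ) ∂ν ≠ ∞ := by
      intro h2
      rw [L2_eq, h2, ENNReal.top_rpow_of_pos (by norm_num)] at hm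
      exact lt_irrefl _ hm
    rw [hmeas f hf] at h1
    have h2 : Measurable fun x => ∫⁻ y, ‖f y‖ₑ ^ (2 : ℝ) ∂(K x) :=
      (hf.enorm.pow_const 2).lintegral_kernel
    filter_upwards [ae_lt_top h2 h1] with x hx
    have h3 : MemLp f 2 (K x) := ⟨hf.aestronglyMeasurable, by
      rw [L2_eq]
      exact ENNReal.rpow_lt_top_of_nonneg (by norm_num) hx.ne⟩
    exact h3.integrable (by norm_num)
  have hcongr : ∀ f g : X → ℝ, f =ᵐ[ν] g →
      ∀ᵐ x ∂ν, ∫ y, f y ∂(K x) = ∫ y, g y ∂(K x) := by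
    intro f g hfg
    have h1 : ∀ᵐ y ∂(ν.bind (fun x => K x)), f y = g y := by
      have h2 : ν.bind (fun x => K x) = ν := h
      rw [h2]
      exact hfg
    filter_upwards [Measure.ae_ae_of_ae_bind hK.aemeasurable h1] with x hx
    exact integral_congr_ae hx
  have hmem : ∀ f : Lp ℝ 2 ν, MemLp (fun x => ∫ y, f y ∂(K x)) 2 ν := fun f =>
    ⟨(Lp.stronglyMeasurable f).integral_kernel.aestronglyMeasurable,
      (hle f (Lp.stronglyMeasurable f)).trans_lt (Lp.eLpNorm_lt_top f)⟩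
  obtain ⟨T0, hT0⟩ : ∃ T0 : Lp ℝ 2 ν →ₗ[ℝ] Lp ℝ 2 ν, ∀ f, T0 f = (hmem f).toLp _ := by
    refine ⟨⟨⟨fun f => (hmem f).toLp _, fun f g => ?_⟩, fun c f => ?_⟩, fun f => rfl⟩
    · rw [← MemLp.toLp_add, MemLp.toLp_eq_toLp_iff]
      filter_upwards [hcongr _ _ (Lp.coeFn_add f g),
        hint f (Lp.stronglyMeasurable f) (Lp.eLpNorm_lt_top f),
        hint g (Lp.stronglyMeasurable g) (Lp.eLpNorm_lt_top g)] with x h1 h2 h3
      rw [h1]
      exact integral_add h2 h3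
    · change (hmem (c • f)).toLp _ = c • (hmem f).toLp _
      rw [← MemLp.toLp_const_smul, MemLp.toLp_eq_toLp_iff]
      filter_upwards [hcongr _ _ (Lp.coeFn_smul c f)] with x h1
      rw [h1]
      exact integral_smul c _
  refine ⟨T0.mkContinuous 1 fun f => ?_, T0.mkContinuous_norm_le zero_le_one _, fun f => ?_⟩
  · rw [hT0, Lp.norm_toLp, one_mul, Lp.norm_def]
    exact ENNReal.toReal_mono (Lp.eLpNorm_lt_top f).ne (hle f (Lp.stronglyMeasurable f))
  · rw [LinearMap.mkContinuous_apply, hT0]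
    exact (hmem f).coeFn_toLp

end Pool.MP4bb68cEx
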