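import Mathlib
import Pool.Agent.Work.MP_4bb68c_ex.Defs
import Pool.Agent.Work.MP_4bb68c_ex.ErgA

/-!
# Ergodic decomposition: the mean ergodic theorem for a Markov kernel (module ErgB, size M-L)

`kit K k f` is the `k`-fold application of the kernel to `f`.

PROOF of `mean_erg`. Let `T` be the operator of `exists_op` and `F` the class of `f` in `L2 ν` (bounded
measurable). By von Neumann's mean ergodic theorem
(`ContinuousLinearMap.tendsto_birkhoffAverage_orthogonalProjection`, for a contraction of a Hilbert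
space) the averages `(1/N) ∑ k < N, T^k F` converge in `L2` to the orthogonal projection `G` of `F` on the
fixed space, `T G = G`. By induction `(T^k F : X → ℝ) =ᵐ[ν] kit K k f` (if `u = v` `ν`-a.e. then
`∫ u dK x = ∫ v dK x` for `ν`-a.e. `x`). `L2` convergence implies `L1` convergence (`ν` is a probability
measure), and the sequence `N + 1` instead of `N` is a subsequence. All `|kit K k f| ≤ 1`, so `|G| ≤ 1` a.e.
(a subsequence converges a.e.); let `g` be a measurable function with values in `[-1, 1]`, equal to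
`G` a.e. (truncate a measurable representative).
Invariance: `∫ (∫ (g y - g x)^2 K x (dy)) ν (dx) = ∫ g^2 dν + ∫ g^2 dν - 2 ∫ g (x) (∫ g dK x) ν (dx)`
(`ν.bind K = ν` for the first term) `= 2 ∫ g^2 - 2 ∫ g^2 = 0`, because `∫ g dK x = g x` for `ν`-a.e. `x`
(`T G = G`). A nonnegative function with zero integral is zero a.e., twice.
-/

set_option autoImplicit false

open MeasureTheory ProbabilityTheory Filter Topology
open scoped NNReal ENNReal

namespace Pool.MP4bb68cEx

open Pool.MP4bb68c Pool.MP4bb68cOne Pool.MP4bb68cCl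

/-- The `k`-fold application of a kernel to a function. -/
noncomputable def kit {X : Type*} [MeasurableSpace X] (K : Kernel X X) :
    ℕ → (X → ℝ) → X → ℝ
  | 0, f => f
  | k + 1, f => fun x => ∫ y, kit K k f y ∂(K x)

theorem measurable_kit {X : Type*} [MeasurableSpace X] (K : Kernel X X) [IsMarkovKernel K] (k : ℕ)
    {f : X → ℝ} (hf : Measurable f) : Measurable (kit K k f) := by
  induction k with
  | zero => exact hf
  | succ k ih => exact (ih.stronglyMeasurable.integral_kernel (κ := K)).measurable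

theorem kit_abs_le {X : Type*} [MeasurableSpace X] (K : Kernel X X) [IsMarkovKernel K] (k : ℕ)
    {f : X → ℝ} (hb : ∀ x, |f x| ≤ 1) (x : X) : |kit K k f x| ≤ 1 := by
  induction k generalizing x with
  | zero => exact hb x
  | succ k ih =>
    have h1 := norm_integral_le_of_norm_le_const (μ := K x) (f := kit K k f) (C := 1)
      (Eventually.of_forall fun y => by rw [Real.norm_eq_abs]; exact ih y)
    rw [Real.norm_eq_abs] at h1
    have h2 : |∫ y, kit K k f y ∂(K x)| ≤ 1 := by simpa using h1
    exact h2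

private theorem int_bind {X : Type*} [MeasurableSpace X] {K : Kernel X X} [IsMarkovKernel K]
    {α : Measure X} [IsProbabilityMeasure α] (h : α.bind K = α) {f : X → ℝ}
    (hf : Integrable f α) : ∫ x, (∫ y, f y ∂(K x)) ∂α = ∫ x, f x ∂α := by
  have h1 : Integrable f (α.bind K) := by rwa [h]
  have h2 := h1
  rw [Measure.comp_eq_comp_const_apply] at h2
  have h3 := Kernel.integral_comp h2
  rw [← Measure.comp_eq_comp_const_apply, h] at h3
  rw [h3]
  simp

private theorem integrable_bdd {X : Type*} [MeasurableSpace X] {α : Measure X}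
    [IsProbabilityMeasure α] {f : X → ℝ} (hf : Measurable f) (hb : ∀ x, |f x| ≤ 1) :
    Integrable f α :=
  Integrable.of_bound hf.aestronglyMeasurable 1 (Eventually.of_forall fun x => by
    rw [Real.norm_eq_abs]; exact hb x)

theorem integral_kit {X : Type*} [MeasurableSpace X] {K : Kernel X X} [IsMarkovKernel K]
    {α : Measure X} [IsProbabilityMeasure α] (h : α.bind K = α) (k : ℕ) {f : X → ℝ}
    (hf : Measurable f) (hb : ∀ x, |f x| ≤ 1) : ∫ x, kit K k f x ∂α = ∫ x, f x ∂α := by
  induction k with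
  | zero => rfl
  | succ k ih =>
    rw [← ih]
    exact int_bind h (integrable_bdd (measurable_kit K k hf) (kit_abs_le K k hb))

private theorem ae_bind {X : Type*} [MeasurableSpace X] {K : Kernel X X} [IsMarkovKernel K]
    {α : Measure X} (h : α.bind K = α) {p : X → Prop} (hp : ∀ᵐ x ∂α, p x) :
    ∀ᵐ x ∂α, ∀ᵐ y ∂(K x), p y := by
  rw [← h] at hp
  exact Measure.ae_ae_of_ae_comp hp

private theorem invar {X : Type*} [MeasurableSpace X] {ν : Measure X} [IsProbabilityMeasure ν]
    {K : Kernel X X} [IsMarkovKernel K] (h : ν.bind K = ν) {G : X → ℝ} (hG : MemLp G 2 ν)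
    (hGK : ∀ᵐ x ∂ν, ∫ y, G y ∂(K x) = G x) : ∀ᵐ x ∂ν, ∀ᵐ y ∂(K x), G y = G x := by
  have hsq : Integrable (fun x => G x ^ 2) ν := hG.integrable_sq
  have h1 : Integrable G ν := hG.integrable (by norm_num)
  have hsqK : ∀ᵐ x ∂ν, Integrable (fun y => G y ^ 2) (K x) := by
    have : Integrable (fun x => G x ^ 2) (ν.bind K) := by rwa [h]
    exact Measure.ae_integrable_of_integrable_comp this
  have h1K : ∀ᵐ x ∂ν, Integrable G (K x) := by
    have : Integrable G (ν.bind K) := by rwa [h]
    exact Measure.ae_integrable_of_integrable_comp this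
  have hI2 : Integrable (fun x => ∫ y, G y ^ 2 ∂(K x)) ν := by
    have : Integrable (fun x => G x ^ 2) (ν.bind K) := by rwa [h]
    have h3 := Measure.integrable_integral_norm_of_integrable_comp this
    refine h3.congr (Eventually.of_forall fun x => ?_)
    refine integral_congr_ae (Eventually.of_forall fun y => ?_)
    simp
  have hpt : ∀ᵐ x ∂ν, Integrable (fun y => (G y - G x) ^ 2) (K x) ∧
      ∫ y, (G y - G x) ^ 2 ∂(K x) = (∫ y, G y ^ 2 ∂(K x)) - G x ^ 2 := by
    filter_upwards [hsqK, h1K, hGK] with x hx1 hx2 hx3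
    have e : (fun y => (G y - G x) ^ 2) = fun y => (G y ^ 2 - (2 * G x) * G y) + G x ^ 2 := by
      funext y
      ring
    rw [e]
    have i1 : Integrable (fun y => G y ^ 2 - (2 * G x) * G y) (K x) := hx1.sub (hx2.const_mul _)
    refine ⟨i1.add (integrable_const _), ?_⟩
    rw [integral_add i1 (integrable_const _), integral_sub hx1 (hx2.const_mul _),
      integral_const_mul, hx3]
    simp
    ring
  have hI : Integrable (fun x => ∫ y, (G y - G x) ^ 2 ∂(K x)) ν := by
    refine (hI2.sub hsq).congr ?_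
    filter_upwards [hpt] with x hx
    exact hx.2.symm
  have hzero : ∫ x, (∫ y, (G y - G x) ^ 2 ∂(K x)) ∂ν = 0 := by
    rw [integral_congr_ae (hpt.mono fun x hx => hx.2), integral_sub hI2 hsq, int_bind h hsq, sub_self]
  have hnn : 0 ≤ᵐ[ν] fun x => ∫ y, (G y - G x) ^ 2 ∂(K x) :=
    Eventually.of_forall fun x => integral_nonneg fun y => sq_nonneg _
  have h4 := (integral_eq_zero_iff_of_nonneg_ae hnn hI).1 hzero
  filter_upwards [h4, hpt] with x hx1 hx2
  have h5 := (integral_eq_zero_iff_of_nonneg_ae (Eventually.of_forall fun y => sq_nonneg (G y - G x))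
    hx2.1).1 hx1
  filter_upwards [h5] with y hy
  have h6 : (G y - G x) ^ 2 = 0 := hy
  have h7 := pow_eq_zero_iff (two_ne_zero) |>.1 h6
  linarith

private theorem clip_le {a b : ℝ} (ha : |a| ≤ 1) : |a - max (-1) (min 1 b)| ≤ |a - b| := by
  rw [abs_le] at ha
  rcases le_total 1 b with h1 | h1
  · rw [min_eq_left h1, max_eq_right (by norm_num), abs_of_nonpos (by linarith), abs_of_nonpos (by linarith)]
    linarith
  · rw [min_eq_right h1]
    rcases le_total (-1) b with h2 | h2
    · rw [max_eq_right h2]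
    · rw [max_eq_left h2, abs_of_nonneg (by linarith), abs_of_nonneg (by linarith)]
      linarith

theorem mean_erg {X : Type*} [MeasurableSpace X] {ν : Measure X} [IsProbabilityMeasure ν]
    {K : Kernel X X} [IsMarkovKernel K] (h : ν.bind K = ν) {f : X → ℝ} (hf : Measurable f)
    (hb : ∀ x, |f x| ≤ 1) :
    ∃ g : X → ℝ, Measurable g ∧ (∀ x, |g x| ≤ 1) ∧ (∀ᵐ x ∂ν, ∀ᵐ y ∂(K x), g y = g x) ∧
      Tendsto (fun N : ℕ => ∫ x, |(1 / ((N : ℝ) + 1)) * ∑ k ∈ Finset.range (N + 1),
        kit K k f x - g x| ∂ν) atTop (𝓝 0) := by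
  obtain ⟨T, hT, hTf⟩ := exists_op ν K h
  have hmem : MemLp f 2 ν := MemLp.of_bound hf.aestronglyMeasurable 1
    (Eventually.of_forall fun x => by rw [Real.norm_eq_abs]; exact hb x)
  obtain ⟨F, hF⟩ : ∃ F : Lp ℝ 2 ν, F = hmem.toLp f := ⟨_, rfl⟩
  have hFf : (F : X → ℝ) =ᵐ[ν] f := by
    rw [hF]
    exact hmem.coeFn_toLp
  -- iterates
  have hit : ∀ k : ℕ, ((T^[k]) F : X → ℝ) =ᵐ[ν] kit K k f := by
    intro k
    induction k with
    | zero => exact hFf
    | succ k ih =>
      rw [Function.iterate_succ_apply']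
      refine (hTf _).trans ?_
      filter_upwards [ae_bind h ih] with x hx
      exact integral_congr_ae hx
  have hsum : ∀ n : ℕ, ((∑ k ∈ Finset.range n, (T^[k]) F : Lp ℝ 2 ν) : X → ℝ) =ᵐ[ν]
      fun x => ∑ k ∈ Finset.range n, kit K k f x := by
    intro n
    induction n with
    | zero =>
      simp only [Finset.range_zero, Finset.sum_empty]
      exact Lp.coeFn_zero _ _ _
    | succ n ih =>
      rw [Finset.sum_range_succ]
      refine (Lp.coeFn_add _ _).trans ?_
      filter_upwards [ih, hit n] with x hx1 hx2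
      rw [Pi.add_apply, hx1, hx2, Finset.sum_range_succ]
  -- limit
  obtain ⟨G, hG⟩ : ∃ G : Lp ℝ 2 ν, G =
    (((T : Lp ℝ 2 ν →L[ℝ] Lp ℝ 2 ν).eqLocus (1 : Lp ℝ 2 ν →L[ℝ] Lp ℝ 2 ν)).orthogonalProjectionOnto F : Lp ℝ 2 ν) := ⟨_, rfl⟩
  have hTG : T G = G := by
    have := ((T : Lp ℝ 2 ν →L[ℝ] Lp ℝ 2 ν).eqLocus
      (1 : Lp ℝ 2 ν →L[ℝ] Lp ℝ 2 ν)).orthogonalProjectionOnto F |>.2
    rw [← hG] at this
    exact this
  have hlim : Tendsto (birkhoffAverage ℝ T _root_.id · F) atTop (𝓝 G) := by
    rw [hG]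
    exact ContinuousLinearMap.tendsto_birkhoffAverage_orthogonalProjection T hT F
  have hGK : ∀ᵐ x ∂ν, ∫ y, G y ∂(K x) = G x := by
    have := hTf G
    rw [hTG] at this
    exact this.mono fun x hx => hx.symm
  have hinv := invar h (Lp.memLp G) hGK
  refine ⟨fun x => max (-1) (min 1 (G x)), ?_, ?_, ?_, ?_⟩
  · exact measurable_const.max (measurable_const.min (Lp.stronglyMeasurable G).measurable)
  · intro x
    rw [abs_le]
    exact ⟨le_max_left _ _, max_le (by norm_num) (min_le_left _ _)⟩
  · filter_upwards [hinv] with x hx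
    filter_upwards [hx] with y hy
    rw [hy]
  · have hn : Tendsto (fun N : ℕ => ‖birkhoffAverage ℝ T _root_.id (N + 1) F - G‖) atTop (𝓝 0) := by
      have h1 := (tendsto_iff_norm_sub_tendsto_zero.1 hlim).comp (tendsto_add_atTop_nat 1)
      exact h1
    refine squeeze_zero (fun N => integral_nonneg fun x => abs_nonneg _) (fun N => ?_) hn
    -- coercion of the average
    have hco : ((birkhoffAverage ℝ T _root_.id (N + 1) F - G : Lp ℝ 2 ν) : X → ℝ) =ᵐ[ν] fun x =>
        (1 / ((N : ℝ) + 1)) * ∑ k ∈ Finset.range (N + 1), kit K k f x - G x := by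
      refine (Lp.coeFn_sub _ _).trans ?_
      have h2 : ((birkhoffAverage ℝ T _root_.id (N + 1) F : Lp ℝ 2 ν) : X → ℝ) =ᵐ[ν] fun x =>
          (1 / ((N : ℝ) + 1)) * ∑ k ∈ Finset.range (N + 1), kit K k f x := by
        have e : birkhoffAverage ℝ T _root_.id (N + 1) F =
            (((N + 1 : ℕ) : ℝ)⁻¹) • ∑ k ∈ Finset.range (N + 1), (T^[k]) F := rfl
        rw [e]
        refine (Lp.coeFn_smul _ _).trans ?_
        filter_upwards [hsum (N + 1)] with x hx
        rw [Pi.smul_apply, hx, smul_eq_mul]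
        push_cast
        rw [one_div]
      filter_upwards [h2] with x hx
      rw [Pi.sub_apply, hx]
    have hL1 : ∫ x, |(birkhoffAverage ℝ T _root_.id (N + 1) F - G : Lp ℝ 2 ν) x| ∂ν ≤
        ‖birkhoffAverage ℝ T _root_.id (N + 1) F - G‖ := by
      generalize birkhoffAverage ℝ T _root_.id (N + 1) F - G = D
      have h1 : ∫ x, |D x| ∂ν = (eLpNorm D 1 ν).toReal := by
        rw [eLpNorm_one_eq_lintegral_enorm, ← integral_norm_eq_lintegral_enorm (Lp.aestronglyMeasurable D)]
        simp only [Real.norm_eq_abs]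
      rw [h1, Lp.norm_def]
      exact ENNReal.toReal_mono (Lp.eLpNorm_ne_top D)
        (eLpNorm_le_eLpNorm_of_exponent_le (by norm_num) (Lp.aestronglyMeasurable D))
    refine le_trans ?_ hL1
    have hbA : ∀ x, |(1 / ((N : ℝ) + 1)) * ∑ k ∈ Finset.range (N + 1), kit K k f x| ≤ 1 := by
      intro x
      rw [abs_mul, abs_of_pos (by positivity : (0:ℝ) < 1 / ((N : ℝ) + 1)), one_div,
        inv_mul_le_iff₀ (by positivity), mul_one]
      refine (Finset.abs_sum_le_sum_abs _ _).trans ?_
      refine (Finset.sum_le_sum fun k _ => kit_abs_le K k hb x).trans ?_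
      simp
    have hmA : Measurable fun x => (1 / ((N : ℝ) + 1)) * ∑ k ∈ Finset.range (N + 1), kit K k f x :=
      (Finset.measurable_sum _ fun k _ => measurable_kit K k hf).const_mul _
    have hintA := integrable_bdd (α := ν) hmA hbA
    have hintG : Integrable (G : X → ℝ) ν := (Lp.memLp G).integrable (by norm_num)
    have hmg : Measurable fun x => max (-1) (min 1 (G x)) :=
      measurable_const.max (measurable_const.min (Lp.stronglyMeasurable G).measurable)
    have hintg : Integrable (fun x => max (-1) (min 1 (G x))) ν := integrable_bdd hmg fun x => by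
      rw [abs_le]
      exact ⟨le_max_left _ _, max_le (by norm_num) (min_le_left _ _)⟩
    have e2 : ∫ x, |(birkhoffAverage ℝ T _root_.id (N + 1) F - G : Lp ℝ 2 ν) x| ∂ν =
        ∫ x, |(1 / ((N : ℝ) + 1)) * ∑ k ∈ Finset.range (N + 1), kit K k f x - G x| ∂ν := by
      refine integral_congr_ae ?_
      filter_upwards [hco] with x hx
      rw [hx]
    rw [e2]
    refine integral_mono (hintA.sub hintg).abs (hintA.sub hintG).abs fun x => ?_
    exact clip_le (hbA x)

end Pool.MP4bb68cEx
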