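import Mathlib
import Pool.Agent.Work.MP_4bb68c_ex.Defs

/-!
# Ergodic decomposition: one kernel for countably many (module ErgC, size S-M)

PROOF. `U = Kernel.sum (fun n => (1/2)^(n+1) • K n)` (weights in `ℝ≥0∞`; if scalar multiplication of kernels
is inconvenient: `Kernel.withDensity`, or define `U x = Measure.sum (fun n => (2⁻¹)^(n+1) • K n x)` and
prove measurability from `Measure.measurable_of_measurable_coe`, `Measure.sum_apply`,
`Measurable.ennreal_tsum`). `∑ (1/2)^(n+1) = 1` in `ℝ≥0∞` (`ENNReal.tsum_geometric_add_one` or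
`tsum_geometric_two` variants), so `U` is Markov. Invariance: for measurable `s`:
`(α.bind U) s = ∫⁻ ∑' n, (1/2)^(n+1) K n x s dα = ∑' n, (1/2)^(n+1) (α.bind (K n)) s = α s`
(`lintegral_tsum`). Domination: `(1/2)^(n+1) * K n x s ≤ U x s` (`ENNReal.le_tsum`).
-/

set_option autoImplicit false

open MeasureTheory ProbabilityTheory Filter Topology
open scoped NNReal ENNReal

namespace Pool.MP4bb68cEx

open Pool.MP4bb68c Pool.MP4bb68cOne Pool.MP4bb68cCl

theorem exists_mix {X : Type*} [MeasurableSpace X] (K : ℕ → Kernel X X)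
    (hK : ∀ n, IsMarkovKernel (K n)) : ∃ U : Kernel X X, IsMarkovKernel U ∧
      (∀ α : Measure X, IsProbabilityMeasure α → (∀ n, α.bind (K n) = α) → α.bind U = α) ∧
      ∀ (n : ℕ) (x : X), K n x ≤ (2 : ℝ≥0∞) ^ (n + 1) • U x := by
  have hsum : ∑' n : ℕ, ((2 : ℝ≥0∞)⁻¹) ^ (n + 1) = 1 := by
    rw [ENNReal.tsum_geometric_add_one, ENNReal.one_sub_inv_two, inv_inv]
    exact ENNReal.inv_mul_cancel (by norm_num) (by norm_num)
  have hmeas : ∀ s : Set X, MeasurableSet s →
      Measurable fun x => ∑' n : ℕ, ((2 : ℝ≥0∞)⁻¹) ^ (n + 1) * K n x s := by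
    intro s hs
    exact Measurable.ennreal_tsum fun n => ((K n).measurable_coe hs).const_mul _
  let m : X → Measure X := fun x => Measure.sum fun n : ℕ => ((2 : ℝ≥0∞)⁻¹) ^ (n + 1) • K n x
  have hm : ∀ (x : X) (s : Set X), MeasurableSet s →
      m x s = ∑' n : ℕ, ((2 : ℝ≥0∞)⁻¹) ^ (n + 1) * K n x s := by
    intro x s hs
    show (Measure.sum fun n : ℕ => ((2 : ℝ≥0∞)⁻¹) ^ (n + 1) • K n x) s = _
    rw [Measure.sum_apply _ hs]
    simp only [Measure.smul_apply, smul_eq_mul]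
  let U : Kernel X X :=
    { toFun := m
      measurable' := by
        refine Measure.measurable_of_measurable_coe _ fun s hs => ?_
        have h1 : (fun x => m x s) = fun x => ∑' n : ℕ, ((2 : ℝ≥0∞)⁻¹) ^ (n + 1) * K n x s := by
          funext x
          exact hm x s hs
        rw [h1]
        exact hmeas s hs }
  have hU : ∀ x, U x = m x := fun x => rfl
  have hUM : IsMarkovKernel U := by
    refine ⟨fun x => ⟨?_⟩⟩
    rw [hU, hm x _ MeasurableSet.univ]
    have h1 : ∀ n : ℕ, ((2 : ℝ≥0∞)⁻¹) ^ (n + 1) * K n x Set.univ = ((2 : ℝ≥0∞)⁻¹) ^ (n + 1) := by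
      intro n
      haveI := hK n
      rw [measure_univ, mul_one]
    simp only [h1]
    exact hsum
  refine ⟨U, hUM, ?_, ?_⟩
  · intro α hα h
    refine Measure.ext fun s hs => ?_
    rw [Measure.bind_apply hs U.measurable.aemeasurable]
    have h1 : ∀ x, U x s = ∑' n : ℕ, ((2 : ℝ≥0∞)⁻¹) ^ (n + 1) * K n x s := fun x => hm x s hs
    simp only [h1]
    rw [lintegral_tsum fun n => (((K n).measurable_coe hs).const_mul _).aemeasurable]
    have h2 : ∀ n : ℕ, ∫⁻ x, ((2 : ℝ≥0∞)⁻¹) ^ (n + 1) * K n x s ∂α =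
        ((2 : ℝ≥0∞)⁻¹) ^ (n + 1) * α s := by
      intro n
      rw [lintegral_const_mul _ ((K n).measurable_coe hs),
        ← Measure.bind_apply hs (K n).measurable.aemeasurable, h n]
    simp only [h2]
    rw [ENNReal.tsum_mul_right, hsum, one_mul]
  · intro n x
    refine Measure.le_iff.2 fun s hs => ?_
    rw [Measure.smul_apply, smul_eq_mul, hU, hm x s hs]
    have h1 : ((2 : ℝ≥0∞)⁻¹) ^ (n + 1) * K n x s ≤
        ∑' n : ℕ, ((2 : ℝ≥0∞)⁻¹) ^ (n + 1) * K n x s :=
      ENNReal.le_tsum n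
    have h2 : K n x s = (2 : ℝ≥0∞) ^ (n + 1) * (((2 : ℝ≥0∞)⁻¹) ^ (n + 1) * K n x s) := by
      rw [← mul_assoc, ← mul_pow, ENNReal.mul_inv_cancel (by norm_num) (by norm_num), one_pow,
        one_mul]
    calc K n x s = (2 : ℝ≥0∞) ^ (n + 1) * (((2 : ℝ≥0∞)⁻¹) ^ (n + 1) * K n x s) := h2
      _ ≤ _ := by gcongr

end Pool.MP4bb68cEx
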