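import Mathlib
import Pool.Agent.Work.MP_4bb68c_ex.Defs

/-!
# Ergodic decomposition: disintegration over invariant functions (module ErgD, size M)

`Λ x = fun j => g j x`, measurable; `ρ = ν.map Λ`, `κ = condDistrib id Λ ν` (a Markov kernel from `ℕ → ℝ` to
`X`, `X` standard Borel).
(1) `ρ.bind κ = ν`: `condDistrib_comp_map` (as in `mix_bind`, MP_4bb68c_cl/MixA.lean).
(2) For `n` and `ρ`-almost every `l`: `(κ l).bind (K n) = κ l`. It is enough to show, for every set `C j`
of a countable pi-system generating the `σ`-algebra (hypotheses `hpi`, `hgen`; both measures are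
probability measures: `ext_of_generate_finite`), that
`∫ K n y (C j) κ l (dy) = κ l (C j)` for `ρ`-a.e. `l`; for this it is enough that for every measurable
`D ⊆ (ℕ → ℝ)`: `∫_{Λ ∈ D} K n x (C j) ν (dx) = ν (Λ⁻¹ D ∩ C j)` (both sides are the integrals over `D` of the
two functions of `l` against `ρ`, by the defining property of `condDistrib`; use
`ae_eq_of_forall_setLIntegral_eq_of_sigmaFinite` or the real version). By hypothesis, for `ν`-a.e. `x`,
`Λ y = Λ x` for `K n x`-a.e. `y` (countable intersection over `j`), so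
`1_{D}(Λ x) K n x (C j) = K n x (Λ⁻¹ D ∩ C j)` for `ν`-a.e. `x`, and the integral over `x` is
`(ν.bind (K n)) (Λ⁻¹ D ∩ C j) = ν (Λ⁻¹ D ∩ C j)`.
(3) For `ρ`-a.e. `l`: `Λ x = l` for `κ l`-a.e. `x`: the joint law of `(Λ, id)` under `ν` is
`ρ ⊗ₘ κ` (`compProd_map_condDistrib`), and it gives measure zero to the measurable set
`{(l, x) | Λ x ≠ l}`; `Measure.ae_compProd_iff` or `ae_ae_of_ae_compProd`.
-/

set_option autoImplicit false

open MeasureTheory ProbabilityTheory Filter Topology
open scoped NNReal ENNReal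

namespace Pool.MP4bb68cEx

open Pool.MP4bb68c Pool.MP4bb68cOne Pool.MP4bb68cCl

private theorem disX {X : Type} [MeasurableSpace X] [StandardBorelSpace X] [Nonempty X]
    {μ : Measure X} [IsProbabilityMeasure μ] {Λ : X → (ℕ → ℝ)} (hΛ : Measurable Λ)
    (S : Kernel X X) [IsMarkovKernel S] (hS : μ.bind S = μ)
    (h : ∀ᵐ x ∂μ, ∀ᵐ y ∂(S x), Λ y = Λ x) :
    ∀ᵐ v ∂(μ.map Λ), (condDistrib id Λ μ v).bind S = condDistrib id Λ μ v := by
  have : IsProbabilityMeasure (μ.map Λ) := Measure.isProbabilityMeasure_map hΛ.aemeasurable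
  have hd : (μ.map Λ) ⊗ₘ condDistrib id Λ μ = μ.map (fun x => (Λ x, x)) := by
    exact compProd_map_condDistrib (X := Λ) (Y := id) (μ := μ) aemeasurable_id
  have hpair : Measurable fun x : X => (Λ x, x) := hΛ.prodMk measurable_id
  have key : (μ.map Λ) ⊗ₘ (S ∘ₖ condDistrib id Λ μ) = (μ.map Λ) ⊗ₘ condDistrib id Λ μ := by
    refine Measure.ext_prod ?_
    intro B A hB hA
    have hSA : Measurable fun p : (ℕ → ℝ) × X => S p.2 A :=
      (S.measurable_coe hA).comp measurable_snd
    rw [Measure.compProd_apply_prod hB hA]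
    have e1 : ∀ v, (S ∘ₖ condDistrib id Λ μ) v A = ∫⁻ x, S x A ∂(condDistrib id Λ μ v) := by
      intro v
      rw [Kernel.comp_apply' _ _ _ hA]
    simp only [e1]
    have e2 : ∫⁻ v in B, ∫⁻ x, S x A ∂(condDistrib id Λ μ v) ∂(μ.map Λ)
        = ∫⁻ p in B ×ˢ Set.univ, S p.2 A ∂((μ.map Λ) ⊗ₘ condDistrib id Λ μ) := by
      rw [Measure.setLIntegral_compProd hSA hB MeasurableSet.univ]
      simp
    rw [e2, hd]
    have e3 : ∫⁻ p in B ×ˢ Set.univ, S p.2 A ∂(μ.map (fun x => (Λ x, x)))
        = ∫⁻ x in Λ ⁻¹' B, S x A ∂μ := by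
      rw [setLIntegral_map (hB.prod MeasurableSet.univ) hSA hpair]
      have : (fun x : X => (Λ x, x)) ⁻¹' (B ×ˢ Set.univ) = Λ ⁻¹' B := by
        ext x; simp
      rw [this]
    rw [e3, Measure.map_apply hpair (hB.prod hA)]
    have hBm : MeasurableSet (Λ ⁻¹' B) := hΛ hB
    have e4 : ∫⁻ x in Λ ⁻¹' B, S x A ∂μ = μ (Λ ⁻¹' B ∩ A) := by
      rw [← lintegral_indicator hBm]
      have e5 : μ (Λ ⁻¹' B ∩ A) = (μ.bind S) (Λ ⁻¹' B ∩ A) := by rw [hS]
      rw [e5, Measure.bind_apply (hBm.inter hA) S.measurable.aemeasurable]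
      refine lintegral_congr_ae ?_
      filter_upwards [h] with x hx
      by_cases hxB : Λ x ∈ B
      · have hxB' : x ∈ Λ ⁻¹' B := hxB
        rw [Set.indicator_of_mem hxB']
        refine measure_congr ?_
        filter_upwards [hx] with y hy
        have : (y ∈ A) = (y ∈ Λ ⁻¹' B ∩ A) := by
          simp only [Set.mem_inter_iff, Set.mem_preimage, hy, hxB, true_and]
        exact this
      · have hxB' : x ∉ Λ ⁻¹' B := hxB
        rw [Set.indicator_of_notMem hxB']
        symm
        refine measure_mono_null Set.inter_subset_left ?_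
        have h6 : ∀ᵐ y ∂(S x), y ∉ Λ ⁻¹' B := by
          filter_upwards [hx] with y hy
          simp only [Set.mem_preimage, hy]
          exact hxB
        exact measure_eq_zero_iff_ae_notMem.2 h6
    rw [e4]
    congr 1
  have := Kernel.ae_eq_of_compProd_eq key
  filter_upwards [this] with v hv
  rw [← Kernel.comp_apply, hv]

theorem disint {X : Type} [MeasurableSpace X] [StandardBorelSpace X] [Nonempty X] (C : ℕ → Set X)
    (hpi : IsPiSystem (Set.range C))
    (hgen : ‹MeasurableSpace X› = MeasurableSpace.generateFrom (Set.range C))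
    (K : ℕ → Kernel X X) (hK : ∀ n, IsMarkovKernel (K n)) {ν : Measure X}
    [IsProbabilityMeasure ν] (h : ∀ n, ν.bind (K n) = ν) (g : ℕ → X → ℝ)
    (hg : ∀ j, Measurable (g j)) (hinv : ∀ j n, ∀ᵐ x ∂ν, ∀ᵐ y ∂(K n x), g j y = g j x) :
    ∃ (ρ : Measure (ℕ → ℝ)) (κ : Kernel (ℕ → ℝ) X), IsProbabilityMeasure ρ ∧ IsMarkovKernel κ ∧
      ρ.bind κ = ν ∧ (∀ᵐ l ∂ρ, ∀ n, (κ l).bind (K n) = κ l) ∧
      ∀ᵐ l ∂ρ, ∀ᵐ x ∂(κ l), ∀ j, g j x = l j := by
  have hΛ : Measurable fun x : X => fun j => g j x := measurable_pi_iff.2 hg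
  haveI hP : IsProbabilityMeasure (ν.map fun x : X => fun j => g j x) :=
    Measure.isProbabilityMeasure_map hΛ.aemeasurable
  refine ⟨ν.map fun x : X => fun j => g j x, condDistrib id (fun x : X => fun j => g j x) ν,
    hP, inferInstance, ?_, ?_, ?_⟩
  · have h1 := condDistrib_comp_map (μ := ν) (X := fun x : X => fun j => g j x) (Y := id)
      hΛ.aemeasurable measurable_id.aemeasurable
    rw [Measure.map_id] at h1
    exact h1
  · refine ae_all_iff.2 fun n => ?_
    haveI := hK n
    refine disX hΛ (K n) (h n) ?_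
    have h2 : ∀ᵐ x ∂ν, ∀ j, ∀ᵐ y ∂(K n x), g j y = g j x := ae_all_iff.2 fun j => hinv j n
    filter_upwards [h2] with x hx
    filter_upwards [ae_all_iff.2 hx] with y hy
    funext j
    exact hy j
  · have h5 : (ν.map fun x : X => fun j => g j x) ⊗ₘ
        condDistrib id (fun x : X => fun j => g j x) ν =
        ν.map fun x => ((fun j => g j x), id x) :=
      compProd_map_condDistrib (X := fun x : X => fun j => g j x) (Y := id) (μ := ν)
        measurable_id.aemeasurable
    have hm : Measurable fun x : X => ((fun j => g j x : ℕ → ℝ), id x) :=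
      hΛ.prodMk measurable_id
    have hS : MeasurableSet {p : (ℕ → ℝ) × X | ∀ j, g j p.2 = p.1 j} := by
      have : {p : (ℕ → ℝ) × X | ∀ j, g j p.2 = p.1 j} =
          ⋂ j, {p : (ℕ → ℝ) × X | g j p.2 = p.1 j} := by
        ext p; simp
      rw [this]
      refine MeasurableSet.iInter fun j => ?_
      exact measurableSet_eq_fun ((hg j).comp measurable_snd)
        ((measurable_pi_apply j).comp measurable_fst)
    have h6 : ∀ᵐ p ∂((ν.map fun x : X => fun j => g j x) ⊗ₘ
        (condDistrib id (fun x : X => fun j => g j x) ν)), ∀ j, g j p.2 = p.1 j := by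
      rw [h5, ae_map_iff hm.aemeasurable hS]
      exact Eventually.of_forall fun x j => rfl
    exact Measure.ae_ae_of_ae_compProd h6

end Pool.MP4bb68cEx
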