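import Mathlib
import Pool.Agent.Work.MP_4bb68c_ex.Defs
import Pool.Agent.Work.MP_4bb68c_ex.ErgA
import Pool.Agent.Work.MP_4bb68c_ex.ErgB
import Pool.Agent.Work.MP_4bb68c_ex.ErgC
import Pool.Agent.Work.MP_4bb68c_ex.ErgD

/-!
# Ergodic decomposition for countably many Markov kernels (module ErgE, size M-L)

PROOF. Let `U` be the kernel of `exists_mix`; `ν.bind U = ν`. For each `j` let `f_j` be the indicator of `C j`
(measurable: `C j` is in the generating set) and `g_j` the function of `mean_erg` for `f_j` and `U`. Since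
`K n x ≤ 2^(n+1) • U x`, `g_j y = g_j x` for `K n x`-a.e. `y`, `ν`-a.e. `x`. Take `ρ, κ` from `disint`.
Write `A N f = (1/(N+1)) ∑ k ∈ range (N+1), kit U k f`. Choose a strictly increasing (or any) sequence
`N m` such that for all `j ≤ m`: `∫ |A (N m) f_j - g_j| dν ≤ 2^(-m)`. Then for every `j`,
`∑_m ∫ |A (N m) f_j - g_j| dν < ∞`; since `ν = ρ.bind κ`, for `ρ`-a.e. `l`:
`∑_m ∫ |A (N m) f_j - g_j| dκ l < ∞` (`lintegral` and `tsum` exchange), so
`∫ |A (N m) f_j - g_j| dκ l → 0` as `m → ∞`; this holds for all `j` simultaneously.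
Let `l` be good: also `(κ l).bind (K n) = κ l` for all `n` and `g_j = l j` `κ l`-a.e. for all `j`. Let `α` be a
probability measure with `α.bind (K n) = α` for all `n` and `α ≤ c • κ l`, `c ≠ ∞`. Then `α.bind U = α`,
so `∫ A N f_j dα = ∫ f_j dα = α.real (C j)` (`integral_kit`), and
`|α.real (C j) - l j| = |∫ (A (N m) f_j - l j) dα| ≤ ∫ |A (N m) f_j - g_j| dα ≤
c.toReal * ∫ |A (N m) f_j - g_j| dκ l → 0` (`g_j = l j` also `α`-a.e.). So `α.real (C j) = l j` for
all `j`; the same for `α = κ l` itself (`c = 1`). Hence `α = κ l` (pi-system, `ext_of_generate_finite`).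
-/

set_option autoImplicit false

open MeasureTheory ProbabilityTheory Filter Topology
open scoped NNReal ENNReal

namespace Pool.MP4bb68cEx

open Pool.MP4bb68c Pool.MP4bb68cOne Pool.MP4bb68cCl

/-- the averages -/
private noncomputable def Av {X : Type} [MeasurableSpace X] (U : Kernel X X) (f : X → ℝ) (N : ℕ) (x : X) : ℝ :=
  (1 / ((N : ℝ) + 1)) * ∑ k ∈ Finset.range (N + 1), kit U k f x

private theorem Av_meas {X : Type} [MeasurableSpace X] (U : Kernel X X) [IsMarkovKernel U] {f : X → ℝ}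
    (hf : Measurable f) (N : ℕ) : Measurable (Av U f N) :=
  (Finset.measurable_sum _ fun k _ => measurable_kit U k hf).const_mul _

private theorem Av_abs {X : Type} [MeasurableSpace X] (U : Kernel X X) [IsMarkovKernel U] {f : X → ℝ}
    (hb : ∀ x, |f x| ≤ 1) (N : ℕ) (x : X) : |Av U f N x| ≤ 1 := by
  unfold Av
  rw [abs_mul, abs_of_pos (by positivity : (0:ℝ) < 1 / ((N : ℝ) + 1)), one_div,
    inv_mul_le_iff₀ (by positivity), mul_one]
  refine (Finset.abs_sum_le_sum_abs _ _).trans ?_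
  refine (Finset.sum_le_sum fun k _ => kit_abs_le U k hb x).trans ?_
  simp

private theorem intb {X : Type} [MeasurableSpace X] {α : Measure X}
    [IsProbabilityMeasure α] {f : X → ℝ} (hf : Measurable f) (hb : ∀ x, |f x| ≤ 1) :
    Integrable f α :=
  Integrable.of_bound hf.aestronglyMeasurable 1 (Eventually.of_forall fun x => by
    rw [Real.norm_eq_abs]; exact hb x)

private theorem Av_int {X : Type} [MeasurableSpace X] {U : Kernel X X} [IsMarkovKernel U] {f : X → ℝ}
    {α : Measure X} [IsProbabilityMeasure α] (h : α.bind U = α) (hf : Measurable f)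
    (hb : ∀ x, |f x| ≤ 1) (N : ℕ) : ∫ x, Av U f N x ∂α = ∫ x, f x ∂α := by
  unfold Av
  rw [integral_const_mul, integral_finsetSum _ fun k _ => intb (measurable_kit U k hf) (kit_abs_le U k hb)]
  rw [Finset.sum_congr rfl fun k _ => integral_kit h k hf hb, Finset.sum_const, Finset.card_range,
    nsmul_eq_mul]
  push_cast
  field_simp

theorem erg_dec {X : Type} [MeasurableSpace X] [StandardBorelSpace X] [Nonempty X]
    (C : ℕ → Set X) (hpi : IsPiSystem (Set.range C))
    (hgen : ‹MeasurableSpace X› = MeasurableSpace.generateFrom (Set.range C))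
    (K : ℕ → Kernel X X) (hK : ∀ n, IsMarkovKernel (K n)) {ν : Measure X}
    [IsProbabilityMeasure ν] (h : ∀ n, ν.bind (K n) = ν) :
    ∃ (ρ : Measure (ℕ → ℝ)) (κ : Kernel (ℕ → ℝ) X), IsProbabilityMeasure ρ ∧ IsMarkovKernel κ ∧
      ρ.bind κ = ν ∧ ∀ᵐ l ∂ρ, (∀ n, (κ l).bind (K n) = κ l) ∧
        ∀ α : Measure X, IsProbabilityMeasure α → (∀ n, α.bind (K n) = α) →
          ∀ c : ℝ≥0∞, c ≠ ∞ → α ≤ c • κ l → α = κ l := by
  classical
  obtain ⟨U, hU, hUinv, hUdom⟩ := exists_mix K hK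
  have hνU : ν.bind U = ν := hUinv ν inferInstance h
  have hCm : ∀ j, MeasurableSet (C j) := fun j => by
    rw [hgen]
    exact MeasurableSpace.measurableSet_generateFrom ⟨j, rfl⟩
  obtain ⟨f, hfd⟩ : ∃ f : ℕ → X → ℝ, f = fun j => (C j).indicator fun _ => (1 : ℝ) := ⟨_, rfl⟩
  have hfm : ∀ j, Measurable (f j) := fun j => by
    rw [hfd]
    exact measurable_const.indicator (hCm j)
  have hfb : ∀ j x, |f j x| ≤ 1 := fun j x => by
    rw [hfd]
    by_cases hx : x ∈ C j
    · simp [Set.indicator_of_mem hx]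
    · simp [Set.indicator_of_notMem hx]
  have hfi : ∀ j (β : Measure X), ∫ x, f j x ∂β = β.real (C j) := fun j β => by
    rw [hfd]
    simp only
    rw [integral_indicator (hCm j)]
    simp
  choose g hgm hgb hginv hgt using fun j => mean_erg hνU (hfm j) (hfb j)
  have hginv' : ∀ j n, ∀ᵐ x ∂ν, ∀ᵐ y ∂(K n x), g j y = g j x := fun j n => by
    filter_upwards [hginv j] with x hx
    exact (Measure.absolutelyContinuous_of_le_smul (hUdom n x)).ae_le hx
  obtain ⟨ρ, κ, hρ, hκ, hbind, hkK, hkg⟩ := disint C hpi hgen K hK h g hgm hginv'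
  refine ⟨ρ, κ, hρ, hκ, hbind, ?_⟩
  -- the subsequence
  have hsub : ∀ m : ℕ, ∃ N : ℕ, ∀ j ∈ Finset.range (m + 1),
      ∫ x, |Av U (f j) N x - g j x| ∂ν ≤ (1 / 2) ^ m := by
    intro m
    have h1 : ∀ᶠ N : ℕ in atTop, ∀ j ∈ Finset.range (m + 1),
        ∫ x, |Av U (f j) N x - g j x| ∂ν ≤ (1 / 2) ^ m := by
      rw [Filter.eventually_all_finset]
      intro j _
      exact (hgt j).eventually_le_const (by positivity)
    exact h1.exists
  choose N hN using hsub
  obtain ⟨D, hD⟩ : ∃ D : ℕ → ℕ → X → ℝ, D = fun j m x => |Av U (f j) (N m) x - g j x| := ⟨_, rfl⟩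
  have hDm : ∀ j m, Measurable (D j m) := fun j m => by
    rw [hD]
    exact ((Av_meas U (hfm j) _).sub (hgm j)).abs
  have hDi : ∀ j m (β : Measure X) [IsProbabilityMeasure β], Integrable (D j m) β := fun j m β _ => by
    rw [hD]
    exact ((intb (Av_meas U (hfm j) _) (Av_abs U (hfb j) _)).sub (intb (hgm j) (hgb j))).abs
  have hD0 : ∀ j m x, 0 ≤ D j m x := fun j m x => by
    rw [hD]
    exact abs_nonneg _
  have hDof : ∀ j m (β : Measure X) [IsProbabilityMeasure β],
      ∫⁻ x, ENNReal.ofReal (D j m x) ∂β = ENNReal.ofReal (∫ x, D j m x ∂β) := fun j m β _ =>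
    (ofReal_integral_eq_lintegral_ofReal (hDi j m β) (Eventually.of_forall fun x => hD0 j m x)).symm
  have hfin : ∀ j, ∑' m, ∫⁻ x, ENNReal.ofReal (D j m x) ∂ν ≠ ∞ := by
    intro j
    have h1 : Summable fun m => ∫ x, D j m x ∂ν := by
      rw [← summable_nat_add_iff j]
      refine Summable.of_nonneg_of_le (fun m => integral_nonneg fun x => hD0 j _ x) (fun m => ?_)
        ((summable_nat_add_iff j).2 (summable_geometric_of_lt_one (by norm_num : (0:ℝ) ≤ 1 / 2) (by norm_num)))
      have h2 := hN (m + j) j (Finset.mem_range.2 (by omega))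
      rw [hD]
      exact h2
    have h2 := h1.tsum_ofReal_ne_top
    have h3 : ∀ m, ∫⁻ x, ENNReal.ofReal (D j m x) ∂ν = ENNReal.ofReal (∫ x, D j m x ∂ν) := fun m =>
      hDof j m ν
    simpa only [h3] using h2
  have hlim : ∀ᵐ l ∂ρ, ∀ j, Tendsto (fun m => ∫⁻ x, ENNReal.ofReal (D j m x) ∂(κ l)) atTop (𝓝 0) := by
    rw [ae_all_iff]
    intro j
    have h1 : ∀ m, ∫⁻ x, ENNReal.ofReal (D j m x) ∂ν =
        ∫⁻ l, ∫⁻ x, ENNReal.ofReal (D j m x) ∂(κ l) ∂ρ := by
      intro m
      conv_lhs => rw [← hbind]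
      rw [Measure.lintegral_bind κ.aemeasurable (hDm j m).ennreal_ofReal.aemeasurable]
    have hme : ∀ m, Measurable fun l => ∫⁻ x, ENNReal.ofReal (D j m x) ∂(κ l) := fun m =>
      (hDm j m).ennreal_ofReal.lintegral_kernel
    have h2 : ∫⁻ l, ∑' m, ∫⁻ x, ENNReal.ofReal (D j m x) ∂(κ l) ∂ρ ≠ ∞ := by
      rw [lintegral_tsum fun m => (hme m).aemeasurable]
      have h3 := hfin j
      simpa only [h1] using h3
    have h4 := ae_lt_top (Measurable.tsum hme) h2
    filter_upwards [h4] with l hl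
    exact ENNReal.tendsto_atTop_zero_of_tsum_ne_top hl.ne
  filter_upwards [hkK, hkg, hlim] with l hl1 hl2 hl3
  refine ⟨hl1, ?_⟩
  have key : ∀ β : Measure X, IsProbabilityMeasure β → (∀ n, β.bind (K n) = β) →
      ∀ c : ℝ≥0∞, c ≠ ∞ → β ≤ c • κ l → ∀ j, β.real (C j) = l j := by
    intro β hβ hβK c hc hβc j
    have hβU : β.bind U = β := hUinv β hβ hβK
    have hgl : ∀ᵐ x ∂β, g j x = l j := by
      have h1 := (Measure.absolutelyContinuous_of_le_smul hβc).ae_le hl2
      filter_upwards [h1] with x hx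
      exact hx j
    have h1 : ∀ m, ENNReal.ofReal |β.real (C j) - l j| ≤
        c * ∫⁻ x, ENNReal.ofReal (D j m x) ∂(κ l) := by
      intro m
      have h2 : β.real (C j) - l j = ∫ x, (Av U (f j) (N m) x - g j x) ∂β := by
        rw [integral_sub (intb (Av_meas U (hfm j) _) (Av_abs U (hfb j) _)) (intb (hgm j) (hgb j)),
          Av_int hβU (hfm j) (hfb j), hfi, integral_congr_ae hgl]
        simp
      have h3 : |β.real (C j) - l j| ≤ ∫ x, D j m x ∂β := by
        rw [h2, hD]
        exact abs_integral_le_integral_abs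
      calc ENNReal.ofReal |β.real (C j) - l j| ≤ ENNReal.ofReal (∫ x, D j m x ∂β) :=
            ENNReal.ofReal_le_ofReal h3
        _ = ∫⁻ x, ENNReal.ofReal (D j m x) ∂β := (hDof j m β).symm
        _ ≤ ∫⁻ x, ENNReal.ofReal (D j m x) ∂(c • κ l) := lintegral_mono' hβc le_rfl
        _ = _ := by rw [lintegral_smul_measure, smul_eq_mul]
    have h4 : Tendsto (fun m => c * ∫⁻ x, ENNReal.ofReal (D j m x) ∂(κ l)) atTop (𝓝 0) := by
      have := ENNReal.Tendsto.const_mul (a := c) (hl3 j) (Or.inr hc)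
      rwa [mul_zero] at this
    have h5 := ge_of_tendsto' h4 h1
    have h6 : |β.real (C j) - l j| ≤ 0 := by
      rw [← ENNReal.ofReal_eq_zero]
      exact le_antisymm h5 zero_le
    have h7 := abs_nonpos_iff.1 h6
    linarith
  intro α hα hαK c hc hαc
  refine ext_of_generate_finite (Set.range C) hgen hpi ?_ (by simp)
  rintro _ ⟨j, rfl⟩
  have h1 := key α hα hαK c hc hαc j
  have h2 := key (κ l) inferInstance hl1 1 ENNReal.one_ne_top (by rw [one_smul]) j
  rw [← ENNReal.toReal_eq_toReal_iff' (measure_ne_top _ _) (measure_ne_top _ _)]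
  exact h1.trans h2.symm

end Pool.MP4bb68cEx
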