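import Mathlib
import Pool.Agent.Work.MP_4bb68c_ex.Defs
import Pool.Agent.Work.MP_4bb68c_ex.Defs3
import Pool.Agent.Work.MP_4bb68c_ex.SysB
import Pool.Agent.Work.MP_4bb68c_ex.Proj
import Pool.Agent.Work.MP_4bb68c_ex.GenB
import Pool.Agent.Work.MP_4bb68c_ex.ExtSh
import Pool.Agent.Work.MP_4bb68c_ex.ErgE
import Pool.Agent.Work.MP_4bb68c_ex.Lim
import Pool.Agent.Work.MP_4bb68c_cl.Ker
import Pool.Agent.Work.MP_4bb68c_cl.KerB
import Pool.Agent.Work.MP_4bb68c_cl.KerC

/-!
# All stationary laws with integrable increments are shift invariant (module FinB, size M-L)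

Let `ν = htL π`, a stationary probability measure (`genB`), `ν.map incr = π`. Let `q n` (`n : ℕ`) enumerate
the positive rationals (`Encodable` / `exists_surjective_nat` for the countable nonempty type
`{q : ℚ // 0 < q}`) and `K n = (Ka 1 (q n)).map seen` (a Markov kernel; `α.bind (K n) =
(α.bind (Ka 1 (q n))).map seen`, see `kerB`). `C j` enumerates the countable family of cylinders `cyls 1`
(countable: pairs of a finite set `B` and the values on `B`; it is enough to use `c` which vanish outside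
of `B`; a pi-system: `isPiSystem_cyls`; generating: `generateFrom_cyls`; if the enumeration needs a
nonempty family: it is nonempty). By `kerB`, `ν.bind (K n) = ν` for all `n`. `erg_dec` gives `ρ, κ`.
For `ρ`-a.e. `l`:
 (1) `κ l` is invariant under all `K n`, so it is stationary (`kerC_stat`);
 (2) `ExtI ((κ l).map incr)`: it is a stationary probability measure (`genA`); let `α` be a stationary
     probability measure, `α ≤ c • (κ l).map incr`. `htL α` is stationary (`genB`), hence invariant under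
     all `K n` (`kerB`), and `htL α ≤ c • htL ((κ l).map incr) = c • κ l` (`stat_iff`). So `htL α = κ l` and
     `α = (κ l).map incr` (`map_incr_htL`);
 (3) the increments `η 0` and `η (-1)` are integrable under `(κ l).map incr`: for `x ∈ {0, -1}`
     `∫ (∫⁻ |incr g x| dκ l) dρ = ∫⁻ |η x| dπ < ∞` (`Measure.lintegral_bind`), so the inner integral is finite
     for `ρ`-a.e. `l`;
 (4) by `ext_shift`: `((κ l).map incr).map (tra 1) = (κ l).map incr`.
Hence for every measurable `A`: `π (tra 1 ⁻¹' A) = ∫⁻ κ l (incr ⁻¹' (tra 1 ⁻¹' A)) dρ =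
∫⁻ κ l (incr ⁻¹' A) dρ = π A`.
-/

set_option autoImplicit false

open MeasureTheory ProbabilityTheory Filter Topology
open scoped NNReal ENNReal

namespace Pool.MP4bb68cEx

open Pool.MP4bb68c Pool.MP4bb68cOne Pool.MP4bb68cCl

private theorem fb_incr : Measurable incr := by
  rw [measurable_pi_iff]
  intro x
  exact (measurable_pi_apply _).sub (measurable_pi_apply _)

private theorem cyls_count : (cyls 1).Countable := by
  classical
  have hsub : cyls 1 ⊆ Set.range (fun p : (Σ B : Finset (Site 1), (B → ℤ)) =>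
      cyl p.1 (fun x => if h : x ∈ p.1 then p.2 ⟨x, h⟩ else 0)) := by
    rintro _ ⟨B, c, rfl⟩
    refine ⟨⟨B, fun x => c x⟩, ?_⟩
    ext g
    constructor
    · intro hg x hx
      have := hg x hx
      simpa [hx] using this
    · intro hg x hx
      have := hg x hx
      simpa [hx] using this
  exact (Set.countable_range _).mono hsub

private theorem fb_bind {μ : Measure (Height 1)} (t : ℝ) :
    μ.bind ((Ka 1 t).map seen) = (μ.bind (Ka 1 t)).map seen :=
  (Measure.map_comp μ (Ka 1 t) measurable_seen).symm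

theorem stn_shift {π : Measure (ℤ → ℤ)} [IsProbabilityMeasure π] (h : Stn SI π)
    (h0 : Integrable (fun η : ℤ → ℤ => (η 0 : ℝ)) π)
    (h1 : Integrable (fun η : ℤ → ℤ => (η (-1) : ℝ)) π) : π.map (tra 1) = π := by
  classical
  have hst : IsStationary (htL π) := genB h
  have hνp : IsProbabilityMeasure (htL π) :=
    Measure.isProbabilityMeasure_map measurable_ht.aemeasurable
  obtain ⟨C, hC⟩ := cyls_count.exists_eq_range ⟨_, ∅, 0, rfl⟩
  obtain ⟨q, hq⟩ := exists_surjective_nat {q : ℚ // 0 < q}
  let K : ℕ → Kernel (Height 1) (Height 1) := fun n => (Ka 1 ((q n : ℚ) : ℝ)).map seen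
  have hK : ∀ n, IsMarkovKernel (K n) := fun n => Kernel.IsMarkovKernel.map _ measurable_seen
  have hq0 : ∀ n, (0 : ℝ) < ((q n : ℚ) : ℝ) := fun n => by exact_mod_cast (q n).2
  have hinv : ∀ n, (htL π).bind (K n) = htL π := fun n => by
    rw [fb_bind]
    exact kerB.1 hst _ (hq0 n)
  obtain ⟨ρ, κ, hρ, hκ, hb, hae⟩ := erg_dec C (by rw [← hC]; exact isPiSystem_cyls)
    (by rw [← hC]; exact generateFrom_cyls) K hK hinv
  -- integrability
  have hint : ∀ x : ℤ, Integrable (fun η : ℤ → ℤ => (η x : ℝ)) π →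
      ∀ᵐ l ∂ρ, Integrable (fun η : ℤ → ℤ => (η x : ℝ)) ((κ l).map incr) := by
    intro x hx
    have hm : Measurable (fun η : ℤ → ℤ => (η x : ℝ)) :=
      (measurable_of_countable (fun z : ℤ => (z : ℝ))).comp (measurable_pi_apply x)
    have hm' : Measurable (fun g : Height 1 => ‖((incr g x : ℤ) : ℝ)‖ₑ) :=
      (hm.comp fb_incr).enorm
    have e1 : ∫⁻ l, ∫⁻ g, ‖((incr g x : ℤ) : ℝ)‖ₑ ∂(κ l) ∂ρ =
        ∫⁻ η : ℤ → ℤ, ‖(η x : ℝ)‖ₑ ∂π := by
      rw [← Measure.lintegral_bind κ.aemeasurable hm'.aemeasurable, hb]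
      conv_rhs => rw [← map_incr_htL π]
      rw [lintegral_map hm.enorm fb_incr]
    have e2 : ∫⁻ l, ∫⁻ g, ‖((incr g x : ℤ) : ℝ)‖ₑ ∂(κ l) ∂ρ ≠ ∞ := by
      rw [e1]
      exact hx.2.ne
    filter_upwards [ae_lt_top hm'.lintegral_kernel e2] with l hl
    refine ⟨hm.aestronglyMeasurable, ?_⟩
    rw [HasFiniteIntegral, lintegral_map hm.enorm fb_incr]
    exact hl
  have hshift : ∀ᵐ l ∂ρ, ((κ l).map incr).map (tra 1) = (κ l).map incr := by
    filter_upwards [hae, hint 0 h0, hint (-1) h1] with l hl hi0 hi1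
    have hlp : IsProbabilityMeasure ((κ l).map incr) :=
      Measure.isProbabilityMeasure_map fb_incr.aemeasurable
    have hls : IsStationary (κ l) := by
      refine kerC_stat fun r hr => ?_
      obtain ⟨n, hn⟩ := hq ⟨r, hr⟩
      have h2 := hl.1 n
      rw [fb_bind, hn] at h2
      exact h2
    refine ext_shift ⟨hlp, genA hls, fun α hα hαs c hc hle => ?_⟩ hi0 hi1
    have hαp : IsProbabilityMeasure (htL α) :=
      Measure.isProbabilityMeasure_map measurable_ht.aemeasurable
    have h3 : htL α = κ l := by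
      refine hl.2 _ hαp (fun n => ?_) c hc ?_
      · rw [fb_bind]
        exact kerB.1 (genB hαs) _ (hq0 n)
      · have h4 := Measure.map_mono hle measurable_ht
        rw [Measure.map_smul] at h4
        have h5 : ((κ l).map incr).map ht = κ l := (stat_iff.1 hls).2.symm
        rw [h5] at h4
        exact h4
    rw [← h3, map_incr_htL]
  ext A hA
  have hA1 : MeasurableSet (tra 1 ⁻¹' A : Set (ℤ → ℤ)) := measurable_tra 1 hA
  have e3 : ∀ B : Set (ℤ → ℤ), MeasurableSet B → π B = ∫⁻ l, (κ l).map incr B ∂ρ := by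
    intro B hB
    conv_lhs => rw [← map_incr_htL π]
    rw [Measure.map_apply fb_incr hB, ← hb, Measure.bind_apply (fb_incr hB) κ.aemeasurable]
    exact lintegral_congr fun l => (Measure.map_apply fb_incr hB).symm
  rw [Measure.map_apply (measurable_tra 1) hA, e3 _ hA1, e3 _ hA]
  refine lintegral_congr_ae ?_
  filter_upwards [hshift] with l hl
  rw [← Measure.map_apply (measurable_tra 1) hA, hl]

end Pool.MP4bb68cEx
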