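import Mathlib
import Pool.Agent.Work.MP_4bb68c_ex.Defs
import Pool.Agent.Work.MP_4bb68c_ex.Defs3
import Pool.Agent.Work.MP_4bb68c_ex.SysB
import Pool.Agent.Work.MP_4bb68c_ex.Proj
import Pool.Agent.Work.MP_4bb68c_ex.GenB
import Pool.Agent.Work.MP_4bb68c_ex.InvL
import Pool.Agent.Work.MP_4bb68c_ex.FinB
import Pool.Agent.Work.MP_4bb68c_ex.FinA
import Pool.Agent.Work.MP_4bb68c_cl.Fin
import Pool.Agent.Work.MP_4bb68c_cl.FamA
import Pool.Agent.Work.MP_4bb68c_cl.Fm

/-!
# The laws `mu v` are extremal among all stationary laws (module FinC, size M)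

`mu_ext`: let `v ∈ JJ`, `μ = mu v`, `π = μ.map incr`; `InvLaw μ`, `SlpAS μ v` (`mu_spec`). `π` is a stationary
probability measure (`genA`). Let `α` be a stationary probability measure, `α ≤ C • π`, `C ≠ ∞`. The
increments `η 0`, `η (-1)` are `π`-integrable (`int_of_invLaw`), hence `α`-integrable (`Integrable.mono_measure`
and `Integrable.smul_measure`). By `stn_shift`, `α.map (tra 1) = α`, so `InvLaw (htL α)` (`invLaw_of_shift`).
`μ = htL π` (`stat_iff`), so `htL α ≤ C • htL π = C • μ` is absolutely continuous with respect to `μ`, hence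
`SlpAS (htL α) v`. By `mu_eq`: `htL α = mu v`. So `α = (htL α).map incr = π` (`map_incr_htL`).

`mu_htL`: `mu v = htL ((mu v).map incr)` for `v ∈ JJ` (`stat_iff`).

`decomp_all`: let `ν` be a stationary probability measure on heights such that `g 1` and `g (-1)` (the
sites `pt 1`, `pt (-1)`) are integrable. `g (pt 0) = 0` almost surely (`ν = htL (ν.map incr)`), so
`incr g 0 = g (pt 1)` and `incr g (-1) = - g (pt (-1))` almost surely; so `η 0`, `η (-1)` are integrable for
`π = ν.map incr`. By `stn_shift` and `invLaw_of_shift`: `InvLaw (htL π)`, and `htL π = ν`.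
-/

set_option autoImplicit false

open MeasureTheory ProbabilityTheory Filter Topology
open scoped NNReal ENNReal

namespace Pool.MP4bb68cEx

open Pool.MP4bb68c Pool.MP4bb68cOne Pool.MP4bb68cCl

private theorem meas_inc (x : ℤ) : Measurable (fun η : ℤ → ℤ => (η x : ℝ)) :=
  (measurable_of_countable (fun z : ℤ => (z : ℝ))).comp (measurable_pi_apply x)

theorem mu_ext {v : ℝ} (hv : v ∈ JJ) : ExtI ((mu v).map incr) := by
  obtain ⟨hinv, hslp⟩ := mu_spec hv
  obtain ⟨hst, heq⟩ := stat_iff.1 hinv.stat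
  refine ⟨Measure.isProbabilityMeasure_map measurable_incr.aemeasurable, hst, ?_⟩
  intro α hα hsα C hC hle
  have i0 : Integrable (fun η : ℤ → ℤ => (η 0 : ℝ)) α :=
    ((int_of_invLaw hinv 0).smul_measure hC).mono_measure hle
  have i1 : Integrable (fun η : ℤ → ℤ => (η (-1) : ℝ)) α :=
    ((int_of_invLaw hinv (-1)).smul_measure hC).mono_measure hle
  have hI : InvLaw (htL α) := invLaw_of_shift hsα i0 i1 (stn_shift hsα i0 i1)
  have hle2 : htL α ≤ C • mu v := by
    rw [heq]
    unfold htL
    rw [← Measure.map_smul]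
    exact Measure.map_mono hle measurable_ht
  have hac : htL α ≪ mu v := Measure.absolutelyContinuous_of_le_smul hle2
  have hS : SlpAS (htL α) v := hac.ae_le hslp
  rw [← mu_eq hI hS, map_incr_htL]

theorem mu_htL {v : ℝ} (hv : v ∈ JJ) : mu v = htL ((mu v).map incr) :=
  (stat_iff.1 (mu_spec hv).1.stat).2

theorem int_incr {ν : Measure (Height 1)} [IsProbabilityMeasure ν] (h : IsStationary ν)
    (h0 : Integrable (fun g : Height 1 => (g (pt 1) : ℝ)) ν)
    (h1 : Integrable (fun g : Height 1 => (g (pt (-1)) : ℝ)) ν) :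
    Integrable (fun η : ℤ → ℤ => (η 0 : ℝ)) (ν.map incr) ∧
      Integrable (fun η : ℤ → ℤ => (η (-1) : ℝ)) (ν.map incr) := by
  obtain ⟨hst, heq⟩ := stat_iff.1 h
  have hz : ∀ᵐ g ∂ν, g (pt 0) = 0 := by
    rw [heq]
    unfold htL
    have hmp : Measurable (fun g : Height 1 => g (pt 0)) := measurable_pi_apply (pt 0)
    have hms : MeasurableSet {g : Height 1 | g (pt 0) = 0} :=
      hmp (measurableSet_singleton (0 : ℤ))
    refine (ae_map_iff measurable_ht.aemeasurable hms).2 ?_
    refine Filter.Eventually.of_forall fun η => ?_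
    show pr η 0 = 0
    rw [pr_zero]
  refine ⟨?_, ?_⟩
  · rw [integrable_map_measure (meas_inc 0).aestronglyMeasurable measurable_incr.aemeasurable]
    refine h0.congr ?_
    filter_upwards [hz] with g hg
    show (g (pt 1) : ℝ) = ((g (pt (0 + 1)) - g (pt 0) : ℤ) : ℝ)
    rw [hg, sub_zero, zero_add]
  · rw [integrable_map_measure (meas_inc (-1)).aestronglyMeasurable measurable_incr.aemeasurable]
    refine h1.neg.congr ?_
    filter_upwards [hz] with g hg
    show -(g (pt (-1)) : ℝ) = ((g (pt (-1 + 1)) - g (pt (-1)) : ℤ) : ℝ)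
    rw [show (-1 : ℤ) + 1 = 0 by norm_num, hg, zero_sub]
    push_cast
    rfl

theorem invLaw_all {ν : Measure (Height 1)} [IsProbabilityMeasure ν] (h : IsStationary ν)
    (h0 : Integrable (fun g : Height 1 => (g (pt 1) : ℝ)) ν)
    (h1 : Integrable (fun g : Height 1 => (g (pt (-1)) : ℝ)) ν) : InvLaw ν := by
  obtain ⟨hst, heq⟩ := stat_iff.1 h
  obtain ⟨i0, i1⟩ := int_incr h h0 h1
  haveI : IsProbabilityMeasure (ν.map incr) :=
    Measure.isProbabilityMeasure_map measurable_incr.aemeasurable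
  have hI := invLaw_of_shift hst i0 i1 (stn_shift hst i0 i1)
  rwa [← heq] at hI

end Pool.MP4bb68cEx
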