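import Mathlib
import Pool.Agent.Work.MP_4bb68c_ex.Defs
import Pool.Agent.Work.MP_4bb68c_ex.Defs3
import Pool.Agent.Work.MP_4bb68c_ex.SysB
import Pool.Agent.Work.MP_4bb68c_ex.Proj
import Pool.Agent.Work.MP_4bb68c_ex.Ord
import Pool.Agent.Work.MP_4bb68c_ex.InvL
import Pool.Agent.Work.MP_4bb68c_ex.FinA
import Pool.Agent.Work.MP_4bb68c_ex.FinC
import Pool.Agent.Work.MP_4bb68c_cl.Fin
import Pool.Agent.Work.MP_4bb68c_cl.Fm

/-!
# The order of the extremal laws (module FinD, size M)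

`le_of_pos`: for an increasing event `A`: `fsI x ∈ A → snI x ∈ A` for `x ∈ Pos`, so
`(μ.map fsI).real A = μ.real {fsI x ∈ A} ≤ μ.real {snI x ∈ A}`.
`comparable`: `ext_order`; if almost surely `x ∈ Pos`: `LeI π π'`; if almost surely `x ∈ Neg`: the same
argument gives `LeI π' π`.
`sandwich`: let `y ∈ {0, -1}` and `π_v = (mu v).map incr`. For `m ≥ 1` the event `{m ≤ η y}` is increasing and
`DepOn 1`, so `π.real {m ≤ η y} ≤ π_w.real {m ≤ η y}`. The event `{-m + 1 ≤ η y}` is increasing, its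
complement is `{η y ≤ -m}`, so `π.real {η y ≤ -m} ≤ π_v.real {η y ≤ -m}`. Summing over `m ≥ 1`
(`∫⁻ |η y| = ∑' m, P (m ≤ |η y|)`, in `ℝ≥0∞`; for integer valued functions, for example
`lintegral_tsum` with `|z| = ∑' m, [m + 1 ≤ |z|]`): `∫⁻ |η y| dπ ≤ ∫⁻ |η y| dπ_w + ∫⁻ |η y| dπ_v < ∞`
(`int_of_invLaw`, `mu_spec`).
`tri`: let `π` be extremal. `(mu v).map incr` is extremal for `v ∈ JJ` (`mu_ext`), so `comparable` applies
to it and `π`. If there are `v, w ∈ JJ` with `LeI ((mu v).map incr) π` and `LeI π ((mu w).map incr)` then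
`sandwich` and `ext_mu` give the first alternative. If there is no such `v`: third alternative. If there is
no such `w`: second alternative.
-/

set_option autoImplicit false

open MeasureTheory ProbabilityTheory Filter Topology
open scoped NNReal ENNReal

namespace Pool.MP4bb68cEx

open Pool.MP4bb68c Pool.MP4bb68cOne Pool.MP4bb68cCl

private theorem le_of_neg {μ : Measure (ℤ → ℤ × ℤ)} [IsProbabilityMeasure μ]
    (hp : ∀ᵐ x ∂μ, x ∈ Neg) : LeI (μ.map snI) (μ.map fsI) := by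
  intro M A hA _ hup
  rw [map_measureReal_apply measurable_snI hA, map_measureReal_apply measurable_fsI hA]
  refine ENNReal.toReal_mono (measure_ne_top _ _) (measure_mono_ae ?_)
  filter_upwards [hp] with x hx h1
  exact hup _ _ hx h1

private theorem dep_one {y : ℤ} (hy : y = 0 ∨ y = -1) (P : ℤ → Prop) :
    DepOn 1 {η : Inc | P (η y)} := by
  intro η η' h
  have h1 : η y = η' y := by
    apply h
    · push_cast
      omega
    · push_cast
      omega
  show P (η y) ↔ P (η' y)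
  rw [h1]

private theorem meas_lvl (y : ℤ) (P : ℤ → Prop) : MeasurableSet {η : Inc | P (η y)} :=
  measurable_pi_apply y (MeasurableSet.of_discrete (s := {z : ℤ | P z}))

private theorem lvl_le {π πv πw : Measure (ℤ → ℤ)} [IsProbabilityMeasure π]
    [IsProbabilityMeasure πv] [IsProbabilityMeasure πw] (h1 : LeI πv π) (h2 : LeI π πw) {y : ℤ}
    (hy : y = 0 ∨ y = -1) (m : ℤ) :
    π {η : Inc | m ≤ |η y|} ≤ (πw + πv) {η : Inc | m ≤ |η y|} := by
  have e0 : {η : Inc | m ≤ |η y|} = {η : Inc | m ≤ η y} ∪ {η : Inc | η y ≤ -m} := by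
    ext η
    show m ≤ |η y| ↔ m ≤ η y ∨ η y ≤ -m
    rw [le_abs]
    constructor
    · rintro (h | h)
      · exact Or.inl h
      · exact Or.inr (by omega)
    · rintro (h | h)
      · exact Or.inl h
      · exact Or.inr (by omega)
  have a1 : π {η : Inc | m ≤ η y} ≤ πw {η : Inc | m ≤ η y} := by
    have h := h2 1 {η : Inc | m ≤ η y} (meas_lvl y fun z => m ≤ z)
      (dep_one hy fun z => m ≤ z) (fun η η' hη h => le_trans h (hη y))
    exact (ENNReal.toReal_le_toReal (measure_ne_top _ _) (measure_ne_top _ _)).1 h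
  have a2 : π {η : Inc | η y ≤ -m} ≤ πv {η : Inc | η y ≤ -m} := by
    have h := h1 1 {η : Inc | -m + 1 ≤ η y} (meas_lvl y fun z => -m + 1 ≤ z)
      (dep_one hy fun z => -m + 1 ≤ z) (fun η η' hη h => le_trans h (hη y))
    have hc : {η : Inc | η y ≤ -m} = {η : Inc | -m + 1 ≤ η y}ᶜ := by
      ext η
      show η y ≤ -m ↔ ¬ (-m + 1 ≤ η y)
      omega
    have hm : MeasurableSet {η : Inc | -m + 1 ≤ η y} := meas_lvl y fun z => -m + 1 ≤ z
    have h3 : π.real {η : Inc | η y ≤ -m} ≤ πv.real {η : Inc | η y ≤ -m} := by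
      rw [hc, probReal_compl_eq_one_sub hm, probReal_compl_eq_one_sub hm]
      linarith
    exact (ENNReal.toReal_le_toReal (measure_ne_top _ _) (measure_ne_top _ _)).1 h3
  rw [e0]
  calc π ({η : Inc | m ≤ η y} ∪ {η : Inc | η y ≤ -m})
      ≤ π {η : Inc | m ≤ η y} + π {η : Inc | η y ≤ -m} := measure_union_le _ _
    _ ≤ πw {η : Inc | m ≤ η y} + πv {η : Inc | η y ≤ -m} := add_le_add a1 a2
    _ ≤ πw ({η : Inc | m ≤ η y} ∪ {η : Inc | η y ≤ -m}) +
          πv ({η : Inc | m ≤ η y} ∪ {η : Inc | η y ≤ -m}) :=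
        add_le_add (measure_mono Set.subset_union_left) (measure_mono Set.subset_union_right)
    _ = (πw + πv) ({η : Inc | m ≤ η y} ∪ {η : Inc | η y ≤ -m}) := by
        rw [Measure.add_apply]

private theorem norm_lvl (y : ℤ) (t : ℝ) :
    {η : Inc | t ≤ ‖(η y : ℝ)‖} = {η : Inc | ⌈t⌉ ≤ |η y|} := by
  ext η
  show t ≤ ‖(η y : ℝ)‖ ↔ ⌈t⌉ ≤ |η y|
  rw [Int.ceil_le, Real.norm_eq_abs, Int.cast_abs]

private theorem meas_coord (y : ℤ) : Measurable fun η : ℤ → ℤ => (η y : ℝ) :=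
  (measurable_of_countable (fun z : ℤ => (z : ℝ))).comp (measurable_pi_apply y)

private theorem integ {π πv πw : Measure (ℤ → ℤ)} [IsProbabilityMeasure π]
    [IsProbabilityMeasure πv] [IsProbabilityMeasure πw] (h1 : LeI πv π) (h2 : LeI π πw) {y : ℤ}
    (hy : y = 0 ∨ y = -1) (iv : Integrable (fun η : ℤ → ℤ => (η y : ℝ)) πv)
    (iw : Integrable (fun η : ℤ → ℤ => (η y : ℝ)) πw) :
    Integrable (fun η : ℤ → ℤ => (η y : ℝ)) π := by
  refine ⟨(meas_coord y).aestronglyMeasurable, ?_⟩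
  rw [hasFiniteIntegral_iff_norm]
  have e1 : ∀ ρ : Measure (ℤ → ℤ), ∫⁻ η, ENNReal.ofReal ‖(η y : ℝ)‖ ∂ρ =
      ∫⁻ t in Set.Ioi (0 : ℝ), ρ {η : Inc | t ≤ ‖(η y : ℝ)‖} := fun ρ =>
    lintegral_eq_lintegral_meas_le ρ (Eventually.of_forall fun η => norm_nonneg _)
      (meas_coord y).norm.aemeasurable
  have e2 : ∫⁻ η, ENNReal.ofReal ‖(η y : ℝ)‖ ∂π ≤
      ∫⁻ η, ENNReal.ofReal ‖(η y : ℝ)‖ ∂(πw + πv) := by
    rw [e1, e1]
    refine lintegral_mono fun t => ?_
    show π {η : Inc | t ≤ ‖(η y : ℝ)‖} ≤ (πw + πv) {η : Inc | t ≤ ‖(η y : ℝ)‖}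
    rw [norm_lvl]
    exact lvl_le h1 h2 hy _
  refine lt_of_le_of_lt e2 ?_
  rw [lintegral_add_measure]
  exact ENNReal.add_lt_top.2 ⟨(hasFiniteIntegral_iff_norm _).1 iw.2,
    (hasFiniteIntegral_iff_norm _).1 iv.2⟩

theorem le_of_pos {μ : Measure (ℤ → ℤ × ℤ)} [IsProbabilityMeasure μ] (hp : ∀ᵐ x ∂μ, x ∈ Pos) :
    LeI (μ.map fsI) (μ.map snI) := by
  intro M A hA _ hup
  rw [map_measureReal_apply measurable_fsI hA, map_measureReal_apply measurable_snI hA]
  refine ENNReal.toReal_mono (measure_ne_top _ _) (measure_mono_ae ?_)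
  filter_upwards [hp] with x hx h1
  exact hup _ _ hx h1

theorem comparable {π π' : Measure (ℤ → ℤ)} (h : ExtI π) (h' : ExtI π') :
    LeI π π' ∨ LeI π' π := by
  obtain ⟨μ, hμ, _, h1, h2, h3 | h3⟩ := ext_order h h'
  · left
    rw [← h1, ← h2]
    exact le_of_pos h3
  · right
    rw [← h1, ← h2]
    exact le_of_neg h3

theorem sandwich {π : Measure (ℤ → ℤ)} [IsProbabilityMeasure π] {v w : ℝ} (hv : v ∈ JJ)
    (hw : w ∈ JJ) (h1 : LeI ((mu v).map incr) π) (h2 : LeI π ((mu w).map incr)) (y : ℤ)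
    (hy : y = 0 ∨ y = -1) : Integrable (fun η : ℤ → ℤ => (η y : ℝ)) π := by
  have := (mu_ext hv).1
  have := (mu_ext hw).1
  exact integ h1 h2 hy (int_of_invLaw (mu_spec hv).1 y) (int_of_invLaw (mu_spec hw).1 y)

theorem tri {π : Measure (ℤ → ℤ)} (h : ExtI π) :
    (∃ v ∈ JJ, π = (mu v).map incr) ∨ (∀ v ∈ JJ, LeI ((mu v).map incr) π) ∨
      ∀ v ∈ JJ, LeI π ((mu v).map incr) := by
  have := h.1
  by_cases hV : ∃ v ∈ JJ, LeI ((mu v).map incr) π
  · by_cases hW : ∃ w ∈ JJ, LeI π ((mu w).map incr)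
    · left
      obtain ⟨v, hv, h1⟩ := hV
      obtain ⟨w, hw, h2⟩ := hW
      exact ext_mu h (sandwich hv hw h1 h2 0 (Or.inl rfl)) (sandwich hv hw h1 h2 (-1) (Or.inr rfl))
    · right
      left
      intro v hv
      rcases comparable (mu_ext hv) h with h1 | h1
      · exact h1
      · exact absurd ⟨v, hv, h1⟩ hW
  · right
    right
    intro v hv
    rcases comparable (mu_ext hv) h with h1 | h1
    · exact absurd ⟨v, hv, h1⟩ hV
    · exact h1

end Pool.MP4bb68cEx
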