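import Mathlib
import Pool.Agent.Work.MP_4bb68c_ex.Defs
import Pool.Agent.Work.MP_4bb68c_ex.Defs3
import Pool.Agent.Work.MP_4bb68c_ex.SysB
import Pool.Agent.Work.MP_4bb68c_ex.Proj
import Pool.Agent.Work.MP_4bb68c_ex.GenB
import Pool.Agent.Work.MP_4bb68c_ex.ExtEq
import Pool.Agent.Work.MP_4bb68c_ex.ErgE
import Pool.Agent.Work.MP_4bb68c_ex.Lim
import Pool.Agent.Work.MP_4bb68c_cl.Ker
import Pool.Agent.Work.MP_4bb68c_cl.KerB
import Pool.Agent.Work.MP_4bb68c_cl.KerC

/-!
# Every stationary law is a mixture of extremal ones (module MixAll, size M)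

This is the first half of the proof of `stn_shift` (module FinB), without integrability. `q n` (`n : ℕ`)
enumerates the positive rationals, `K n = (Ka 1 (q n)).map seen` (a Markov kernel;
`α.bind (K n) = (α.bind (Ka 1 (q n))).map seen`), `C j` enumerates the countable family of cylinders
`cyls 1` (pi-system: `isPiSystem_cyls`, generating: `generateFrom_cyls`). By `kerB`, `ν.bind (K n) = ν` for
all `n`. `erg_dec` gives `ρ, κ`. For `ρ`-a.e. `l`: `κ l` is a probability measure, invariant under all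
`K n`, so it is stationary (`kerC_stat`), and `κ l = htL ((κ l).map incr)` (`stat_iff`).
`ExtI ((κ l).map incr)`: let `α` be a stationary probability measure of increments with
`α ≤ c • (κ l).map incr`; `htL α` is stationary (`genB`), hence invariant under all `K n` (`kerB`), and
`htL α ≤ c • htL ((κ l).map incr) = c • κ l`, so `htL α = κ l` and `α = (κ l).map incr` (`map_incr_htL`).
Then `ext_from` gives `ExtH (κ l)`.
-/

set_option autoImplicit false

open MeasureTheory ProbabilityTheory Filter Topology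
open scoped NNReal ENNReal

namespace Pool.MP4bb68cEx

open Pool.MP4bb68c Pool.MP4bb68cOne Pool.MP4bb68cCl

private theorem ma_cyls : ∃ C : ℕ → Set (Height 1), Set.range C = cyls 1 := by
  classical
  have hc : (cyls 1).Countable := by
    have h1 : cyls 1 ⊆ Set.range
        (fun p : Finset (Site 1) × (Site 1 →₀ ℤ) => (cyl p.1 (p.2 : Site 1 → ℤ))) := by
      rintro _ ⟨B, c, rfl⟩
      refine ⟨(B, Finsupp.indicator B fun x _ => c x), ?_⟩
      ext h
      refine forall₂_congr fun x hx => ?_
      show h x = (Finsupp.indicator B fun x _ => c x) x ↔ h x = c x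
      rw [Finsupp.indicator_of_mem hx]
    exact (Set.countable_range _).mono h1
  have hne : (cyls 1).Nonempty := ⟨_, ∅, 0, rfl⟩
  obtain ⟨C, hC⟩ := hc.exists_eq_range hne
  exact ⟨C, hC.symm⟩

theorem mix_all {ν : Measure (Height 1)} [IsProbabilityMeasure ν] (h : IsStationary ν) :
    ∃ (ρ : Measure (ℕ → ℝ)) (κ : Kernel (ℕ → ℝ) (Height 1)), IsProbabilityMeasure ρ ∧
      IsMarkovKernel κ ∧ ρ.bind κ = ν ∧ ∀ᵐ l ∂ρ, ExtH (κ l) := by
  obtain ⟨C, hC⟩ := ma_cyls
  have hne : Nonempty {q : ℚ // 0 < q} := ⟨⟨1, one_pos⟩⟩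
  obtain ⟨q, hq⟩ := exists_surjective_nat {q : ℚ // 0 < q}
  have hm : Measurable (seen : Height 1 → Height 1) := measurable_seen
  obtain ⟨K, hKd⟩ : ∃ K : ℕ → Kernel (Height 1) (Height 1),
      K = fun n => (Ka 1 (((q n).1 : ℚ) : ℝ)).map seen := ⟨_, rfl⟩
  have hK : ∀ n, IsMarkovKernel (K n) := by
    intro n
    rw [hKd]
    exact Kernel.IsMarkovKernel.map _ hm
  have hbind : ∀ (α : Measure (Height 1)) (n : ℕ),
      α.bind (K n) = (α.bind (Ka 1 (((q n).1 : ℚ) : ℝ))).map seen := by
    intro α n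
    rw [hKd]
    exact (Measure.map_comp α (Ka 1 (((q n).1 : ℚ) : ℝ)) hm).symm
  have hinv : ∀ α : Measure (Height 1), IsProbabilityMeasure α → IsStationary α →
      ∀ n, α.bind (K n) = α := by
    intro α hα hs n
    rw [hbind]
    refine kerB.1 hs _ ?_
    exact_mod_cast (q n).2
  have hstat : ∀ α : Measure (Height 1), IsProbabilityMeasure α → (∀ n, α.bind (K n) = α) →
      IsStationary α := by
    intro α hα hs
    refine kerC_stat fun r hr => ?_
    obtain ⟨n, hn⟩ := hq ⟨r, hr⟩
    have h1 := hs n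
    rw [hbind, hn] at h1
    exact h1
  obtain ⟨ρ, κ, hρ, hκ, hb, hae⟩ := erg_dec C (by rw [hC]; exact isPiSystem_cyls)
    (by rw [hC]; exact generateFrom_cyls) K hK (hinv ν inferInstance h)
  refine ⟨ρ, κ, hρ, hκ, hb, ?_⟩
  filter_upwards [hae] with l hl
  obtain ⟨h1, h2⟩ := hl
  have hp : IsProbabilityMeasure (κ l) := hκ.isProbabilityMeasure l
  obtain ⟨hs1, hs2⟩ := stat_iff.1 (hstat (κ l) hp h1)
  have hmi : Measurable (incr : Height 1 → Inc) := by
    rw [measurable_pi_iff]
    intro x
    exact (measurable_pi_apply _).sub (measurable_pi_apply _)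
  refine ext_from ⟨Measure.isProbabilityMeasure_map hmi.aemeasurable, hs1,
    fun α hα hαs c hc hle => ?_⟩ hs2
  have hpα : IsProbabilityMeasure (htL α) :=
    Measure.isProbabilityMeasure_map measurable_ht.aemeasurable
  have h3 : htL α = κ l := by
    refine h2 (htL α) hpα (hinv _ hpα (genB hαs)) c hc ?_
    have h4 := Measure.map_mono hle measurable_ht
    rw [Measure.map_smul] at h4
    have h5 : ((κ l).map incr).map ht = κ l := hs2.symm
    rw [h5] at h4
    exact h4
  rw [← h3, map_incr_htL]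

end Pool.MP4bb68cEx
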