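import Mathlib
import Pool.Agent.Work.MP_4bb68c_ex.Defs
import Pool.Agent.Work.MP_4bb68c_ex.Defs3
import Pool.Agent.Work.MP_4bb68c_ex.SysB
import Pool.Agent.Work.MP_4bb68c_ex.Proj
import Pool.Agent.Work.MP_4bb68c_ex.Lim
import Pool.Agent.Work.MP_4bb68c_ex.UTight
import Pool.Agent.Work.MP_4bb68c_ex.FinC
import Pool.Agent.Work.MP_4bb68c_ex.FinD
import Pool.Agent.Work.MP_4bb68c_ex.GenB
import Pool.Agent.Work.MP_4bb68c_ex.ExtEq
import Pool.Agent.Work.MP_4bb68c_ex.MixAll

/-!
# The largest and the smallest stationary law (module TopL, size M-L)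

`leI_trans`: immediate.

`ext_unique`: let `U F a = {η | ∀ x ∈ F, a x ≤ η x}` (`F : Finset ℤ`, `a : ℤ → ℤ`). These events are
increasing, local, closed under finite intersections (`U F a ∩ U F' a' = U (F ∪ F') b` with
`b x = max (a x) (a' x)` on `F ∩ F'`, etc.; or use `a` with values in `ℤ` and replace
missing conditions; one can also use the pi-system of all finite intersections) and generate the product
`σ`-algebra (`{η | m ≤ η x}` generate). So two probability measures which agree on all `U F a` are equal.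

`top_law`. Let `E` be the set of all extremal laws `π` (`ExtI π`), nonempty (`mu_ext`, `JJ` is nonempty:
`exists_big`, MP_4bb68c_cl). The family of the events `U F a` is countable (only the values of `a` on `F`
matter). For every such event `U` and `j : ℕ` choose `π ∈ E` with `π U ≥ sup_{E} (·) U - 1/(j+1)`; this is a
countable family `ρ_k` (`k : ℕ`). Define `τ_0 = ρ_0` and `τ_{k+1} = ρ_{k+1}` if `LeI τ_k ρ_{k+1}`, otherwise
`τ_{k+1} = τ_k` (then `LeI ρ_{k+1} τ_k` by `comparable`). So `τ_k ∈ E`, `LeI τ_k τ_{k+1}` and `LeI ρ_j τ_k` for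
`j ≤ k`. Hence `τ_k U → β U := sup_{π ∈ E} π U` for every `U`. By `utight` and `lim_exists` there is a
probability measure `ν` with `∫ f dτ_k → ∫ f dν` along the hyperfilter for local `f`, and `Stn SI ν`
(`lim_stn`, each `τ_k` is stationary). For an increasing local event `A` (`DepOn M A`, so the indicator is
`Loc M`) `τ_k A` is nondecreasing, so `τ_k A ≤ ν A`: `LeI τ_k ν`. And `ν U = β U`. Let `π ∈ E`. If `LeI π τ_k`
for some `k` then `LeI π ν`. Otherwise `LeI τ_k π` for all `k` (`comparable`), so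
`β U = lim τ_k U ≤ π U ≤ β U = ν U` for all `U`, and `π = ν` by `ext_unique`. So `LeI π ν` for all `π ∈ E`.
Now let `α` be any stationary probability measure of increments: `htL α` is stationary (`genB`) and by
`mix_all` a mixture of laws `κ l` with `ExtI ((κ l).map incr)` (`ext_to`); so for an increasing local event
`A`: `α A = ∫ ((κ l).map incr) A dρ ≤ ν A`.
`ν` is extremal: let `α` be a stationary probability measure, `α ≤ C • ν`, `C ≠ ∞`; replace `C` by
`c = max C 2`, `a = 1/c`; `β = (1-a)⁻¹ • (ν - a • α)` is a stationary probability measure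
(`Stn.of_add`, `Stn.smul`, as in `ext_to`). For every `U`: `ν U = a * α U + (1 - a) * β U`, `α U ≤ ν U`,
`β U ≤ ν U`, so `α U = ν U`. By `ext_unique` `α = ν`.

`bot_law`: the same with all inequalities reversed (infimum instead of supremum over `E`, decreasing
sequence `τ_k`).
-/

set_option autoImplicit false

open MeasureTheory ProbabilityTheory Filter Topology
open scoped NNReal ENNReal

namespace Pool.MP4bb68cEx

open Pool.MP4bb68c Pool.MP4bb68cOne Pool.MP4bb68cCl

theorem leI_trans {π π' π'' : Measure (ℤ → ℤ)} (h : LeI π π') (h' : LeI π' π'') :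
    LeI π π'' := fun M A hA hD hi => (h M A hA hD hi).trans (h' M A hA hD hi)

/-- the events given by finitely many inequalities -/
private def VV (e : ℤ) (l : List (ℤ × ℤ)) : Set (ℤ → ℤ) := {η | ∀ p ∈ l, p.2 ≤ e * η p.1}

private theorem VV_append (e : ℤ) (l l' : List (ℤ × ℤ)) :
    VV e (l ++ l') = VV e l ∩ VV e l' := by
  ext η
  constructor
  · intro h
    exact ⟨fun p hp => h p (List.mem_append_left _ hp), fun p hp => h p (List.mem_append_right _ hp)⟩
  · rintro ⟨h1, h2⟩ p hp
    rcases List.mem_append.1 hp with hp | hp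
    · exact h1 p hp
    · exact h2 p hp

private theorem VV_single (e : ℤ) (x m : ℤ) : VV e [(x, m)] = {η | m ≤ e * η x} := by
  ext η
  constructor
  · intro h
    exact h (x, m) (List.mem_singleton.2 rfl)
  · intro h p hp
    rw [List.mem_singleton] at hp
    rw [hp]
    exact h

private theorem VV_meas (e : ℤ) (l : List (ℤ × ℤ)) : MeasurableSet (VV e l) := by
  induction l with
  | nil =>
    have h : VV e [] = Set.univ := by
      ext η
      exact ⟨fun _ => trivial, fun _ p hp => absurd hp List.not_mem_nil⟩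
    rw [h]
    exact MeasurableSet.univ
  | cons p l ih =>
    have h : VV e (p :: l) = VV e [p] ∩ VV e l := VV_append e [p] l
    rw [h]
    refine MeasurableSet.inter ?_ ih
    have h2 : VV e [p] = (fun η : ℤ → ℤ => η p.1) ⁻¹' {m | p.2 ≤ e * m} := VV_single e p.1 p.2
    rw [h2]
    exact measurable_pi_apply p.1 (MeasurableSet.of_discrete)

private theorem VV_unique {e : ℤ} (he : e * e = 1) {π π' : Measure (ℤ → ℤ)}
    [IsProbabilityMeasure π] [IsProbabilityMeasure π']
    (h : ∀ l, π.real (VV e l) = π'.real (VV e l)) : π = π' := by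
  refine ext_of_generate_finite {S | ∃ l, S = VV e l} ?_ ?_ ?_ ?_
  · refine le_antisymm ?_ ?_
    · refine iSup_le fun x => ?_
      rw [← measurable_iff_comap_le]
      refine @measurable_to_countable' _ _ _ _ (MeasurableSpace.generateFrom
        {S | ∃ l, S = VV e l}) _ (fun m => ?_)
      have h1 : (fun η : ℤ → ℤ => η x) ⁻¹' {m} = VV e [(x, e * m)] \ VV e [(x, e * m + 1)] := by
        ext η
        rw [VV_single, VV_single]
        show η x = m ↔ e * m ≤ e * η x ∧ ¬ (e * m + 1 ≤ e * η x)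
        constructor
        · rintro rfl
          exact ⟨le_rfl, by omega⟩
        · rintro ⟨h1, h2⟩
          have h3 : e * η x = e * m := by omega
          have h4 : e * (e * η x) = e * (e * m) := by rw [h3]
          rwa [← mul_assoc, ← mul_assoc, he, one_mul, one_mul] at h4
      rw [h1]
      exact MeasurableSet.diff (MeasurableSpace.measurableSet_generateFrom ⟨_, rfl⟩)
        (MeasurableSpace.measurableSet_generateFrom ⟨_, rfl⟩)
    · refine MeasurableSpace.generateFrom_le ?_
      rintro _ ⟨l, rfl⟩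
      exact VV_meas e l
  · rintro _ ⟨l, rfl⟩ _ ⟨l', rfl⟩ _
    exact ⟨l ++ l', (VV_append e l l').symm⟩
  · rintro _ ⟨l, rfl⟩
    have h1 := h l
    rw [measureReal_def, measureReal_def, ENNReal.toReal_eq_toReal_iff' (measure_ne_top _ _)
      (measure_ne_top _ _)] at h1
    exact h1
  · rw [measure_univ, measure_univ]

theorem ext_unique {π π' : Measure (ℤ → ℤ)} [IsProbabilityMeasure π] [IsProbabilityMeasure π']
    (h : ∀ (F : Finset ℤ) (a : ℤ → ℤ), π.real {η | ∀ x ∈ F, a x ≤ η x} =
      π'.real {η | ∀ x ∈ F, a x ≤ η x}) : π = π' := by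
  classical
  have key : ∀ l : List (ℤ × ℤ), ∃ (F : Finset ℤ) (a : ℤ → ℤ),
      VV 1 l = {η | ∀ x ∈ F, a x ≤ η x} := by
    intro l
    induction l with
    | nil =>
      refine ⟨∅, 0, ?_⟩
      ext η
      exact ⟨fun _ x hx => absurd hx (Finset.notMem_empty x),
        fun _ p hp => absurd hp List.not_mem_nil⟩
    | cons p l ih =>
      obtain ⟨F, a, hF⟩ := ih
      refine ⟨insert p.1 F, Function.update a p.1 (if p.1 ∈ F then max (a p.1) p.2 else p.2), ?_⟩
      have h1 : VV 1 (p :: l) = VV 1 [p] ∩ VV 1 l := VV_append 1 [p] l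
      rw [h1, hF, VV_single 1 p.1 p.2]
      ext η
      constructor
      · rintro ⟨h2, h3⟩ x hx
        have h2' : p.2 ≤ η p.1 := by
          have : p.2 ≤ 1 * η p.1 := h2
          rwa [one_mul] at this
        rcases Finset.mem_insert.1 hx with hx' | hx'
        · rw [hx', Function.update_self]
          split_ifs with hpF
          · exact max_le (h3 p.1 hpF) h2'
          · exact h2'
        · by_cases hxp : x = p.1
          · rw [hxp, Function.update_self, if_pos (hxp ▸ hx')]
            exact max_le (h3 p.1 (hxp ▸ hx')) h2'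
          · rw [Function.update_of_ne hxp]
            exact h3 x hx'
      · intro h2
        have h3 := h2 p.1 (Finset.mem_insert_self _ _)
        rw [Function.update_self] at h3
        constructor
        · show p.2 ≤ 1 * η p.1
          rw [one_mul]
          split_ifs at h3 with hpF
          · exact (le_max_right _ _).trans h3
          · exact h3
        · intro x hx
          by_cases hxp : x = p.1
          · rw [hxp]
            rw [hxp] at hx
            rw [if_pos hx] at h3
            exact (le_max_left _ _).trans h3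
          · have h4 := h2 x (Finset.mem_insert_of_mem hx)
            rwa [Function.update_of_ne hxp] at h4
  refine VV_unique (e := 1) (by norm_num) (fun l => ?_)
  obtain ⟨F, a, hF⟩ := key l
  rw [hF]
  exact h F a

/-- the order in one of the two directions -/
private def Rl (e : ℤ) (π π' : Measure (ℤ → ℤ)) : Prop :=
  ∀ (M : ℕ) (A : Set Inc), MeasurableSet A → DepOn M A →
    (∀ η η' : Inc, (∀ x, η x ≤ η' x) → η ∈ A → η' ∈ A) →
      (e : ℝ) * π.real A ≤ (e : ℝ) * π'.real A

private theorem Rl_refl (e : ℤ) (π : Measure (ℤ → ℤ)) : Rl e π π := fun _ _ _ _ _ => le_rfl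

private theorem Rl_trans {e : ℤ} {π π' π'' : Measure (ℤ → ℤ)} (h : Rl e π π') (h' : Rl e π' π'') :
    Rl e π π'' := fun M A hA hD hi => (h M A hA hD hi).trans (h' M A hA hD hi)

private theorem e_cases {e : ℤ} (he : e * e = 1) : e = 1 ∨ e = -1 :=
  mul_self_eq_one_iff.1 he

private theorem Rl_total {e : ℤ} (he : e * e = 1) {π π' : Measure (ℤ → ℤ)} (h : ExtI π)
    (h' : ExtI π') : Rl e π π' ∨ Rl e π' π := by
  have h1 : ∀ {π π' : Measure (ℤ → ℤ)}, LeI π π' → Rl 1 π π' ∧ Rl (-1) π' π := by
    intro π π' h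
    constructor
    · intro M A hA hD hi
      have := h M A hA hD hi
      push_cast
      linarith
    · intro M A hA hD hi
      have := h M A hA hD hi
      push_cast
      linarith
  rcases e_cases he with rfl | rfl <;> rcases comparable h h' with h2 | h2
  · exact Or.inl (h1 h2).1
  · exact Or.inr (h1 h2).1
  · exact Or.inr (h1 h2).2
  · exact Or.inl (h1 h2).2

private theorem dep_mono {M M' : ℕ} (h : M ≤ M') {A : Set Inc} (hA : DepOn M A) : DepOn M' A :=
  fun η η' hη => hA η η' (fun x h1 h2 => hη x (by omega) (by omega))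

private theorem VV_dep (e : ℤ) (l : List (ℤ × ℤ)) : ∃ M : ℕ, DepOn M (VV e l) := by
  refine ⟨(l.map fun p => p.1.natAbs + 1).sum, fun η η' hη => ?_⟩
  have h1 : ∀ p ∈ l, η p.1 = η' p.1 := by
    intro p hp
    have h2 : p.1.natAbs + 1 ≤ (l.map fun p => p.1.natAbs + 1).sum :=
      List.single_le_sum (fun _ _ => Nat.zero_le _) _ (List.mem_map_of_mem hp)
    exact hη p.1 (by omega) (by omega)
  constructor
  · intro h p hp
    rw [← h1 p hp]
    exact h p hp
  · intro h p hp
    rw [h1 p hp]
    exact h p hp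

private theorem Rl_VV {e : ℤ} (he : e * e = 1) {π π' : Measure (ℤ → ℤ)} [IsProbabilityMeasure π]
    [IsProbabilityMeasure π'] (h : Rl e π π') (l : List (ℤ × ℤ)) :
    π.real (VV e l) ≤ π'.real (VV e l) := by
  obtain ⟨M, hM⟩ := VV_dep e l
  rcases e_cases he with rfl | rfl
  · have h1 := h M (VV 1 l) (VV_meas 1 l) hM (fun η η' hη hm p hp => by
      have h2 := hm p hp
      have h3 := hη p.1
      omega)
    push_cast at h1
    linarith
  · have h1 := h M (VV (-1) l)ᶜ (VV_meas (-1) l).compl (fun η η' hη => not_congr (hM η η' hη))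
      (fun η η' hη hm hm' => hm (fun p hp => by
        have h2 := hm' p hp
        have h3 := hη p.1
        omega))
    rw [probReal_compl_eq_one_sub (VV_meas _ _), probReal_compl_eq_one_sub (VV_meas _ _)] at h1
    push_cast at h1
    linarith

private theorem dep_loc {M : ℕ} {A : Set Inc} (hA : DepOn M A) : LocS M A :=
  fun η η' hη => hA η η' (fun x h1 h2 => hη x h1 h2.le)

private theorem lim_real {τ : ℕ → Measure (ℤ → ℤ)} {ν : Measure (ℤ → ℤ)}
    (hlim : ∀ (n : ℕ) (f : (ℤ → ℤ) → ℝ), Loc n f → (∀ x, |f x| ≤ 1) →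
      Tendsto (fun i => ∫ x, f x ∂(τ i)) (hyperfilter ℕ) (𝓝 (∫ x, f x ∂ν)))
    {M : ℕ} {A : Set Inc} (hA : MeasurableSet A) (hD : DepOn M A) :
    Tendsto (fun i => (τ i).real A) (hyperfilter ℕ) (𝓝 (ν.real A)) := by
  have h1 := hlim M (A.indicator fun _ => (1 : ℝ)) (dep_loc hD).loc (fun x => by
    by_cases hx : x ∈ A
    · rw [Set.indicator_of_mem hx, abs_one]
    · rw [Set.indicator_of_notMem hx, abs_zero]
      exact zero_le_one)
  have h2 : ∀ μ : Measure (ℤ → ℤ), ∫ x, A.indicator (fun _ => (1 : ℝ)) x ∂μ = μ.real A := by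
    intro μ
    rw [integral_indicator_const _ hA, smul_eq_mul, mul_one]
  simp only [h2] at h1
  exact h1

private theorem chain {E : Type*} (R : E → E → Prop) (hr : ∀ a, R a a)
    (ht : ∀ a b, R a b ∨ R b a) (ρ : ℕ → E) :
    ∃ τ : ℕ → E, (∀ k, R (ρ k) (τ k)) ∧ ∀ k, R (τ k) (τ (k + 1)) := by
  classical
  obtain ⟨τ, h0, h1⟩ : ∃ τ : ℕ → E, τ 0 = ρ 0 ∧
      ∀ k, τ (k + 1) = if R (τ k) (ρ (k + 1)) then ρ (k + 1) else τ k :=
    ⟨fun k => Nat.rec (ρ 0) (fun k t => if R t (ρ (k + 1)) then ρ (k + 1) else t) k, rfl,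
      fun _ => rfl⟩
  refine ⟨τ, fun k => ?_, fun k => ?_⟩
  · cases k with
    | zero => rw [h0]; exact hr _
    | succ k =>
      rw [h1]
      split_ifs with h
      · exact hr _
      · exact (ht _ _).resolve_left h
  · rw [h1]
    split_ifs with h
    · exact h
    · exact hr _

private theorem mix_le {α ν : Measure (ℤ → ℤ)} [IsProbabilityMeasure α] [IsProbabilityMeasure ν]
    (hα : Stn SI α) {e : ℤ} (he : e * e = 1) (hE : ∀ π, ExtI π → Rl e π ν) : Rl e α ν := by
  intro M A hA hD hi
  have hp : IsProbabilityMeasure (htL α) :=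
    Measure.isProbabilityMeasure_map measurable_ht.aemeasurable
  obtain ⟨ρ, κ, hρ, hκ, hb, hext⟩ := mix_all (genB hα)
  have hinc : Measurable (incr : Height 1 → Inc) := by
    rw [measurable_pi_iff]
    intro x
    exact (measurable_pi_apply _).sub (measurable_pi_apply _)
  have hB : MeasurableSet (incr ⁻¹' A : Set (Height 1)) := hinc hA
  have h1 : α A = ∫⁻ l, κ l (incr ⁻¹' A) ∂ρ := by
    calc α A = ((htL α).map incr) A := by rw [map_incr_htL]
      _ = htL α (incr ⁻¹' A) := Measure.map_apply hinc hA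
      _ = (ρ.bind κ) (incr ⁻¹' A) := by rw [hb]
      _ = ∫⁻ l, κ l (incr ⁻¹' A) ∂ρ := Measure.bind_apply hB κ.measurable.aemeasurable
  have h2 : ∀ᵐ l ∂ρ, (e : ℝ) * (κ l).real (incr ⁻¹' A) ≤ (e : ℝ) * ν.real A := by
    filter_upwards [hext] with l hl
    have h3 := hE _ (ext_to hl).1 M A hA hD hi
    rwa [map_measureReal_apply hinc hA] at h3
  have hc : ∫⁻ _ : ℕ → ℝ, ν A ∂ρ = ν A := by
    rw [lintegral_const, measure_univ, mul_one]
  rcases e_cases he with rfl | rfl
  · have h3 : α A ≤ ν A := by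
      rw [h1, ← hc]
      refine lintegral_mono_ae ?_
      filter_upwards [h2] with l hl
      push_cast at hl
      rw [one_mul, one_mul, measureReal_def, measureReal_def,
        ENNReal.toReal_le_toReal (measure_ne_top _ _) (measure_ne_top _ _)] at hl
      exact hl
    have h4 : α.real A ≤ ν.real A := ENNReal.toReal_mono (measure_ne_top _ _) h3
    push_cast
    linarith
  · have h3 : ν A ≤ α A := by
      rw [h1, ← hc]
      refine lintegral_mono_ae ?_
      filter_upwards [h2] with l hl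
      push_cast at hl
      have hl' : ν.real A ≤ (κ l).real (incr ⁻¹' A) := by linarith
      rw [measureReal_def, measureReal_def,
        ENNReal.toReal_le_toReal (measure_ne_top _ _) (measure_ne_top _ _)] at hl'
      exact hl'
    have h4 : ν.real A ≤ α.real A := ENNReal.toReal_mono (measure_ne_top _ _) h3
    push_cast
    linarith

private theorem split2 {α π : Measure (ℤ → ℤ)} [IsProbabilityMeasure α]
    [IsProbabilityMeasure π] {a : ℝ} (ha : 0 < a) (ha1 : a < 1)
    (hle : ENNReal.ofReal a • α ≤ π) : ∃ β : Measure (ℤ → ℤ), IsProbabilityMeasure β ∧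
      π = ENNReal.ofReal a • α + ENNReal.ofReal (1 - a) • β := by
  have hfin : IsFiniteMeasure (ENNReal.ofReal a • α) := Measure.smul_finite α ENNReal.ofReal_ne_top
  have h0 : ENNReal.ofReal (1 - a) ≠ 0 := by
    rw [Ne, ENNReal.ofReal_eq_zero, not_le]
    linarith
  have hD : (π - ENNReal.ofReal a • α) Set.univ = ENNReal.ofReal (1 - a) := by
    rw [Measure.sub_apply MeasurableSet.univ hle, measure_univ, Measure.smul_apply, measure_univ,
      smul_eq_mul, mul_one, ENNReal.ofReal_sub _ ha.le, ENNReal.ofReal_one]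
  refine ⟨(ENNReal.ofReal (1 - a))⁻¹ • (π - ENNReal.ofReal a • α), ⟨?_⟩, ?_⟩
  · rw [Measure.smul_apply, hD, smul_eq_mul, ENNReal.inv_mul_cancel h0 ENNReal.ofReal_ne_top]
  · rw [smul_smul, ENNReal.mul_inv_cancel h0 ENNReal.ofReal_ne_top, one_smul, add_comm]
    exact (Measure.sub_add_cancel_of_le hle).symm

private theorem ext_of_top {ν : Measure (ℤ → ℤ)} [hν : IsProbabilityMeasure ν] (hs : Stn SI ν)
    {e : ℤ} (he : e * e = 1)
    (hall : ∀ α : Measure (ℤ → ℤ), IsProbabilityMeasure α → Stn SI α → Rl e α ν) : ExtI ν := by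
  refine ⟨hν, hs, fun α hα hαs C hC hle => ?_⟩
  obtain ⟨c, hc⟩ : ∃ c, c = max C.toReal 2 := ⟨_, rfl⟩
  have hc2 : 2 ≤ c := hc ▸ le_max_right _ _
  have hc0 : 0 < c := by linarith
  have hCc : C ≤ ENNReal.ofReal c := by
    rw [← ENNReal.ofReal_toReal hC]
    exact ENNReal.ofReal_le_ofReal (hc ▸ le_max_left _ _)
  have ha : 0 < 1 / c := by positivity
  have ha1 : 1 / c < 1 := by
    rw [div_lt_one hc0]
    linarith
  have hle' : ENNReal.ofReal (1 / c) • α ≤ ν := by
    rw [Measure.le_iff]
    intro S hS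
    rw [Measure.smul_apply, smul_eq_mul]
    have h1 : α S ≤ ENNReal.ofReal c * ν S := by
      have h2 := Measure.le_iff.1 hle S hS
      rw [Measure.smul_apply, smul_eq_mul] at h2
      exact h2.trans (mul_le_mul' hCc le_rfl)
    calc ENNReal.ofReal (1 / c) * α S
        ≤ ENNReal.ofReal (1 / c) * (ENNReal.ofReal c * ν S) := mul_le_mul' le_rfl h1
      _ = ν S := by
        rw [← mul_assoc, ← ENNReal.ofReal_mul ha.le, one_div, inv_mul_cancel₀ hc0.ne',
          ENNReal.ofReal_one, one_mul]
  obtain ⟨β, hβ, hsum⟩ := split2 ha ha1 hle'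
  have hf1 : IsFiniteMeasure (ENNReal.ofReal (1 / c) • α) :=
    Measure.smul_finite α ENNReal.ofReal_ne_top
  have hf2 : IsFiniteMeasure (ENNReal.ofReal (1 - 1 / c) • β) :=
    Measure.smul_finite β ENNReal.ofReal_ne_top
  have hβs : Stn SI β := by
    have h1 : Stn SI (ENNReal.ofReal (1 - 1 / c) • β) := by
      refine Stn.of_add (μ := ENNReal.ofReal (1 / c) • α) ?_ (Stn.smul hαs _)
      rw [← hsum]
      exact hs
    have h2 := Stn.smul h1 (ENNReal.ofReal (1 - 1 / c))⁻¹
    rw [smul_smul, ENNReal.inv_mul_cancel, one_smul] at h2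
    · exact h2
    · rw [Ne, ENNReal.ofReal_eq_zero, not_le]
      linarith
    · exact ENNReal.ofReal_ne_top
  refine VV_unique he (fun l => ?_)
  have h1 := Rl_VV he (hall α hα hαs) l
  have h2 := Rl_VV he (hall β hβ hβs) l
  have h3 : ν.real (VV e l) = 1 / c * α.real (VV e l) + (1 - 1 / c) * β.real (VV e l) := by
    have h4 : ν.real (VV e l) =
        (ENNReal.ofReal (1 / c) • α + ENNReal.ofReal (1 - 1 / c) • β).real (VV e l) := by
      rw [← hsum]
    rw [h4, measureReal_add_apply, measureReal_ennreal_smul_apply, measureReal_ennreal_smul_apply,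
      ENNReal.toReal_ofReal ha.le, ENNReal.toReal_ofReal (by linarith)]
  have h5 : (1 - 1 / c) * β.real (VV e l) ≤ (1 - 1 / c) * ν.real (VV e l) :=
    mul_le_mul_of_nonneg_left h2 (by linarith)
  have h6 : 1 / c * ν.real (VV e l) ≤ 1 / c * α.real (VV e l) := by linarith
  exact le_antisymm h1 (le_of_mul_le_mul_left h6 ha)

private theorem main (e : ℤ) (he : e * e = 1) : ∃ ν : Measure (ℤ → ℤ), ExtI ν ∧
    ∀ α : Measure (ℤ → ℤ), IsProbabilityMeasure α → Stn SI α → Rl e α ν := by
  obtain ⟨v, hv, _⟩ := exists_big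
  have hne : Nonempty {π : Measure (ℤ → ℤ) // ExtI π} := ⟨⟨_, mu_ext hv⟩⟩
  have hprob : ∀ π : {π : Measure (ℤ → ℤ) // ExtI π}, IsProbabilityMeasure π.1 := fun π => π.2.1
  obtain ⟨en, hen⟩ := exists_surjective_nat (List (ℤ × ℤ))
  have hbdd : ∀ l, BddAbove (Set.range fun π : {π : Measure (ℤ → ℤ) // ExtI π} =>
      π.1.real (VV e l)) := by
    intro l
    refine ⟨1, ?_⟩
    rintro _ ⟨π, rfl⟩
    exact measureReal_le_one
  have hch : ∀ (i j : ℕ), ∃ π : {π : Measure (ℤ → ℤ) // ExtI π},
      (⨆ π : {π : Measure (ℤ → ℤ) // ExtI π}, π.1.real (VV e (en i))) - 1 / ((j : ℝ) + 1) <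
        π.1.real (VV e (en i)) := by
    intro i j
    refine exists_lt_of_lt_ciSup ?_
    have : (0 : ℝ) < 1 / ((j : ℝ) + 1) := by positivity
    linarith
  choose ch hch using hch
  obtain ⟨τ, hτ1, hτ2⟩ := chain (fun π π' : {π : Measure (ℤ → ℤ) // ExtI π} => Rl e π.1 π'.1)
    (fun π => Rl_refl e π.1) (fun π π' => Rl_total he π.2 π'.2)
    (fun k => ch (Nat.unpair k).1 (Nat.unpair k).2)
  have hmono : ∀ j k, j ≤ k → Rl e (τ j).1 (τ k).1 := by
    intro j k hjk
    induction k, hjk using Nat.le_induction with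
    | base => exact Rl_refl e _
    | succ k _ ih => exact Rl_trans ih (hτ2 k)
  obtain ⟨ν, hν, hlim⟩ := lim_exists (fun k => (τ k).1) (fun k => (τ k).2.1) (by
    intro y ε hε
    obtain ⟨m, hm⟩ := utight ε hε
    refine ⟨Finset.Icc (-(m : ℤ)) m, Filter.Eventually.of_forall fun i => ?_⟩
    have h1 := hm (τ i).1 (τ i).2.1 (τ i).2.2.1 y
    have h2 : {x : ℤ → ℤ | x y ∉ Finset.Icc (-(m : ℤ)) m} = {η | (m : ℤ) < |η y|} := by
      ext η
      show ¬ (η y ∈ Finset.Icc (-(m : ℤ)) m) ↔ (m : ℤ) < |η y|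
      rw [Finset.mem_Icc, ← abs_le, not_le]
    rw [h2]
    exact h1)
  have hνs : Stn SI ν := by
    refine lim_stn SI (fun k => (τ k).1) ν hlim (fun n f hf hb => ?_)
    have h1 : ∀ i, ∑ s ∈ Finset.Icc (-(n : ℤ)) (n + 1),
        (∫ x, f (SI.T s x) ∂(τ i).1 - ∫ x, f x ∂(τ i).1) = 0 := fun i => (τ i).2.2.1 n f hf hb
    simp only [h1]
    exact tendsto_const_nhds
  have hτν : ∀ k, Rl e (τ k).1 ν := by
    intro k M A hA hD hi
    refine ge_of_tendsto ((lim_real hlim hA hD).const_mul (e : ℝ)) ?_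
    filter_upwards [Nat.hyperfilter_le_atTop (eventually_ge_atTop k)] with i hi'
    exact hmono k i hi' M A hA hD hi
  have hVE : ∀ π, ExtI π → ∀ l, π.real (VV e l) ≤ ν.real (VV e l) := by
    intro π hπ l
    obtain ⟨i, rfl⟩ := hen l
    refine le_of_forall_pos_le_add fun ε hε => ?_
    obtain ⟨j, hj⟩ := exists_nat_one_div_lt hε
    have h1 := hch i j
    have h2 : π.real (VV e (en i)) ≤ ⨆ π : {π : Measure (ℤ → ℤ) // ExtI π},
        π.1.real (VV e (en i)) := le_ciSup (hbdd (en i)) ⟨π, hπ⟩
    have h3 := hτ1 (Nat.pair i j)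
    rw [Nat.unpair_pair] at h3
    have hp1 := hprob (ch i j)
    have hp2 := hprob (τ (Nat.pair i j))
    have h4 := Rl_VV he h3 (en i)
    have h5 := Rl_VV he (hτν (Nat.pair i j)) (en i)
    linarith
  have hE : ∀ π, ExtI π → Rl e π ν := by
    intro π hπ
    by_cases h : ∃ k, Rl e π (τ k).1
    · obtain ⟨k, hk⟩ := h
      exact Rl_trans hk (hτν k)
    · push Not at h
      have hp1 : IsProbabilityMeasure π := hπ.1
      have h1 : ∀ k, Rl e (τ k).1 π := fun k => (Rl_total he (τ k).2 hπ).resolve_right (h k)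
      have h2 : π = ν := by
        refine VV_unique he (fun l => le_antisymm (hVE π hπ l) ?_)
        obtain ⟨M, hM⟩ := VV_dep e l
        refine le_of_tendsto (lim_real hlim (VV_meas e l) hM)
          (Filter.Eventually.of_forall fun k => ?_)
        have hp2 := hprob (τ k)
        exact Rl_VV he (h1 k) l
      rw [h2]
      exact Rl_refl e ν
  have hall : ∀ α : Measure (ℤ → ℤ), IsProbabilityMeasure α → Stn SI α → Rl e α ν :=
    fun α hα hαs => mix_le hαs he hE
  exact ⟨ν, ext_of_top hνs he hall, hall⟩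

theorem top_law : ∃ ν : Measure (ℤ → ℤ), ExtI ν ∧
    ∀ α : Measure (ℤ → ℤ), IsProbabilityMeasure α → Stn SI α → LeI α ν := by
  obtain ⟨ν, h1, h2⟩ := main 1 (by norm_num)
  refine ⟨ν, h1, fun α hα hαs M A hA hD hi => ?_⟩
  have h3 := h2 α hα hαs M A hA hD hi
  push_cast at h3
  linarith

theorem bot_law : ∃ ν : Measure (ℤ → ℤ), ExtI ν ∧
    ∀ α : Measure (ℤ → ℤ), IsProbabilityMeasure α → Stn SI α → LeI ν α := by
  obtain ⟨ν, h1, h2⟩ := main (-1) (by norm_num)
  refine ⟨ν, h1, fun α hα hαs M A hA hD hi => ?_⟩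
  have h3 := h2 α hα hαs M A hA hD hi
  push_cast at h3
  linarith

end Pool.MP4bb68cEx
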